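import Mathlib

set_option autoImplicit false

/-!
# The Carleson operator on the line (for MP_ee701d_an, CRL): tiles

Dyadic intervals, tiles, wave packets (Lacey–Thiele form of the Carleson operator).
-/

namespace Pool.Agent.CAR

open MeasureTheory Set
open scoped ENNReal NNReal

/-- `[2^k l, 2^k (l+1))` -/
def dy (k l : ℤ) : Set ℝ := Ico ((2 : ℝ) ^ k * l) ((2 : ℝ) ^ k * (l + 1))

/-- a tile: scale `k`, position `l`, frequency `m` -/
@[ext] structure Tile where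
  k : ℤ
  l : ℤ
  m : ℤ
deriving DecidableEq

/-- time interval of length `2^k` -/
def Tile.I (s : Tile) : Set ℝ := dy s.k s.l

/-- frequency interval of length `2^(-k)` -/
def Tile.om (s : Tile) : Set ℝ := dy (-s.k) s.m

/-- lower half of the frequency interval (contains the frequencies of the wave packet) -/
def Tile.lo (s : Tile) : Set ℝ := dy (-s.k - 1) (2 * s.m)

/-- upper half of the frequency interval (contains `N x`) -/
def Tile.up (s : Tile) : Set ℝ := dy (-s.k - 1) (2 * s.m + 1)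

/-- `2^(-k) x - l` -/
noncomputable def Tile.u (s : Tile) (x : ℝ) : ℝ := (2 : ℝ) ^ (-s.k) * x - s.l

/-- order of tiles -/
def TLE (s u : Tile) : Prop := s.I ⊆ u.I ∧ u.om ⊆ s.om

/-! ### dyadic intervals -/

theorem two_zpow_pos (k : ℤ) : (0 : ℝ) < (2 : ℝ) ^ k := zpow_pos (by norm_num) k

theorem two_zpow_mul_neg (k : ℤ) : (2 : ℝ) ^ k * (2 : ℝ) ^ (-k) = 1 := by
  rw [← zpow_add₀ (by norm_num)]; simp

theorem two_zpow_neg_mul (k : ℤ) : (2 : ℝ) ^ (-k) * (2 : ℝ) ^ k = 1 := by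
  rw [← zpow_add₀ (by norm_num)]; simp

theorem two_zpow_le {a b : ℤ} (h : a ≤ b) : (2 : ℝ) ^ a ≤ (2 : ℝ) ^ b :=
  zpow_le_zpow_right₀ (by norm_num) h

theorem two_zpow_lt {a b : ℤ} (h : a < b) : (2 : ℝ) ^ a < (2 : ℝ) ^ b :=
  zpow_lt_zpow_right₀ (by norm_num) h

theorem two_zpow_succ (k : ℤ) : (2 : ℝ) ^ (k + 1) = 2 * (2 : ℝ) ^ k := by
  rw [zpow_add₀ (by norm_num)]; ring

theorem mem_dy {k l : ℤ} {x : ℝ} : x ∈ dy k l ↔ ⌊(2 : ℝ) ^ (-k) * x⌋ = l := by
  have h := two_zpow_pos k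
  have h2 := two_zpow_mul_neg k
  have h' := two_zpow_pos (-k)
  rw [Int.floor_eq_iff, dy, mem_Ico]
  constructor
  · rintro ⟨h3, h4⟩
    constructor
    · have := mul_le_mul_of_nonneg_left h3 h'.le
      rw [← mul_assoc, two_zpow_neg_mul, one_mul] at this; exact this
    · have := mul_lt_mul_of_pos_left h4 h'
      rw [← mul_assoc, two_zpow_neg_mul, one_mul] at this; exact this
  · rintro ⟨h3, h4⟩
    constructor
    · have := mul_le_mul_of_nonneg_left h3 h.le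
      rw [← mul_assoc _ _ x, h2, one_mul] at this; exact this
    · have := mul_lt_mul_of_pos_left h4 h
      rw [← mul_assoc _ _ x, h2, one_mul] at this; exact this

theorem mem_dy_iff {k l : ℤ} {x : ℝ} :
    x ∈ dy k l ↔ (l : ℝ) ≤ (2 : ℝ) ^ (-k) * x ∧ (2 : ℝ) ^ (-k) * x < l + 1 := by
  rw [mem_dy, Int.floor_eq_iff]

theorem left_mem_dy (k l : ℤ) : (2 : ℝ) ^ k * l ∈ dy k l := by
  rw [dy, mem_Ico]
  refine ⟨le_refl _, ?_⟩
  have := two_zpow_pos k
  nlinarith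

theorem dy_nonempty (k l : ℤ) : (dy k l).Nonempty := ⟨_, left_mem_dy k l⟩

theorem measurableSet_dy (k l : ℤ) : MeasurableSet (dy k l) := measurableSet_Ico

theorem volume_dy (k l : ℤ) : volume (dy k l) = ENNReal.ofReal ((2 : ℝ) ^ k) := by
  rw [dy, Real.volume_Ico]; congr 1; ring

theorem exists_mem_dy (k : ℤ) (x : ℝ) : x ∈ dy k ⌊(2 : ℝ) ^ (-k) * x⌋ := mem_dy.2 rfl

theorem dy_eq_of_mem {k l l' : ℤ} {x : ℝ} (h : x ∈ dy k l) (h' : x ∈ dy k l') : l = l' := by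
  rw [mem_dy] at h h'; rw [← h, h']

/-- the dyadic ancestor -/
theorem dy_sub_anc {k k' l : ℤ} (h : k ≤ k') :
    dy k l ⊆ dy k' (l / 2 ^ (k' - k).toNat) := by
  intro x hx
  obtain ⟨n, hn⟩ : ∃ n : ℕ, k' = k + n := ⟨(k' - k).toNat, by omega⟩
  subst hn
  have e : (k + n - k).toNat = n := by omega
  rw [e]
  rw [mem_dy] at hx ⊢
  have e2 : (2 : ℝ) ^ (-(k + (n : ℤ))) * x = ((2 : ℝ) ^ (-k) * x) / ((2 ^ n : ℕ) : ℝ) := by
    rw [neg_add, zpow_add₀ (by norm_num), zpow_neg _ (n : ℤ), zpow_natCast]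
    push_cast
    rw [div_eq_mul_inv]; ring
  rw [e2, Int.floor_div_natCast, hx]
  push_cast
  rfl

theorem dy_nest {k k' l l' : ℤ} (h : k ≤ k') : dy k l ⊆ dy k' l' ∨ Disjoint (dy k l) (dy k' l') := by
  by_cases hl : l / 2 ^ (k' - k).toNat = l'
  · left; rw [← hl]; exact dy_sub_anc h
  · right
    rw [Set.disjoint_left]
    intro x hx hx'
    exact hl (dy_eq_of_mem (dy_sub_anc h hx) hx')

theorem dy_sub_of_mem {k k' l l' : ℤ} {x : ℝ} (h : k ≤ k') (hx : x ∈ dy k l) (hx' : x ∈ dy k' l') :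
    dy k l ⊆ dy k' l' := by
  rcases dy_nest (l := l) (l' := l') h with h1 | h1
  · exact h1
  · exact absurd hx' (Set.disjoint_left.1 h1 hx)

theorem le_of_dy_sub {k k' l l' : ℤ} (h : dy k l ⊆ dy k' l') : k ≤ k' := by
  by_contra hk
  push Not at hk
  have h1 := measure_mono (μ := volume) h
  rw [volume_dy, volume_dy, ENNReal.ofReal_le_ofReal_iff (two_zpow_pos k').le] at h1
  exact absurd h1 (not_le.2 (two_zpow_lt hk))

theorem dy_split (k l : ℤ) : dy k l = dy (k - 1) (2 * l) ∪ dy (k - 1) (2 * l + 1) := by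
  have e : (2 : ℝ) ^ k = 2 * (2 : ℝ) ^ (k - 1) := by rw [← two_zpow_succ]; congr 1; ring
  have := two_zpow_pos (k - 1)
  ext x
  simp only [dy, mem_union, mem_Ico]
  push_cast
  rw [e]
  constructor
  · rintro ⟨h1, h2⟩
    by_cases h : x < (2 : ℝ) ^ (k - 1) * (2 * l + 1)
    · left; exact ⟨by linarith, h⟩
    · right; push Not at h; exact ⟨h, by linarith⟩
  · rintro (⟨h1, h2⟩ | ⟨h1, h2⟩)
    · exact ⟨by linarith, by nlinarith⟩
    · exact ⟨by nlinarith, by linarith⟩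

theorem dy_half_disj (k l : ℤ) : Disjoint (dy k (2 * l)) (dy k (2 * l + 1)) := by
  rw [Set.disjoint_left]
  intro x h1 h2
  have := dy_eq_of_mem h1 h2
  omega

/-! ### tiles -/

theorem om_eq (s : Tile) : s.om = s.lo ∪ s.up := dy_split _ _

theorem lo_sub (s : Tile) : s.lo ⊆ s.om := by rw [om_eq]; exact subset_union_left

theorem up_sub (s : Tile) : s.up ⊆ s.om := by rw [om_eq]; exact subset_union_right

theorem lo_disj_up (s : Tile) : Disjoint s.lo s.up := dy_half_disj _ _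

theorem lo_lt_up {s : Tile} {x y : ℝ} (hx : x ∈ s.lo) (hy : y ∈ s.up) : x < y := by
  simp only [Tile.lo, Tile.up, dy, mem_Ico] at hx hy
  push_cast at hx hy
  linarith [hx.2, hy.1]

theorem om_sub {s t : Tile} {x : ℝ} (h : s.k ≤ t.k) (hs : x ∈ s.om) (ht : x ∈ t.om) :
    t.om ⊆ s.om := dy_sub_of_mem (by omega) ht hs

theorem om_sub_up {s t : Tile} {x : ℝ} (h : s.k < t.k) (hs : x ∈ s.up) (ht : x ∈ t.om) :
    t.om ⊆ s.up := dy_sub_of_mem (by omega) ht hs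

theorem om_sub_lo {s t : Tile} {x : ℝ} (h : s.k < t.k) (hs : x ∈ s.lo) (ht : x ∈ t.om) :
    t.om ⊆ s.lo := dy_sub_of_mem (by omega) ht hs

theorem up_sub_up {s t : Tile} {x : ℝ} (h : s.k ≤ t.k) (hs : x ∈ s.up) (ht : x ∈ t.up) :
    t.up ⊆ s.up := dy_sub_of_mem (by omega) ht hs

theorem I_nest {s t : Tile} (h : s.k ≤ t.k) : s.I ⊆ t.I ∨ Disjoint s.I t.I := dy_nest h

theorem m_eq {s t : Tile} {x : ℝ} (h : s.k = t.k) (hs : x ∈ s.om) (ht : x ∈ t.om) : s.m = t.m := by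
  rw [Tile.om] at hs ht
  rw [h] at hs
  exact dy_eq_of_mem hs ht

theorem mem_I {s : Tile} {x : ℝ} : x ∈ s.I ↔ 0 ≤ s.u x ∧ s.u x < 1 := by
  rw [Tile.I, mem_dy_iff, Tile.u]
  constructor <;> rintro ⟨h1, h2⟩ <;> constructor <;> linarith

end Pool.Agent.CAR
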