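import Pool.Agent.CAR.HL

set_option autoImplicit false

/-!
# CAR: a smooth cutoff
-/

namespace Pool.Agent.CAR

open MeasureTheory Set ComplexConjugate FourierTransform
open scoped SchwartzMap ContDiff

namespace CHI

theorem schwartz_dec (K : 𝓢(ℝ, ℂ)) : ∃ B : ℝ, 0 < B ∧ ∀ x, ‖K x‖ ≤ B * wt 20 x := by
  set C : ℝ := 2 ^ 20 * ((Finset.Iic ((20, 0) : ℕ × ℕ)).sup fun m =>
    SchwartzMap.seminorm ℝ m.1 m.2) K with hC
  refine ⟨max C 1, lt_of_lt_of_le one_pos (le_max_right _ _), fun x => ?_⟩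
  have h := SchwartzMap.one_add_le_sup_seminorm_apply (𝕜 := ℝ) (m := (20, 0)) (k := 20) (n := 0)
    le_rfl le_rfl K x
  rw [norm_iteratedFDeriv_zero, Real.norm_eq_abs] at h
  have h0 : 0 < (1 + |x|) ^ 20 := by
    have := abs_nonneg x
    positivity
  unfold wt
  rw [← div_eq_mul_inv, le_div_iff₀ h0, mul_comm]
  exact h.trans (le_max_left _ _)

theorem exists_chi : ∃ (B : ℝ) (K χ : ℝ → ℂ), 0 < B ∧ Continuous K ∧ Continuous χ ∧
    (∀ x, ‖K x‖ ≤ B * wt 20 x) ∧ (∀ η ∈ Icc (-(7 / 8) : ℝ) 0, χ η = 1) ∧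
    (∀ η, χ η ≠ 0 → η ∈ Ioo (-1 : ℝ) (1 / 8)) ∧ (∀ η, ‖χ η‖ ≤ 1) ∧
    ∀ η, χ η = ∫ x, K x * e1 (-(x * η)) := by
  let b : ContDiffBump (-(7 / 16) : ℝ) := ⟨7 / 16, 9 / 16, by norm_num, by norm_num⟩
  have hb : ContDiff ℝ ∞ (fun x => (b x : ℂ)) := Complex.ofRealCLM.contDiff.comp b.contDiff
  have hc : HasCompactSupport (fun x => (b x : ℂ)) :=
    b.hasCompactSupport.comp_left (g := fun y : ℝ => (y : ℂ)) (by simp)
  let f : 𝓢(ℝ, ℂ) := hc.toSchwartzMap hb
  have hf : ∀ x, f x = (b x : ℂ) := fun x => rfl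
  let K : 𝓢(ℝ, ℂ) := 𝓕⁻ f
  obtain ⟨B, hB, hdec⟩ := schwartz_dec K
  refine ⟨B, K, f, hB, K.continuous, f.continuous, hdec, ?_, ?_, ?_, ?_⟩
  · intro η hη
    rw [hf, b.one_of_mem_closedBall, Complex.ofReal_one]
    rw [Real.closedBall_eq_Icc]
    constructor <;> simp only [b] <;> linarith [hη.1, hη.2]
  · intro η hη
    rw [hf] at hη
    have h1 : η ∈ Function.support (b : ℝ → ℝ) := by
      intro h0
      apply hη
      rw [h0]
      simp
    rw [b.support_eq, Real.ball_eq_Ioo] at h1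
    simp only [b] at h1
    constructor <;> linarith [h1.1, h1.2]
  · intro η
    rw [hf, Complex.norm_real, Real.norm_eq_abs, abs_of_nonneg b.nonneg]
    exact b.le_one
  · intro η
    have h1 : (𝓕 K : 𝓢(ℝ, ℂ)) η = f η := by
      rw [FourierTransform.fourier_fourierInv_eq]
    rw [← h1, SchwartzMap.fourier_coe, Real.fourier_real_eq]
    refine integral_congr_ae (Filter.Eventually.of_forall fun x => ?_)
    simp only
    rw [Circle.smul_def, Real.fourierChar_apply, smul_eq_mul, mul_comm]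
    unfold e1
    congr 2
    push_cast
    ring

end CHI

end Pool.Agent.CAR
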