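import Pool.Agent.CAR.Basic

set_option autoImplicit false

/-!
# The Carleson operator on the line: wave packets, energy, mass, the two interface statements
-/

namespace Pool.Agent.CAR

open MeasureTheory Set ComplexConjugate
open scoped ENNReal NNReal

/-- `e^{2 π i x}` -/
noncomputable def e1 (x : ℝ) : ℂ := Complex.exp (2 * Real.pi * Complex.I * (x : ℂ))

/-- the weight `(1+|t|)^(-n)` -/
noncomputable def wt (n : ℕ) (t : ℝ) : ℝ := ((1 + |t|) ^ n)⁻¹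

/-- a pair `φ`, `Φ = φ^` with `Φ` supported in `[1/8, 3/8]` and `|φ(x)| ≤ A (1+|x|)^(-20)` -/
structure WPk (A : ℝ) (φ Φ : ℝ → ℂ) : Prop where
  pos : 0 < A
  cφ : Continuous φ
  cΦ : Continuous Φ
  supp : ∀ ξ, Φ ξ ≠ 0 → ξ ∈ Icc (1 / 8 : ℝ) (3 / 8)
  bd : ∀ ξ, ‖Φ ξ‖ ≤ A
  dec : ∀ x, ‖φ x‖ ≤ A * wt 20 x
  inv : ∀ x, φ x = ∫ ξ, Φ ξ * e1 (x * ξ)
  ft : ∀ ξ, Φ ξ = ∫ x, φ x * e1 (-(x * ξ))

/-- the wave packet of the tile `s`: `2^(-k/2) φ(2^(-k) x - l) e^{2 π i 2^(-k) m x}` -/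
noncomputable def fx (φ : ℝ → ℂ) (s : Tile) (x : ℝ) : ℂ :=
  ((Real.sqrt ((2 : ℝ) ^ s.k))⁻¹ : ℝ) * φ (s.u x) * e1 ((2 : ℝ) ^ (-s.k) * s.m * x)

/-- its Fourier transform: `2^(k/2) Φ(2^k ξ - m) e^{-2 π i l (2^k ξ - m)}` -/
noncomputable def fr (Φ : ℝ → ℂ) (s : Tile) (ξ : ℝ) : ℂ :=
  (Real.sqrt ((2 : ℝ) ^ s.k) : ℝ) * Φ ((2 : ℝ) ^ s.k * ξ - s.m) *
    e1 (-(s.l * ((2 : ℝ) ^ s.k * ξ - s.m)))

/-- the coefficient `⟨f, φ_s⟩`, where `g = f^` -/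
noncomputable def co (Φ g : ℝ → ℂ) (s : Tile) : ℂ := ∫ ξ, g ξ * conj (fr Φ s ξ)

/-- `∫ b φ_s 1_{N ∈ up(s)}` -/
noncomputable def av (φ b : ℝ → ℂ) (N : ℝ → ℝ) (s : Tile) : ℂ :=
  ∫ x in N ⁻¹' s.up, b x * fx φ s x

/-- the data of the Carleson operator: `g = f^`, `b` a measurable function with `|b| ≤ 1_E` (the
signs), `N` the linearising function -/
structure Dat (g b : ℝ → ℂ) (N : ℝ → ℝ) (E : Set ℝ) : Prop where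
  mg : Measurable g
  ig : Integrable g
  sg : Integrable (fun ξ => ‖g ξ‖ ^ 2)
  mb : Measurable b
  bE : ∀ x, x ∈ E → ‖b x‖ ≤ 1
  b0 : ∀ x, x ∉ E → b x = 0
  mN : Measurable N
  mE : MeasurableSet E
  fE : volume E ≠ ⊤

/-- `‖g‖₂` -/
noncomputable def n2 (g : ℝ → ℂ) : ℝ := Real.sqrt (∫ ξ, ‖g ξ‖ ^ 2)

/-- `|E|` -/
noncomputable def vol (E : Set ℝ) : ℝ := (volume E).toReal

/-- **MODEL** (helper18): the model sum. `A` comes first, so that the bound is uniform over all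
wave packets with constant `A`. -/
def T_MODEL : Prop := ∀ A : ℝ, ∃ C : ℝ, 0 < C ∧ ∀ (φ Φ g b : ℝ → ℂ) (N : ℝ → ℝ) (E : Set ℝ),
  WPk A φ Φ → Dat g b N E → ∀ S : Finset Tile,
    ∑ s ∈ S, ‖co Φ g s‖ * ‖av φ b N s‖ ≤ C * n2 g * Real.sqrt (vol E)

/-- **CARL** (final statement of part (A)): for `g ∈ L¹ ∩ L²`,
`∫_E sup_N |∫_{ξ < N} g(ξ) e^{2 π i x ξ} dξ| dx ≤ C |E|^{1/2} ‖g‖₂`. -/
def T_CARL : Prop := ∃ C : ℝ≥0, ∀ (g : ℝ → ℂ) (E : Set ℝ), Measurable g → Integrable g →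
  Integrable (fun ξ => ‖g ξ‖ ^ 2) → MeasurableSet E → volume E ≠ ⊤ →
    ∫⁻ x in E, (⨆ n : ℝ, ‖∫ ξ in Iio n, g ξ * e1 (x * ξ)‖ₑ) ≤
      C * (∫⁻ ξ, ‖g ξ‖ₑ ^ 2) ^ (1 / 2 : ℝ) * volume E ^ (1 / 2 : ℝ)

end Pool.Agent.CAR
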