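import Pool.Agent.CAR.Defs

set_option autoImplicit false

/-!
# The Carleson operator on the line: weights, and the geometric sum (item 3 of the blueprint)
-/

namespace Pool.Agent.CAR

open MeasureTheory Set
open scoped ENNReal NNReal

/-! ### weights -/

theorem wt_pos (n : ℕ) (t : ℝ) : 0 < wt n t := by
  unfold wt
  have : 0 < 1 + |t| := by positivity
  positivity

theorem wt_nonneg (n : ℕ) (t : ℝ) : 0 ≤ wt n t := (wt_pos n t).le

theorem wt_le_one (n : ℕ) (t : ℝ) : wt n t ≤ 1 := by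
  unfold wt
  apply inv_le_one_of_one_le₀
  exact one_le_pow₀ (by linarith [abs_nonneg t])

theorem wt_anti {m n : ℕ} (h : m ≤ n) (t : ℝ) : wt n t ≤ wt m t := by
  unfold wt
  have h1 : (1 : ℝ) ≤ 1 + |t| := by linarith [abs_nonneg t]
  exact inv_anti₀ (by positivity) (pow_le_pow_right₀ h1 h)

theorem wt_mono {n : ℕ} {t t' : ℝ} (h : |t'| ≤ |t|) : wt n t ≤ wt n t' := by
  unfold wt
  have h1 : (0 : ℝ) < 1 + |t'| := by linarith [abs_nonneg t']
  exact inv_anti₀ (by positivity) (pow_le_pow_left₀ h1.le (by linarith) n)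

theorem wt_mul (m n : ℕ) (t : ℝ) : wt (m + n) t = wt m t * wt n t := by
  unfold wt
  rw [pow_add, mul_inv]

theorem continuous_wt (n : ℕ) : Continuous (wt n) := by
  unfold wt
  refine Continuous.inv₀ (by fun_prop) ?_
  intro t
  have : 0 < 1 + |t| := by positivity
  positivity

theorem wt_le_inv_sq {n : ℕ} (hn : 2 ≤ n) (t : ℝ) : wt n t ≤ (1 + t ^ 2)⁻¹ := by
  refine (wt_anti hn t).trans ?_
  unfold wt
  refine inv_anti₀ (by positivity) ?_
  nlinarith [abs_nonneg t, sq_abs t]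

theorem integrable_wt {n : ℕ} (hn : 2 ≤ n) : Integrable (wt n) := by
  refine integrable_inv_one_add_sq.mono' (continuous_wt n).aestronglyMeasurable ?_
  refine Filter.Eventually.of_forall fun t => ?_
  rw [Real.norm_of_nonneg (wt_nonneg n t)]
  exact wt_le_inv_sq hn t

theorem integral_wt_le {n : ℕ} (hn : 2 ≤ n) : ∫ t, wt n t ≤ 4 := by
  have h1 : ∫ t, wt n t ≤ ∫ t : ℝ, (1 + t ^ 2)⁻¹ :=
    integral_mono (integrable_wt hn) integrable_inv_one_add_sq (wt_le_inv_sq hn)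
  rw [integral_univ_inv_one_add_sq] at h1
  linarith [Real.pi_le_four]

theorem continuous_u (s : Tile) : Continuous s.u := by
  unfold Tile.u
  fun_prop

theorem integrable_wt_u {n : ℕ} (hn : 2 ≤ n) (s : Tile) : Integrable (fun x => wt n (s.u x)) := by
  unfold Tile.u
  have h := (integrable_wt hn).comp_sub_right (s.l : ℝ)
  exact h.comp_mul_left' (two_zpow_pos _).ne'

theorem integral_wt_u {n : ℕ} (s : Tile) :
    ∫ x, wt n (s.u x) = (2 : ℝ) ^ s.k * ∫ t, wt n t := by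
  unfold Tile.u
  rw [Measure.integral_comp_mul_left (fun y => wt n (y - s.l)) ((2 : ℝ) ^ (-s.k)),
    integral_sub_right_eq_self (fun y => wt n y) (s.l : ℝ), zpow_neg, inv_inv,
    abs_of_pos (two_zpow_pos _), smul_eq_mul]

theorem integral_wt_u_le {n : ℕ} (hn : 2 ≤ n) (s : Tile) :
    ∫ x, wt n (s.u x) ≤ 4 * (2 : ℝ) ^ s.k := by
  rw [integral_wt_u, mul_comm (4 : ℝ)]
  exact mul_le_mul_of_nonneg_left (integral_wt_le hn) (two_zpow_pos _).le

/-! ### position of a tile inside a dyadic interval -/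

theorem dy_sub_pos {k l j l' : ℤ} (h : dy j l' ⊆ dy k l) :
    j ≤ k ∧ (2 : ℤ) ^ (k - j).toNat * l ≤ l' ∧ l' + 1 ≤ 2 ^ (k - j).toNat * (l + 1) := by
  have hjk := le_of_dy_sub h
  have h1 : l' / 2 ^ (k - j).toNat = l :=
    dy_eq_of_mem (dy_sub_anc hjk (left_mem_dy j l')) (h (left_mem_dy j l'))
  have h2 : (0 : ℤ) < 2 ^ (k - j).toNat := by positivity
  refine ⟨hjk, ?_, ?_⟩
  · rw [← h1]; exact Int.mul_ediv_self_le h2.ne'
  · have := Int.lt_mul_ediv_self_add (x := l') h2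
    rw [h1] at this
    rw [mul_add, mul_one]; omega

theorem two_zpow_eq {k j : ℤ} (h : j ≤ k) :
    (2 : ℝ) ^ (-j) = (2 : ℝ) ^ (k - j).toNat * (2 : ℝ) ^ (-k) := by
  rw [← zpow_natCast, ← zpow_add₀ (by norm_num)]
  congr 1
  omega

theorem two_zpow_eq' {k j : ℤ} (h : j ≤ k) :
    (2 : ℝ) ^ j = (2 : ℝ) ^ k * (1 / 2) ^ (k - j).toNat := by
  rw [one_div, inv_pow, ← zpow_natCast, ← zpow_neg, ← zpow_add₀ (by norm_num)]
  congr 1
  omega

theorem wt_out {s : Tile} {k l : ℤ} (h : s.I ⊆ dy k l) {x : ℝ} (hx : x ∉ dy k l) :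
    wt 10 (s.u x) ≤
      (((1 + ((s.l - 2 ^ (k - s.k).toNat * l).toNat : ℝ)) ^ 2)⁻¹ +
        ((1 + ((2 ^ (k - s.k).toNat * (l + 1) - (s.l + 1)).toNat : ℝ)) ^ 2)⁻¹) *
        wt 8 (s.u x) := by
  obtain ⟨h1, h2, h3⟩ := dy_sub_pos h
  set d := (k - s.k).toNat with hd
  have e0 : (2 : ℝ) ^ (-s.k) = (2 : ℝ) ^ d * (2 : ℝ) ^ (-k) := two_zpow_eq h1
  have hp : (((s.l - 2 ^ d * l).toNat : ℕ) : ℝ) = (s.l : ℝ) - 2 ^ d * l := by
    have : (((s.l - 2 ^ d * l).toNat : ℕ) : ℤ) = s.l - 2 ^ d * l := Int.toNat_of_nonneg (by omega)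
    exact_mod_cast this
  have hq : (((2 ^ d * (l + 1) - (s.l + 1)).toNat : ℕ) : ℝ) = (2 : ℝ) ^ d * (l + 1) - (s.l + 1) := by
    have : (((2 ^ d * (l + 1) - (s.l + 1)).toNat : ℕ) : ℤ) = 2 ^ d * (l + 1) - (s.l + 1) :=
      Int.toNat_of_nonneg (by omega)
    exact_mod_cast this
  rw [hp, hq]
  have hw : wt 10 (s.u x) = wt 2 (s.u x) * wt 8 (s.u x) := wt_mul 2 8 _
  rw [hw]
  refine mul_le_mul_of_nonneg_right ?_ (wt_nonneg _ _)
  have hp0 : (0 : ℝ) ≤ (s.l : ℝ) - 2 ^ d * l := by rw [← hp]; positivity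
  have hq0 : (0 : ℝ) ≤ (2 : ℝ) ^ d * (l + 1) - (s.l + 1) := by rw [← hq]; positivity
  have h2d : (0 : ℝ) < (2 : ℝ) ^ d := by positivity
  have hi1 : 0 ≤ ((1 + ((s.l : ℝ) - 2 ^ d * l)) ^ 2)⁻¹ := by positivity
  have hi2 : 0 ≤ ((1 + ((2 : ℝ) ^ d * (l + 1) - (s.l + 1))) ^ 2)⁻¹ := by positivity
  rw [mem_dy_iff, not_and_or, not_le, not_lt] at hx
  rcases hx with hx | hx
  · have hu : s.u x ≤ -((s.l : ℝ) - 2 ^ d * l) := by
      unfold Tile.u
      rw [e0, mul_assoc]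
      have := mul_le_mul_of_nonneg_left hx.le h2d.le
      linarith
    have hu2 : (s.l : ℝ) - 2 ^ d * l ≤ |s.u x| := by
      rw [abs_of_nonpos (by linarith)]; linarith
    have : wt 2 (s.u x) ≤ ((1 + ((s.l : ℝ) - 2 ^ d * l)) ^ 2)⁻¹ := by
      unfold wt
      exact inv_anti₀ (by positivity) (pow_le_pow_left₀ (by linarith) (by linarith) 2)
    linarith
  · have hu : (2 : ℝ) ^ d * (l + 1) - s.l ≤ s.u x := by
      unfold Tile.u
      rw [e0, mul_assoc]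
      have := mul_le_mul_of_nonneg_left hx h2d.le
      linarith
    have hu2 : (2 : ℝ) ^ d * (l + 1) - (s.l + 1) ≤ |s.u x| := by
      rw [abs_of_nonneg (by linarith)]; linarith
    have : wt 2 (s.u x) ≤ ((1 + ((2 : ℝ) ^ d * (l + 1) - (s.l + 1))) ^ 2)⁻¹ := by
      unfold wt
      exact inv_anti₀ (by positivity) (pow_le_pow_left₀ (by linarith) (by linarith) 2)
    linarith

/-- the series `Σ 2^(-d) (1+p)^(-2)` -/
noncomputable def gs (z : ℕ × ℕ) : ℝ := (1 / 2 : ℝ) ^ z.1 * ((1 + (z.2 : ℝ)) ^ 2)⁻¹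

theorem gs_nonneg (z : ℕ × ℕ) : 0 ≤ gs z := by unfold gs; positivity

theorem summable_gs : Summable gs := by
  have h1 : Summable (fun n : ℕ => (1 / 2 : ℝ) ^ n) :=
    summable_geometric_of_lt_one (by norm_num) (by norm_num)
  have h2 : Summable (fun n : ℕ => ((1 + (n : ℝ)) ^ 2)⁻¹) := by
    have h3 : Summable (fun n : ℕ => ((n : ℝ) ^ 2)⁻¹) := Real.summable_nat_pow_inv.2 (by norm_num)
    have h4 := (summable_nat_add_iff 1).2 h3
    refine h4.congr fun n => ?_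
    push_cast
    rw [add_comm]
  exact h1.mul_of_nonneg h2 (fun n => by positivity) (fun n => by positivity)

theorem sum_gs_le {ι : Type*} (T : Finset ι) (f : ι → ℕ × ℕ) (hf : Set.InjOn f T) :
    ∑ s ∈ T, gs (f s) ≤ ∑' z, gs z := by
  classical
  rw [← Finset.sum_image (f := gs) hf]
  exact summable_gs.sum_le_tsum _ (fun z _ => gs_nonneg z)

theorem tsum_gs_nonneg : 0 ≤ ∑' z, gs z := tsum_nonneg gs_nonneg

/-- **GEO** -/
theorem geo : ∃ C : ℝ, 0 < C ∧ ∀ (T : Finset Tile) (k l : ℤ), (∀ s ∈ T, s.I ⊆ dy k l) →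
    (∀ s ∈ T, ∀ t ∈ T, s.k = t.k → s.l = t.l → s = t) →
      ∑ s ∈ T, ∫ x in (dy k l)ᶜ, wt 10 (s.u x) ≤ C * (2 : ℝ) ^ k := by
  refine ⟨8 * ∑' z, gs z + 1, by have := tsum_gs_nonneg; positivity, ?_⟩
  intro T k l hT hinj
  have hpos := two_zpow_pos k
  have key : ∀ s ∈ T, ∫ x in (dy k l)ᶜ, wt 10 (s.u x) ≤
      4 * (2 : ℝ) ^ k *
        (gs ((k - s.k).toNat, (s.l - 2 ^ (k - s.k).toNat * l).toNat) +
          gs ((k - s.k).toNat, (2 ^ (k - s.k).toNat * (l + 1) - (s.l + 1)).toNat)) := by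
    intro s hs
    obtain ⟨h1, h2, h3⟩ := dy_sub_pos (hT s hs)
    set c : ℝ := (((1 + ((s.l - 2 ^ (k - s.k).toNat * l).toNat : ℝ)) ^ 2)⁻¹ +
        ((1 + ((2 ^ (k - s.k).toNat * (l + 1) - (s.l + 1)).toNat : ℝ)) ^ 2)⁻¹) with hc
    have hc0 : 0 ≤ c := by rw [hc]; positivity
    have hm : MeasurableSet (dy k l)ᶜ := (measurableSet_dy k l).compl
    have e1 : ∫ x in (dy k l)ᶜ, wt 10 (s.u x) ≤ ∫ x in (dy k l)ᶜ, c * wt 8 (s.u x) := by
      refine setIntegral_mono_on (integrable_wt_u (by norm_num) s).integrableOn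
        ((integrable_wt_u (by norm_num) s).const_mul c).integrableOn hm ?_
      intro x hx
      exact wt_out (hT s hs) hx
    have e2 : ∫ x in (dy k l)ᶜ, c * wt 8 (s.u x) ≤ ∫ x, c * wt 8 (s.u x) := by
      refine setIntegral_le_integral ((integrable_wt_u (by norm_num) s).const_mul c) ?_
      exact Filter.Eventually.of_forall fun x => mul_nonneg hc0 (wt_nonneg _ _)
    have e2' : ∫ x, c * wt 8 (s.u x) = c * ∫ x, wt 8 (s.u x) := integral_const_mul _ _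
    rw [e2'] at e2
    have e3 : c * ∫ x, wt 8 (s.u x) ≤ c * (4 * (2 : ℝ) ^ s.k) :=
      mul_le_mul_of_nonneg_left (integral_wt_u_le (by norm_num) s) hc0
    refine (e1.trans (e2.trans e3)).trans (le_of_eq ?_)
    rw [two_zpow_eq' h1, hc]
    simp only [gs]
    ring
  have i1 : Set.InjOn (fun s : Tile => ((k - s.k).toNat, (s.l - 2 ^ (k - s.k).toNat * l).toNat))
      T := by
    intro s hs t ht hst
    simp only [Prod.mk.injEq] at hst
    obtain ⟨h1, h2, h3⟩ := dy_sub_pos (hT s hs)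
    obtain ⟨h1', h2', h3'⟩ := dy_sub_pos (hT t ht)
    have hk : s.k = t.k := by omega
    have h4 := hst.2
    rw [hk] at h4 h2
    exact hinj s hs t ht hk (by omega)
  have i2 : Set.InjOn (fun s : Tile =>
      ((k - s.k).toNat, (2 ^ (k - s.k).toNat * (l + 1) - (s.l + 1)).toNat)) T := by
    intro s hs t ht hst
    simp only [Prod.mk.injEq] at hst
    obtain ⟨h1, h2, h3⟩ := dy_sub_pos (hT s hs)
    obtain ⟨h1', h2', h3'⟩ := dy_sub_pos (hT t ht)
    have hk : s.k = t.k := by omega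
    have h4 := hst.2
    rw [hk] at h4 h3
    exact hinj s hs t ht hk (by omega)
  have s1 := sum_gs_le T _ i1
  have s2 := sum_gs_le T _ i2
  calc ∑ s ∈ T, ∫ x in (dy k l)ᶜ, wt 10 (s.u x) ≤ ∑ s ∈ T, 4 * (2 : ℝ) ^ k *
        (gs ((k - s.k).toNat, (s.l - 2 ^ (k - s.k).toNat * l).toNat) +
          gs ((k - s.k).toNat, (2 ^ (k - s.k).toNat * (l + 1) - (s.l + 1)).toNat)) :=
        Finset.sum_le_sum key
    _ = 4 * (2 : ℝ) ^ k *
        (∑ s ∈ T, gs ((k - s.k).toNat, (s.l - 2 ^ (k - s.k).toNat * l).toNat) +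
          ∑ s ∈ T, gs ((k - s.k).toNat, (2 ^ (k - s.k).toNat * (l + 1) - (s.l + 1)).toNat)) := by
        rw [← Finset.mul_sum, Finset.sum_add_distrib]
    _ ≤ 4 * (2 : ℝ) ^ k * (∑' z, gs z + ∑' z, gs z) := by
        gcongr
    _ ≤ (8 * ∑' z, gs z + 1) * (2 : ℝ) ^ k := by nlinarith

end Pool.Agent.CAR
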