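import Pool.Agent.CAR.Defs

set_option autoImplicit false

/-!
# The Carleson operator on the line: from the model sum to the maximal operator

`T_MODEL → T_CARL`: averaging over translations `v` of the packet, over shifts `θ` of the frequency
grid and over dilations. Every target `T_X` is to be proved as `theorem p_X : T_X` (other targets may be
taken as hypotheses) in a NEW file `Pool/Agent/CAR/P_X.lean` importing this one, namespace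
`Pool.Agent.CAR`, helper lemmas in the sub-namespace `X_`.
-/

namespace Pool.Agent.CAR

open MeasureTheory Set ComplexConjugate Filter Topology
open scoped ENNReal NNReal

/-- the packet `φ_v(x) = φ(x - v)`, `φ` the inverse Fourier transform of `ρ` -/
noncomputable def pk (ρ : ℝ → ℝ) (v x : ℝ) : ℂ := ∫ ξ, (ρ ξ : ℂ) * e1 ((x - v) * ξ)

/-- its Fourier transform -/
noncomputable def pkf (ρ : ℝ → ℝ) (v ξ : ℝ) : ℂ := (ρ ξ : ℂ) * e1 (-(v * ξ))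

/-- `ρ` is a bump in `[1/8, 3/8]` and all `φ_v`, `0 ≤ v ≤ 1`, are wave packets with constant `A` -/
structure Bmp (A : ℝ) (ρ : ℝ → ℝ) : Prop where
  cont : Continuous ρ
  supp : ∀ ξ, ρ ξ ≠ 0 → ξ ∈ Icc (1 / 8 : ℝ) (3 / 8)
  nz : ∃ ξ, ρ ξ ≠ 0
  wp : ∀ v ∈ Icc (0 : ℝ) 1, WPk A (pk ρ v) (pkf ρ v)

/-- `B_t(a) = ∫_{1/2}^1 ρ(u - t a)² du` -/
noncomputable def Bt (ρ : ℝ → ℝ) (t a : ℝ) : ℝ := ∫ u in (1 / 2 : ℝ)..1, ρ (u - t * a) ^ 2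

/-- **WPEX** (45 min): such a bump exists. Take a smooth bump `ρ` (`ContDiffBump`, centre `1/4`, radii
`1/16 < 1/8`); its inverse Fourier transform is a Schwartz function (`ρ` is Schwartz), so
`|φ(x)| ≤ A₀ (1+|x|)^(-20)`, and `(1+|x-v|)^(-20) ≤ 2^20 (1+|x|)^(-20)` for `0 ≤ v ≤ 1`
(`1+|x| ≤ 2(1+|x-v|)`). `inv` is the definition (`e1((x-v)ξ) = e1(-vξ) e1(xξ)`); `ft`: Fourier inversion for
the Schwartz function, translated by `v`. -/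
def T_WPEX : Prop := ∃ (A : ℝ) (ρ : ℝ → ℝ), Bmp A ρ

/-- **LV** (45 min): the sum over `l` and the average over `v` reproduce the multiplier `ρ²`.
With `t = 2^k`, `s = (k,l,m)`: `co (pkf ρ v) g s = √t ∫ g(ξ) ρ(tξ-m) e1((l+v)(tξ-m)) dξ` and
`fx (pk ρ v) s x = t^(-1/2) φ(x/t - l - v) e1(m x/t)` (`φ = pk ρ 0`), so with `w = l+v` the left side is
`∫_ℝ (∫ g(ξ) ρ(tξ-m) e1(w(tξ-m)) dξ) φ(x/t-w) e1(m x/t) dw`; Fubini (`g`, `φ` integrable, `ρ` bounded) and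
`∫ φ(x/t-w) e1(w y) dw = e1(x y/t) ρ(y)`, `y = tξ-m` (WPk.ft). The sum of integrals over `[l, l+1)` is the
integral over `ℝ`; the series over `l` converges absolutely, uniformly in `v`
(`|co| ≤ √t A ‖g‖₁`, `|fx| ≤ t^(-1/2) A wt 20 (x/t-l)`). -/
def T_LV : Prop := ∀ (A : ℝ) (ρ : ℝ → ℝ), Bmp A ρ → ∀ g : ℝ → ℂ, Measurable g → Integrable g →
  ∀ (k m : ℤ) (x : ℝ),
    ∫ v in (0 : ℝ)..1, ∑' l : ℤ, co (pkf ρ v) g ⟨k, l, m⟩ * fx (pk ρ v) ⟨k, l, m⟩ x =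
      ∫ ξ, g ξ * ((ρ ((2 : ℝ) ^ k * ξ - m) ^ 2 : ℝ) : ℂ) * e1 (x * ξ)

/-- **TH** (30 min): `frac(a - nθ)` is uniformly distributed. The function `t ↦ h(frac(a - t))` has
period `1`; `∫_0^1 F(nθ) dθ = n⁻¹ ∫_0^n F = ∫_0^1 F` (Mathlib: `Function.Periodic.intervalIntegral_...`),
and `∫_0^1 h(frac(a - t)) dt = ∫_0^1 h` (substitute, periodicity). -/
def T_TH : Prop := ∀ (h : ℝ → ℂ) (a : ℝ) (n : ℕ), 1 ≤ n → Measurable h → (∃ C, ∀ u, ‖h u‖ ≤ C) →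
  ∫ θ in (0 : ℝ)..1, h (Int.fract (a - n * θ)) = ∫ u in (0 : ℝ)..1, h u

/-- the finite averages; `N`, `x` real numbers. The grid is shifted by `2^K θ`: `g` is replaced by
`g(· + 2^K θ)`, `N` by `N - 2^K θ` and `b(x)` by `b(x) e1(2^K θ x)`. -/
noncomputable def Yn (ρ : ℝ → ℝ) (g : ℝ → ℂ) (K n : ℕ) (N x : ℝ) : ℂ :=
  ∫ θ in (0 : ℝ)..1, ∫ v in (0 : ℝ)..1,
    ∑ k ∈ Finset.Icc (-(K : ℤ)) K, ∑ l ∈ Finset.Icc (-(n : ℤ)) n, ∑ m ∈ Finset.Icc (-(n : ℤ)) n,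
      co (pkf ρ v) (fun ξ => g (ξ + 2 ^ K * θ)) ⟨k, l, m⟩ * (e1 (2 ^ K * θ * x) *
        fx (pk ρ v) ⟨k, l, m⟩ x) *
        (Tile.up ⟨k, l, m⟩).indicator (fun _ => (1 : ℂ)) (N - 2 ^ K * θ)

/-- **YN** (60 min; uses LV, TH): bound and limit of the finite averages, for fixed `N`, `x`.
Bound: for each `k` at most one `m` has `N - 2^Kθ ∈ up`, `|co| ≤ √t A ‖g‖₁`,
`|fx| ≤ t^(-1/2) A wt 20 (x/t-l)`, `∑_l wt 20 (y-l) ≤ 10` (say): `|sum| ≤ (2K+1) 10 A² ‖g‖₁`.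
Limit (dominated convergence in `θ` and in `v`): for fixed `θ`, `k` let `t = 2^k`,
`a = t(N - 2^Kθ)`, `m = ⌊a⌋`; the indicator is `1` for this `m` iff `frac a ≥ 1/2` (`up` is
`t⁻¹[m+1/2, m+1)`) and `0` for the other `m`. By LV for `g(· + 2^Kθ)` the limit of the `v`-integral is
`1[frac a ≥ 1/2] e1(2^Kθ x) ∫ g(ξ+2^Kθ) ρ(tξ-m)² e1(xξ) dξ = 1[frac a ≥ 1/2] ∫ g(ξ) ρ(frac a - t(N-ξ))²
e1(xξ) dξ` (substitute `ξ → ξ - 2^Kθ`; `t(ξ-2^Kθ) - m = frac a - t(N-ξ)`). TH with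
`h(u) = 1[u ≥ 1/2] ∫ g(ξ) ρ(u - t(N-ξ))² e1(xξ) dξ`, `n = 2^(K+k)`, and Fubini. -/
def T_YN : Prop := ∀ (A : ℝ) (ρ : ℝ → ℝ), Bmp A ρ → ∀ g : ℝ → ℂ, Measurable g → Integrable g →
  ∀ K : ℕ, ∃ C : ℝ, (∀ (n : ℕ) (N x : ℝ), ‖Yn ρ g K n N x‖ ≤ C) ∧
    ∀ N x : ℝ, Tendsto (fun n => Yn ρ g K n N x) atTop
      (𝓝 (∑ k ∈ Finset.Icc (-(K : ℤ)) K,
        ∫ ξ, g ξ * (Bt ρ ((2 : ℝ) ^ k) (N - ξ) : ℂ) * e1 (x * ξ)))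

/-- **AVB** (60 min; uses MODEL, YN): the truncated operator, dilation parameter `1`. For each
`θ, v ∈ [0,1]` T_MODEL (packet `pk ρ v`; data `g(· + 2^Kθ)`, `b(x) e1(2^Kθ x)`, `N - 2^Kθ`, `E`; the tiles
`|k| ≤ K`, `|l|, |m| ≤ n`) gives `|∑ co av| ≤ C ‖g‖₂ √|E|`; integrate over `θ, v ∈ [0,1]`; by Fubini (finite
sums, everything bounded by a constant times `1_E(x)`; `(θ,v,x) ↦` each term is measurable) the integral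
is `∫ b(x) Yn(N(x), x) dx`. Let `n → ∞`: dominated convergence with the constant of YN on `E`. -/
def T_AVB : Prop := ∀ (A : ℝ) (ρ : ℝ → ℝ), Bmp A ρ → ∃ C : ℝ, 0 < C ∧
  ∀ (g b : ℝ → ℂ) (N : ℝ → ℝ) (E : Set ℝ), Dat g b N E → ∀ K : ℕ,
    ‖∫ x, b x * ∑ k ∈ Finset.Icc (-(K : ℤ)) K,
      ∫ ξ, g ξ * (Bt ρ ((2 : ℝ) ^ k) (N x - ξ) : ℂ) * e1 (x * ξ)‖ ≤ C * n2 g * Real.sqrt (vol E)

/-- **SCK** (45 min; uses AVB): all dilations, by scaling. Apply AVB to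
`g'(ξ) = λ^(-1/2) g(ξ/λ)`, `b'(x) = b(λx)`, `N'(x) = λ N(λx)`, `E' = λ⁻¹E`: `n2 g' = n2 g`,
`vol E' = vol E/λ`, and `∫ g'(ξ') B_{2^k}(N'(x') - ξ') e1(x'ξ') dξ' =
λ^(1/2) ∫ g(ξ) B_{λ2^k}(N(x) - ξ) e1(xξ) dξ`, `x = λx'`, `dx' = dx/λ`. -/
def T_SCK : Prop := ∀ (A : ℝ) (ρ : ℝ → ℝ), Bmp A ρ → ∃ C : ℝ, 0 < C ∧
  ∀ (g b : ℝ → ℂ) (N : ℝ → ℝ) (E : Set ℝ), Dat g b N E → ∀ (K : ℕ) (r : ℝ), 0 < r →
    ‖∫ x, b x * ∑ k ∈ Finset.Icc (-(K : ℤ)) K,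
      ∫ ξ, g ξ * (Bt ρ (r * (2 : ℝ) ^ k) (N x - ξ) : ℂ) * e1 (x * ξ)‖ ≤
        C * n2 g * Real.sqrt (vol E)

/-- the averaged truncated symbol `m_K(a) = ∫_0^1 ∑_{|k| ≤ K} B_{2^(k+κ)}(a) dκ` -/
noncomputable def mK (ρ : ℝ → ℝ) (K : ℕ) (a : ℝ) : ℝ :=
  ∫ κ in (0 : ℝ)..1, ∑ k ∈ Finset.Icc (-(K : ℤ)) K, Bt ρ ((2 : ℝ) ^ κ * (2 : ℝ) ^ k) a

/-- **BT** (45 min): the symbol of the half line. For `a ≤ 0`, `t > 0`: `u - ta ≥ 1/2 > 3/8`, so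
`B_t(a) = 0`. For `a > 0`: `m_K(a) = ∫_{-K}^{K+1} B_{2^τ}(a) dτ`, and `B_t(a) ≠ 0` only for
`1/8 ≤ ta ≤ 7/8`, `0 ≤ B_t(a) ≤ sup ρ²`; so it is constant for large `K`, equal to
`∫_ℝ B_{2^τ}(a) dτ = ∫_ℝ B_{2^τ}(1) dτ =: c` (translate by `log₂ a`), `c > 0` since `B` is continuous, `≥ 0` and
not identically `0` (`ρ(ξ₀) ≠ 0`, `1/8 ≤ ξ₀ ≤ 3/8`, so `u - t = ξ₀` for `u = 3/4`, `t = 3/4 - ξ₀ > 0`). -/
def T_BT : Prop := ∀ (A : ℝ) (ρ : ℝ → ℝ), Bmp A ρ → ∃ c C : ℝ, 0 < c ∧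
  (∀ (K : ℕ) (a : ℝ), |mK ρ K a| ≤ C) ∧
  ∀ a : ℝ, Tendsto (fun K => mK ρ K a) atTop (𝓝 (if 0 < a then c else 0))

/-- **LIM** (60 min; uses WPEX, SCK, BT): integrate SCK with `r = 2^κ` over `κ ∈ [0,1]` (Fubini:
`|b| ≤ 1_E`, `g ∈ L¹`, `B` bounded, jointly measurable): `|∫ b(x) ∫ g(ξ) m_K(N(x)-ξ) e1(xξ) dξ dx| ≤
C ‖g‖₂ √|E|`; let `K → ∞` (dominated convergence twice, dominated by `C |g(ξ)| 1_E(x)`), divide by `c`. -/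
def T_LIM : Prop := ∃ C : ℝ, 0 < C ∧
  ∀ (g b : ℝ → ℂ) (N : ℝ → ℝ) (E : Set ℝ), Dat g b N E →
    ‖∫ x, b x * ∫ ξ in Iio (N x), g ξ * e1 (x * ξ)‖ ≤ C * n2 g * Real.sqrt (vol E)

/-- **CARL** (60 min; uses LIM): linearisation. `n ↦ ∫_{ξ<n} g(ξ) e1(xξ) dξ` is continuous, so the
supremum over `ℝ` is the supremum over the rationals (enumerated `q_0, q_1, …`), the increasing limit of
the suprema over `q_0, …, q_j`; monotone convergence. For fixed `j` choose `N(x) ∈ {q_0,…,q_j}` measurable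
(first index where the maximum is attained), `b(x) = 1_E(x) conj(F)/|F|`, `F(x) = ∫_{ξ<N(x)} g e1(xξ)`;
LIM gives `∫_E |F| ≤ C n2 g √|E|`. Translate to `ℝ≥0∞`. -/
def T_CARL1 : Prop := T_LIM → T_CARL

end Pool.Agent.CAR
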