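import Pool.Agent.CAR.Defs

set_option autoImplicit false

/-!
# CAR: the mass lemma (item 6 of the blueprint)
-/

namespace Pool.Agent.CAR.MASS

open MeasureTheory Set
open scoped ENNReal NNReal

/-- density of a tile -/
noncomputable def dens (E : Set ℝ) (N : ℝ → ℝ) (u : Tile) : ℝ :=
  (2 : ℝ) ^ (-u.k) * ∫ x in E ∩ N ⁻¹' u.om, wt 8 (u.u x)

/-- the set `{x : |u.u x| < r}` -/
def bal (u : Tile) (r : ℝ) : Set ℝ := {x | |u.u x| < r}

theorem TLE_trans {s t u : Tile} (h1 : TLE s t) (h2 : TLE t u) : TLE s u :=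
  ⟨h1.1.trans h2.1, h2.2.trans h1.2⟩

theorem TLE_k {s u : Tile} (h : TLE s u) : s.k ≤ u.k := le_of_dy_sub h.1

theorem TLE_eq {s u : Tile} (h : TLE s u) (hk : u.k ≤ s.k) : u = s := by
  have hk' : s.k = u.k := le_antisymm (TLE_k h) hk
  have h1 : (2 : ℝ) ^ s.k * s.l ∈ dy u.k u.l := h.1 (left_mem_dy s.k s.l)
  have h2 : (2 : ℝ) ^ (-u.k) * u.m ∈ dy (-s.k) s.m := h.2 (left_mem_dy (-u.k) u.m)
  have h1' := left_mem_dy s.k s.l
  have h2' := left_mem_dy (-u.k) u.m
  rw [← hk'] at h1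
  rw [hk'] at h2
  have e1 := dy_eq_of_mem h1' h1
  have e2 := dy_eq_of_mem h2' h2
  ext
  · exact hk'.symm
  · exact e1.symm
  · exact e2

theorem wt_nonneg (n : ℕ) (t : ℝ) : 0 ≤ wt n t := by unfold wt; positivity

theorem wt_le_one (n : ℕ) (t : ℝ) : wt n t ≤ 1 := by
  unfold wt
  apply inv_le_one_of_one_le₀
  exact one_le_pow₀ (by linarith [abs_nonneg t])

theorem continuous_u (u : Tile) : Continuous u.u := by
  unfold Tile.u; fun_prop

theorem measurable_wt (n : ℕ) (u : Tile) : Measurable (fun x => wt n (u.u x)) := by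
  have : Continuous (fun x => wt n (u.u x)) := by
    unfold wt
    refine Continuous.inv₀ ?_ ?_
    · exact (continuous_const.add ((continuous_u u).abs)).pow n
    · intro x; positivity
  exact this.measurable

theorem bal_eq (u : Tile) (r : ℝ) :
    bal u r = Ioo ((2 : ℝ) ^ u.k * (u.l - r)) ((2 : ℝ) ^ u.k * (u.l + r)) := by
  ext x
  have h := two_zpow_pos u.k
  have h' := two_zpow_pos (-u.k)
  have h1 := two_zpow_neg_mul u.k
  have h2 := two_zpow_mul_neg u.k
  simp only [bal, mem_ofPred_eq, mem_Ioo, Tile.u, abs_lt]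
  constructor
  · rintro ⟨h3, h4⟩
    constructor
    · have : (2 : ℝ) ^ u.k * (u.l - r) < (2 : ℝ) ^ u.k * ((2 : ℝ) ^ (-u.k) * x) :=
        mul_lt_mul_of_pos_left (by linarith) h
      rwa [← mul_assoc, h2, one_mul] at this
    · have : (2 : ℝ) ^ u.k * ((2 : ℝ) ^ (-u.k) * x) < (2 : ℝ) ^ u.k * (u.l + r) :=
        mul_lt_mul_of_pos_left (by linarith) h
      rwa [← mul_assoc, h2, one_mul] at this
  · rintro ⟨h3, h4⟩
    constructor
    · have := mul_lt_mul_of_pos_left h3 h'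
      rw [← mul_assoc, h1, one_mul] at this
      linarith
    · have := mul_lt_mul_of_pos_left h4 h'
      rw [← mul_assoc, h1, one_mul] at this
      linarith

theorem volume_bal (u : Tile) (r : ℝ) :
    volume (bal u r) = ENNReal.ofReal ((2 : ℝ) ^ u.k * (2 * r)) := by
  rw [bal_eq, Real.volume_Ioo]; congr 1; ring

theorem measurableSet_bal (u : Tile) (r : ℝ) : MeasurableSet (bal u r) := by
  rw [bal_eq]; exact measurableSet_Ioo

/-- pointwise bound of the weight -/
theorem wt_le_tsum (t : ℝ) : ENNReal.ofReal (wt 8 t) ≤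
    ∑' j : ℕ, ENNReal.ofReal (256 * ((2 : ℝ) ^ (8 * j))⁻¹) *
      (if |t| < 2 ^ j then 1 else 0) := by
  have hex : ∃ j : ℕ, |t| < 2 ^ j := pow_unbounded_of_one_lt |t| (by norm_num)
  classical
  set j := Nat.find hex with hj
  have hj1 : |t| < 2 ^ j := Nat.find_spec hex
  refine le_trans ?_ (ENNReal.le_tsum j)
  rw [if_pos hj1, mul_one]
  apply ENNReal.ofReal_le_ofReal
  by_cases h0 : j = 0
  · rw [h0]
    simp only [mul_zero, pow_zero, inv_one, mul_one]
    linarith [wt_le_one 8 t]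
  · obtain ⟨i, hi⟩ := Nat.exists_eq_succ_of_ne_zero h0
    have h2 : ¬ |t| < 2 ^ i := Nat.find_min hex (by omega)
    push Not at h2
    have h3 : (2 : ℝ) ^ (8 * j) = 256 * (2 ^ i) ^ 8 := by
      rw [hi, Nat.succ_eq_add_one, ← pow_mul]
      have : 8 * (i + 1) = i * 8 + 8 := by ring
      rw [this, pow_add]; norm_num; ring
    rw [h3, wt, mul_inv, ← mul_assoc]
    norm_num
    rw [← inv_pow, ← inv_pow]
    have : (0 : ℝ) < 2 ^ i := by positivity
    apply pow_le_pow_left₀ (by positivity)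
    apply inv_anti₀ this
    linarith

/-- the parts of `E` seen by `u` -/
def part (E : Set ℝ) (N : ℝ → ℝ) (j : ℕ) (u : Tile) : Set ℝ :=
  (E ∩ N ⁻¹' u.om) ∩ bal u (2 ^ j)

theorem measurableSet_om (u : Tile) : MeasurableSet u.om := measurableSet_dy _ _

theorem measurableSet_part {E : Set ℝ} {N : ℝ → ℝ} (hE : MeasurableSet E) (hN : Measurable N)
    (j : ℕ) (u : Tile) : MeasurableSet (part E N j u) :=
  (hE.inter (hN (measurableSet_om u))).inter (measurableSet_bal _ _)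

theorem dens_eq {E : Set ℝ} {N : ℝ → ℝ} (u : Tile) : dens E N u =
    (2 : ℝ) ^ (-u.k) * (∫⁻ x in E ∩ N ⁻¹' u.om, ENNReal.ofReal (wt 8 (u.u x))).toReal := by
  rw [dens, integral_eq_lintegral_of_nonneg_ae]
  · exact Filter.Eventually.of_forall fun x => wt_nonneg 8 _
  · exact (measurable_wt 8 u).aestronglyMeasurable

theorem dens_le {E : Set ℝ} {N : ℝ → ℝ} (hfE : volume E ≠ ⊤) (u : Tile) :
    dens E N u ≤ (2 : ℝ) ^ (-u.k) * vol E := by
  rw [dens_eq]
  apply mul_le_mul_of_nonneg_left _ (two_zpow_pos _).le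
  rw [vol]
  apply ENNReal.toReal_mono hfE
  calc ∫⁻ x in E ∩ N ⁻¹' u.om, ENNReal.ofReal (wt 8 (u.u x))
      ≤ ∫⁻ x in E ∩ N ⁻¹' u.om, 1 := by
        apply lintegral_mono
        intro x
        rw [← ENNReal.ofReal_one]
        exact ENNReal.ofReal_le_ofReal (wt_le_one _ _)
    _ = volume (E ∩ N ⁻¹' u.om) := by simp
    _ ≤ volume E := measure_mono inter_subset_left

/-- the count -/
theorem count {E : Set ℝ} {N : ℝ → ℝ} {mu : ℝ} (hmu : 0 < mu) {u : Tile}
    (h : mu / 4 < dens E N u) :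
    ∃ j : ℕ, ENNReal.ofReal (1 / 2048 * 4 ^ j * mu * (2 : ℝ) ^ u.k) < volume (part E N j u) := by
  by_contra hcon
  push Not at hcon
  have hk := two_zpow_pos u.k
  have key : ∫⁻ x in E ∩ N ⁻¹' u.om, ENNReal.ofReal (wt 8 (u.u x)) ≤
      ENNReal.ofReal (mu / 4 * (2 : ℝ) ^ u.k) := by
    calc ∫⁻ x in E ∩ N ⁻¹' u.om, ENNReal.ofReal (wt 8 (u.u x))
        ≤ ∫⁻ x in E ∩ N ⁻¹' u.om, ∑' j : ℕ, ENNReal.ofReal (256 * ((2 : ℝ) ^ (8 * j))⁻¹) *
            (if |u.u x| < 2 ^ j then 1 else 0) := by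
          apply lintegral_mono
          intro x
          exact wt_le_tsum _
      _ = ∑' j : ℕ, ∫⁻ x in E ∩ N ⁻¹' u.om, ENNReal.ofReal (256 * ((2 : ℝ) ^ (8 * j))⁻¹) *
            (if |u.u x| < 2 ^ j then 1 else 0) := by
          rw [lintegral_tsum]
          intro j
          apply Measurable.aemeasurable
          apply Measurable.const_mul
          exact Measurable.ite (measurableSet_bal u (2 ^ j)) measurable_const measurable_const
      _ = ∑' j : ℕ, ENNReal.ofReal (256 * ((2 : ℝ) ^ (8 * j))⁻¹) * volume (part E N j u) := by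
          congr 1
          ext j
          rw [lintegral_const_mul' _ _ ENNReal.ofReal_ne_top]
          congr 1
          have : (fun x => (if |u.u x| < 2 ^ j then (1 : ℝ≥0∞) else 0)) =
              (bal u (2 ^ j)).indicator (fun _ => 1) := by
            ext x; simp only [indicator, bal, mem_ofPred_eq]
          rw [this, lintegral_indicator (measurableSet_bal u _)]
          simp only [lintegral_const, one_mul, Measure.restrict_apply MeasurableSet.univ,
            univ_inter]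
          rw [Measure.restrict_apply (measurableSet_bal u _), part, inter_comm]
      _ ≤ ∑' j : ℕ, ENNReal.ofReal (256 * ((2 : ℝ) ^ (8 * j))⁻¹) *
            ENNReal.ofReal (1 / 2048 * 4 ^ j * mu * (2 : ℝ) ^ u.k) := by
          apply ENNReal.tsum_le_tsum
          intro j
          exact mul_le_mul_right (hcon j) _
      _ = ∑' j : ℕ, ENNReal.ofReal (1 / 8 * mu * (2 : ℝ) ^ u.k * (1 / 64) ^ j) := by
          congr 1
          ext j
          rw [← ENNReal.ofReal_mul (by positivity)]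
          congr 1
          have e1 : (2 : ℝ) ^ (8 * j) = 256 ^ j := by rw [pow_mul]; norm_num
          have e2 : (1 / 64 : ℝ) ^ j = (256 ^ j)⁻¹ * 4 ^ j := by
            rw [← inv_pow, ← mul_pow]; norm_num
          rw [e1, e2]; ring
      _ = ENNReal.ofReal (∑' j : ℕ, 1 / 8 * mu * (2 : ℝ) ^ u.k * (1 / 64) ^ j) := by
          rw [ENNReal.ofReal_tsum_of_nonneg]
          · intro j; positivity
          · exact (summable_geometric_of_lt_one (by norm_num) (by norm_num)).mul_left _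
      _ ≤ ENNReal.ofReal (mu / 4 * (2 : ℝ) ^ u.k) := by
          apply ENNReal.ofReal_le_ofReal
          rw [tsum_mul_left, tsum_geometric_of_lt_one (by norm_num) (by norm_num)]
          have : 0 < mu * (2 : ℝ) ^ u.k := by positivity
          norm_num
          nlinarith
  have h2 : dens E N u ≤ mu / 4 := by
    rw [dens_eq]
    have h3 := ENNReal.toReal_mono ENNReal.ofReal_ne_top key
    rw [ENNReal.toReal_ofReal (by positivity)] at h3
    calc (2 : ℝ) ^ (-u.k) * _ ≤ (2 : ℝ) ^ (-u.k) * (mu / 4 * (2 : ℝ) ^ u.k) :=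
          mul_le_mul_of_nonneg_left h3 (two_zpow_pos _).le
      _ = mu / 4 := by
          have := two_zpow_neg_mul u.k
          linear_combination (mu / 4) * this
  linarith

/-- the packing bound for one `j` -/
theorem pack {E : Set ℝ} {N : ℝ → ℝ} (hE : MeasurableSet E) (hfE : volume E ≠ ⊤)
    (hN : Measurable N) {mu : ℝ} (hmu : 0 < mu) (j : ℕ) (U : Finset Tile)
    (hinc : ∀ u ∈ U, ∀ v ∈ U, TLE u v → v = u)
    (hU : ∀ u ∈ U, ENNReal.ofReal (1 / 2048 * 4 ^ j * mu * (2 : ℝ) ^ u.k) <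
      volume (part E N j u)) :
    ∑ u ∈ U, (2 : ℝ) ^ u.k ≤ 12288 * (1 / 2) ^ j * vol E / mu := by
  classical
  -- Vitali selection
  obtain ⟨K, hK⟩ : ∃ K : ℝ, ∀ a ∈ (U : Set Tile), (2 : ℝ) ^ a.k ≤ K := by
    refine ⟨∑ u ∈ U, (2 : ℝ) ^ u.k, fun a ha => ?_⟩
    exact Finset.single_le_sum (f := fun u : Tile => (2 : ℝ) ^ u.k)
      (fun i _ => (two_zpow_pos _).le) (Finset.mem_coe.1 ha)
  obtain ⟨V, hVU, hVd, hVc⟩ := Vitali.exists_disjoint_subfamily_covering_enlargement
    (fun u : Tile => bal u (2 ^ j) ×ˢ u.om) (U : Set Tile) (fun u : Tile => (2 : ℝ) ^ u.k)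
    (3 / 2) (by norm_num) (fun a _ => (two_zpow_pos _).le) K hK (by
      intro a _
      refine ⟨((2 : ℝ) ^ a.k * a.l, (2 : ℝ) ^ (-a.k) * a.m), ?_, left_mem_dy _ _⟩
      have := two_zpow_neg_mul a.k
      simp only [bal, mem_ofPred_eq, Tile.u]
      rw [← mul_assoc, this, one_mul, sub_self, abs_zero]
      positivity)
  have hVf : V.Finite := U.finite_toSet.subset hVU
  set W : Finset Tile := hVf.toFinset with hW
  have hWU : ∀ v ∈ W, v ∈ U := fun v hv => Finset.mem_coe.1 (hVU (by simpa [hW] using hv))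
  -- assignment
  have hass : ∀ u ∈ U, ∃ v ∈ W, ((bal u (2 ^ j) ×ˢ u.om) ∩ (bal v (2 ^ j) ×ˢ v.om)).Nonempty ∧
      u.k ≤ v.k := by
    intro u hu
    obtain ⟨v, hv, h1, h2⟩ := hVc u (Finset.mem_coe.2 hu)
    refine ⟨v, by simpa [hW] using hv, h1, ?_⟩
    by_contra hk
    push Not at hk
    have h3 : (2 : ℝ) ^ (v.k + 1) ≤ (2 : ℝ) ^ u.k := two_zpow_le (by omega)
    rw [two_zpow_succ] at h3
    have := two_zpow_pos v.k
    linarith
  choose! a ha1 ha2 using hass
  -- sum over one fibre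
  have hfib : ∀ v ∈ W, ∑ u ∈ U.filter (fun u => a u = v), (2 : ℝ) ^ u.k ≤
      6 * 2 ^ j * (2 : ℝ) ^ v.k := by
    intro v hv
    have hsub : ∀ u ∈ U.filter (fun u => a u = v), u.I ⊆ bal v (3 * 2 ^ j) := by
      intro u hu x hx
      rw [Finset.mem_filter] at hu
      obtain ⟨⟨⟨x0, y0⟩, ⟨h1, _⟩, ⟨h2, _⟩⟩, hk⟩ := ha2 u hu.1
      rw [hu.2] at h2 hk
      simp only [bal, mem_ofPred_eq] at h1 h2 ⊢
      have hx' := mem_I.1 hx
      have e1 : v.u x = v.u x0 + (2 : ℝ) ^ (-v.k) * (2 : ℝ) ^ u.k * (u.u x - u.u x0) := by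
        have := two_zpow_mul_neg u.k
        simp only [Tile.u]
        linear_combination (-(2 : ℝ) ^ (-v.k) * (x - x0)) * this
      have e2 : 0 < (2 : ℝ) ^ (-v.k) * (2 : ℝ) ^ u.k := by
        have := two_zpow_pos u.k
        have := two_zpow_pos (-v.k)
        positivity
      have e3 : (2 : ℝ) ^ (-v.k) * (2 : ℝ) ^ u.k ≤ 1 := by
        have h5 := two_zpow_neg_mul v.k
        have h6 := two_zpow_le hk
        have h7 := two_zpow_pos (-v.k)
        nlinarith
      have e4 : |u.u x - u.u x0| < 1 + 2 ^ j := by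
        rw [abs_lt] at h1 ⊢
        constructor <;> linarith [hx'.1, hx'.2, h1.1, h1.2]
      have e5 : |(2 : ℝ) ^ (-v.k) * (2 : ℝ) ^ u.k * (u.u x - u.u x0)| < 1 + 2 ^ j := by
        rw [abs_mul, abs_of_pos e2]
        nlinarith [abs_nonneg (u.u x - u.u x0)]
      have e6 : (1 : ℝ) ≤ 2 ^ j := one_le_pow₀ (by norm_num)
      rw [e1]
      have := abs_add_le (v.u x0) ((2 : ℝ) ^ (-v.k) * (2 : ℝ) ^ u.k * (u.u x - u.u x0))
      linarith
    have hdis : Set.PairwiseDisjoint (U.filter (fun u => a u = v) : Set Tile) Tile.I := by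
      have aux : ∀ u ∈ U, ∀ w ∈ U, a u = v → a w = v → u.k ≤ w.k → u ≠ w →
          Disjoint u.I w.I := by
        intro u hu w hw hau haw hk hne
        rcases I_nest (s := u) (t := w) hk with h | h
        · exfalso
          apply hne
          obtain ⟨⟨⟨x0, y0⟩, ⟨_, h1⟩, ⟨_, h2⟩⟩, hk1⟩ := ha2 u hu
          obtain ⟨⟨⟨x1, y1⟩, ⟨_, h3⟩, ⟨_, h4⟩⟩, hk2⟩ := ha2 w hw
          rw [hau] at h2 hk1
          rw [haw] at h4 hk2
          have g1 : v.om ⊆ u.om := om_sub hk1 h1 h2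
          have g2 : v.om ⊆ w.om := om_sub hk2 h3 h4
          have g3 : w.om ⊆ u.om := om_sub hk (g1 h2) (g2 h2)
          exact (hinc u hu w hw ⟨h, g3⟩).symm
        · exact h
      intro u hu w hw hne
      simp only [Finset.coe_filter, mem_ofPred_eq] at hu hw
      rcases le_total u.k w.k with hk | hk
      · exact aux u hu.1 w hw.1 hu.2 hw.2 hk hne
      · exact (aux w hw.1 u hu.1 hw.2 hu.2 hk hne.symm).symm
    have hm : volume (⋃ u ∈ U.filter (fun u => a u = v), u.I) =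
        ∑ u ∈ U.filter (fun u => a u = v), volume u.I :=
      measure_biUnion_finset hdis (fun u _ => measurableSet_dy _ _)
    have hle : volume (⋃ u ∈ U.filter (fun u => a u = v), u.I) ≤ volume (bal v (3 * 2 ^ j)) :=
      measure_mono (iUnion₂_subset hsub)
    rw [hm, volume_bal] at hle
    have e : ∑ u ∈ U.filter (fun u => a u = v), volume u.I =
        ENNReal.ofReal (∑ u ∈ U.filter (fun u => a u = v), (2 : ℝ) ^ u.k) := by
      rw [ENNReal.ofReal_sum_of_nonneg (fun i _ => (two_zpow_pos _).le)]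
      exact Finset.sum_congr rfl fun u _ => volume_dy _ _
    rw [e, ENNReal.ofReal_le_ofReal_iff (by have := two_zpow_pos v.k; positivity)] at hle
    calc _ ≤ _ := hle
      _ = _ := by ring
  -- the disjoint parts
  have hpd : Set.PairwiseDisjoint (W : Set Tile) (part E N j) := by
    intro u hu w hw hne
    have h1 := hVd (by simpa [hW] using hu) (by simpa [hW] using hw) hne
    rw [Function.onFun, Set.disjoint_left]
    intro x hx hx'
    have q1 : (x, N x) ∈ bal u (2 ^ j) ×ˢ u.om := ⟨hx.2, hx.1.2⟩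
    have q2 : (x, N x) ∈ bal w (2 ^ j) ×ˢ w.om := ⟨hx'.2, hx'.1.2⟩
    exact Set.disjoint_left.1 h1 q1 q2
  have hsumW : ENNReal.ofReal (∑ v ∈ W, 1 / 2048 * 4 ^ j * mu * (2 : ℝ) ^ v.k) ≤ volume E := by
    rw [ENNReal.ofReal_sum_of_nonneg (fun i _ => by have := two_zpow_pos i.k; positivity)]
    calc ∑ v ∈ W, ENNReal.ofReal (1 / 2048 * 4 ^ j * mu * (2 : ℝ) ^ v.k)
        ≤ ∑ v ∈ W, volume (part E N j v) := Finset.sum_le_sum fun v hv => (hU v (hWU v hv)).le
      _ = volume (⋃ v ∈ W, part E N j v) :=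
          (measure_biUnion_finset hpd (fun v _ => measurableSet_part hE hN j v)).symm
      _ ≤ volume E := measure_mono (iUnion₂_subset fun v _ => inter_subset_left.trans
          inter_subset_left)
  rw [ENNReal.ofReal_le_iff_le_toReal hfE, ← Finset.mul_sum] at hsumW
  rw [← vol] at hsumW
  have h4 : (0 : ℝ) < 4 ^ j := by positivity
  have h2 : (0 : ℝ) < 2 ^ j := by positivity
  have h24 : (4 : ℝ) ^ j = 2 ^ j * 2 ^ j := by rw [← mul_pow]; norm_num
  have hV : ∑ v ∈ W, (2 : ℝ) ^ v.k ≤ 2048 * vol E / (4 ^ j * mu) := by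
    rw [le_div_iff₀ (by positivity)]
    nlinarith
  calc ∑ u ∈ U, (2 : ℝ) ^ u.k
      = ∑ v ∈ W, ∑ u ∈ U.filter (fun u => a u = v), (2 : ℝ) ^ u.k :=
        (Finset.sum_fiberwise_of_maps_to (fun u hu => ha1 u hu) _).symm
    _ ≤ ∑ v ∈ W, 6 * 2 ^ j * (2 : ℝ) ^ v.k := Finset.sum_le_sum hfib
    _ = 6 * 2 ^ j * ∑ v ∈ W, (2 : ℝ) ^ v.k := by rw [Finset.mul_sum]
    _ ≤ 6 * 2 ^ j * (2048 * vol E / (4 ^ j * mu)) := by
        apply mul_le_mul_of_nonneg_left hV; positivity
    _ = 12288 * (1 / 2) ^ j * vol E / mu := by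
        rw [h24, one_div, inv_pow]; field_simp; ring

/-- tiles above `s` of bounded scale form a finite set -/
theorem finite_above (s : Tile) (K : ℤ) : {u : Tile | TLE s u ∧ u.k ≤ K}.Finite := by
  set A : ℤ → ℤ := fun k => ⌊(2 : ℝ) ^ (-k) * ((2 : ℝ) ^ s.k * s.l)⌋ with hA
  set B : ℤ := ⌊(2 : ℝ) ^ K * ((2 : ℝ) ^ (-s.k) * (|(s.m : ℝ)| + 1))⌋ with hB
  have hfin : (((Finset.Icc s.k K) ×ˢ (Finset.Icc (-B) B)).image
      (fun p : ℤ × ℤ => (⟨p.1, A p.1, p.2⟩ : Tile)) : Set Tile).Finite := Finset.finite_toSet _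
  refine hfin.subset ?_
  rintro u ⟨h, hk⟩
  have h1 := TLE_k h
  have hl : A u.k = u.l := by
    have := h.1 (left_mem_dy s.k s.l)
    exact mem_dy.1 this
  have hm : (2 : ℝ) ^ (-u.k) * u.m ∈ dy (-s.k) s.m := h.2 (left_mem_dy (-u.k) u.m)
  rw [dy, mem_Ico] at hm
  have g1 := two_zpow_pos (-s.k)
  have g2 := two_zpow_pos u.k
  have g3 := two_zpow_mul_neg u.k
  have g4 := two_zpow_le hk
  have habs : |(u.m : ℝ)| ≤ (2 : ℝ) ^ K * ((2 : ℝ) ^ (-s.k) * (|(s.m : ℝ)| + 1)) := by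
    have e : (u.m : ℝ) = (2 : ℝ) ^ u.k * ((2 : ℝ) ^ (-u.k) * u.m) := by
      rw [← mul_assoc, g3, one_mul]
    have h5 : |(2 : ℝ) ^ (-u.k) * (u.m : ℝ)| ≤ (2 : ℝ) ^ (-s.k) * (|(s.m : ℝ)| + 1) := by
      rw [abs_le]
      have h6 := neg_abs_le (s.m : ℝ)
      have h7 := le_abs_self (s.m : ℝ)
      constructor
      · nlinarith [hm.1]
      · nlinarith [hm.2]
    rw [e, abs_mul, abs_of_pos g2]
    have h8 : 0 ≤ (2 : ℝ) ^ (-s.k) * (|(s.m : ℝ)| + 1) := by positivity
    calc (2 : ℝ) ^ u.k * |(2 : ℝ) ^ (-u.k) * (u.m : ℝ)|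
        ≤ (2 : ℝ) ^ u.k * ((2 : ℝ) ^ (-s.k) * (|(s.m : ℝ)| + 1)) :=
          mul_le_mul_of_nonneg_left h5 g2.le
      _ ≤ _ := mul_le_mul_of_nonneg_right g4 h8
  have hB' : |u.m| ≤ B := by
    rw [hB, Int.le_floor]
    push_cast
    exact habs
  rw [abs_le] at hB'
  simp only [Finset.coe_image, Set.mem_image, Finset.mem_coe, Finset.mem_product,
    Finset.mem_Icc]
  exact ⟨(u.k, u.m), ⟨⟨h1, hk⟩, hB'⟩, by ext <;> simp [hl]⟩

/-- **MASS**: the mass lemma -/
theorem mass : ∃ C : ℝ, 0 < C ∧ ∀ (E : Set ℝ) (N : ℝ → ℝ), MeasurableSet E → volume E ≠ ⊤ →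
    Measurable N → ∀ mu : ℝ, 0 < mu → ∀ S : Finset Tile, ∃ U : Finset Tile,
      ∑ u ∈ U, (2 : ℝ) ^ u.k ≤ C * vol E / mu ∧
      ∀ s ∈ S, (∀ u ∈ U, ¬ TLE s u) → ∀ u, TLE s u → dens E N u ≤ mu / 4 := by
  classical
  refine ⟨24576, by norm_num, fun E N hE hfE hN mu hmu S => ?_⟩
  -- an upper bound for the scales
  obtain ⟨K, hK⟩ : ∃ K : ℤ, ∀ u : Tile, mu / 4 < dens E N u → u.k ≤ K := by
    obtain ⟨n, hn⟩ := pow_unbounded_of_one_lt (vol E / (mu / 4)) (one_lt_two (α := ℝ))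
    refine ⟨n, fun u hu => ?_⟩
    by_contra hk
    push Not at hk
    have h1 := lt_of_lt_of_le hu (dens_le hfE u)
    have h2 := two_zpow_lt hk
    rw [zpow_natCast] at h2
    have h3 := two_zpow_neg_mul u.k
    have h4 := two_zpow_pos u.k
    have h5 := two_zpow_pos (-u.k)
    rw [div_lt_iff₀ (by positivity)] at hn
    have h6 : mu / 4 * (2 : ℝ) ^ u.k < vol E := by
      calc mu / 4 * (2 : ℝ) ^ u.k < (2 : ℝ) ^ (-u.k) * vol E * (2 : ℝ) ^ u.k :=
            mul_lt_mul_of_pos_right h1 h4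
        _ = vol E := by linear_combination (vol E) * h3
    nlinarith
  have hPf : {u : Tile | mu / 4 < dens E N u ∧ ∃ s ∈ S, TLE s u}.Finite := by
    refine (Set.Finite.biUnion S.finite_toSet (fun s _ => finite_above s K)).subset ?_
    rintro u ⟨h1, s, hs, h2⟩
    exact mem_biUnion (Finset.mem_coe.2 hs) ⟨h2, hK u h1⟩
  set P : Finset Tile := hPf.toFinset with hP
  have memP : ∀ u, u ∈ P ↔ (mu / 4 < dens E N u ∧ ∃ s ∈ S, TLE s u) := fun u => by simp [hP]
  set U : Finset Tile := P.filter (fun u => ∀ w ∈ P, TLE u w → w = u) with hU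
  refine ⟨U, ?_, ?_⟩
  · -- the sum
    have hj : ∀ u ∈ U, ∃ j : ℕ, ENNReal.ofReal (1 / 2048 * 4 ^ j * mu * (2 : ℝ) ^ u.k) <
        volume (part E N j u) := fun u hu =>
      count hmu ((memP u).1 (Finset.mem_filter.1 hu).1).1
    choose! j hj using hj
    have hinc : ∀ u ∈ U, ∀ v ∈ U, TLE u v → v = u := fun u hu v hv h =>
      (Finset.mem_filter.1 hu).2 v (Finset.mem_filter.1 hv).1 h
    have hvol : 0 ≤ vol E := ENNReal.toReal_nonneg
    calc ∑ u ∈ U, (2 : ℝ) ^ u.k
        = ∑ i ∈ U.image j, ∑ u ∈ U.filter (fun u => j u = i), (2 : ℝ) ^ u.k :=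
          (Finset.sum_fiberwise_of_maps_to (fun u hu => Finset.mem_image_of_mem _ hu) _).symm
      _ ≤ ∑ i ∈ U.image j, 12288 * (1 / 2) ^ i * vol E / mu := by
          apply Finset.sum_le_sum
          intro i _
          apply pack hE hfE hN hmu i
          · intro u hu v hv h
            exact hinc u (Finset.mem_filter.1 hu).1 v (Finset.mem_filter.1 hv).1 h
          · intro u hu
            rw [Finset.mem_filter] at hu
            rw [← hu.2]
            exact hj u hu.1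
      _ = (∑ i ∈ U.image j, (1 / 2 : ℝ) ^ i) * (12288 * vol E / mu) := by
          rw [Finset.sum_mul]
          apply Finset.sum_congr rfl
          intro i _
          ring
      _ ≤ 2 * (12288 * vol E / mu) := by
          apply mul_le_mul_of_nonneg_right _ (by positivity)
          calc ∑ i ∈ U.image j, (1 / 2 : ℝ) ^ i ≤ ∑' i : ℕ, (1 / 2 : ℝ) ^ i :=
                Summable.sum_le_tsum _ (fun i _ => by positivity) summable_geometric_two
            _ = 2 := tsum_geometric_two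
      _ = 24576 * vol E / mu := by ring
  · intro s hs hno u hu
    by_contra hcon
    push Not at hcon
    -- maximal element above u
    have huP : u ∈ P := (memP u).2 ⟨hcon, s, hs, hu⟩
    obtain ⟨v, hv, hvmax⟩ := Finset.exists_max_image (P.filter (fun w => TLE u w))
      (fun w => w.k) ⟨u, Finset.mem_filter.2 ⟨huP, subset_refl _, subset_refl _⟩⟩
    rw [Finset.mem_filter] at hv
    have hvU : v ∈ U := by
      rw [hU, Finset.mem_filter]
      refine ⟨hv.1, fun w hw hvw => ?_⟩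
      have h1 := hvmax w (Finset.mem_filter.2 ⟨hw, TLE_trans hv.2 hvw⟩)
      exact TLE_eq hvw h1
    exact hno v hvU (TLE_trans hu hv.2)

end Pool.Agent.CAR.MASS
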