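import Pool.Agent.CAR.Defs

set_option autoImplicit false

/-!
# The Carleson operator on the line, MODEL part (helper18): energy, mass, trees, maximal function
-/

namespace Pool.Agent.CAR

open MeasureTheory Set ComplexConjugate
open scoped ENNReal NNReal

/-- a tree with top `dy K Λ`, `ξ` -/
def Tree (T : Finset Tile) (K Λ : ℤ) (ξ : ℝ) : Prop := ∀ s ∈ T, s.I ⊆ dy K Λ ∧ ξ ∈ s.om

/-- a (+)-tree -/
def PTree (T : Finset Tile) (K Λ : ℤ) (ξ : ℝ) : Prop := ∀ s ∈ T, s.I ⊆ dy K Λ ∧ ξ ∈ s.up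

/-- a (-)-tree -/
def MTree (T : Finset Tile) (K Λ : ℤ) (ξ : ℝ) : Prop := ∀ s ∈ T, s.I ⊆ dy K Λ ∧ ξ ∈ s.lo

/-- the energy of `S` is at most `eps` -/
def En (c : Tile → ℝ) (S : Finset Tile) (eps : ℝ) : Prop :=
  ∀ (T : Finset Tile) (K Λ : ℤ) (ξ : ℝ), T ⊆ S → PTree T K Λ ξ →
    ∑ s ∈ T, c s ^ 2 ≤ eps ^ 2 * (2 : ℝ) ^ K

/-- the density of a tile -/
noncomputable def dn (E : Set ℝ) (N : ℝ → ℝ) (u : Tile) : ℝ :=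
  ∫ x in E ∩ N ⁻¹' u.om, (2 : ℝ) ^ (-u.k) * wt 8 (u.u x)

/-- the mass of `S` is at most `mu` -/
def Ms (E : Set ℝ) (N : ℝ → ℝ) (S : Finset Tile) (mu : ℝ) : Prop :=
  ∀ s ∈ S, ∀ u : Tile, TLE s u → dn E N u ≤ mu

/-- absolute value of the coefficient -/
noncomputable def cc (Φ g : ℝ → ℂ) (s : Tile) : ℝ := ‖co Φ g s‖

/-- Gram matrix of the wave packets -/
noncomputable def gr (Φ : ℝ → ℂ) (s t : Tile) : ℂ := ∫ ξ, fr Φ s ξ * conj (fr Φ t ξ)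

/-- `2^(-k/2)` -/
noncomputable def hs (s : Tile) : ℝ := (Real.sqrt ((2 : ℝ) ^ s.k))⁻¹

/-- uncentred-type maximal function (centred intervals, all radii) -/
noncomputable def MX (G : ℝ → ℂ) (y : ℝ) : ℝ≥0∞ :=
  ⨆ (r : ℝ) (_ : 0 < r), (ENNReal.ofReal (2 * r))⁻¹ * ∫⁻ z in Ioo (y - r) (y + r), ‖G z‖ₑ

/-- dyadic interval of scale `κ x` containing `x` -/
def Jx (κ : ℝ → ℤ) (x : ℝ) : Set ℝ := dy (κ x) ⌊(2 : ℝ) ^ (-(κ x)) * x⌋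

/-- the selected data of the energy lemma: `n` disjoint (+)-trees `T i` with tops
`dy (K i) (Λ i)`, `X i`, and the separation property -/
structure Sel (n : ℕ) (K Λ : ℕ → ℤ) (X : ℕ → ℝ) (T : ℕ → Finset Tile) : Prop where
  tree : ∀ i < n, PTree (T i) (K i) (Λ i) (X i)
  disj : ∀ i < n, ∀ j < n, i ≠ j → Disjoint (T i) (T j)
  sep : ∀ i < n, ∀ j < n, i ≠ j → ∀ s ∈ T i, ∀ s' ∈ T j, s.om ⊆ s'.lo →
    Disjoint s'.I (dy (K i) (Λ i))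

/-- a stopping scale function for the tree `T` -/
structure Stop (T : Finset Tile) (κ : ℝ → ℤ) : Prop where
  meas : Measurable κ
  const : ∀ x y, y ∈ Jx κ x → κ y = κ x
  far : ∀ x, ∀ s ∈ T, s.k ≤ κ x → (2 : ℝ) ^ (κ x - s.k) ≤ |s.u x|
  near : ∀ x, ∃ s ∈ T, s.k ≤ κ x + 2 ∧ ∀ y ∈ s.I, |x - y| ≤ (2 : ℝ) ^ (κ x + 2)
  bdd : ∃ k0 : ℤ, ∀ x, k0 ≤ κ x

/-- the cut-off of frequencies: `χ = 1` on `[-7/8, 0]`, `χ = 0` outside `(-1, 1)`, `ψ` its inverse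
Fourier transform, `|ψ(x)| ≤ B (1+|x|)^(-20)` -/
structure Cut (B : ℝ) (χ ψ : ℝ → ℂ) : Prop where
  pos : 0 < B
  cχ : Continuous χ
  cψ : Continuous ψ
  one : ∀ t ∈ Icc (-7 / 8 : ℝ) 0, χ t = 1
  zero : ∀ t : ℝ, 1 ≤ |t| → χ t = 0
  bd : ∀ t, ‖χ t‖ ≤ B
  dec : ∀ x, ‖ψ x‖ ≤ B * wt 20 x
  inv : ∀ x, ψ x = ∫ t, χ t * e1 (x * t)
  ft : ∀ t, χ t = ∫ x, ψ x * e1 (-(x * t))

/-- the kernel of the frequency cut-off at scale `a` below the frequency `ξ` -/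
noncomputable def Kr (ψ : ℝ → ℂ) (a : ℤ) (ξ x : ℝ) : ℂ :=
  ((2 : ℝ) ^ (-a) : ℝ) * ψ ((2 : ℝ) ^ (-a) * x) * e1 (x * ξ)

end Pool.Agent.CAR
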