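import Pool.Agent.CAR.GEO

set_option autoImplicit false

/-!
# The Carleson operator on the line: almost orthogonality of the selected trees (item 4)
-/

namespace Pool.Agent.CAR

open MeasureTheory Set
open scoped ENNReal NNReal

theorem om_nonempty (s : Tile) : s.om.Nonempty := dy_nonempty _ _

theorem lo_nonempty (s : Tile) : s.lo.Nonempty := dy_nonempty _ _

/-- sum of `(1+|d|)^(-2)` over the integers -/
noncomputable def zs (d : ℤ) : ℝ := ((1 + |(d : ℝ)|) ^ 2)⁻¹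

theorem zs_nonneg (d : ℤ) : 0 ≤ zs d := by unfold zs; positivity

theorem summable_zs : Summable zs := by
  have h3 : Summable (fun n : ℕ => ((1 + (n : ℝ)) ^ 2)⁻¹) := by
    have h3 : Summable (fun n : ℕ => ((n : ℝ) ^ 2)⁻¹) := Real.summable_nat_pow_inv.2 (by norm_num)
    have h4 := (summable_nat_add_iff 1).2 h3
    refine h4.congr fun n => ?_
    push_cast
    rw [add_comm]
  refine Summable.of_nat_of_neg ?_ ?_
  · refine h3.congr fun n => ?_
    simp [zs]
  · refine h3.congr fun n => ?_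
    simp [zs]

theorem sum_zs_le {ι : Type*} (T : Finset ι) (f : ι → ℤ) (hf : Set.InjOn f T) :
    ∑ s ∈ T, zs (f s) ≤ ∑' z, zs z := by
  classical
  rw [← Finset.sum_image (f := zs) hf]
  exact summable_zs.sum_le_tsum _ (fun z _ => zs_nonneg z)

theorem tsum_zs_nonneg : 0 ≤ ∑' z, zs z := tsum_nonneg zs_nonneg

/-- the weight of `s` on the interval of a tile of the same scale -/
theorem wt_same {s t : Tile} (h : s.k = t.k) {y : ℝ} (hy : y ∈ t.I) :
    wt 10 (s.u y) ≤ 4 * zs (t.l - s.l) := by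
  have h1 := mem_I.1 hy
  have e : s.u y = t.u y + ((t.l - s.l : ℤ) : ℝ) := by
    unfold Tile.u
    rw [h]
    push_cast
    ring
  have h2 : |((t.l - s.l : ℤ) : ℝ)| - 1 ≤ |s.u y| := by
    have h3 : |((t.l - s.l : ℤ) : ℝ)| ≤ |s.u y| + |t.u y| := by
      have : ((t.l - s.l : ℤ) : ℝ) = s.u y - t.u y := by rw [e]; ring
      rw [this]
      exact abs_sub _ _
    have h4 : |t.u y| ≤ 1 := by rw [abs_of_nonneg h1.1]; exact h1.2.le
    linarith
  refine (wt_anti (show 2 ≤ 10 by norm_num) _).trans ?_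
  unfold wt zs
  set a := |((t.l - s.l : ℤ) : ℝ)| with ha
  have ha0 : 0 ≤ a := abs_nonneg _
  have hb0 : 0 ≤ |s.u y| := abs_nonneg _
  have h5 : (1 + a) / 2 ≤ 1 + |s.u y| := by linarith
  have e6 : 4 * ((1 + a) ^ 2)⁻¹ = (((1 + a) / 2) ^ 2)⁻¹ := by
    rw [div_pow, inv_div]
    norm_num
    rw [div_eq_mul_inv]
  rw [e6]
  exact inv_anti₀ (by positivity) (pow_le_pow_left₀ (by positivity) h5 2)

theorem int_same {s t : Tile} (h : s.k = t.k) :
    ∫ y in t.I, wt 10 (s.u y) ≤ 4 * zs (t.l - s.l) * (2 : ℝ) ^ s.k := by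
  have hm : MeasurableSet t.I := measurableSet_dy _ _
  have h1 : ∫ y in t.I, wt 10 (s.u y) ≤ ∫ _y in t.I, 4 * zs (t.l - s.l) := by
    refine setIntegral_mono_on (integrable_wt_u (by norm_num) s).integrableOn ?_ hm ?_
    · refine integrableOn_const ?_
      rw [Tile.I, volume_dy]
      exact ENNReal.ofReal_ne_top
    · intro y hy
      exact wt_same h hy
  refine h1.trans (le_of_eq ?_)
  rw [setIntegral_const, Measure.real, Tile.I, volume_dy, ENNReal.toReal_ofReal (two_zpow_pos _).le,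
    h, smul_eq_mul, mul_comm]

/-- the intervals of the tiles below `s` -/
theorem orta_disj {n : ℕ} {K L : ℕ → ℤ} {X : ℕ → ℝ} {T : ℕ → Finset Tile}
    (h1 : ∀ i < n, ∀ s ∈ T i, s.I ⊆ dy (K i) (L i) ∧ X i ∈ s.up)
    (h3 : ∀ i < n, ∀ j < n, i ≠ j → ∀ s ∈ T i, ∀ s' ∈ T j, s.om ⊆ s'.lo →
      Disjoint s'.I (dy (K i) (L i)))
    {s t t' : Tile} {j j' : ℕ} (hj : j < n) (hj' : j' < n) (ht : t ∈ T j) (ht' : t' ∈ T j')
    (hs : s.om ⊆ t.lo) (hs' : s.om ⊆ t'.lo) (hk : t'.k ≤ t.k) (hne : t ≠ t') :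
    Disjoint t.I t'.I := by
  by_contra hd
  rw [Set.not_disjoint_iff] at hd
  obtain ⟨y, hy, hy'⟩ := hd
  obtain ⟨x, hx⟩ := om_nonempty s
  rcases hk.lt_or_eq with hlt | heq
  · have hom : t.om ⊆ t'.lo := om_sub_lo hlt (hs' hx) (lo_sub t (hs hx))
    by_cases hjj : j = j'
    · subst hjj
      have := hom (up_sub t (h1 j hj t ht).2)
      exact Set.disjoint_left.1 (lo_disj_up t') this (h1 j hj t' ht').2
    · have := h3 j hj j' hj' hjj t ht t' ht' hom
      exact Set.disjoint_left.1 this hy' ((h1 j hj t ht).1 hy)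
  · apply hne
    have hm : t'.m = t.m := m_eq heq (lo_sub t' (hs' hx)) (lo_sub t (hs hx))
    have hl : t'.l = t.l := by
      rw [Tile.I] at hy hy'
      rw [heq] at hy'
      exact dy_eq_of_mem hy' hy
    exact Tile.ext heq.symm hl.symm hm.symm

theorem orta_disj2 {n : ℕ} {K L : ℕ → ℤ} {X : ℕ → ℝ} {T : ℕ → Finset Tile}
    (h1 : ∀ i < n, ∀ s ∈ T i, s.I ⊆ dy (K i) (L i) ∧ X i ∈ s.up)
    (h3 : ∀ i < n, ∀ j < n, i ≠ j → ∀ s ∈ T i, ∀ s' ∈ T j, s.om ⊆ s'.lo →
      Disjoint s'.I (dy (K i) (L i)))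
    {s t : Tile} {i j : ℕ} (hi : i < n) (hj : j < n) (hs : s ∈ T i) (ht : t ∈ T j)
    (hst : s.om ⊆ t.lo) : Disjoint t.I (dy (K i) (L i)) := by
  by_cases hij : i = j
  · subst hij
    exfalso
    have := hst (up_sub s (h1 i hi s hs).2)
    exact Set.disjoint_left.1 (lo_disj_up t) this (h1 i hi t ht).2
  · exact h3 i hi j hj hij s hs t ht hst

/-- the sum of the integrals over the intervals below `s` -/
theorem orta_int {n : ℕ} {K L : ℕ → ℤ} {X : ℕ → ℝ} {T : ℕ → Finset Tile}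
    (h1 : ∀ i < n, ∀ s ∈ T i, s.I ⊆ dy (K i) (L i) ∧ X i ∈ s.up)
    (h3 : ∀ i < n, ∀ j < n, i ≠ j → ∀ s ∈ T i, ∀ s' ∈ T j, s.om ⊆ s'.lo →
      Disjoint s'.I (dy (K i) (L i)))
    {s : Tile} {i : ℕ} (hi : i < n) (hs : s ∈ T i) (V : Finset Tile)
    (hV : ∀ t ∈ V, (∃ j < n, t ∈ T j) ∧ s.om ⊆ t.lo) :
    ∑ t ∈ V, ∫ y in t.I, wt 10 (s.u y) ≤ ∫ y in (dy (K i) (L i))ᶜ, wt 10 (s.u y) := by
  have hint : Integrable (fun y => wt 10 (s.u y)) := integrable_wt_u (by norm_num) s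
  have hmI : ∀ t ∈ V, MeasurableSet (Tile.I t) := fun t _ => measurableSet_dy _ _
  rw [← integral_biUnion_finset V hmI ?_ (fun t _ => hint.integrableOn)]
  · refine setIntegral_mono_set hint.integrableOn ?_ ?_
    · exact Filter.Eventually.of_forall fun y => wt_nonneg _ _
    · refine Filter.Eventually.of_forall ?_
      intro y hy
      have hy2 : y ∈ ⋃ t ∈ V, t.I := hy
      simp only [mem_iUnion] at hy2
      obtain ⟨t, ht, hyt⟩ := hy2
      obtain ⟨⟨j, hj, htj⟩, hst⟩ := hV t ht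
      exact Set.disjoint_left.1 (orta_disj2 h1 h3 hi hj hs htj hst) hyt
  · intro t ht t' ht' hne
    obtain ⟨⟨j, hj, htj⟩, hst⟩ := hV t ht
    obtain ⟨⟨j', hj', htj'⟩, hst'⟩ := hV t' ht'
    rcases le_total t'.k t.k with hk | hk
    · exact orta_disj h1 h3 hj hj' htj htj' hst hst' hk hne
    · exact (orta_disj h1 h3 hj' hj htj' htj hst' hst hk hne.symm).symm

/-- **ORTA**: almost orthogonality of the selected trees -/
theorem orta (B : ℝ) (hB : 0 < B) : ∃ C : ℝ, 0 < C ∧ ∀ (c : Tile → ℝ) (eps : ℝ) (n : ℕ)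
    (K L : ℕ → ℤ) (X : ℕ → ℝ) (T : ℕ → Finset Tile) (D : Finset Tile) (G : Tile → Tile → ℝ),
    0 < eps → (∀ s, 0 ≤ c s) → (∀ s ∈ D, c s ≤ eps * Real.sqrt ((2 : ℝ) ^ s.k)) →
    (∀ s, s ∈ D ↔ ∃ i < n, s ∈ T i) →
    (∀ i < n, ∀ j < n, i ≠ j → Disjoint (T i) (T j)) →
    (∀ i < n, ∀ s ∈ T i, s.I ⊆ dy (K i) (L i) ∧ X i ∈ s.up) →
    (∀ i < n, eps ^ 2 / 4 * (2 : ℝ) ^ (K i) < ∑ s ∈ T i, c s ^ 2) →
    (∀ i < n, ∀ j < n, i ≠ j → ∀ s ∈ T i, ∀ s' ∈ T j, s.om ⊆ s'.lo →
      Disjoint s'.I (dy (K i) (L i))) →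
    (∀ s t, 0 ≤ G s t) → (∀ s t, G s t = G t s) →
    (∀ s t : Tile, t.k ≤ s.k → G s t ≤ B * ((Real.sqrt ((2 : ℝ) ^ s.k))⁻¹ *
      (Real.sqrt ((2 : ℝ) ^ t.k))⁻¹) * ∫ y in t.I, wt 10 (s.u y)) →
    (∀ s t : Tile, Disjoint s.lo t.lo → G s t = 0) →
    ∑ s ∈ D, ∑ t ∈ D, c s * c t * G s t ≤ C * ∑ s ∈ D, c s ^ 2 := by
  classical
  obtain ⟨Cg, hCg, hgeo⟩ := geo
  set Z : ℝ := ∑' z, zs z with hZ
  have hZ0 : 0 ≤ Z := tsum_zs_nonneg
  refine ⟨4 * B * Z + 8 * B * Cg, by positivity, ?_⟩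
  intro c eps n K L X T D G heps hc hce hD hdisj h1 h2 h3 hG0 hGs hG hGd
  have hsq : ∀ k : ℤ, 0 < Real.sqrt ((2 : ℝ) ^ k) := fun k => Real.sqrt_pos.2 (two_zpow_pos k)
  have hss : ∀ k : ℤ, Real.sqrt ((2 : ℝ) ^ k) * Real.sqrt ((2 : ℝ) ^ k) = (2 : ℝ) ^ k :=
    fun k => Real.mul_self_sqrt (two_zpow_pos k).le
  -- splitting
  set F : Tile → Tile → ℝ := fun s t => c s * c t * G s t with hF
  have hF0 : ∀ s t, 0 ≤ F s t := fun s t => mul_nonneg (mul_nonneg (hc s) (hc t)) (hG0 s t)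
  have hFs : ∀ s t, F s t = F t s := fun s t => by
    simp only [hF]
    rw [hGs s t]
    ring
  have hsplit : ∑ s ∈ D, ∑ t ∈ D, F s t =
      ∑ s ∈ D, ∑ t ∈ D, (if t.k = s.k then F s t else 0) +
        2 * ∑ s ∈ D, ∑ t ∈ D, (if t.k < s.k then F s t else 0) := by
    have e1 : ∑ s ∈ D, ∑ t ∈ D, (if s.k < t.k then F s t else 0) =
        ∑ s ∈ D, ∑ t ∈ D, (if t.k < s.k then F s t else 0) := by
      rw [Finset.sum_comm]
      refine Finset.sum_congr rfl fun s _ => Finset.sum_congr rfl fun t _ => ?_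
      rw [hFs t s]
    have e2 : ∑ s ∈ D, ∑ t ∈ D, F s t =
        ∑ s ∈ D, ∑ t ∈ D, (if t.k = s.k then F s t else 0) +
          ∑ s ∈ D, ∑ t ∈ D, (if t.k < s.k then F s t else 0) +
          ∑ s ∈ D, ∑ t ∈ D, (if s.k < t.k then F s t else 0) := by
      rw [← Finset.sum_add_distrib, ← Finset.sum_add_distrib]
      refine Finset.sum_congr rfl fun s _ => ?_
      rw [← Finset.sum_add_distrib, ← Finset.sum_add_distrib]
      refine Finset.sum_congr rfl fun t _ => ?_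
      rcases lt_trichotomy t.k s.k with h | h | h
      · rw [if_neg h.ne, if_pos h, if_neg h.not_gt]; ring
      · rw [if_pos h, if_neg h.not_lt, if_neg h.symm.not_lt]; ring
      · rw [if_neg h.ne', if_neg h.not_gt, if_pos h]; ring
    rw [e2, e1]
    ring
  -- the diagonal part
  have hdiag : ∑ s ∈ D, ∑ t ∈ D, (if t.k = s.k then F s t else 0) ≤
      4 * B * Z * ∑ s ∈ D, c s ^ 2 := by
    have b1 : ∀ s t : Tile, t.k = s.k → G s t ≤ if t.m = s.m then 4 * B * zs (t.l - s.l) else 0 := by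
      intro s t hk
      by_cases hm : t.m = s.m
      · rw [if_pos hm]
        have h4 := hG s t hk.le
        have h5 := int_same (s := s) (t := t) hk.symm
        rw [hk] at h4
        have h6 : B * ((Real.sqrt ((2 : ℝ) ^ s.k))⁻¹ * (Real.sqrt ((2 : ℝ) ^ s.k))⁻¹) =
            B * ((2 : ℝ) ^ s.k)⁻¹ := by
          rw [← mul_inv, hss]
        rw [h6] at h4
        have hp := two_zpow_pos s.k
        refine h4.trans ((mul_le_mul_of_nonneg_left h5 (by positivity)).trans (le_of_eq ?_))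
        field_simp
      · rw [if_neg hm]
        refine (hGd s t ?_).le
        rw [Set.disjoint_left]
        intro x hx hx'
        exact hm (m_eq hk (lo_sub t hx') (lo_sub s hx))
    have b2 : ∀ s ∈ D, ∑ t ∈ D, (if t.k = s.k then G s t else 0) ≤ 4 * B * Z := by
      intro s _
      have b3 : ∑ t ∈ D, (if t.k = s.k then G s t else 0) ≤
          ∑ t ∈ D.filter (fun t => t.k = s.k ∧ t.m = s.m), 4 * B * zs (t.l - s.l) := by
        rw [Finset.sum_filter]
        refine Finset.sum_le_sum fun t _ => ?_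
        by_cases hk : t.k = s.k
        · rw [if_pos hk]
          refine (b1 s t hk).trans (le_of_eq ?_)
          by_cases hm : t.m = s.m
          · rw [if_pos hm, if_pos ⟨hk, hm⟩]
          · rw [if_neg hm, if_neg (fun h => hm h.2)]
        · rw [if_neg hk, if_neg (fun h => hk h.1)]
      refine b3.trans ?_
      rw [← Finset.mul_sum]
      refine mul_le_mul_of_nonneg_left ?_ (by positivity)
      refine sum_zs_le _ _ ?_
      intro t ht t' ht' htt
      have ht1 := (Finset.mem_filter.1 ht).2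
      have ht2 := (Finset.mem_filter.1 ht').2
      simp only at htt
      exact Tile.ext (by omega) (by omega) (by omega)
    have b4 : ∀ s ∈ D, ∀ t ∈ D, (if t.k = s.k then F s t else 0) ≤
        1 / 2 * (c s ^ 2 * (if t.k = s.k then G s t else 0)) +
          1 / 2 * (c t ^ 2 * (if s.k = t.k then G t s else 0)) := by
      intro s _ t _
      by_cases hk : t.k = s.k
      · rw [if_pos hk, if_pos hk, if_pos hk.symm, hGs t s]
        simp only [hF]
        have := mul_nonneg (sq_nonneg (c s - c t)) (hG0 s t)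
        nlinarith
      · rw [if_neg hk, if_neg hk, if_neg (fun h => hk h.symm)]
        simp
    calc ∑ s ∈ D, ∑ t ∈ D, (if t.k = s.k then F s t else 0)
        ≤ ∑ s ∈ D, ∑ t ∈ D, (1 / 2 * (c s ^ 2 * (if t.k = s.k then G s t else 0)) +
          1 / 2 * (c t ^ 2 * (if s.k = t.k then G t s else 0))) :=
          Finset.sum_le_sum fun s hs => Finset.sum_le_sum fun t ht => b4 s hs t ht
      _ = ∑ s ∈ D, c s ^ 2 * ∑ t ∈ D, (if t.k = s.k then G s t else 0) := by
          simp only [Finset.sum_add_distrib]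
          have e1 : ∑ s ∈ D, ∑ t ∈ D, 1 / 2 * (c t ^ 2 * (if s.k = t.k then G t s else 0)) =
              ∑ s ∈ D, ∑ t ∈ D, 1 / 2 * (c s ^ 2 * (if t.k = s.k then G s t else 0)) :=
            Finset.sum_comm
          rw [e1, ← Finset.sum_add_distrib]
          refine Finset.sum_congr rfl fun s _ => ?_
          rw [← Finset.sum_add_distrib, Finset.mul_sum]
          refine Finset.sum_congr rfl fun t _ => ?_
          ring
      _ ≤ ∑ s ∈ D, c s ^ 2 * (4 * B * Z) :=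
          Finset.sum_le_sum fun s hs => mul_le_mul_of_nonneg_left (b2 s hs) (sq_nonneg _)
      _ = 4 * B * Z * ∑ s ∈ D, c s ^ 2 := by rw [← Finset.sum_mul, mul_comm]
  -- the off diagonal part
  have hoff1 : ∀ i < n, ∀ s ∈ T i, ∑ t ∈ D, (if t.k < s.k then F s t else 0) ≤
      eps ^ 2 * B * ∫ y in (dy (K i) (L i))ᶜ, wt 10 (s.u y) := by
    intro i hi s hs
    have hsD : s ∈ D := (hD s).2 ⟨i, hi, hs⟩
    set V : Finset Tile := D.filter (fun t => t.k < s.k ∧ ¬ Disjoint s.lo t.lo) with hVd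
    have hVp : ∀ t ∈ V, (∃ j < n, t ∈ T j) ∧ s.om ⊆ t.lo := by
      intro t ht
      obtain ⟨htD, hk, hnd⟩ := Finset.mem_filter.1 ht
      refine ⟨(hD t).1 htD, ?_⟩
      obtain ⟨x, hx, hx'⟩ := Set.not_disjoint_iff.1 hnd
      exact om_sub_lo hk hx' (lo_sub s hx)
    have c1 : ∑ t ∈ D, (if t.k < s.k then F s t else 0) ≤
        ∑ t ∈ V, eps ^ 2 * B * ∫ y in t.I, wt 10 (s.u y) := by
      rw [hVd, Finset.sum_filter]
      refine Finset.sum_le_sum fun t ht => ?_
      by_cases hk : t.k < s.k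
      · rw [if_pos hk]
        by_cases hd : Disjoint s.lo t.lo
        · rw [if_neg (fun h => h.2 hd)]
          simp only [hF]
          rw [hGd s t hd]
          simp
        · rw [if_pos ⟨hk, hd⟩]
          have g1 := hG s t hk.le
          have hI : 0 ≤ ∫ y in t.I, wt 10 (s.u y) :=
            setIntegral_nonneg (measurableSet_dy _ _) fun y _ => wt_nonneg _ _
          have hcc : c s * c t ≤
              (eps * Real.sqrt ((2 : ℝ) ^ s.k)) * (eps * Real.sqrt ((2 : ℝ) ^ t.k)) :=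
            mul_le_mul (hce s hsD) (hce t ht) (hc t) (mul_nonneg heps.le (hsq _).le)
          calc F s t = c s * c t * G s t := rfl
            _ ≤ (eps * Real.sqrt ((2 : ℝ) ^ s.k)) * (eps * Real.sqrt ((2 : ℝ) ^ t.k)) *
                (B * ((Real.sqrt ((2 : ℝ) ^ s.k))⁻¹ * (Real.sqrt ((2 : ℝ) ^ t.k))⁻¹) *
                  ∫ y in t.I, wt 10 (s.u y)) :=
                mul_le_mul hcc g1 (hG0 s t)
                  (mul_nonneg (mul_nonneg heps.le (hsq _).le) (mul_nonneg heps.le (hsq _).le))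
            _ = eps ^ 2 * B * ∫ y in t.I, wt 10 (s.u y) := by
                have q1 := (hsq s.k).ne'
                have q2 := (hsq t.k).ne'
                field_simp
      · rw [if_neg hk, if_neg (fun h => hk h.1)]
    refine c1.trans ?_
    rw [← Finset.mul_sum]
    exact mul_le_mul_of_nonneg_left (orta_int h1 h3 hi hs V hVp) (by positivity)
  have hoff2 : ∀ i < n, ∑ s ∈ T i, ∑ t ∈ D, (if t.k < s.k then F s t else 0) ≤
      4 * B * Cg * ∑ s ∈ T i, c s ^ 2 := by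
    intro i hi
    have c1 := hgeo (T i) (K i) (L i) (fun s hs => (h1 i hi s hs).1) (by
      intro s hs t ht hk hl
      exact Tile.ext hk hl (m_eq hk (up_sub s (h1 i hi s hs).2) (up_sub t (h1 i hi t ht).2)))
    have c2 := h2 i hi
    calc ∑ s ∈ T i, ∑ t ∈ D, (if t.k < s.k then F s t else 0)
        ≤ ∑ s ∈ T i, eps ^ 2 * B * ∫ y in (dy (K i) (L i))ᶜ, wt 10 (s.u y) :=
          Finset.sum_le_sum fun s hs => hoff1 i hi s hs
      _ = eps ^ 2 * B * ∑ s ∈ T i, ∫ y in (dy (K i) (L i))ᶜ, wt 10 (s.u y) := by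
          rw [Finset.mul_sum]
      _ ≤ eps ^ 2 * B * (Cg * (2 : ℝ) ^ (K i)) := mul_le_mul_of_nonneg_left c1 (by positivity)
      _ = 4 * B * Cg * (eps ^ 2 / 4 * (2 : ℝ) ^ (K i)) := by ring
      _ ≤ 4 * B * Cg * ∑ s ∈ T i, c s ^ 2 := mul_le_mul_of_nonneg_left c2.le (by positivity)
  have hDu : D = (Finset.range n).biUnion T := by
    ext s
    rw [hD s, Finset.mem_biUnion]
    simp only [Finset.mem_range]
  have hpd : Set.PairwiseDisjoint (↑(Finset.range n)) T := by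
    intro i hi j hj hij
    exact hdisj i (Finset.mem_range.1 hi) j (Finset.mem_range.1 hj) hij
  have hoff : ∑ s ∈ D, ∑ t ∈ D, (if t.k < s.k then F s t else 0) ≤
      4 * B * Cg * ∑ s ∈ D, c s ^ 2 := by
    have e1 : ∀ f : Tile → ℝ, ∑ s ∈ D, f s = ∑ i ∈ Finset.range n, ∑ s ∈ T i, f s := by
      intro f
      rw [hDu, Finset.sum_biUnion hpd]
    rw [e1, e1, Finset.mul_sum]
    exact Finset.sum_le_sum fun i hi => hoff2 i (Finset.mem_range.1 hi)
  rw [hsplit]
  have := hdiag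
  have := hoff
  nlinarith

end Pool.Agent.CAR
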