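import Pool.Agent.CAR.Defs

set_option autoImplicit false

/-!
# Greedy selection of trees (Blueprint item 1)
-/

namespace Pool.Agent.CAR

namespace SELE_

open Set

/-- energy bound -/
def En (c : Tile → ℝ) (S : Finset Tile) (e : ℝ) : Prop :=
  ∀ T : Finset Tile, T ⊆ S → ∀ (k l : ℤ) (ξ : ℝ), (∀ s ∈ T, s.I ⊆ dy k l ∧ ξ ∈ s.up) →
    ∑ s ∈ T, c s ^ 2 ≤ e ^ 2 * (2 : ℝ) ^ k

/-- left end point of the upper half -/
noncomputable def lf (s : Tile) : ℝ := (2 : ℝ) ^ (-s.k - 1) * ((2 * s.m + 1 : ℤ) : ℝ)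

theorem lf_le {s : Tile} {x : ℝ} (h : x ∈ s.up) : lf s ≤ x := h.1

/-- candidates -/
def Cd (c : Tile → ℝ) (S : Finset Tile) (e ξ : ℝ) : Prop :=
  ∃ (T : Finset Tile) (k l : ℤ), T ⊆ S ∧ (∀ s ∈ T, s.I ⊆ dy k l ∧ ξ ∈ s.up) ∧
    e ^ 2 / 4 * (2 : ℝ) ^ k < ∑ s ∈ T, c s ^ 2

theorem cd_lf {c : Tile → ℝ} {S : Finset Tile} {e ξ : ℝ} (h : Cd c S e ξ) (he : 0 < e) :
    ∃ s ∈ S, lf s ≤ ξ ∧ Cd c S e (lf s) := by
  obtain ⟨T, k, l, h1, h2, h3⟩ := h
  have hT : T.Nonempty := by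
    by_contra h
    rw [Finset.not_nonempty_iff_eq_empty] at h
    rw [h, Finset.sum_empty] at h3
    have := two_zpow_pos k
    have : 0 < e ^ 2 / 4 * (2 : ℝ) ^ k := by positivity
    linarith
  obtain ⟨s, hs, hm⟩ := Finset.exists_max_image T lf hT
  refine ⟨s, h1 hs, lf_le (h2 s hs).2, T, k, l, h1, fun t ht => ⟨(h2 t ht).1, ?_⟩, h3⟩
  exact ⟨hm t ht, lt_of_le_of_lt (lf_le (h2 s hs).2) (h2 t ht).2.2⟩

theorem sele_aux (c : Tile → ℝ) (e : ℝ) (he : 0 < e) : ∀ (N : ℕ) (S : Finset Tile),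
    S.card ≤ N → ∃ (n : ℕ) (k l : ℕ → ℤ) (ξ : ℕ → ℝ) (T : ℕ → Finset Tile),
      (∀ i < n, T i ⊆ S) ∧ (∀ i < n, ∀ j < n, i ≠ j → Disjoint (T i) (T j)) ∧
      (∀ i < n, ∀ s ∈ T i, s.I ⊆ dy (k i) (l i) ∧ ξ i ∈ s.up) ∧
      (∀ i < n, e ^ 2 / 4 * (2 : ℝ) ^ (k i) < ∑ s ∈ T i, c s ^ 2) ∧
      (∀ i < n, ∀ j < n, i ≠ j → ∀ s ∈ T i, ∀ s' ∈ T j, s.om ⊆ s'.lo →
        Disjoint s'.I (dy (k i) (l i))) ∧
      ∀ U : Finset Tile, U ⊆ S → (∀ s ∈ U, ∀ i < n, ¬ (s.I ⊆ dy (k i) (l i) ∧ ξ i ∈ s.om)) →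
        En c U (e / 2) := by
  classical
  intro N
  induction N with
  | zero =>
    intro S hS
    have hS0 : S = ∅ := Finset.card_eq_zero.1 (Nat.le_zero.1 hS)
    refine ⟨0, fun _ => 0, fun _ => 0, fun _ => 0, fun _ => ∅, ?_, ?_, ?_, ?_, ?_, ?_⟩
    · intro i hi; omega
    · intro i hi; omega
    · intro i hi; omega
    · intro i hi; omega
    · intro i hi; omega
    · intro U hU _ T hT k l ξ _
      have : T = ∅ := Finset.subset_empty.1 (hS0 ▸ (hT.trans hU))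
      rw [this, Finset.sum_empty]
      have := two_zpow_pos k
      positivity
  | succ N ih =>
    intro S hS
    by_cases hc : ∃ ξ, Cd c S e ξ
    · -- the minimal candidate
      obtain ⟨ξ', hξ'⟩ := hc
      obtain ⟨s1, hs1, _, hs1'⟩ := cd_lf hξ' he
      have hne : (S.filter fun s => Cd c S e (lf s)).Nonempty :=
        ⟨s1, Finset.mem_filter.2 ⟨hs1, hs1'⟩⟩
      obtain ⟨s0, hs0, hmin⟩ := Finset.exists_min_image _ lf hne
      obtain ⟨T0, k0, l0, h1, h2, h3⟩ := (Finset.mem_filter.1 hs0).2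
      set x0 := lf s0 with hx0
      have hmin' : ∀ ξ, Cd c S e ξ → x0 ≤ ξ := by
        intro ξ hξ
        obtain ⟨s, hs, hs', hs''⟩ := cd_lf hξ he
        exact (hmin s (Finset.mem_filter.2 ⟨hs, hs''⟩)).trans hs'
      have hT0 : T0.Nonempty := by
        by_contra h
        rw [Finset.not_nonempty_iff_eq_empty] at h
        rw [h, Finset.sum_empty] at h3
        have := two_zpow_pos k0
        have : 0 < e ^ 2 / 4 * (2 : ℝ) ^ k0 := by positivity
        linarith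
      set S' := S.filter fun s => ¬ (s.I ⊆ dy k0 l0 ∧ x0 ∈ s.om) with hS'
      have hsub : S' ⊆ S := Finset.filter_subset _ _
      have hT0' : ∀ s ∈ T0, s ∉ S' := by
        intro s hs hs'
        exact (Finset.mem_filter.1 hs').2 ⟨(h2 s hs).1, up_sub _ (h2 s hs).2⟩
      have hcard : S'.card ≤ N := by
        obtain ⟨t, ht⟩ := hT0
        have : S'.card < S.card := Finset.card_lt_card
          ⟨hsub, fun h => hT0' t ht (h (h1 ht))⟩
        omega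
      obtain ⟨n, k, l, ξ, T, q1, q2, q3, q4, q5, q6⟩ := ih S' hcard
      have hge : ∀ i < n, x0 ≤ ξ i := fun i hi =>
        hmin' _ ⟨T i, k i, l i, (q1 i hi).trans hsub, q3 i hi, q4 i hi⟩
      have hk : ∀ s ∈ T0, s.k ≤ k0 := fun s hs => le_of_dy_sub (h2 s hs).1
      refine ⟨n + 1, fun i => Nat.casesOn i k0 k, fun i => Nat.casesOn i l0 l,
        fun i => Nat.casesOn i x0 ξ, fun i => Nat.casesOn i T0 T, ?_, ?_, ?_, ?_, ?_, ?_⟩
      · rintro (_ | i) hi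
        · exact h1
        · exact (q1 i (by omega)).trans hsub
      · rintro (_ | i) hi (_ | j) hj hij
        · exact absurd rfl hij
        · exact Finset.disjoint_left.2 fun s hs hs' => hT0' s hs (q1 j (by omega) hs')
        · exact Finset.disjoint_left.2 fun s hs hs' => hT0' s hs' (q1 i (by omega) hs)
        · exact q2 i (by omega) j (by omega) (by omega)
      · rintro (_ | i) hi
        · exact h2
        · exact q3 i (by omega)
      · rintro (_ | i) hi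
        · exact h3
        · exact q4 i (by omega)
      · rintro (_ | i) hi (_ | j) hj hij s hs s' hs' hss
        · exact absurd rfl hij
        · have m1 := q1 j (by omega) hs'
          have m2 : x0 ∈ s'.om := lo_sub _ (hss (up_sub _ (h2 s hs).2))
          have m3 : ¬ s'.I ⊆ dy k0 l0 := fun h => (Finset.mem_filter.1 m1).2 ⟨h, m2⟩
          have m4 : s'.k ≤ k0 := by
            have := le_of_dy_sub hss
            have := hk s hs
            omega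
          rcases dy_nest (l := s'.l) (l' := l0) m4 with h | h
          · exact absurd h m3
          · exact h
        · exfalso
          have m1 : ξ i ∈ s'.lo := hss (up_sub _ (q3 i (by omega) s hs).2)
          have m2 : x0 ∈ s'.up := (h2 s' hs').2
          have := lo_lt_up m1 m2
          have := hge i (by omega)
          linarith
        · exact q5 i (by omega) j (by omega) (by omega) s hs s' hs' hss
      · intro U hU hU'
        refine q6 U ?_ ?_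
        · intro s hs
          exact Finset.mem_filter.2 ⟨hU hs, hU' s hs 0 (by omega)⟩
        · intro s hs i hi
          exact hU' s hs (i + 1) (by omega)
    · refine ⟨0, fun _ => 0, fun _ => 0, fun _ => 0, fun _ => ∅, ?_, ?_, ?_, ?_, ?_, ?_⟩
      · intro i hi; omega
      · intro i hi; omega
      · intro i hi; omega
      · intro i hi; omega
      · intro i hi; omega
      · intro U hU _ T hT k l ξ h
        by_contra hlt
        push Not at hlt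
        refine hc ⟨ξ, T, k, l, hT.trans hU, h, ?_⟩
        have e1 : (e / 2) ^ 2 * (2 : ℝ) ^ k = e ^ 2 / 4 * (2 : ℝ) ^ k := by ring
        rw [← e1]; exact hlt

/-- **SELE** -/
theorem sele (c : Tile → ℝ) (S : Finset Tile) (e : ℝ) (he : 0 < e) :
    ∃ (n : ℕ) (k l : ℕ → ℤ) (ξ : ℕ → ℝ) (T : ℕ → Finset Tile),
      (∀ i < n, T i ⊆ S) ∧ (∀ i < n, ∀ j < n, i ≠ j → Disjoint (T i) (T j)) ∧
      (∀ i < n, ∀ s ∈ T i, s.I ⊆ dy (k i) (l i) ∧ ξ i ∈ s.up) ∧
      (∀ i < n, e ^ 2 / 4 * (2 : ℝ) ^ (k i) < ∑ s ∈ T i, c s ^ 2) ∧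
      (∀ i < n, ∀ j < n, i ≠ j → ∀ s ∈ T i, ∀ s' ∈ T j, s.om ⊆ s'.lo →
        Disjoint s'.I (dy (k i) (l i))) ∧
      ∀ U : Finset Tile, U ⊆ S → (∀ s ∈ U, ∀ i < n, ¬ (s.I ⊆ dy (k i) (l i) ∧ ξ i ∈ s.om)) →
        En c U (e / 2) :=
  sele_aux c e he S.card S le_rfl

/-- **SELE**, with the remaining set -/
theorem sele2 (c : Tile → ℝ) (S : Finset Tile) (e : ℝ) (he : 0 < e) :
    ∃ (n : ℕ) (k l : ℕ → ℤ) (ξ : ℕ → ℝ) (T : ℕ → Finset Tile) (S' : Finset Tile), S' ⊆ S ∧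
      (∀ i < n, T i ⊆ S) ∧ (∀ i < n, ∀ j < n, i ≠ j → Disjoint (T i) (T j)) ∧
      (∀ i < n, ∀ s ∈ T i, s.I ⊆ dy (k i) (l i) ∧ ξ i ∈ s.up) ∧
      (∀ i < n, e ^ 2 / 4 * (2 : ℝ) ^ (k i) < ∑ s ∈ T i, c s ^ 2) ∧
      (∀ i < n, ∀ j < n, i ≠ j → ∀ s ∈ T i, ∀ s' ∈ T j, s.om ⊆ s'.lo →
        Disjoint s'.I (dy (k i) (l i))) ∧
      (∀ s ∈ S, s ∉ S' → ∃ i < n, s.I ⊆ dy (k i) (l i) ∧ ξ i ∈ s.om) ∧
      (∀ s ∈ S', ∀ i < n, ¬ (s.I ⊆ dy (k i) (l i) ∧ ξ i ∈ s.om)) ∧ En c S' (e / 2) := by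
  classical
  obtain ⟨n, k, l, ξ, T, h1, h2, h3, h4, h5, h6⟩ := sele c S e he
  refine ⟨n, k, l, ξ, T, S.filter fun s => ∀ i < n, ¬ (s.I ⊆ dy (k i) (l i) ∧ ξ i ∈ s.om),
    Finset.filter_subset _ _, h1, h2, h3, h4, h5, ?_, ?_, ?_⟩
  · intro s hs hs'
    by_contra h
    push Not at h
    refine hs' (Finset.mem_filter.2 ⟨hs, fun i hi hh => h i hi hh.1 hh.2⟩)
  · intro s hs
    exact (Finset.mem_filter.1 hs).2
  · exact h6 _ (Finset.filter_subset _ _) fun s hs => (Finset.mem_filter.1 hs).2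

end SELE_

end Pool.Agent.CAR
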