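import Pool.Agent.CAR.ORTA
import Pool.Agent.CAR.SELE

set_option autoImplicit false

/-!
# The Carleson operator on the line: Cauchy–Schwarz part of the energy lemma, the energy lemma
-/

namespace Pool.Agent.CAR

open MeasureTheory Set ComplexConjugate
open scoped ENNReal NNReal

theorem norm_e1 (x : ℝ) : ‖e1 x‖ = 1 := by
  unfold e1
  rw [Complex.norm_exp]
  simp

theorem continuous_e1 : Continuous e1 := by
  unfold e1
  fun_prop

section FR

variable {A : ℝ} {φ Φ : ℝ → ℂ}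

theorem continuous_fr (h : WPk A φ Φ) (s : Tile) : Continuous (fr Φ s) := by
  unfold fr
  have h1 := h.cΦ
  have h2 := continuous_e1
  fun_prop

theorem fr_supp (h : WPk A φ Φ) (s : Tile) : HasCompactSupport (fr Φ s) := by
  have hpos := two_zpow_pos s.k
  refine HasCompactSupport.of_support_subset_isCompact
    (isCompact_Icc (a := (1 / 8 + (s.m : ℝ)) / (2 : ℝ) ^ s.k)
      (b := (3 / 8 + (s.m : ℝ)) / (2 : ℝ) ^ s.k)) ?_
  intro x hx
  rw [Function.mem_support] at hx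
  have h1 : Φ ((2 : ℝ) ^ s.k * x - s.m) ≠ 0 := by
    intro h0
    apply hx
    unfold fr
    rw [h0]
    simp
  have h2 := h.supp _ h1
  rw [mem_Icc] at h2 ⊢
  rw [div_le_iff₀ hpos, le_div_iff₀ hpos]
  constructor <;> nlinarith [h2.1, h2.2]

theorem norm_fr_le (h : WPk A φ Φ) (s : Tile) (x : ℝ) :
    ‖fr Φ s x‖ ≤ Real.sqrt ((2 : ℝ) ^ s.k) * A := by
  unfold fr
  rw [norm_mul, norm_mul, norm_e1, mul_one, Complex.norm_real,
    Real.norm_of_nonneg (Real.sqrt_nonneg _)]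
  exact mul_le_mul_of_nonneg_left (h.bd _) (Real.sqrt_nonneg _)

theorem integrable_fr (h : WPk A φ Φ) (s : Tile) : Integrable (fr Φ s) :=
  (continuous_fr h s).integrable_of_hasCompactSupport (fr_supp h s)

theorem integrable_mul_fr (h : WPk A φ Φ) {g : ℝ → ℂ} (hg : Integrable g) (s : Tile) :
    Integrable (fun ξ => g ξ * conj (fr Φ s ξ)) := by
  have h1 : Continuous (fun ξ => conj (fr Φ s ξ)) :=
    Complex.continuous_conj.comp (continuous_fr h s)
  refine hg.mul_bdd (c := Real.sqrt ((2 : ℝ) ^ s.k) * A) h1.aestronglyMeasurable ?_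
  refine Filter.Eventually.of_forall fun x => ?_
  rw [RCLike.norm_conj]
  exact norm_fr_le h s x

theorem integrable_fr_fr (h : WPk A φ Φ) (s t : Tile) :
    Integrable (fun ξ => fr Φ s ξ * conj (fr Φ t ξ)) :=
  integrable_mul_fr h (integrable_fr h s) t

end FR

theorem cs_int {f h : ℝ → ℂ} (hf : AEStronglyMeasurable f) (hh : AEStronglyMeasurable h)
    (hf2 : Integrable (fun x => ‖f x‖ ^ 2)) (hh2 : Integrable (fun x => ‖h x‖ ^ 2)) :
    ‖∫ x, f x * conj (h x)‖ ≤ Real.sqrt (∫ x, ‖f x‖ ^ 2) * Real.sqrt (∫ x, ‖h x‖ ^ 2) := by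
  have h1 : ‖∫ x, f x * conj (h x)‖ ≤ ∫ x, ‖f x‖ * ‖h x‖ := by
    refine (norm_integral_le_integral_norm _).trans (le_of_eq ?_)
    refine integral_congr_ae (Filter.Eventually.of_forall fun x => ?_)
    simp only [norm_mul, RCLike.norm_conj]
  have mf : MemLp (fun x => ‖f x‖) (ENNReal.ofReal 2) := by
    have e : (ENNReal.ofReal 2) = 2 := by simp
    rw [e]
    exact (memLp_two_iff_integrable_sq hf.norm).2 hf2
  have mh : MemLp (fun x => ‖h x‖) (ENNReal.ofReal 2) := by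
    have e : (ENNReal.ofReal 2) = 2 := by simp
    rw [e]
    exact (memLp_two_iff_integrable_sq hh.norm).2 hh2
  have h2 := integral_mul_le_Lp_mul_Lq_of_nonneg (μ := volume) Real.HolderConjugate.two_two
    (Filter.Eventually.of_forall fun x => norm_nonneg (f x))
    (Filter.Eventually.of_forall fun x => norm_nonneg (h x)) mf mh
  refine h1.trans (h2.trans (le_of_eq ?_))
  rw [Real.sqrt_eq_rpow, Real.sqrt_eq_rpow]
  norm_num

/-- **ORTB** -/
theorem ortb {A : ℝ} {φ Φ g : ℝ → ℂ} (hW : WPk A φ Φ) (hm : Measurable g) (hg : Integrable g)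
    (hg2 : Integrable (fun ξ => ‖g ξ‖ ^ 2)) (D : Finset Tile) :
    ∑ s ∈ D, ‖co Φ g s‖ ^ 2 ≤ n2 g * Real.sqrt (∑ s ∈ D, ∑ t ∈ D,
      ‖co Φ g s‖ * ‖co Φ g t‖ * ‖∫ ξ, fr Φ s ξ * conj (fr Φ t ξ)‖) := by
  classical
  set h : ℝ → ℂ := fun ξ => ∑ s ∈ D, co Φ g s * fr Φ s ξ with hh
  have hcont : Continuous h := by
    rw [hh]
    exact continuous_finsetSum _ fun s _ => continuous_const.mul (continuous_fr hW s)
  have hI : Integrable (fun ξ => h ξ * conj (h ξ)) := by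
    have : (fun ξ => h ξ * conj (h ξ)) = fun ξ => ∑ s ∈ D, ∑ t ∈ D,
        (co Φ g s * conj (co Φ g t)) * (fr Φ s ξ * conj (fr Φ t ξ)) := by
      funext ξ
      simp only [hh, map_sum, map_mul]
      rw [Finset.sum_mul_sum]
      refine Finset.sum_congr rfl fun s _ => Finset.sum_congr rfl fun t _ => ?_
      ring
    rw [this]
    refine integrable_finsetSum _ fun s _ => integrable_finsetSum _ fun t _ => ?_
    exact (integrable_fr_fr hW s t).const_mul _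
  have hsq : ∀ ξ, ((‖h ξ‖ ^ 2 : ℝ) : ℂ) = h ξ * conj (h ξ) := by
    intro ξ
    rw [Complex.mul_conj, Complex.normSq_eq_norm_sq]
  have hI2 : Integrable (fun ξ => ‖h ξ‖ ^ 2) := by
    have h1 := hI.re
    refine h1.congr (Filter.Eventually.of_forall fun ξ => ?_)
    change (h ξ * conj (h ξ)).re = ‖h ξ‖ ^ 2
    rw [← hsq ξ, Complex.ofReal_re]
  have e1 : ∫ ξ, g ξ * conj (h ξ) = ((∑ s ∈ D, ‖co Φ g s‖ ^ 2 : ℝ) : ℂ) := by
    have : ∀ ξ, g ξ * conj (h ξ) = ∑ s ∈ D, conj (co Φ g s) * (g ξ * conj (fr Φ s ξ)) := by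
      intro ξ
      simp only [hh, map_sum, map_mul]
      rw [Finset.mul_sum]
      refine Finset.sum_congr rfl fun s _ => ?_
      ring
    simp only [this]
    rw [integral_finsetSum _ fun s _ => (integrable_mul_fr hW hg s).const_mul _]
    rw [Complex.ofReal_sum]
    refine Finset.sum_congr rfl fun s _ => ?_
    rw [integral_const_mul]
    change conj (co Φ g s) * co Φ g s = _
    rw [mul_comm, Complex.mul_conj, Complex.normSq_eq_norm_sq]
  have e2 : ∫ ξ, ‖h ξ‖ ^ 2 ≤ ∑ s ∈ D, ∑ t ∈ D,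
      ‖co Φ g s‖ * ‖co Φ g t‖ * ‖∫ ξ, fr Φ s ξ * conj (fr Φ t ξ)‖ := by
    have e3 : ((∫ ξ, ‖h ξ‖ ^ 2 : ℝ) : ℂ) = ∑ s ∈ D, ∑ t ∈ D,
        (co Φ g s * conj (co Φ g t)) * ∫ ξ, fr Φ s ξ * conj (fr Φ t ξ) := by
      rw [← integral_complex_ofReal]
      have : ∀ ξ, ((‖h ξ‖ ^ 2 : ℝ) : ℂ) = ∑ s ∈ D, ∑ t ∈ D,
        (co Φ g s * conj (co Φ g t)) * (fr Φ s ξ * conj (fr Φ t ξ)) := by
        intro ξ
        rw [hsq ξ]
        simp only [hh, map_sum, map_mul]
        rw [Finset.sum_mul_sum]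
        refine Finset.sum_congr rfl fun s _ => Finset.sum_congr rfl fun t _ => ?_
        ring
      simp only [this]
      rw [integral_finsetSum _ fun s _ => integrable_finsetSum _ fun t _ =>
        (integrable_fr_fr hW s t).const_mul _]
      refine Finset.sum_congr rfl fun s _ => ?_
      rw [integral_finsetSum _ fun t _ => (integrable_fr_fr hW s t).const_mul _]
      refine Finset.sum_congr rfl fun t _ => ?_
      rw [integral_const_mul]
    have hnn : 0 ≤ ∫ ξ, ‖h ξ‖ ^ 2 := integral_nonneg fun ξ => by positivity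
    have e4 : ∫ ξ, ‖h ξ‖ ^ 2 = ‖((∫ ξ, ‖h ξ‖ ^ 2 : ℝ) : ℂ)‖ := by
      rw [Complex.norm_real, Real.norm_of_nonneg hnn]
    rw [e4, e3]
    refine (norm_sum_le _ _).trans (Finset.sum_le_sum fun s _ => ?_)
    refine (norm_sum_le _ _).trans (Finset.sum_le_sum fun t _ => ?_)
    rw [norm_mul, norm_mul, RCLike.norm_conj]
  have hcs := cs_int hm.aestronglyMeasurable hcont.aestronglyMeasurable hg2 hI2
  rw [e1, Complex.norm_real, Real.norm_of_nonneg (Finset.sum_nonneg fun s _ => by positivity)]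
    at hcs
  refine hcs.trans ?_
  unfold n2
  exact mul_le_mul_of_nonneg_left (Real.sqrt_le_sqrt e2) (Real.sqrt_nonneg _)

/-- the inner product bounds (item 2 of the blueprint) -/
def IPb (A C : ℝ) : Prop := ∀ (φ Φ : ℝ → ℂ), WPk A φ Φ → ∀ s t : Tile,
  (t.k ≤ s.k → ‖∫ ξ, fr Φ s ξ * conj (fr Φ t ξ)‖ ≤
    C * ((Real.sqrt ((2 : ℝ) ^ s.k))⁻¹ * (Real.sqrt ((2 : ℝ) ^ t.k))⁻¹) *
      ∫ y in t.I, wt 10 (s.u y)) ∧
  (Disjoint s.lo t.lo → ∫ ξ, fr Φ s ξ * conj (fr Φ t ξ) = 0)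

/-- **ENERGY**: the energy lemma (items 1 and 4 of the blueprint), from the inner product
bounds -/
theorem energy_lemma {A B : ℝ} (hB : 0 < B) (hIP : IPb A B) : ∃ C : ℝ, 0 < C ∧
    ∀ (φ Φ g : ℝ → ℂ), WPk A φ Φ → Measurable g → Integrable g →
      Integrable (fun ξ => ‖g ξ‖ ^ 2) → ∀ (S : Finset Tile) (eps : ℝ), 0 < eps →
        SELE_.En (fun s => ‖co Φ g s‖) S eps →
        ∃ (n : ℕ) (K L : ℕ → ℤ) (X : ℕ → ℝ) (S' : Finset Tile), S' ⊆ S ∧
          ∑ i ∈ Finset.range n, (2 : ℝ) ^ (K i) ≤ C * n2 g ^ 2 / eps ^ 2 ∧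
          (∀ s ∈ S, s ∉ S' → ∃ i < n, s.I ⊆ dy (K i) (L i) ∧ X i ∈ s.om) ∧
          SELE_.En (fun s => ‖co Φ g s‖) S' (eps / 2) := by
  classical
  obtain ⟨C0, hC0, horta⟩ := orta B hB
  refine ⟨4 * C0, by positivity, ?_⟩
  intro φ Φ g hW hm hg hg2 S eps heps hEn
  obtain ⟨n, K, L, X, T, S', a0, a1, a2, a3, a4, a5, a6, -, a8⟩ :=
    SELE_.sele2 (fun s => ‖co Φ g s‖) S eps heps
  refine ⟨n, K, L, X, S', a0, ?_, a6, a8⟩
  set D : Finset Tile := (Finset.range n).biUnion T with hDdef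
  have hD : ∀ s, s ∈ D ↔ ∃ i < n, s ∈ T i := by
    intro s
    rw [hDdef, Finset.mem_biUnion]
    simp only [Finset.mem_range]
  have hDS : ∀ s ∈ D, s ∈ S := by
    intro s hs
    obtain ⟨i, hi, hsi⟩ := (hD s).1 hs
    exact a1 i hi hsi
  have hce : ∀ s ∈ D, ‖co Φ g s‖ ≤ eps * Real.sqrt ((2 : ℝ) ^ s.k) := by
    intro s hs
    have h1 := hEn {s} (Finset.singleton_subset_iff.2 (hDS s hs)) s.k s.l
      ((2 : ℝ) ^ (-s.k - 1) * ((2 * s.m + 1 : ℤ) : ℝ)) (by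
        intro t ht
        rw [Finset.mem_singleton] at ht
        subst ht
        exact ⟨subset_refl _, left_mem_dy _ _⟩)
    rw [Finset.sum_singleton] at h1
    have h2 : ‖co Φ g s‖ ^ 2 ≤ (eps * Real.sqrt ((2 : ℝ) ^ s.k)) ^ 2 := by
      rw [mul_pow, Real.sq_sqrt (two_zpow_pos _).le]
      exact h1
    exact (pow_le_pow_iff_left₀ (norm_nonneg _)
      (mul_nonneg heps.le (Real.sqrt_nonneg _)) two_ne_zero).1 h2
  have hsym : ∀ s t : Tile, ‖∫ ξ, fr Φ s ξ * conj (fr Φ t ξ)‖ =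
      ‖∫ ξ, fr Φ t ξ * conj (fr Φ s ξ)‖ := by
    intro s t
    rw [← RCLike.norm_conj (∫ ξ, fr Φ t ξ * conj (fr Φ s ξ)), ← integral_conj]
    congr 1
    refine integral_congr_ae (Filter.Eventually.of_forall fun ξ => ?_)
    simp only [map_mul, Complex.conj_conj]
    ring
  have h1 := horta (fun s => ‖co Φ g s‖) eps n K L X T D
    (fun s t => ‖∫ ξ, fr Φ s ξ * conj (fr Φ t ξ)‖) heps (fun s => norm_nonneg _) hce hD a2 a3 a4
    a5 (fun s t => norm_nonneg _) hsym (fun s t hk => (hIP φ Φ hW s t).1 hk)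
    (fun s t hd => by
      have := (hIP φ Φ hW s t).2 hd
      simp only [this, norm_zero])
  have h2 := ortb hW hm hg hg2 D
  set Y : ℝ := ∑ s ∈ D, ‖co Φ g s‖ ^ 2 with hY
  have hY0 : 0 ≤ Y := Finset.sum_nonneg fun s _ => by positivity
  have hF0 : 0 ≤ n2 g := Real.sqrt_nonneg _
  have h3 : Y ≤ n2 g * Real.sqrt (C0 * Y) :=
    h2.trans (mul_le_mul_of_nonneg_left (Real.sqrt_le_sqrt h1) hF0)
  have h4 : Y ≤ C0 * n2 g ^ 2 := by
    rcases hY0.eq_or_lt with h | h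
    · rw [← h]; positivity
    · have h5 : Y ^ 2 ≤ (n2 g * Real.sqrt (C0 * Y)) ^ 2 := pow_le_pow_left₀ hY0 h3 2
      rw [mul_pow, Real.sq_sqrt (by positivity)] at h5
      have h6 : Y * Y ≤ (C0 * n2 g ^ 2) * Y := by nlinarith
      exact le_of_mul_le_mul_right h6 h
  have hpd : Set.PairwiseDisjoint (↑(Finset.range n)) T := by
    intro i hi j hj hij
    exact a2 i (Finset.mem_range.1 hi) j (Finset.mem_range.1 hj) hij
  have h7 : eps ^ 2 / 4 * ∑ i ∈ Finset.range n, (2 : ℝ) ^ (K i) ≤ Y := by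
    rw [hY, hDdef, Finset.sum_biUnion hpd, Finset.mul_sum]
    exact Finset.sum_le_sum fun i hi => (a4 i (Finset.mem_range.1 hi)).le
  rw [le_div_iff₀ (by positivity)]
  nlinarith

end Pool.Agent.CAR
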