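import Pool.Agent.CAR.Defs

set_option autoImplicit false

/-!
# The partition `J` of the tree lemma (Blueprint item 7: P1, P2, P3)
-/

namespace Pool.Agent.CAR

namespace PJ_

open MeasureTheory Set

/-- the triple of a dyadic interval -/
def tri (k l : ℤ) : Set ℝ := Ico ((2 : ℝ) ^ k * (l - 1)) ((2 : ℝ) ^ k * (l + 2))

/-- the interval is close to a tile of `T` -/
def bad (T : Finset Tile) (k l : ℤ) : Prop := ∃ s ∈ T, s.I ⊆ tri k l

/-- the partition -/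
def JJ (T : Finset Tile) : Set (ℤ × ℤ) := {p | ¬ bad T p.1 p.2 ∧ bad T (p.1 + 1) (p.2 / 2)}

/-- the density -/
noncomputable def dn (E : Set ℝ) (N : ℝ → ℝ) (u : Tile) : ℝ :=
  (2 : ℝ) ^ (-u.k) * ∫ x in E ∩ N ⁻¹' u.om, wt 8 (u.u x)

theorem tri_mono (k l : ℤ) : tri k l ⊆ tri (k + 1) (l / 2) := by
  intro x hx
  have h := two_zpow_pos k
  rw [tri, mem_Ico] at hx ⊢
  rw [two_zpow_succ]
  rcases Int.even_or_odd' l with ⟨q, hq | hq⟩
  · have e : l / 2 = q := by omega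
    rw [e]
    subst hq
    push_cast at hx
    constructor <;> nlinarith [hx.1, hx.2]
  · have e : l / 2 = q := by omega
    rw [e]
    subst hq
    push_cast at hx
    constructor <;> nlinarith [hx.1, hx.2]

theorem bad_mono {T : Finset Tile} {k l : ℤ} (h : bad T k l) : bad T (k + 1) (l / 2) := by
  obtain ⟨s, hs, hs'⟩ := h
  exact ⟨s, hs, hs'.trans (tri_mono k l)⟩

/-- the position of `x` at scale `k` -/
noncomputable def fl (k : ℤ) (x : ℝ) : ℤ := ⌊(2 : ℝ) ^ (-k) * x⌋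

theorem mem_fl (k : ℤ) (x : ℝ) : x ∈ dy k (fl k x) := exists_mem_dy k x

theorem fl_eq {k l : ℤ} {x : ℝ} (h : x ∈ dy k l) : fl k x = l := mem_dy.1 h

theorem fl_succ (k : ℤ) (x : ℝ) : fl (k + 1) x = fl k x / 2 := by
  have h := dy_sub_anc (k := k) (k' := k + 1) (l := fl k x) (by omega) (mem_fl k x)
  have e : (k + 1 - k).toNat = 1 := by omega
  rw [e, pow_one] at h
  exact fl_eq h

theorem bad_up {T : Finset Tile} {x : ℝ} {k k' : ℤ} (hk : k ≤ k') (h : bad T k (fl k x)) :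
    bad T k' (fl k' x) := by
  obtain ⟨n, rfl⟩ : ∃ n : ℕ, k' = k + n := ⟨(k' - k).toNat, by omega⟩
  clear hk
  induction n with
  | zero => simpa using h
  | succ n ih =>
    have e : k + ((n + 1 : ℕ) : ℤ) = k + n + 1 := by push_cast; ring
    rw [e, fl_succ]
    exact bad_mono ih

theorem I_vol (s : Tile) : volume s.I = ENNReal.ofReal ((2 : ℝ) ^ s.k) := volume_dy _ _

theorem scale_of_tri {s : Tile} {k l : ℤ} (h : s.I ⊆ tri k l) : s.k ≤ k + 1 := by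
  by_contra hk
  push Not at hk
  have h1 := measure_mono (μ := volume) h
  rw [I_vol, tri, Real.volume_Ico] at h1
  have h2 : (2 : ℝ) ^ s.k ≤ (2 : ℝ) ^ k * (l + 2) - (2 : ℝ) ^ k * (l - 1) := by
    by_contra hc
    push Not at hc
    exact absurd h1 (not_le.2 (ENNReal.ofReal_lt_ofReal_iff (two_zpow_pos _) |>.2 hc))
  have h3 : (2 : ℝ) ^ (k + 2) ≤ (2 : ℝ) ^ s.k := two_zpow_le (by omega)
  have h4 : (2 : ℝ) ^ (k + 2) = 4 * (2 : ℝ) ^ k := by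
    rw [zpow_add₀ (by norm_num)]; ring
  have := two_zpow_pos k
  nlinarith

theorem exists_bad {T : Finset Tile} (hT : T.Nonempty) (x : ℝ) : ∃ k, bad T k (fl k x) := by
  obtain ⟨s, hs⟩ := hT
  set a : ℝ := (2 : ℝ) ^ s.k * s.l with ha
  obtain ⟨n, hn⟩ := pow_unbounded_of_one_lt (|x - a| + (2 : ℝ) ^ s.k) (one_lt_two : (1 : ℝ) < 2)
  refine ⟨n, s, hs, fun y hy => ?_⟩
  have h1 : a ≤ y := hy.1
  have h2 : y < a + (2 : ℝ) ^ s.k := by
    have := hy.2; rw [ha]; linarith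
  have h3 := mem_fl n x
  rw [dy, mem_Ico] at h3
  rw [tri, mem_Ico]
  have h4 : (2 : ℝ) ^ (n : ℤ) = 2 ^ n := zpow_natCast _ _
  rw [h4] at h3 ⊢
  have h5 := abs_le.1 (le_refl |x - a|)
  constructor
  · linarith [h3.2, h5.2, two_zpow_pos s.k]
  · linarith [h3.1, h5.1, two_zpow_pos s.k]

theorem exists_scale {T : Finset Tile} (hT : T.Nonempty) (x : ℝ) :
    ∃ k, ¬ bad T k (fl k x) ∧ bad T (k + 1) (fl (k + 1) x) := by
  obtain ⟨s, hs, hm⟩ := Finset.exists_min_image T (fun s => s.k) hT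
  obtain ⟨lb, h1, h2⟩ := Int.exists_least_of_bdd (P := fun k => bad T k (fl k x))
    ⟨s.k - 1, fun z hz => by
      obtain ⟨t, ht, ht'⟩ := hz
      have := scale_of_tri ht'
      have := hm t ht
      omega⟩ (exists_bad hT x)
  refine ⟨lb - 1, fun h => ?_, by rw [sub_add_cancel]; exact h1⟩
  have := h2 _ h
  omega

/-- **P1** -/
theorem P1 {T : Finset Tile} (hT : T.Nonempty) (x : ℝ) :
    ∃! p : ℤ × ℤ, p ∈ JJ T ∧ x ∈ dy p.1 p.2 := by
  obtain ⟨k, h1, h2⟩ := exists_scale hT x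
  refine ⟨(k, fl k x), ⟨⟨h1, ?_⟩, mem_fl k x⟩, ?_⟩
  · rw [← fl_succ]; exact h2
  · rintro ⟨k', l'⟩ ⟨⟨h3, h4⟩, h5⟩
    have e := fl_eq h5
    dsimp only at h3 h4 h5 e
    subst e
    rw [← fl_succ] at h4
    have hk : k' = k := by
      rcases lt_trichotomy k' k with h | h | h
      · exact absurd (bad_up (by omega) h4) h1
      · exact h
      · exact absurd (bad_up (by omega) h2) h3
    rw [hk]

/-- two different intervals of `J` are disjoint -/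
theorem J_disj {T : Finset Tile} (hT : T.Nonempty) {p q : ℤ × ℤ} (hp : p ∈ JJ T)
    (hq : q ∈ JJ T) (hpq : p ≠ q) : Disjoint (dy p.1 p.2) (dy q.1 q.2) := by
  rw [Set.disjoint_left]
  intro x h1 h2
  obtain ⟨r, _, hr⟩ := P1 hT x
  exact hpq ((hr p ⟨hp, h1⟩).trans (hr q ⟨hq, h2⟩).symm)

theorem J_cover {T : Finset Tile} (hT : T.Nonempty) : (⋃ p ∈ JJ T, dy p.1 p.2) = univ := by
  rw [eq_univ_iff_forall]
  intro x
  obtain ⟨p, ⟨h1, h2⟩, _⟩ := P1 hT x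
  exact mem_biUnion h1 h2

theorem sub_parent (k l : ℤ) : dy k l ⊆ dy (k + 1) (l / 2) := by
  have h := dy_sub_anc (k := k) (k' := k + 1) (l := l) (by omega)
  have e : (k + 1 - k).toNat = 1 := by omega
  rwa [e, pow_one] at h

theorem tri_dist {k l : ℤ} {x y : ℝ} (hx : x ∈ dy k l) (hy : y ∈ tri k l) :
    |x - y| ≤ 2 * (2 : ℝ) ^ k := by
  rw [dy, mem_Ico] at hx
  rw [tri, mem_Ico] at hy
  rw [abs_le]
  constructor <;> nlinarith [hx.1, hx.2, hy.1, hy.2]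

/-- **P3**: the intervals of `J` are not far from the top -/
theorem P3 {T : Finset Tile} {K L : ℤ} (hI : ∀ s ∈ T, s.I ⊆ dy K L) {p : ℤ × ℤ}
    (hp : p ∈ JJ T) {x : ℝ} (hx : x ∈ dy p.1 p.2) :
    ∃ y ∈ dy K L, |x - y| ≤ (2 : ℝ) ^ (p.1 + 2) := by
  obtain ⟨s, hs, hs'⟩ := hp.2
  obtain ⟨y, hy⟩ : s.I.Nonempty := dy_nonempty _ _
  refine ⟨y, hI s hs hy, ?_⟩
  have h := tri_dist (sub_parent _ _ hx) (hs' hy)
  have e : (2 : ℝ) ^ (p.1 + 2) = 2 * (2 : ℝ) ^ (p.1 + 1) := by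
    rw [← two_zpow_succ]; congr 1; ring
  rw [e]; exact h

theorem J_sub {T : Finset Tile} {K L : ℤ} (hI : ∀ s ∈ T, s.I ⊆ dy K L) {p : ℤ × ℤ}
    (hp : p ∈ JJ T) (hk : p.1 ≤ K) :
    dy p.1 p.2 ⊆ Ico ((2 : ℝ) ^ K * (L - 4)) ((2 : ℝ) ^ K * (L + 5)) := by
  intro x hx
  obtain ⟨y, hy, hxy⟩ := P3 hI hp hx
  have h1 : (2 : ℝ) ^ (p.1 + 2) ≤ (2 : ℝ) ^ (K + 2) := two_zpow_le (by omega)
  have h2 : (2 : ℝ) ^ (K + 2) = 4 * (2 : ℝ) ^ K := by
    rw [zpow_add₀ (by norm_num)]; ring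
  rw [dy, mem_Ico] at hy
  have h3 := abs_le.1 (hxy.trans h1)
  rw [h2] at h3
  rw [mem_Ico]
  constructor <;> nlinarith [h3.1, h3.2, hy.1, hy.2]

/-- the sum of the lengths of the intervals of `J` of scale `≤ K` -/
theorem J_sum {T : Finset Tile} (hT : T.Nonempty) {K L : ℤ} (hI : ∀ s ∈ T, s.I ⊆ dy K L)
    (F : Finset (ℤ × ℤ)) (hF : ∀ p ∈ F, p ∈ JJ T ∧ p.1 ≤ K) :
    ∑ p ∈ F, (2 : ℝ) ^ p.1 ≤ 9 * (2 : ℝ) ^ K := by
  have h1 : volume (⋃ p ∈ F, dy p.1 p.2) = ∑ p ∈ F, volume (dy p.1 p.2) := by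
    apply measure_biUnion_finset
    · intro p hp q hq hpq
      exact J_disj hT (hF p hp).1 (hF q hq).1 hpq
    · intro p _
      exact measurableSet_dy _ _
  have h2 : volume (⋃ p ∈ F, dy p.1 p.2) ≤
      volume (Ico ((2 : ℝ) ^ K * (L - 4)) ((2 : ℝ) ^ K * (L + 5))) :=
    measure_mono (iUnion₂_subset fun p hp => J_sub hI (hF p hp).1 (hF p hp).2)
  rw [h1] at h2
  have h3 : ∑ p ∈ F, volume (dy p.1 p.2) = ENNReal.ofReal (∑ p ∈ F, (2 : ℝ) ^ p.1) := by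
    rw [ENNReal.ofReal_sum_of_nonneg fun p _ => (two_zpow_pos _).le]
    exact Finset.sum_congr rfl fun p _ => volume_dy _ _
  rw [h3, Real.volume_Ico, ENNReal.ofReal_le_ofReal_iff] at h2
  · refine h2.trans (le_of_eq ?_); ring
  · have := two_zpow_pos K
    nlinarith

theorem wt_pos (n : ℕ) (t : ℝ) : 0 < wt n t := by
  unfold wt; positivity

theorem wt_cont (n : ℕ) : Continuous (wt n) := by
  unfold wt
  exact Continuous.inv₀ (by fun_prop) fun x => by positivity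

theorem wt_le_one (n : ℕ) (t : ℝ) : wt n t ≤ 1 := by
  unfold wt
  apply inv_le_one_of_one_le₀
  exact one_le_pow₀ (by linarith [abs_nonneg t])

theorem wt_ge {n : ℕ} {t a : ℝ} (h : |t| ≤ a) : ((1 + a) ^ n)⁻¹ ≤ wt n t := by
  unfold wt
  have := abs_nonneg t
  apply inv_anti₀ (by positivity)
  gcongr

theorem u_cont (s : Tile) : Continuous s.u := by
  unfold Tile.u; fun_prop

/-- **P2** -/
theorem P2 {T : Finset Tile} {ξ : ℝ} (hξ : ∀ s ∈ T, ξ ∈ s.om) {E : Set ℝ} (mE : MeasurableSet E)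
    (fE : volume E ≠ ⊤) {N : ℝ → ℝ} (mN : Measurable N) {μ : ℝ}
    (hμ : ∀ s ∈ T, ∀ u : Tile, TLE s u → dn E N u ≤ μ) {p : ℤ × ℤ} (hp : p ∈ JJ T) :
    vol {x | x ∈ E ∧ x ∈ dy p.1 p.2 ∧ ∃ s ∈ T, p.1 + 2 ≤ s.k ∧ N x ∈ s.om} ≤
      4 * 3 ^ 8 * μ * (2 : ℝ) ^ p.1 := by
  obtain ⟨s0, hs0, hs0'⟩ := hp.2
  have hk0 : s0.k ≤ p.1 + 2 := by
    have := scale_of_tri hs0'; omega
  -- the tile `u`
  set u : Tile := ⟨p.1 + 2, s0.l / 2 ^ (p.1 + 2 - s0.k).toNat,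
    ⌊(2 : ℝ) ^ (-(-(p.1 + 2))) * ξ⌋⟩ with hu
  have hξu : ξ ∈ u.om := exists_mem_dy (-(p.1 + 2)) ξ
  have hIu : s0.I ⊆ u.I := dy_sub_anc hk0
  have hT : TLE s0 u := ⟨hIu, om_sub hk0 (hξ s0 hs0) hξu⟩
  have hdu := hμ s0 hs0 u hT
  -- the set
  set G : Set ℝ := {x | x ∈ E ∧ x ∈ dy p.1 p.2 ∧ ∃ s ∈ T, p.1 + 2 ≤ s.k ∧ N x ∈ s.om} with hG
  have hGm : MeasurableSet G := by
    have e : G = E ∩ (dy p.1 p.2 ∩ ⋃ s ∈ T.filter (fun s => p.1 + 2 ≤ s.k), N ⁻¹' s.om) := by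
      ext x
      simp only [hG, mem_ofPred_eq, mem_inter_iff, mem_iUnion, Finset.mem_filter, mem_preimage,
        exists_prop]
      tauto
    rw [e]
    refine mE.inter ((measurableSet_dy _ _).inter ?_)
    exact Finset.measurableSet_biUnion _ fun s _ => mN (measurableSet_dy _ _)
  have hsub : G ⊆ E ∩ N ⁻¹' u.om := by
    rintro x ⟨h1, _, s, hs, hs', hs''⟩
    exact ⟨h1, om_sub (s := u) (t := s) hs' hξu (hξ s hs) hs''⟩
  have hw : ∀ x ∈ G, ((3 : ℝ) ^ 8)⁻¹ ≤ wt 8 (u.u x) := by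
    rintro x ⟨_, hx, _⟩
    have e : (3 : ℝ) = 1 + 2 := by norm_num
    rw [e]
    apply wt_ge
    obtain ⟨y, hy⟩ : s0.I.Nonempty := dy_nonempty _ _
    have h := tri_dist (sub_parent _ _ hx) (hs0' hy)
    have h2 := mem_I.1 (hIu hy)
    have e2 : u.u x - u.u y = (2 : ℝ) ^ (-(p.1 + 2)) * (x - y) := by
      simp only [Tile.u, hu]; ring
    have e3 : |u.u x - u.u y| ≤ 1 := by
      rw [e2, abs_mul, abs_of_pos (two_zpow_pos _)]
      have e4 : 2 * (2 : ℝ) ^ (p.1 + 1) = (2 : ℝ) ^ (p.1 + 2) := by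
        rw [← two_zpow_succ]; congr 1; ring
      rw [e4] at h
      refine (mul_le_mul_of_nonneg_left h (two_zpow_pos _).le).trans (le_of_eq ?_)
      exact two_zpow_neg_mul _
    rw [abs_le] at e3 ⊢
    constructor <;> linarith [e3.1, e3.2, h2.1, h2.2]
  have hfin : volume (E ∩ N ⁻¹' u.om) ≠ ⊤ := measure_ne_top_of_subset inter_subset_left fE
  have hint : IntegrableOn (fun x => wt 8 (u.u x)) (E ∩ N ⁻¹' u.om) := by
    refine Measure.integrableOn_of_bounded hfin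
      ((wt_cont 8).comp (u_cont u)).aestronglyMeasurable (M := 1) (ae_of_all _ fun x => ?_)
    rw [Real.norm_of_nonneg (wt_pos _ _).le]
    exact wt_le_one _ _
  have h1 : ((3 : ℝ) ^ 8)⁻¹ * vol G ≤ ∫ x in G, wt 8 (u.u x) := by
    have h3 : ∫ _ in G, ((3 : ℝ) ^ 8)⁻¹ = ((3 : ℝ) ^ 8)⁻¹ * vol G := by
      rw [setIntegral_const, smul_eq_mul, mul_comm]
      rfl
    rw [← h3]
    refine setIntegral_mono_on ?_ (hint.mono_set hsub) hGm hw
    refine integrableOn_const (measure_ne_top_of_subset (hsub.trans inter_subset_left) fE)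
  have h2 : ∫ x in G, wt 8 (u.u x) ≤ ∫ x in E ∩ N ⁻¹' u.om, wt 8 (u.u x) :=
    setIntegral_mono_set hint (ae_of_all _ fun x => (wt_pos _ _).le) hsub.eventuallyLE
  have h4 : ∫ x in E ∩ N ⁻¹' u.om, wt 8 (u.u x) = (2 : ℝ) ^ (p.1 + 2) * dn E N u := by
    rw [dn, ← mul_assoc]
    have : (2 : ℝ) ^ (p.1 + 2) * (2 : ℝ) ^ (-u.k) = 1 := two_zpow_mul_neg (p.1 + 2)
    rw [this, one_mul]
  have h5 : (2 : ℝ) ^ (p.1 + 2) = 4 * (2 : ℝ) ^ p.1 := by
    rw [zpow_add₀ (by norm_num)]; ring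
  have h6 : ((3 : ℝ) ^ 8)⁻¹ * vol G ≤ 4 * (2 : ℝ) ^ p.1 * μ := by
    refine (h1.trans h2).trans ?_
    rw [h4, h5]
    have := two_zpow_pos p.1
    exact mul_le_mul_of_nonneg_left hdu (by positivity)
  rw [inv_mul_le_iff₀ (by positivity)] at h6
  refine h6.trans (le_of_eq ?_)
  ring

end PJ_

end Pool.Agent.CAR
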