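import Pool.Agent.CAR.CHI

set_option autoImplicit false

/-!
# CAR: basic facts on the wave packets `fx φ s` and their Fourier transforms `fr Φ s`
-/

namespace Pool.Agent.CAR

open MeasureTheory Set ComplexConjugate Filter Topology
open scoped ENNReal NNReal

namespace PK

/-! ### `e1` -/

theorem norm_e1 (x : ℝ) : ‖e1 x‖ = 1 := by
  unfold e1
  rw [show 2 * (Real.pi : ℂ) * Complex.I * (x : ℂ) = ((2 * Real.pi * x : ℝ) : ℂ) * Complex.I by
    push_cast; ring]
  exact Complex.norm_exp_ofReal_mul_I _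

theorem continuous_e1 : Continuous e1 := by
  unfold e1
  fun_prop

theorem e1_add (x y : ℝ) : e1 (x + y) = e1 x * e1 y := by
  unfold e1
  rw [← Complex.exp_add]
  congr 1
  push_cast
  ring

theorem e1_zero : e1 0 = 1 := by
  unfold e1
  simp

theorem conj_e1 (x : ℝ) : conj (e1 x) = e1 (-x) := by
  unfold e1
  rw [← Complex.exp_conj]
  congr 1
  simp only [map_mul, Complex.conj_I, Complex.conj_ofReal, map_ofNat]
  push_cast
  ring

/-! ### the weight -/

theorem continuous_wt (n : ℕ) : Continuous (wt n) := by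
  unfold wt
  refine Continuous.inv₀ (by fun_prop) fun t => ?_
  have := abs_nonneg t
  positivity

theorem integrable_wt {n : ℕ} (hn : 2 ≤ n) : Integrable (wt n) := by
  have h := integrable_one_add_norm (E := ℝ) (μ := volume) (r := n)
    (by rw [Module.finrank_self]; exact_mod_cast hn)
  refine h.congr (Eventually.of_forall fun t => ?_)
  simp only [wt, Real.norm_eq_abs]
  rw [Real.rpow_neg (by have := abs_nonneg t; positivity), Real.rpow_natCast]

/-- `∑_l wt 2 (y - l)` over a finite set of integers is bounded -/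
theorem sum_wt : ∃ C : ℝ, 0 < C ∧ ∀ (L : Finset ℤ) (y : ℝ), ∑ l ∈ L, wt 2 (y - l) ≤ C := by
  refine ⟨4 * ∫ t, wt 2 t, ?_, fun L y => ?_⟩
  · have h1 : 0 < ∫ t, wt 2 t := by
      rw [integral_pos_iff_support_of_nonneg (fun t => (HL.wt_pos 2 t).le) (integrable_wt le_rfl)]
      have : Function.support (wt 2) = univ := by
        ext t
        simp [(HL.wt_pos 2 t).ne']
      rw [this]
      simp
    linarith
  · have hI : Integrable (fun t => wt 2 (y - t)) := (integrable_wt le_rfl).comp_sub_left y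
    have h2 : ∀ l ∈ L, wt 2 (y - l) ≤ 4 * ∫ t in Ico (l : ℝ) (l + 1), wt 2 (y - t) := by
      intro l _
      have h3 : ∫ t in Ico (l : ℝ) (l + 1), wt 2 (y - l) / 4 ≤
          ∫ t in Ico (l : ℝ) (l + 1), wt 2 (y - t) := by
        refine setIntegral_mono_on (by simp) hI.integrableOn measurableSet_Ico fun t ht => ?_
        unfold wt
        have h4 : 1 + |y - t| ≤ 2 * (1 + |y - l|) := by
          have h5 : |y - t| ≤ |y - l| + |(l : ℝ) - t| := by
            have := abs_add_le (y - l) ((l : ℝ) - t)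
            rwa [show y - l + ((l : ℝ) - t) = y - t by ring] at this
          have h6 : |(l : ℝ) - t| ≤ 1 := by
            rw [abs_le]
            constructor <;> linarith [ht.1, ht.2]
          have := abs_nonneg (y - l)
          linarith
        have h7 : (0 : ℝ) < 1 + |y - l| := by have := abs_nonneg (y - l); linarith
        have h8 : (0 : ℝ) < 1 + |y - t| := by have := abs_nonneg (y - t); linarith
        rw [div_eq_mul_inv, ← mul_inv]
        refine inv_anti₀ (by positivity) ?_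
        calc (1 + |y - t|) ^ 2 ≤ (2 * (1 + |y - l|)) ^ 2 := by gcongr
          _ = (1 + |y - l|) ^ 2 * 4 := by ring
      rw [setIntegral_const] at h3
      simp only [measureReal_def, Real.volume_Ico, add_sub_cancel_left, ENNReal.ofReal_one,
        ENNReal.toReal_one, one_smul] at h3
      linarith
    calc ∑ l ∈ L, wt 2 (y - l) ≤ ∑ l ∈ L, 4 * ∫ t in Ico (l : ℝ) (l + 1), wt 2 (y - t) :=
          Finset.sum_le_sum h2
      _ = 4 * ∑ l ∈ L, ∫ t in Ico (l : ℝ) (l + 1), wt 2 (y - t) := by rw [Finset.mul_sum]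
      _ = 4 * ∫ t in ⋃ l ∈ L, Ico (l : ℝ) (l + 1), wt 2 (y - t) := by
          rw [integral_biUnion_finset L (fun l _ => measurableSet_Ico) ?_
            (fun l _ => hI.integrableOn)]
          intro l _ l' _ hll
          rw [Function.onFun, Set.disjoint_left]
          intro t h1 h2
          have e1 : ⌊t⌋ = l := Int.floor_eq_iff.2 ⟨h1.1, h1.2⟩
          have e2 : ⌊t⌋ = l' := Int.floor_eq_iff.2 ⟨h2.1, h2.2⟩
          exact hll (e1.symm.trans e2)
      _ ≤ 4 * ∫ t, wt 2 (y - t) :=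
          mul_le_mul_of_nonneg_left (setIntegral_le_integral hI
            (Eventually.of_forall fun t => (HL.wt_pos 2 _).le)) (by norm_num)
      _ = 4 * ∫ t, wt 2 t := by rw [integral_sub_left_eq_self]

/-! ### wave packets -/

variable {A : ℝ} {φ Φ : ℝ → ℂ}

theorem sq_pos (k : ℤ) : (0 : ℝ) < √((2 : ℝ) ^ k) := Real.sqrt_pos.2 (two_zpow_pos k)

theorem sq_sq (k : ℤ) : √((2 : ℝ) ^ k) * √((2 : ℝ) ^ k) = (2 : ℝ) ^ k :=
  Real.mul_self_sqrt (two_zpow_pos k).le

theorem continuous_fx (h : WPk A φ Φ) (s : Tile) : Continuous (fx φ s) := by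
  unfold fx Tile.u
  have := h.cφ
  have := continuous_e1
  fun_prop

theorem continuous_fr (h : WPk A φ Φ) (s : Tile) : Continuous (fr Φ s) := by
  unfold fr
  have := h.cΦ
  have := continuous_e1
  fun_prop

theorem norm_fx (h : WPk A φ Φ) (s : Tile) (x : ℝ) :
    ‖fx φ s x‖ ≤ (√((2 : ℝ) ^ s.k))⁻¹ * (A * wt 20 (s.u x)) := by
  unfold fx
  rw [norm_mul, norm_mul, norm_e1, mul_one, Complex.norm_real, Real.norm_eq_abs,
    abs_of_pos (inv_pos.2 (sq_pos _))]
  exact mul_le_mul_of_nonneg_left (h.dec _) (inv_pos.2 (sq_pos _)).le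

theorem norm_fr (s : Tile) (η : ℝ) :
    ‖fr Φ s η‖ = √((2 : ℝ) ^ s.k) * ‖Φ ((2 : ℝ) ^ s.k * η - s.m)‖ := by
  unfold fr
  rw [norm_mul, norm_mul, norm_e1, mul_one, Complex.norm_real, Real.norm_eq_abs,
    abs_of_pos (sq_pos _)]

theorem integrable_phi (h : WPk A φ Φ) : Integrable φ := by
  refine ((integrable_wt (n := 20) (by norm_num)).const_mul A).mono' h.cφ.aestronglyMeasurable ?_
  exact Eventually.of_forall h.dec

theorem integrable_Phi (h : WPk A φ Φ) : Integrable Φ := by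
  refine h.cΦ.integrable_of_hasCompactSupport ?_
  refine HasCompactSupport.intro (isCompact_Icc (a := (1 / 8 : ℝ)) (b := 3 / 8)) fun x hx => ?_
  by_contra h0
  exact hx (h.supp x h0)

/-- substitution `v = 2^k x - c` -/
theorem integrable_aff {F : ℝ → ℂ} (hF : Integrable F) (k : ℤ) (c : ℝ) :
    Integrable (fun x => F ((2 : ℝ) ^ k * x - c)) := by
  have h1 := (hF.comp_sub_right c).comp_mul_left' (two_zpow_pos k).ne'
  exact h1

theorem integral_aff (F : ℝ → ℂ) (k : ℤ) (c : ℝ) :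
    ∫ x, F ((2 : ℝ) ^ k * x - c) = ((2 : ℝ) ^ (-k) : ℝ) • ∫ v, F v := by
  have h1 := Measure.integral_comp_mul_left (fun x => F (x - c)) ((2 : ℝ) ^ k)
  rw [h1, integral_sub_right_eq_self, abs_of_pos (inv_pos.2 (two_zpow_pos k)), zpow_neg]

theorem integrable_fx (h : WPk A φ Φ) (s : Tile) : Integrable (fx φ s) := by
  have h1 : Integrable (fun x => φ (s.u x)) := integrable_aff (integrable_phi h) (-s.k) s.l
  have h2 := (h1.const_mul (((√((2 : ℝ) ^ s.k))⁻¹ : ℝ) : ℂ))
  refine h2.mono (continuous_fx h s).aestronglyMeasurable (Eventually.of_forall fun x => ?_)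
  unfold fx
  rw [norm_mul _ (e1 _), norm_e1, mul_one]

theorem integrable_fr (h : WPk A φ Φ) (s : Tile) : Integrable (fr Φ s) := by
  have h1 : Integrable (fun x => Φ ((2 : ℝ) ^ s.k * x - s.m)) :=
    integrable_aff (integrable_Phi h) s.k s.m
  have h2 := (h1.const_mul ((√((2 : ℝ) ^ s.k) : ℝ) : ℂ))
  refine h2.mono (continuous_fr h s).aestronglyMeasurable (Eventually.of_forall fun x => ?_)
  unfold fr
  rw [norm_mul _ (e1 _), norm_e1, mul_one]

/-- Fourier inversion for the packet of a tile -/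
theorem fx_inv (h : WPk A φ Φ) (s : Tile) (y : ℝ) :
    fx φ s y = ∫ η, fr Φ s η * e1 (y * η) := by
  let F : ℝ → ℂ := fun v => ((√((2 : ℝ) ^ s.k) : ℝ) : ℂ) * e1 ((2 : ℝ) ^ (-s.k) * s.m * y) *
        (Φ v * e1 (s.u y * v))
  have h1 : (fun η => fr Φ s η * e1 (y * η)) = fun η => F ((2 : ℝ) ^ s.k * η - s.m) := by
    funext η
    simp only [fr, F]
    rw [show y * η = (2 : ℝ) ^ (-s.k) * s.m * y + (2 : ℝ) ^ (-s.k) * y *
      ((2 : ℝ) ^ s.k * η - s.m) by
        have := two_zpow_neg_mul s.k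
        linear_combination (-(y * η)) * this]
    rw [Tile.u, sub_mul, e1_add, show (2 : ℝ) ^ (-s.k) * y * ((2 : ℝ) ^ s.k * η - s.m) -
      (s.l : ℝ) * ((2 : ℝ) ^ s.k * η - s.m) = (2 : ℝ) ^ (-s.k) * y * ((2 : ℝ) ^ s.k * η - s.m) +
      -((s.l : ℝ) * ((2 : ℝ) ^ s.k * η - s.m)) by ring, e1_add]
    ring
  rw [h1, integral_aff F, show ∫ v, F v = _ from integral_const_mul _ _, fx, h.inv (s.u y)]
  have e2 : (√((2 : ℝ) ^ s.k))⁻¹ = (2 : ℝ) ^ (-s.k) * √((2 : ℝ) ^ s.k) := by
    have h3 := sq_sq s.k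
    have h4 := sq_pos s.k
    have h5 := two_zpow_neg_mul s.k
    refine inv_eq_of_mul_eq_one_right ?_
    calc √((2 : ℝ) ^ s.k) * ((2 : ℝ) ^ (-s.k) * √((2 : ℝ) ^ s.k))
        = (2 : ℝ) ^ (-s.k) * (√((2 : ℝ) ^ s.k) * √((2 : ℝ) ^ s.k)) := by ring
      _ = 1 := by rw [h3, h5]
  rw [e2, Complex.real_smul]
  push_cast
  simp only [mul_comm (Φ _)]
  ring

/-- the Fourier transform of the packet of a tile -/
theorem fr_ft (h : WPk A φ Φ) (s : Tile) (η : ℝ) :
    fr Φ s η = ∫ x, fx φ s x * e1 (-(x * η)) := by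
  let F : ℝ → ℂ := fun v =>
      (((√((2 : ℝ) ^ s.k))⁻¹ : ℝ) : ℂ) * e1 (-((s.l : ℝ) * ((2 : ℝ) ^ s.k * η - s.m))) *
        (φ v * e1 (-(v * ((2 : ℝ) ^ s.k * η - s.m))))
  have h1 : (fun x => fx φ s x * e1 (-(x * η))) =
      fun x => F ((2 : ℝ) ^ (-s.k) * x - s.l) := by
    funext x
    simp only [fx, Tile.u, F]
    rw [show -(x * η) = -((2 : ℝ) ^ (-s.k) * s.m * x) +
      (-((s.l : ℝ) * ((2 : ℝ) ^ s.k * η - s.m)) +
      -(((2 : ℝ) ^ (-s.k) * x - s.l) * ((2 : ℝ) ^ s.k * η - s.m))) by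
        have := two_zpow_neg_mul s.k
        linear_combination (x * η) * this]
    rw [e1_add, e1_add]
    have h2 : e1 ((2 : ℝ) ^ (-s.k) * s.m * x) * e1 (-((2 : ℝ) ^ (-s.k) * s.m * x)) = 1 := by
      rw [← e1_add, add_neg_cancel, e1_zero]
    linear_combination ((((√((2 : ℝ) ^ s.k))⁻¹ : ℝ) : ℂ) *
      φ ((2 : ℝ) ^ (-s.k) * x - s.l) * (e1 (-((s.l : ℝ) * ((2 : ℝ) ^ s.k * η - s.m))) *
      e1 (-(((2 : ℝ) ^ (-s.k) * x - s.l) * ((2 : ℝ) ^ s.k * η - s.m))))) * h2
  rw [h1, integral_aff F, show ∫ v, F v = _ from integral_const_mul _ _, fr, h.ft]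
  have e2 : √((2 : ℝ) ^ s.k) = (2 : ℝ) ^ (- -s.k) * (√((2 : ℝ) ^ s.k))⁻¹ := by
    have h3 := sq_sq s.k
    have h4 := sq_pos s.k
    rw [neg_neg, eq_mul_inv_iff_mul_eq₀ h4.ne', h3]
  conv_lhs => rw [e2]
  rw [Complex.real_smul]
  push_cast
  ring

/-- Plancherel for two packets -/
theorem fx_fr_inner (h : WPk A φ Φ) (s s' : Tile) :
    ∫ x, fx φ s x * conj (fx φ s' x) = ∫ η, fr Φ s η * conj (fr Φ s' η) := by
  have hF : Integrable (fun z : ℝ × ℝ => fr Φ s z.2 * e1 (z.1 * z.2) * conj (fx φ s' z.1))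
      (volume.prod volume) := by
    have h1 : Integrable (fun z : ℝ × ℝ => conj (fx φ s' z.1) * fr Φ s z.2)
        (volume.prod volume) := by
      refine Integrable.mul_prod (f := fun x => conj (fx φ s' x)) ?_ (integrable_fr h s)
      exact (integrable_fx h s').mono
        (Complex.continuous_conj.comp (continuous_fx h s')).aestronglyMeasurable
        (Eventually.of_forall fun x => by simp)
    refine h1.mono ?_ (Eventually.of_forall fun z => ?_)
    · have a1 := continuous_fx h s'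
      have a2 := continuous_fr h s
      have a3 := continuous_e1
      have a4 := Complex.continuous_conj
      exact Continuous.aestronglyMeasurable (by fun_prop)
    · simp only [norm_mul, norm_e1, mul_one, RCLike.norm_conj]
      rw [mul_comm]
  calc ∫ x, fx φ s x * conj (fx φ s' x)
      = ∫ x, ∫ η, fr Φ s η * e1 (x * η) * conj (fx φ s' x) := by
        congr 1
        funext x
        rw [integral_mul_const, ← fx_inv h s x]
    _ = ∫ η, ∫ x, fr Φ s η * e1 (x * η) * conj (fx φ s' x) := integral_integral_swap hF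
    _ = ∫ η, fr Φ s η * conj (fr Φ s' η) := by
        congr 1
        funext η
        rw [fr_ft h s' η, ← integral_conj, ← integral_const_mul]
        congr 1
        funext x
        rw [map_mul, conj_e1, neg_neg]
        ring

/-- frequencies of a packet against a point of the upper half -/
theorem freq (h : WPk A φ Φ) {s : Tile} {ξ η : ℝ} (hξ : ξ ∈ s.up) (hη : fr Φ s η ≠ 0) :
    -(7 / 8) ≤ (2 : ℝ) ^ s.k * (η - ξ) ∧ (2 : ℝ) ^ s.k * (η - ξ) ≤ -(1 / 8) := by
  have h1 : Φ ((2 : ℝ) ^ s.k * η - s.m) ≠ 0 := by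
    intro h0
    apply hη
    rw [fr, h0]
    simp
  have h2 := h.supp _ h1
  rw [Tile.up, mem_dy_iff] at hξ
  have e3 : (2 : ℝ) ^ (-(-s.k - 1)) = 2 * (2 : ℝ) ^ s.k := by
    rw [show -(-s.k - 1) = s.k + 1 by ring, two_zpow_succ]
  rw [e3] at hξ
  push_cast at hξ
  constructor <;> nlinarith [h2.1, h2.2, hξ.1, hξ.2]

end PK

end Pool.Agent.CAR
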