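import Pool.Agent.CAR.ITargets

set_option autoImplicit false

/-!
# AVB: from the finite averages to the truncated operator (dilation parameter 1)
-/

namespace Pool.Agent.CAR

open MeasureTheory Set ComplexConjugate Filter Topology Function
open scoped ENNReal NNReal

namespace AVB_

theorem norm_e1 (x : ℝ) : ‖e1 x‖ = 1 := by
  unfold e1
  rw [Complex.norm_exp]
  simp

theorem cont_e1 : Continuous e1 := by
  unfold e1
  fun_prop

theorem wt_le (n : ℕ) (t : ℝ) : wt n t ≤ 1 := by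
  unfold wt
  apply inv_le_one_of_one_le₀
  exact one_le_pow₀ (by linarith [abs_nonneg t])

theorem pk_eq (ρ : ℝ → ℝ) (v x : ℝ) : pk ρ v x = pk ρ 0 (x - v) := by
  unfold pk; simp

section

variable {A : ℝ} {ρ : ℝ → ℝ} (hB : Bmp A ρ)
include hB

theorem A_pos : 0 < A := (hB.wp 0 ⟨le_refl _, zero_le_one⟩).pos

theorem pk_bd (v x : ℝ) : ‖pk ρ v x‖ ≤ A := by
  have h0 := hB.wp 0 ⟨le_refl _, zero_le_one⟩
  rw [pk_eq]
  refine (h0.dec _).trans ?_
  have := mul_le_mul_of_nonneg_left (wt_le 20 (x - v)) h0.pos.le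
  rwa [mul_one] at this

theorem pkf_bd (v ξ : ℝ) : ‖pkf ρ v ξ‖ ≤ A := by
  have h0 := (hB.wp 0 ⟨le_refl _, zero_le_one⟩).bd ξ
  unfold pkf at h0 ⊢
  rw [norm_mul, norm_e1, mul_one] at h0 ⊢
  exact h0

theorem fr_bd (v : ℝ) (s : Tile) (ξ : ℝ) :
    ‖fr (pkf ρ v) s ξ‖ ≤ Real.sqrt ((2 : ℝ) ^ s.k) * A := by
  unfold fr
  rw [norm_mul, norm_mul, norm_e1, mul_one, Complex.norm_real, Real.norm_eq_abs,
    abs_of_nonneg (Real.sqrt_nonneg _)]
  exact mul_le_mul_of_nonneg_left (pkf_bd hB _ _) (Real.sqrt_nonneg _)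

theorem fx_bd (v : ℝ) (s : Tile) (x : ℝ) :
    ‖fx (pk ρ v) s x‖ ≤ (Real.sqrt ((2 : ℝ) ^ s.k))⁻¹ * A := by
  unfold fx
  rw [norm_mul, norm_mul, norm_e1, mul_one, Complex.norm_real, Real.norm_eq_abs,
    abs_of_nonneg (inv_nonneg.2 (Real.sqrt_nonneg _))]
  exact mul_le_mul_of_nonneg_left (pk_bd hB _ _) (inv_nonneg.2 (Real.sqrt_nonneg _))

theorem co_bd (v : ℝ) (s : Tile) {g : ℝ → ℂ} (hg : Integrable g) :
    ‖co (pkf ρ v) g s‖ ≤ Real.sqrt ((2 : ℝ) ^ s.k) * A * ∫ ξ, ‖g ξ‖ := by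
  unfold co
  rw [← integral_const_mul]
  refine norm_integral_le_of_norm_le (hg.norm.const_mul _) (Eventually.of_forall fun ξ => ?_)
  rw [norm_mul, RCLike.norm_conj, mul_comm]
  exact mul_le_mul_of_nonneg_right (fr_bd hB _ _ _) (norm_nonneg _)

theorem co_bd' (v c : ℝ) (s : Tile) {g : ℝ → ℂ} (hg : Integrable g) :
    ‖co (pkf ρ v) (fun ξ => g (ξ + c)) s‖ ≤ Real.sqrt ((2 : ℝ) ^ s.k) * A * ∫ ξ, ‖g ξ‖ := by
  refine (co_bd hB v s (hg.comp_add_right c)).trans (le_of_eq ?_)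
  rw [integral_add_right_eq_self (fun ξ => ‖g ξ‖) c]

theorem meas_pk : Measurable (fun p : ℝ × ℝ => pk ρ p.1 p.2) := by
  have h0 := (hB.wp 0 ⟨le_refl _, zero_le_one⟩).cφ
  have h : (fun p : ℝ × ℝ => pk ρ p.1 p.2) = fun p => pk ρ 0 (p.2 - p.1) := by
    funext p; exact pk_eq _ _ _
  rw [h]
  exact (h0.comp (continuous_snd.sub continuous_fst)).measurable

theorem meas_fx (s : Tile) : Measurable (fun p : ℝ × ℝ => fx (pk ρ p.1) s p.2) := by
  unfold fx
  have h1 := (meas_pk hB).comp (measurable_fst.prodMk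
    (((measurable_const.mul measurable_snd).sub measurable_const) :
      Measurable fun p : ℝ × ℝ => (2 : ℝ) ^ (-s.k) * p.2 - s.l))
  refine (measurable_const.mul h1).mul (cont_e1.measurable.comp ?_)
  exact measurable_const.mul measurable_snd

theorem meas_fr (s : Tile) : Measurable (fun p : ℝ × ℝ => fr (pkf ρ p.1) s p.2) := by
  unfold fr pkf
  have h0 := hB.cont
  have h1 := cont_e1
  apply Continuous.measurable
  fun_prop

theorem meas_co {g : ℝ → ℂ} (hg : Measurable g) (c : ℝ) (s : Tile) :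
    Measurable (fun p : ℝ × ℝ => co (pkf ρ p.2) (fun ξ => g (ξ + c * p.1)) s) := by
  unfold co
  have hp : Measurable (fun q : (ℝ × ℝ) × ℝ => (q.1.2, q.2)) :=
    (measurable_snd.comp measurable_fst).prodMk measurable_snd
  have h1 := (meas_fr hB s).comp hp
  have h3 : Measurable (fun z : ℂ => conj z) := Complex.continuous_conj.measurable
  have h4 := h3.comp h1
  have h5 : Measurable (fun q : (ℝ × ℝ) × ℝ => q.2 + c * q.1.1) :=
    measurable_snd.add (measurable_const.mul (measurable_fst.comp measurable_fst))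
  have h6 : Measurable (fun q : (ℝ × ℝ) × ℝ => g (q.2 + c * q.1.1)) := hg.comp h5
  have h2 : Measurable (fun q : (ℝ × ℝ) × ℝ => g (q.2 + c * q.1.1) *
      conj (fr (pkf ρ q.1.2) s q.2)) := h6.mul h4
  have h7 := h2.stronglyMeasurable.integral_prod_right' (ν := (volume : Measure ℝ))
  exact h7.measurable

end

/-- the embedding of triples into tiles -/
def emb : ℤ × ℤ × ℤ ↪ Tile :=
  ⟨fun p => ⟨p.1, p.2.1, p.2.2⟩, by
    rintro ⟨a, b, c⟩ ⟨a', b', c'⟩ h
    simp only [Tile.mk.injEq] at h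
    obtain ⟨h1, h2, h3⟩ := h
    subst h1; subst h2; subst h3; rfl⟩

/-- the finite set of tiles -/
noncomputable def Sn (K n : ℕ) : Finset Tile :=
  ((Finset.Icc (-(K : ℤ)) K) ×ˢ ((Finset.Icc (-(n : ℤ)) n) ×ˢ (Finset.Icc (-(n : ℤ)) n))).map emb

theorem sum_Sn {M : Type*} [AddCommMonoid M] (K n : ℕ) (f : Tile → M) :
    ∑ s ∈ Sn K n, f s = ∑ k ∈ Finset.Icc (-(K : ℤ)) K, ∑ l ∈ Finset.Icc (-(n : ℤ)) n,
      ∑ m ∈ Finset.Icc (-(n : ℤ)) n, f ⟨k, l, m⟩ := by
  unfold Sn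
  rw [Finset.sum_map, Finset.sum_product]
  refine Finset.sum_congr rfl fun k _ => ?_
  rw [Finset.sum_product]
  rfl

/-- the integrand -/
noncomputable def Hi (ρ : ℝ → ℝ) (g b : ℝ → ℂ) (N : ℝ → ℝ) (K n : ℕ) (θ v x : ℝ) : ℂ :=
  b x * ∑ s ∈ Sn K n, co (pkf ρ v) (fun ξ => g (ξ + 2 ^ K * θ)) s *
    (e1 (2 ^ K * θ * x) * fx (pk ρ v) s x) *
      s.up.indicator (fun _ => (1 : ℂ)) (N x - 2 ^ K * θ)

theorem b_Yn (ρ : ℝ → ℝ) (g b : ℝ → ℂ) (N : ℝ → ℝ) (K n : ℕ) (x : ℝ) :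
    b x * Yn ρ g K n (N x) x =
      ∫ θ in (0 : ℝ)..1, ∫ v in (0 : ℝ)..1, Hi ρ g b N K n θ v x := by
  unfold Yn Hi
  rw [← intervalIntegral.integral_const_mul]
  refine intervalIntegral.integral_congr fun θ _ => ?_
  show b x * _ = _
  rw [← intervalIntegral.integral_const_mul]
  refine intervalIntegral.integral_congr fun v _ => ?_
  show b x * _ = b x * _
  rw [sum_Sn]

section

variable {A : ℝ} {ρ : ℝ → ℝ} (hB : Bmp A ρ) {g b : ℝ → ℂ} {N : ℝ → ℝ} {E : Set ℝ}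
  (hD : Dat g b N E)
include hB hD

theorem meas_Hi (K n : ℕ) :
    Measurable (fun p : (ℝ × ℝ) × ℝ => Hi ρ g b N K n p.1.1 p.1.2 p.2) := by
  have hb : Measurable (fun p : (ℝ × ℝ) × ℝ => b p.2) := hD.mb.comp measurable_snd
  suffices hs : ∀ s : Tile, Measurable (fun p : (ℝ × ℝ) × ℝ =>
      co (pkf ρ p.1.2) (fun ξ => g (ξ + 2 ^ K * p.1.1)) s *
      (e1 (2 ^ K * p.1.1 * p.2) * fx (pk ρ p.1.2) s p.2) *
        s.up.indicator (fun _ => (1 : ℂ)) (N p.2 - 2 ^ K * p.1.1)) by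
    have h := hb.mul (Finset.measurable_fun_sum (Sn K n) fun s _ => hs s)
    exact h
  intro s
  have hf : Measurable (fun p : (ℝ × ℝ) × ℝ => p.1) := measurable_fst
  have h1 := (meas_co hB hD.mg (2 ^ K) s).comp hf
  have hp : Measurable (fun q : (ℝ × ℝ) × ℝ => (q.1.2, q.2)) :=
    (measurable_snd.comp measurable_fst).prodMk measurable_snd
  have h2 := (meas_fx hB s).comp hp
  have hq : Measurable (fun p : (ℝ × ℝ) × ℝ => 2 ^ K * p.1.1 * p.2) :=
    (measurable_const.mul (measurable_fst.comp measurable_fst)).mul measurable_snd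
  have h3 := cont_e1.measurable.comp hq
  have h4 : Measurable (fun p : (ℝ × ℝ) × ℝ =>
      s.up.indicator (fun _ => (1 : ℂ)) (N p.2 - 2 ^ K * p.1.1)) := by
    have h5 : Measurable (s.up.indicator (fun _ : ℝ => (1 : ℂ))) :=
      measurable_const.indicator (measurableSet_dy _ _)
    have h6 : Measurable (fun p : (ℝ × ℝ) × ℝ => N p.2) := hD.mN.comp measurable_snd
    have h7 : Measurable (fun p : (ℝ × ℝ) × ℝ => 2 ^ K * p.1.1) :=
      measurable_const.mul (measurable_fst.comp measurable_fst)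
    have h8 := h5.comp (h6.sub h7)
    exact h8
  have h9 := (h1.mul (h3.mul h2)).mul h4
  exact h9

theorem b_le (x : ℝ) : ‖b x‖ ≤ E.indicator (fun _ => (1 : ℝ)) x := by
  by_cases h : x ∈ E
  · rw [indicator_of_mem h]; exact hD.bE x h
  · rw [indicator_of_notMem h, hD.b0 x h, norm_zero]

theorem Hi_bd (K n : ℕ) : ∃ M : ℝ, ∀ θ v x, ‖Hi ρ g b N K n θ v x‖ ≤
    M * E.indicator (fun _ => (1 : ℝ)) x := by
  refine ⟨∑ s ∈ Sn K n, (Real.sqrt ((2 : ℝ) ^ s.k) * A * ∫ ξ, ‖g ξ‖) *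
    ((Real.sqrt ((2 : ℝ) ^ s.k))⁻¹ * A), fun θ v x => ?_⟩
  unfold Hi
  rw [norm_mul, mul_comm]
  refine mul_le_mul ?_ (b_le hB hD x) (norm_nonneg _) ?_
  · refine (norm_sum_le _ _).trans (Finset.sum_le_sum fun s _ => ?_)
    rw [norm_mul, norm_mul, norm_mul, norm_e1, one_mul]
    have h1 : ‖s.up.indicator (fun _ => (1 : ℂ)) (N x - 2 ^ K * θ)‖ ≤ 1 := by
      by_cases h : N x - 2 ^ K * θ ∈ s.up
      · rw [indicator_of_mem h, norm_one]
      · rw [indicator_of_notMem h, norm_zero]; exact zero_le_one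
    have h2 : ‖co (pkf ρ v) (fun ξ => g (ξ + 2 ^ K * θ)) s‖ * ‖fx (pk ρ v) s x‖ ≤
        (Real.sqrt ((2 : ℝ) ^ s.k) * A * ∫ ξ, ‖g ξ‖) * ((Real.sqrt ((2 : ℝ) ^ s.k))⁻¹ * A) :=
      mul_le_mul (co_bd' hB v _ s hD.ig) (fx_bd hB v s x) (norm_nonneg _)
        ((norm_nonneg _).trans (co_bd' hB v 0 s hD.ig))
    calc _ ≤ ‖co (pkf ρ v) (fun ξ => g (ξ + 2 ^ K * θ)) s‖ * ‖fx (pk ρ v) s x‖ * 1 :=
          mul_le_mul_of_nonneg_left h1 (by positivity)
      _ ≤ _ := by rw [mul_one]; exact h2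
  · refine Finset.sum_nonneg fun s _ => ?_
    have := A_pos hB
    have h3 : 0 ≤ ∫ ξ, ‖g ξ‖ := integral_nonneg fun _ => norm_nonneg _
    positivity

theorem int_ind (M : ℝ) : Integrable (fun x => M * E.indicator (fun _ => (1 : ℝ)) x) := by
  refine Integrable.const_mul ?_ M
  rw [integrable_indicator_iff hD.mE]
  exact integrableOn_const hD.fE

theorem int_Hi (K n : ℕ) (θ v : ℝ) : Integrable (fun x => Hi ρ g b N K n θ v x) := by
  obtain ⟨M, hM⟩ := Hi_bd hB hD K n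
  refine Integrable.mono' (int_ind hB hD M) ?_ (Eventually.of_forall fun x => hM θ v x)
  have hp : Measurable (fun x : ℝ => ((θ, v), x)) := measurable_const.prodMk measurable_id
  have h := (meas_Hi hB hD K n).comp hp
  exact h.aestronglyMeasurable

theorem swap (K n : ℕ) :
    ∫ x, b x * Yn ρ g K n (N x) x =
      ∫ θ in (0 : ℝ)..1, ∫ v in (0 : ℝ)..1, ∫ x, Hi ρ g b N K n θ v x := by
  obtain ⟨M, hM⟩ := Hi_bd hB hD K n
  have hm := meas_Hi hB hD K n
  have hi := int_ind hB hD M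
  -- measurability of the inner integral
  have hm2 : Measurable (fun p : ℝ × ℝ => ∫ v in (0 : ℝ)..1, Hi ρ g b N K n p.1 v p.2) := by
    simp_rw [intervalIntegral.integral_of_le (zero_le_one (α := ℝ))]
    have h1 : Measurable (fun q : (ℝ × ℝ) × ℝ => Hi ρ g b N K n q.1.1 q.2 q.1.2) :=
      hm.comp (((measurable_fst.comp measurable_fst).prodMk measurable_snd).prodMk
        (measurable_snd.comp measurable_fst))
    exact h1.stronglyMeasurable.integral_prod_right'.measurable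
  have hb2 : ∀ θ x, ‖∫ v in (0 : ℝ)..1, Hi ρ g b N K n θ v x‖ ≤
      M * E.indicator (fun _ => (1 : ℝ)) x := by
    intro θ x
    have := intervalIntegral.norm_integral_le_of_norm_le_const (a := (0 : ℝ)) (b := 1)
      (f := fun v => Hi ρ g b N K n θ v x) (fun v _ => hM θ v x)
    simpa using this
  simp_rw [b_Yn]
  rw [← intervalIntegral_integral_swap]
  · refine intervalIntegral.integral_congr fun θ _ => ?_
    show ∫ x, ∫ v in (0 : ℝ)..1, Hi ρ g b N K n θ v x = _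
    rw [← intervalIntegral_integral_swap]
    refine Integrable.mono' (g := fun p : ℝ × ℝ => M * E.indicator (fun _ => (1 : ℝ)) p.2) ?_ ?_
      (Eventually.of_forall fun p => hM θ p.1 p.2)
    · rw [Set.uIoc_of_le (zero_le_one (α := ℝ))]
      exact hi.comp_snd _
    · have hp : Measurable (fun p : ℝ × ℝ => ((θ, p.1), p.2)) :=
        (measurable_const.prodMk measurable_fst).prodMk measurable_snd
      have h := hm.comp hp
      exact h.aestronglyMeasurable
  · refine Integrable.mono' (g := fun p : ℝ × ℝ => M * E.indicator (fun _ => (1 : ℝ)) p.2) ?_ ?_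
      (Eventually.of_forall fun p => hb2 p.1 p.2)
    · rw [Set.uIoc_of_le (zero_le_one (α := ℝ))]
      exact hi.comp_snd _
    · exact hm2.aestronglyMeasurable

theorem dat_shift (K : ℕ) (θ : ℝ) : Dat (fun ξ => g (ξ + 2 ^ K * θ))
    (fun x => b x * e1 (2 ^ K * θ * x)) (fun x => N x - 2 ^ K * θ) E where
  mg := hD.mg.comp (measurable_id.add_const _)
  ig := hD.ig.comp_add_right _
  sg := hD.sg.comp_add_right _
  mb := hD.mb.mul (cont_e1.measurable.comp (measurable_const.mul measurable_id))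
  bE := fun x hx => by rw [norm_mul, norm_e1, mul_one]; exact hD.bE x hx
  b0 := fun x hx => by rw [hD.b0 x hx, zero_mul]
  mN := hD.mN.sub_const _
  mE := hD.mE
  fE := hD.fE

theorem n2_shift (c : ℝ) : n2 (fun ξ => g (ξ + c)) = n2 g := by
  unfold n2
  rw [integral_add_right_eq_self (fun ξ => ‖g ξ‖ ^ 2) c]

theorem int_eq (K n : ℕ) (θ v : ℝ) : ∫ x, Hi ρ g b N K n θ v x =
    ∑ s ∈ Sn K n, co (pkf ρ v) (fun ξ => g (ξ + 2 ^ K * θ)) s *
      av (pk ρ v) (fun x => b x * e1 (2 ^ K * θ * x)) (fun x => N x - 2 ^ K * θ) s := by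
  have hD' := dat_shift hB hD K θ
  have h0 : ∀ s : Tile, MeasurableSet ((fun x => N x - 2 ^ K * θ) ⁻¹' s.up) := fun s =>
    hD'.mN (measurableSet_dy _ _)
  have h1 : ∀ s : Tile, ∀ x, b x * (co (pkf ρ v) (fun ξ => g (ξ + 2 ^ K * θ)) s *
      (e1 (2 ^ K * θ * x) * fx (pk ρ v) s x) *
      s.up.indicator (fun _ => (1 : ℂ)) (N x - 2 ^ K * θ)) =
      co (pkf ρ v) (fun ξ => g (ξ + 2 ^ K * θ)) s *
        ((fun x => N x - 2 ^ K * θ) ⁻¹' s.up).indicator
          (fun x => b x * e1 (2 ^ K * θ * x) * fx (pk ρ v) s x) x := by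
    intro s x
    by_cases h : N x - 2 ^ K * θ ∈ s.up
    · rw [indicator_of_mem h, indicator_of_mem (by exact h)]; ring
    · rw [indicator_of_notMem h, indicator_of_notMem (by exact h)]; ring
  unfold Hi
  simp_rw [Finset.mul_sum, h1]
  rw [integral_finsetSum]
  · refine Finset.sum_congr rfl fun s _ => ?_
    rw [integral_const_mul, integral_indicator (h0 s)]
    rfl
  · intro s _
    refine Integrable.const_mul ?_ _
    refine Integrable.mono' (int_ind hB hD ((Real.sqrt ((2 : ℝ) ^ s.k))⁻¹ * A)) ?_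
      (Eventually.of_forall fun x => ?_)
    · have hp : Measurable (fun x : ℝ => (v, x)) := measurable_const.prodMk measurable_id
      have hf := (meas_fx hB s).comp hp
      have hm := hD'.mb.mul hf
      exact (hm.indicator (h0 s)).aestronglyMeasurable
    · refine (norm_indicator_le_norm_self _ _).trans ?_
      rw [norm_mul, mul_comm]
      refine mul_le_mul (fx_bd hB v s x) ?_ (norm_nonneg _) ?_
      · rw [norm_mul, norm_e1, mul_one]; exact b_le hB hD x
      · have := A_pos hB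
        positivity

theorem bound {C : ℝ} (hC : ∀ (φ Φ g b : ℝ → ℂ) (N : ℝ → ℝ) (E : Set ℝ),
    WPk A φ Φ → Dat g b N E → ∀ S : Finset Tile,
      ∑ s ∈ S, ‖co Φ g s‖ * ‖av φ b N s‖ ≤ C * n2 g * Real.sqrt (vol E)) (K n : ℕ) :
    ‖∫ x, b x * Yn ρ g K n (N x) x‖ ≤ C * n2 g * Real.sqrt (vol E) := by
  rw [swap hB hD]
  have h1 : ∀ θ : ℝ, ∀ v ∈ Set.uIoc (0 : ℝ) 1, ‖∫ x, Hi ρ g b N K n θ v x‖ ≤
      C * n2 g * Real.sqrt (vol E) := by
    intro θ v hv
    rw [Set.uIoc_of_le zero_le_one] at hv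
    rw [int_eq hB hD]
    refine (norm_sum_le _ _).trans ?_
    have h2 := hC (pk ρ v) (pkf ρ v) _ _ _ E (hB.wp v ⟨hv.1.le, hv.2⟩) (dat_shift hB hD K θ)
      (Sn K n)
    rw [n2_shift hB hD] at h2
    refine le_trans (le_of_eq ?_) h2
    exact Finset.sum_congr rfl fun s _ => norm_mul _ _
  have h3 : ∀ θ ∈ Set.uIoc (0 : ℝ) 1, ‖∫ v in (0 : ℝ)..1, ∫ x, Hi ρ g b N K n θ v x‖ ≤
      C * n2 g * Real.sqrt (vol E) := by
    intro θ _
    have := intervalIntegral.norm_integral_le_of_norm_le_const (a := (0 : ℝ)) (b := 1)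
      (f := fun v => ∫ x, Hi ρ g b N K n θ v x) (fun v hv => h1 θ v hv)
    simpa using this
  have := intervalIntegral.norm_integral_le_of_norm_le_const (a := (0 : ℝ)) (b := 1)
    (f := fun θ => ∫ v in (0 : ℝ)..1, ∫ x, Hi ρ g b N K n θ v x) h3
  simpa using this

theorem meas_Y (K n : ℕ) : Measurable (fun x => b x * Yn ρ g K n (N x) x) := by
  have hm := meas_Hi hB hD K n
  simp_rw [b_Yn]
  have hm2 : Measurable (fun p : ℝ × ℝ => ∫ v in (0 : ℝ)..1, Hi ρ g b N K n p.2 v p.1) := by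
    simp_rw [intervalIntegral.integral_of_le (zero_le_one (α := ℝ))]
    have h1 : Measurable (fun q : (ℝ × ℝ) × ℝ => Hi ρ g b N K n q.1.2 q.2 q.1.1) :=
      hm.comp (((measurable_snd.comp measurable_fst).prodMk measurable_snd).prodMk
        (measurable_fst.comp measurable_fst))
    exact h1.stronglyMeasurable.integral_prod_right'.measurable
  simp_rw [intervalIntegral.integral_of_le (zero_le_one (α := ℝ))] at hm2 ⊢
  exact hm2.stronglyMeasurable.integral_prod_right'.measurable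

end

end AVB_

open AVB_ in
theorem p_AVB (hM : T_MODEL) (hYN : T_YN) : T_AVB := by
  intro A ρ hB
  obtain ⟨C, hC0, hC⟩ := hM A
  refine ⟨C, hC0, ?_⟩
  intro g b N E hD K
  obtain ⟨C', hC', hlim⟩ := hYN A ρ hB g hD.mg hD.ig K
  have h1 : Tendsto (fun n => ∫ x, b x * Yn ρ g K n (N x) x) atTop
      (𝓝 (∫ x, b x * ∑ k ∈ Finset.Icc (-(K : ℤ)) K,
        ∫ ξ, g ξ * (Bt ρ ((2 : ℝ) ^ k) (N x - ξ) : ℂ) * e1 (x * ξ))) := by
    refine tendsto_integral_of_dominated_convergence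
      (fun x => C' * E.indicator (fun _ => (1 : ℝ)) x) ?_ (int_ind hB hD C') ?_ ?_
    · intro n
      exact (meas_Y hB hD K n).aestronglyMeasurable
    · intro n
      refine Eventually.of_forall fun x => ?_
      rw [norm_mul, mul_comm]
      exact mul_le_mul (hC' n (N x) x) (b_le hB hD x) (norm_nonneg _)
        ((norm_nonneg _).trans (hC' n (N x) x))
    · refine Eventually.of_forall fun x => ?_
      exact (hlim (N x) x).const_mul (b x)
  exact le_of_tendsto h1.norm (Eventually.of_forall fun n => bound hB hD hC K n)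

end Pool.Agent.CAR
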