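import Pool.Agent.CAR.STargets
import Pool.Agent.CAR.P_AVB

set_option autoImplicit false

/-!
# AVBS: the averaging argument with the `L²` norm of `b`
-/

namespace Pool.Agent.CAR

open MeasureTheory Set ComplexConjugate Filter Topology Function
open scoped ENNReal NNReal

namespace AVBS_

theorem n2_mod (b : ℝ → ℂ) (c : ℝ) : n2 (fun x => b x * e1 (c * x)) = n2 b := by
  unfold n2
  congr 1
  refine integral_congr_ae (Eventually.of_forall fun x => ?_)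
  show ‖b x * e1 (c * x)‖ ^ 2 = ‖b x‖ ^ 2
  rw [norm_mul, AVB_.norm_e1, mul_one]

theorem bound {A : ℝ} {ρ : ℝ → ℝ} (hB : Bmp A ρ) {g b : ℝ → ℂ} {N : ℝ → ℝ} {E : Set ℝ}
    (hD : Dat g b N E) {C : ℝ} (hC : ∀ (φ Φ g b : ℝ → ℂ) (N : ℝ → ℝ) (E : Set ℝ),
    WPk A φ Φ → Dat g b N E → ∀ S : Finset Tile,
      ∑ s ∈ S, ‖co Φ g s‖ * ‖av φ b N s‖ ≤ C * n2 g * n2 b) (K n : ℕ) :
    ‖∫ x, b x * Yn ρ g K n (N x) x‖ ≤ C * n2 g * n2 b := by
  rw [AVB_.swap hB hD]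
  have h1 : ∀ θ : ℝ, ∀ v ∈ Set.uIoc (0 : ℝ) 1, ‖∫ x, AVB_.Hi ρ g b N K n θ v x‖ ≤
      C * n2 g * n2 b := by
    intro θ v hv
    rw [Set.uIoc_of_le zero_le_one] at hv
    rw [AVB_.int_eq hB hD]
    refine (norm_sum_le _ _).trans ?_
    have h2 := hC (pk ρ v) (pkf ρ v) _ _ _ E (hB.wp v ⟨hv.1.le, hv.2⟩)
      (AVB_.dat_shift hB hD K θ) (AVB_.Sn K n)
    rw [AVB_.n2_shift hB hD, n2_mod] at h2
    refine le_trans (le_of_eq ?_) h2
    exact Finset.sum_congr rfl fun s _ => norm_mul _ _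
  have h3 : ∀ θ ∈ Set.uIoc (0 : ℝ) 1,
      ‖∫ v in (0 : ℝ)..1, ∫ x, AVB_.Hi ρ g b N K n θ v x‖ ≤ C * n2 g * n2 b := by
    intro θ _
    have := intervalIntegral.norm_integral_le_of_norm_le_const (a := (0 : ℝ)) (b := 1)
      (f := fun v => ∫ x, AVB_.Hi ρ g b N K n θ v x) (fun v hv => h1 θ v hv)
    simpa using this
  have := intervalIntegral.norm_integral_le_of_norm_le_const (a := (0 : ℝ)) (b := 1)
    (f := fun θ => ∫ v in (0 : ℝ)..1, ∫ x, AVB_.Hi ρ g b N K n θ v x) h3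
  simpa using this

end AVBS_

open AVB_ in
theorem p_AVBS (hMODS : T_MODS) (hYN : T_YN) : T_AVBS := by
  intro A ρ hB
  obtain ⟨C, hC0, hC⟩ := hMODS A
  refine ⟨C, hC0, ?_⟩
  intro g b N E hD K
  obtain ⟨C', hC', hlim⟩ := hYN A ρ hB g hD.mg hD.ig K
  have h1 : Tendsto (fun n => ∫ x, b x * Yn ρ g K n (N x) x) atTop
      (𝓝 (∫ x, b x * ∑ k ∈ Finset.Icc (-(K : ℤ)) K,
        ∫ ξ, g ξ * (Bt ρ ((2 : ℝ) ^ k) (N x - ξ) : ℂ) * e1 (x * ξ))) := by
    refine tendsto_integral_of_dominated_convergence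
      (fun x => C' * E.indicator (fun _ => (1 : ℝ)) x) ?_ (int_ind hB hD C') ?_ ?_
    · intro n
      exact (meas_Y hB hD K n).aestronglyMeasurable
    · intro n
      refine Eventually.of_forall fun x => ?_
      rw [norm_mul, mul_comm]
      exact mul_le_mul (hC' n (N x) x) (b_le hB hD x) (norm_nonneg _)
        ((norm_nonneg _).trans (hC' n (N x) x))
    · refine Eventually.of_forall fun x => ?_
      exact (hlim (N x) x).const_mul (b x)
  exact le_of_tendsto h1.norm (Eventually.of_forall fun n => AVBS_.bound hB hD hC K n)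

end Pool.Agent.CAR
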