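import Pool.Agent.CAR.Targets

set_option autoImplicit false

/-!
# CAR, target AVG: summation over stopping intervals
-/

namespace Pool.Agent.CAR

open MeasureTheory Set
open scoped ENNReal NNReal

namespace AVG_

/-- the cells -/
def cell (κ : ℝ → ℤ) (p : ℤ × ℤ) : Set ℝ := {x | x ∈ dy p.1 p.2 ∧ κ x = p.1}

theorem cell_eq {κ : ℝ → ℤ} (hκ : ∀ x y, y ∈ Jx κ x → κ y = κ x) {p : ℤ × ℤ} {x : ℝ}
    (hx : x ∈ cell κ p) : cell κ p = dy p.1 p.2 ∧ Jx κ x = dy p.1 p.2 := by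
  obtain ⟨h1, h2⟩ := hx
  have h3 : Jx κ x = dy p.1 p.2 := by
    rw [Jx, h2]
    congr 1
    exact mem_dy.1 h1
  refine ⟨?_, h3⟩
  ext y
  constructor
  · exact fun h => h.1
  · intro h
    refine ⟨h, ?_⟩
    rw [hκ x y (by rw [h3]; exact h), h2]

theorem measurableSet_cell {κ : ℝ → ℤ} (hκ : ∀ x y, y ∈ Jx κ x → κ y = κ x) (p : ℤ × ℤ) :
    MeasurableSet (cell κ p) := by
  rcases (cell κ p).eq_empty_or_nonempty with h | ⟨x, hx⟩
  · rw [h]; exact MeasurableSet.empty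
  · rw [(cell_eq hκ hx).1]; exact measurableSet_dy _ _

theorem disj_cell (κ : ℝ → ℤ) : Pairwise (Function.onFun Disjoint (cell κ)) := by
  intro p q hpq
  rw [Function.onFun, Set.disjoint_left]
  rintro x ⟨h1, h2⟩ ⟨h3, h4⟩
  apply hpq
  have h5 : p.1 = q.1 := h2.symm.trans h4
  rw [h5] at h1
  exact Prod.ext h5 (dy_eq_of_mem h1 h3)

theorem iUnion_cell (κ : ℝ → ℤ) : ⋃ p, cell κ p = univ := by
  rw [eq_univ_iff_forall]
  intro x
  exact mem_iUnion.2 ⟨(κ x, ⌊(2 : ℝ) ^ (-(κ x)) * x⌋), exists_mem_dy _ _, rfl⟩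

theorem lint {κ : ℝ → ℤ} (hκ : ∀ x y, y ∈ Jx κ x → κ y = κ x) {G : Set ℝ}
    (hG : MeasurableSet G) (h : ℝ → ℝ≥0∞) :
    ∫⁻ x in G, h x = ∑' p, ∫⁻ x in G ∩ cell κ p, h x := by
  rw [← lintegral_iUnion]
  · rw [← inter_iUnion, iUnion_cell, inter_univ]
  · exact fun p => hG.inter (measurableSet_cell hκ p)
  · intro p q hpq
    exact (disj_cell κ hpq).mono inter_subset_right inter_subset_right

end AVG_

open AVG_ in
theorem p_AVG : T_AVG := by
  intro κ hκ G W Q h H hG hW hh hH h1 h2 h3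
  rw [lint hκ hG, lint hκ hW, ← ENNReal.tsum_mul_left]
  apply ENNReal.tsum_le_tsum
  intro p
  rcases (G ∩ cell κ p).eq_empty_or_nonempty with he | ⟨y0, hy0, hc0⟩
  · rw [he]; simp
  · obtain ⟨e1, e2⟩ := cell_eq hκ hc0
    have hJ : ∀ x ∈ cell κ p, Jx κ x = cell κ p := fun x hx => by
      rw [(cell_eq hκ hx).2, e1]
    have hsub : cell κ p ⊆ W := fun x hx => h3 x y0 hy0 (by rw [hJ x hx]; exact hc0)
    rw [inter_eq_self_of_subset_right hsub]
    set m : ℝ≥0∞ := ⨅ x ∈ cell κ p, H x with hm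
    have g1 : ∫⁻ x in G ∩ cell κ p, h x ≤ m * volume (G ∩ cell κ p) := by
      rw [← setLIntegral_const]
      apply setLIntegral_mono' (hG.inter (measurableSet_cell hκ p))
      rintro y ⟨hy, hyc⟩
      exact le_iInf₂ fun x hx => h2 x y hy (by rw [hJ x hx]; exact hyc)
    have g2 : m * volume (cell κ p) ≤ ∫⁻ x in cell κ p, H x := by
      rw [← setLIntegral_const]
      apply setLIntegral_mono' (measurableSet_cell hκ p)
      intro x hx
      exact iInf₂_le x hx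
    have g3 : volume (G ∩ cell κ p) ≤ Q * volume (cell κ p) := by
      have := h1 y0
      rwa [hJ y0 hc0] at this
    calc ∫⁻ x in G ∩ cell κ p, h x ≤ m * volume (G ∩ cell κ p) := g1
      _ ≤ m * (Q * volume (cell κ p)) := mul_le_mul_right g3 _
      _ = Q * (m * volume (cell κ p)) := by ring
      _ ≤ Q * ∫⁻ x in cell κ p, H x := mul_le_mul_right g2 _

end Pool.Agent.CAR
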