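import Pool.Agent.CAR.ITargets

set_option autoImplicit false

/-!
# CAR, target BT: the symbol of the half line
-/

namespace Pool.Agent.CAR

open MeasureTheory Set ComplexConjugate Filter Topology
open scoped ENNReal NNReal

namespace BT_

/-- `β(y) = ∫_{1/2}^1 ρ(u-y)² du` -/
noncomputable def be (ρ : ℝ → ℝ) (y : ℝ) : ℝ := ∫ u in (1 / 2 : ℝ)..1, ρ (u - y) ^ 2

theorem Bt_eq (ρ : ℝ → ℝ) (t a : ℝ) : Bt ρ t a = be ρ (t * a) := rfl

theorem be_cont {ρ : ℝ → ℝ} (h : Continuous ρ) : Continuous (be ρ) := by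
  unfold be
  refine intervalIntegral.continuous_parametric_intervalIntegral_of_continuous' ?_ _ _
  fun_prop

theorem be_nonneg (ρ : ℝ → ℝ) (y : ℝ) : 0 ≤ be ρ y :=
  intervalIntegral.integral_nonneg (by norm_num) fun _ _ => by positivity

theorem be_supp {ρ : ℝ → ℝ} (h : ∀ ξ, ρ ξ ≠ 0 → ξ ∈ Icc (1 / 8 : ℝ) (3 / 8)) {y : ℝ}
    (hy : be ρ y ≠ 0) : y ∈ Icc (1 / 8 : ℝ) (7 / 8) := by
  by_contra hc
  apply hy
  unfold be
  rw [intervalIntegral.integral_of_le (by norm_num)]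
  apply setIntegral_eq_zero_of_forall_eq_zero
  intro u hu
  have h1 : ρ (u - y) = 0 := by
    by_contra h0
    have h2 := h _ h0
    apply hc
    rw [mem_Icc] at h2 ⊢
    rw [mem_Ioc] at hu
    constructor <;> linarith [h2.1, h2.2, hu.1, hu.2]
  rw [h1]
  norm_num

/-- `γ(σ) = β(2^σ)` -/
noncomputable def ga (ρ : ℝ → ℝ) (σ : ℝ) : ℝ := be ρ ((2 : ℝ) ^ σ)

theorem ga_cont {ρ : ℝ → ℝ} (h : Continuous ρ) : Continuous (ga ρ) := by
  unfold ga
  exact (be_cont h).comp (Real.continuous_const_rpow (by norm_num))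

theorem ga_nonneg (ρ : ℝ → ℝ) (σ : ℝ) : 0 ≤ ga ρ σ := be_nonneg _ _

theorem ga_supp {ρ : ℝ → ℝ} (h : ∀ ξ, ρ ξ ≠ 0 → ξ ∈ Icc (1 / 8 : ℝ) (3 / 8)) {σ : ℝ}
    (hσ : ga ρ σ ≠ 0) : σ ∈ Icc (-3 : ℝ) 0 := by
  have h1 := be_supp h hσ
  rw [mem_Icc] at h1 ⊢
  constructor
  · by_contra hc
    push Not at hc
    have h2 : (2 : ℝ) ^ σ < (2 : ℝ) ^ (-3 : ℝ) :=
      Real.rpow_lt_rpow_of_exponent_lt (by norm_num) hc
    have h3 : (2 : ℝ) ^ (-3 : ℝ) = 1 / 8 := by
      rw [Real.rpow_neg (by norm_num)]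
      norm_num
    rw [h3] at h2
    linarith [h1.1]
  · by_contra hc
    push Not at hc
    have h2 : (1 : ℝ) < (2 : ℝ) ^ σ := Real.one_lt_rpow (by norm_num) hc
    linarith [h1.2]

theorem ga_compact {ρ : ℝ → ℝ} (h : ∀ ξ, ρ ξ ≠ 0 → ξ ∈ Icc (1 / 8 : ℝ) (3 / 8)) :
    HasCompactSupport (ga ρ) := by
  refine HasCompactSupport.intro (isCompact_Icc (a := (-3 : ℝ)) (b := 0)) fun x hx => ?_
  by_contra h0
  exact hx (ga_supp h h0)

theorem ga_int {ρ : ℝ → ℝ} (hc : Continuous ρ)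
    (h : ∀ ξ, ρ ξ ≠ 0 → ξ ∈ Icc (1 / 8 : ℝ) (3 / 8)) : Integrable (ga ρ) :=
  (ga_cont hc).integrable_of_hasCompactSupport (ga_compact h)

theorem ga_pos {ρ : ℝ → ℝ} (hc : Continuous ρ)
    (h : ∀ ξ, ρ ξ ≠ 0 → ξ ∈ Icc (1 / 8 : ℝ) (3 / 8)) (hn : ∃ ξ, ρ ξ ≠ 0) :
    0 < ∫ σ, ga ρ σ := by
  obtain ⟨ξ, hξ⟩ := hn
  have h1 := h ξ hξ
  have hy : 0 < 3 / 4 - ξ := by linarith [h1.2]
  have hb : be ρ (3 / 4 - ξ) ≠ 0 := by
    have : 0 < be ρ (3 / 4 - ξ) := by
      unfold be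
      refine intervalIntegral.integral_pos (by norm_num) (by fun_prop) (fun x _ => by positivity)
        ⟨3 / 4, by constructor <;> norm_num, ?_⟩
      rw [show (3 / 4 - (3 / 4 - ξ) : ℝ) = ξ by ring]
      positivity
    exact this.ne'
  rw [integral_pos_iff_support_of_nonneg (fun σ => ga_nonneg ρ σ) (ga_int hc h)]
  refine ((ga_cont hc).isOpen_support).measure_pos volume ⟨Real.logb 2 (3 / 4 - ξ), ?_⟩
  rw [Function.mem_support]
  unfold ga
  rw [Real.rpow_logb (by norm_num) (by norm_num) hy]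
  exact hb

theorem sum_int {f : ℝ → ℝ} (hf : Continuous f) (K : ℕ) :
    ∑ k ∈ Finset.Icc (-(K : ℤ)) K, ∫ κ in (0 : ℝ)..1, f (κ + k) =
      ∫ τ in (-(K : ℝ))..(K + 1), f τ := by
  induction K with
  | zero =>
    simp
  | succ n ih =>
    have e : Finset.Icc (-((n + 1 : ℕ) : ℤ)) ((n + 1 : ℕ) : ℤ) =
        insert (-((n : ℤ) + 1)) (insert ((n : ℤ) + 1) (Finset.Icc (-(n : ℤ)) n)) := by
      ext x
      simp only [Finset.mem_Icc, Finset.mem_insert]
      push_cast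
      omega
    rw [e, Finset.sum_insert, Finset.sum_insert, ih]
    · have hi : ∀ a b : ℝ, IntervalIntegrable f volume a b := fun a b => hf.intervalIntegrable _ _
      rw [intervalIntegral.integral_comp_add_right, intervalIntegral.integral_comp_add_right]
      push_cast
      rw [show (0 : ℝ) + -(n + 1 : ℝ) = -(n + 1) by ring,
        show (1 : ℝ) + -(n + 1 : ℝ) = -n by ring,
        show (0 : ℝ) + ((n : ℝ) + 1) = n + 1 by ring,
        show (1 : ℝ) + ((n : ℝ) + 1) = n + 1 + 1 by ring]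
      have a1 := intervalIntegral.integral_add_adjacent_intervals (hi (-(n + 1)) (-n))
        (hi (-n) (n + 1))
      have a2 := intervalIntegral.integral_add_adjacent_intervals (hi (-(n + 1)) (n + 1))
        (hi (n + 1) (n + 1 + 1))
      linarith
    · simp only [Finset.mem_Icc]
      omega
    · simp only [Finset.mem_Icc, Finset.mem_insert]
      omega

theorem mK_eq {ρ : ℝ → ℝ} (hc : Continuous ρ) (K : ℕ) {a : ℝ} (ha : 0 < a) :
    mK ρ K a = ∫ σ in (-(K : ℝ) + Real.logb 2 a)..(K + 1 + Real.logb 2 a), ga ρ σ := by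
  unfold mK
  rw [intervalIntegral.integral_finsetSum]
  · have hg : Continuous (fun τ => ga ρ (τ + Real.logb 2 a)) :=
      (ga_cont hc).comp (continuous_id.add continuous_const)
    rw [← intervalIntegral.integral_comp_add_right (fun σ => ga ρ σ) (Real.logb 2 a),
      ← sum_int hg K]
    refine Finset.sum_congr rfl fun k _ => ?_
    refine intervalIntegral.integral_congr fun κ _ => ?_
    rw [Bt_eq]
    unfold ga
    congr 1
    rw [Real.rpow_add (by norm_num), Real.rpow_add (by norm_num),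
      Real.rpow_logb (by norm_num) (by norm_num) ha, Real.rpow_intCast]
  · intro k _
    apply Continuous.intervalIntegrable
    have : (fun κ : ℝ => Bt ρ ((2 : ℝ) ^ κ * (2 : ℝ) ^ k) a) =
        fun κ : ℝ => be ρ ((2 : ℝ) ^ κ * (2 : ℝ) ^ k * a) := rfl
    rw [this]
    refine (be_cont hc).comp ?_
    exact ((Real.continuous_const_rpow (by norm_num)).mul continuous_const).mul continuous_const

theorem mK_zero {ρ : ℝ → ℝ} (h : ∀ ξ, ρ ξ ≠ 0 → ξ ∈ Icc (1 / 8 : ℝ) (3 / 8)) (K : ℕ) {a : ℝ}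
    (ha : a ≤ 0) : mK ρ K a = 0 := by
  unfold mK
  have h0 : ∀ κ : ℝ, ∑ k ∈ Finset.Icc (-(K : ℤ)) K, Bt ρ ((2 : ℝ) ^ κ * (2 : ℝ) ^ k) a = 0 := by
    intro κ
    refine Finset.sum_eq_zero fun k _ => ?_
    rw [Bt_eq]
    by_contra h1
    have h2 := be_supp h h1
    have h3 : (2 : ℝ) ^ κ * (2 : ℝ) ^ k * a ≤ 0 :=
      mul_nonpos_of_nonneg_of_nonpos (by positivity) ha
    linarith [h2.1]
  simp only [h0]
  simp

end BT_

open BT_ in
theorem p_BT : T_BT := by
  intro A ρ hρ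
  have hc := hρ.cont
  have hs := hρ.supp
  have hint := ga_int hc hs
  refine ⟨∫ σ, ga ρ σ, ∫ σ, ga ρ σ, ga_pos hc hs hρ.nz, fun K a => ?_, fun a => ?_⟩
  · rcases le_or_gt a 0 with ha | ha
    · rw [mK_zero hs K ha, abs_zero]
      exact (ga_pos hc hs hρ.nz).le
    · rw [mK_eq hc K ha, intervalIntegral.integral_of_le (by linarith [Nat.cast_nonneg (α := ℝ) K]),
        abs_of_nonneg (integral_nonneg fun σ => ga_nonneg ρ σ)]
      exact setIntegral_le_integral hint (Eventually.of_forall fun σ => ga_nonneg ρ σ)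
  · rcases le_or_gt a 0 with ha | ha
    · rw [if_neg (not_lt.2 ha)]
      simp only [mK_zero hs _ ha]
      exact tendsto_const_nhds
    · rw [if_pos ha]
      have h1 : Tendsto (fun K : ℕ => ∫ σ in (-(K : ℝ) + Real.logb 2 a)..(K + 1 + Real.logb 2 a),
          ga ρ σ) atTop (𝓝 (∫ σ, ga ρ σ)) := by
        refine intervalIntegral_tendsto_integral hint ?_ ?_
        · refine tendsto_atBot_add_const_right _ _ ?_
          exact tendsto_neg_atTop_atBot.comp tendsto_natCast_atTop_atTop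
        · refine tendsto_atTop_add_const_right _ _ ?_
          exact tendsto_atTop_add_const_right _ _ tendsto_natCast_atTop_atTop
      refine h1.congr fun K => ?_
      rw [mK_eq hc K ha]

end Pool.Agent.CAR
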