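import Pool.Agent.CAR.ITargets

set_option autoImplicit false

/-!
# Carleson operator: from the linearised bound to the maximal operator
-/

namespace Pool.Agent.CAR

open MeasureTheory Set ComplexConjugate Filter Topology
open scoped ENNReal NNReal

namespace CARL1_

/-- the half line integral -/
noncomputable def hl (g : ℝ → ℂ) (n x : ℝ) : ℂ := ∫ ξ in Iio n, g ξ * e1 (x * ξ)

theorem norm_e1 (x : ℝ) : ‖e1 x‖ = 1 := by
  rw [e1, show (2 * Real.pi * Complex.I * (x : ℂ)) = ((2 * Real.pi * x : ℝ) : ℂ) * Complex.I by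
    push_cast; ring]
  exact Complex.norm_exp_ofReal_mul_I _

theorem continuous_e1 : Continuous e1 := by
  unfold e1; fun_prop

theorem lim_int {g : ℝ → ℂ} (mg : Measurable g) (ig : Integrable g) (x : ℝ) :
    Integrable (fun ξ => g ξ * e1 (x * ξ)) := by
  refine ig.mono ?_ (ae_of_all _ fun ξ => ?_)
  · exact (mg.mul (continuous_e1.measurable.comp (measurable_const.mul measurable_id))
      ).aestronglyMeasurable
  · rw [norm_mul, norm_e1, mul_one]

theorem hl_le {g : ℝ → ℂ} (ig : Integrable g) (n x : ℝ) : ‖hl g n x‖ ≤ ∫ ξ, ‖g ξ‖ := by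
  unfold hl
  refine (norm_integral_le_integral_norm _).trans ?_
  have e : (fun ξ => ‖g ξ * e1 (x * ξ)‖) = fun ξ => ‖g ξ‖ := by
    funext ξ; rw [norm_mul, norm_e1, mul_one]
  rw [e]
  exact setIntegral_le_integral ig.norm (ae_of_all _ fun ξ => norm_nonneg _)

theorem hl_cont {g : ℝ → ℂ} (mg : Measurable g) (ig : Integrable g) (x : ℝ) :
    Continuous (fun n => hl g n x) := by
  have h := lim_int mg ig x
  have e : (fun n => hl g n x) = fun n => (∫ ξ in Iic (0 : ℝ), g ξ * e1 (x * ξ)) +
      ∫ ξ in (0 : ℝ)..n, g ξ * e1 (x * ξ) := by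
    funext n
    rw [hl, ← integral_Iic_eq_integral_Iio,
      ← intervalIntegral.integral_Iic_sub_Iic h.integrableOn h.integrableOn]
    ring
  rw [e]
  exact continuous_const.add
    (intervalIntegral.continuous_primitive (fun a b => h.intervalIntegrable) 0)

theorem hl_meas {g : ℝ → ℂ} (mg : Measurable g) (n : ℝ) : Measurable (fun x => hl g n x) := by
  unfold hl
  have h : StronglyMeasurable (fun p : ℝ × ℝ => g p.2 * e1 (p.1 * p.2)) :=
    ((mg.comp measurable_snd).mul (continuous_e1.measurable.comp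
      (measurable_fst.mul measurable_snd))).stronglyMeasurable
  exact (h.integral_prod_right' (ν := volume.restrict (Iio n))).measurable

/-- the supremum over real `n` is the supremum over rational `n` -/
theorem hl_iSup {g : ℝ → ℂ} (mg : Measurable g) (ig : Integrable g) (x : ℝ) :
    (⨆ n : ℝ, ‖hl g n x‖ₑ) = ⨆ q : ℚ, ‖hl g q x‖ₑ := by
  apply le_antisymm
  · refine iSup_le fun n => ?_
    refine DenseRange.induction_on (p := fun n : ℝ => ‖hl g n x‖ₑ ≤ ⨆ q : ℚ, ‖hl g q x‖ₑ)
      Rat.denseRange_cast n ?_ ?_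
    · exact isClosed_le (continuous_enorm.comp (hl_cont mg ig x)) continuous_const
    · intro q; exact le_iSup (fun q : ℚ => ‖hl g q x‖ₑ) q
  · exact iSup_le fun q => le_iSup (fun n : ℝ => ‖hl g n x‖ₑ) (q : ℝ)

/-- a measurable maximiser over a finite set -/
theorem hl_sel {g : ℝ → ℂ} (mg : Measurable g) (S : Finset ℚ) :
    ∃ N : ℝ → ℝ, Measurable N ∧ (range N).Finite ∧ Measurable (fun x => hl g (N x) x) ∧
      ∀ x, (⨆ q ∈ S, ‖hl g q x‖ₑ) ≤ ‖hl g (N x) x‖ₑ := by
  classical
  induction S using Finset.induction_on with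
  | empty =>
    refine ⟨fun _ => 0, measurable_const, ?_, hl_meas mg 0, fun x => ?_⟩
    · exact Set.finite_range_const
    · simp
  | insert a S ha ih =>
    obtain ⟨N, h1, h2, h3, h4⟩ := ih
    have hm : MeasurableSet {x | ‖hl g (N x) x‖ ≤ ‖hl g a x‖} :=
      measurableSet_le h3.norm (hl_meas mg a).norm
    refine ⟨fun x => if ‖hl g (N x) x‖ ≤ ‖hl g a x‖ then (a : ℝ) else N x, ?_, ?_, ?_, ?_⟩
    · exact Measurable.ite hm measurable_const h1
    · refine (h2.insert (a : ℝ)).subset ?_
      rintro _ ⟨x, rfl⟩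
      dsimp only
      split_ifs
      · exact mem_insert _ _
      · exact mem_insert_of_mem _ ⟨x, rfl⟩
    · have e : (fun x => hl g (if ‖hl g (N x) x‖ ≤ ‖hl g a x‖ then (a : ℝ) else N x) x) =
          fun x => if ‖hl g (N x) x‖ ≤ ‖hl g a x‖ then hl g a x else hl g (N x) x := by
        funext x
        split_ifs <;> rfl
      rw [e]
      exact Measurable.ite hm (hl_meas mg a) h3
    · intro x
      rw [Finset.iSup_insert]
      refine sup_le ?_ ?_
      · dsimp only
        split_ifs with h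
        · exact le_refl _
        · exact enorm_le_iff_norm_le.2 (le_of_lt (not_le.1 h))
      · refine (h4 x).trans ?_
        dsimp only
        split_ifs with h
        · exact enorm_le_iff_norm_le.2 h
        · exact le_refl _

theorem ofReal_n2 {g : ℝ → ℂ} (sg : Integrable (fun ξ => ‖g ξ‖ ^ 2)) :
    ENNReal.ofReal (n2 g) = (∫⁻ ξ, ‖g ξ‖ₑ ^ 2) ^ (1 / 2 : ℝ) := by
  have h0 : 0 ≤ ∫ ξ, ‖g ξ‖ ^ 2 := integral_nonneg fun _ => sq_nonneg _
  rw [n2, Real.sqrt_eq_rpow, ← ENNReal.ofReal_rpow_of_nonneg h0 (by norm_num),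
    ofReal_integral_eq_lintegral_ofReal sg (ae_of_all _ fun _ => sq_nonneg _)]
  congr 1
  refine lintegral_congr fun ξ => ?_
  rw [ENNReal.ofReal_pow (norm_nonneg _), ofReal_norm]

theorem ofReal_sqrt_vol {E : Set ℝ} (fE : volume E ≠ ⊤) :
    ENNReal.ofReal (Real.sqrt (vol E)) = volume E ^ (1 / 2 : ℝ) := by
  rw [vol, Real.sqrt_eq_rpow, ← ENNReal.ofReal_rpow_of_nonneg ENNReal.toReal_nonneg (by norm_num),
    ENNReal.ofReal_toReal fE]

end CARL1_

open CARL1_ in
/-- **CARL1** -/
theorem p_CARL1 : T_CARL1 := by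
  rintro ⟨C, hC, h⟩
  refine ⟨C.toNNReal, fun g E mg ig sg mE fE => ?_⟩
  have e0 : (fun x => ⨆ n : ℝ, ‖∫ ξ in Iio n, g ξ * e1 (x * ξ)‖ₑ) =
      fun x => ⨆ S : Finset ℚ, ⨆ q ∈ S, ‖hl g q x‖ₑ := by
    funext x
    have := hl_iSup mg ig x
    unfold hl at this
    rw [this, iSup_eq_iSup_finset]
    rfl
  rw [e0, lintegral_iSup_directed]
  · refine iSup_le fun S => ?_
    obtain ⟨N, h1, h2, h3, h4⟩ := hl_sel mg S
    refine (lintegral_mono h4).trans ?_
    -- the signs
    set b : ℝ → ℂ := E.indicator fun x => conj (hl g (N x) x) / (‖hl g (N x) x‖ : ℂ) with hb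
    have mb : Measurable b := by
      refine Measurable.indicator ?_ mE
      exact (Complex.continuous_conj.measurable.comp h3).div
        (Complex.measurable_ofReal.comp h3.norm)
    have hD : Dat g b N E := by
      refine ⟨mg, ig, sg, mb, ?_, ?_, h1, mE, fE⟩
      · intro x hx
        rw [hb, indicator_of_mem hx, norm_div, RCLike.norm_conj, Complex.norm_real, norm_norm]
        exact div_self_le_one _
      · intro x hx
        rw [hb, indicator_of_notMem hx]
    have h5 := h g b N E hD
    have e1' : (fun x => b x * ∫ ξ in Iio (N x), g ξ * e1 (x * ξ)) =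
        E.indicator fun x => ((‖hl g (N x) x‖ : ℝ) : ℂ) := by
      funext x
      by_cases hx : x ∈ E
      · rw [hb, indicator_of_mem hx, indicator_of_mem hx]
        change conj (hl g (N x) x) / (‖hl g (N x) x‖ : ℂ) * hl g (N x) x = _
        by_cases h0 : hl g (N x) x = 0
        · rw [h0]; simp
        · have h0' : ((‖hl g (N x) x‖ : ℝ) : ℂ) ≠ 0 := by
            simpa using h0
          rw [div_mul_eq_mul_div, div_eq_iff h0', mul_comm, Complex.mul_conj,
            Complex.normSq_eq_norm_sq]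
          push_cast
          ring
      · rw [hb, indicator_of_notMem hx, indicator_of_notMem hx, zero_mul]
    rw [e1', integral_indicator mE, integral_complex_ofReal, Complex.norm_real,
      Real.norm_of_nonneg (integral_nonneg fun _ => norm_nonneg _)] at h5
    have hi : IntegrableOn (fun x => ‖hl g (N x) x‖) E := by
      refine Measure.integrableOn_of_bounded fE h3.norm.aestronglyMeasurable
        (M := ∫ ξ, ‖g ξ‖) (ae_of_all _ fun x => ?_)
      rw [norm_norm]
      exact hl_le ig _ _
    have e2 : ∫⁻ x in E, ‖hl g (N x) x‖ₑ = ENNReal.ofReal (∫ x in E, ‖hl g (N x) x‖) := by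
      rw [ofReal_integral_eq_lintegral_ofReal hi (ae_of_all _ fun _ => norm_nonneg _)]
      refine lintegral_congr fun x => ?_
      rw [ofReal_norm]
    rw [e2]
    refine (ENNReal.ofReal_le_ofReal h5).trans ?_
    rw [ENNReal.ofReal_mul (by unfold n2; positivity), ENNReal.ofReal_mul hC.le, ofReal_n2 sg,
      ofReal_sqrt_vol fE]
    rfl
  · intro S
    refine Measurable.aemeasurable ?_
    exact Measurable.biSup _ (Finset.countable_toSet S) fun q _ => (hl_meas mg q).enorm
  · intro S T
    classical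
    refine ⟨S ∪ T, fun x => ?_, fun x => ?_⟩
    · exact biSup_mono fun q hq => Finset.mem_union_left _ hq
    · exact biSup_mono fun q hq => Finset.mem_union_right _ hq

end Pool.Agent.CAR
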