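import Pool.Agent.CAR.STargets
import Pool.Agent.CAR.P_CARL1

set_option autoImplicit false

/-!
# Carleson operator: strong type from the linearised bound
-/

namespace Pool.Agent.CAR

open MeasureTheory Set ComplexConjugate Filter Topology
open scoped ENNReal NNReal

namespace CARS_

open CARL1_

/-- the bound on a set of finite measure, for a measurable choice of `N` -/
theorem core {C : ℝ} (hC : 0 < C)
    (h : ∀ (g b : ℝ → ℂ) (N : ℝ → ℝ) (E : Set ℝ), Dat g b N E →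
      ‖∫ x, b x * ∫ ξ in Iio (N x), g ξ * e1 (x * ξ)‖ ≤ C * n2 g * n2 b)
    {g : ℝ → ℂ} (mg : Measurable g) (ig : Integrable g)
    (sg : Integrable (fun ξ => ‖g ξ‖ ^ 2))
    {N : ℝ → ℝ} (h1 : Measurable N) (h3 : Measurable fun x => hl g (N x) x)
    {E : Set ℝ} (mE : MeasurableSet E) (fE : volume E ≠ ⊤) :
    ∫ x in E, ‖hl g (N x) x‖ ^ 2 ≤ C ^ 2 * n2 g ^ 2 := by
  set M : ℝ := (∫ ξ, ‖g ξ‖) + 1 with hM
  have hM0 : 0 < M := by
    have : 0 ≤ ∫ ξ, ‖g ξ‖ := integral_nonneg fun _ => norm_nonneg _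
    linarith
  have hF : ∀ x, ‖hl g (N x) x‖ ≤ M := fun x => (hl_le ig _ _).trans (by rw [hM]; linarith)
  set b : ℝ → ℂ := E.indicator fun x => conj (hl g (N x) x) / (M : ℂ) with hb
  have mb : Measurable b := by
    refine Measurable.indicator ?_ mE
    exact (Complex.continuous_conj.measurable.comp h3).div_const _
  have nb : ∀ x ∈ E, ‖b x‖ = ‖hl g (N x) x‖ / M := by
    intro x hx
    rw [hb, indicator_of_mem hx, norm_div, RCLike.norm_conj, Complex.norm_real,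
      Real.norm_of_nonneg hM0.le]
  have hD : Dat g b N E := by
    refine ⟨mg, ig, sg, mb, ?_, ?_, h1, mE, fE⟩
    · intro x hx
      rw [nb x hx]
      exact (div_le_one hM0).2 (hF x)
    · intro x hx
      rw [hb, indicator_of_notMem hx]
  have h5 := h g b N E hD
  set I : ℝ := ∫ x in E, ‖hl g (N x) x‖ ^ 2 with hI
  have hI0 : 0 ≤ I := integral_nonneg fun _ => sq_nonneg _
  have e1' : (fun x => b x * ∫ ξ in Iio (N x), g ξ * e1 (x * ξ)) =
      E.indicator fun x => ((‖hl g (N x) x‖ ^ 2 / M : ℝ) : ℂ) := by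
    funext x
    by_cases hx : x ∈ E
    · rw [hb, indicator_of_mem hx, indicator_of_mem hx]
      change conj (hl g (N x) x) / (M : ℂ) * hl g (N x) x = _
      rw [div_mul_eq_mul_div, mul_comm (conj _) (hl g (N x) x), Complex.mul_conj,
        Complex.normSq_eq_norm_sq]
      push_cast
      rfl
    · rw [hb, indicator_of_notMem hx, indicator_of_notMem hx, zero_mul]
  have e2 : ∫ x in E, ‖hl g (N x) x‖ ^ 2 / M = I / M := by
    rw [integral_div]
  have e3 : ∫ x, ‖b x‖ ^ 2 = I / M ^ 2 := by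
    have e : (fun x => ‖b x‖ ^ 2) = E.indicator fun x => ‖hl g (N x) x‖ ^ 2 / M ^ 2 := by
      funext x
      by_cases hx : x ∈ E
      · rw [nb x hx, indicator_of_mem hx, div_pow]
      · rw [hb, indicator_of_notMem hx, indicator_of_notMem hx]
        simp
    rw [e, integral_indicator mE, integral_div]
  have e4 : n2 b = Real.sqrt I / M := by
    rw [n2, e3, Real.sqrt_div hI0, Real.sqrt_sq hM0.le]
  rw [e1', integral_indicator mE, integral_complex_ofReal, Complex.norm_real, e2,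
    Real.norm_of_nonneg (div_nonneg hI0 hM0.le), e4] at h5
  have h6 : I ≤ C * n2 g * Real.sqrt I := by
    have h7 : I / M ≤ (C * n2 g * Real.sqrt I) / M := by
      rw [mul_div_assoc]; exact h5
    exact (div_le_div_iff_of_pos_right hM0).1 h7
  have hn : 0 ≤ n2 g := by unfold n2; positivity
  have h8 : Real.sqrt I ≤ C * n2 g := by
    by_cases h0 : Real.sqrt I = 0
    · rw [h0]; positivity
    · have hp : 0 < Real.sqrt I := lt_of_le_of_ne (Real.sqrt_nonneg _) (Ne.symm h0)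
      have h9 : Real.sqrt I * Real.sqrt I ≤ C * n2 g * Real.sqrt I := by
        rw [Real.mul_self_sqrt hI0]; exact h6
      exact le_of_mul_le_mul_right h9 hp
  calc I = Real.sqrt I ^ 2 := (Real.sq_sqrt hI0).symm
    _ ≤ (C * n2 g) ^ 2 := pow_le_pow_left₀ (Real.sqrt_nonneg _) h8 2
    _ = C ^ 2 * n2 g ^ 2 := by ring

theorem ofReal_n2_sq {g : ℝ → ℂ} (sg : Integrable (fun ξ => ‖g ξ‖ ^ 2)) :
    ENNReal.ofReal (n2 g ^ 2) = ∫⁻ ξ, ‖g ξ‖ₑ ^ 2 := by
  have h0 : 0 ≤ ∫ ξ, ‖g ξ‖ ^ 2 := integral_nonneg fun _ => sq_nonneg _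
  rw [n2, Real.sq_sqrt h0,
    ofReal_integral_eq_lintegral_ofReal sg (ae_of_all _ fun _ => sq_nonneg _)]
  refine lintegral_congr fun ξ => ?_
  rw [ENNReal.ofReal_pow (norm_nonneg _), ofReal_norm]

/-- the bound on a set of finite measure, as a lower integral -/
theorem coreL {C : ℝ} (hC : 0 < C)
    (h : ∀ (g b : ℝ → ℂ) (N : ℝ → ℝ) (E : Set ℝ), Dat g b N E →
      ‖∫ x, b x * ∫ ξ in Iio (N x), g ξ * e1 (x * ξ)‖ ≤ C * n2 g * n2 b)
    {g : ℝ → ℂ} (mg : Measurable g) (ig : Integrable g)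
    (sg : Integrable (fun ξ => ‖g ξ‖ ^ 2))
    {N : ℝ → ℝ} (h1 : Measurable N) (h3 : Measurable fun x => hl g (N x) x)
    {E : Set ℝ} (mE : MeasurableSet E) (fE : volume E ≠ ⊤) :
    ∫⁻ x in E, ‖hl g (N x) x‖ₑ ^ 2 ≤ ENNReal.ofReal (C ^ 2) * ∫⁻ ξ, ‖g ξ‖ₑ ^ 2 := by
  have hi : IntegrableOn (fun x => ‖hl g (N x) x‖ ^ 2) E := by
    refine Measure.integrableOn_of_bounded fE (h3.norm.pow_const 2).aestronglyMeasurable
      (M := (∫ ξ, ‖g ξ‖) ^ 2) (ae_of_all _ fun x => ?_)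
    rw [Real.norm_of_nonneg (sq_nonneg _)]
    exact pow_le_pow_left₀ (norm_nonneg _) (hl_le ig _ _) 2
  have e2 : ∫⁻ x in E, ‖hl g (N x) x‖ₑ ^ 2 =
      ENNReal.ofReal (∫ x in E, ‖hl g (N x) x‖ ^ 2) := by
    rw [ofReal_integral_eq_lintegral_ofReal hi (ae_of_all _ fun _ => sq_nonneg _)]
    refine lintegral_congr fun x => ?_
    rw [ENNReal.ofReal_pow (norm_nonneg _), ofReal_norm]
  rw [e2, ← ofReal_n2_sq sg, ← ENNReal.ofReal_mul (sq_nonneg C)]
  exact ENNReal.ofReal_le_ofReal (core hC h mg ig sg h1 h3 mE fE)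

/-- the bound on the whole line -/
theorem coreW {C : ℝ} (hC : 0 < C)
    (h : ∀ (g b : ℝ → ℂ) (N : ℝ → ℝ) (E : Set ℝ), Dat g b N E →
      ‖∫ x, b x * ∫ ξ in Iio (N x), g ξ * e1 (x * ξ)‖ ≤ C * n2 g * n2 b)
    {g : ℝ → ℂ} (mg : Measurable g) (ig : Integrable g)
    (sg : Integrable (fun ξ => ‖g ξ‖ ^ 2))
    {N : ℝ → ℝ} (h1 : Measurable N) (h3 : Measurable fun x => hl g (N x) x) :
    ∫⁻ x, ‖hl g (N x) x‖ₑ ^ 2 ≤ ENNReal.ofReal (C ^ 2) * ∫⁻ ξ, ‖g ξ‖ₑ ^ 2 := by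
  have hc : AECover (volume : Measure ℝ) atTop (fun R : ℝ => Icc (-R) R) :=
    aecover_Icc tendsto_neg_atTop_atBot tendsto_id
  have ht := hc.lintegral_tendsto_of_countably_generated
    (f := fun x => ‖hl g (N x) x‖ₑ ^ 2) (h3.enorm.pow_const 2).aemeasurable
  refine le_of_tendsto' ht fun R => ?_
  exact coreL hC h mg ig sg h1 h3 measurableSet_Icc (by simp)

theorem sq_iSup {ι : Type} (f : ι → ℝ≥0∞) : (⨆ i, f i) ^ 2 = ⨆ i, f i ^ 2 := by
  refine Monotone.map_iSup_of_continuousAt (f := fun t : ℝ≥0∞ => t ^ 2) ?_ ?_ ?_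
  · exact (ENNReal.continuous_pow 2).continuousAt
  · intro a b hab
    exact pow_le_pow_left' hab 2
  · simp

end CARS_

open CARL1_ CARS_ in
/-- **CARS** -/
theorem p_CARS : T_CARS := by
  rintro ⟨C, hC, h⟩
  refine ⟨(C ^ 2).toNNReal, fun g mg ig sg => ?_⟩
  have e0 : (fun x => (⨆ n : ℝ, ‖∫ ξ in Iio n, g ξ * e1 (x * ξ)‖ₑ) ^ 2) =
      fun x => ⨆ S : Finset ℚ, (⨆ q ∈ S, ‖hl g q x‖ₑ) ^ 2 := by
    funext x
    have := hl_iSup mg ig x
    unfold hl at this
    rw [this, iSup_eq_iSup_finset, sq_iSup]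
    rfl
  rw [e0, lintegral_iSup_directed]
  · refine iSup_le fun S => ?_
    obtain ⟨N, h1, h2, h3, h4⟩ := hl_sel mg S
    refine (lintegral_mono fun x => pow_le_pow_left' (h4 x) 2).trans ?_
    exact coreW hC h mg ig sg h1 h3
  · intro S
    refine Measurable.aemeasurable ?_
    exact (Measurable.biSup _ (Finset.countable_toSet S) fun q _ =>
      (hl_meas mg q).enorm).pow_const 2
  · intro S T
    classical
    refine ⟨S ∪ T, fun x => ?_, fun x => ?_⟩
    · exact pow_le_pow_left' (biSup_mono fun q hq => Finset.mem_union_left _ hq) 2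
    · exact pow_le_pow_left' (biSup_mono fun q hq => Finset.mem_union_right _ hq) 2

end Pool.Agent.CAR
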