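import Pool.Agent.CAR.ITargets

set_option autoImplicit false

/-!
# Carleson: average over the dilations and the limit `K → ∞` (target LIM)
-/

namespace Pool.Agent.CAR

open MeasureTheory Set ComplexConjugate Filter Topology
open scoped ENNReal NNReal

namespace LIM_

/-- the sum over the scales -/
noncomputable def S (ρ : ℝ → ℝ) (K : ℕ) (κ a : ℝ) : ℝ :=
  ∑ k ∈ Finset.Icc (-(K : ℤ)) K, Bt ρ ((2 : ℝ) ^ κ * (2 : ℝ) ^ k) a

theorem norm_e1 (x : ℝ) : ‖e1 x‖ = 1 := by
  unfold e1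
  rw [Complex.norm_exp]
  have : (2 * (Real.pi : ℂ) * Complex.I * (x : ℂ)).re = 0 := by
    simp [Complex.mul_re, Complex.mul_im]
  rw [this, Real.exp_zero]

theorem cont_e1 : Continuous e1 := by
  unfold e1
  fun_prop

theorem cont_Bt {ρ : ℝ → ℝ} (h : Continuous ρ) :
    Continuous (fun q : ℝ × ℝ => Bt ρ q.1 q.2) := by
  unfold Bt
  refine intervalIntegral.continuous_parametric_intervalIntegral_of_continuous' ?_ _ _
  fun_prop

theorem bd_rho {A : ℝ} {ρ : ℝ → ℝ} (h : Bmp A ρ) : ∃ M : ℝ, 0 ≤ M ∧ ∀ x, ρ x ^ 2 ≤ M := by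
  obtain ⟨M, hM⟩ := (isCompact_Icc (a := (1 / 8 : ℝ)) (b := 3 / 8)).exists_bound_of_continuousOn
    (h.cont.pow 2).continuousOn
  refine ⟨max M 0, le_max_right _ _, fun x => ?_⟩
  by_cases hx : ρ x = 0
  · rw [hx]; simp
  · have := hM x (h.supp x hx)
    rw [Real.norm_eq_abs] at this
    exact (le_abs_self _).trans (this.trans (le_max_left _ _))

theorem abs_Bt {ρ : ℝ → ℝ} {M : ℝ} (hM : ∀ x, ρ x ^ 2 ≤ M) (t a : ℝ) : |Bt ρ t a| ≤ M := by
  unfold Bt
  have h := intervalIntegral.norm_integral_le_of_norm_le_const (a := (1 / 2 : ℝ)) (b := 1)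
    (f := fun u => ρ (u - t * a) ^ 2) (C := M) (fun x _ => by
      rw [Real.norm_eq_abs, abs_of_nonneg (sq_nonneg _)]
      exact hM _)
  rw [Real.norm_eq_abs] at h
  have h0 : 0 ≤ M := (sq_nonneg _).trans (hM 0)
  have h1 : M * |(1 : ℝ) - 1 / 2| ≤ M := by
    rw [abs_of_pos (by norm_num)]
    linarith
  exact h.trans h1

theorem cont_S {ρ : ℝ → ℝ} (h : Continuous ρ) (K : ℕ) :
    Continuous (fun q : ℝ × ℝ => S ρ K q.1 q.2) := by
  unfold S
  refine continuous_finsetSum _ fun k _ => ?_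
  have h1 : Continuous (fun q : ℝ × ℝ => ((2 : ℝ) ^ q.1 * (2 : ℝ) ^ k, q.2)) := by
    refine Continuous.prodMk (Continuous.mul ?_ continuous_const) continuous_snd
    exact continuous_const.rpow continuous_fst (fun _ => Or.inl (by norm_num))
  exact (cont_Bt h).comp h1

theorem abs_S {ρ : ℝ → ℝ} {M : ℝ} (hM : ∀ x, ρ x ^ 2 ≤ M) (K : ℕ) (κ a : ℝ) :
    |S ρ K κ a| ≤ (Finset.Icc (-(K : ℤ)) K).card * M := by
  unfold S
  calc |∑ k ∈ Finset.Icc (-(K : ℤ)) K, Bt ρ ((2 : ℝ) ^ κ * (2 : ℝ) ^ k) a|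
      ≤ ∑ k ∈ Finset.Icc (-(K : ℤ)) K, |Bt ρ ((2 : ℝ) ^ κ * (2 : ℝ) ^ k) a| :=
        Finset.abs_sum_le_sum_abs _ _
    _ ≤ ∑ _k ∈ Finset.Icc (-(K : ℤ)) K, M := Finset.sum_le_sum fun k _ => abs_Bt hM _ _
    _ = _ := by rw [Finset.sum_const, nsmul_eq_mul]

theorem cont_mK {ρ : ℝ → ℝ} (h : Continuous ρ) (K : ℕ) : Continuous (fun a => mK ρ K a) := by
  unfold mK
  refine intervalIntegral.continuous_parametric_intervalIntegral_of_continuous' ?_ _ _
  have := (cont_S h K).comp (continuous_snd.prodMk continuous_fst : Continuous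
    (fun q : ℝ × ℝ => (q.2, q.1)))
  exact this

section

variable {g b : ℝ → ℂ} {N : ℝ → ℝ} {E : Set ℝ}

theorem int_b (h : Dat g b N E) : Integrable b := by
  have h1 : Integrable (E.indicator fun _ => (1 : ℝ)) :=
    (integrable_indicator_iff h.mE).2 (integrableOn_const h.fE)
  refine h1.mono' h.mb.aestronglyMeasurable (Eventually.of_forall fun x => ?_)
  by_cases hx : x ∈ E
  · rw [indicator_of_mem hx]; exact h.bE x hx
  · rw [indicator_of_notMem hx, h.b0 x hx, norm_zero]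

theorem int_bg (h : Dat g b N E) :
    Integrable (fun p : ℝ × ℝ => b p.1 * g p.2) (volume.prod volume) :=
  (int_b h).mul_prod h.ig

/-- multiplication by a bounded measurable function -/
theorem int_bgh (h : Dat g b N E) {w : ℝ × ℝ → ℂ} (hw : Measurable w) {M : ℝ}
    (hM : ∀ p, ‖w p‖ ≤ M) :
    Integrable (fun p : ℝ × ℝ => b p.1 * (g p.2 * w p)) (volume.prod volume) := by
  have h1 := (int_bg h).bdd_mul (c := M) hw.aestronglyMeasurable (Eventually.of_forall hM)
  refine h1.congr (Eventually.of_forall fun p => ?_)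
  simp only
  ring

/-- the weight, a continuous function of `(x, ξ)` composed with measurable functions -/
theorem meas_w (h : Dat g b N E) {f : ℝ → ℝ} (hf : Measurable f) :
    Measurable (fun p : ℝ × ℝ => (f (N p.1 - p.2) : ℂ) * e1 (p.1 * p.2)) := by
  have h1 : Measurable (fun p : ℝ × ℝ => N p.1 - p.2) :=
    (h.mN.comp measurable_fst).sub measurable_snd
  have h2 : Measurable (fun p : ℝ × ℝ => p.1 * p.2) := measurable_fst.mul measurable_snd
  exact (Complex.measurable_ofReal.comp (hf.comp h1)).mul (cont_e1.measurable.comp h2)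

/-- integration over `x` and `ξ` of a product -/
theorem int2 (h : Dat g b N E) {f : ℝ → ℝ} (hf : Measurable f) {M : ℝ} (hM : ∀ a, |f a| ≤ M) :
    ∫ p : ℝ × ℝ, b p.1 * (g p.2 * ((f (N p.1 - p.2) : ℂ) * e1 (p.1 * p.2)))
      ∂(volume.prod volume) = ∫ x, b x * ∫ ξ, g ξ * (f (N x - ξ) : ℂ) * e1 (x * ξ) := by
  have hb : ∀ p : ℝ × ℝ, ‖(f (N p.1 - p.2) : ℂ) * e1 (p.1 * p.2)‖ ≤ M := by
    intro p
    rw [norm_mul, norm_e1, mul_one, Complex.norm_real]
    exact hM _
  rw [integral_prod _ (int_bgh h (meas_w h hf) hb)]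
  refine integral_congr_ae (Eventually.of_forall fun x => ?_)
  simp only
  rw [← integral_const_mul]
  refine integral_congr_ae (Eventually.of_forall fun ξ => ?_)
  simp only
  ring

/-- one scale integral, with the sum inside -/
theorem sum_in (h : Dat g b N E) {ρ : ℝ → ℝ} (hρ : Continuous ρ) {M : ℝ}
    (hM : ∀ x, ρ x ^ 2 ≤ M) (K : ℕ) (κ x : ℝ) :
    ∫ ξ, g ξ * (S ρ K κ (N x - ξ) : ℂ) * e1 (x * ξ) =
      ∑ k ∈ Finset.Icc (-(K : ℤ)) K,
        ∫ ξ, g ξ * (Bt ρ ((2 : ℝ) ^ κ * (2 : ℝ) ^ k) (N x - ξ) : ℂ) * e1 (x * ξ) := by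
  rw [← integral_finsetSum]
  · refine integral_congr_ae (Eventually.of_forall fun ξ => ?_)
    simp only
    unfold S
    push_cast
    rw [Finset.mul_sum, Finset.sum_mul]
  · intro k _
    have hc : Continuous (fun ξ : ℝ =>
        (Bt ρ ((2 : ℝ) ^ κ * (2 : ℝ) ^ k) (N x - ξ) : ℂ) * e1 (x * ξ)) := by
      refine Continuous.mul (Complex.continuous_ofReal.comp ?_) (cont_e1.comp (by fun_prop))
      have := (cont_Bt hρ).comp (Continuous.prodMk (continuous_const (y := (2 : ℝ) ^ κ *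
        (2 : ℝ) ^ k)) (continuous_const.sub continuous_id' : Continuous fun ξ : ℝ => N x - ξ))
      exact this
    have h1 := h.ig.bdd_mul (c := M) hc.aestronglyMeasurable (Eventually.of_forall fun ξ => by
      rw [norm_mul, norm_e1, mul_one, Complex.norm_real]
      exact abs_Bt hM _ _)
    refine h1.congr (Eventually.of_forall fun ξ => ?_)
    simp only
    ring

/-- Fubini: the average over the dilations -/
theorem avg (h : Dat g b N E) {ρ : ℝ → ℝ} (hρ : Continuous ρ) {M : ℝ}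
    (hM : ∀ x, ρ x ^ 2 ≤ M) {M' : ℝ} (K : ℕ) (hM' : ∀ a, |mK ρ K a| ≤ M') :
    ∫ x, b x * ∫ ξ, g ξ * (mK ρ K (N x - ξ) : ℂ) * e1 (x * ξ) =
      ∫ κ in (0 : ℝ)..1, ∫ x, b x * ∑ k ∈ Finset.Icc (-(K : ℤ)) K,
        ∫ ξ, g ξ * (Bt ρ ((2 : ℝ) ^ κ * (2 : ℝ) ^ k) (N x - ξ) : ℂ) * e1 (x * ξ) := by
  have hS : ∀ κ : ℝ, ∫ x, b x * ∑ k ∈ Finset.Icc (-(K : ℤ)) K,
      ∫ ξ, g ξ * (Bt ρ ((2 : ℝ) ^ κ * (2 : ℝ) ^ k) (N x - ξ) : ℂ) * e1 (x * ξ) =
      ∫ p : ℝ × ℝ, b p.1 * (g p.2 * ((S ρ K κ (N p.1 - p.2) : ℂ) * e1 (p.1 * p.2)))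
        ∂(volume.prod volume) := by
    intro κ
    have hm : Measurable (S ρ K κ) :=
      ((cont_S hρ K).comp (Continuous.prodMk_right κ)).measurable
    rw [int2 h hm (abs_S hM K κ)]
    refine integral_congr_ae (Eventually.of_forall fun x => ?_)
    simp only
    rw [sum_in h hρ hM K κ x]
  simp_rw [hS]
  rw [← int2 h (cont_mK hρ K).measurable hM', intervalIntegral.integral_of_le zero_le_one]
  rw [integral_integral_swap]
  · refine integral_congr_ae (Eventually.of_forall fun p => ?_)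
    simp only
    have h9 : ((mK ρ K (N p.1 - p.2) : ℝ) : ℂ) =
        ∫ a in Ioc (0 : ℝ) 1, ((S ρ K a (N p.1 - p.2) : ℝ) : ℂ) := by
      rw [integral_complex_ofReal]
      unfold mK
      rw [intervalIntegral.integral_of_le zero_le_one]
      rfl
    rw [integral_const_mul, integral_const_mul, integral_mul_const, h9]
  · have h1 : Integrable (fun q : ℝ × (ℝ × ℝ) => (1 : ℂ) * (b q.2.1 * g q.2.2))
        ((volume.restrict (Ioc (0 : ℝ) 1)).prod (volume.prod volume)) :=
      (integrable_const (1 : ℂ)).mul_prod (int_bg h)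
    have hw : Measurable (fun q : ℝ × (ℝ × ℝ) =>
        (S ρ K q.1 (N q.2.1 - q.2.2) : ℂ) * e1 (q.2.1 * q.2.2)) := by
      have h2 : Measurable (fun q : ℝ × (ℝ × ℝ) => N q.2.1 - q.2.2) :=
        (h.mN.comp (measurable_fst.comp measurable_snd)).sub
          (measurable_snd.comp measurable_snd)
      have h3 : Measurable (fun q : ℝ × (ℝ × ℝ) => q.2.1 * q.2.2) :=
        (measurable_fst.comp measurable_snd).mul (measurable_snd.comp measurable_snd)
      exact (Complex.measurable_ofReal.comp ((cont_S hρ K).measurable.comp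
        (measurable_fst.prodMk h2))).mul (cont_e1.measurable.comp h3)
    have h4 := h1.bdd_mul (c := (Finset.Icc (-(K : ℤ)) K).card * M) hw.aestronglyMeasurable
      (Eventually.of_forall fun q => by
        rw [norm_mul, norm_e1, mul_one, Complex.norm_real]
        exact abs_S hM _ _ _)
    refine h4.congr (Eventually.of_forall fun q => ?_)
    simp only [Function.uncurry]
    ring

end

end LIM_

open LIM_ in
/-- **LIM** -/
theorem p_LIM (hW : T_WPEX) (hS : T_SCK) (hB : T_BT) : T_LIM := by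
  obtain ⟨A, ρ, hρ⟩ := hW
  obtain ⟨C, hC0, hC⟩ := hS A ρ hρ
  obtain ⟨c, M', hc, hM', hlim⟩ := hB A ρ hρ
  obtain ⟨M, hM0, hM⟩ := bd_rho hρ
  refine ⟨C / c, by positivity, ?_⟩
  intro g b N E hd
  -- the bound for finite `K`
  have hK : ∀ K : ℕ, ‖∫ p : ℝ × ℝ, b p.1 * (g p.2 * ((mK ρ K (N p.1 - p.2) : ℂ) *
      e1 (p.1 * p.2))) ∂(volume.prod volume)‖ ≤ C * n2 g * Real.sqrt (vol E) := by
    intro K
    rw [int2 hd (cont_mK hρ.cont K).measurable (hM' K), avg hd hρ.cont hM K (hM' K)]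
    have h1 := intervalIntegral.norm_integral_le_of_norm_le_const (a := (0 : ℝ)) (b := 1)
      (f := fun κ => ∫ x, b x * ∑ k ∈ Finset.Icc (-(K : ℤ)) K,
        ∫ ξ, g ξ * (Bt ρ ((2 : ℝ) ^ κ * (2 : ℝ) ^ k) (N x - ξ) : ℂ) * e1 (x * ξ))
      (C := C * n2 g * Real.sqrt (vol E))
      (fun κ _ => hC g b N E hd K ((2 : ℝ) ^ κ) (Real.rpow_pos_of_pos (by norm_num) _))
    simpa using h1
  -- the limit
  have hmeas : Measurable (fun a : ℝ => if 0 < a then c else 0) :=
    Measurable.ite measurableSet_Ioi measurable_const measurable_const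
  have hT := tendsto_integral_of_dominated_convergence (μ := (volume.prod volume : Measure (ℝ × ℝ)))
    (F := fun K : ℕ => fun p : ℝ × ℝ => b p.1 * (g p.2 * ((mK ρ K (N p.1 - p.2) : ℂ) *
      e1 (p.1 * p.2))))
    (f := fun p : ℝ × ℝ => b p.1 * (g p.2 * (((if 0 < N p.1 - p.2 then c else 0 : ℝ) : ℂ) *
      e1 (p.1 * p.2))))
    (fun p => ‖b p.1 * g p.2‖ * M')
    (fun K => ((int_bgh hd (meas_w hd (cont_mK hρ.cont K).measurable) (M := M') (fun p => by
      rw [norm_mul, norm_e1, mul_one, Complex.norm_real]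
      exact hM' K _)).aestronglyMeasurable))
    ((int_bg hd).norm.mul_const M')
    (fun K => Eventually.of_forall fun p => by
      rw [norm_mul, norm_mul, norm_mul, norm_e1, mul_one, Complex.norm_real, norm_mul, mul_assoc]
      have := hM' K (N p.1 - p.2)
      rw [← Real.norm_eq_abs] at this
      gcongr)
    (Eventually.of_forall fun p => by
      refine Tendsto.const_mul _ (Tendsto.const_mul _ (Tendsto.mul_const _ ?_))
      exact (Complex.continuous_ofReal.tendsto _).comp (hlim (N p.1 - p.2)))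
  have hbd := le_of_tendsto hT.norm (Eventually.of_forall hK)
  have hi := int2 hd hmeas (M := c) (fun a => by
    split_ifs
    · rw [abs_of_pos hc]
    · rw [abs_zero]; exact hc.le)
  rw [hi] at hbd
  have hx : ∀ x, ∫ ξ, g ξ * ((if 0 < N x - ξ then c else 0 : ℝ) : ℂ) * e1 (x * ξ) =
      (c : ℂ) * ∫ ξ in Iio (N x), g ξ * e1 (x * ξ) := by
    intro x
    rw [← integral_indicator measurableSet_Iio, ← integral_const_mul]
    refine integral_congr_ae (Eventually.of_forall fun ξ => ?_)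
    simp only
    by_cases h : ξ < N x
    · rw [indicator_of_mem (show ξ ∈ Iio (N x) from h), if_pos (by linarith)]
      ring
    · rw [indicator_of_notMem (show ξ ∉ Iio (N x) from h), if_neg (by linarith)]
      simp
  simp_rw [hx] at hbd
  have h5 : ∫ x, b x * ((c : ℂ) * ∫ ξ in Iio (N x), g ξ * e1 (x * ξ)) =
      (c : ℂ) * ∫ x, b x * ∫ ξ in Iio (N x), g ξ * e1 (x * ξ) := by
    rw [← integral_const_mul]
    refine integral_congr_ae (Eventually.of_forall fun x => ?_)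
    simp only
    ring
  rw [h5, norm_mul, Complex.norm_real, Real.norm_eq_abs, abs_of_pos hc] at hbd
  have h6 : C / c * n2 g * Real.sqrt (vol E) = (C * n2 g * Real.sqrt (vol E)) / c := by ring
  rw [h6, le_div_iff₀ hc, mul_comm]
  exact hbd

end Pool.Agent.CAR
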