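import Pool.Agent.CAR.STargets
import Pool.Agent.CAR.P_LIM

set_option autoImplicit false

/-!
# Carleson, strong type: average over the dilations and the limit `K → ∞` (target LIMS)
-/

namespace Pool.Agent.CAR

open MeasureTheory Set ComplexConjugate Filter Topology
open scoped ENNReal NNReal

open LIM_ in
/-- **LIMS** -/
theorem p_LIMS (hW : T_WPEX) (hS : T_SCKS) (hB : T_BT) : T_LIMS := by
  obtain ⟨A, ρ, hρ⟩ := hW
  obtain ⟨C, hC0, hC⟩ := hS A ρ hρ
  obtain ⟨c, M', hc, hM', hlim⟩ := hB A ρ hρ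
  obtain ⟨M, hM0, hM⟩ := bd_rho hρ
  refine ⟨C / c, by positivity, ?_⟩
  intro g b N E hd
  -- the bound for finite `K`
  have hK : ∀ K : ℕ, ‖∫ p : ℝ × ℝ, b p.1 * (g p.2 * ((mK ρ K (N p.1 - p.2) : ℂ) *
      e1 (p.1 * p.2))) ∂(volume.prod volume)‖ ≤ C * n2 g * n2 b := by
    intro K
    rw [int2 hd (cont_mK hρ.cont K).measurable (hM' K), avg hd hρ.cont hM K (hM' K)]
    have h1 := intervalIntegral.norm_integral_le_of_norm_le_const (a := (0 : ℝ)) (b := 1)
      (f := fun κ => ∫ x, b x * ∑ k ∈ Finset.Icc (-(K : ℤ)) K,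
        ∫ ξ, g ξ * (Bt ρ ((2 : ℝ) ^ κ * (2 : ℝ) ^ k) (N x - ξ) : ℂ) * e1 (x * ξ))
      (C := C * n2 g * n2 b)
      (fun κ _ => hC g b N E hd K ((2 : ℝ) ^ κ) (Real.rpow_pos_of_pos (by norm_num) _))
    simpa using h1
  -- the limit
  have hmeas : Measurable (fun a : ℝ => if 0 < a then c else 0) :=
    Measurable.ite measurableSet_Ioi measurable_const measurable_const
  have hT := tendsto_integral_of_dominated_convergence (μ := (volume.prod volume : Measure (ℝ × ℝ)))
    (F := fun K : ℕ => fun p : ℝ × ℝ => b p.1 * (g p.2 * ((mK ρ K (N p.1 - p.2) : ℂ) *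
      e1 (p.1 * p.2))))
    (f := fun p : ℝ × ℝ => b p.1 * (g p.2 * (((if 0 < N p.1 - p.2 then c else 0 : ℝ) : ℂ) *
      e1 (p.1 * p.2))))
    (fun p => ‖b p.1 * g p.2‖ * M')
    (fun K => ((int_bgh hd (meas_w hd (cont_mK hρ.cont K).measurable) (M := M') (fun p => by
      rw [norm_mul, norm_e1, mul_one, Complex.norm_real]
      exact hM' K _)).aestronglyMeasurable))
    ((int_bg hd).norm.mul_const M')
    (fun K => Eventually.of_forall fun p => by
      rw [norm_mul, norm_mul, norm_mul, norm_e1, mul_one, Complex.norm_real, norm_mul, mul_assoc]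
      have := hM' K (N p.1 - p.2)
      rw [← Real.norm_eq_abs] at this
      gcongr)
    (Eventually.of_forall fun p => by
      refine Tendsto.const_mul _ (Tendsto.const_mul _ (Tendsto.mul_const _ ?_))
      exact (Complex.continuous_ofReal.tendsto _).comp (hlim (N p.1 - p.2)))
  have hbd := le_of_tendsto hT.norm (Eventually.of_forall hK)
  have hi := int2 hd hmeas (M := c) (fun a => by
    split_ifs
    · rw [abs_of_pos hc]
    · rw [abs_zero]; exact hc.le)
  rw [hi] at hbd
  have hx : ∀ x, ∫ ξ, g ξ * ((if 0 < N x - ξ then c else 0 : ℝ) : ℂ) * e1 (x * ξ) =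
      (c : ℂ) * ∫ ξ in Iio (N x), g ξ * e1 (x * ξ) := by
    intro x
    rw [← integral_indicator measurableSet_Iio, ← integral_const_mul]
    refine integral_congr_ae (Eventually.of_forall fun ξ => ?_)
    simp only
    by_cases h : ξ < N x
    · rw [indicator_of_mem (show ξ ∈ Iio (N x) from h), if_pos (by linarith)]
      ring
    · rw [indicator_of_notMem (show ξ ∉ Iio (N x) from h), if_neg (by linarith)]
      simp
  simp_rw [hx] at hbd
  have h5 : ∫ x, b x * ((c : ℂ) * ∫ ξ in Iio (N x), g ξ * e1 (x * ξ)) =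
      (c : ℂ) * ∫ x, b x * ∫ ξ in Iio (N x), g ξ * e1 (x * ξ) := by
    rw [← integral_const_mul]
    refine integral_congr_ae (Eventually.of_forall fun x => ?_)
    simp only
    ring
  rw [h5, norm_mul, Complex.norm_real, Real.norm_eq_abs, abs_of_pos hc] at hbd
  have h6 : C / c * n2 g * n2 b = (C * n2 g * n2 b) / c := by ring
  rw [h6, le_div_iff₀ hc, mul_comm]
  exact hbd

end Pool.Agent.CAR
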