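import Pool.Agent.CAR.ITargets

set_option autoImplicit false

namespace Pool.Agent.CAR

open MeasureTheory Set ComplexConjugate Filter Topology
open scoped ENNReal NNReal

namespace LV_

theorem norm_e1 (x : ℝ) : ‖e1 x‖ = 1 := by
  unfold e1
  rw [show (2 * Real.pi * Complex.I * (x : ℂ)) = ((2 * Real.pi * x : ℝ) : ℂ) * Complex.I by
    push_cast; ring]
  exact Complex.norm_exp_ofReal_mul_I _

theorem e1_add (x y : ℝ) : e1 (x + y) = e1 x * e1 y := by
  unfold e1
  rw [← Complex.exp_add]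
  congr 1
  push_cast
  ring

theorem conj_e1 (x : ℝ) : conj (e1 x) = e1 (-x) := by
  unfold e1
  rw [← Complex.exp_conj]
  congr 1
  have h2 : conj (2 : ℂ) = 2 := Complex.conj_eq_iff_real.mpr ⟨2, by norm_num⟩
  simp only [map_mul, Complex.conj_ofReal, Complex.conj_I, h2]
  push_cast
  ring

theorem e1_zero : e1 0 = 1 := by
  unfold e1
  simp

theorem continuous_e1 : Continuous e1 := by
  unfold e1
  fun_prop

theorem wt_le (x : ℝ) : wt 20 x ≤ (1 + x ^ 2)⁻¹ := by
  unfold wt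
  apply inv_anti₀ (by positivity)
  have h : 1 ≤ 1 + |x| := by linarith [abs_nonneg x]
  calc 1 + x ^ 2 ≤ (1 + |x|) ^ 2 := by nlinarith [abs_nonneg x, sq_abs x]
    _ ≤ (1 + |x|) ^ 20 := pow_le_pow_right₀ h (by norm_num)

theorem integrable_wpk {A : ℝ} {φ Φ : ℝ → ℂ} (h : WPk A φ Φ) : Integrable φ := by
  refine Integrable.mono' ((integrable_inv_one_add_sq).const_mul A) h.cφ.aestronglyMeasurable ?_
  filter_upwards with x
  exact (h.dec x).trans (mul_le_mul_of_nonneg_left (wt_le x) h.pos.le)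

/-- the inner integral over `w` -/
theorem inner_w {A : ℝ} {ρ : ℝ → ℝ} (hρ : Bmp A ρ) (a η : ℝ) :
    ∫ w, e1 (w * η) * pk ρ 0 (a - w) = e1 (a * η) * (ρ η : ℂ) := by
  have h0 := (hρ.wp 0 ⟨le_refl _, zero_le_one⟩).ft η
  have e0 : pkf ρ 0 η = (ρ η : ℂ) := by
    unfold pkf
    rw [zero_mul, neg_zero, e1_zero, mul_one]
  rw [e0] at h0
  rw [h0, ← integral_const_mul, ← integral_sub_left_eq_self (fun x => e1 (a * η) *
    (pk ρ 0 x * e1 (-(x * η)))) volume a]
  congr 1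
  ext w
  have : w * η = a * η + -((a - w) * η) := by ring
  rw [this, e1_add]
  ring

theorem integrable_F {A : ℝ} {ρ : ℝ → ℝ} (hρ : Bmp A ρ) {g : ℝ → ℂ} (hg : Integrable g)
    (t μ a : ℝ) : Integrable (fun p : ℝ × ℝ => g p.1 * ((ρ (t * p.1 - μ) : ℂ) *
      e1 (p.2 * (t * p.1 - μ))) * pk ρ 0 (a - p.2)) (volume.prod volume) := by
  have hφ := integrable_wpk (hρ.wp 0 ⟨le_refl _, zero_le_one⟩)
  have hφ' : Integrable (fun w => pk ρ 0 (a - w)) := hφ.comp_sub_left a
  have h1 : Integrable (fun p : ℝ × ℝ => g p.1 * pk ρ 0 (a - p.2)) (volume.prod volume) :=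
    hg.mul_prod hφ'
  have hc : Continuous (fun p : ℝ × ℝ => (ρ (t * p.1 - μ) : ℂ) * e1 (p.2 * (t * p.1 - μ))) := by
    have h2 := hρ.cont
    have h3 := continuous_e1
    fun_prop
  have hb : ∀ p : ℝ × ℝ, ‖(ρ (t * p.1 - μ) : ℂ) * e1 (p.2 * (t * p.1 - μ))‖ ≤ A := by
    intro p
    rw [norm_mul, norm_e1, mul_one]
    have h4 := (hρ.wp 0 ⟨le_refl _, zero_le_one⟩).bd (t * p.1 - μ)
    unfold pkf at h4
    rwa [norm_mul, norm_e1, mul_one] at h4
  have h5 := h1.bdd_mul (c := A) hc.aestronglyMeasurable (Filter.Eventually.of_forall hb)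
  refine h5.congr (Filter.Eventually.of_forall fun p => ?_)
  simp only
  ring

end LV_

open LV_ in
theorem p_LV : T_LV := by
  intro A ρ hρ g _ hg k m x
  set t : ℝ := (2 : ℝ) ^ k with ht
  have htpos : 0 < t := two_zpow_pos k
  have htinv : (2 : ℝ) ^ (-k) = t⁻¹ := by rw [zpow_neg]
  set c : ℂ := e1 (t⁻¹ * m * x) with hc
  set H : ℝ → ℂ := fun w => (∫ ξ, g ξ * ((ρ (t * ξ - m) : ℂ) * e1 (w * (t * ξ - m))) *
    pk ρ 0 (t⁻¹ * x - w)) * c with hH
  have hF := integrable_F hρ hg t m (t⁻¹ * x)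
  have hHint : Integrable H := (hF.integral_prod_right).mul_const c
  -- the terms
  have hterm : ∀ v : ℝ, ∀ l : ℤ, co (pkf ρ v) g ⟨k, l, m⟩ * fx (pk ρ v) ⟨k, l, m⟩ x =
      H (v + l) := by
    intro v l
    have h1 : co (pkf ρ v) g ⟨k, l, m⟩ = (Real.sqrt t : ℂ) *
        ∫ ξ, g ξ * ((ρ (t * ξ - m) : ℂ) * e1 ((v + l) * (t * ξ - m))) := by
      unfold co
      rw [← integral_const_mul]
      congr 1
      ext ξ
      unfold fr pkf
      simp only [map_mul, Complex.conj_ofReal, conj_e1]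
      rw [← ht]
      have e : (v + (l : ℝ)) * (t * ξ - m) = -(-(v * (t * ξ - m))) + -(-(l * (t * ξ - m))) := by
        ring
      rw [e, e1_add]
      ring
    have h2 : fx (pk ρ v) ⟨k, l, m⟩ x = (Real.sqrt t : ℂ)⁻¹ *
        (pk ρ 0 (t⁻¹ * x - (v + l)) * c) := by
      unfold fx Tile.u
      simp only
      rw [← ht, htinv, hc]
      have e : pk ρ v (t⁻¹ * x - l) = pk ρ 0 (t⁻¹ * x - (v + l)) := by
        unfold pk
        congr 1
        ext ξ
        congr 2
        ring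
      rw [e]
      push_cast
      ring
    have hs : (Real.sqrt t : ℂ) ≠ 0 := by
      have := Real.sqrt_pos.mpr htpos
      exact_mod_cast this.ne'
    rw [h1, h2, hH]
    simp only
    rw [integral_mul_const, mul_mul_mul_comm, mul_inv_cancel₀ hs, one_mul, mul_assoc]
  -- exchange of the sum and the integral
  have hsum : ∫ v in (0 : ℝ)..1, ∑' l : ℤ, co (pkf ρ v) g ⟨k, l, m⟩ *
      fx (pk ρ v) ⟨k, l, m⟩ x = ∫ w, H w := by
    have e1' : ∀ v : ℝ, ∑' l : ℤ, co (pkf ρ v) g ⟨k, l, m⟩ * fx (pk ρ v) ⟨k, l, m⟩ x =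
        ∑' l : ℤ, H (v + l) := fun v => tsum_congr fun l => hterm v l
    simp_rw [e1']
    rw [intervalIntegral.integral_of_le zero_le_one]
    have hs1 := hHint.hasSum_intervalIntegral_comp_add_int
    have hs2 := hHint.norm.hasSum_intervalIntegral_comp_add_int
    have hi : ∀ l : ℤ, Integrable (fun v => H (v + l)) (volume.restrict (Ioc 0 1)) :=
      fun l => (hHint.comp_add_right (l : ℝ)).restrict
    have hs3 := hasSum_integral_of_summable_integral_norm hi (by
      have := hs2.summable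
      refine this.congr fun l => ?_
      rw [intervalIntegral.integral_of_le zero_le_one])
    have hs4 : HasSum (fun l : ℤ => ∫ v in Ioc (0 : ℝ) 1, H (v + l)) (∫ w, H w) := by
      have e2 : (fun l : ℤ => ∫ v in (0 : ℝ)..1, H (v + l)) =
          fun l : ℤ => ∫ v in Ioc (0 : ℝ) 1, H (v + l) := by
        ext l
        rw [intervalIntegral.integral_of_le zero_le_one]
      rw [e2] at hs1
      exact hs1
    exact hs3.unique hs4
  rw [hsum, hH]
  -- Fubini
  have hsw := integral_integral_swap (f := fun (w ξ : ℝ) => g ξ * ((ρ (t * ξ - m) : ℂ) *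
    e1 (w * (t * ξ - m))) * pk ρ 0 (t⁻¹ * x - w)) (μ := volume) (ν := volume) hF.swap
  rw [integral_mul_const, hsw, ← integral_mul_const]
  congr 1
  ext ξ
  have h3 : ∫ w, g ξ * ((ρ (t * ξ - m) : ℂ) * e1 (w * (t * ξ - m))) * pk ρ 0 (t⁻¹ * x - w) =
      g ξ * (ρ (t * ξ - m) : ℂ) * (e1 (t⁻¹ * x * (t * ξ - m)) * (ρ (t * ξ - m) : ℂ)) := by
    rw [← inner_w hρ, ← integral_const_mul]
    congr 1
    ext w
    ring
  rw [h3, hc]
  have e : x * ξ = t⁻¹ * x * (t * ξ - m) + t⁻¹ * m * x := by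
    field_simp
    ring
  rw [e, e1_add]
  push_cast
  ring

end Pool.Agent.CAR
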