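import Pool.Agent.CAR.STargets

set_option autoImplicit false

/-!
# SCKS: all dilations, by scaling (strong form)
-/

namespace Pool.Agent.CAR

open MeasureTheory Set ComplexConjugate Filter Topology
open scoped ENNReal NNReal

namespace SCKS_

theorem bt_mul (ρ : ℝ → ℝ) (r t a : ℝ) : Bt ρ (r * t) a = Bt ρ t (r * a) := by
  unfold Bt
  refine intervalIntegral.integral_congr fun u _ => ?_
  show ρ (u - r * t * a) ^ 2 = ρ (u - t * (r * a)) ^ 2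
  rw [show r * t * a = t * (r * a) by ring]

theorem dat {g b : ℝ → ℂ} {N : ℝ → ℝ} {E : Set ℝ} (h : Dat g b N E) {r : ℝ} (hr : 0 < r) :
    Dat (fun ξ => g (ξ / r)) (fun x => b (r * x)) (fun x => r * N (r * x))
      ((fun x => r * x) ⁻¹' E) := by
  have hm : Measurable (fun x : ℝ => r * x) := measurable_const_mul r
  refine ⟨?_, ?_, ?_, ?_, ?_, ?_, ?_, ?_, ?_⟩
  · exact h.mg.comp (measurable_id.div_const r)
  · exact h.ig.comp_div hr.ne'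
  · exact h.sg.comp_div hr.ne'
  · exact h.mb.comp hm
  · intro x hx
    exact h.bE _ hx
  · intro x hx
    exact h.b0 _ hx
  · exact (h.mN.comp hm).const_mul r
  · exact hm h.mE
  · rw [Real.volume_preimage_mul_left hr.ne']
    exact ENNReal.mul_ne_top ENNReal.ofReal_ne_top h.fE

theorem n2_eq (g : ℝ → ℂ) {r : ℝ} (hr : 0 < r) :
    n2 (fun ξ => g (ξ / r)) = Real.sqrt r * n2 g := by
  unfold n2
  rw [Measure.integral_comp_div (fun ξ => ‖g ξ‖ ^ 2) r, abs_of_pos hr, smul_eq_mul,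
    Real.sqrt_mul hr.le]

theorem n2b_eq (b : ℝ → ℂ) {r : ℝ} (hr : 0 < r) :
    n2 (fun x => b (r * x)) = (Real.sqrt r)⁻¹ * n2 b := by
  unfold n2
  rw [Measure.integral_comp_mul_left (fun x => ‖b x‖ ^ 2) r, abs_of_pos (inv_pos.2 hr),
    smul_eq_mul, Real.sqrt_mul (inv_pos.2 hr).le, Real.sqrt_inv]

theorem inner (ρ : ℝ → ℝ) (g : ℝ → ℂ) {r : ℝ} (hr : 0 < r) (t n x : ℝ) :
    ∫ ξ, g (ξ / r) * (Bt ρ t (r * n - ξ) : ℂ) * e1 (x * ξ) =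
      (r : ℂ) * ∫ ξ, g ξ * (Bt ρ (r * t) (n - ξ) : ℂ) * e1 (r * x * ξ) := by
  have h := Measure.integral_comp_div
    (fun ξ => g ξ * (Bt ρ (r * t) (n - ξ) : ℂ) * e1 (r * x * ξ)) r
  rw [abs_of_pos hr, Complex.real_smul] at h
  rw [← h]
  refine integral_congr_ae (Eventually.of_forall fun ξ => ?_)
  show g (ξ / r) * (Bt ρ t (r * n - ξ) : ℂ) * e1 (x * ξ) =
    g (ξ / r) * (Bt ρ (r * t) (n - ξ / r) : ℂ) * e1 (r * x * (ξ / r))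
  rw [bt_mul]
  have e1' : r * (n - ξ / r) = r * n - ξ := by field_simp
  have e2' : r * x * (ξ / r) = x * ξ := by field_simp
  rw [e1', e2']

end SCKS_

/-- **SCKS** -/
theorem p_SCKS (hA : T_AVBS) : T_SCKS := by
  intro A ρ hρ
  obtain ⟨C, hC, h⟩ := hA A ρ hρ
  refine ⟨C, hC, ?_⟩
  intro g b N E hd K r hr
  have h1 := h _ _ _ _ (SCKS_.dat hd hr) K
  have e1' : C * n2 (fun ξ => g (ξ / r)) * n2 (fun x => b (r * x)) = C * n2 g * n2 b := by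
    rw [SCKS_.n2_eq g hr, SCKS_.n2b_eq b hr]
    have : Real.sqrt r ≠ 0 := (Real.sqrt_pos.2 hr).ne'
    field_simp
  rw [e1'] at h1
  refine le_trans (le_of_eq ?_) h1
  congr 1
  have e2' := Measure.integral_comp_mul_left
    (fun x => b x * ∑ k ∈ Finset.Icc (-(K : ℤ)) K,
      (r : ℂ) * ∫ ξ, g ξ * (Bt ρ (r * (2 : ℝ) ^ k) (N x - ξ) : ℂ) * e1 (x * ξ)) r
  rw [abs_of_pos (inv_pos.2 hr), Complex.real_smul] at e2'
  have e3 : (fun x => b x * ∑ k ∈ Finset.Icc (-(K : ℤ)) K,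
      (r : ℂ) * ∫ ξ, g ξ * (Bt ρ (r * (2 : ℝ) ^ k) (N x - ξ) : ℂ) * e1 (x * ξ)) =
      fun x => (r : ℂ) * (b x * ∑ k ∈ Finset.Icc (-(K : ℤ)) K,
        ∫ ξ, g ξ * (Bt ρ (r * (2 : ℝ) ^ k) (N x - ξ) : ℂ) * e1 (x * ξ)) := by
    funext x
    rw [← Finset.mul_sum]
    ring
  rw [e3, integral_const_mul] at e2'
  have e4 : ((r⁻¹ : ℝ) : ℂ) * ((r : ℂ) * ∫ x, b x * ∑ k ∈ Finset.Icc (-(K : ℤ)) K,
      ∫ ξ, g ξ * (Bt ρ (r * (2 : ℝ) ^ k) (N x - ξ) : ℂ) * e1 (x * ξ)) =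
      ∫ x, b x * ∑ k ∈ Finset.Icc (-(K : ℤ)) K,
        ∫ ξ, g ξ * (Bt ρ (r * (2 : ℝ) ^ k) (N x - ξ) : ℂ) * e1 (x * ξ) := by
    rw [← mul_assoc, ← Complex.ofReal_mul, inv_mul_cancel₀ hr.ne', Complex.ofReal_one, one_mul]
  rw [e4] at e2'
  rw [← e2']
  refine integral_congr_ae (Eventually.of_forall fun x => ?_)
  show b (r * x) * ∑ k ∈ Finset.Icc (-(K : ℤ)) K,
      (r : ℂ) * ∫ ξ, g ξ * (Bt ρ (r * (2 : ℝ) ^ k) (N (r * x) - ξ) : ℂ) * e1 (r * x * ξ) =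
    b (r * x) * ∑ k ∈ Finset.Icc (-(K : ℤ)) K,
      ∫ ξ, g (ξ / r) * (Bt ρ ((2 : ℝ) ^ k) (r * N (r * x) - ξ) : ℂ) * e1 (x * ξ)
  congr 1
  refine Finset.sum_congr rfl fun k _ => ?_
  rw [SCKS_.inner ρ g hr]

end Pool.Agent.CAR
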