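import Pool.Agent.CAR.ITargets

set_option autoImplicit false

/-!
# CAR: uniform distribution of `frac(a - n θ)`
-/

namespace Pool.Agent.CAR

open MeasureTheory Set Filter Topology

namespace TH_

theorem per (h : ℝ → ℂ) : Function.Periodic (fun s : ℝ => h (Int.fract s)) 1 := by
  intro s
  change h (Int.fract (s + 1)) = h (Int.fract s)
  rw [Int.fract_add_one]

theorem ii {h : ℝ → ℂ} (hm : Measurable h) (hb : ∃ C, ∀ u, ‖h u‖ ≤ C) (g : ℝ → ℝ)
    (hg : Measurable g) (x y : ℝ) :
    IntervalIntegrable (fun s : ℝ => h (Int.fract (g s))) volume x y := by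
  obtain ⟨C, hC⟩ := hb
  have h1 : Measurable fun s : ℝ => h (Int.fract (g s)) := hm.comp (measurable_fract.comp hg)
  refine (intervalIntegrable_const (c := C)).mono_fun' h1.aestronglyMeasurable ?_
  exact Filter.Eventually.of_forall fun s => hC _

end TH_

open TH_

theorem p_TH : T_TH := by
  intro h a n hn hm hb
  have hn0 : (n : ℝ) ≠ 0 := by
    have : (1 : ℝ) ≤ n := by exact_mod_cast hn
    linarith
  have hF : Function.Periodic (fun t : ℝ => h (Int.fract (a - t))) 1 := by
    intro t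
    change h (Int.fract (a - (t + 1))) = h (Int.fract (a - t))
    have e : a - t = a - (t + 1) + 1 := by ring
    rw [e, Int.fract_add_one]
  have h1 : ∫ θ in (0 : ℝ)..1, h (Int.fract (a - n * θ)) =
      (n : ℝ)⁻¹ • ∫ t in (n : ℝ) * 0..(n : ℝ) * 1, h (Int.fract (a - t)) :=
    intervalIntegral.integral_comp_mul_left (fun t : ℝ => h (Int.fract (a - t))) hn0
  have h2 := hF.intervalIntegral_add_zsmul_eq (n : ℤ) 0
    (fun x y => ii hm hb (fun t => a - t) (by fun_prop) x y)
  rw [zero_add, zero_add] at h2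
  have e2 : ((n : ℤ) • (1 : ℝ)) = (n : ℝ) * 1 := by
    rw [zsmul_eq_mul]
    norm_cast
  rw [e2] at h2
  rw [h1, mul_zero, h2]
  have h3 : ∫ t in (0 : ℝ)..1, h (Int.fract (a - t)) = ∫ s in (a - 1)..(a - 0), h (Int.fract s) :=
    intervalIntegral.integral_comp_sub_left (fun s : ℝ => h (Int.fract s)) a
  have h4 := (per h).intervalIntegral_add_eq (a - 1) 0
  rw [zero_add, sub_add_cancel] at h4
  rw [h3, sub_zero, h4]
  have h5 : ∫ s in (0 : ℝ)..1, h (Int.fract s) = ∫ u in (0 : ℝ)..1, h u := by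
    rw [intervalIntegral.integral_of_le zero_le_one, intervalIntegral.integral_of_le zero_le_one,
      integral_Ioc_eq_integral_Ioo, integral_Ioc_eq_integral_Ioo]
    refine setIntegral_congr_fun measurableSet_Ioo fun s hs => ?_
    rw [Int.fract_eq_self.2 ⟨hs.1.le, hs.2⟩]
  rw [h5]
  rw [natCast_zsmul, ← Nat.cast_smul_eq_nsmul ℝ, smul_smul, inv_mul_cancel₀ hn0, one_smul]

end Pool.Agent.CAR
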