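import Pool.Agent.CAR.ITargets

set_option autoImplicit false

/-!
# CAR: existence of the wave packets
-/

namespace Pool.Agent.CAR

open MeasureTheory Set ComplexConjugate Filter Topology
open scoped ENNReal NNReal SchwartzMap FourierTransform ContDiff

namespace WPEX_

theorem e1_add (x y : ℝ) : e1 (x + y) = e1 x * e1 y := by
  unfold e1
  rw [← Complex.exp_add]
  congr 1
  push_cast
  ring

theorem norm_e1 (x : ℝ) : ‖e1 x‖ = 1 := by
  unfold e1
  rw [show (2 * (Real.pi : ℂ) * Complex.I * (x : ℂ)) = ((2 * Real.pi * x : ℝ) : ℂ) * Complex.I by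
    push_cast; ring]
  exact Complex.norm_exp_ofReal_mul_I _

theorem continuous_e1 : Continuous e1 := by
  unfold e1
  fun_prop

/-- the bump -/
noncomputable def bp : ContDiffBump (1 / 4 : ℝ) := ⟨1 / 16, 1 / 8, by norm_num, by norm_num⟩

/-- complex valued -/
noncomputable def bc (x : ℝ) : ℂ := ((bp x : ℝ) : ℂ)

theorem bc_smooth : ContDiff ℝ ∞ bc := by
  unfold bc
  exact Complex.ofRealCLM.contDiff.comp bp.contDiff

theorem bc_cpt : HasCompactSupport bc := by
  have h : HasCompactSupport (bp : ℝ → ℝ) := bp.hasCompactSupport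
  exact h.comp_left (g := fun r : ℝ => (r : ℂ)) (by simp)

/-- as a Schwartz function -/
noncomputable def bS : 𝓢(ℝ, ℂ) := bc_cpt.toSchwartzMap bc_smooth

theorem bS_apply (x : ℝ) : bS x = ((bp x : ℝ) : ℂ) := rfl

/-- the inverse Fourier transform -/
noncomputable def ph : 𝓢(ℝ, ℂ) := 𝓕⁻ bS

theorem ph_apply (x : ℝ) : ph x = ∫ ξ, ((bp ξ : ℝ) : ℂ) * e1 (x * ξ) := by
  have h : (ph : ℝ → ℂ) = 𝓕⁻ (bS : ℝ → ℂ) := SchwartzMap.fourierInv_coe bS
  rw [h, Real.fourierInv_eq']
  refine integral_congr_ae (Eventually.of_forall fun ξ => ?_)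
  simp only [bS_apply, smul_eq_mul]
  rw [mul_comm]
  congr 1
  unfold e1
  congr 1
  simp only [RCLike.inner_apply, conj_trivial]
  push_cast
  ring

theorem ph_inv (ξ : ℝ) : ((bp ξ : ℝ) : ℂ) = ∫ x, ph x * e1 (-(x * ξ)) := by
  have h1 : 𝓕 ph = bS := by
    unfold ph
    exact FourierTransform.fourier_fourierInv_eq bS
  have h2 : 𝓕 (ph : ℝ → ℂ) = (bS : ℝ → ℂ) := by
    rw [← SchwartzMap.fourier_coe, h1]
  have h3 := congrFun h2 ξ
  rw [Real.fourier_eq'] at h3
  rw [← bS_apply, ← h3]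
  refine integral_congr_ae (Eventually.of_forall fun x => ?_)
  simp only [smul_eq_mul]
  rw [mul_comm]
  congr 1
  unfold e1
  congr 1
  simp only [RCLike.inner_apply, conj_trivial]
  push_cast
  ring

theorem pk_eq (v x : ℝ) : pk (fun ξ => bp ξ) v x = ph (x - v) := by
  unfold pk
  rw [ph_apply]

theorem ph_dec : ∃ C : ℝ, 0 < C ∧ ∀ x, ‖ph x‖ ≤ C * wt 20 x := by
  have h := SchwartzMap.one_add_le_sup_seminorm_apply (𝕜 := ℂ) (m := (20, 0)) (k := 20) (n := 0)
    le_rfl le_rfl ph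
  set C : ℝ := 2 ^ 20 * (Finset.Iic ((20, 0) : ℕ × ℕ)).sup
    (fun m => SchwartzMap.seminorm ℂ m.1 m.2) ph with hC
  have hC0 : 0 ≤ C := by positivity
  refine ⟨C + 1, by linarith, fun x => ?_⟩
  have h1 := h x
  rw [norm_iteratedFDeriv_zero, Real.norm_eq_abs] at h1
  have hp : 0 < (1 + |x|) ^ 20 := by positivity
  unfold wt
  rw [← div_eq_mul_inv, le_div_iff₀ hp]
  calc ‖ph x‖ * (1 + |x|) ^ 20 = (1 + |x|) ^ 20 * ‖ph x‖ := by ring
    _ ≤ C := h1
    _ ≤ C + 1 := by linarith

theorem wt_shift {v x : ℝ} (hv : v ∈ Icc (0 : ℝ) 1) : wt 20 (x - v) ≤ 2 ^ 20 * wt 20 x := by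
  unfold wt
  have h0 : 1 + |x| ≤ 2 * (1 + |x - v|) := by
    have h1 : |x| ≤ |x - v| + |v| := by
      have := abs_add_le (x - v) v
      simpa using this
    have h2 : |v| ≤ 1 := by
      rw [abs_of_nonneg hv.1]; exact hv.2
    have h3 := abs_nonneg (x - v)
    linarith
  have h1 : (1 + |x|) ^ 20 ≤ 2 ^ 20 * (1 + |x - v|) ^ 20 := by
    rw [← mul_pow]
    exact pow_le_pow_left₀ (by positivity) h0 20
  have hp : 0 < (1 + |x|) ^ 20 := by positivity
  have hq : 0 < (1 + |x - v|) ^ 20 := by positivity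
  rw [← div_eq_mul_inv, inv_eq_one_div, div_le_div_iff₀ hq hp, one_mul]
  exact h1

end WPEX_

open WPEX_ in
theorem p_WPEX : T_WPEX := by
  obtain ⟨C, hC, hdec⟩ := ph_dec
  have hA1 : (1 : ℝ) ≤ 2 ^ 20 * C + 1 := by
    have : 0 < 2 ^ 20 * C := by positivity
    linarith
  have hsupp : ∀ ξ, bp ξ ≠ 0 → ξ ∈ Icc (1 / 8 : ℝ) (3 / 8) := by
    intro ξ h
    have h1 : ξ ∈ Function.support (bp : ℝ → ℝ) := h
    rw [bp.support_eq, Metric.mem_ball, Real.dist_eq, abs_lt] at h1
    have hr : bp.rOut = 1 / 8 := rfl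
    rw [hr] at h1
    constructor <;> linarith [h1.1, h1.2]
  refine ⟨2 ^ 20 * C + 1, fun ξ => bp ξ, ?_, hsupp, ?_, ?_⟩
  · exact bp.continuous
  · refine ⟨1 / 4, ?_⟩
    have : bp (1 / 4 : ℝ) = 1 := by
      apply bp.one_of_mem_closedBall
      rw [Metric.mem_closedBall, dist_self]
      exact bp.rIn_pos.le
    rw [this]
    exact one_ne_zero
  · intro v hv
    refine ⟨by linarith, ?_, ?_, ?_, ?_, ?_, ?_, ?_⟩
    · have h : pk (fun ξ => bp ξ) v = fun x => ph (x - v) := funext fun x => pk_eq v x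
      rw [h]
      exact ph.continuous.comp (by fun_prop)
    · unfold pkf
      exact (Complex.continuous_ofReal.comp bp.continuous).mul
        (continuous_e1.comp (by fun_prop))
    · intro ξ h
      apply hsupp
      intro h0
      apply h
      unfold pkf
      simp [h0]
    · intro ξ
      unfold pkf
      rw [norm_mul, norm_e1, mul_one, Complex.norm_real, Real.norm_eq_abs,
        abs_of_nonneg bp.nonneg]
      exact bp.le_one.trans hA1
    · intro x
      rw [pk_eq]
      have hw : 0 ≤ wt 20 x := by unfold wt; positivity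
      calc ‖ph (x - v)‖ ≤ C * wt 20 (x - v) := hdec _
        _ ≤ C * (2 ^ 20 * wt 20 x) := mul_le_mul_of_nonneg_left (wt_shift hv) hC.le
        _ ≤ (2 ^ 20 * C + 1) * wt 20 x := by nlinarith
    · intro x
      unfold pk pkf
      refine integral_congr_ae (Eventually.of_forall fun ξ => ?_)
      simp only
      rw [mul_assoc, ← e1_add]
      congr 2
      ring
    · intro ξ
      unfold pkf
      rw [ph_inv ξ, ← integral_mul_const, ← integral_sub_right_eq_self
        (fun x => ph x * e1 (-(x * ξ)) * e1 (-(v * ξ))) v]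
      refine integral_congr_ae (Eventually.of_forall fun x => ?_)
      simp only
      rw [pk_eq, mul_assoc, ← e1_add]
      congr 2
      ring

end Pool.Agent.CAR
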