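import Pool.Agent.CAR.ITargets

set_option autoImplicit false

/-!
# Bound and limit of the finite averages (block YN)
-/

namespace Pool.Agent.CAR

open MeasureTheory Set ComplexConjugate Filter Topology
open scoped ENNReal NNReal

namespace YN_

theorem cont_e1 : Continuous e1 := by unfold e1; fun_prop

theorem norm_e1 (x : ℝ) : ‖e1 x‖ = 1 := by
  unfold e1
  have : (2 * Real.pi * Complex.I * (x : ℂ)) = ((2 * Real.pi * x : ℝ) : ℂ) * Complex.I := by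
    push_cast; ring
  rw [this, Complex.norm_exp_ofReal_mul_I]

theorem e1_add (x y : ℝ) : e1 (x + y) = e1 x * e1 y := by
  unfold e1; rw [← Complex.exp_add]; congr 1; push_cast; ring

/-- one term without the indicator -/
noncomputable def X (ρ : ℝ → ℝ) (g : ℝ → ℂ) (K : ℕ) (x : ℝ) (k l m : ℤ) (θ v : ℝ) : ℂ :=
  co (pkf ρ v) (fun ξ => g (ξ + 2 ^ K * θ)) ⟨k, l, m⟩ * (e1 (2 ^ K * θ * x) *
        fx (pk ρ v) ⟨k, l, m⟩ x)

/-- the indicator -/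
noncomputable def ind (K : ℕ) (N : ℝ) (k l m : ℤ) (θ : ℝ) : ℂ :=
  (Tile.up ⟨k, l, m⟩).indicator (fun _ => (1 : ℂ)) (N - 2 ^ K * θ)

theorem meas_co {ρ : ℝ → ℝ} (hρ : Continuous ρ) {g : ℝ → ℂ} (hg : Measurable g) (K : ℕ)
    (s : Tile) :
    StronglyMeasurable
      (fun p : ℝ × ℝ => co (pkf ρ p.2) (fun ξ => g (ξ + 2 ^ K * p.1)) s) := by
  have he := cont_e1
  unfold co fr pkf
  apply StronglyMeasurable.integral_prod_right
  apply Measurable.stronglyMeasurable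
  simp only [Function.uncurry_def]
  apply Measurable.mul
  · exact hg.comp (by fun_prop)
  · refine (Complex.continuous_conj.comp ?_).measurable
    fun_prop

theorem meas_fx {ρ : ℝ → ℝ} (hρ : Continuous ρ) (s : Tile) (x : ℝ) :
    StronglyMeasurable (fun p : ℝ × ℝ => fx (pk ρ p.2) s x) := by
  have he := cont_e1
  unfold fx pk
  apply StronglyMeasurable.mul_const
  apply StronglyMeasurable.const_mul
  apply StronglyMeasurable.integral_prod_right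
  apply Measurable.stronglyMeasurable
  simp only [Function.uncurry_def]
  apply Continuous.measurable
  fun_prop

theorem meas_X {ρ : ℝ → ℝ} (hρ : Continuous ρ) {g : ℝ → ℂ} (hg : Measurable g) (K : ℕ) (x : ℝ)
    (k l m : ℤ) : StronglyMeasurable (fun p : ℝ × ℝ => X ρ g K x k l m p.1 p.2) := by
  unfold X
  refine (meas_co hρ hg K _).mul (StronglyMeasurable.mul ?_ (meas_fx hρ _ x))
  have he := cont_e1
  apply Continuous.stronglyMeasurable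
  fun_prop

theorem meas_ind (K : ℕ) (N : ℝ) (k l m : ℤ) :
    StronglyMeasurable (fun p : ℝ × ℝ => ind K N k l m p.1) := by
  apply Measurable.stronglyMeasurable
  unfold ind
  exact (measurable_const.indicator (measurableSet_dy _ _)).comp (by fun_prop)

theorem co_bound {A : ℝ} {ρ : ℝ → ℝ} (h : Bmp A ρ) {g : ℝ → ℂ} (hi : Integrable g) (c : ℝ)
    {v : ℝ} (hv : v ∈ Icc (0 : ℝ) 1) (s : Tile) :
    ‖co (pkf ρ v) (fun ξ => g (ξ + c)) s‖ ≤ Real.sqrt ((2 : ℝ) ^ s.k) * A * ∫ ξ, ‖g ξ‖ := by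
  have h1 : ∀ ξ, ‖g (ξ + c) * conj (fr (pkf ρ v) s ξ)‖ ≤
      (Real.sqrt ((2 : ℝ) ^ s.k) * A) * ‖g (ξ + c)‖ := by
    intro ξ
    rw [norm_mul, RCLike.norm_conj, mul_comm]
    apply mul_le_mul_of_nonneg_right _ (norm_nonneg _)
    unfold fr
    rw [norm_mul, norm_mul, norm_e1, mul_one, Complex.norm_real, Real.norm_of_nonneg
      (Real.sqrt_nonneg _)]
    exact mul_le_mul_of_nonneg_left ((h.wp v hv).bd _) (Real.sqrt_nonneg _)
  have h2 : Integrable (fun ξ => g (ξ + c)) := hi.comp_add_right c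
  calc ‖co (pkf ρ v) (fun ξ => g (ξ + c)) s‖
      ≤ ∫ ξ, (Real.sqrt ((2 : ℝ) ^ s.k) * A) * ‖g (ξ + c)‖ :=
        norm_integral_le_of_norm_le (h2.norm.const_mul _) (ae_of_all _ h1)
    _ = Real.sqrt ((2 : ℝ) ^ s.k) * A * ∫ ξ, ‖g (ξ + c)‖ := integral_const_mul _ _
    _ = Real.sqrt ((2 : ℝ) ^ s.k) * A * ∫ ξ, ‖g ξ‖ := by
        rw [integral_add_right_eq_self (fun ξ => ‖g ξ‖) c]

theorem fx_bound {A : ℝ} {ρ : ℝ → ℝ} (h : Bmp A ρ) {v : ℝ} (hv : v ∈ Icc (0 : ℝ) 1) (s : Tile)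
    (x : ℝ) : ‖fx (pk ρ v) s x‖ ≤ (Real.sqrt ((2 : ℝ) ^ s.k))⁻¹ * (A * wt 20 (s.u x)) := by
  unfold fx
  rw [norm_mul, norm_mul, norm_e1, mul_one, Complex.norm_real, Real.norm_of_nonneg
      (inv_nonneg.2 (Real.sqrt_nonneg _))]
  exact mul_le_mul_of_nonneg_left ((h.wp v hv).dec _) (inv_nonneg.2 (Real.sqrt_nonneg _))

theorem wt_nonneg (n : ℕ) (t : ℝ) : 0 ≤ wt n t := by
  unfold wt
  have := abs_nonneg t
  positivity

theorem X_bound {A : ℝ} {ρ : ℝ → ℝ} (h : Bmp A ρ) {g : ℝ → ℂ} (hi : Integrable g) (K : ℕ)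
    (x : ℝ) (k l m : ℤ) (θ : ℝ) {v : ℝ} (hv : v ∈ Icc (0 : ℝ) 1) :
    ‖X ρ g K x k l m θ v‖ ≤ (A ^ 2 * ∫ ξ, ‖g ξ‖) * wt 20 ((2 : ℝ) ^ (-k) * x - l) := by
  have hs : 0 < Real.sqrt ((2 : ℝ) ^ k) := Real.sqrt_pos.2 (two_zpow_pos k)
  have hG : 0 ≤ ∫ ξ, ‖g ξ‖ := integral_nonneg fun _ => norm_nonneg _
  have hA : 0 < A := (h.wp v hv).pos
  have h1 := co_bound h hi (2 ^ K * θ) hv ⟨k, l, m⟩
  have h2 := fx_bound h hv ⟨k, l, m⟩ x
  unfold X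
  rw [norm_mul, norm_mul, norm_e1, one_mul]
  calc _ ≤ (Real.sqrt ((2 : ℝ) ^ k) * A * ∫ ξ, ‖g ξ‖) *
        ((Real.sqrt ((2 : ℝ) ^ k))⁻¹ * (A * wt 20 (Tile.u ⟨k, l, m⟩ x))) :=
        mul_le_mul h1 h2 (norm_nonneg _) (by positivity)
    _ = _ := by
        unfold Tile.u
        field_simp

theorem wt_sum : ∃ S : ℝ, 0 ≤ S ∧ (∀ y : ℝ, Summable (fun l : ℤ => wt 20 (y - l))) ∧
    ∀ (y : ℝ) (F : Finset ℤ), ∑ l ∈ F, wt 20 (y - l) ≤ S := by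
  have hs : Summable (fun j : ℤ => 4 * ((1 + |(j : ℝ)|) ^ 2)⁻¹) := by
    apply Summable.mul_left
    have h1 : Summable (fun n : ℕ => ((1 + (n : ℝ)) ^ 2)⁻¹) := by
      have h0 := (summable_nat_add_iff 1).2 (Real.summable_nat_pow_inv.2 (by norm_num : 1 < 2))
      refine h0.congr fun n => ?_
      push_cast
      rw [add_comm]
    apply Summable.of_nat_of_neg
    · refine h1.congr fun n => ?_
      simp
    · refine h1.congr fun n => ?_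
      simp
  have hle : ∀ (y : ℝ) (l : ℤ), wt 20 (y - l) ≤ 4 * ((1 + |((l - ⌊y⌋ : ℤ) : ℝ)|) ^ 2)⁻¹ := by
    intro y l
    have h1 : |((l - ⌊y⌋ : ℤ) : ℝ)| ≤ |y - l| + 1 := by
      have e : ((l - ⌊y⌋ : ℤ) : ℝ) = Int.fract y - (y - l) := by
        rw [← Int.self_sub_floor]; push_cast; ring
      rw [e]
      have h2 := Int.fract_nonneg y
      have h3 := Int.fract_lt_one y
      calc |Int.fract y - (y - l)| ≤ |Int.fract y| + |y - l| := abs_sub _ _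
        _ ≤ |y - l| + 1 := by rw [abs_of_nonneg h2]; linarith
    have h4 := abs_nonneg (y - l)
    have h5 := abs_nonneg ((l - ⌊y⌋ : ℤ) : ℝ)
    have h6 : (1 + |((l - ⌊y⌋ : ℤ) : ℝ)|) ≤ 2 * (1 + |y - l|) := by linarith
    have h7 : (1 + |((l - ⌊y⌋ : ℤ) : ℝ)|) ^ 2 ≤ 4 * (1 + |y - l|) ^ 2 := by
      calc _ ≤ (2 * (1 + |y - l|)) ^ 2 := by gcongr
        _ = _ := by ring
    have h8 : (1 + |y - l|) ^ 2 ≤ (1 + |y - l|) ^ 20 :=
      pow_le_pow_right₀ (by linarith) (by norm_num)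
    unfold wt
    rw [← div_eq_mul_inv, inv_eq_one_div, div_le_div_iff₀ (by positivity) (by positivity)]
    nlinarith
  have hsh : ∀ y : ℝ, Summable (fun l : ℤ => 4 * ((1 + |((l - ⌊y⌋ : ℤ) : ℝ)|) ^ 2)⁻¹) := by
    intro y
    exact (Equiv.subRight (⌊y⌋ : ℤ)).summable_iff.2 hs
  refine ⟨∑' j : ℤ, 4 * ((1 + |(j : ℝ)|) ^ 2)⁻¹, tsum_nonneg fun j => by positivity, ?_, ?_⟩
  · intro y
    exact Summable.of_nonneg_of_le (fun l => wt_nonneg _ _) (hle y) (hsh y)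
  · intro y F
    calc ∑ l ∈ F, wt 20 (y - l) ≤ ∑ l ∈ F, 4 * ((1 + |((l - ⌊y⌋ : ℤ) : ℝ)|) ^ 2)⁻¹ :=
          Finset.sum_le_sum fun l _ => hle y l
      _ ≤ ∑' l : ℤ, 4 * ((1 + |((l - ⌊y⌋ : ℤ) : ℝ)|) ^ 2)⁻¹ :=
          (hsh y).sum_le_tsum F (fun l _ => by positivity)
      _ = _ := (Equiv.subRight (⌊y⌋ : ℤ)).tsum_eq (fun j : ℤ => 4 * ((1 + |(j : ℝ)|) ^ 2)⁻¹)

theorem ind_eq (K : ℕ) (N : ℝ) (k l m : ℤ) (θ : ℝ) :
    ind K N k l m θ = if m = ⌊(2 : ℝ) ^ k * (N - 2 ^ K * θ)⌋ ∧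
      1 / 2 ≤ Int.fract ((2 : ℝ) ^ k * (N - 2 ^ K * θ)) then 1 else 0 := by
  unfold ind
  set y := N - 2 ^ K * θ with hy
  have h0 : y ∈ Tile.up ⟨k, l, m⟩ ↔ m = ⌊(2 : ℝ) ^ k * y⌋ ∧
      1 / 2 ≤ Int.fract ((2 : ℝ) ^ k * y) := by
    unfold Tile.up
    rw [mem_dy_iff]
    have e : (2 : ℝ) ^ (-(-k - 1)) * y = 2 * ((2 : ℝ) ^ k * y) := by
      have : (-(-k - 1)) = k + 1 := by ring
      rw [this, two_zpow_succ]; ring
    simp only
    rw [e]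
    push_cast
    constructor
    · rintro ⟨h1, h2⟩
      have h3 : ⌊(2 : ℝ) ^ k * y⌋ = m := by
        rw [Int.floor_eq_iff]; constructor <;> linarith
      refine ⟨h3.symm, ?_⟩
      rw [← Int.self_sub_floor, h3]; linarith
    · rintro ⟨h1, h2⟩
      have h3 := Int.floor_add_fract ((2 : ℝ) ^ k * y)
      have h4 := Int.fract_lt_one ((2 : ℝ) ^ k * y)
      rw [← h1] at h3
      constructor <;> linarith
  by_cases h : y ∈ Tile.up ⟨k, l, m⟩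
  · rw [Set.indicator_of_mem h, if_pos (h0.1 h)]
  · rw [Set.indicator_of_notMem h, if_neg (fun h' => h (h0.2 h'))]

/-- the sum for one scale -/
noncomputable def T (ρ : ℝ → ℝ) (g : ℝ → ℂ) (K : ℕ) (N x : ℝ) (k : ℤ) (n : ℕ) (θ v : ℝ) : ℂ :=
  ∑ l ∈ Finset.Icc (-(n : ℤ)) n, ∑ m ∈ Finset.Icc (-(n : ℤ)) n,
    X ρ g K x k l m θ v * ind K N k l m θ

theorem meas_T {ρ : ℝ → ℝ} (hρ : Continuous ρ) {g : ℝ → ℂ} (hg : Measurable g) (K : ℕ) (N x : ℝ)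
    (k : ℤ) (n : ℕ) : StronglyMeasurable (fun p : ℝ × ℝ => T ρ g K N x k n p.1 p.2) := by
  unfold T
  refine Finset.stronglyMeasurable_fun_sum _ fun l _ => ?_
  refine Finset.stronglyMeasurable_fun_sum _ fun m _ => ?_
  exact (meas_X hρ hg K x k l m).mul (meas_ind K N k l m)

theorem T_eq (ρ : ℝ → ℝ) (g : ℝ → ℂ) (K : ℕ) (N x : ℝ) (k : ℤ) (n : ℕ) (θ v : ℝ) :
    T ρ g K N x k n θ v = if ⌊(2 : ℝ) ^ k * (N - 2 ^ K * θ)⌋ ∈ Finset.Icc (-(n : ℤ)) n ∧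
      1 / 2 ≤ Int.fract ((2 : ℝ) ^ k * (N - 2 ^ K * θ)) then
        ∑ l ∈ Finset.Icc (-(n : ℤ)) n, X ρ g K x k l ⌊(2 : ℝ) ^ k * (N - 2 ^ K * θ)⌋ θ v
      else 0 := by
  unfold T
  simp only [ind_eq]
  by_cases h : 1 / 2 ≤ Int.fract ((2 : ℝ) ^ k * (N - 2 ^ K * θ))
  · simp only [h, and_true, mul_ite, mul_one, mul_zero, Finset.sum_ite_eq']
    split_ifs with h2
    · rfl
    · simp
  · simp only [h, and_false, if_false, mul_zero, Finset.sum_const_zero]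

theorem T_bound {A : ℝ} {ρ : ℝ → ℝ} (h : Bmp A ρ) {g : ℝ → ℂ} (hi : Integrable g) (K : ℕ)
    {S : ℝ} (hS0 : 0 ≤ S) (hS : ∀ (y : ℝ) (F : Finset ℤ), ∑ l ∈ F, wt 20 (y - l) ≤ S)
    (N x : ℝ) (k : ℤ) (n : ℕ) (θ : ℝ) {v : ℝ} (hv : v ∈ Icc (0 : ℝ) 1) :
    ‖T ρ g K N x k n θ v‖ ≤ (A ^ 2 * ∫ ξ, ‖g ξ‖) * S := by
  have hG : 0 ≤ ∫ ξ, ‖g ξ‖ := integral_nonneg fun _ => norm_nonneg _
  rw [T_eq]
  split_ifs
  · calc _ ≤ ∑ l ∈ Finset.Icc (-(n : ℤ)) n, (A ^ 2 * ∫ ξ, ‖g ξ‖) *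
          wt 20 ((2 : ℝ) ^ (-k) * x - l) :=
          norm_sum_le_of_le _ fun l _ => X_bound h hi K x k l _ θ hv
      _ = (A ^ 2 * ∫ ξ, ‖g ξ‖) * ∑ l ∈ Finset.Icc (-(n : ℤ)) n,
          wt 20 ((2 : ℝ) ^ (-k) * x - l) := by rw [Finset.mul_sum]
      _ ≤ _ := mul_le_mul_of_nonneg_left (hS _ _) (by positivity)
  · rw [norm_zero]; positivity

theorem ii_of_bdd {f : ℝ → ℂ} {C : ℝ} (hf : StronglyMeasurable f)
    (hb : ∀ v ∈ Icc (0 : ℝ) 1, ‖f v‖ ≤ C) : IntervalIntegrable f volume 0 1 := by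
  rw [intervalIntegrable_iff_integrableOn_Ioc_of_le zero_le_one]
  refine Measure.integrableOn_of_bounded (M := C) (by simp) hf.aestronglyMeasurable ?_
  exact (ae_restrict_iff' measurableSet_Ioc).2 (ae_of_all _ fun v hv => hb v ⟨hv.1.le, hv.2⟩)

theorem int_bound {f : ℝ → ℂ} {C : ℝ} (hb : ∀ v ∈ Icc (0 : ℝ) 1, ‖f v‖ ≤ C) :
    ‖∫ v in (0 : ℝ)..1, f v‖ ≤ C := by
  have h := intervalIntegral.norm_integral_le_of_norm_le_const (a := 0) (b := 1) (f := f) (C := C)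
    (fun v hv => by
      rw [uIoc_of_le zero_le_one] at hv
      exact hb v ⟨hv.1.le, hv.2⟩)
  simpa using h

theorem meas_int {F : ℝ → ℝ → ℂ} (hF : StronglyMeasurable (fun p : ℝ × ℝ => F p.1 p.2)) :
    StronglyMeasurable (fun θ => ∫ v in (0 : ℝ)..1, F θ v) := by
  simp only [intervalIntegral.integral_of_le zero_le_one]
  exact StronglyMeasurable.integral_prod_right (f := F) hF

theorem dct {F : ℕ → ℝ → ℂ} {f : ℝ → ℂ} {C : ℝ} (hm : ∀ n, StronglyMeasurable (F n))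
    (hb : ∀ n, ∀ v ∈ Icc (0 : ℝ) 1, ‖F n v‖ ≤ C)
    (hl : ∀ v ∈ Icc (0 : ℝ) 1, Tendsto (fun n => F n v) atTop (𝓝 (f v))) :
    Tendsto (fun n => ∫ v in (0 : ℝ)..1, F n v) atTop (𝓝 (∫ v in (0 : ℝ)..1, f v)) := by
  apply intervalIntegral.tendsto_integral_filter_of_dominated_convergence (fun _ => C)
  · exact Eventually.of_forall fun n => (hm n).aestronglyMeasurable
  · refine Eventually.of_forall fun n => ae_of_all _ fun v hv => ?_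
    rw [uIoc_of_le zero_le_one] at hv
    exact hb n v ⟨hv.1.le, hv.2⟩
  · exact intervalIntegrable_const
  · refine ae_of_all _ fun v hv => ?_
    rw [uIoc_of_le zero_le_one] at hv
    exact hl v ⟨hv.1.le, hv.2⟩

theorem meas_T_right {ρ : ℝ → ℝ} (hρ : Continuous ρ) {g : ℝ → ℂ} (hg : Measurable g) (K : ℕ)
    (N x : ℝ) (k : ℤ) (n : ℕ) (θ : ℝ) : StronglyMeasurable (fun v => T ρ g K N x k n θ v) :=
  StronglyMeasurable.comp_measurable (f := fun p : ℝ × ℝ => T ρ g K N x k n p.1 p.2)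
    (g := fun v : ℝ => (θ, v)) (meas_T hρ hg K N x k n) (by fun_prop)

theorem Yn_eq {A : ℝ} {ρ : ℝ → ℝ} (h : Bmp A ρ) {g : ℝ → ℂ} (hg : Measurable g)
    (hi : Integrable g) (K n : ℕ) (N x : ℝ) :
    Yn ρ g K n N x = ∑ k ∈ Finset.Icc (-(K : ℤ)) K,
      ∫ θ in (0 : ℝ)..1, ∫ v in (0 : ℝ)..1, T ρ g K N x k n θ v := by
  obtain ⟨S, hS0, -, hS⟩ := wt_sum
  have e : Yn ρ g K n N x = ∫ θ in (0 : ℝ)..1, ∫ v in (0 : ℝ)..1,
    ∑ k ∈ Finset.Icc (-(K : ℤ)) K, T ρ g K N x k n θ v := rfl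
  rw [e]
  have e1 : ∀ θ, ∫ v in (0 : ℝ)..1, ∑ k ∈ Finset.Icc (-(K : ℤ)) K, T ρ g K N x k n θ v =
      ∑ k ∈ Finset.Icc (-(K : ℤ)) K, ∫ v in (0 : ℝ)..1, T ρ g K N x k n θ v := fun θ =>
    intervalIntegral.integral_finsetSum fun k _ =>
      ii_of_bdd (meas_T_right h.cont hg K N x k n θ)
        (fun v hv => T_bound h hi K hS0 hS N x k n θ hv)
  simp only [e1]
  rw [intervalIntegral.integral_finsetSum]
  intro k _
  exact ii_of_bdd (meas_int (meas_T h.cont hg K N x k n))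
    (fun θ _ => int_bound (fun v hv => T_bound h hi K hS0 hS N x k n θ hv))

/-- the limit function -/
noncomputable def F (ρ : ℝ → ℝ) (g : ℝ → ℂ) (N x : ℝ) (k : ℤ) (u : ℝ) : ℂ :=
  ∫ ξ, g ξ * ((ρ (u - (2 : ℝ) ^ k * (N - ξ)) ^ 2 : ℝ) : ℂ) * e1 (x * ξ)

theorem rho_bd {A : ℝ} {ρ : ℝ → ℝ} (h : Bmp A ρ) (ξ : ℝ) : |ρ ξ| ≤ A := by
  have := (h.wp 0 (by norm_num)).bd ξ
  unfold pkf at this
  rwa [norm_mul, norm_e1, mul_one, Complex.norm_real, Real.norm_eq_abs] at this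

theorem rho_sq {A : ℝ} {ρ : ℝ → ℝ} (h : Bmp A ρ) (ξ : ℝ) : ‖((ρ ξ ^ 2 : ℝ) : ℂ)‖ ≤ A ^ 2 := by
  rw [Complex.norm_real, Real.norm_eq_abs, abs_pow]
  exact pow_le_pow_left₀ (abs_nonneg _) (rho_bd h ξ) 2

theorem F_bound {A : ℝ} {ρ : ℝ → ℝ} (h : Bmp A ρ) {g : ℝ → ℂ}
    (hi : Integrable g) (N x : ℝ) (k : ℤ) (u : ℝ) : ‖F ρ g N x k u‖ ≤ A ^ 2 * ∫ ξ, ‖g ξ‖ := by
  unfold F
  rw [← integral_const_mul]
  apply norm_integral_le_of_norm_le (hi.norm.const_mul _)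
  refine ae_of_all _ fun ξ => ?_
  rw [norm_mul, norm_mul, norm_e1, mul_one, mul_comm]
  exact mul_le_mul_of_nonneg_right (rho_sq h _) (norm_nonneg _)

theorem F_meas2 {ρ : ℝ → ℝ} (hρ : Continuous ρ) {g : ℝ → ℂ} (hg : Measurable g)
    (N x : ℝ) (k : ℤ) : Measurable (fun p : ℝ × ℝ =>
      g p.2 * ((ρ (p.1 - (2 : ℝ) ^ k * (N - p.2)) ^ 2 : ℝ) : ℂ) * e1 (x * p.2)) := by
  have he := cont_e1
  apply Measurable.mul
  · apply Measurable.mul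
    · exact hg.comp measurable_snd
    · apply Continuous.measurable
      fun_prop
  · apply Continuous.measurable
    fun_prop

theorem F_meas {ρ : ℝ → ℝ} (hρ : Continuous ρ) {g : ℝ → ℂ} (hg : Measurable g)
    (N x : ℝ) (k : ℤ) : Measurable (F ρ g N x k) := by
  have h := (F_meas2 hρ hg N x k).stronglyMeasurable
  exact (StronglyMeasurable.integral_prod_right' (ν := volume) h).measurable

theorem limit_v (hLV : T_LV) {A : ℝ} {ρ : ℝ → ℝ} (h : Bmp A ρ) {g : ℝ → ℂ} (hg : Measurable g)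
    (hi : Integrable g) (K : ℕ) (N x : ℝ) (k : ℤ) (θ : ℝ) :
    Tendsto (fun n => ∫ v in (0 : ℝ)..1, T ρ g K N x k n θ v) atTop
      (𝓝 (if 1 / 2 ≤ Int.fract ((2 : ℝ) ^ k * (N - 2 ^ K * θ)) then
        F ρ g N x k (Int.fract ((2 : ℝ) ^ k * (N - 2 ^ K * θ))) else 0)) := by
  obtain ⟨S, hS0, hS1, hS⟩ := wt_sum
  set a := (2 : ℝ) ^ k * (N - 2 ^ K * θ) with ha
  have hpt : ∀ v ∈ Icc (0 : ℝ) 1, Tendsto (fun n => T ρ g K N x k n θ v) atTop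
      (𝓝 (if 1 / 2 ≤ Int.fract a then ∑' l : ℤ, X ρ g K x k l ⌊a⌋ θ v else 0)) := by
    intro v hv
    by_cases hf : 1 / 2 ≤ Int.fract a
    · rw [if_pos hf]
      have hsum : Summable (fun l : ℤ => X ρ g K x k l ⌊a⌋ θ v) :=
        Summable.of_norm_bounded ((hS1 ((2 : ℝ) ^ (-k) * x)).mul_left _)
          (fun l => X_bound h hi K x k l _ θ hv)
      have h1 : Tendsto (fun n : ℕ => ∑ l ∈ Finset.Icc (-(n : ℤ)) n, X ρ g K x k l ⌊a⌋ θ v) atTop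
          (𝓝 (∑' l : ℤ, X ρ g K x k l ⌊a⌋ θ v)) :=
        hsum.hasSum.comp Finset.tendsto_Icc_neg
      refine h1.congr' ?_
      have h2 : ∀ᶠ n : ℕ in atTop, ⌊a⌋ ∈ Finset.Icc (-(n : ℤ)) n := by
        refine eventually_atTop.2 ⟨(⌊a⌋).natAbs, fun n hn => ?_⟩
        rw [Finset.mem_Icc]
        omega
      filter_upwards [h2] with n hn
      rw [T_eq, if_pos ⟨hn, hf⟩]
    · rw [if_neg hf]
      refine tendsto_const_nhds.congr fun n => ?_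
      rw [T_eq, if_neg (fun h' => hf h'.2)]
  have h1 := dct (fun n => meas_T_right h.cont hg K N x k n θ)
    (fun n v hv => T_bound h hi K hS0 hS N x k n θ hv) hpt
  convert h1 using 2
  by_cases hf : 1 / 2 ≤ Int.fract a
  · simp only [if_pos hf]
    have h2 := hLV A ρ h (fun ξ => g (ξ + 2 ^ K * θ)) (hg.comp (by fun_prop))
      (hi.comp_add_right _) k ⌊a⌋ x
    have h3 : ∀ v : ℝ, ∑' l : ℤ, X ρ g K x k l ⌊a⌋ θ v = e1 (2 ^ K * θ * x) * ∑' l : ℤ,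
        co (pkf ρ v) (fun ξ => g (ξ + 2 ^ K * θ)) ⟨k, l, ⌊a⌋⟩ * fx (pk ρ v) ⟨k, l, ⌊a⌋⟩ x := by
      intro v
      rw [← tsum_mul_left]
      congr 1
      ext l
      unfold X
      ring
    simp only [h3]
    rw [intervalIntegral.integral_const_mul, h2, ← integral_const_mul]
    unfold F
    rw [← integral_add_right_eq_self (fun ξ => g ξ *
      ((ρ (Int.fract a - (2 : ℝ) ^ k * (N - ξ)) ^ 2 : ℝ) : ℂ) * e1 (x * ξ)) (2 ^ K * θ)]
    congr 1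
    ext ξ
    have e2 : Int.fract a - (2 : ℝ) ^ k * (N - (ξ + 2 ^ K * θ)) = (2 : ℝ) ^ k * ξ - ⌊a⌋ := by
      rw [← Int.self_sub_floor, ha]; ring
    rw [e2, mul_add, e1_add]
    have e3 : x * (2 ^ K * θ) = 2 ^ K * θ * x := by ring
    rw [e3]
    ring
  · simp only [if_neg hf]
    simp

theorem scale_lim (hLV : T_LV) (hTH : T_TH) {A : ℝ} {ρ : ℝ → ℝ} (h : Bmp A ρ) {g : ℝ → ℂ}
    (hg : Measurable g) (hi : Integrable g) (K : ℕ) (N x : ℝ) (k : ℤ) (hk : -(K : ℤ) ≤ k) :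
    Tendsto (fun n => ∫ θ in (0 : ℝ)..1, ∫ v in (0 : ℝ)..1, T ρ g K N x k n θ v) atTop
      (𝓝 (∫ ξ, g ξ * (Bt ρ ((2 : ℝ) ^ k) (N - ξ) : ℂ) * e1 (x * ξ))) := by
  obtain ⟨S, hS0, hS1, hS⟩ := wt_sum
  have h1 := dct (fun n => meas_int (meas_T h.cont hg K N x k n))
    (fun n θ _ => int_bound (fun v hv => T_bound h hi K hS0 hS N x k n θ hv))
    (fun θ _ => limit_v hLV h hg hi K N x k θ)
  convert h1 using 2
  set H : ℝ → ℂ := (Ici (1 / 2 : ℝ)).indicator (F ρ g N x k) with hH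
  obtain ⟨n, hn⟩ : ∃ n : ℕ, (K : ℤ) + k = n := ⟨((K : ℤ) + k).toNat, by omega⟩
  have hpow : (2 : ℝ) ^ k * 2 ^ K = ((2 ^ n : ℕ) : ℝ) := by
    push_cast
    rw [← zpow_natCast, ← zpow_natCast, ← zpow_add₀ (by norm_num), ← hn, add_comm]
  have h2 := hTH H ((2 : ℝ) ^ k * N) (2 ^ n) Nat.one_le_two_pow
    ((F_meas h.cont hg N x k).indicator measurableSet_Ici)
    ⟨A ^ 2 * ∫ ξ, ‖g ξ‖, fun u => by
      rw [hH]
      refine (norm_indicator_le_norm_self _ _).trans (F_bound h hi N x k u)⟩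
  have h3 : ∀ θ : ℝ, (if 1 / 2 ≤ Int.fract ((2 : ℝ) ^ k * (N - 2 ^ K * θ)) then
        F ρ g N x k (Int.fract ((2 : ℝ) ^ k * (N - 2 ^ K * θ))) else 0) =
      H (Int.fract ((2 : ℝ) ^ k * N - ((2 ^ n : ℕ) : ℝ) * θ)) := by
    intro θ
    have e : (2 : ℝ) ^ k * (N - 2 ^ K * θ) = (2 : ℝ) ^ k * N - ((2 ^ n : ℕ) : ℝ) * θ := by
      rw [← hpow]; ring
    rw [e, hH, Set.indicator_apply]
    rfl
  simp only [h3]
  rw [h2]
  have h4 : ∫ u in (0 : ℝ)..1, H u = ∫ u in (1 / 2 : ℝ)..1, F ρ g N x k u := by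
    rw [intervalIntegral.integral_of_le zero_le_one,
      intervalIntegral.integral_of_le (by norm_num : (1 / 2 : ℝ) ≤ 1), hH,
      setIntegral_indicator measurableSet_Ici, ← integral_Icc_eq_integral_Ioc]
    congr 2
    ext u
    simp only [mem_inter_iff, mem_Ioc, mem_Ici, mem_Icc]
    constructor
    · rintro ⟨⟨_, h6⟩, h7⟩; exact ⟨h7, h6⟩
    · rintro ⟨h6, h7⟩; exact ⟨⟨by linarith, h7⟩, h6⟩
  rw [h4]
  unfold F
  rw [intervalIntegral_integral_swap]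
  · congr 1
    ext ξ
    have e5 : ∀ u : ℝ, g ξ * ((ρ (u - (2 : ℝ) ^ k * (N - ξ)) ^ 2 : ℝ) : ℂ) * e1 (x * ξ) =
      (g ξ * e1 (x * ξ)) * ((ρ (u - (2 : ℝ) ^ k * (N - ξ)) ^ 2 : ℝ) : ℂ) := fun u => by ring
    simp only [e5]
    rw [intervalIntegral.integral_const_mul, intervalIntegral.integral_ofReal]
    unfold Bt
    ring
  · have hfin : IsFiniteMeasure (volume.restrict (Set.uIoc (1 / 2 : ℝ) 1)) := by
      rw [uIoc_of_le (by norm_num)]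
      infer_instance
    have hint : Integrable (fun p : ℝ × ℝ => (A ^ 2) * ‖g p.2‖)
        ((volume.restrict (Set.uIoc (1 / 2 : ℝ) 1)).prod volume) :=
      (hi.norm.comp_snd _).const_mul _
    refine hint.mono' (F_meas2 h.cont hg N x k).aestronglyMeasurable (ae_of_all _ fun p => ?_)
    rw [Function.uncurry_def, norm_mul, norm_mul, norm_e1, mul_one, mul_comm]
    exact mul_le_mul_of_nonneg_right (rho_sq h _) (norm_nonneg _)

end YN_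

open YN_ in
/-- **YN**: bound and limit of the finite averages. -/
theorem p_YN (hLV : T_LV) (hTH : T_TH) : T_YN := by
  intro A ρ h g hg hi K
  obtain ⟨S, hS0, hS1, hS⟩ := wt_sum
  refine ⟨∑ k ∈ Finset.Icc (-(K : ℤ)) K, (A ^ 2 * ∫ ξ, ‖g ξ‖) * S, ?_, ?_⟩
  · intro n N x
    rw [Yn_eq h hg hi]
    exact norm_sum_le_of_le _ fun k _ =>
      int_bound (fun θ _ => int_bound (fun v hv => T_bound h hi K hS0 hS N x k n θ hv))
  · intro N x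
    simp only [Yn_eq h hg hi]
    apply tendsto_finsetSum
    intro k hk
    exact scale_lim hLV hTH h hg hi K N x k (Finset.mem_Icc.1 hk).1

end Pool.Agent.CAR
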