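import Pool.Agent.CAR.P_STRONG
import Pool.Agent.CAR.P_WPEX
import Pool.Agent.CAR.P_LV
import Pool.Agent.CAR.P_TH
import Pool.Agent.CAR.P_YN
import Pool.Agent.CAR.P_BT
import Pool.Agent.CAR.P_AVB
import Pool.Agent.CAR.P_SCK
import Pool.Agent.CAR.P_LIM
import Pool.Agent.CAR.P_CARL1
import Pool.Agent.CAR.P_AVBS
import Pool.Agent.CAR.P_SCKS
import Pool.Agent.CAR.P_LIMS
import Pool.Agent.CAR.P_CARS

set_option autoImplicit false

/-!
# CAR: Carleson's theorem on the line
-/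

namespace Pool.Agent.CAR

theorem q_YN : T_YN := p_YN p_LV p_TH

/-- weak type (2,2) of the Carleson maximal operator -/
theorem p_CARL : T_CARL := p_CARL1 (p_LIM p_WPEX (p_SCK (p_AVB p_MODEL q_YN)) p_BT)

/-- strong type (2,2) of the Carleson maximal operator -/
theorem p_CARLS : T_CARLS := p_CARS (p_LIMS p_WPEX (p_SCKS (p_AVBS q_MODS q_YN)) p_BT)

end Pool.Agent.CAR
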