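import Pool.Agent.CAR.Targets
import Pool.Agent.CAR.CHI

set_option autoImplicit false

/-!
# CAR: the frequency cut-off
-/

namespace Pool.Agent.CAR

open MeasureTheory Set ComplexConjugate FourierTransform
open scoped SchwartzMap ContDiff

theorem p_CHI : T_CHI := by
  let b : ContDiffBump (0 : ℝ) := ⟨7 / 8, 1, by norm_num, by norm_num⟩
  have hb : ContDiff ℝ ∞ (fun x => (b x : ℂ)) := Complex.ofRealCLM.contDiff.comp b.contDiff
  have hc : HasCompactSupport (fun x => (b x : ℂ)) :=
    b.hasCompactSupport.comp_left (g := fun y : ℝ => (y : ℂ)) (by simp)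
  let f : 𝓢(ℝ, ℂ) := hc.toSchwartzMap hb
  have hf : ∀ x, f x = (b x : ℂ) := fun x => rfl
  let K : 𝓢(ℝ, ℂ) := 𝓕⁻ f
  obtain ⟨B, hB, hdec⟩ := CHI.schwartz_dec K
  have hw : ∀ x, 0 ≤ wt 20 x := fun x => by unfold wt; positivity
  refine ⟨max B 1, f, K, ⟨lt_of_lt_of_le hB (le_max_left _ _), f.continuous, K.continuous,
    ?_, ?_, ?_, ?_, ?_, ?_⟩⟩
  · intro η hη
    rw [hf, b.one_of_mem_closedBall, Complex.ofReal_one]
    rw [Real.closedBall_eq_Icc]
    constructor <;> simp only [b] <;> linarith [hη.1, hη.2]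
  · intro η hη
    rw [hf]
    have h1 : b η = 0 := by
      by_contra h0
      have h2 : η ∈ Function.support (b : ℝ → ℝ) := h0
      rw [b.support_eq, Real.ball_eq_Ioo] at h2
      simp only [b] at h2
      have h3 : |η| < 1 := by
        rw [abs_lt]
        constructor <;> linarith [h2.1, h2.2]
      linarith
    rw [h1]
    simp
  · intro η
    rw [hf, Complex.norm_real, Real.norm_eq_abs, abs_of_nonneg b.nonneg]
    exact b.le_one.trans (le_max_right _ _)
  · intro x
    exact (hdec x).trans (mul_le_mul_of_nonneg_right (le_max_left _ _) (hw x))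
  · intro x
    have h1 : K x = (𝓕⁻ (f : ℝ → ℂ)) x := by
      rw [← SchwartzMap.fourierInv_coe]
    rw [h1, Real.fourierInv_eq']
    refine integral_congr_ae (Filter.Eventually.of_forall fun v => ?_)
    simp only [smul_eq_mul]
    rw [mul_comm]
    congr 1
    unfold e1
    congr 1
    rw [real_inner_eq_re_inner, RCLike.inner_apply]
    simp
    ring
  · intro η
    have h1 : (𝓕 K : 𝓢(ℝ, ℂ)) η = f η := by
      rw [FourierTransform.fourier_fourierInv_eq]
    rw [← h1, SchwartzMap.fourier_coe, Real.fourier_real_eq]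
    refine integral_congr_ae (Filter.Eventually.of_forall fun x => ?_)
    simp only
    rw [Circle.smul_def, Real.fourierChar_apply, smul_eq_mul, mul_comm]
    unfold e1
    congr 2
    push_cast
    ring

end Pool.Agent.CAR
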