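import Pool.Agent.CAR.STargets
import Pool.Agent.CAR.CHI

set_option autoImplicit false

/-!
# CAR: the frequency cut-off with a Lipschitz bound
-/

namespace Pool.Agent.CAR

open MeasureTheory Set ComplexConjugate FourierTransform
open scoped SchwartzMap ContDiff

namespace CHI2_

theorem deriv_dec (K : 𝓢(ℝ, ℂ)) : ∃ B : ℝ, 0 < B ∧ ∀ x, ‖deriv K x‖ ≤ B * wt 20 x := by
  set C : ℝ := 2 ^ 20 * ((Finset.Iic ((20, 1) : ℕ × ℕ)).sup fun m =>
    SchwartzMap.seminorm ℝ m.1 m.2) K with hC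
  refine ⟨max C 1, lt_of_lt_of_le one_pos (le_max_right _ _), fun x => ?_⟩
  have h := SchwartzMap.one_add_le_sup_seminorm_apply (𝕜 := ℝ) (m := (20, 1)) (k := 20) (n := 1)
    le_rfl le_rfl K x
  rw [norm_iteratedFDeriv_eq_norm_iteratedDeriv, iteratedDeriv_one, Real.norm_eq_abs] at h
  have h0 : 0 < (1 + |x|) ^ 20 := by
    have := abs_nonneg x
    positivity
  unfold wt
  rw [← div_eq_mul_inv, le_div_iff₀ h0, mul_comm]
  exact h.trans (le_max_left _ _)

theorem wt_near {t v : ℝ} (h : |v - t| ≤ 1) : wt 20 v ≤ 2 ^ 20 * wt 20 t := by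
  have hv := abs_nonneg v
  have ht := abs_nonneg t
  have h1 : 1 + |t| ≤ 2 * (1 + |v|) := by
    have h2 : |t| ≤ |v| + |v - t| := by
      have h3 := abs_sub_abs_le_abs_sub t v
      rw [abs_sub_comm t v] at h3
      linarith
    linarith
  have h2 : (1 + |t|) ^ 20 ≤ (2 * (1 + |v|)) ^ 20 := pow_le_pow_left₀ (by linarith) h1 20
  rw [mul_pow] at h2
  have hp : 0 < (1 + |v|) ^ 20 := by positivity
  have hq : 0 < (1 + |t|) ^ 20 := by positivity
  unfold wt
  rw [← div_eq_mul_inv, inv_eq_one_div, div_le_div_iff₀ hp hq, one_mul]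
  exact h2

theorem lip (K : 𝓢(ℝ, ℂ)) (B : ℝ) (hB : 0 ≤ B) (hd : ∀ x, ‖deriv K x‖ ≤ B * wt 20 x) (t t' : ℝ)
    (h : |t - t'| ≤ 1) : ‖K t - K t'‖ ≤ 2 ^ 20 * B * |t - t'| * wt 20 t := by
  have h1 := Convex.norm_image_sub_le_of_norm_deriv_le (𝕜 := ℝ) (f := K)
    (C := B * (2 ^ 20 * wt 20 t)) (s := Metric.closedBall t 1) (x := t') (y := t)
    (fun x _ => K.differentiableAt) (fun x hx => by
      rw [Metric.mem_closedBall, Real.dist_eq] at hx
      exact (hd x).trans (mul_le_mul_of_nonneg_left (wt_near hx) hB))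
    (convex_closedBall t 1) (by
      rw [Metric.mem_closedBall, Real.dist_eq, abs_sub_comm]
      exact h) (Metric.mem_closedBall_self zero_le_one)
  rw [Real.norm_eq_abs] at h1
  refine h1.trans (le_of_eq ?_)
  ring

end CHI2_

theorem p_CHI2 : T_CHI2 := by
  let b : ContDiffBump (0 : ℝ) := ⟨7 / 8, 1, by norm_num, by norm_num⟩
  have hb : ContDiff ℝ ∞ (fun x => (b x : ℂ)) := Complex.ofRealCLM.contDiff.comp b.contDiff
  have hc : HasCompactSupport (fun x => (b x : ℂ)) :=
    b.hasCompactSupport.comp_left (g := fun y : ℝ => (y : ℂ)) (by simp)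
  let f : 𝓢(ℝ, ℂ) := hc.toSchwartzMap hb
  have hf : ∀ x, f x = (b x : ℂ) := fun x => rfl
  let K : 𝓢(ℝ, ℂ) := 𝓕⁻ f
  obtain ⟨B, hB, hdec⟩ := CHI.schwartz_dec K
  obtain ⟨B', hB', hder⟩ := CHI2_.deriv_dec K
  have hw : ∀ x, 0 ≤ wt 20 x := fun x => by unfold wt; positivity
  have hB1 : B ≤ max (max B 1) (2 ^ 20 * B') := (le_max_left _ _).trans (le_max_left _ _)
  have hB2 : 1 ≤ max (max B 1) (2 ^ 20 * B') := (le_max_right _ _).trans (le_max_left _ _)
  have hB3 : 2 ^ 20 * B' ≤ max (max B 1) (2 ^ 20 * B') := le_max_right _ _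
  refine ⟨max (max B 1) (2 ^ 20 * B'), f, K, ⟨⟨lt_of_lt_of_le hB hB1, f.continuous, K.continuous,
    ?_, ?_, ?_, ?_, ?_, ?_⟩, ?_⟩⟩
  · intro η hη
    rw [hf, b.one_of_mem_closedBall, Complex.ofReal_one]
    rw [Real.closedBall_eq_Icc]
    constructor <;> simp only [b] <;> linarith [hη.1, hη.2]
  · intro η hη
    rw [hf]
    have h1 : b η = 0 := by
      by_contra h0
      have h2 : η ∈ Function.support (b : ℝ → ℝ) := h0
      rw [b.support_eq, Real.ball_eq_Ioo] at h2
      simp only [b] at h2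
      have h3 : |η| < 1 := by
        rw [abs_lt]
        constructor <;> linarith [h2.1, h2.2]
      linarith
    rw [h1]
    simp
  · intro η
    rw [hf, Complex.norm_real, Real.norm_eq_abs, abs_of_nonneg b.nonneg]
    exact b.le_one.trans hB2
  · intro x
    exact (hdec x).trans (mul_le_mul_of_nonneg_right hB1 (hw x))
  · intro x
    have h1 : K x = (𝓕⁻ (f : ℝ → ℂ)) x := by
      rw [← SchwartzMap.fourierInv_coe]
    rw [h1, Real.fourierInv_eq']
    refine integral_congr_ae (Filter.Eventually.of_forall fun v => ?_)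
    simp only [smul_eq_mul]
    rw [mul_comm]
    congr 1
    unfold e1
    congr 1
    rw [real_inner_eq_re_inner, RCLike.inner_apply]
    simp
    ring
  · intro η
    have h1 : (𝓕 K : 𝓢(ℝ, ℂ)) η = f η := by
      rw [FourierTransform.fourier_fourierInv_eq]
    rw [← h1, SchwartzMap.fourier_coe, Real.fourier_real_eq]
    refine integral_congr_ae (Filter.Eventually.of_forall fun x => ?_)
    simp only
    rw [Circle.smul_def, Real.fourierChar_apply, smul_eq_mul, mul_comm]
    unfold e1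
    congr 2
    push_cast
    ring
  · intro t t' htt
    refine (CHI2_.lip K B' hB'.le hder t t' htt).trans ?_
    have h1 : 0 ≤ |t - t'| * wt 20 t := mul_nonneg (abs_nonneg _) (hw t)
    have h2 := mul_le_mul_of_nonneg_right hB3 h1
    calc 2 ^ 20 * B' * |t - t'| * wt 20 t = 2 ^ 20 * B' * (|t - t'| * wt 20 t) := by ring
      _ ≤ max (max B 1) (2 ^ 20 * B') * (|t - t'| * wt 20 t) := h2
      _ = _ := by ring

end Pool.Agent.CAR
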