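import Pool.Agent.CAR.Targets

set_option autoImplicit false

namespace Pool.Agent.CAR

open MeasureTheory Set
open scoped ENNReal NNReal

namespace DNB_

theorem wt_nonneg (n : ℕ) (t : ℝ) : 0 ≤ wt n t := by
  unfold wt
  positivity

theorem wt_le_one (n : ℕ) (t : ℝ) : wt n t ≤ 1 := by
  unfold wt
  apply inv_le_one_of_one_le₀
  exact one_le_pow₀ (by linarith [abs_nonneg t])

end DNB_

open DNB_ in
theorem p_DNB (hWTI : T_WTI) : T_DNB := by
  intro E N hE hN hfin u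
  obtain ⟨hint, hle⟩ := hWTI 8 u.k u.l (by norm_num)
  have hpos : (0 : ℝ) < (2 : ℝ) ^ (-u.k) := two_zpow_pos _
  have hf : (fun x => (2 : ℝ) ^ (-u.k) * wt 8 (u.u x)) =
      fun x => (2 : ℝ) ^ (-u.k) * wt 8 ((2 : ℝ) ^ (-u.k) * x - u.l) := rfl
  have hint' : Integrable (fun x => (2 : ℝ) ^ (-u.k) * wt 8 (u.u x)) := by
    rw [hf]
    exact hint.const_mul _
  have hnn : ∀ x, 0 ≤ (2 : ℝ) ^ (-u.k) * wt 8 (u.u x) := fun x =>
    mul_nonneg hpos.le (wt_nonneg _ _)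
  have hom : MeasurableSet u.om := measurableSet_dy _ _
  have hS : MeasurableSet (E ∩ N ⁻¹' u.om) := hE.inter (hN hom)
  refine ⟨integral_nonneg hnn, ?_, ?_⟩
  · unfold dn
    refine (setIntegral_le_integral hint' (Filter.Eventually.of_forall hnn)).trans ?_
    rw [hf, integral_const_mul]
    calc (2 : ℝ) ^ (-u.k) * ∫ x, wt 8 ((2 : ℝ) ^ (-u.k) * x - u.l)
        ≤ (2 : ℝ) ^ (-u.k) * (2 * (2 : ℝ) ^ u.k) := mul_le_mul_of_nonneg_left hle hpos.le
      _ = 2 * ((2 : ℝ) ^ (-u.k) * (2 : ℝ) ^ u.k) := by ring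
      _ = 2 := by rw [two_zpow_neg_mul, mul_one]
  · unfold dn
    have hfin' : volume (E ∩ N ⁻¹' u.om) ≠ ⊤ :=
      ne_top_of_le_ne_top hfin (measure_mono inter_subset_left)
    have h1 : ∫ x in E ∩ N ⁻¹' u.om, (2 : ℝ) ^ (-u.k) * wt 8 (u.u x) ≤
        ∫ _ in E ∩ N ⁻¹' u.om, (2 : ℝ) ^ (-u.k) := by
      refine setIntegral_mono_on hint'.integrableOn
        (integrableOn_const hfin' (by simp)) hS fun x _ => ?_
      have := wt_le_one 8 (u.u x)
      nlinarith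
    refine h1.trans ?_
    rw [setIntegral_const, smul_eq_mul, mul_comm]
    refine mul_le_mul_of_nonneg_left ?_ hpos.le
    exact ENNReal.toReal_mono hfin (measure_mono inter_subset_left)

end Pool.Agent.CAR
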