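import Pool.Agent.CAR.STargets

set_option autoImplicit false

/-!
# DNW: weighted density of a light interval
-/

namespace Pool.Agent.CAR

open MeasureTheory Set ComplexConjugate
open scoped ENNReal NNReal

namespace DNW_

lemma wt_le_one (n : ℕ) (t : ℝ) : wt n t ≤ 1 := by
  unfold wt
  exact inv_le_one_of_one_le₀ (one_le_pow₀ (by linarith [abs_nonneg t]))

lemma wt_nonneg (n : ℕ) (t : ℝ) : 0 ≤ wt n t := by
  unfold wt
  positivity

lemma exists_j {a : ℝ} (ha : 1 < a) : ∃ j : ℕ, (2 : ℝ) ^ j < a ∧ a ≤ (2 : ℝ) ^ (j + 1) := by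
  have hex : ∃ n : ℕ, a ≤ (2 : ℝ) ^ n := by
    obtain ⟨n, hn⟩ := pow_unbounded_of_one_lt a (show (1 : ℝ) < 2 by norm_num)
    exact ⟨n, hn.le⟩
  classical
  have hn := Nat.find_spec hex
  have h0 : Nat.find hex ≠ 0 := by
    intro h
    rw [h] at hn
    simp at hn
    linarith
  obtain ⟨j, hj⟩ := Nat.exists_eq_succ_of_ne_zero h0
  refine ⟨j, ?_, ?_⟩
  · have := Nat.find_min hex (m := j) (by omega)
    exact not_le.mp this
  · rw [hj] at hn
    exact hn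

/-- pointwise bound -/
lemma ptw (u : ℝ) : ENNReal.ofReal (wt 4 u) ≤ (Icc (-1 : ℝ) 1).indicator (fun _ => 1) u +
    ∑' j : ℕ, ENNReal.ofReal (((16 : ℝ) ^ j)⁻¹) *
      (Icc (-(2 : ℝ) ^ (j + 1)) ((2 : ℝ) ^ (j + 1))).indicator (fun _ => 1) u := by
  by_cases hu : |u| ≤ 1
  · rw [indicator_of_mem (show u ∈ Icc (-1 : ℝ) 1 from abs_le.mp hu)]
    refine le_trans ?_ le_self_add
    rw [ENNReal.ofReal_le_one]
    exact wt_le_one 4 u
  · obtain ⟨j, hj1, hj2⟩ := exists_j (not_le.mp hu)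
    refine le_trans ?_ le_add_self
    refine le_trans ?_ (ENNReal.le_tsum j)
    rw [indicator_of_mem (show u ∈ Icc (-(2 : ℝ) ^ (j + 1)) ((2 : ℝ) ^ (j + 1)) from
      abs_le.mp hj2), mul_one]
    refine ENNReal.ofReal_le_ofReal ?_
    unfold wt
    refine inv_anti₀ (by positivity) ?_
    calc (16 : ℝ) ^ j = ((2 : ℝ) ^ j) ^ 4 := by
          rw [← pow_mul, mul_comm, pow_mul]; norm_num
      _ ≤ (1 + |u|) ^ 4 := pow_le_pow_left₀ (by positivity) (by linarith) 4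

lemma core (lam : ℝ) (F : Set ℝ) (k l : ℤ) (hF : MeasurableSet F) (hf : volume F ≠ ⊤)
    (hl : 0 < lam) (hh : ¬ heavy lam F k l) :
    ∫⁻ x in F, ENNReal.ofReal (wt 4 ((2 : ℝ) ^ (-k) * x - l)) ≤
      ENNReal.ofReal (8 * lam * (2 : ℝ) ^ k) := by
  have hk := two_zpow_pos k
  have hu : Measurable (fun x : ℝ => (2 : ℝ) ^ (-k) * x - l) := by fun_prop
  have hv : ∀ r : ℝ, 1 ≤ r → ∫⁻ x in F, (Icc (-r) r).indicator (fun _ => (1 : ℝ≥0∞))
      ((2 : ℝ) ^ (-k) * x - l) ≤ ENNReal.ofReal (lam * r * (2 : ℝ) ^ k) := by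
    intro r hr
    have hms : MeasurableSet ((fun x : ℝ => (2 : ℝ) ^ (-k) * x - l) ⁻¹' Icc (-r) r) :=
      hu measurableSet_Icc
    have e1 : ∫⁻ x in F, (Icc (-r) r).indicator (fun _ => (1 : ℝ≥0∞))
        ((2 : ℝ) ^ (-k) * x - l) =
        ∫⁻ x in F, ((fun x : ℝ => (2 : ℝ) ^ (-k) * x - l) ⁻¹' Icc (-r) r).indicator 1 x := by
      refine lintegral_congr fun x => ?_
      by_cases h : (2 : ℝ) ^ (-k) * x - l ∈ Icc (-r) r
      · have h' : x ∈ (fun x : ℝ => (2 : ℝ) ^ (-k) * x - l) ⁻¹' Icc (-r) r := h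
        rw [indicator_of_mem h, indicator_of_mem h', Pi.one_apply]
      · have h' : x ∉ (fun x : ℝ => (2 : ℝ) ^ (-k) * x - l) ⁻¹' Icc (-r) r := h
        rw [indicator_of_notMem h, indicator_of_notMem h']
    rw [e1, lintegral_indicator_one hms, Measure.restrict_apply hms]
    have e2 : (fun x : ℝ => (2 : ℝ) ^ (-k) * x - l) ⁻¹' Icc (-r) r ∩ F =
        {x | x ∈ F ∧ |(2 : ℝ) ^ (-k) * x - l| ≤ r} := by
      ext x
      constructor
      · intro hx
        exact ⟨hx.2, abs_le.mpr hx.1⟩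
      · intro hx
        exact ⟨abs_le.mp hx.2, hx.1⟩
    rw [e2]
    have h1 : volume {x | x ∈ F ∧ |(2 : ℝ) ^ (-k) * x - l| ≤ r} ≠ ⊤ :=
      measure_ne_top_of_subset (fun x hx => hx.1) hf
    have h2 : vol {x | x ∈ F ∧ |(2 : ℝ) ^ (-k) * x - l| ≤ r} ≤ lam * r * (2 : ℝ) ^ k := by
      by_contra h
      exact hh ⟨r, hr, not_le.mp h⟩
    rw [← ENNReal.ofReal_toReal h1]
    exact ENNReal.ofReal_le_ofReal h2
  have hm : ∀ r : ℝ, Measurable (fun x : ℝ => (Icc (-r) r).indicator (fun _ => (1 : ℝ≥0∞))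
      ((2 : ℝ) ^ (-k) * x - l)) := fun r =>
    (measurable_const.indicator measurableSet_Icc).comp hu
  calc ∫⁻ x in F, ENNReal.ofReal (wt 4 ((2 : ℝ) ^ (-k) * x - l))
      ≤ ∫⁻ x in F, ((Icc (-1 : ℝ) 1).indicator (fun _ => 1) ((2 : ℝ) ^ (-k) * x - l) +
        ∑' j : ℕ, ENNReal.ofReal (((16 : ℝ) ^ j)⁻¹) *
          (Icc (-(2 : ℝ) ^ (j + 1)) ((2 : ℝ) ^ (j + 1))).indicator (fun _ => 1)
            ((2 : ℝ) ^ (-k) * x - l)) := lintegral_mono fun x => ptw _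
    _ = (∫⁻ x in F, (Icc (-1 : ℝ) 1).indicator (fun _ => 1) ((2 : ℝ) ^ (-k) * x - l)) +
        ∑' j : ℕ, ENNReal.ofReal (((16 : ℝ) ^ j)⁻¹) *
          ∫⁻ x in F, (Icc (-(2 : ℝ) ^ (j + 1)) ((2 : ℝ) ^ (j + 1))).indicator (fun _ => 1)
            ((2 : ℝ) ^ (-k) * x - l) := by
        rw [lintegral_add_left (hm 1), lintegral_tsum fun j =>
          ((hm ((2 : ℝ) ^ (j + 1))).const_mul _).aemeasurable]
        congr 1
        refine tsum_congr fun j => ?_
        rw [lintegral_const_mul _ (hm ((2 : ℝ) ^ (j + 1)))]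
    _ ≤ ENNReal.ofReal (lam * 1 * (2 : ℝ) ^ k) + ∑' j : ℕ, ENNReal.ofReal (((16 : ℝ) ^ j)⁻¹) *
          ENNReal.ofReal (lam * (2 : ℝ) ^ (j + 1) * (2 : ℝ) ^ k) := by
        refine add_le_add (hv 1 le_rfl) (ENNReal.tsum_le_tsum fun j => ?_)
        exact mul_le_mul_right (hv _ (one_le_pow₀ (by norm_num))) _
    _ = ENNReal.ofReal (lam * (2 : ℝ) ^ k) + ∑' j : ℕ,
          ENNReal.ofReal (2 * lam * (2 : ℝ) ^ k * (1 / 8) ^ j) := by
        rw [mul_one]
        congr 1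
        refine tsum_congr fun j => ?_
        rw [← ENNReal.ofReal_mul (by positivity)]
        congr 1
        have e16 : (16 : ℝ) ^ j = (2 : ℝ) ^ j * 8 ^ j := by rw [← mul_pow]; norm_num
        rw [e16, pow_succ, one_div, inv_pow]
        field_simp
    _ = ENNReal.ofReal (lam * (2 : ℝ) ^ k) +
          ENNReal.ofReal (∑' j : ℕ, 2 * lam * (2 : ℝ) ^ k * (1 / 8) ^ j) := by
        rw [ENNReal.ofReal_tsum_of_nonneg (fun j => by positivity)
          ((summable_geometric_of_lt_one (by norm_num) (by norm_num)).mul_left _)]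
    _ = ENNReal.ofReal (lam * (2 : ℝ) ^ k + 2 * lam * (2 : ℝ) ^ k * (8 / 7)) := by
        rw [tsum_mul_left, tsum_geometric_of_lt_one (by norm_num) (by norm_num),
          ← ENNReal.ofReal_add (by positivity) (by positivity)]
        norm_num
    _ ≤ ENNReal.ofReal (8 * lam * (2 : ℝ) ^ k) := by
        refine ENNReal.ofReal_le_ofReal ?_
        nlinarith [mul_pos hl hk]

end DNW_

open DNW_ in
theorem p_DNW : T_DNW := by
  intro lam F k l hF hf hl hh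
  have h0 : 0 ≤ 8 * lam * (2 : ℝ) ^ k := by
    have := two_zpow_pos k
    positivity
  have hm : Measurable (fun x : ℝ => wt 4 ((2 : ℝ) ^ (-k) * x - l)) := by
    unfold wt
    fun_prop
  rw [integral_eq_lintegral_of_nonneg_ae (Filter.Eventually.of_forall fun x => wt_nonneg _ _)
    hm.aestronglyMeasurable]
  exact ENNReal.toReal_le_of_le_ofReal h0 (core lam F k l hF hf hl hh)

end Pool.Agent.CAR
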