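import Pool.Agent.CAR.TRUNC

set_option autoImplicit false

/-!
# CAR: the square function bound for a plus tree
-/

namespace Pool.Agent.CAR

open MeasureTheory Set ComplexConjugate Filter Topology
open scoped ENNReal NNReal

namespace SQ

open TRUNC

variable {A : ℝ} {φ Φ : ℝ → ℂ}

theorem mem_lo (h : WPk A φ Φ) {s : Tile} {η : ℝ} (hη : fr Φ s η ≠ 0) : η ∈ s.lo := by
  have h1 : Φ ((2 : ℝ) ^ s.k * η - s.m) ≠ 0 := by
    intro h0
    apply hη
    rw [fr, h0]
    simp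
  have h2 := h.supp _ h1
  rw [Tile.lo, mem_dy_iff]
  have e3 : (2 : ℝ) ^ (-(-s.k - 1)) = 2 * (2 : ℝ) ^ s.k := by
    rw [show -(-s.k - 1) = s.k + 1 by ring, two_zpow_succ]
  rw [e3]
  push_cast
  constructor <;> linarith [h2.1, h2.2]

/-- inner product of two packets -/
noncomputable def ip (φ : ℝ → ℂ) (s t : Tile) : ℂ := ∫ x, fx φ s x * conj (fx φ t x)

theorem ip_comm (s t : Tile) : ‖ip φ s t‖ = ‖ip φ t s‖ := by
  have : ip φ s t = conj (ip φ t s) := by
    unfold ip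
    rw [← integral_conj]
    congr 1
    funext x
    rw [map_mul, Complex.conj_conj, mul_comm]
  rw [this, RCLike.norm_conj]

theorem ip_zero_of_disj (h : WPk A φ Φ) {s t : Tile} (hd : Disjoint s.lo t.lo) :
    ip φ s t = 0 := by
  unfold ip
  rw [PK.fx_fr_inner h]
  rw [show (fun η => fr Φ s η * conj (fr Φ t η)) = fun _ => 0 from ?_, integral_zero]
  funext η
  by_cases h1 : fr Φ s η = 0
  · rw [h1, zero_mul]
  · by_cases h2 : fr Φ t η = 0
    · rw [h2]; simp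
    · exact absurd (mem_lo h h2) (Set.disjoint_left.1 hd (mem_lo h h1))

theorem ip_zero (h : WPk A φ Φ) {ξ : ℝ} {s t : Tile} (hs : ξ ∈ s.up) (ht : ξ ∈ t.up)
    (hk : s.k ≠ t.k) : ip φ s t = 0 := by
  rcases lt_or_gt_of_ne hk with h1 | h1
  · refine ip_zero_of_disj h ?_
    exact (lo_disj_up s).mono_right ((lo_sub t).trans (om_sub_up h1 hs (up_sub t ht)))
  · refine ip_zero_of_disj h ?_
    exact ((lo_disj_up t).mono_right ((lo_sub s).trans (om_sub_up h1 ht (up_sub s hs)))).symm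

theorem integral_norm_fx (h : WPk A φ Φ) (s : Tile) :
    ∫ y, ‖fx φ s y‖ ≤ √((2 : ℝ) ^ s.k) * (A * ∫ t, wt 20 t) := by
  have hw : Integrable (fun y => wt 20 (s.u y)) := by
    have := ((PK.integrable_wt (n := 20) (by norm_num)).comp_sub_right (s.l : ℝ)).comp_mul_left'
      (two_zpow_pos (-s.k)).ne'
    exact this
  calc ∫ y, ‖fx φ s y‖ ≤ ∫ y, (√((2 : ℝ) ^ s.k))⁻¹ * (A * wt 20 (s.u y)) :=
        integral_mono (PK.integrable_fx h s).norm ((hw.const_mul A).const_mul _)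
          (PK.norm_fx h s)
    _ = (√((2 : ℝ) ^ s.k))⁻¹ * (A * ((2 : ℝ) ^ s.k * ∫ t, wt 20 t)) := by
        rw [integral_const_mul, integral_const_mul]
        congr 2
        have h1 := Measure.integral_comp_mul_left (fun y => wt 20 (y - s.l)) ((2 : ℝ) ^ (-s.k))
        simp only [Tile.u]
        rw [h1, integral_sub_right_eq_self (fun y => wt 20 y), abs_of_pos
          (inv_pos.2 (two_zpow_pos _)), zpow_neg, inv_inv, smul_eq_mul]
    _ = ((√((2 : ℝ) ^ s.k))⁻¹ * (2 : ℝ) ^ s.k) * (A * ∫ t, wt 20 t) := by ring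
    _ = _ := by
        congr 1
        rw [← PK.sq_sq s.k, ← mul_assoc]
        have h3 := PK.sq_pos s.k
        have h4 := PK.sq_sq s.k
        rw [h4, inv_mul_cancel₀ h3.ne', one_mul]

theorem sum_ip (h : WPk A φ Φ) {C₀ : ℝ}
    (hC₀ : ∀ (L : Finset ℤ) (y : ℝ), ∑ l ∈ L, wt 2 (y - l) ≤ C₀)
    {T : Finset Tile} {ξ : ℝ} (hT : ∀ s ∈ T, ξ ∈ s.up) {s : Tile} (hs : s ∈ T) :
    ∑ t ∈ T, ‖ip φ s t‖ ≤ A * C₀ * (A * ∫ t, wt 20 t) := by
  have hA := h.pos
  have h0 : ∑ t ∈ T, ‖ip φ s t‖ = ∑ t ∈ T.filter (fun t => t.k = s.k), ‖ip φ s t‖ := by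
    rw [Finset.sum_filter]
    refine Finset.sum_congr rfl fun t ht => ?_
    split_ifs with hk
    · rfl
    · rw [ip_zero h (hT s hs) (hT t ht) (Ne.symm hk), norm_zero]
  rw [h0]
  have hint : ∀ t : Tile, Integrable (fun y => ‖fx φ s y‖ * ‖fx φ t y‖) := by
    intro t
    refine (PK.integrable_fx h s).norm.mul_bdd (c := (√((2 : ℝ) ^ t.k))⁻¹ * A)
      (PK.continuous_fx h t).norm.aestronglyMeasurable (Eventually.of_forall fun y => ?_)
    rw [norm_norm]
    refine (PK.norm_fx h t y).trans ?_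
    gcongr
    exact mul_le_of_le_one_right hA.le (HL.wt_le_one _ _)
  calc ∑ t ∈ T.filter (fun t => t.k = s.k), ‖ip φ s t‖
      ≤ ∑ t ∈ T.filter (fun t => t.k = s.k), ∫ y, ‖fx φ s y‖ * ‖fx φ t y‖ := by
        refine Finset.sum_le_sum fun t _ => ?_
        unfold ip
        refine (norm_integral_le_integral_norm _).trans (le_of_eq ?_)
        congr 1
        funext y
        rw [norm_mul, RCLike.norm_conj]
    _ = ∫ y, ‖fx φ s y‖ * ∑ t ∈ T.filter (fun t => t.k = s.k), ‖fx φ t y‖ := by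
        rw [← integral_finsetSum _ fun t _ => hint t]
        congr 1
        funext y
        rw [Finset.mul_sum]
    _ ≤ ∫ y, ‖fx φ s y‖ * ((√((2 : ℝ) ^ s.k))⁻¹ * (A * C₀)) := by
        refine integral_mono ?_ ((PK.integrable_fx h s).norm.mul_const _) fun y => ?_
        · have : (fun y => ‖fx φ s y‖ * ∑ t ∈ T.filter (fun t => t.k = s.k), ‖fx φ t y‖) =
              fun y => ∑ t ∈ T.filter (fun t => t.k = s.k), ‖fx φ s y‖ * ‖fx φ t y‖ := by
            funext y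
            rw [Finset.mul_sum]
          rw [this]
          exact integrable_finsetSum _ fun t _ => hint t
        · refine mul_le_mul_of_nonneg_left ?_ (norm_nonneg _)
          calc ∑ t ∈ T.filter (fun t => t.k = s.k), ‖fx φ t y‖
              ≤ ∑ t ∈ T.filter (fun t => t.k = s.k),
                (√((2 : ℝ) ^ s.k))⁻¹ * (A * wt 20 (t.u y)) := by
                refine Finset.sum_le_sum fun t ht => ?_
                have hk := (Finset.mem_filter.1 ht).2
                rw [← hk]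
                exact PK.norm_fx h t y
            _ = (√((2 : ℝ) ^ s.k))⁻¹ * (A * ∑ t ∈ T.filter (fun t => t.k = s.k),
                wt 20 (t.u y)) := by rw [Finset.mul_sum, Finset.mul_sum]
            _ ≤ _ := by
                gcongr
                exact sum_wt_layer hC₀ hT s.k (by norm_num) y
    _ = (∫ y, ‖fx φ s y‖) * ((√((2 : ℝ) ^ s.k))⁻¹ * (A * C₀)) := integral_mul_const _ _
    _ ≤ (√((2 : ℝ) ^ s.k) * (A * ∫ t, wt 20 t)) * ((√((2 : ℝ) ^ s.k))⁻¹ * (A * C₀)) := by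
        have hC₀' : 0 ≤ C₀ := by
          have := hC₀ ∅ 0
          simpa using this
        gcongr
        exact integral_norm_fx h s
    _ = (√((2 : ℝ) ^ s.k) * (√((2 : ℝ) ^ s.k))⁻¹) * (A * C₀ * (A * ∫ t, wt 20 t)) := by ring
    _ = _ := by rw [mul_inv_cancel₀ (PK.sq_pos _).ne', one_mul]

theorem integrable_mul (h : WPk A φ Φ) (s t : Tile) :
    Integrable (fun x => fx φ s x * conj (fx φ t x)) := by
  have hA := h.pos
  refine (PK.integrable_fx h s).mul_bdd (c := (√((2 : ℝ) ^ t.k))⁻¹ * A)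
    (Complex.continuous_conj.comp (PK.continuous_fx h t)).aestronglyMeasurable
    (Eventually.of_forall fun y => ?_)
  rw [RCLike.norm_conj]
  refine (PK.norm_fx h t y).trans ?_
  gcongr
  exact mul_le_of_le_one_right hA.le (HL.wt_le_one _ _)

theorem expand (h : WPk A φ Φ) (c : Tile → ℂ) (T : Finset Tile) :
    Integrable (fun x => Gx φ c T x * conj (Gx φ c T x)) ∧
    ∫ x, Gx φ c T x * conj (Gx φ c T x) =
      ∑ s ∈ T, ∑ t ∈ T, c s * conj (c t) * ip φ s t := by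
  have e : (fun x => Gx φ c T x * conj (Gx φ c T x)) =
      fun x => ∑ s ∈ T, ∑ t ∈ T, c s * conj (c t) * (fx φ s x * conj (fx φ t x)) := by
    funext x
    rw [Gx, map_sum, Finset.sum_mul_sum]
    refine Finset.sum_congr rfl fun s _ => Finset.sum_congr rfl fun t _ => ?_
    rw [map_mul]
    ring
  rw [e]
  constructor
  · exact integrable_finsetSum _ fun s _ => integrable_finsetSum _ fun t _ =>
      (integrable_mul h s t).const_mul _
  · rw [integral_finsetSum _ fun s _ => integrable_finsetSum _ fun t _ =>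
      (integrable_mul h s t).const_mul _]
    refine Finset.sum_congr rfl fun s _ => ?_
    rw [integral_finsetSum _ fun t _ => (integrable_mul h s t).const_mul _]
    exact Finset.sum_congr rfl fun t _ => integral_const_mul _ _

/-- **SQ** -/
theorem sq (A : ℝ) : ∃ C : ℝ, 0 < C ∧ ∀ φ Φ : ℝ → ℂ, WPk A φ Φ → ∀ (T : Finset Tile) (ξ : ℝ),
    (∀ s ∈ T, ξ ∈ s.up) → ∀ c : Tile → ℂ,
      Integrable (fun x => ‖Gx φ c T x‖ ^ 2) ∧
      ∫ x, ‖Gx φ c T x‖ ^ 2 ≤ C * ∑ s ∈ T, ‖c s‖ ^ 2 := by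
  obtain ⟨C₀, hC₀p, hC₀⟩ := PK.sum_wt
  by_cases hA : 0 < A
  swap
  · exact ⟨1, one_pos, fun φ Φ h => absurd h.pos hA⟩
  have hW : 0 ≤ ∫ t, wt 20 t := integral_nonneg fun t => (HL.wt_pos 20 t).le
  refine ⟨A * C₀ * (A * ∫ t, wt 20 t) + 1, by positivity, fun φ Φ h T ξ hT c => ?_⟩
  obtain ⟨hI, hE⟩ := expand h c T
  have e : (fun x => Gx φ c T x * conj (Gx φ c T x)) =
      fun x => ((‖Gx φ c T x‖ ^ 2 : ℝ) : ℂ) := by
    funext x
    rw [Complex.mul_conj, Complex.normSq_eq_norm_sq]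
  rw [e] at hI hE
  have hI' : Integrable (fun x => ‖Gx φ c T x‖ ^ 2) := by
    refine hI.re.congr (Eventually.of_forall fun x => ?_)
    exact Complex.ofReal_re _
  refine ⟨hI', ?_⟩
  rw [integral_complex_ofReal] at hE
  have hn : 0 ≤ ∫ x, ‖Gx φ c T x‖ ^ 2 := integral_nonneg fun _ => by positivity
  calc ∫ x, ‖Gx φ c T x‖ ^ 2 = ‖((∫ x, ‖Gx φ c T x‖ ^ 2 : ℝ) : ℂ)‖ := by
        rw [Complex.norm_real, Real.norm_eq_abs, abs_of_nonneg hn]
    _ ≤ ∑ s ∈ T, ∑ t ∈ T, ‖c s‖ * ‖c t‖ * ‖ip φ s t‖ := by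
        rw [hE]
        refine (norm_sum_le _ _).trans (Finset.sum_le_sum fun s _ => ?_)
        refine (norm_sum_le _ _).trans (Finset.sum_le_sum fun t _ => ?_)
        rw [norm_mul, norm_mul, RCLike.norm_conj]
    _ ≤ ∑ s ∈ T, ∑ t ∈ T, (‖c s‖ ^ 2 * ‖ip φ s t‖ + ‖c t‖ ^ 2 * ‖ip φ s t‖) / 2 := by
        refine Finset.sum_le_sum fun s _ => Finset.sum_le_sum fun t _ => ?_
        have h1 : ‖c s‖ * ‖c t‖ ≤ (‖c s‖ ^ 2 + ‖c t‖ ^ 2) / 2 := by
          nlinarith [sq_nonneg (‖c s‖ - ‖c t‖)]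
        have h2 := mul_le_mul_of_nonneg_right h1 (norm_nonneg (ip φ s t))
        linarith
    _ = ((∑ s ∈ T, ∑ t ∈ T, ‖c s‖ ^ 2 * ‖ip φ s t‖) +
          ∑ s ∈ T, ∑ t ∈ T, ‖c t‖ ^ 2 * ‖ip φ s t‖) / 2 := by
        rw [← Finset.sum_add_distrib, Finset.sum_div]
        refine Finset.sum_congr rfl fun s _ => ?_
        rw [← Finset.sum_add_distrib, Finset.sum_div]
    _ = ∑ s ∈ T, ∑ t ∈ T, ‖c s‖ ^ 2 * ‖ip φ s t‖ := by
        have h3 : ∑ s ∈ T, ∑ t ∈ T, ‖c t‖ ^ 2 * ‖ip φ s t‖ =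
            ∑ s ∈ T, ∑ t ∈ T, ‖c s‖ ^ 2 * ‖ip φ s t‖ := by
          rw [Finset.sum_comm]
          exact Finset.sum_congr rfl fun s _ => Finset.sum_congr rfl fun t _ => by
            rw [ip_comm]
        rw [h3]
        ring
    _ ≤ ∑ s ∈ T, ‖c s‖ ^ 2 * (A * C₀ * (A * ∫ t, wt 20 t)) := by
        refine Finset.sum_le_sum fun s hs => ?_
        rw [← Finset.mul_sum]
        exact mul_le_mul_of_nonneg_left (sum_ip h hC₀ hT hs) (by positivity)
    _ = (A * C₀ * (A * ∫ t, wt 20 t)) * ∑ s ∈ T, ‖c s‖ ^ 2 := by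
        rw [← Finset.sum_mul, mul_comm]
    _ ≤ _ := by
        have : 0 ≤ ∑ s ∈ T, ‖c s‖ ^ 2 := Finset.sum_nonneg fun _ _ => by positivity
        nlinarith

end SQ

end Pool.Agent.CAR
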