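import Pool.Agent.CAR.STargets
import Pool.Agent.CAR.SQ

set_option autoImplicit false

/-!
# DSQ: dual of the square function estimate
-/

namespace Pool.Agent.CAR

open MeasureTheory Set ComplexConjugate
open scoped ENNReal NNReal

namespace DSQ_

theorem int_mul {f g : ℝ → ℂ} (hf : AEStronglyMeasurable f) (hg : AEStronglyMeasurable g)
    (hf2 : Integrable (fun x => ‖f x‖ ^ 2)) (hg2 : Integrable (fun x => ‖g x‖ ^ 2)) :
    Integrable (fun x => f x * g x) := by
  refine (hf2.add hg2).mono' (hf.mul hg) (Filter.Eventually.of_forall fun x => ?_)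
  rw [norm_mul]
  simp only [Pi.add_apply]
  nlinarith [sq_nonneg (‖f x‖ - ‖g x‖), norm_nonneg (f x), norm_nonneg (g x)]

end DSQ_

open DSQ_ TRUNC in
theorem p_DSQ : T_DSQ := by
  intro A
  obtain ⟨C, hC, h⟩ := SQ.sq A
  refine ⟨C, hC, fun φ Φ hW f hf hf2 T K Λ ξ hT => ?_⟩
  set w : Tile → ℂ := fun s => cf φ f s with hw
  obtain ⟨h1, h2⟩ := h φ Φ hW T ξ (fun s hs => (hT s hs).2) w
  have hfx : ∀ s ∈ T, Integrable (fun x => ‖fx φ s x‖ ^ 2) := by
    intro s hs
    have h3 := (h φ Φ hW {s} ξ (fun t ht => by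
      rw [Finset.mem_singleton] at ht; rw [ht]; exact (hT s hs).2) (fun _ => 1)).1
    simpa [Gx] using h3
  have hfxc : ∀ s, Continuous (fx φ s) := fun s => PK.continuous_fx hW s
  have hG : Continuous (Gx φ w T) := by
    unfold Gx
    exact continuous_finsetSum _ fun s _ => continuous_const.mul (hfxc s)
  -- the pairing
  have hpair : ((∑ s ∈ T, ‖w s‖ ^ 2 : ℝ) : ℂ) = ∫ x, f x * conj (Gx φ w T x) := by
    have e1 : (fun x => f x * conj (Gx φ w T x)) =
        fun x => ∑ s ∈ T, conj (w s) * (f x * conj (fx φ s x)) := by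
      funext x
      unfold Gx
      rw [map_sum, Finset.mul_sum]
      refine Finset.sum_congr rfl fun s _ => ?_
      rw [map_mul]
      ring
    rw [e1, integral_finsetSum _ fun s hs => ?_]
    · push_cast
      refine Finset.sum_congr rfl fun s _ => ?_
      rw [integral_const_mul]
      have e2 : (∫ x, f x * conj (fx φ s x)) = w s := rfl
      rw [e2, mul_comm, Complex.mul_conj, Complex.normSq_eq_norm_sq]
      push_cast
      rfl
    · refine Integrable.const_mul ?_ _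
      refine int_mul hf.aestronglyMeasurable
        (Complex.continuous_conj.comp (hfxc s)).aestronglyMeasurable hf2 ?_
      refine (hfx s hs).congr (Filter.Eventually.of_forall fun x => ?_)
      simp only
      rw [RCLike.norm_conj]
  set X : ℝ := ∑ s ∈ T, ‖w s‖ ^ 2 with hX
  have hX0 : 0 ≤ X := Finset.sum_nonneg fun s _ => by positivity
  have h3 : X ≤ ∫ x, ‖f x‖ * ‖Gx φ w T x‖ := by
    have e1 : X = ‖∫ x, f x * conj (Gx φ w T x)‖ := by
      rw [← hpair, Complex.norm_real, Real.norm_of_nonneg hX0]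
    rw [e1]
    refine (norm_integral_le_integral_norm _).trans (le_of_eq ?_)
    refine integral_congr_ae (Filter.Eventually.of_forall fun x => ?_)
    simp only
    rw [norm_mul, RCLike.norm_conj]
  have h4 : ∫ x, ‖f x‖ * ‖Gx φ w T x‖ ≤
      ∫ x, (C / 2 * ‖f x‖ ^ 2 + 1 / (2 * C) * ‖Gx φ w T x‖ ^ 2) := by
    have hi : Integrable (fun x => C / 2 * ‖f x‖ ^ 2 + 1 / (2 * C) * ‖Gx φ w T x‖ ^ 2) :=
      (hf2.const_mul _).add (h1.const_mul _)
    have hp : ∀ x, ‖f x‖ * ‖Gx φ w T x‖ ≤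
        C / 2 * ‖f x‖ ^ 2 + 1 / (2 * C) * ‖Gx φ w T x‖ ^ 2 := by
      intro x
      have e1 : C / 2 * ‖f x‖ ^ 2 + 1 / (2 * C) * ‖Gx φ w T x‖ ^ 2 - ‖f x‖ * ‖Gx φ w T x‖ =
          (C * ‖f x‖ - ‖Gx φ w T x‖) ^ 2 / (2 * C) := by
        field_simp
        ring
      have e2 : 0 ≤ (C * ‖f x‖ - ‖Gx φ w T x‖) ^ 2 / (2 * C) := by positivity
      linarith
    refine integral_mono_of_nonneg (Filter.Eventually.of_forall fun x => ?_) hi
      (Filter.Eventually.of_forall hp)
    positivity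
  have h5 : ∫ x, (C / 2 * ‖f x‖ ^ 2 + 1 / (2 * C) * ‖Gx φ w T x‖ ^ 2) =
      C / 2 * (∫ x, ‖f x‖ ^ 2) + 1 / (2 * C) * ∫ x, ‖Gx φ w T x‖ ^ 2 := by
    rw [integral_add (hf2.const_mul _) (h1.const_mul _), integral_const_mul, integral_const_mul]
  have h6 : 1 / (2 * C) * ∫ x, ‖Gx φ w T x‖ ^ 2 ≤ 1 / (2 * C) * (C * X) :=
    mul_le_mul_of_nonneg_left h2 (by positivity)
  have h7 : 1 / (2 * C) * (C * X) = X / 2 := by
    field_simp
  rw [h7] at h6
  rw [h5] at h4
  linarith

end Pool.Agent.CAR
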