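import Pool.Agent.CAR.Targets
import Pool.Agent.CAR.ORTB

set_option autoImplicit false

/-!
# The Carleson operator on the line: DUAL
-/

namespace Pool.Agent.CAR

open MeasureTheory Set ComplexConjugate
open scoped ENNReal NNReal

/-- DUAL -/
theorem p_DUAL : T_DUAL := by
  intro A φ Φ g b N E hW hD D
  have h1 := ortb hW hD.mg hD.ig hD.sg D
  have h0 : 0 ≤ ∑ s ∈ D, ‖co Φ g s‖ ^ 2 := Finset.sum_nonneg fun s _ => by positivity
  have h2 := pow_le_pow_left₀ h0 h1 2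
  have h3 : 0 ≤ ∑ s ∈ D, ∑ t ∈ D,
      ‖co Φ g s‖ * ‖co Φ g t‖ * ‖∫ ξ, fr Φ s ξ * conj (fr Φ t ξ)‖ :=
    Finset.sum_nonneg fun s _ => Finset.sum_nonneg fun t _ => by positivity
  rw [mul_pow, Real.sq_sqrt h3] at h2
  exact h2

end Pool.Agent.CAR
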