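import Pool.Agent.CAR.Targets
import Pool.Agent.CAR.PK

set_option autoImplicit false

/-!
# CAR: elementary properties of the packets (from helper30's PK)
-/

namespace Pool.Agent.CAR

open MeasureTheory Set Filter Topology ComplexConjugate

namespace FXB_

theorem mem_lo {s : Tile} {Φ : ℝ → ℂ} {A : ℝ} {φ : ℝ → ℂ} (h : WPk A φ Φ) {ξ : ℝ}
    (hξ : fr Φ s ξ ≠ 0) : ξ ∈ s.lo := by
  have h1 : Φ ((2 : ℝ) ^ s.k * ξ - s.m) ≠ 0 := by
    intro h0
    apply hξ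
    rw [fr, h0]
    simp
  have h2 := h.supp _ h1
  rw [Tile.lo, mem_dy_iff]
  have e3 : (2 : ℝ) ^ (-(-s.k - 1)) = 2 * (2 : ℝ) ^ s.k := by
    rw [show -(-s.k - 1) = s.k + 1 by ring, two_zpow_succ]
  rw [e3]
  push_cast
  constructor <;> nlinarith [h2.1, h2.2]

end FXB_

theorem p_FXB : T_FXB := by
  intro A φ Φ h s
  refine ⟨PK.continuous_fx h s, PK.continuous_fr h s, fun x => ?_, fun ξ => ?_, fun ξ hξ => ?_,
    PK.integrable_fx h s, PK.integrable_fr h s⟩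
  · have h1 := PK.norm_fx h s x
    unfold hs
    linarith [h1, mul_comm (√((2 : ℝ) ^ s.k))⁻¹ (A * wt 20 (s.u x)),
      mul_comm (√((2 : ℝ) ^ s.k))⁻¹ (wt 20 (s.u x)),
      show (√((2 : ℝ) ^ s.k))⁻¹ * (A * wt 20 (s.u x)) =
        A * (√((2 : ℝ) ^ s.k))⁻¹ * wt 20 (s.u x) by ring]
  · rw [PK.norm_fr, mul_comm]
    exact mul_le_mul_of_nonneg_right (h.bd _) (Real.sqrt_nonneg _)
  · exact FXB_.mem_lo h hξ

theorem p_FXR : T_FXR := fun _ _ _ h s => ⟨PK.fx_inv h s, PK.fr_ft h s⟩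

theorem p_PAR : T_PAR := fun _ _ _ h s t => (PK.fx_fr_inner h s t).symm

end Pool.Agent.CAR
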