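import Pool.Agent.CAR.Targets

set_option autoImplicit false

/-!
# The Carleson operator on the line, MODEL part: block GEO
-/

namespace Pool.Agent.CAR

open MeasureTheory Set ComplexConjugate
open scoped ENNReal NNReal

namespace GEO_

theorem wt_nonneg (n : ℕ) (t : ℝ) : 0 ≤ wt n t := by
  unfold wt
  positivity

theorem wt_abs (n : ℕ) (t : ℝ) : wt n |t| = wt n t := by
  unfold wt
  rw [abs_abs]

/-- Sum of distinct powers of two. -/
theorem sum_zpow (J : Finset ℤ) (K : ℤ) (h : ∀ j ∈ J, j ≤ K) :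
    ∑ j ∈ J, (2 : ℝ) ^ j ≤ 2 * (2 : ℝ) ^ K := by
  classical
  have h1 : ∑ j ∈ J, (2 : ℝ) ^ j = (2 : ℝ) ^ K * ∑ i ∈ J.image (fun j => (K - j).toNat),
      (1 / 2 : ℝ) ^ i := by
    rw [Finset.sum_image, Finset.mul_sum]
    · refine Finset.sum_congr rfl fun j hj => ?_
      have hjK := h j hj
      have h2 : (1 / 2 : ℝ) ^ (K - j).toNat = (2 : ℝ) ^ (j - K) := by
        rw [one_div, inv_pow, ← zpow_natCast, Int.toNat_of_nonneg (by omega), ← zpow_neg]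
        congr 1
        ring
      rw [h2, ← zpow_add₀ (by norm_num : (2 : ℝ) ≠ 0)]
      congr 1
      ring
    · intro a ha b hb hab
      have ha' := h a ha
      have hb' := h b hb
      simp only at hab
      omega
  rw [h1, mul_comm]
  refine mul_le_mul_of_nonneg_right ?_ (two_zpow_pos K).le
  have h3 : Summable (fun i : ℕ => (1 / 2 : ℝ) ^ i) := summable_geometric_two
  calc ∑ i ∈ J.image (fun j => (K - j).toNat), (1 / 2 : ℝ) ^ i
      ≤ ∑' i : ℕ, (1 / 2 : ℝ) ^ i := h3.sum_le_tsum _ (fun i _ => by positivity)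
    _ = 2 := tsum_geometric_two

/-- The pointwise bound for one scale. -/
theorem point (hWTS : T_WTS) (T : Finset Tile) (K Λ j : ℤ) (hT : ∀ s ∈ T, s.I ⊆ dy K Λ)
    (hk : ∀ s ∈ T, s.k = j) (hinj : ∀ s ∈ T, ∀ t ∈ T, s.l = t.l → s = t) (x : ℝ)
    (hx : x ∉ dy K Λ) :
    ∑ s ∈ T, wt 10 (s.u x) ≤
      8 * wt 8 ((2 : ℝ) ^ (-j) * x - (2 : ℝ) ^ (-j) * ((2 : ℝ) ^ K * Λ)) +
      8 * wt 8 ((2 : ℝ) ^ (-j) * x - (2 : ℝ) ^ (-j) * ((2 : ℝ) ^ K * (Λ + 1))) := by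
  classical
  have hsum : ∑ s ∈ T, wt 10 (s.u x) =
      ∑ n ∈ T.image (fun s => s.l), wt 10 ((2 : ℝ) ^ (-j) * x - n) := by
    rw [Finset.sum_image (fun s hs t ht h => hinj s hs t ht h)]
    refine Finset.sum_congr rfl fun s hs => ?_
    rw [Tile.u, hk s hs]
  rw [hsum]
  have hj := two_zpow_pos (-j)
  have hj' := two_zpow_pos j
  -- the end points of the intervals
  have hl : ∀ s ∈ T, (2 : ℝ) ^ K * Λ ≤ (2 : ℝ) ^ j * s.l := by
    intro s hs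
    have h1 := hT s hs (left_mem_dy s.k s.l)
    rw [hk s hs] at h1
    exact h1.1
  have hr : ∀ s ∈ T, (2 : ℝ) ^ j * (s.l + 1) ≤ (2 : ℝ) ^ K * (Λ + 1) := by
    intro s hs
    by_contra hcon
    push Not at hcon
    have hsI : max ((2 : ℝ) ^ j * s.l) ((2 : ℝ) ^ K * (Λ + 1)) ∈ s.I := by
      rw [Tile.I, dy, hk s hs]
      refine ⟨le_max_left _ _, max_lt ?_ hcon⟩
      nlinarith
    have h2 := hT s hs hsI
    exact absurd h2.2 (not_lt.2 (le_max_right _ _))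
  have hcases : x < (2 : ℝ) ^ K * Λ ∨ (2 : ℝ) ^ K * (Λ + 1) ≤ x := by
    by_contra hcon
    push Not at hcon
    exact hx ⟨hcon.1, hcon.2⟩
  have n1 := wt_nonneg 8 ((2 : ℝ) ^ (-j) * x - (2 : ℝ) ^ (-j) * ((2 : ℝ) ^ K * Λ))
  have n2 := wt_nonneg 8 ((2 : ℝ) ^ (-j) * x - (2 : ℝ) ^ (-j) * ((2 : ℝ) ^ K * (Λ + 1)))
  have hmul : ∀ y : ℝ, (2 : ℝ) ^ (-j) * ((2 : ℝ) ^ j * y) = y := fun y => by
    rw [← mul_assoc, two_zpow_neg_mul, one_mul]
  rcases hcases with h | h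
  · have h3 := hWTS 10 ((2 : ℝ) ^ (-j) * x)
      |(2 : ℝ) ^ (-j) * x - (2 : ℝ) ^ (-j) * ((2 : ℝ) ^ K * Λ)|
      (T.image (fun s => s.l)) (by norm_num) (abs_nonneg _) (by
        intro n hn
        obtain ⟨s, hs, rfl⟩ := Finset.mem_image.1 hn
        have h4 : (2 : ℝ) ^ (-j) * ((2 : ℝ) ^ K * Λ) ≤ s.l := by
          have := mul_le_mul_of_nonneg_left (hl s hs) hj.le
          rwa [hmul] at this
        have h5 : (2 : ℝ) ^ (-j) * x < (2 : ℝ) ^ (-j) * ((2 : ℝ) ^ K * Λ) :=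
          mul_lt_mul_of_pos_left h hj
        rw [abs_of_neg (by linarith), abs_of_neg (by linarith)]
        linarith)
    rw [wt_abs, show (10 - 2 : ℕ) = 8 from rfl] at h3
    linarith
  · have h3 := hWTS 10 ((2 : ℝ) ^ (-j) * x)
      |(2 : ℝ) ^ (-j) * x - (2 : ℝ) ^ (-j) * ((2 : ℝ) ^ K * (Λ + 1))|
      (T.image (fun s => s.l)) (by norm_num) (abs_nonneg _) (by
        intro n hn
        obtain ⟨s, hs, rfl⟩ := Finset.mem_image.1 hn
        have h4 : (s.l : ℝ) + 1 ≤ (2 : ℝ) ^ (-j) * ((2 : ℝ) ^ K * (Λ + 1)) := by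
          have := mul_le_mul_of_nonneg_left (hr s hs) hj.le
          rwa [hmul] at this
        have h5 : (2 : ℝ) ^ (-j) * ((2 : ℝ) ^ K * (Λ + 1)) ≤ (2 : ℝ) ^ (-j) * x :=
          mul_le_mul_of_nonneg_left h hj.le
        rw [abs_of_nonneg (by linarith), abs_of_nonneg (by linarith)]
        linarith)
    rw [wt_abs, show (10 - 2 : ℕ) = 8 from rfl] at h3
    linarith

/-- The bound for one scale. -/
theorem scale (hWTS : T_WTS) (hWTI : T_WTI) (T : Finset Tile) (K Λ j : ℤ)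
    (hT : ∀ s ∈ T, s.I ⊆ dy K Λ) (hk : ∀ s ∈ T, s.k = j)
    (hinj : ∀ s ∈ T, ∀ t ∈ T, s.l = t.l → s = t) :
    ∑ s ∈ T, ∫ x in (dy K Λ)ᶜ, wt 10 (s.u x) ≤ 32 * (2 : ℝ) ^ j := by
  have hint : ∀ s ∈ T, Integrable (fun x => wt 10 (s.u x)) := by
    intro s _
    exact (hWTI 10 s.k s.l (by norm_num)).1
  have hw1 := hWTI 8 j ((2 : ℝ) ^ (-j) * ((2 : ℝ) ^ K * Λ)) (by norm_num)
  have hw2 := hWTI 8 j ((2 : ℝ) ^ (-j) * ((2 : ℝ) ^ K * (Λ + 1))) (by norm_num)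
  rw [← integral_finsetSum _ (fun s hs => (hint s hs).integrableOn)]
  have hF : Integrable (fun x : ℝ =>
      8 * wt 8 ((2 : ℝ) ^ (-j) * x - (2 : ℝ) ^ (-j) * ((2 : ℝ) ^ K * Λ)) +
      8 * wt 8 ((2 : ℝ) ^ (-j) * x - (2 : ℝ) ^ (-j) * ((2 : ℝ) ^ K * (Λ + 1)))) :=
    (hw1.1.const_mul 8).add (hw2.1.const_mul 8)
  have hm : MeasurableSet (dy K Λ)ᶜ := (measurableSet_dy K Λ).compl
  calc ∫ x in (dy K Λ)ᶜ, ∑ s ∈ T, wt 10 (s.u x)
      ≤ ∫ x in (dy K Λ)ᶜ,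
        (8 * wt 8 ((2 : ℝ) ^ (-j) * x - (2 : ℝ) ^ (-j) * ((2 : ℝ) ^ K * Λ)) +
        8 * wt 8 ((2 : ℝ) ^ (-j) * x - (2 : ℝ) ^ (-j) * ((2 : ℝ) ^ K * (Λ + 1)))) := by
        refine setIntegral_mono_on ?_ hF.integrableOn hm ?_
        · exact (integrable_finsetSum _ hint).integrableOn
        · intro x hx
          exact point hWTS T K Λ j hT hk hinj x hx
    _ ≤ ∫ x, (8 * wt 8 ((2 : ℝ) ^ (-j) * x - (2 : ℝ) ^ (-j) * ((2 : ℝ) ^ K * Λ)) +
        8 * wt 8 ((2 : ℝ) ^ (-j) * x - (2 : ℝ) ^ (-j) * ((2 : ℝ) ^ K * (Λ + 1)))) := by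
        refine setIntegral_le_integral hF (Filter.Eventually.of_forall fun x => ?_)
        have := wt_nonneg 8 ((2 : ℝ) ^ (-j) * x - (2 : ℝ) ^ (-j) * ((2 : ℝ) ^ K * Λ))
        have := wt_nonneg 8 ((2 : ℝ) ^ (-j) * x - (2 : ℝ) ^ (-j) * ((2 : ℝ) ^ K * (Λ + 1)))
        simp only [Pi.zero_apply]
        positivity
    _ = 8 * (∫ x, wt 8 ((2 : ℝ) ^ (-j) * x - (2 : ℝ) ^ (-j) * ((2 : ℝ) ^ K * Λ))) +
        8 * ∫ x, wt 8 ((2 : ℝ) ^ (-j) * x - (2 : ℝ) ^ (-j) * ((2 : ℝ) ^ K * (Λ + 1))) := by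
        rw [integral_add (hw1.1.const_mul 8) (hw2.1.const_mul 8), integral_const_mul,
          integral_const_mul]
    _ ≤ 32 * (2 : ℝ) ^ j := by
        have h1 := hw1.2
        have h2 := hw2.2
        linarith

end GEO_

open GEO_ in
/-- Sum of the tails of a tree outside its top. -/
theorem p_GEO (hWTS : T_WTS) (hWTI : T_WTI) : T_GEO := by
  classical
  refine ⟨64, by norm_num, ?_⟩
  intro T K Λ hT hinj
  have h1 : ∑ s ∈ T, ∫ x in (dy K Λ)ᶜ, wt 10 (s.u x) =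
      ∑ j ∈ T.image (fun s => s.k), ∑ s ∈ T.filter (fun s => s.k = j),
        ∫ x in (dy K Λ)ᶜ, wt 10 (s.u x) :=
    (Finset.sum_fiberwise_of_maps_to (fun s hs => Finset.mem_image_of_mem _ hs) _).symm
  rw [h1]
  calc ∑ j ∈ T.image (fun s => s.k), ∑ s ∈ T.filter (fun s => s.k = j),
        ∫ x in (dy K Λ)ᶜ, wt 10 (s.u x)
      ≤ ∑ j ∈ T.image (fun s => s.k), 32 * (2 : ℝ) ^ j := by
        refine Finset.sum_le_sum fun j _ => ?_
        refine scale hWTS hWTI _ K Λ j ?_ ?_ ?_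
        · intro s hs
          exact hT s (Finset.mem_filter.1 hs).1
        · intro s hs
          exact (Finset.mem_filter.1 hs).2
        · intro s hs t ht hl
          have hs' := Finset.mem_filter.1 hs
          have ht' := Finset.mem_filter.1 ht
          exact hinj s hs'.1 t ht'.1 (hs'.2.trans ht'.2.symm) hl
    _ = 32 * ∑ j ∈ T.image (fun s => s.k), (2 : ℝ) ^ j := by rw [Finset.mul_sum]
    _ ≤ 32 * (2 * (2 : ℝ) ^ K) := by
        refine mul_le_mul_of_nonneg_left ?_ (by norm_num)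
        refine sum_zpow _ K ?_
        intro j hj
        obtain ⟨s, hs, rfl⟩ := Finset.mem_image.1 hj
        exact le_of_dy_sub (hT s hs)
    _ = 64 * (2 : ℝ) ^ K := by ring

end Pool.Agent.CAR
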