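import Pool.Agent.CAR.Targets

set_option autoImplicit false

/-!
# CAR: integrals of the weights
-/

namespace Pool.Agent.CAR

open MeasureTheory Set Filter Topology

namespace WTI_

theorem cont (n : ℕ) : Continuous (wt n) := by
  unfold wt
  refine Continuous.inv₀ (by fun_prop) fun t => ?_
  have := abs_nonneg t
  positivity

theorem integ {n : ℕ} (hn : 2 ≤ n) : Integrable (wt n) := by
  have h := integrable_one_add_norm (E := ℝ) (μ := volume) (r := n)
    (by rw [Module.finrank_self]; exact_mod_cast hn)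
  refine h.congr (Eventually.of_forall fun t => ?_)
  simp only [wt, Real.norm_eq_abs]
  rw [Real.rpow_neg (by have := abs_nonneg t; positivity), Real.rpow_natCast]

theorem int_half : ∫ x in Ioi (0 : ℝ), ((1 + x) ^ 2)⁻¹ = 1 := by
  have h1 : ∀ x ∈ Ici (0 : ℝ), HasDerivAt (fun x : ℝ => -(1 + x)⁻¹) (((1 + x) ^ 2)⁻¹) x := by
    intro x hx
    have hx' : (0 : ℝ) ≤ x := hx
    have h2 : HasDerivAt (fun x : ℝ => 1 + x) 1 x := (hasDerivAt_id x).const_add 1
    have h3 := (h2.inv (by positivity)).neg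
    have h6 : -(-1 / (1 + x) ^ 2) = ((1 + x) ^ 2)⁻¹ := by rw [neg_div, neg_neg, one_div]
    rw [h6] at h3
    exact h3
  have h4 : Tendsto (fun x : ℝ => -(1 + x)⁻¹) atTop (𝓝 (-0)) := by
    apply Tendsto.neg
    exact tendsto_inv_atTop_zero.comp (tendsto_atTop_add_const_left _ _ tendsto_id)
  have h5 := integral_Ioi_of_hasDerivAt_of_nonneg' h1 (fun x hx => by positivity) h4
  rw [h5]
  norm_num

theorem int_two : ∫ t, wt 2 t = 2 := by
  have h := integral_comp_abs (f := fun x : ℝ => ((1 + x) ^ 2)⁻¹)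
  rw [int_half] at h
  simpa [wt] using h

theorem wt_le {n : ℕ} (hn : 2 ≤ n) (t : ℝ) : wt n t ≤ wt 2 t := by
  unfold wt
  have h1 : (1 : ℝ) ≤ 1 + |t| := by linarith [abs_nonneg t]
  exact inv_anti₀ (by positivity) (pow_le_pow_right₀ h1 hn)

end WTI_

open WTI_ in
theorem p_WTI : T_WTI := by
  intro M k l hM
  have h1 : Integrable (fun x : ℝ => wt M ((2 : ℝ) ^ (-k) * x - l)) := by
    have h := (integ hM).comp_sub_right l
    exact h.comp_mul_left' (two_zpow_pos _).ne'
  refine ⟨h1, ?_⟩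
  have h2 : ∫ x, wt M ((2 : ℝ) ^ (-k) * x - l) = (2 : ℝ) ^ k * ∫ t, wt M t := by
    rw [Measure.integral_comp_mul_left (fun y => wt M (y - l)) ((2 : ℝ) ^ (-k)),
      integral_sub_right_eq_self (fun y => wt M y) l, zpow_neg, inv_inv,
      abs_of_pos (two_zpow_pos _), smul_eq_mul]
  rw [h2, mul_comm]
  refine mul_le_mul_of_nonneg_right ?_ (two_zpow_pos _).le
  rw [← int_two]
  exact integral_mono (integ hM) (integ le_rfl) (wt_le hM)

end Pool.Agent.CAR
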