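import Pool.Agent.CAR.Targets

set_option autoImplicit false

/-!
# CAR: sums of the weights
-/

namespace Pool.Agent.CAR

open MeasureTheory Set Filter Topology

namespace WTS_

theorem sum_nat (B : Finset ℕ) : ∑ n ∈ B, 1 / (n : ℝ) ^ 2 ≤ 5 / 3 := by
  have h := hasSum_zeta_two
  have h1 := sum_le_hasSum B (fun n _ => by positivity) h
  have h2 : Real.pi ^ 2 ≤ 10 := by
    have := Real.pi_lt_d2
    have := Real.pi_pos
    nlinarith
  linarith

theorem sum_int (A : Finset ℤ) :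
    ∑ d ∈ A, (if d = 0 then (1 : ℝ) else 1 / (d : ℝ) ^ 2) ≤ 8 := by
  have key : ∀ (B : Finset ℤ), Set.InjOn Int.natAbs B → (0 : ℤ) ∉ B →
      ∑ d ∈ B, (if d = 0 then (1 : ℝ) else 1 / (d : ℝ) ^ 2) ≤ 5 / 3 := by
    intro B hB h0
    have e : ∑ d ∈ B, (if d = 0 then (1 : ℝ) else 1 / (d : ℝ) ^ 2) =
        ∑ n ∈ B.image Int.natAbs, 1 / (n : ℝ) ^ 2 := by
      rw [Finset.sum_image hB]
      refine Finset.sum_congr rfl fun d hd => ?_
      have hd0 : d ≠ 0 := fun h => h0 (h ▸ hd)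
      rw [if_neg hd0]
      congr 1
      have : ((Int.natAbs d : ℕ) : ℝ) = |(d : ℝ)| := by
        rw [← Int.cast_natCast, Int.natCast_natAbs, Int.cast_abs]
      rw [this, sq_abs]
    rw [e]
    exact sum_nat _
  have hsplit : ∑ d ∈ A, (if d = 0 then (1 : ℝ) else 1 / (d : ℝ) ^ 2) =
      ∑ d ∈ A.filter (fun d => 0 < d), (if d = 0 then (1 : ℝ) else 1 / (d : ℝ) ^ 2) +
      (∑ d ∈ (A.filter (fun d => ¬ 0 < d)).filter (fun d => d < 0),
        (if d = 0 then (1 : ℝ) else 1 / (d : ℝ) ^ 2) +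
      ∑ d ∈ (A.filter (fun d => ¬ 0 < d)).filter (fun d => ¬ d < 0),
        (if d = 0 then (1 : ℝ) else 1 / (d : ℝ) ^ 2)) := by
    rw [Finset.sum_filter_add_sum_filter_not, Finset.sum_filter_add_sum_filter_not]
  rw [hsplit]
  have h1 := key (A.filter (fun d => 0 < d)) (by
    intro x hx y hy hxy
    simp only [Finset.coe_filter, Set.mem_ofPred_eq] at hx hy
    omega) (by simp)
  have h2 := key ((A.filter (fun d => ¬ 0 < d)).filter (fun d => d < 0)) (by
    intro x hx y hy hxy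
    simp only [Finset.coe_filter, Set.mem_ofPred_eq, Finset.mem_filter] at hx hy
    omega) (by simp)
  have h3 : ∑ d ∈ (A.filter (fun d => ¬ 0 < d)).filter (fun d => ¬ d < 0),
        (if d = 0 then (1 : ℝ) else 1 / (d : ℝ) ^ 2) ≤ 1 := by
    have h4 : (A.filter (fun d => ¬ 0 < d)).filter (fun d => ¬ d < 0) ⊆ {0} := by
      intro d hd
      simp only [Finset.mem_filter, Finset.mem_singleton] at hd ⊢
      omega
    refine (Finset.sum_le_sum_of_subset_of_nonneg h4 fun d _ _ => ?_).trans ?_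
    · split_ifs <;> positivity
    · simp
  linarith

theorem wt_le (t : ℝ) (n : ℤ) :
    wt 2 (t - n) ≤ if n - ⌊t⌋ = 0 then (1 : ℝ) else 1 / ((n - ⌊t⌋ : ℤ) : ℝ) ^ 2 := by
  unfold wt
  have h0 := abs_nonneg (t - n)
  split_ifs with h
  · exact inv_le_one_of_one_le₀ (one_le_pow₀ (by linarith))
  · rw [← one_div]
    have h1 : |((n - ⌊t⌋ : ℤ) : ℝ)| ≤ 1 + |t - n| := by
      have h2 := Int.floor_le t
      have h3 := Int.lt_floor_add_one t
      push_cast
      rw [abs_le]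
      constructor
      · have := le_abs_self (t - n); linarith
      · have := neg_abs_le (t - n); linarith
    have h4 : ((n - ⌊t⌋ : ℤ) : ℝ) ≠ 0 := by exact_mod_cast h
    have h5 : 0 < |((n - ⌊t⌋ : ℤ) : ℝ)| := abs_pos.2 h4
    refine one_div_le_one_div_of_le (by positivity) ?_
    rw [← sq_abs]
    exact pow_le_pow_left₀ h5.le h1 2

end WTS_

open WTS_ in
theorem p_WTS : T_WTS := by
  intro M t D A hM hD hA
  obtain ⟨m, rfl⟩ : ∃ m, M = m + 2 := ⟨M - 2, by omega⟩
  have e : m + 2 - 2 = m := by omega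
  rw [e]
  have h1 : ∀ n ∈ A, wt (m + 2) (t - n) ≤ wt m D * wt 2 (t - n) := by
    intro n hn
    have h2 : wt (m + 2) (t - n) = wt m (t - n) * wt 2 (t - n) := by
      unfold wt; rw [pow_add, mul_inv]
    rw [h2]
    refine mul_le_mul_of_nonneg_right ?_ (by unfold wt; positivity)
    unfold wt
    refine inv_anti₀ (by positivity) (pow_le_pow_left₀ (by positivity) ?_ m)
    rw [abs_of_nonneg hD]
    linarith [hA n hn]
  calc ∑ n ∈ A, wt (m + 2) (t - n) ≤ ∑ n ∈ A, wt m D * wt 2 (t - n) := Finset.sum_le_sum h1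
    _ = wt m D * ∑ n ∈ A, wt 2 (t - n) := by rw [Finset.mul_sum]
    _ ≤ wt m D * 8 := by
      refine mul_le_mul_of_nonneg_left ?_ (by unfold wt; positivity)
      calc ∑ n ∈ A, wt 2 (t - n) ≤
            ∑ n ∈ A, (if n - ⌊t⌋ = 0 then (1 : ℝ) else 1 / ((n - ⌊t⌋ : ℤ) : ℝ) ^ 2) :=
            Finset.sum_le_sum fun n _ => wt_le t n
        _ = ∑ d ∈ A.image (fun n => n - ⌊t⌋),
            (if d = 0 then (1 : ℝ) else 1 / (d : ℝ) ^ 2) := by
          rw [Finset.sum_image (fun x _ y _ h => by simpa using h)]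
        _ ≤ 8 := sum_int _
    _ = 8 * wt m D := mul_comm _ _

end Pool.Agent.CAR
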