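import Pool.Agent.CAR.STargets
import Pool.Agent.CAR.P_WTS
import Pool.Agent.CAR.P_WTI
import Pool.Agent.CAR.P_FXB
import Pool.Agent.CAR.P_GEO
import Pool.Agent.CAR.GEO

set_option autoImplicit false

/-!
# The Carleson operator on the line, STRONG TYPE part: block ENB (energy of a bounded function)
-/

namespace Pool.Agent.CAR

open MeasureTheory Set ComplexConjugate
open scoped ENNReal NNReal

namespace ENB_

theorem hs_sq (s : Tile) : hs s ^ 2 * (2 : ℝ) ^ s.k = 1 := by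
  have h := two_zpow_pos s.k
  unfold hs
  rw [inv_pow, Real.sq_sqrt h.le, inv_mul_cancel₀ h.ne']

theorem hs_nonneg (s : Tile) : 0 ≤ hs s := by
  unfold hs
  positivity

theorem integ {φ f : ℝ → ℂ} {s : Tile} {h : ℝ} (hf : Measurable f) (hb : ∀ x, ‖f x‖ ≤ h)
    (hi : Integrable (fx φ s)) : Integrable fun x => f x * conj (fx φ s x) := by
  have h1 : Integrable fun x => conj (fx φ s x) := by
    refine (integrable_norm_iff ?_).1 ?_
    · exact Complex.continuous_conj.comp_aestronglyMeasurable hi.aestronglyMeasurable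
    · simpa using hi.norm
  exact h1.bdd_mul hf.aestronglyMeasurable (Filter.Eventually.of_forall hb)

theorem cf_split {φ f : ℝ → ℂ} {s : Tile} {h : ℝ} (hf : Measurable f) (hb : ∀ x, ‖f x‖ ≤ h)
    (h0 : 0 ≤ h) (hi : Integrable (fx φ s)) {I : Set ℝ} (hI : MeasurableSet I) :
    cf φ f s = cf φ (I.indicator f) s + cf φ (Iᶜ.indicator f) s := by
  have e : ∀ J : Set ℝ, ∀ x, ‖J.indicator f x‖ ≤ h := by
    intro J x
    by_cases hx : x ∈ J
    · rw [indicator_of_mem hx]; exact hb x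
    · rw [indicator_of_notMem hx, norm_zero]; exact h0
  unfold cf
  rw [← integral_add (integ (hf.indicator hI) (e I) hi)
    (integ (hf.indicator hI.compl) (e Iᶜ) hi)]
  refine integral_congr_ae (Filter.Eventually.of_forall fun x => ?_)
  by_cases hx : x ∈ I
  · have hx' : x ∉ Iᶜ := fun h => h hx
    simp only [indicator_of_mem hx, indicator_of_notMem hx', zero_mul, add_zero]
  · have hx' : x ∈ Iᶜ := hx
    simp only [indicator_of_notMem hx, indicator_of_mem hx', zero_mul, zero_add]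

/-- the part outside `I` -/
theorem out {A : ℝ} {φ Φ f : ℝ → ℂ} {s : Tile} {h : ℝ} (hφ : WPk A φ Φ) (hf : Measurable f)
    (hb : ∀ x, ‖f x‖ ≤ h) (h0 : 0 ≤ h) {J : Set ℝ} (hJ : MeasurableSet J) :
    ‖cf φ (J.indicator f) s‖ ^ 2 ≤ 2 * h ^ 2 * A ^ 2 * ∫ x in J, wt 10 (s.u x) := by
  obtain ⟨_, _, hbd, _, _, _, _⟩ := p_FXB A φ Φ hφ s
  have hA : 0 ≤ A := hφ.pos.le
  have hwi : Integrable fun x => wt 10 (s.u x) := integrable_wt_u (by norm_num) s
  have h1 : ‖cf φ (J.indicator f) s‖ ≤ h * A * hs s * ∫ x in J, wt 10 (s.u x) := by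
    unfold cf
    calc ‖∫ x, J.indicator f x * conj (fx φ s x)‖
        ≤ ∫ x, J.indicator (fun x => h * A * hs s * wt 10 (s.u x)) x := by
          refine norm_integral_le_of_norm_le ((hwi.const_mul _).indicator hJ)
            (Filter.Eventually.of_forall fun x => ?_)
          by_cases hx : x ∈ J
          · rw [indicator_of_mem hx, indicator_of_mem hx, norm_mul, RCLike.norm_conj]
            calc ‖f x‖ * ‖fx φ s x‖ ≤ h * (A * hs s * wt 20 (s.u x)) :=
                  mul_le_mul (hb x) (hbd x) (norm_nonneg _) h0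
              _ ≤ h * (A * hs s * wt 10 (s.u x)) := by
                  refine mul_le_mul_of_nonneg_left (mul_le_mul_of_nonneg_left
                    (wt_anti (by norm_num) _) (mul_nonneg hA (hs_nonneg s))) h0
              _ = _ := by ring
          · rw [indicator_of_notMem hx, indicator_of_notMem hx, zero_mul, norm_zero]
      _ = h * A * hs s * ∫ x in J, wt 10 (s.u x) := by
          rw [integral_indicator hJ, integral_const_mul]
  have h2 : 0 ≤ ∫ x in J, wt 10 (s.u x) := integral_nonneg fun x => wt_nonneg _ _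
  have h3 : ∫ x in J, wt 10 (s.u x) ≤ 2 * (2 : ℝ) ^ s.k := by
    calc ∫ x in J, wt 10 (s.u x) ≤ ∫ x, wt 10 (s.u x) :=
          setIntegral_le_integral hwi (Filter.Eventually.of_forall fun x => wt_nonneg _ _)
      _ ≤ 2 * (2 : ℝ) ^ s.k := (p_WTI 10 s.k s.l (by norm_num)).2
  have h4 := hs_sq s
  have hh := hs_nonneg s
  calc ‖cf φ (J.indicator f) s‖ ^ 2 ≤ (h * A * hs s * ∫ x in J, wt 10 (s.u x)) ^ 2 :=
        pow_le_pow_left₀ (norm_nonneg _) h1 2
    _ = h ^ 2 * A ^ 2 * hs s ^ 2 * (∫ x in J, wt 10 (s.u x)) * (∫ x in J, wt 10 (s.u x)) := by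
        ring
    _ ≤ h ^ 2 * A ^ 2 * hs s ^ 2 * (2 * (2 : ℝ) ^ s.k) * (∫ x in J, wt 10 (s.u x)) := by
        refine mul_le_mul_of_nonneg_right (mul_le_mul_of_nonneg_left h3 (by positivity)) h2
    _ = 2 * h ^ 2 * A ^ 2 * (hs s ^ 2 * (2 : ℝ) ^ s.k) * ∫ x in J, wt 10 (s.u x) := by ring
    _ = _ := by rw [h4, mul_one]

theorem inner_int {f : ℝ → ℂ} {h : ℝ} (hf : Measurable f) (hb : ∀ x, ‖f x‖ ≤ h)
    (K Λ : ℤ) :
    Integrable (fun x => ‖(dy K Λ).indicator f x‖ ^ 2) ∧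
    ∫ x, ‖(dy K Λ).indicator f x‖ ^ 2 ≤ h ^ 2 * (2 : ℝ) ^ K := by
  have hI := measurableSet_dy K Λ
  have hv : volume (dy K Λ) ≠ ⊤ := by rw [volume_dy]; exact ENNReal.ofReal_ne_top
  have e : (fun x => ‖(dy K Λ).indicator f x‖ ^ 2) =
      (dy K Λ).indicator (fun x => ‖f x‖ ^ 2) := by
    funext x
    by_cases hx : x ∈ dy K Λ
    · rw [indicator_of_mem hx, indicator_of_mem hx]
    · rw [indicator_of_notMem hx, indicator_of_notMem hx, norm_zero]; norm_num
  have hc : Integrable ((dy K Λ).indicator fun _ : ℝ => h ^ 2) :=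
    (integrable_indicator_iff hI).2 (integrableOn_const hv)
  have hle : ∀ x, (dy K Λ).indicator (fun x => ‖f x‖ ^ 2) x ≤
      (dy K Λ).indicator (fun _ : ℝ => h ^ 2) x := by
    intro x
    refine indicator_le_indicator ?_
    exact pow_le_pow_left₀ (norm_nonneg _) (hb x) 2
  have h0 : ∀ x, 0 ≤ (dy K Λ).indicator (fun x => ‖f x‖ ^ 2) x :=
    fun x => indicator_nonneg (fun _ _ => by positivity) x
  have hint : Integrable ((dy K Λ).indicator fun x => ‖f x‖ ^ 2) := by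
    refine hc.mono' ((hf.norm.pow_const 2).indicator hI).aestronglyMeasurable
      (Filter.Eventually.of_forall fun x => ?_)
    rw [Real.norm_eq_abs, abs_of_nonneg (h0 x)]
    exact hle x
  rw [e]
  refine ⟨hint, ?_⟩
  calc ∫ x, (dy K Λ).indicator (fun x => ‖f x‖ ^ 2) x
      ≤ ∫ x, (dy K Λ).indicator (fun _ : ℝ => h ^ 2) x := integral_mono hint hc hle
    _ = h ^ 2 * (2 : ℝ) ^ K := by
        rw [integral_indicator hI, setIntegral_const, smul_eq_mul, Measure.real, volume_dy,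
          ENNReal.toReal_ofReal (two_zpow_pos K).le, mul_comm]

end ENB_

open ENB_ in
theorem p_ENB (hDSQ : T_DSQ) : T_ENB := by
  intro A
  obtain ⟨C1, hC1, h1⟩ := hDSQ A
  obtain ⟨C2, hC2, h2⟩ := p_GEO p_WTS p_WTI
  refine ⟨2 * C1 + 4 * A ^ 2 * C2, by positivity, ?_⟩
  intro φ Φ hφ f h hf h0 hb T K Λ ξ hT
  have hI := measurableSet_dy K Λ
  obtain ⟨i1, i2⟩ := inner_int hf hb K Λ
  have e1 : ∑ s ∈ T, ‖cf φ ((dy K Λ).indicator f) s‖ ^ 2 ≤ C1 * (h ^ 2 * (2 : ℝ) ^ K) :=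
    (h1 φ Φ hφ _ (hf.indicator hI) i1 T K Λ ξ hT).trans (mul_le_mul_of_nonneg_left i2 hC1.le)
  have e2 : ∑ s ∈ T, ‖cf φ ((dy K Λ)ᶜ.indicator f) s‖ ^ 2 ≤
      2 * h ^ 2 * A ^ 2 * (C2 * (2 : ℝ) ^ K) := by
    calc ∑ s ∈ T, ‖cf φ ((dy K Λ)ᶜ.indicator f) s‖ ^ 2
        ≤ ∑ s ∈ T, 2 * h ^ 2 * A ^ 2 * ∫ x in (dy K Λ)ᶜ, wt 10 (s.u x) :=
          Finset.sum_le_sum fun s _ => out hφ hf hb h0 hI.compl
      _ = 2 * h ^ 2 * A ^ 2 * ∑ s ∈ T, ∫ x in (dy K Λ)ᶜ, wt 10 (s.u x) := by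
          rw [Finset.mul_sum]
      _ ≤ 2 * h ^ 2 * A ^ 2 * (C2 * (2 : ℝ) ^ K) := by
          refine mul_le_mul_of_nonneg_left (h2 T K Λ (fun s hs => (hT s hs).1) ?_)
            (by positivity)
          intro s hs t ht hk hl
          exact Tile.ext hk hl (m_eq hk (up_sub s (hT s hs).2) (up_sub t (hT t ht).2))
  calc ∑ s ∈ T, ‖cf φ f s‖ ^ 2
      ≤ ∑ s ∈ T, (2 * ‖cf φ ((dy K Λ).indicator f) s‖ ^ 2 +
          2 * ‖cf φ ((dy K Λ)ᶜ.indicator f) s‖ ^ 2) := by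
        refine Finset.sum_le_sum fun s _ => ?_
        obtain ⟨_, _, _, _, _, hi, _⟩ := p_FXB A φ Φ hφ s
        rw [cf_split hf hb h0 hi hI]
        have h3 := norm_add_le (cf φ ((dy K Λ).indicator f) s) (cf φ ((dy K Λ)ᶜ.indicator f) s)
        have h4 := norm_nonneg (cf φ ((dy K Λ).indicator f) s)
        have h5 := norm_nonneg (cf φ ((dy K Λ)ᶜ.indicator f) s)
        have h6 := norm_nonneg (cf φ ((dy K Λ).indicator f) s + cf φ ((dy K Λ)ᶜ.indicator f) s)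
        nlinarith [sq_nonneg (‖cf φ ((dy K Λ).indicator f) s‖ -
          ‖cf φ ((dy K Λ)ᶜ.indicator f) s‖)]
    _ = 2 * ∑ s ∈ T, ‖cf φ ((dy K Λ).indicator f) s‖ ^ 2 +
          2 * ∑ s ∈ T, ‖cf φ ((dy K Λ)ᶜ.indicator f) s‖ ^ 2 := by
        rw [Finset.sum_add_distrib, Finset.mul_sum, Finset.mul_sum]
    _ ≤ 2 * (C1 * (h ^ 2 * (2 : ℝ) ^ K)) + 2 * (2 * h ^ 2 * A ^ 2 * (C2 * (2 : ℝ) ^ K)) := by
        linarith
    _ = _ := by ring

end Pool.Agent.CAR
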