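import Pool.Agent.CAR.Targets
import Pool.Agent.CAR.ORTB

set_option autoImplicit false

/-!
# The Carleson operator on the line: ENER, the energy lemma
-/

namespace Pool.Agent.CAR

open MeasureTheory Set ComplexConjugate
open scoped ENNReal NNReal

theorem en_iff {c : Tile → ℝ} {S : Finset Tile} {eps : ℝ} : En c S eps ↔ SELE_.En c S eps :=
  ⟨fun h T hT k l xi hh => h T k l xi hT hh, fun h T k l xi hT hh => h T hT k l xi hh⟩

theorem ipb_of {A : ℝ} (hIPB : T_IPB) (hIPZ : T_IPZ) : ∃ C : ℝ, 0 < C ∧ IPb A C := by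
  obtain ⟨C, hC, h⟩ := hIPB A
  refine ⟨C, hC, ?_⟩
  intro φ Φ hW s t
  refine ⟨fun hk => ?_, fun hd => (hIPZ A φ Φ hW s t).1 hd⟩
  have h1 := h φ Φ hW s t hk
  refine h1.trans (le_of_eq ?_)
  unfold hs
  ring

/-- ENER -/
theorem p_ENER (hIPB : T_IPB) (hIPZ : T_IPZ) : T_ENER := by
  intro A
  obtain ⟨B, hB, hIP⟩ := ipb_of (A := A) hIPB hIPZ
  obtain ⟨C, hC, h⟩ := energy_lemma hB hIP
  refine ⟨C, hC, ?_⟩
  intro φ Φ g b N E hW hD S eps heps hEn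
  obtain ⟨n, K, L, X, S', h1, h2, h3, h4⟩ :=
    h φ Φ g hW hD.mg hD.ig hD.sg S eps heps (en_iff.1 hEn)
  exact ⟨n, K, L, X, S', h1, en_iff.2 h4, h3, h2⟩

end Pool.Agent.CAR
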