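import Pool.Agent.CAR.Targets

set_option autoImplicit false

/-!
# CAR, block STOP: stopping scale functions of trees
-/

namespace Pool.Agent.CAR

open MeasureTheory Set
open scoped ENNReal NNReal

namespace STOP_

/-- the union of `dy k l` and its two neighbours -/
def tri (k l : ℤ) : Set ℝ := Ico ((2 : ℝ) ^ k * (l - 1)) ((2 : ℝ) ^ k * (l + 2))

/-- position of `x` at the scale `k` -/
noncomputable def pos (k : ℤ) (x : ℝ) : ℤ := ⌊(2 : ℝ) ^ (-k) * x⌋

/-- the scale `k` is bad at the position `l` -/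
def badl (T : Finset Tile) (k l : ℤ) : Prop := ∃ s ∈ T, s.I ⊆ tri k l

/-- the scale `k` is bad at `x` -/
def bad (T : Finset Tile) (x : ℝ) (k : ℤ) : Prop := badl T k (pos k x)

theorem pos_succ (k : ℤ) (x : ℝ) :
    2 * pos (k + 1) x ≤ pos k x ∧ pos k x ≤ 2 * pos (k + 1) x + 1 := by
  have h1 : x ∈ dy k (pos k x) := exists_mem_dy k x
  have h2 : x ∈ dy (k + 1) (pos (k + 1) x) := exists_mem_dy (k + 1) x
  have hp := two_zpow_pos k
  have e := two_zpow_succ k
  rw [dy, mem_Ico] at h1 h2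
  rw [e] at h2
  obtain ⟨a1, a2⟩ := h1
  obtain ⟨b1, b2⟩ := h2
  constructor
  · have h3 : (2 : ℝ) ^ k * (2 * pos (k + 1) x : ℝ) < (2 : ℝ) ^ k * (pos k x + 1) := by
      nlinarith
    have h4 := lt_of_mul_lt_mul_left h3 hp.le
    have h5 : 2 * pos (k + 1) x < pos k x + 1 := by exact_mod_cast h4
    omega
  · have h3 : (2 : ℝ) ^ k * (pos k x : ℝ) < (2 : ℝ) ^ k * (2 * pos (k + 1) x + 2) := by
      nlinarith
    have h4 := lt_of_mul_lt_mul_left h3 hp.le
    have h5 : pos k x < 2 * pos (k + 1) x + 2 := by exact_mod_cast h4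
    omega

theorem pos_succ_eq (k : ℤ) (x : ℝ) : pos (k + 1) x = pos k x / 2 := by
  have := pos_succ k x
  omega

theorem tri_mono (k : ℤ) (x : ℝ) : tri k (pos k x) ⊆ tri (k + 1) (pos (k + 1) x) := by
  obtain ⟨h1, h2⟩ := pos_succ k x
  have hp := two_zpow_pos k
  have e := two_zpow_succ k
  have h1' : (2 : ℝ) * pos (k + 1) x ≤ pos k x := by exact_mod_cast h1
  have h2' : (pos k x : ℝ) ≤ 2 * pos (k + 1) x + 1 := by exact_mod_cast h2
  unfold tri
  rw [e]
  apply Ico_subset_Ico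
  · nlinarith
  · nlinarith

theorem bad_succ {T : Finset Tile} {x : ℝ} {k : ℤ} (h : bad T x k) : bad T x (k + 1) := by
  obtain ⟨s, hs, h1⟩ := h
  exact ⟨s, hs, h1.trans (tri_mono k x)⟩

theorem bad_mono {T : Finset Tile} {x : ℝ} {k k' : ℤ} (hk : k ≤ k') (h : bad T x k) :
    bad T x k' := by
  obtain ⟨n, hn⟩ : ∃ n : ℕ, k' = k + n := ⟨(k' - k).toNat, by omega⟩
  subst hn
  clear hk
  induction n with
  | zero => simpa using h
  | succ n ih =>
    have := bad_succ ih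
    rw [add_assoc] at this
    exact_mod_cast this

/-- lengths -/
theorem len_le {s : Tile} {k l : ℤ} (h : s.I ⊆ tri k l) : (2 : ℝ) ^ s.k ≤ 3 * (2 : ℝ) ^ k := by
  have hp := two_zpow_pos k
  have h1 := measure_mono (μ := volume) h
  rw [Tile.I, volume_dy, tri, Real.volume_Ico] at h1
  have e : (2 : ℝ) ^ k * ((l : ℝ) + 2) - (2 : ℝ) ^ k * ((l : ℝ) - 1) = 3 * (2 : ℝ) ^ k := by ring
  rw [e, ENNReal.ofReal_le_ofReal_iff (by positivity)] at h1
  exact h1

theorem low {T : Finset Tile} {x : ℝ} {k m : ℤ} (hm : ∀ s ∈ T, m ≤ s.k) (h : bad T x k) :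
    m - 1 ≤ k := by
  obtain ⟨s, hs, h1⟩ := h
  have h2 := len_le h1
  have h3 : (2 : ℝ) ^ m ≤ (2 : ℝ) ^ s.k := two_zpow_le (hm s hs)
  by_contra hcon
  push Not at hcon
  have h4 : (2 : ℝ) ^ (k + 2) ≤ (2 : ℝ) ^ m := two_zpow_le (by omega)
  have e : (2 : ℝ) ^ (k + 2) = 4 * (2 : ℝ) ^ k := by
    rw [show k + 2 = (k + 1) + 1 by ring, two_zpow_succ, two_zpow_succ]
    ring
  have hp := two_zpow_pos k
  linarith

theorem high {T : Finset Tile} (hT : T.Nonempty) (x : ℝ) : ∃ k : ℤ, bad T x k := by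
  obtain ⟨s, hs⟩ := hT
  obtain ⟨n, hn⟩ : ∃ n : ℕ,
      max (x - (2 : ℝ) ^ s.k * s.l) ((2 : ℝ) ^ s.k * (s.l + 1) - x) < (2 : ℝ) ^ n :=
    pow_unbounded_of_one_lt _ (by norm_num)
  obtain ⟨h1, h2⟩ := max_lt_iff.1 hn
  refine ⟨n, s, hs, ?_⟩
  have h3 : x ∈ dy n (pos n x) := exists_mem_dy n x
  rw [dy, mem_Ico, zpow_natCast] at h3
  unfold Tile.I dy tri
  rw [zpow_natCast]
  apply Ico_subset_Ico
  · nlinarith [h3.1]
  · nlinarith [h3.2]

theorem exk {T : Finset Tile} (hT : T.Nonempty) (x : ℝ) :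
    ∃ k : ℤ, ¬ bad T x k ∧ bad T x (k + 1) := by
  classical
  obtain ⟨s0, hs0, hmin⟩ := T.exists_min_image (fun s => s.k) hT
  obtain ⟨kb, hkb⟩ := high hT x
  obtain ⟨k, hk, hleast⟩ := Int.exists_least_of_bdd (P := fun k => bad T x k)
    ⟨s0.k - 1, fun z hz => low (fun s hs => hmin s hs) hz⟩ ⟨kb, hkb⟩
  refine ⟨k - 1, fun h => ?_, by simpa using hk⟩
  have := hleast _ h
  omega

theorem uniq {T : Finset Tile} {x : ℝ} {k k' : ℤ} (h : ¬ bad T x k) (h1 : bad T x (k + 1))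
    (h' : ¬ bad T x k') (h1' : bad T x (k' + 1)) : k = k' := by
  rcases lt_trichotomy k k' with hlt | heq | hgt
  · exact absurd (bad_mono (by omega) h1) h'
  · exact heq
  · exact absurd (bad_mono (by omega) h1') h

theorem meas_bad (T : Finset Tile) (k : ℤ) : MeasurableSet {x : ℝ | bad T x k} := by
  have h1 : Measurable (fun x : ℝ => pos k x) := by
    unfold pos
    exact Int.measurable_floor.comp (measurable_const.mul measurable_id)
  exact h1 (MeasurableSet.of_discrete (s := {l : ℤ | badl T k l}))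

theorem far {T : Finset Tile} {x : ℝ} {k : ℤ} (h : ¬ bad T x k) {s : Tile} (hs : s ∈ T)
    (hk : s.k ≤ k) : (2 : ℝ) ^ (k - s.k) ≤ |s.u x| := by
  have hp := two_zpow_pos k
  have hsub : s.I ⊆ dy k (s.l / 2 ^ (k - s.k).toNat) := dy_sub_anc hk
  set l' := s.l / 2 ^ (k - s.k).toNat with hl'
  set l := pos k x with hl
  have hx : x ∈ dy k l := exists_mem_dy k x
  have hpt : (2 : ℝ) ^ s.k * s.l ∈ dy k l' := hsub (left_mem_dy s.k s.l)
  have hcase : l' ≤ l - 2 ∨ l + 2 ≤ l' := by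
    by_contra hcon
    push Not at hcon
    obtain ⟨c1, c2⟩ := hcon
    apply h
    refine ⟨s, hs, hsub.trans ?_⟩
    unfold dy tri
    rw [← hl]
    have d1 : (l : ℝ) - 1 ≤ l' := by
      have : l - 1 ≤ l' := by omega
      exact_mod_cast this
    have d2 : (l' : ℝ) ≤ l + 1 := by
      have : l' ≤ l + 1 := by omega
      exact_mod_cast this
    apply Ico_subset_Ico
    · exact mul_le_mul_of_nonneg_left d1 hp.le
    · refine mul_le_mul_of_nonneg_left ?_ hp.le
      linarith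
  rw [dy, mem_Ico] at hx hpt
  have hd : (2 : ℝ) ^ k ≤ |x - (2 : ℝ) ^ s.k * s.l| := by
    rcases hcase with c | c
    · have c' : (l' : ℝ) ≤ l - 2 := by exact_mod_cast c
      have : (2 : ℝ) ^ k * (l' + 1) ≤ (2 : ℝ) ^ k * (l - 1) :=
        mul_le_mul_of_nonneg_left (by linarith) hp.le
      refine le_trans ?_ (le_abs_self _)
      nlinarith [hx.1, hpt.2]
    · have c' : (l : ℝ) + 2 ≤ l' := by exact_mod_cast c
      have : (2 : ℝ) ^ k * (l + 2) ≤ (2 : ℝ) ^ k * l' :=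
        mul_le_mul_of_nonneg_left (by linarith) hp.le
      refine le_trans ?_ (neg_le_abs _)
      nlinarith [hx.2, hpt.1]
  have hu : s.u x = (2 : ℝ) ^ (-s.k) * (x - (2 : ℝ) ^ s.k * s.l) := by
    unfold Tile.u
    rw [mul_sub, ← mul_assoc, two_zpow_neg_mul, one_mul]
  rw [hu, abs_mul, abs_of_pos (two_zpow_pos (-s.k)), sub_eq_add_neg, zpow_add₀ (by norm_num),
    mul_comm]
  exact mul_le_mul_of_nonneg_left hd (two_zpow_pos (-s.k)).le

theorem near {T : Finset Tile} {x : ℝ} {k : ℤ} (h : bad T x (k + 1)) :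
    ∃ s ∈ T, s.k ≤ k + 2 ∧ ∀ y ∈ s.I, |x - y| ≤ (2 : ℝ) ^ (k + 2) := by
  obtain ⟨s, hs, h1⟩ := h
  have hp := two_zpow_pos (k + 1)
  have e : (2 : ℝ) ^ (k + 2) = 2 * (2 : ℝ) ^ (k + 1) := by
    rw [show k + 2 = (k + 1) + 1 by ring, two_zpow_succ]
  refine ⟨s, hs, ?_, fun y hy => ?_⟩
  · have h2 := len_le h1
    by_contra hcon
    push Not at hcon
    have h3 : (2 : ℝ) ^ (k + 3) ≤ (2 : ℝ) ^ s.k := two_zpow_le (by omega)
    have e3 : (2 : ℝ) ^ (k + 3) = 4 * (2 : ℝ) ^ (k + 1) := by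
      rw [show k + 3 = (k + 2) + 1 by ring, two_zpow_succ, e]
      ring
    linarith
  · have hy' := h1 hy
    have hx : x ∈ dy (k + 1) (pos (k + 1) x) := exists_mem_dy (k + 1) x
    rw [tri, mem_Ico] at hy'
    rw [dy, mem_Ico] at hx
    rw [e, abs_le]
    constructor
    · nlinarith [hx.1, hx.2, hy'.1, hy'.2]
    · nlinarith [hx.1, hx.2, hy'.1, hy'.2]

end STOP_

open STOP_ in
theorem p_STOP : T_STOP := by
  classical
  intro T hT
  choose κ hκ using fun x => exk hT x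
  refine ⟨κ, ?_, ?_, ?_, ?_, ?_⟩
  · refine measurable_to_countable' fun k => ?_
    have e : κ ⁻¹' {k} = {x : ℝ | bad T x k}ᶜ ∩ {x : ℝ | bad T x (k + 1)} := by
      ext x
      simp only [mem_preimage, mem_singleton_iff, mem_inter_iff, mem_compl_iff, mem_ofPred_eq]
      constructor
      · rintro rfl
        exact hκ x
      · rintro ⟨h1, h2⟩
        exact uniq (hκ x).1 (hκ x).2 h1 h2
    rw [e]
    exact (meas_bad T k).compl.inter (meas_bad T (k + 1))
  · intro x y hy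
    have h1 : pos (κ x) y = pos (κ x) x := by
      have : y ∈ dy (κ x) (pos (κ x) x) := hy
      rw [mem_dy] at this
      exact this
    have h2 : pos (κ x + 1) y = pos (κ x + 1) x := by
      rw [pos_succ_eq, pos_succ_eq, h1]
    refine uniq (hκ y).1 (hκ y).2 ?_ ?_
    · have := (hκ x).1
      unfold bad at this ⊢
      rwa [h1]
    · have := (hκ x).2
      unfold bad at this ⊢
      rwa [h2]
  · intro x s hs hk
    exact far (hκ x).1 hs hk
  · intro x
    exact near (hκ x).2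
  · obtain ⟨s0, hs0, hmin⟩ := T.exists_min_image (fun s => s.k) hT
    refine ⟨s0.k - 2, fun x => ?_⟩
    have := low (fun s hs => hmin s hs) (hκ x).2
    omega

end Pool.Agent.CAR
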