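import Pool.Agent.CAR.P_SMC
import Pool.Agent.CAR.P_STOP

set_option autoImplicit false

/-!
# Energy on light tiles (target ENF)
-/

namespace Pool.Agent.CAR

open MeasureTheory Set

/-- **ENF** -/
theorem p_ENF (hFAV : T_FAV) (hERR : T_ERR) (hENB : T_ENB) : T_ENF := by
  intro A
  obtain ⟨Ce, hCe, he⟩ := hERR A
  obtain ⟨Cb, hCb, hb⟩ := hENB A
  obtain ⟨Cs, hCs, hsm⟩ := p_SMC
  refine ⟨2 * (144 * Cb) + 2 * (144 * Ce * Cs), by positivity, ?_⟩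
  intro φ Φ hW F f lam hf hlam T K Λ ξ hT hlight
  have hK := two_zpow_pos K
  rcases T.eq_empty_or_nonempty with h0 | hne
  · rw [h0, Finset.sum_empty]; positivity
  obtain ⟨κ, hS⟩ := p_STOP T hne
  have hv := hFAV lam F hf.mF hf.fF hlam T κ hS hlight
  obtain ⟨p, mp, bp, hp⟩ := he φ Φ hW F f (12 * lam) T K Λ ξ κ hf (by positivity) hT hS hv
  have h1 := hb φ Φ hW p (12 * lam) mp (by positivity) bp T K Λ ξ hT
  have hTree : Tree T K Λ ξ := fun s hs => ⟨(hT s hs).1, up_sub s (hT s hs).2⟩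
  have h2 := hsm T K Λ ξ κ hTree hS
  have h3 : ∀ s ∈ T, ‖cf φ f s‖ ^ 2 ≤ 2 * ‖cf φ p s‖ ^ 2 + 2 * (Ce * (12 * lam) ^ 2 *
      ∫ x, min 1 ((4 : ℝ) ^ (κ x - s.k)) * wt 10 (s.u x)) := by
    intro s hs
    have h4 := hp s hs
    have h5 : ‖cf φ f s‖ ≤ ‖cf φ p s‖ + ‖cf φ f s - cf φ p s‖ := by
      have := norm_add_le (cf φ p s) (cf φ f s - cf φ p s)
      rwa [add_sub_cancel] at this
    have h6 : ‖cf φ f s‖ ^ 2 ≤ 2 * ‖cf φ p s‖ ^ 2 + 2 * ‖cf φ f s - cf φ p s‖ ^ 2 := by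
      have := pow_le_pow_left₀ (norm_nonneg _) h5 2
      nlinarith [sq_nonneg (‖cf φ p s‖ - ‖cf φ f s - cf φ p s‖)]
    linarith
  refine (Finset.sum_le_sum h3).trans ?_
  rw [Finset.sum_add_distrib, ← Finset.mul_sum, ← Finset.mul_sum, ← Finset.mul_sum]
  have h7 := mul_le_mul_of_nonneg_left h2 (show 0 ≤ Ce * (12 * lam) ^ 2 by positivity)
  have e1 : Cb * (12 * lam) ^ 2 * (2 : ℝ) ^ K = 144 * Cb * lam ^ 2 * (2 : ℝ) ^ K := by ring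
  have e2 : Ce * (12 * lam) ^ 2 * (Cs * (2 : ℝ) ^ K) =
      144 * Ce * Cs * lam ^ 2 * (2 : ℝ) ^ K := by ring
  rw [e1] at h1
  rw [e2] at h7
  nlinarith

end Pool.Agent.CAR
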