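import Pool.Agent.CAR.Targets
import Pool.Agent.CAR.GEO

set_option autoImplicit false

/-!
# Small and large tiles of a tree: splitting and duality (target SPL)
-/

namespace Pool.Agent.CAR

open MeasureTheory Set
open scoped ENNReal NNReal

namespace SPL_

theorem norm_e1 (x : ℝ) : ‖e1 x‖ = 1 := by
  rw [e1, show (2 * Real.pi * Complex.I * (x : ℂ)) = ((2 * Real.pi * x : ℝ) : ℂ) * Complex.I by
    push_cast; ring]
  exact Complex.norm_exp_ofReal_mul_I _

theorem cont_fx {φ : ℝ → ℂ} (h : Continuous φ) (s : Tile) : Continuous (fx φ s) := by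
  have h1 : Continuous e1 := by unfold e1; fun_prop
  have h2 : Continuous s.u := continuous_u s
  have h3 : Continuous fun x : ℝ => φ (s.u x) := h.comp h2
  have h4 : Continuous fun x : ℝ => e1 ((2 : ℝ) ^ (-s.k) * s.m * x) :=
    h1.comp (continuous_const.mul continuous_id)
  unfold fx
  exact (continuous_const.mul h3).mul h4

theorem int_fx {A : ℝ} {φ Φ : ℝ → ℂ} (hW : WPk A φ Φ) (s : Tile) : Integrable (fx φ s) := by
  refine ((integrable_wt_u (n := 20) (by norm_num) s).const_mul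
    ((Real.sqrt ((2 : ℝ) ^ s.k))⁻¹ * A)).mono' (cont_fx hW.cφ s).aestronglyMeasurable
    (ae_of_all _ fun x => ?_)
  unfold fx
  rw [norm_mul, norm_mul, Complex.norm_real, Real.norm_of_nonneg (by positivity), norm_e1,
    mul_one, mul_assoc]
  exact mul_le_mul_of_nonneg_left (hW.dec _) (by positivity)

/-- a unimodular number -/
theorem exists_eps (z : ℂ) : ∃ e : ℂ, ‖e‖ = 1 ∧ e * z = (‖z‖ : ℂ) := by
  by_cases hz : z = 0
  · exact ⟨1, by simp, by simp [hz]⟩
  · have h0 : (‖z‖ : ℂ) ≠ 0 := by simpa using hz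
    refine ⟨(starRingEnd ℂ) z / ‖z‖, ?_, ?_⟩
    · rw [norm_div, RCLike.norm_conj, Complex.norm_real, norm_norm, div_self]
      simpa using hz
    · rw [div_mul_eq_mul_div, div_eq_iff h0, mul_comm, Complex.mul_conj,
        Complex.normSq_eq_norm_sq]
      push_cast
      ring

end SPL_

open SPL_ in
/-- **SPL** -/
theorem p_SPL : T_SPL := by
  classical
  intro A φ Φ g b N E hW hD T κ hκ
  -- the two parts
  set S1 : Tile → Set ℝ := fun s => {x | N x ∈ s.up ∧ s.k ≤ κ x + 1} with hS1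
  set S2 : Tile → Set ℝ := fun s => {x | κ x + 2 ≤ s.k ∧ N x ∈ s.up} with hS2
  have mk1 : ∀ j : ℤ, MeasurableSet {x | j ≤ κ x + 1} := fun j =>
    hκ (MeasurableSet.of_discrete (s := {n : ℤ | j ≤ n + 1}))
  have mk2 : ∀ j : ℤ, MeasurableSet {x | κ x + 2 ≤ j} := fun j =>
    hκ (MeasurableSet.of_discrete (s := {n : ℤ | n + 2 ≤ j}))
  have mup : ∀ s : Tile, MeasurableSet (N ⁻¹' s.up) := fun s => hD.mN (measurableSet_dy _ _)
  have m1 : ∀ s, MeasurableSet (S1 s) := fun s => (mup s).inter (mk1 s.k)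
  have m2 : ∀ s, MeasurableSet (S2 s) := fun s => (mk2 s.k).inter (mup s)
  have hb : ∀ x, ‖b x‖ ≤ 1 := by
    intro x
    by_cases hx : x ∈ E
    · exact hD.bE x hx
    · rw [hD.b0 x hx]; simp
  have ifx := int_fx hW
  have ibf : ∀ s, Integrable fun x => b x * fx φ s x := by
    intro s
    refine (ifx s).norm.mono' (hD.mb.aestronglyMeasurable.mul
      (cont_fx hW.cφ s).aestronglyMeasurable) (ae_of_all _ fun x => ?_)
    rw [norm_mul]
    exact mul_le_of_le_one_left (norm_nonneg _) (hb x)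
  set z : Tile → ℂ := fun s => ∫ x in S2 s, b x * fx φ s x with hz
  choose eps he1 he2 using fun s => exists_eps (z s)
  refine ⟨eps, he1, ?_⟩
  -- the splitting
  have hav : ∀ s, ‖av φ b N s‖ ≤
      (∫ x in {x | x ∈ E ∧ N x ∈ s.up ∧ s.k ≤ κ x + 1}, ‖fx φ s x‖) + ‖z s‖ := by
    intro s
    have e1 : N ⁻¹' s.up = S1 s ∪ S2 s := by
      ext x
      simp only [hS1, hS2, mem_preimage, mem_union, mem_ofPred_eq]
      constructor
      · intro h
        by_cases h' : s.k ≤ κ x + 1
        · exact Or.inl ⟨h, h'⟩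
        · exact Or.inr ⟨by omega, h⟩
      · rintro (h | h)
        · exact h.1
        · exact h.2
    have e2 : Disjoint (S1 s) (S2 s) := by
      rw [Set.disjoint_left]
      intro x h1 h2
      have h1' := h1.2
      have h2' := h2.1
      omega
    have e3 : av φ b N s = (∫ x in S1 s, b x * fx φ s x) + z s := by
      rw [av, e1, setIntegral_union e2 (m2 s) (ibf s).integrableOn (ibf s).integrableOn]
    rw [e3]
    refine (norm_add_le _ _).trans ?_
    gcongr
    refine (norm_integral_le_integral_norm _).trans ?_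
    have e4 : {x | x ∈ E ∧ N x ∈ s.up ∧ s.k ≤ κ x + 1} = E ∩ S1 s := rfl
    have e5 : ∫ x in E ∩ S1 s, ‖fx φ s x‖ =
        ∫ x in S1 s, E.indicator (fun x => ‖fx φ s x‖) x := by
      rw [setIntegral_indicator hD.mE, inter_comm]
    rw [e4, e5]
    refine integral_mono_of_nonneg (ae_of_all _ fun x => norm_nonneg _)
      ((ifx s).norm.indicator hD.mE).integrableOn (ae_of_all _ fun x => ?_)
    dsimp only
    by_cases hx : x ∈ E
    · rw [indicator_of_mem hx, norm_mul]
      exact mul_le_of_le_one_left (norm_nonneg _) (hb x)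
    · rw [indicator_of_notMem hx, hD.b0 x hx]; simp
  have hcc : ∀ s, 0 ≤ cc Φ g s := fun s => norm_nonneg _
  have h1 : ∑ s ∈ T, cc Φ g s * ‖av φ b N s‖ ≤
      (∑ s ∈ T, cc Φ g s *
        ∫ x in {x | x ∈ E ∧ N x ∈ s.up ∧ s.k ≤ κ x + 1}, ‖fx φ s x‖) +
      ∑ s ∈ T, cc Φ g s * ‖z s‖ := by
    rw [← Finset.sum_add_distrib]
    refine Finset.sum_le_sum fun s _ => ?_
    rw [← mul_add]
    exact mul_le_mul_of_nonneg_left (hav s) (hcc s)
  refine (ENNReal.ofReal_le_ofReal h1).trans (ENNReal.ofReal_add_le.trans ?_)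
  gcongr
  -- the large part
  set H : ℝ → ℂ := fun x => ∑ s ∈ T, if κ x + 2 ≤ s.k ∧ N x ∈ s.up then
    eps s * ((cc Φ g s : ℝ) : ℂ) * fx φ s x else 0 with hH
  have h2 : ((∑ s ∈ T, cc Φ g s * ‖z s‖ : ℝ) : ℂ) = ∫ x, b x * H x := by
    have e1 : ∀ x, b x * H x = ∑ s ∈ T, (S2 s).indicator
        (fun x => eps s * ((cc Φ g s : ℝ) : ℂ) * (b x * fx φ s x)) x := by
      intro x
      rw [hH]
      dsimp only
      rw [Finset.mul_sum]
      refine Finset.sum_congr rfl fun s _ => ?_
      by_cases h : κ x + 2 ≤ s.k ∧ N x ∈ s.up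
      · rw [if_pos h, indicator_of_mem (show x ∈ S2 s from h)]
        ring
      · rw [if_neg h, indicator_of_notMem (show x ∉ S2 s from h), mul_zero]
    simp_rw [e1]
    rw [integral_finsetSum]
    · push_cast
      refine Finset.sum_congr rfl fun s _ => ?_
      rw [integral_indicator (m2 s), integral_const_mul]
      have := he2 s
      rw [hz] at this
      dsimp only at this
      rw [mul_assoc, mul_left_comm, ← this]
    · intro s _
      exact ((ibf s).const_mul _).indicator (m2 s)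
  have h3 : ENNReal.ofReal (∑ s ∈ T, cc Φ g s * ‖z s‖) ≤ ∫⁻ x, ‖b x * H x‖ₑ := by
    have h4 : 0 ≤ ∑ s ∈ T, cc Φ g s * ‖z s‖ :=
      Finset.sum_nonneg fun s _ => mul_nonneg (hcc s) (norm_nonneg _)
    have h5 : ENNReal.ofReal (∑ s ∈ T, cc Φ g s * ‖z s‖) = ‖∫ x, b x * H x‖ₑ := by
      rw [← h2, ← ofReal_norm, Complex.norm_real, Real.norm_of_nonneg h4]
    rw [h5]
    exact enorm_integral_le_lintegral_enorm _
  refine h3.trans ?_
  rw [← lintegral_indicator hD.mE]
  refine lintegral_mono fun x => ?_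
  by_cases hx : x ∈ E
  · rw [indicator_of_mem hx, enorm_mul]
    refine mul_le_of_le_one_left' ?_
    rw [← ofReal_norm]
    exact ENNReal.ofReal_le_one.2 (hb x)
  · rw [indicator_of_notMem hx, hD.b0 x hx]; simp

end Pool.Agent.CAR
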