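import Pool.Agent.CAR.P_SMC
import Pool.Agent.CAR.P_AVG
import Pool.Agent.CAR.P_SPL

set_option autoImplicit false

/-!
# Error of the modulated averages (target ERR)
-/

namespace Pool.Agent.CAR

open MeasureTheory Set
open scoped ENNReal NNReal

namespace ERR_

/-- `min 1 (2^(κ x - k))` -/
noncomputable def mm (κ : ℝ → ℤ) (s : Tile) (x : ℝ) : ℝ := min 1 ((2 : ℝ) ^ (κ x - s.k))

theorem mm_meas {κ : ℝ → ℤ} (hκ : Measurable κ) (s : Tile) : Measurable (mm κ s) := by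
  have h : Measurable fun n : ℤ => min 1 ((2 : ℝ) ^ (n - s.k)) := Measurable.of_discrete
  exact h.comp hκ

theorem mm_nonneg (κ : ℝ → ℤ) (s : Tile) (x : ℝ) : 0 ≤ mm κ s x :=
  le_min (by norm_num) (two_zpow_pos _).le

theorem mm_le (κ : ℝ → ℤ) (s : Tile) (x : ℝ) : mm κ s x ≤ 1 := min_le_left _ _

theorem mm_sq (κ : ℝ → ℤ) (s : Tile) (x : ℝ) :
    mm κ s x ^ 2 = min 1 ((4 : ℝ) ^ (κ x - s.k)) := by
  have e : (4 : ℝ) ^ (κ x - s.k) = ((2 : ℝ) ^ (κ x - s.k)) ^ 2 := by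
    rw [show (4 : ℝ) = 2 ^ 2 by norm_num, ← zpow_natCast, ← zpow_natCast, ← zpow_mul, ← zpow_mul]
    congr 1
    ring
  rw [e]
  unfold mm
  have h := two_zpow_pos (κ x - s.k)
  rcases le_total 1 ((2 : ℝ) ^ (κ x - s.k)) with h1 | h1
  · rw [min_eq_left h1, min_eq_left (by nlinarith)]; norm_num
  · rw [min_eq_right h1, min_eq_right (by nlinarith)]

theorem mw_int {κ : ℝ → ℤ} (hκ : Measurable κ) (s : Tile) :
    Integrable fun x => mm κ s x * wt 10 (s.u x) := by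
  refine (integrable_wt_u (n := 10) (by norm_num) s).mono'
    ((mm_meas hκ s).mul ((continuous_wt 10).comp (continuous_u s)).measurable
      ).aestronglyMeasurable (ae_of_all _ fun x => ?_)
  rw [Real.norm_of_nonneg (mul_nonneg (mm_nonneg _ _ _) (wt_nonneg _ _))]
  exact mul_le_of_le_one_left (wt_nonneg _ _) (mm_le _ _ _)

/-- Cauchy–Schwarz -/
theorem cs {κ : ℝ → ℤ} (hκ : Measurable κ) (s : Tile) :
    (∫ x, mm κ s x * wt 10 (s.u x)) ^ 2 ≤
      (4 * (2 : ℝ) ^ s.k) * ∫ x, min 1 ((4 : ℝ) ^ (κ x - s.k)) * wt 10 (s.u x) := by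
  set b := ∫ x, mm κ s x * wt 10 (s.u x) with hb
  set a := 4 * (2 : ℝ) ^ s.k with ha
  have ha0 : 0 < a := by have := two_zpow_pos s.k; positivity
  have i1 := mw_int hκ s
  have i2 := SMC_.integ hκ s
  have i3 := integrable_wt_u (n := 10) (by norm_num) s
  set c := ∫ x, min 1 ((4 : ℝ) ^ (κ x - s.k)) * wt 10 (s.u x) with hc
  have h3 : ∫ x, wt 10 (s.u x) ≤ a := integral_wt_u_le (by norm_num) s
  have h0 : 0 ≤ ∫ x, (a * mm κ s x - b) ^ 2 * wt 10 (s.u x) :=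
    integral_nonneg fun x => mul_nonneg (sq_nonneg _) (wt_nonneg _ _)
  have e : ∀ x, (a * mm κ s x - b) ^ 2 * wt 10 (s.u x) =
      a ^ 2 * (min 1 ((4 : ℝ) ^ (κ x - s.k)) * wt 10 (s.u x)) -
      2 * a * b * (mm κ s x * wt 10 (s.u x)) + b ^ 2 * wt 10 (s.u x) := by
    intro x
    rw [← mm_sq]; ring
  simp_rw [e] at h0
  have i4 : Integrable fun x => a ^ 2 * (min 1 ((4 : ℝ) ^ (κ x - s.k)) * wt 10 (s.u x)) -
      2 * a * b * (mm κ s x * wt 10 (s.u x)) := (i2.const_mul _).sub (i1.const_mul _)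
  rw [integral_add i4 (i3.const_mul _),
    integral_sub (i2.const_mul _) (i1.const_mul _), integral_const_mul, integral_const_mul,
    integral_const_mul] at h0
  have h4 : b ^ 2 * ∫ x, wt 10 (s.u x) ≤ b ^ 2 * a := mul_le_mul_of_nonneg_left h3 (sq_nonneg _)
  have h5 : 0 ≤ a * (a * c - b ^ 2) := by nlinarith
  have h6 := (mul_nonneg_iff_of_pos_left ha0).1 h5
  linarith

end ERR_

open ERR_ in
/-- **ERR** -/
theorem p_ERR (hTH1 : T_TH1) (hPRJ : T_PRJ) : T_ERR := by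
  intro A
  obtain ⟨C1, hC1, h1⟩ := hTH1 A
  refine ⟨2 ^ 22 * C1 ^ 2, by positivity, ?_⟩
  intro φ Φ hW F f lam T K Λ ξ κ hf hlam hT hS hv
  obtain ⟨p, mp, bp, hp⟩ := hPRJ κ hS.meas hS.const lam ξ F f hf hv
  refine ⟨p, mp, bp, fun s hs => ?_⟩
  have hξ : ξ ∈ s.up := (hT s hs).2
  have hs0 : 0 < Pool.Agent.CAR.hs s := by
    unfold Pool.Agent.CAR.hs
    exact inv_pos.2 (Real.sqrt_pos.2 (two_zpow_pos _))
  have hsq : Pool.Agent.CAR.hs s ^ 2 = (2 : ℝ) ^ (-s.k) := by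
    unfold Pool.Agent.CAR.hs
    rw [inv_pow, Real.sq_sqrt (two_zpow_pos _).le, zpow_neg]
  set Θ : ℝ → ℝ := fun x => C1 * Pool.Agent.CAR.hs s * (mm κ s x * wt 10 (s.u x)) with hΘ
  have mΘ : Measurable Θ := measurable_const.mul
    ((mm_meas hS.meas s).mul ((continuous_wt 10).comp (continuous_u s)).measurable)
  have nΘ : ∀ x, 0 ≤ Θ x := fun x =>
    mul_nonneg (by positivity) (mul_nonneg (mm_nonneg _ _ _) (wt_nonneg _ _))
  have iΘ : Integrable Θ := (mw_int hS.meas s).const_mul _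
  have bΘ : ∀ x, Θ x ≤ C1 * Pool.Agent.CAR.hs s := by
    intro x
    refine mul_le_of_le_one_right (by positivity) ?_
    exact mul_le_one₀ (mm_le _ _ _) (wt_nonneg _ _) (wt_le_one _ _)
  have k1 := hp (fx φ s) Θ (SPL_.cont_fx hW.cφ s) (SPL_.int_fx hW s) mΘ nΘ ⟨_, bΘ⟩ (by
    intro x y hxy
    refine ((h1 φ Φ hW T κ hS s hs ξ hξ x y hxy).1).trans (le_of_eq ?_)
    rw [hΘ]
    dsimp only
    unfold mm
    ring)
  have k2 : ∫ x in F, Θ x ≤ lam * (2 ^ 10 * ∫ x, Θ x) := by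
    have k3 := p_AVG κ hS.const F univ (ENNReal.ofReal lam) (fun x => ENNReal.ofReal (Θ x))
      (fun x => ENNReal.ofReal (2 ^ 10 * Θ x)) hf.mF MeasurableSet.univ
      (ENNReal.measurable_ofReal.comp mΘ)
      (ENNReal.measurable_ofReal.comp (measurable_const.mul mΘ)) (by
        intro x
        have e1 : volume (F ∩ Jx κ x) ≠ ⊤ := measure_ne_top_of_subset inter_subset_left hf.fF
        rw [← ENNReal.ofReal_toReal e1, Jx, volume_dy, ← ENNReal.ofReal_mul hlam.le]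
        exact ENNReal.ofReal_le_ofReal (hv x)) (by
        intro x y _ hxy
        refine ENNReal.ofReal_le_ofReal ?_
        have h2 := (h1 φ Φ hW T κ hS s hs ξ hξ x y hxy).2
        have h3 : mm κ s y = mm κ s x := by
          unfold mm; rw [hS.const x y hxy]
        rw [hΘ]
        dsimp only
        rw [h3]
        have h4 := mul_le_mul_of_nonneg_left h2
          (show 0 ≤ C1 * Pool.Agent.CAR.hs s * mm κ s x from
            mul_nonneg (by positivity) (mm_nonneg _ _ _))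
        linarith) (fun _ _ _ _ => mem_univ _)
    rw [setLIntegral_univ, ← ofReal_integral_eq_lintegral_ofReal iΘ.integrableOn
      (ae_of_all _ nΘ), ← ofReal_integral_eq_lintegral_ofReal (iΘ.const_mul _)
      (ae_of_all _ fun x => mul_nonneg (by norm_num) (nΘ x)), ← ENNReal.ofReal_mul hlam.le,
      ENNReal.ofReal_le_ofReal_iff] at k3
    · rw [← integral_const_mul (2 ^ 10) Θ]; exact k3
    · exact mul_nonneg hlam.le (integral_nonneg fun x => mul_nonneg (by norm_num) (nΘ x))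
  have k4 : ∫ x, Θ x = C1 * Pool.Agent.CAR.hs s * ∫ x, mm κ s x * wt 10 (s.u x) := by
    rw [hΘ, integral_const_mul]
  have k5 := cs hS.meas s
  have k6 : ‖cf φ f s - cf φ p s‖ ≤ lam * (2 ^ 10 *
      (C1 * Pool.Agent.CAR.hs s * ∫ x, mm κ s x * wt 10 (s.u x))) := by
    rw [← k4]
    exact k1.trans k2
  have k7 := pow_le_pow_left₀ (norm_nonneg _) k6 2
  refine k7.trans ?_
  set b := ∫ x, mm κ s x * wt 10 (s.u x) with hb
  set c := ∫ x, min 1 ((4 : ℝ) ^ (κ x - s.k)) * wt 10 (s.u x) with hc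
  have e2 : (lam * (2 ^ 10 * (C1 * Pool.Agent.CAR.hs s * b))) ^ 2 =
      2 ^ 20 * C1 ^ 2 * lam ^ 2 * (Pool.Agent.CAR.hs s ^ 2 * b ^ 2) := by ring
  rw [e2, hsq]
  have k8 : (2 : ℝ) ^ (-s.k) * b ^ 2 ≤ 4 * c := by
    have := mul_le_mul_of_nonneg_left k5 (two_zpow_pos (-s.k)).le
    refine this.trans (le_of_eq ?_)
    have e3 := two_zpow_neg_mul s.k
    calc (2 : ℝ) ^ (-s.k) * (4 * (2 : ℝ) ^ s.k * c) =
        ((2 : ℝ) ^ (-s.k) * (2 : ℝ) ^ s.k) * (4 * c) := by ring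
      _ = 4 * c := by rw [e3, one_mul]
  have k9 := mul_le_mul_of_nonneg_left k8 (show 0 ≤ 2 ^ 20 * C1 ^ 2 * lam ^ 2 by positivity)
  refine k9.trans (le_of_eq ?_)
  ring

end Pool.Agent.CAR
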