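import Pool.Agent.CAR.STargets
import Pool.Agent.CAR.HL

/-!
# CAR, strong type: the exceptional set
-/

set_option autoImplicit false

namespace Pool.Agent.CAR

open MeasureTheory Set
open scoped ENNReal NNReal

namespace EXC_

theorem meas (lam : ℝ) (F : Set ℝ) : MeasurableSet (GG lam F) := by
  have h : GG lam F = ⋃ k : ℤ, ⋃ l : ℤ, {x | x ∈ dy k l ∧ heavy lam F k l} := by
    ext x
    simp [GG]
  rw [h]
  refine MeasurableSet.iUnion fun k => MeasurableSet.iUnion fun l => ?_
  by_cases hh : heavy lam F k l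
  · have : {x | x ∈ dy k l ∧ heavy lam F k l} = dy k l := by
      ext x
      simp [hh]
    rw [this]
    exact measurableSet_dy k l
  · have : {x | x ∈ dy k l ∧ heavy lam F k l} = ∅ := by
      ext x
      simp [hh]
    rw [this]
    exact MeasurableSet.empty

theorem lt_MF {lam : ℝ} {F : Set ℝ} (hF : MeasurableSet F) (hfin : volume F ≠ ⊤) (hl : 0 < lam)
    {x : ℝ} (hx : x ∈ GG lam F) :
    ENNReal.ofReal (lam / 4) < HL.MF (F.indicator fun _ => 1) x := by
  obtain ⟨k, l, hxk, r, hr, hv⟩ := hx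
  have hk := two_zpow_pos k
  have hk' := two_zpow_pos (-k)
  set ρ : ℝ := (r + 1) * (2 : ℝ) ^ k with hρ
  have hρ0 : 0 < ρ := by positivity
  have hsub : {y | y ∈ F ∧ |(2 : ℝ) ^ (-k) * y - l| ≤ r} ⊆ F ∩ Metric.closedBall x ρ := by
    rintro y ⟨hy1, hy2⟩
    refine ⟨hy1, ?_⟩
    rw [Metric.mem_closedBall, Real.dist_eq]
    obtain ⟨h1, h2⟩ := mem_dy_iff.1 hxk
    have h3 : |(2 : ℝ) ^ (-k) * (y - x)| ≤ r + 1 := by
      rw [abs_le] at hy2 ⊢
      constructor <;> linarith [hy2.1, hy2.2]
    rw [abs_mul, abs_of_pos hk'] at h3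
    have h4 := mul_le_mul_of_nonneg_left h3 hk.le
    rw [← mul_assoc, two_zpow_mul_neg, one_mul] at h4
    rw [hρ]
    linarith
  have hA : ENNReal.ofReal (lam * r * (2 : ℝ) ^ k) < volume (F ∩ Metric.closedBall x ρ) := by
    refine lt_of_lt_of_le ?_ (measure_mono hsub)
    refine (ENNReal.ofReal_lt_iff_lt_toReal (by positivity) ?_).2 hv
    exact ne_top_of_le_ne_top hfin (measure_mono fun y hy => hy.1)
  have hint : ∫⁻ y in Metric.closedBall x ρ, F.indicator (fun _ => (1 : ℝ≥0∞)) y =
      volume (F ∩ Metric.closedBall x ρ) := by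
    rw [lintegral_indicator hF, Measure.restrict_restrict hF, setLIntegral_one]
  have havg := HL.avg_le (F.indicator fun _ => 1) x hρ0
  rw [hint] at havg
  by_contra hcon
  have h5 : ENNReal.ofReal (2 * ρ) * HL.MF (F.indicator fun _ => 1) x ≤
      ENNReal.ofReal (lam * r * (2 : ℝ) ^ k) := by
    calc ENNReal.ofReal (2 * ρ) * HL.MF (F.indicator fun _ => 1) x
        ≤ ENNReal.ofReal (2 * ρ) * ENNReal.ofReal (lam / 4) := by
          gcongr
          exact not_lt.1 hcon
      _ = ENNReal.ofReal (2 * ρ * (lam / 4)) := (ENNReal.ofReal_mul (by positivity)).symm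
      _ ≤ _ := by
          refine ENNReal.ofReal_le_ofReal ?_
          rw [hρ]
          have : 0 ≤ lam * (2 : ℝ) ^ k * (r - 1) :=
            mul_nonneg (by positivity) (by linarith)
          nlinarith
  exact absurd (hA.trans_le (havg.trans h5)) (lt_irrefl _)

end EXC_

theorem p_EXC : T_EXC := by
  refine ⟨20, by norm_num, fun lam F hF hfin hl => ⟨EXC_.meas lam F, ?_⟩⟩
  have h0 : 0 < lam / 4 := by positivity
  have hw := HL.weak (F.indicator fun _ => 1) (lam / 4).toNNReal (by simpa using h0)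
  have hsub : GG lam F ⊆
      {x | (((lam / 4).toNNReal : ℝ≥0) : ℝ≥0∞) < HL.MF (F.indicator fun _ => 1) x} :=
    fun x hx => EXC_.lt_MF hF hfin hl hx
  have hint : ∫⁻ y, F.indicator (fun _ => (1 : ℝ≥0∞)) y = volume F := by
    rw [lintegral_indicator hF, setLIntegral_one]
  rw [hint] at hw
  have h1 : ENNReal.ofReal (lam / 4) * volume (GG lam F) ≤ ENNReal.ofReal 5 * volume F := by
    refine le_trans (mul_le_mul_right (measure_mono hsub) _) (hw.trans (le_of_eq ?_))
    congr 1
    norm_num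
  have hV : volume F = ENNReal.ofReal (vol F) := (ENNReal.ofReal_toReal hfin).symm
  have h2 : ENNReal.ofReal (4 / lam) * ENNReal.ofReal (lam / 4) = 1 := by
    rw [← ENNReal.ofReal_mul (by positivity)]
    rw [show 4 / lam * (lam / 4) = 1 by field_simp]
    exact ENNReal.ofReal_one
  calc volume (GG lam F)
      = ENNReal.ofReal (4 / lam) * (ENNReal.ofReal (lam / 4) * volume (GG lam F)) := by
        rw [← mul_assoc, h2, one_mul]
    _ ≤ ENNReal.ofReal (4 / lam) * (ENNReal.ofReal 5 * volume F) := mul_le_mul_right h1 _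
    _ = ENNReal.ofReal (20 * vol F / lam) := by
        rw [hV, ← ENNReal.ofReal_mul (by norm_num), ← ENNReal.ofReal_mul (by positivity)]
        congr 1
        ring

end Pool.Agent.CAR
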