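import Pool.Agent.CAR.STargets

set_option autoImplicit false

/-!
# CAR-FAV: density of `F` on stopping intervals
-/

namespace Pool.Agent.CAR.FAV_

open MeasureTheory Set Pool.Agent.CAR
open scoped ENNReal NNReal

theorem main {lam : ℝ} {F : Set ℝ} (hfF : volume F ≠ ⊤)
    {T : Finset Tile} {κ : ℝ → ℤ} (hS : Stop T κ)
    (hh : ∀ s ∈ T, ∀ k l : ℤ, s.I ⊆ dy k l → ¬ heavy lam F k l) (x : ℝ) :
    vol (F ∩ Jx κ x) ≤ 12 * lam * (2 : ℝ) ^ κ x := by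
  obtain ⟨s0, hs0, hk0, hn0⟩ := hS.near x
  set a : ℤ := κ x + 2 with ha
  set l' : ℤ := s0.l / 2 ^ (a - s0.k).toNat with hl'
  have hI : s0.I ⊆ dy a l' := dy_sub_anc hk0
  have hnh := hh s0 hs0 a l' hI
  unfold heavy at hnh
  push Not at hnh
  have h3 := hnh 3 (by norm_num)
  have hap := two_zpow_pos (-a)
  have hap2 : (2 : ℝ) ^ (-a) * (2 : ℝ) ^ a = 1 := two_zpow_neg_mul a
  obtain ⟨z, hz⟩ := dy_nonempty s0.k s0.l
  have hz' : z ∈ s0.I := hz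
  have hzu : z ∈ dy a l' := hI hz'
  have hxz := hn0 z hz'
  have hJ : ∀ y ∈ Jx κ x, |y - x| ≤ (2 : ℝ) ^ a := by
    intro y hy
    have hx : x ∈ Jx κ x := exists_mem_dy _ _
    simp only [Jx, dy, mem_Ico] at hy hx
    have h4 : (2 : ℝ) ^ κ x ≤ (2 : ℝ) ^ a := two_zpow_le (by omega)
    rw [abs_le]
    constructor <;> nlinarith [hy.1, hy.2, hx.1, hx.2]
  have hsub : F ∩ Jx κ x ⊆ {y | y ∈ F ∧ |(2 : ℝ) ^ (-a) * y - l'| ≤ 3} := by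
    rintro y ⟨hyF, hyJ⟩
    refine ⟨hyF, ?_⟩
    have h1 := hJ y hyJ
    have h2 : |(2 : ℝ) ^ (-a) * (y - x)| ≤ 1 := by
      rw [abs_mul, abs_of_pos hap, ← hap2]
      exact mul_le_mul_of_nonneg_left h1 hap.le
    have h4 : |(2 : ℝ) ^ (-a) * (x - z)| ≤ 1 := by
      rw [abs_mul, abs_of_pos hap, ← hap2]
      exact mul_le_mul_of_nonneg_left hxz hap.le
    have h5 : |(2 : ℝ) ^ (-a) * z - l'| ≤ 1 := by
      simp only [dy, mem_Ico] at hzu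
      have h6 : (2 : ℝ) ^ (-a) * ((2 : ℝ) ^ a * l') ≤ (2 : ℝ) ^ (-a) * z :=
        mul_le_mul_of_nonneg_left hzu.1 hap.le
      have h7 : (2 : ℝ) ^ (-a) * z ≤ (2 : ℝ) ^ (-a) * ((2 : ℝ) ^ a * (l' + 1)) :=
        mul_le_mul_of_nonneg_left hzu.2.le hap.le
      rw [← mul_assoc, hap2, one_mul] at h6 h7
      rw [abs_le]
      constructor <;> linarith
    have e : (2 : ℝ) ^ (-a) * y - l' = ((2 : ℝ) ^ (-a) * z - l') +
        ((2 : ℝ) ^ (-a) * (y - x) + (2 : ℝ) ^ (-a) * (x - z)) := by ring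
    rw [e]
    calc |((2 : ℝ) ^ (-a) * z - l') +
          ((2 : ℝ) ^ (-a) * (y - x) + (2 : ℝ) ^ (-a) * (x - z))|
        ≤ |(2 : ℝ) ^ (-a) * z - l'| +
          |(2 : ℝ) ^ (-a) * (y - x) + (2 : ℝ) ^ (-a) * (x - z)| := abs_add_le _ _
      _ ≤ |(2 : ℝ) ^ (-a) * z - l'| +
          (|(2 : ℝ) ^ (-a) * (y - x)| + |(2 : ℝ) ^ (-a) * (x - z)|) := by
          gcongr; exact abs_add_le _ _
      _ ≤ 3 := by linarith
  have hfin : volume {y | y ∈ F ∧ |(2 : ℝ) ^ (-a) * y - l'| ≤ 3} ≠ ⊤ :=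
    ne_top_of_le_ne_top hfF (measure_mono fun y hy => hy.1)
  have h2a : (2 : ℝ) ^ a = 4 * (2 : ℝ) ^ κ x := by
    rw [ha, zpow_add₀ (by norm_num)]; norm_num; ring
  calc vol (F ∩ Jx κ x) ≤ vol {y | y ∈ F ∧ |(2 : ℝ) ^ (-a) * y - l'| ≤ 3} :=
        ENNReal.toReal_mono hfin (measure_mono hsub)
    _ ≤ lam * 3 * (2 : ℝ) ^ a := h3
    _ = 12 * lam * (2 : ℝ) ^ κ x := by rw [h2a]; ring

end Pool.Agent.CAR.FAV_

namespace Pool.Agent.CAR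

theorem p_FAV : T_FAV := fun _ _ _ hfF _ _ _ hS hh x => FAV_.main hfF hS hh x

end Pool.Agent.CAR
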