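import Pool.Agent.CAR.Targets
import Pool.Agent.CAR.SQ

set_option autoImplicit false

/-!
# CAR: the targets HL, HLK, TRU, SQ
-/

namespace Pool.Agent.CAR

open MeasureTheory Set ComplexConjugate
open scoped ENNReal NNReal

theorem p_HL : T_HL :=
  ⟨40, fun G hG => ⟨HL.measurable_MX G, HL.MX_sq hG.measurable⟩⟩

theorem p_HLK : T_HLK := by
  refine ⟨32, fun B ψ G hG _ hψ a x z hz => ?_⟩
  have h := HL.MX_ker (κ := ψ) hG.measurable (n := 12) (by norm_num) hψ a hz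
  calc ∫⁻ y, ‖G y‖ₑ * ‖(((2 : ℝ) ^ (-a) : ℝ) : ℂ) * ψ ((2 : ℝ) ^ (-a) * (x - y))‖ₑ
      = ∫⁻ y, ‖G y‖ₑ * ENNReal.ofReal ((2 : ℝ) ^ (-a) * ‖ψ ((2 : ℝ) ^ (-a) * (x - y))‖) := by
        refine lintegral_congr fun y => ?_
        rw [← ofReal_norm (((2 : ℝ) ^ (-a) : ℝ) * ψ ((2 : ℝ) ^ (-a) * (x - y)) : ℂ), norm_mul,
          Complex.norm_real, Real.norm_eq_abs, abs_of_pos (two_zpow_pos _)]
    _ ≤ ENNReal.ofReal B * (32 * HL.MX G z) := h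
    _ = _ := by
        change _ = ((32 : ℝ≥0) : ℝ≥0∞) * ENNReal.ofReal B * HL.MX G z
        rw [ENNReal.coe_ofNat]
        ring

theorem p_TRU : T_TRU := by
  intro A
  obtain ⟨C, hC, h⟩ := TRUNC.trunc A
  refine ⟨C.toNNReal, fun φ Φ hW T K Λ ξ hT w eps he hw a x z hz => ?_⟩
  have h1 := h φ Φ hW T ξ (fun s hs => (hT s hs).2) w eps he hw a x z hz
  calc ‖∑ s ∈ T.filter (fun s => a ≤ s.k), w s * fx φ s x‖ₑ
      ≤ ENNReal.ofReal (C * eps) + ENNReal.ofReal C * HL.MX (TRUNC.Gx φ w T) z := h1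
    _ = ENNReal.ofReal C * (ENNReal.ofReal eps + HL.MX (TRUNC.Gx φ w T) z) := by
        rw [ENNReal.ofReal_mul hC.le, mul_add]
    _ = _ := rfl

theorem p_SQ : T_SQ := by
  intro A
  obtain ⟨C, hC, h⟩ := SQ.sq A
  refine ⟨C, hC, fun φ Φ hW T K Λ ξ hT w => ?_⟩
  obtain ⟨h1, h2⟩ := h φ Φ hW T ξ (fun s hs => (hT s hs).2) w
  calc ∫⁻ y, ‖∑ s ∈ T, w s * fx φ s y‖ₑ ^ 2
      = ∫⁻ y, ENNReal.ofReal (‖TRUNC.Gx φ w T y‖ ^ 2) := by
        refine lintegral_congr fun y => ?_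
        rw [ENNReal.ofReal_pow (norm_nonneg _), ofReal_norm]
        rfl
    _ = ENNReal.ofReal (∫ y, ‖TRUNC.Gx φ w T y‖ ^ 2) :=
        (ofReal_integral_eq_lintegral_ofReal h1 (Filter.Eventually.of_forall fun _ => by
          positivity)).symm
    _ ≤ _ := ENNReal.ofReal_le_ofReal h2

end Pool.Agent.CAR
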