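import Pool.Agent.CAR.STargets
import Pool.Agent.CAR.P_FXB

set_option autoImplicit false

/-!
# CAR-INT: Marcinkiewicz interpolation
-/

namespace Pool.Agent.CAR

open MeasureTheory Set ComplexConjugate
open scoped ENNReal NNReal

namespace INT_

/-- level set -/
def lv (f : ℝ → ℂ) (k : ℤ) : Set ℝ := {x | (2 : ℝ) ^ k < ‖f x‖ ∧ ‖f x‖ ≤ (2 : ℝ) ^ (k + 1)}

/-- the part of `f` on the level set -/
noncomputable def pc (f : ℝ → ℂ) (k : ℤ) : ℝ → ℂ := (lv f k).indicator f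

lemma lv_meas {f : ℝ → ℂ} (hf : Measurable f) (k : ℤ) : MeasurableSet (lv f k) :=
  (measurableSet_lt measurable_const hf.norm).inter (measurableSet_le hf.norm measurable_const)

lemma lv_unique {f : ℝ → ℂ} {k l : ℤ} {x : ℝ} (h : x ∈ lv f k) (h' : x ∈ lv f l) : k = l := by
  have h1 : k < l + 1 :=
    (zpow_lt_zpow_iff_right₀ (by norm_num : (1 : ℝ) < 2)).1 (h.1.trans_le h'.2)
  have h2 : l < k + 1 :=
    (zpow_lt_zpow_iff_right₀ (by norm_num : (1 : ℝ) < 2)).1 (h'.1.trans_le h.2)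
  omega

lemma pc_sum (f : ℝ → ℂ) (I : Finset ℤ) (x : ℝ) :
    (∃ k ∈ I, x ∈ lv f k ∧ ∑ j ∈ I, pc f j x = f x ∧ ∑ j ∈ I, ‖pc f j x‖ = ‖f x‖) ∨
    ((∀ k ∈ I, x ∉ lv f k) ∧ ∑ j ∈ I, pc f j x = 0 ∧ ∑ j ∈ I, ‖pc f j x‖ = 0) := by
  by_cases hx : ∃ k ∈ I, x ∈ lv f k
  · obtain ⟨k, hk, hxk⟩ := hx
    left
    refine ⟨k, hk, hxk, ?_, ?_⟩
    · rw [Finset.sum_eq_single k]
      · exact indicator_of_mem hxk f
      · intro j _ hj
        exact indicator_of_notMem (fun h => hj (lv_unique h hxk)) f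
      · intro h
        exact absurd hk h
    · rw [Finset.sum_eq_single k]
      · rw [pc, indicator_of_mem hxk f]
      · intro j _ hj
        rw [pc, indicator_of_notMem (fun h => hj (lv_unique h hxk)) f, norm_zero]
      · intro h
        exact absurd hk h
  · push Not at hx
    right
    refine ⟨hx, Finset.sum_eq_zero fun j hj => indicator_of_notMem (hx j hj) f,
      Finset.sum_eq_zero fun j hj => ?_⟩
    rw [pc, indicator_of_notMem (hx j hj) f, norm_zero]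

lemma lv_sub {h : ℝ} {F : Set ℝ} {f : ℝ → ℂ} (hf : BF h F f) (k : ℤ) : lv f k ⊆ F := by
  intro x hx
  by_contra hF
  have h1 := hx.1
  rw [hf.z x hF, norm_zero] at h1
  exact absurd h1 (not_lt.2 (two_zpow_pos k).le)

lemma lv_fin {h : ℝ} {F : Set ℝ} {f : ℝ → ℂ} (hf : BF h F f) (k : ℤ) :
    volume (lv f k) ≠ ⊤ :=
  ne_top_of_le_ne_top hf.fF (measure_mono (lv_sub hf k))

lemma pc_bd (f : ℝ → ℂ) (k : ℤ) (x : ℝ) : ‖pc f k x‖ ≤ (2 : ℝ) ^ (k + 1) := by
  by_cases hx : x ∈ lv f k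
  · rw [pc, indicator_of_mem hx f]
    exact hx.2
  · rw [pc, indicator_of_notMem hx f, norm_zero]
    exact (two_zpow_pos _).le

lemma pc_meas {f : ℝ → ℂ} (hf : Measurable f) (k : ℤ) : Measurable (pc f k) :=
  hf.indicator (lv_meas hf k)

lemma pc_BF {h : ℝ} {F : Set ℝ} {f : ℝ → ℂ} (hf : BF h F f) (k : ℤ) :
    BF ((2 : ℝ) ^ (k + 1)) (lv f k) (pc f k) :=
  ⟨pc_meas hf.m k, lv_meas hf.m k, lv_fin hf k, (two_zpow_pos _).le, pc_bd f k,
    fun _ hx => indicator_of_notMem hx f⟩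

lemma sq_int {h : ℝ} {F : Set ℝ} {f : ℝ → ℂ} (hf : BF h F f) :
    Integrable (fun x => ‖f x‖ ^ 2) := by
  have h1 : Integrable (F.indicator (fun _ => h ^ 2)) := by
    rw [integrable_indicator_iff hf.mF]
    exact integrableOn_const hf.fF
  refine h1.mono' (hf.m.norm.pow_const 2).aestronglyMeasurable ?_
  refine Filter.Eventually.of_forall fun x => ?_
  by_cases hx : x ∈ F
  · rw [indicator_of_mem hx, Real.norm_of_nonneg (sq_nonneg _)]
    exact pow_le_pow_left₀ (norm_nonneg _) (hf.bd x) 2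
  · rw [indicator_of_notMem hx, hf.z x hx]
    simp

lemma sum_vol {h : ℝ} {F : Set ℝ} {f : ℝ → ℂ} (hf : BF h F f) (I : Finset ℤ) :
    ∑ k ∈ I, (4 : ℝ) ^ k * vol (lv f k) ≤ ∫ x, ‖f x‖ ^ 2 := by
  have e : ∀ k : ℤ, (4 : ℝ) ^ k * vol (lv f k) =
      ∫ x, (lv f k).indicator (fun _ => (4 : ℝ) ^ k) x := by
    intro k
    rw [integral_indicator (lv_meas hf.m k), setIntegral_const]
    simp only [vol, Measure.real, smul_eq_mul]
    ring
  have hi : ∀ k : ℤ, Integrable ((lv f k).indicator (fun _ => (4 : ℝ) ^ k)) := by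
    intro k
    rw [integrable_indicator_iff (lv_meas hf.m k)]
    exact integrableOn_const (lv_fin hf k)
  rw [Finset.sum_congr rfl fun k _ => e k, ← integral_finsetSum I fun k _ => hi k]
  refine integral_mono (integrable_finsetSum I fun k _ => hi k) (sq_int hf) fun x => ?_
  have h4 : ∀ k : ℤ, (4 : ℝ) ^ k = ((2 : ℝ) ^ k) ^ 2 := by
    intro k
    rw [show (4 : ℝ) = 2 ^ 2 by norm_num, ← zpow_natCast, ← zpow_natCast, ← zpow_mul, ← zpow_mul,
      mul_comm]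
  show ∑ k ∈ I, (lv f k).indicator (fun _ => (4 : ℝ) ^ k) x ≤ ‖f x‖ ^ 2
  by_cases hx : ∃ k ∈ I, x ∈ lv f k
  · obtain ⟨k, hk, hxk⟩ := hx
    rw [Finset.sum_eq_single k]
    · rw [indicator_of_mem hxk, h4]
      exact pow_le_pow_left₀ (two_zpow_pos k).le hxk.1.le 2
    · intro j _ hj
      exact indicator_of_notMem (fun h => hj (lv_unique h hxk)) _
    · intro h
      exact absurd hk h
  · push Not at hx
    rw [Finset.sum_eq_zero fun j hj => indicator_of_notMem (hx j hj) _]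
    exact sq_nonneg _

lemma bd_int {g K : ℝ → ℂ} {h : ℝ} (hg : Measurable g) (hb : ∀ x, ‖g x‖ ≤ h)
    (hK : Integrable K) : Integrable (fun x => g x * K x) := by
  refine (hK.norm.const_mul h).mono' (hg.aestronglyMeasurable.mul hK.aestronglyMeasurable) ?_
  refine Filter.Eventually.of_forall fun x => ?_
  rw [norm_mul]
  exact mul_le_mul_of_nonneg_right (hb x) (norm_nonneg _)

lemma rest_bd {h : ℝ} {F : Set ℝ} {f : ℝ → ℂ} (hf : BF h F f) (n : ℕ)
    (hn : h ≤ (2 : ℝ) ^ (n : ℤ)) (x : ℝ) :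
    ‖f x - ∑ k ∈ Finset.Icc (-(n : ℤ)) n, pc f k x‖ ≤ (2 : ℝ) ^ (-(n : ℤ)) := by
  rcases pc_sum f (Finset.Icc (-(n : ℤ)) n) x with ⟨k, _, _, h1, _⟩ | ⟨h0, h1, _⟩
  · rw [h1, sub_self, norm_zero]
    exact (two_zpow_pos _).le
  · rw [h1, sub_zero]
    by_contra hlt
    push Not at hlt
    have hpos : 0 < ‖f x‖ := (two_zpow_pos _).trans hlt
    obtain ⟨k, hk1, hk2⟩ := exists_mem_Ioc_zpow hpos (by norm_num : (1 : ℝ) < 2)
    have hm : x ∈ lv f k := ⟨hk1, hk2⟩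
    refine h0 k ?_ hm
    rw [Finset.mem_Icc]
    have a1 : -(n : ℤ) < k + 1 :=
      (zpow_lt_zpow_iff_right₀ (by norm_num : (1 : ℝ) < 2)).1 (hlt.trans_le hk2)
    have a2 : k < n :=
      (zpow_lt_zpow_iff_right₀ (by norm_num : (1 : ℝ) < 2)).1
        (hk1.trans_le ((hf.bd x).trans hn))
    omega

lemma lin {h : ℝ} {F : Set ℝ} {f : ℝ → ℂ} (hf : BF h F f) {K : ℝ → ℂ} (hK : Integrable K)
    (n : ℕ) (hn : h ≤ (2 : ℝ) ^ (n : ℤ)) :
    ‖∫ x, f x * K x‖ ≤ ∑ k ∈ Finset.Icc (-(n : ℤ)) n, ‖∫ x, pc f k x * K x‖ +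
      (2 : ℝ) ^ (-(n : ℤ)) * ∫ x, ‖K x‖ := by
  have hi : ∀ k : ℤ, Integrable (fun x => pc f k x * K x) := fun k =>
    bd_int (pc_meas hf.m k) (pc_bd f k) hK
  have hms : Measurable (fun x => f x - ∑ k ∈ Finset.Icc (-(n : ℤ)) n, pc f k x) :=
    hf.m.sub (Finset.measurable_fun_sum _ fun k _ => pc_meas hf.m k)
  have hr : Integrable (fun x => (f x - ∑ k ∈ Finset.Icc (-(n : ℤ)) n, pc f k x) * K x) :=
    bd_int hms (rest_bd hf n hn) hK
  have e : ∫ x, f x * K x = (∑ k ∈ Finset.Icc (-(n : ℤ)) n, (∫ x, pc f k x * K x)) +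
      (∫ x, (f x - ∑ k ∈ Finset.Icc (-(n : ℤ)) n, pc f k x) * K x) := by
    rw [← integral_finsetSum _ fun k _ => hi k,
      ← integral_add (integrable_finsetSum _ fun k _ => hi k) hr]
    congr 1
    funext x
    rw [← Finset.sum_mul]
    ring
  rw [e]
  refine (norm_add_le _ _).trans (add_le_add (norm_sum_le _ _) ?_)
  refine (norm_integral_le_integral_norm _).trans ?_
  rw [← integral_const_mul]
  refine integral_mono hr.norm (hK.norm.const_mul _) fun x => ?_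
  show ‖(f x - ∑ k ∈ Finset.Icc (-(n : ℤ)) n, pc f k x) * K x‖ ≤
    (2 : ℝ) ^ (-(n : ℤ)) * ‖K x‖
  rw [norm_mul]
  exact mul_le_mul_of_nonneg_right (rest_bd hf n hn x) (norm_nonneg _)

lemma lin2 {h : ℝ} {F : Set ℝ} {f : ℝ → ℂ} (hf : BF h F f) {K : ℝ → ℂ} (hK : Integrable K)
    (I : Finset ℤ) :
    ∑ k ∈ I, ‖∫ x, pc f k x * K x‖ ≤ h * ∫ x, ‖K x‖ := by
  have hi : ∀ k : ℤ, Integrable (fun x => pc f k x * K x) := fun k =>
    bd_int (pc_meas hf.m k) (pc_bd f k) hK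
  refine (Finset.sum_le_sum fun k _ => norm_integral_le_integral_norm _).trans ?_
  rw [← integral_finsetSum _ fun k _ => (hi k).norm, ← integral_const_mul]
  refine integral_mono (integrable_finsetSum _ fun k _ => (hi k).norm) (hK.norm.const_mul _)
    fun x => ?_
  show ∑ k ∈ I, ‖pc f k x * K x‖ ≤ h * ‖K x‖
  simp only [norm_mul]
  rw [← Finset.sum_mul]
  refine mul_le_mul_of_nonneg_right ?_ (norm_nonneg _)
  rcases pc_sum f I x with ⟨k, _, _, _, h1⟩ | ⟨_, _, h1⟩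
  · rw [h1]
    exact hf.bd x
  · rw [h1]
    exact hf.h0

lemma zero_of_n2 {h : ℝ} {F : Set ℝ} {f : ℝ → ℂ} (hf : BF h F f) (h0 : n2 f = 0)
    (K : ℝ → ℂ) : ∫ x, f x * K x = 0 := by
  have hnn : 0 ≤ ∫ x, ‖f x‖ ^ 2 := integral_nonneg fun x => sq_nonneg _
  have h1 : ∫ x, ‖f x‖ ^ 2 = 0 := by
    rw [n2, Real.sqrt_eq_zero hnn] at h0
    exact h0
  have h2 := (integral_eq_zero_iff_of_nonneg (fun x => sq_nonneg ‖f x‖) (sq_int hf)).1 h1
  apply integral_eq_zero_of_ae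
  filter_upwards [h2] with x hx
  have h3 : ‖f x‖ ^ 2 = 0 := hx
  have h4 : f x = 0 := by
    rw [pow_eq_zero_iff (by norm_num), norm_eq_zero] at h3
    exact h3
  rw [h4, zero_mul]
  rfl

/-- kernel of `av` -/
noncomputable def ka (φ : ℝ → ℂ) (N : ℝ → ℝ) (s : Tile) : ℝ → ℂ :=
  (N ⁻¹' s.up).indicator (fx φ s)

lemma av_eq (φ b : ℝ → ℂ) {N : ℝ → ℝ} (hN : Measurable N) (s : Tile) :
    av φ b N s = ∫ x, b x * ka φ N s x := by
  have hm : MeasurableSet (N ⁻¹' s.up) := hN (measurableSet_dy _ _)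
  rw [av, ← integral_indicator hm]
  congr 1
  funext x
  by_cases hx : x ∈ N ⁻¹' s.up
  · rw [indicator_of_mem hx, ka, indicator_of_mem hx]
  · rw [indicator_of_notMem hx, ka, indicator_of_notMem hx, mul_zero]

lemma BF_div {h c : ℝ} (hc : 0 < c) {F : Set ℝ} {f : ℝ → ℂ} (hf : BF h F f) :
    BF (h / c) F (fun x => f x / (c : ℂ)) := by
  refine ⟨hf.m.div_const _, hf.mF, hf.fF, div_nonneg hf.h0 hc.le, fun x => ?_, fun x hx => ?_⟩
  · rw [norm_div, Complex.norm_real, Real.norm_of_nonneg hc.le]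
    exact div_le_div_of_nonneg_right (hf.bd x) hc.le
  · show f x / (c : ℂ) = 0
    rw [hf.z x hx, zero_div]

lemma cf_div (φ f : ℝ → ℂ) {c : ℝ} (hc : 0 < c) (s : Tile) :
    ‖cf φ (fun x => f x / (c : ℂ)) s‖ = ‖cf φ f s‖ / c := by
  have e : cf φ (fun x => f x / (c : ℂ)) s = cf φ f s / (c : ℂ) := by
    unfold cf
    rw [← integral_div]
    congr 1
    funext x
    ring
  rw [e, norm_div, Complex.norm_real, Real.norm_of_nonneg hc.le]

lemma av_div (φ b : ℝ → ℂ) (N : ℝ → ℝ) {c : ℝ} (hc : 0 < c) (s : Tile) :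
    ‖av φ (fun x => b x / (c : ℂ)) N s‖ = ‖av φ b N s‖ / c := by
  have e : av φ (fun x => b x / (c : ℂ)) N s = av φ b N s / (c : ℂ) := by
    unfold av
    rw [← integral_div]
    congr 1
    funext x
    ring
  rw [e, norm_div, Complex.norm_real, Real.norm_of_nonneg hc.le]

lemma sum_div (φ f b : ℝ → ℂ) (N : ℝ → ℝ) {c c' : ℝ} (hc : 0 < c) (hc' : 0 < c')
    (S : Finset Tile) :
    ∑ s ∈ S, ‖cf φ f s‖ * ‖av φ b N s‖ = c * c' *
      ∑ s ∈ S, ‖cf φ (fun x => f x / (c : ℂ)) s‖ * ‖av φ (fun x => b x / (c' : ℂ)) N s‖ := by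
  rw [Finset.mul_sum]
  refine Finset.sum_congr rfl fun s _ => ?_
  rw [cf_div φ f hc, av_div φ b N hc']
  field_simp

/-- restricted estimate, both cases -/
lemma restr (hRA : T_RA) (hRB : T_RB) (A : ℝ) : ∃ C : ℝ, 0 < C ∧ ∀ φ Φ : ℝ → ℂ, WPk A φ Φ →
    ∀ (f b : ℝ → ℂ) (N : ℝ → ℝ) (F E : Set ℝ) (c c' : ℝ), 0 < c → 0 < c' → BF c F f →
    BF c' E b → Measurable N → ∀ S : Finset Tile,
      ∑ s ∈ S, ‖cf φ f s‖ * ‖av φ b N s‖ ≤
        c * c' * (C * Real.sqrt (min (vol F) (vol E) * Real.sqrt (vol F * vol E))) := by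
  obtain ⟨C1, hC1, h1⟩ := hRA A
  obtain ⟨C2, hC2, h2⟩ := hRB A
  refine ⟨C1 + C2, by positivity, ?_⟩
  intro φ Φ hφ f b N F E c c' hc hc' hf hb hN S
  have hf' := BF_div hc hf
  have hb' := BF_div hc' hb
  rw [div_self hc.ne'] at hf'
  rw [div_self hc'.ne'] at hb'
  rw [sum_div φ f b N hc hc' S]
  refine mul_le_mul_of_nonneg_left ?_ (by positivity)
  rcases le_total (vol E) (vol F) with h | h
  · refine (h1 φ Φ hφ _ _ N F E hf' hb' hN h S).trans ?_
    rw [min_eq_right h, mul_comm (vol F) (vol E)]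
    exact mul_le_mul_of_nonneg_right (by linarith) (Real.sqrt_nonneg _)
  · refine (h2 φ Φ hφ _ _ N F E hf' hb' hN h S).trans ?_
    rw [min_eq_left h, mul_comm (vol F) (vol E)]
    exact mul_le_mul_of_nonneg_right (by linarith) (Real.sqrt_nonneg _)

lemma vol_nonneg (E : Set ℝ) : 0 ≤ vol E := ENNReal.toReal_nonneg

end INT_

open INT_

theorem p_INT (hRA : T_RA) (hRB : T_RB) (hMAR : T_MAR) : T_INT := by
  intro A
  obtain ⟨C, hC, hre⟩ := restr hRA hRB A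
  obtain ⟨C', hC', hmar⟩ := hMAR
  refine ⟨4 * C * C', by positivity, ?_⟩
  intro φ Φ hφ
  -- normalised case
  have key : ∀ (f b : ℝ → ℂ) (N : ℝ → ℝ) (F E : Set ℝ) (h h' : ℝ), BF h F f → BF h' E b →
      Measurable N → ∫ x, ‖f x‖ ^ 2 ≤ 1 → ∫ x, ‖b x‖ ^ 2 ≤ 1 → ∀ S : Finset Tile,
      ∑ s ∈ S, ‖cf φ f s‖ * ‖av φ b N s‖ ≤ 4 * C * C' := by
    intro f b N F E h h' hf hb hN hf1 hb1 S
    have hfx : ∀ s : Tile, Integrable (fx φ s) := fun s =>
      ((p_FXB A φ Φ hφ s).2.2.2.2.2.1)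
    set D : Tile → ℝ := fun s => ∫ x, ‖fx φ s x‖ with hD
    have hD0 : ∀ s, 0 ≤ D s := fun s => integral_nonneg fun x => norm_nonneg _
    have hK1 : ∀ s : Tile, Integrable (fun x => conj (fx φ s x)) := fun s => by
      refine (hfx s).norm.mono' ?_ ?_
      · exact Complex.continuous_conj.comp_aestronglyMeasurable (hfx s).aestronglyMeasurable
      · refine Filter.Eventually.of_forall fun x => ?_
        rw [RCLike.norm_conj]
    have hK1' : ∀ s : Tile, ∫ x, ‖conj (fx φ s x)‖ = D s := fun s => by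
      simp only [hD, RCLike.norm_conj]
    have hK2 : ∀ s : Tile, Integrable (ka φ N s) := fun s =>
      (hfx s).indicator (hN (measurableSet_dy _ _))
    have hK2' : ∀ s : Tile, ∫ x, ‖ka φ N s x‖ ≤ D s := fun s => by
      refine integral_mono (hK2 s).norm (hfx s).norm fun x => ?_
      show ‖ka φ N s x‖ ≤ ‖fx φ s x‖
      rw [ka]
      exact norm_indicator_le_norm_self _ _
    set R : ℝ := ∑ s ∈ S, D s ^ 2 * (h + h' + 1) with hR
    have hR0 : 0 ≤ R := Finset.sum_nonneg fun s _ =>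
      mul_nonneg (sq_nonneg _) (by linarith [hf.h0, hb.h0])
    refine le_of_forall_pos_le_add fun ε hε => ?_
    obtain ⟨n1, hn1⟩ := pow_unbounded_of_one_lt h (by norm_num : (1 : ℝ) < 2)
    obtain ⟨n2', hn2⟩ := pow_unbounded_of_one_lt h' (by norm_num : (1 : ℝ) < 2)
    obtain ⟨n3, hn3⟩ := pow_unbounded_of_one_lt ((R + 1) / ε) (by norm_num : (1 : ℝ) < 2)
    set n : ℕ := n1 + n2' + n3 with hn
    have hmono : ∀ {a : ℕ}, a ≤ n → (2 : ℝ) ^ a ≤ (2 : ℝ) ^ (n : ℤ) := by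
      intro a ha
      rw [zpow_natCast]
      exact pow_le_pow_right₀ (by norm_num) ha
    have e1' : h ≤ (2 : ℝ) ^ (n : ℤ) := hn1.le.trans (hmono (by omega))
    have e2' : h' ≤ (2 : ℝ) ^ (n : ℤ) := hn2.le.trans (hmono (by omega))
    have e3' : (R + 1) / ε < (2 : ℝ) ^ (n : ℤ) := hn3.trans_le (hmono (by omega))
    set δ : ℝ := (2 : ℝ) ^ (-(n : ℤ)) with hδ
    have hδ0 : 0 < δ := two_zpow_pos _
    have hδ1 : δ ≤ 1 := by
      have : (2 : ℝ) ^ (-(n : ℤ)) ≤ (2 : ℝ) ^ (0 : ℤ) := two_zpow_le (by omega)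
      rw [zpow_zero] at this
      exact this
    have hδR : δ * R ≤ ε := by
      have h1 : δ * (2 : ℝ) ^ (n : ℤ) = 1 := two_zpow_neg_mul _
      rw [div_lt_iff₀ hε] at e3'
      have h2 := mul_le_mul_of_nonneg_left e3'.le hδ0.le
      rw [← mul_assoc, h1, one_mul] at h2
      have h3 : δ * R ≤ δ * (R + 1) := mul_le_mul_of_nonneg_left (by linarith) hδ0.le
      linarith
    set I : Finset ℤ := Finset.Icc (-(n : ℤ)) n with hI
    have hpt : ∀ s ∈ S, ‖cf φ f s‖ * ‖av φ b N s‖ ≤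
        (∑ k ∈ I, ‖cf φ (pc f k) s‖) * (∑ l ∈ I, ‖av φ (pc b l) N s‖) +
        δ * (D s ^ 2 * (h + h' + 1)) := by
      intro s _
      have a1 : ‖cf φ f s‖ ≤ ∑ k ∈ I, ‖cf φ (pc f k) s‖ + δ * D s := by
        have := lin hf (hK1 s) n e1'
        rw [hK1' s] at this
        exact this
      have a2 : ∑ k ∈ I, ‖cf φ (pc f k) s‖ ≤ h * D s := by
        have := lin2 hf (hK1 s) I
        rw [hK1' s] at this
        exact this
      have a3 : ‖av φ b N s‖ ≤ ∑ l ∈ I, ‖av φ (pc b l) N s‖ + δ * D s := by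
        have := lin hb (hK2 s) n e2'
        rw [av_eq φ b hN s]
        simp only [av_eq φ _ hN s]
        refine this.trans (add_le_add_right ?_ _)
        exact mul_le_mul_of_nonneg_left (hK2' s) hδ0.le
      have a4 : ∑ l ∈ I, ‖av φ (pc b l) N s‖ ≤ h' * D s := by
        have := lin2 hb (hK2 s) I
        simp only [av_eq φ _ hN s]
        exact this.trans (mul_le_mul_of_nonneg_left (hK2' s) hb.h0)
      have x0 : 0 ≤ ∑ k ∈ I, ‖cf φ (pc f k) s‖ := Finset.sum_nonneg fun _ _ => norm_nonneg _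
      have y0 : 0 ≤ ∑ l ∈ I, ‖av φ (pc b l) N s‖ := Finset.sum_nonneg fun _ _ => norm_nonneg _
      have d0 := hD0 s
      have m1 := mul_le_mul a1 a3 (norm_nonneg _) (by positivity)
      refine m1.trans ?_
      have m2 : (∑ k ∈ I, ‖cf φ (pc f k) s‖) * (δ * D s) ≤ h * D s * (δ * D s) :=
        mul_le_mul_of_nonneg_right a2 (by positivity)
      have m3 : (∑ l ∈ I, ‖av φ (pc b l) N s‖) * (δ * D s) ≤ h' * D s * (δ * D s) :=
        mul_le_mul_of_nonneg_right a4 (by positivity)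
      have m4 : δ * D s * (δ * D s) ≤ 1 * D s * (δ * D s) := by
        refine mul_le_mul_of_nonneg_right ?_ (by positivity)
        exact mul_le_mul_of_nonneg_right hδ1 d0
      nlinarith [m2, m3, m4]
    refine (Finset.sum_le_sum hpt).trans ?_
    rw [Finset.sum_add_distrib, ← Finset.mul_sum, ← hR]
    refine add_le_add ?_ hδR
    have hexp : ∑ s ∈ S, (∑ k ∈ I, ‖cf φ (pc f k) s‖) * (∑ l ∈ I, ‖av φ (pc b l) N s‖) =
        ∑ k ∈ I, ∑ l ∈ I, ∑ s ∈ S, ‖cf φ (pc f k) s‖ * ‖av φ (pc b l) N s‖ := by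
      simp only [Finset.sum_mul_sum]
      rw [Finset.sum_comm]
      refine Finset.sum_congr rfl fun k _ => ?_
      rw [Finset.sum_comm]
    rw [hexp]
    have hkl : ∀ k ∈ I, ∀ l ∈ I, ∑ s ∈ S, ‖cf φ (pc f k) s‖ * ‖av φ (pc b l) N s‖ ≤
        4 * C * ((2 : ℝ) ^ k * (2 : ℝ) ^ l * Real.sqrt (min (vol (lv f k)) (vol (lv b l)) *
          Real.sqrt (vol (lv f k) * vol (lv b l)))) := by
      intro k _ l _
      refine (hre φ Φ hφ _ _ N _ _ _ _ (two_zpow_pos _) (two_zpow_pos _) (pc_BF hf k)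
        (pc_BF hb l) hN S).trans (le_of_eq ?_)
      rw [two_zpow_succ, two_zpow_succ]
      ring
    refine (Finset.sum_le_sum fun k hk => Finset.sum_le_sum fun l hl => hkl k hk l hl).trans ?_
    simp only [← Finset.mul_sum]
    refine mul_le_mul_of_nonneg_left ?_ (by positivity)
    exact hmar I (fun k => vol (lv f k)) (fun l => vol (lv b l)) (fun k => vol_nonneg _)
      (fun l => vol_nonneg _) ((sum_vol hf I).trans hf1) ((sum_vol hb I).trans hb1)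
  intro f b N F E h h' hf hb hN S
  have hf0 : 0 ≤ n2 f := Real.sqrt_nonneg _
  have hb0 : 0 ≤ n2 b := Real.sqrt_nonneg _
  have hsq : ∀ (g : ℝ → ℂ), 0 < n2 g → ∫ x, ‖g x / (n2 g : ℂ)‖ ^ 2 ≤ 1 := by
    intro g hg
    have hnn : 0 ≤ ∫ x, ‖g x‖ ^ 2 := integral_nonneg fun x => sq_nonneg _
    have e : ∀ x, ‖g x / (n2 g : ℂ)‖ ^ 2 = ‖g x‖ ^ 2 / (n2 g) ^ 2 := by
      intro x
      rw [norm_div, Complex.norm_real, Real.norm_of_nonneg hg.le, div_pow]
    simp only [e]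
    rw [integral_div]
    have e2 : n2 g ^ 2 = ∫ x, ‖g x‖ ^ 2 := Real.sq_sqrt hnn
    rw [e2]
    exact div_self_le_one _
  rcases hf0.eq_or_lt with h0 | h0
  · rw [← h0, mul_zero, zero_mul]
    refine le_of_eq (Finset.sum_eq_zero fun s _ => ?_)
    have : cf φ f s = 0 := zero_of_n2 hf h0.symm _
    rw [this, norm_zero, zero_mul]
  rcases hb0.eq_or_lt with h0' | h0'
  · rw [← h0', mul_zero]
    refine le_of_eq (Finset.sum_eq_zero fun s _ => ?_)
    have : av φ b N s = 0 := by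
      rw [av_eq φ b hN s]
      exact zero_of_n2 hb h0'.symm _
    rw [this, norm_zero, mul_zero]
  rw [sum_div φ f b N h0 h0' S]
  have := key _ _ N F E _ _ (BF_div h0 hf) (BF_div h0' hb) hN (hsq f h0) (hsq b h0') S
  calc n2 f * n2 b * ∑ s ∈ S, ‖cf φ (fun x => f x / (n2 f : ℂ)) s‖ *
        ‖av φ (fun x => b x / (n2 b : ℂ)) N s‖ ≤ n2 f * n2 b * (4 * C * C') :=
        mul_le_mul_of_nonneg_left this (by positivity)
    _ = 4 * C * C' * n2 f * n2 b := by ring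

end Pool.Agent.CAR
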