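import Pool.Agent.CAR.Targets
import Pool.Agent.CAR.MASS

set_option autoImplicit false

/-!
# CAR, target IPB: inner products of wave packets
-/

namespace Pool.Agent.CAR

open MeasureTheory Set ComplexConjugate
open scoped ENNReal NNReal

namespace IPB_

theorem hs_nonneg (s : Tile) : 0 ≤ hs s := by unfold hs; positivity

/-- the weights at two tiles -/
theorem wt_two {s t : Tile} (hts : t.k ≤ s.k) {y : ℝ} (hy : y ∈ t.I) (x : ℝ) :
    wt 10 (s.u x) * wt 10 (t.u x) ≤ 2 ^ 10 * wt 10 (s.u y) := by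
  have hy' := mem_I.1 hy
  have h1 : s.u y = s.u x + (2 : ℝ) ^ (-s.k) * (y - x) := by simp only [Tile.u]; ring
  have h2 : t.u y - t.u x = (2 : ℝ) ^ (-t.k) * (y - x) := by simp only [Tile.u]; ring
  have h3 : (2 : ℝ) ^ (-s.k) ≤ (2 : ℝ) ^ (-t.k) := two_zpow_le (by omega)
  have p1 := two_zpow_pos (-s.k)
  have p2 := two_zpow_pos (-t.k)
  have h4 : |(2 : ℝ) ^ (-s.k) * (y - x)| ≤ 1 + |t.u x| := by
    have h5 : |(2 : ℝ) ^ (-s.k) * (y - x)| ≤ |(2 : ℝ) ^ (-t.k) * (y - x)| := by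
      rw [abs_mul, abs_mul, abs_of_pos p1, abs_of_pos p2]
      exact mul_le_mul_of_nonneg_right h3 (abs_nonneg _)
    have h6 : |(2 : ℝ) ^ (-t.k) * (y - x)| ≤ 1 + |t.u x| := by
      rw [← h2, abs_le]
      have := neg_abs_le (t.u x)
      have := le_abs_self (t.u x)
      constructor <;> linarith [hy'.1, hy'.2]
    exact h5.trans h6
  have h7 : 1 + |s.u y| ≤ 2 * ((1 + |s.u x|) * (1 + |t.u x|)) := by
    rw [h1]
    have h8 := abs_add_le (s.u x) ((2 : ℝ) ^ (-s.k) * (y - x))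
    have h9 := mul_nonneg (abs_nonneg (s.u x)) (abs_nonneg (t.u x))
    have := abs_nonneg (s.u x)
    have := abs_nonneg (t.u x)
    nlinarith
  have a1 : 0 < 1 + |s.u x| := by positivity
  have a2 : 0 < 1 + |t.u x| := by positivity
  have a3 : 0 < 1 + |s.u y| := by positivity
  unfold wt
  rw [← mul_inv, ← mul_pow]
  have h10 : (1 + |s.u y|) ^ 10 ≤ 2 ^ 10 * ((1 + |s.u x|) * (1 + |t.u x|)) ^ 10 := by
    rw [← mul_pow]
    exact pow_le_pow_left₀ a3.le h7 10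
  rw [inv_eq_one_div, inv_eq_one_div, mul_one_div, div_le_div_iff₀ (by positivity) (by positivity)]
  linarith

theorem wt_20 (x : ℝ) : wt 20 x = wt 10 x * wt 10 x := by
  unfold wt; rw [← mul_inv, ← pow_add]

end IPB_

open IPB_ in
theorem p_IPB (hWTI : T_WTI) (hFXB : T_FXB) (hPAR : T_PAR) : T_IPB := by
  intro A
  refine ⟨2 ^ 11 * A ^ 2 + 1, by positivity, ?_⟩
  intro φ Φ hW s t hts
  obtain ⟨hc1, -, hb1, -, -, hi1, -⟩ := hFXB A φ Φ hW s
  obtain ⟨hc2, -, hb2, -, -, hi2, -⟩ := hFXB A φ Φ hW t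
  have hI := hWTI 10 t.k t.l (by norm_num)
  have hJ := hWTI 10 s.k s.l (by norm_num)
  have hA := hW.pos
  have q1 := hs_nonneg s
  have q2 := hs_nonneg t
  have p := two_zpow_pos t.k
  have key : ∀ y ∈ t.I, ‖gr Φ s t‖ ≤
      2 ^ 11 * A ^ 2 * hs s * hs t * (2 : ℝ) ^ t.k * wt 10 (s.u y) := by
    intro y hy
    rw [hPAR A φ Φ hW s t]
    have hw0 := MASS.wt_nonneg 10 (s.u y)
    have h1 : ‖∫ x, fx φ s x * conj (fx φ t x)‖ ≤
        ∫ x, A ^ 2 * hs s * hs t * 2 ^ 10 * wt 10 (s.u y) * wt 10 ((2 : ℝ) ^ (-t.k) * x - t.l) := by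
      apply norm_integral_le_of_norm_le (hI.1.const_mul _)
      refine Filter.Eventually.of_forall fun x => ?_
      rw [norm_mul, RCLike.norm_conj]
      have g1 := hb1 x
      have g2 := hb2 x
      have g3 := wt_two hts hy x
      have w1 := MASS.wt_nonneg 10 (s.u x)
      have w2 := MASS.wt_nonneg 10 (t.u x)
      have w3 := MASS.wt_le_one 10 (s.u x)
      rw [wt_20] at g1 g2
      calc ‖fx φ s x‖ * ‖fx φ t x‖
          ≤ (A * hs s * (wt 10 (s.u x) * wt 10 (s.u x))) *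
            (A * hs t * (wt 10 (t.u x) * wt 10 (t.u x))) :=
            mul_le_mul g1 g2 (norm_nonneg _) (by positivity)
        _ = A ^ 2 * hs s * hs t * (wt 10 (s.u x) * wt 10 (t.u x)) *
            (wt 10 (s.u x) * wt 10 (t.u x)) := by ring
        _ ≤ A ^ 2 * hs s * hs t * (2 ^ 10 * wt 10 (s.u y)) * (1 * wt 10 (t.u x)) := by
            gcongr
        _ = A ^ 2 * hs s * hs t * 2 ^ 10 * wt 10 (s.u y) *
            wt 10 ((2 : ℝ) ^ (-t.k) * x - t.l) := by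
            simp only [Tile.u]; ring
    refine h1.trans ?_
    rw [integral_const_mul]
    calc A ^ 2 * hs s * hs t * 2 ^ 10 * wt 10 (s.u y) *
          ∫ x, wt 10 ((2 : ℝ) ^ (-t.k) * x - t.l)
        ≤ A ^ 2 * hs s * hs t * 2 ^ 10 * wt 10 (s.u y) * (2 * (2 : ℝ) ^ t.k) :=
          mul_le_mul_of_nonneg_left hI.2 (by positivity)
      _ = _ := by ring
  have hvol : (volume t.I).toReal = (2 : ℝ) ^ t.k := by
    rw [Tile.I, volume_dy, ENNReal.toReal_ofReal p.le]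
  have hfin : volume t.I ≠ ⊤ := by rw [Tile.I, volume_dy]; exact ENNReal.ofReal_ne_top
  have hJ' : IntegrableOn (fun y => wt 10 (s.u y)) t.I := by
    have := hJ.1
    exact this.integrableOn
  have h2 : ∫ y in t.I, ‖gr Φ s t‖ ≤
      ∫ y in t.I, 2 ^ 11 * A ^ 2 * hs s * hs t * (2 : ℝ) ^ t.k * wt 10 (s.u y) := by
    apply setIntegral_mono_on _ (hJ'.const_mul _) (measurableSet_dy _ _) key
    exact integrableOn_const hfin
  rw [setIntegral_const, integral_const_mul, Measure.real, hvol, smul_eq_mul] at h2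
  have h0 : 0 ≤ ∫ y in t.I, wt 10 (s.u y) :=
    setIntegral_nonneg (measurableSet_dy _ _) fun y _ => MASS.wt_nonneg _ _
  have h3 : ‖gr Φ s t‖ ≤ 2 ^ 11 * A ^ 2 * hs s * hs t * ∫ y in t.I, wt 10 (s.u y) := by
    have h4 : (2 : ℝ) ^ t.k * ‖gr Φ s t‖ ≤ (2 : ℝ) ^ t.k *
        (2 ^ 11 * A ^ 2 * hs s * hs t * ∫ y in t.I, wt 10 (s.u y)) := by
      calc _ ≤ _ := h2
        _ = _ := by ring
    exact le_of_mul_le_mul_left h4 p
  refine h3.trans ?_
  have h5 : 0 ≤ hs s * hs t * ∫ y in t.I, wt 10 (s.u y) := by positivity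
  nlinarith

end Pool.Agent.CAR
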