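import Pool.Agent.CAR.Targets
import Pool.Agent.CAR.P_FXB

set_option autoImplicit false

/-!
# CAR: orthogonality of packets
-/

namespace Pool.Agent.CAR

open MeasureTheory Set ComplexConjugate

theorem p_IPZ : T_IPZ := by
  intro A φ Φ h s t
  have hs0 : ∀ u : Tile, ∀ ξ, fr Φ u ξ ≠ 0 → ξ ∈ u.lo := fun u ξ hξ => FXB_.mem_lo h hξ
  have h1 : Disjoint s.lo t.lo → gr Φ s t = 0 := by
    intro hd
    unfold gr
    rw [integral_eq_zero_of_ae]
    refine Filter.Eventually.of_forall fun ξ => ?_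
    by_cases hx : fr Φ s ξ = 0
    · simp [hx]
    · by_cases hy : fr Φ t ξ = 0
      · simp [hy]
      · exact absurd (hs0 t ξ hy) (Set.disjoint_left.1 hd (hs0 s ξ hx))
  have h2 : gr Φ s t ≠ 0 → ∃ x, x ∈ s.lo ∧ x ∈ t.lo := by
    intro hne
    by_contra hcon
    push Not at hcon
    exact hne (h1 (Set.disjoint_left.2 fun x hx hx' => hcon x hx hx'))
  refine ⟨h1, ?_, fun hne hk => ?_, fun hne hk => ?_⟩
  · have e : gr Φ t s = conj (gr Φ s t) := by
      unfold gr
      rw [← integral_conj]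
      refine integral_congr_ae (Filter.Eventually.of_forall fun ξ => ?_)
      simp only [map_mul, Complex.conj_conj]
      ring
    rw [e, RCLike.norm_conj]
  · obtain ⟨x, hx, hx'⟩ := h2 hne
    exact om_sub_lo hk hx' (lo_sub s hx)
  · obtain ⟨x, hx, hx'⟩ := h2 hne
    exact m_eq hk (lo_sub t hx') (lo_sub s hx)

end Pool.Agent.CAR
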