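import Pool.Agent.CAR.STargets

set_option autoImplicit false

/-!
# The Carleson operator on the line, STRONG TYPE part: elementary inequality for finite sums
-/

namespace Pool.Agent.CAR

namespace MAR_

/-- the ratio `√(1/2)` -/
noncomputable def q : ℝ := √(1 / 2)

theorem q_nonneg : 0 ≤ q := Real.sqrt_nonneg _

theorem q_sq : q ^ 2 = 1 / 2 := Real.sq_sqrt (by norm_num)

theorem q_lt : q < 1 := by
  have h := q_sq
  have h0 := q_nonneg
  nlinarith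

theorem core {v w a b m : ℝ} (hv : 0 < v) (hw : 0 ≤ w) (hvw : w ^ 4 * v ^ 2 = 1) (ha : 0 ≤ a)
    (hb : 0 ≤ b) (hm0 : 0 ≤ m) (hma : m ≤ a) :
    v * √(m * √(a * b)) ≤ (v ^ 2 * a + b) * w := by
  have h1 : 0 ≤ v * √(m * √(a * b)) := by positivity
  have h2 : 0 ≤ (v ^ 2 * a + b) * w := by positivity
  rw [← pow_le_pow_iff_left₀ h1 h2 (by norm_num : (4 : ℕ) ≠ 0)]
  have h3 : (v * √(m * √(a * b))) ^ 4 = v ^ 4 * (m ^ 2 * (a * b)) := by
    have e1 : √(m * √(a * b)) ^ 2 = m * √(a * b) := Real.sq_sqrt (by positivity)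
    have e2 : √(a * b) ^ 2 = a * b := Real.sq_sqrt (by positivity)
    calc (v * √(m * √(a * b))) ^ 4 = v ^ 4 * (√(m * √(a * b)) ^ 2) ^ 2 := by ring
      _ = v ^ 4 * (m ^ 2 * √(a * b) ^ 2) := by rw [e1]; ring
      _ = _ := by rw [e2]
  rw [h3]
  have hv2 : 0 < v ^ 2 := by positivity
  rw [← mul_le_mul_iff_left₀ hv2]
  have h4 : ((v ^ 2 * a + b) * w) ^ 4 * v ^ 2 = (v ^ 2 * a + b) ^ 4 := by
    calc _ = (v ^ 2 * a + b) ^ 4 * (w ^ 4 * v ^ 2) := by ring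
      _ = _ := by rw [hvw, mul_one]
  rw [h4]
  have h5 : m ^ 2 ≤ a ^ 2 := by gcongr
  set X : ℝ := v ^ 2 * a with hX
  have hX0 : 0 ≤ X := by positivity
  calc v ^ 4 * (m ^ 2 * (a * b)) * v ^ 2 ≤ v ^ 4 * (a ^ 2 * (a * b)) * v ^ 2 := by gcongr
    _ = X ^ 3 * b := by rw [hX]; ring
    _ ≤ (X + b) ^ 3 * (X + b) := by
      gcongr
      · linarith
      · linarith
    _ = _ := by ring

theorem term {k l : ℤ} (hkl : l ≤ k) {a b : ℝ} (ha : 0 ≤ a) (hb : 0 ≤ b) :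
    (2 : ℝ) ^ k * (2 : ℝ) ^ l * √(min a b * √(a * b)) ≤
      ((4 : ℝ) ^ k * a + (4 : ℝ) ^ l * b) * q ^ (k - l).natAbs := by
  obtain ⟨n, hn⟩ := Int.le.dest hkl
  have hk : k = l + n := hn.symm
  have hnat : (k - l).natAbs = n := by omega
  rw [hnat]
  have e2 : (2 : ℝ) ^ k = (2 : ℝ) ^ l * 2 ^ n := by
    rw [hk, zpow_add₀ (by norm_num), zpow_natCast]
  have e4 : ∀ j : ℤ, (4 : ℝ) ^ j = (2 : ℝ) ^ j * (2 : ℝ) ^ j := by
    intro j
    rw [← mul_zpow]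
    norm_num
  have hc := core (v := (2 : ℝ) ^ n) (w := q ^ n) (a := a) (b := b) (m := min a b)
    (by positivity) (pow_nonneg q_nonneg _) (by
      have h4 : q ^ 4 = 1 / 4 := by
        calc q ^ 4 = (q ^ 2) ^ 2 := by ring
          _ = _ := by rw [q_sq]; norm_num
      calc (q ^ n) ^ 4 * ((2 : ℝ) ^ n) ^ 2 = (q ^ 4 * 2 ^ 2) ^ n := by
            rw [mul_pow, ← pow_mul, ← pow_mul, ← pow_mul, ← pow_mul, mul_comm n 4, mul_comm n 2]
        _ = 1 := by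
            rw [h4]
            norm_num) ha hb (le_min ha hb) (min_le_left _ _)
  have hu : (0 : ℝ) < (2 : ℝ) ^ l * (2 : ℝ) ^ l := by positivity
  rw [e4 k, e4 l, e2]
  calc _ = (2 : ℝ) ^ l * (2 : ℝ) ^ l * ((2 : ℝ) ^ n * √(min a b * √(a * b))) := by ring
    _ ≤ (2 : ℝ) ^ l * (2 : ℝ) ^ l * ((((2 : ℝ) ^ n) ^ 2 * a + b) * q ^ n) :=
      mul_le_mul_of_nonneg_left hc hu.le
    _ = _ := by ring

theorem term' (k l : ℤ) {a b : ℝ} (ha : 0 ≤ a) (hb : 0 ≤ b) :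
    (2 : ℝ) ^ k * (2 : ℝ) ^ l * √(min a b * √(a * b)) ≤
      ((4 : ℝ) ^ k * a + (4 : ℝ) ^ l * b) * q ^ (k - l).natAbs := by
  rcases le_total l k with h | h
  · exact term h ha hb
  · have h1 := term h hb ha
    rw [min_comm a b, mul_comm a b, mul_comm ((2 : ℝ) ^ k), add_comm,
      show (k - l).natAbs = (l - k).natAbs by omega]
    exact h1

theorem summ : Summable fun m : ℤ => q ^ m.natAbs := by
  have h := summable_geometric_of_lt_one q_nonneg q_lt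
  apply Summable.of_nat_of_neg
  · simpa using h
  · simpa using h

theorem sum_le (I : Finset ℤ) (k : ℤ) :
    ∑ l ∈ I, q ^ (k - l).natAbs ≤ ∑' m : ℤ, q ^ m.natAbs := by
  have h1 : ∑ l ∈ I, q ^ (k - l).natAbs = ∑ m ∈ I.image (fun l => k - l), q ^ m.natAbs := by
    rw [Finset.sum_image]
    intro x _ y _ h
    simpa using h
  rw [h1]
  exact summ.sum_le_tsum _ fun m _ => pow_nonneg q_nonneg _

end MAR_

open MAR_ in
/-- elementary inequality for finite sums -/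
theorem p_MAR : T_MAR := by
  have hS0 : 0 ≤ ∑' m : ℤ, q ^ m.natAbs := tsum_nonneg fun m => pow_nonneg q_nonneg _
  set S : ℝ := ∑' m : ℤ, q ^ m.natAbs with hS
  refine ⟨2 * S + 1, by positivity, fun I al be hal hbe h1 h2 => ?_⟩
  calc ∑ k ∈ I, ∑ l ∈ I, (2 : ℝ) ^ k * (2 : ℝ) ^ l *
        Real.sqrt (min (al k) (be l) * Real.sqrt (al k * be l)) ≤
        ∑ k ∈ I, ∑ l ∈ I, ((4 : ℝ) ^ k * al k + (4 : ℝ) ^ l * be l) * q ^ (k - l).natAbs :=
        Finset.sum_le_sum fun k _ => Finset.sum_le_sum fun l _ => term' k l (hal k) (hbe l)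
    _ = ∑ k ∈ I, (4 : ℝ) ^ k * al k * ∑ l ∈ I, q ^ (k - l).natAbs +
        ∑ l ∈ I, (4 : ℝ) ^ l * be l * ∑ k ∈ I, q ^ (l - k).natAbs := by
      simp only [add_mul, Finset.sum_add_distrib, Finset.mul_sum]
      congr 1
      rw [Finset.sum_comm]
      refine Finset.sum_congr rfl fun l _ => Finset.sum_congr rfl fun k _ => ?_
      rw [show (k - l).natAbs = (l - k).natAbs by omega]
    _ ≤ ∑ k ∈ I, (4 : ℝ) ^ k * al k * S + ∑ l ∈ I, (4 : ℝ) ^ l * be l * S := by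
      apply add_le_add
      · exact Finset.sum_le_sum fun k _ => mul_le_mul_of_nonneg_left (sum_le I k)
          (mul_nonneg (by positivity) (hal k))
      · exact Finset.sum_le_sum fun l _ => mul_le_mul_of_nonneg_left (sum_le I l)
          (mul_nonneg (by positivity) (hbe l))
    _ = (∑ k ∈ I, (4 : ℝ) ^ k * al k + ∑ l ∈ I, (4 : ℝ) ^ l * be l) * S := by
      rw [← Finset.sum_mul, ← Finset.sum_mul]
      ring
    _ ≤ (1 + 1) * S := mul_le_mul_of_nonneg_right (add_le_add h1 h2) hS0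
    _ ≤ 2 * S + 1 := by linarith

end Pool.Agent.CAR
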