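import Pool.Agent.CAR.Targets
import Pool.Agent.CAR.MASS

set_option autoImplicit false

/-!
# CAR, target MASS (without hypotheses)
-/

namespace Pool.Agent.CAR

open MeasureTheory Set
open scoped ENNReal NNReal

theorem MASS_.dn_eq (E : Set ℝ) (N : ℝ → ℝ) (u : Tile) : dn E N u = MASS.dens E N u := by
  rw [dn, MASS.dens, integral_const_mul]

theorem p_MASS : T_MASS := by
  classical
  obtain ⟨C, hC, h⟩ := MASS.mass
  refine ⟨C, hC, fun E N hE hN hfE S mu hmu => ?_⟩
  obtain ⟨U, h1, h2⟩ := h E N hE hfE hN (4 * mu) (by linarith) S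
  refine ⟨S.filter (fun s => ∀ u ∈ U, ¬ TLE s u), U, Finset.filter_subset _ _, ?_, ?_, ?_⟩
  · intro s hs u hu
    rw [Finset.mem_filter] at hs
    rw [MASS_.dn_eq]
    have := h2 s hs.1 hs.2 u hu
    linarith
  · intro s hs hs'
    by_contra hcon
    push Not at hcon
    exact hs' (Finset.mem_filter.2 ⟨hs, hcon⟩)
  · refine le_trans h1 ?_
    have hvol : 0 ≤ vol E := ENNReal.toReal_nonneg
    apply div_le_div_of_nonneg_left (by positivity) hmu
    linarith

end Pool.Agent.CAR
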