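import Pool.Agent.CAR.Targets

set_option autoImplicit false

/-!
# CAR, target ONE: one scale of a tree
-/

namespace Pool.Agent.CAR

open MeasureTheory Set
open scoped ENNReal NNReal

theorem p_ONE (hWTS : T_WTS) (hFXB : T_FXB) : T_ONE := by
  classical
  intro A
  refine ⟨8 * |A| + 1, by positivity, ?_⟩
  intro φ Φ hW T K Λ ξ hT c eps heps hc j x
  have hA := hW.pos
  have hterm : ∀ s ∈ T.filter (fun s => s.k = j), c s * ‖fx φ s x‖ ≤
      A * eps * wt 20 ((2 : ℝ) ^ (-j) * x - s.l) := by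
    intro s hs
    rw [Finset.mem_filter] at hs
    have h1 := (hFXB A φ Φ hW s).2.2.1 x
    obtain ⟨h2, h3⟩ := hc s hs.1
    have h4 : Real.sqrt ((2 : ℝ) ^ s.k) * Pool.Agent.CAR.hs s = 1 := by
      unfold Pool.Agent.CAR.hs
      exact mul_inv_cancel₀ (Real.sqrt_pos.2 (two_zpow_pos _)).ne'
    have h5 : 0 ≤ Pool.Agent.CAR.hs s := by unfold Pool.Agent.CAR.hs; positivity
    have h6 : 0 ≤ wt 20 (s.u x) := by unfold wt; positivity
    have h7 : s.u x = (2 : ℝ) ^ (-j) * x - s.l := by rw [Tile.u, hs.2]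
    calc c s * ‖fx φ s x‖ ≤ (eps * Real.sqrt ((2 : ℝ) ^ s.k)) *
          (A * Pool.Agent.CAR.hs s * wt 20 (s.u x)) :=
          mul_le_mul h3 h1 (norm_nonneg _) (by positivity)
      _ = A * eps * wt 20 (s.u x) * (Real.sqrt ((2 : ℝ) ^ s.k) * Pool.Agent.CAR.hs s) := by ring
      _ = A * eps * wt 20 ((2 : ℝ) ^ (-j) * x - s.l) := by rw [h4, mul_one, h7]
  refine (Finset.sum_le_sum hterm).trans ?_
  rw [← Finset.mul_sum]
  have hinj : ∀ s ∈ T.filter (fun s => s.k = j), ∀ t ∈ T.filter (fun s => s.k = j),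
      s.l = t.l → s = t := by
    intro s hs t ht hl
    rw [Finset.mem_filter] at hs ht
    have hk : s.k = t.k := hs.2.trans ht.2.symm
    have hm := m_eq hk (hT s hs.1).2 (hT t ht.1).2
    ext
    · exact hk
    · exact hl
    · exact hm
  have himg : ∑ s ∈ T.filter (fun s => s.k = j), wt 20 ((2 : ℝ) ^ (-j) * x - s.l) =
      ∑ n ∈ (T.filter (fun s => s.k = j)).image Tile.l, wt 20 ((2 : ℝ) ^ (-j) * x - n) := by
    rw [Finset.sum_image]
    exact fun s hs t ht h => hinj s hs t ht h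
  rw [himg]
  have h8 := hWTS 20 ((2 : ℝ) ^ (-j) * x) 0 ((T.filter (fun s => s.k = j)).image Tile.l)
    (by norm_num) le_rfl (fun n _ => abs_nonneg _)
  have h9 : wt (20 - 2) 0 = 1 := by unfold wt; norm_num
  rw [h9, mul_one] at h8
  have h10 : 0 ≤ A * eps := by positivity
  calc A * eps * _ ≤ A * eps * 8 := mul_le_mul_of_nonneg_left h8 h10
    _ ≤ (8 * |A| + 1) * eps := by rw [abs_of_pos hA]; nlinarith

end Pool.Agent.CAR
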