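import Pool.Agent.CAR.P_PLU
import Pool.Agent.CAR.P_ONE
import Pool.Agent.CAR.P_SPL
import Pool.Agent.CAR.P_WTS
import Pool.Agent.CAR.P_FXB

set_option autoImplicit false

/-!
# CAR, target MIN: (-)-trees
-/

namespace Pool.Agent.CAR

namespace MIN_

open MeasureTheory Set ComplexConjugate
open scoped ENNReal NNReal

theorem same {T : Finset Tile} {ξ n : ℝ} (hT : ∀ s ∈ T, ξ ∈ s.lo) {s t : Tile} (hs : s ∈ T)
    (ht : t ∈ T) (h1 : n ∈ s.up) (h2 : n ∈ t.up) : s.k = t.k := by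
  have key : ∀ s t : Tile, s ∈ T → t ∈ T → n ∈ s.up → n ∈ t.up → ¬ s.k < t.k := by
    intro s t hs ht h1 h2 hlt
    have h3 := om_sub_lo hlt (hT s hs) (lo_sub t (hT t ht))
    exact Set.disjoint_left.1 (lo_disj_up s) (h3 (up_sub t h2)) h1
  have a := key s t hs ht h1 h2
  have b := key t s ht hs h2 h1
  omega

open Classical in
theorem pt {φ : ℝ → ℂ} {T : Finset Tile} {ξ : ℝ} (hT : ∀ s ∈ T, ξ ∈ s.lo) {w : Tile → ℂ}
    {B n x : ℝ} {k0 : ℤ} (hB : 0 ≤ B)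
    (h : ∀ j : ℤ, ∑ s ∈ T.filter (fun s => s.k = j), ‖w s‖ * ‖fx φ s x‖ ≤ B) :
    ‖∑ s ∈ T, if k0 + 2 ≤ s.k ∧ n ∈ s.up then w s * fx φ s x else 0‖ ≤ B := by
  by_cases hne : ∃ s ∈ T, n ∈ s.up
  · obtain ⟨t, ht, hnt⟩ := hne
    refine (norm_sum_le _ _).trans ((Finset.sum_le_sum fun s hs => ?_).trans
      ((le_of_eq (Finset.sum_filter (fun s => s.k = t.k)
        (fun s => ‖w s‖ * ‖fx φ s x‖)).symm).trans (h t.k)))
    by_cases hc : k0 + 2 ≤ s.k ∧ n ∈ s.up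
    · rw [if_pos hc, if_pos (same hT hs ht hc.2 hnt), norm_mul]
    · rw [if_neg hc, norm_zero]
      split_ifs <;> positivity
  · have h0 : ∑ s ∈ T, (if k0 + 2 ≤ s.k ∧ n ∈ s.up then w s * fx φ s x else 0) = 0 := by
      refine Finset.sum_eq_zero fun s hs => ?_
      rw [if_neg]
      exact fun hc => hne ⟨s, hs, hc.2⟩
    rw [h0, norm_zero]
    exact hB

open Classical in
theorem large {C3 B : ℝ} {φ : ℝ → ℂ} {N : ℝ → ℝ} {E : Set ℝ}
    (mN : Measurable N) (mE : MeasurableSet E)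
    {T : Finset Tile} {K Λ : ℤ} {ξ mu : ℝ} (hT : MTree T K Λ ξ) {κ : ℝ → ℤ}
    (hκ : Stop T κ) (hB : 0 ≤ B) (hmu : 0 ≤ mu) (hC3 : 0 < C3)
    {w : Tile → ℂ}
    (hC : ∀ (j : ℤ) (x : ℝ), ∑ s ∈ T.filter (fun s => s.k = j), ‖w s‖ * ‖fx φ s x‖ ≤ B)
    (hP2 : ∀ x, volume {y | y ∈ E ∧ y ∈ Jx κ x ∧ ∃ s ∈ T, κ x + 2 ≤ s.k ∧ N y ∈ s.om} ≤
      ENNReal.ofReal (C3 * mu) * volume (Jx κ x)) :
    ∫⁻ x in E, ‖∑ s ∈ T, if κ x + 2 ≤ s.k ∧ N x ∈ s.up then w s * fx φ s x else 0‖ₑ ≤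
      ENNReal.ofReal (C3 * mu * (B * (3 * (2 : ℝ) ^ K))) := by
  set W : Set ℝ := Icc ((2 : ℝ) ^ K * (Λ - 1)) ((2 : ℝ) ^ K * (Λ + 2)) with hWd
  have hvW : volume W = ENNReal.ofReal (3 * (2 : ℝ) ^ K) := by
    rw [hWd, Real.volume_Icc]
    congr 1
    ring
  have hTr : Tree T K Λ ξ := fun s hs => ⟨(hT s hs).1, lo_sub s (hT s hs).2⟩
  have hGs := PLU_.measurableSet_Gs mE mN hκ.meas T
  have hb : ∀ x, ‖∑ s ∈ T, if κ x + 2 ≤ s.k ∧ N x ∈ s.up then w s * fx φ s x else 0‖ₑ ≤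
      ENNReal.ofReal B := by
    intro x
    rw [← ofReal_norm]
    exact ENNReal.ofReal_le_ofReal (pt (fun s hs => (hT s hs).2) hB (fun j => hC j x))
  have e1 : ∫⁻ x in E, ‖∑ s ∈ T, if κ x + 2 ≤ s.k ∧ N x ∈ s.up then w s * fx φ s x else 0‖ₑ ≤
      ∫⁻ x in PLU_.Gs E N κ T, ENNReal.ofReal B := by
    have : PLU_.Gs E N κ T = E ∩ PLU_.Gs E N κ T := by
      ext x
      simp only [PLU_.Gs, mem_ofPred_eq, mem_inter_iff]
      tauto
    rw [this, inter_comm, ← setLIntegral_indicator hGs]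
    refine setLIntegral_mono' mE fun x hx => ?_
    by_cases hx2 : x ∈ PLU_.Gs E N κ T
    · rw [indicator_of_mem hx2]
      exact hb x
    · rw [indicator_of_notMem hx2]
      have h0 : ∑ s ∈ T, (if κ x + 2 ≤ s.k ∧ N x ∈ s.up then w s * fx φ s x else 0) = 0 := by
        refine Finset.sum_eq_zero fun s hs => ?_
        rw [if_neg]
        intro hc
        exact hx2 ⟨hx, s, hs, hc⟩
      rw [h0, enorm_zero]
  refine e1.trans ?_
  have e2 := p_AVG κ hκ.const (PLU_.Gs E N κ T) W (ENNReal.ofReal (C3 * mu))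
    (fun _ => ENNReal.ofReal B) (fun _ => ENNReal.ofReal B) hGs measurableSet_Icc
    measurable_const measurable_const (fun x => ?_) (fun x y hy hxy => le_rfl)
    (fun x y hy hxy => ?_)
  · refine e2.trans ?_
    rw [setLIntegral_const, hvW, ← ENNReal.ofReal_mul hB, ← ENNReal.ofReal_mul (by positivity)]
  · refine le_trans (measure_mono ?_) (hP2 x)
    rintro y ⟨⟨hyE, s, hs, h1, h2⟩, hyJ⟩
    exact ⟨hyE, hyJ, s, hs, by rw [← hκ.const x y hyJ]; exact h1, up_sub s h2⟩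
  · obtain ⟨s, hs, h1, -⟩ := hy.2
    rw [hκ.const x y hxy] at h1
    have h2 : s.k ≤ K := le_of_dy_sub (hT s hs).1
    exact p_NEAR T K Λ ξ κ hTr hκ x (by omega)

end MIN_

open MeasureTheory Set ComplexConjugate
open scoped ENNReal NNReal

theorem p_MIN : T_MIN := by
  classical
  intro A
  obtain ⟨C1, hC1, hONE⟩ := p_ONE p_WTS p_FXB A
  obtain ⟨C3, hC3, hP2⟩ := p_P2
  obtain ⟨C4, hC4, hSMA⟩ := p_SMA A
  obtain ⟨C5, hC5, hSMB⟩ := p_SMB
  refine ⟨C4 * C5 + C3 * (C1 * 3), by positivity, ?_⟩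
  intro φ Φ g b N E hW hD T K Λ ξ eps mu hT heps hmu hsing hMs
  have hK := two_zpow_pos K
  rcases T.eq_empty_or_nonempty with rfl | hne
  · rw [Finset.sum_empty]
    positivity
  obtain ⟨κ, hκ⟩ := p_STOP T hne
  obtain ⟨ε, hε, hle⟩ := p_SPL A φ Φ g b N E hW hD T κ hκ.meas
  have hTr : Tree T K Λ ξ := fun s hs => ⟨(hT s hs).1, lo_sub s (hT s hs).2⟩
  have hcc : ∀ s, 0 ≤ cc Φ g s := fun s => norm_nonneg _
  have hw : ∀ s, ‖ε s * ((cc Φ g s : ℝ) : ℂ)‖ = cc Φ g s := by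
    intro s
    rw [norm_mul, hε s, one_mul, Complex.norm_real, Real.norm_of_nonneg (hcc s)]
  have hsmall : ∑ s ∈ T, cc Φ g s *
      ∫ x in {x | x ∈ E ∧ N x ∈ s.up ∧ s.k ≤ κ x + 1}, ‖fx φ s x‖ ≤
      C4 * C5 * (eps * mu * 2 ^ K) := by
    calc ∑ s ∈ T, cc Φ g s * ∫ x in {x | x ∈ E ∧ N x ∈ s.up ∧ s.k ≤ κ x + 1}, ‖fx φ s x‖
        ≤ ∑ s ∈ T, eps * (C4 * mu * ∫ x in {x | s.k ≤ κ x + 1}, wt 10 (s.u x)) := by
          refine Finset.sum_le_sum fun s hs => ?_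
          refine le_trans (mul_le_mul_of_nonneg_right (hsing s hs)
            (integral_nonneg fun x => norm_nonneg _)) ?_
          rw [mul_assoc]
          exact mul_le_mul_of_nonneg_left (hSMA φ Φ g b N E hW hD T κ mu hκ hMs hmu s hs) heps
      _ = eps * (C4 * mu) * ∑ s ∈ T, ∫ x in {x | s.k ≤ κ x + 1}, wt 10 (s.u x) := by
          rw [Finset.mul_sum]
          exact Finset.sum_congr rfl fun s _ => by ring
      _ ≤ eps * (C4 * mu) * (C5 * 2 ^ K) :=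
          mul_le_mul_of_nonneg_left (hSMB T K Λ ξ κ hTr hκ) (by positivity)
      _ = _ := by ring
  have hlarge := MIN_.large (φ := φ) (C3 := C3) (B := C1 * eps) (E := E) (K := K) (Λ := Λ)
    (mu := mu) (w := fun s => ε s * ((cc Φ g s : ℝ) : ℂ)) hD.mN hD.mE hT hκ
    (by positivity) hmu hC3
    (fun j x => by
      simp only [hw]
      exact hONE φ Φ hW T K Λ ξ hTr (cc Φ g) eps heps
        (fun s hs => ⟨hcc s, hsing s hs⟩) j x)
    (hP2 E N hD.mE hD.mN hD.fE T K Λ ξ mu κ hTr hκ hMs)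
  have hfin : ENNReal.ofReal (∑ s ∈ T, cc Φ g s * ‖av φ b N s‖) ≤
      ENNReal.ofReal ((C4 * C5 + C3 * (C1 * 3)) * eps * mu * 2 ^ K) := by
    refine hle.trans ((add_le_add (ENNReal.ofReal_le_ofReal hsmall) hlarge).trans ?_)
    rw [← ENNReal.ofReal_add (by positivity) (by positivity)]
    refine ENNReal.ofReal_le_ofReal (le_of_eq ?_)
    ring
  exact (ENNReal.ofReal_le_ofReal_iff (by positivity)).1 hfin

end Pool.Agent.CAR
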