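import Pool.Agent.CAR.Targets

set_option autoImplicit false

namespace Pool.Agent.CAR

open MeasureTheory Set
open scoped ENNReal NNReal

theorem p_NEAR : T_NEAR := by
  intro T K Λ ξ κ hT hS x hx
  obtain ⟨s, hs, -, hy⟩ := hS.near x
  obtain ⟨y, hyI⟩ : (s.I).Nonempty := dy_nonempty _ _
  have h1 := hy y hyI
  have h2 : y ∈ dy K Λ := (hT s hs).1 hyI
  have h3 : (2 : ℝ) ^ (κ x + 2) ≤ (2 : ℝ) ^ K := two_zpow_le hx
  rw [dy, mem_Ico] at h2
  rw [abs_le] at h1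
  rw [mem_Icc]
  constructor
  · linarith [h2.1, h1.1, mul_sub ((2 : ℝ) ^ K) Λ 1]
  · nlinarith [h2.2, h1.2]

end Pool.Agent.CAR
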