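import Pool.Agent.CAR.Targets

set_option autoImplicit false

/-!
# CAR-P2: density on stopping intervals
-/

namespace Pool.Agent.CAR.P2_

open MeasureTheory Set Pool.Agent.CAR
open scoped ENNReal NNReal

theorem wt_pos (n : ℕ) (t : ℝ) : 0 < wt n t := by unfold wt; positivity

theorem wt_le_one (n : ℕ) (t : ℝ) : wt n t ≤ 1 := by
  unfold wt
  have h : (1 : ℝ) ≤ (1 + |t|) ^ n := one_le_pow₀ (by linarith [abs_nonneg t])
  exact inv_le_one_of_one_le₀ h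

theorem continuous_u (u : Tile) : Continuous u.u := by
  unfold Tile.u; fun_prop

theorem measurable_f (u : Tile) :
    Measurable (fun x => (2 : ℝ) ^ (-u.k) * wt 8 (u.u x)) := by
  have h : Measurable u.u := (continuous_u u).measurable
  unfold wt
  fun_prop

theorem wt_ge {t : ℝ} (h : |t| ≤ 3) : ((4 : ℝ) ^ 8)⁻¹ ≤ wt 8 t := by
  unfold wt
  apply inv_anti₀
  · positivity
  · exact pow_le_pow_left₀ (by positivity) (by linarith) 8

theorem main {E : Set ℝ} {N : ℝ → ℝ} (hE : MeasurableSet E) (hN : Measurable N)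
    (hfE : volume E ≠ ⊤) {T : Finset Tile} {K Λ : ℤ} {ξ mu : ℝ} {κ : ℝ → ℤ}
    (hT : Tree T K Λ ξ) (hS : Stop T κ) (hM : Ms E N T mu) (x : ℝ) :
    volume {y | y ∈ E ∧ y ∈ Jx κ x ∧ ∃ s ∈ T, κ x + 2 ≤ s.k ∧ N y ∈ s.om} ≤
      ENNReal.ofReal (4 ^ 9 * mu) * volume (Jx κ x) := by
  obtain ⟨s0, hs0, hk0, hn0⟩ := hS.near x
  set a : ℤ := κ x + 2 with ha
  set u : Tile := ⟨a, s0.l / 2 ^ (a - s0.k).toNat, ⌊(2 : ℝ) ^ (-(-a)) * ξ⌋⟩ with hu
  have hI : s0.I ⊆ u.I := dy_sub_anc hk0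
  have hxi : ξ ∈ u.om := exists_mem_dy (-a) ξ
  have hTLE : TLE s0 u := ⟨hI, om_sub hk0 (hT s0 hs0).2 hxi⟩
  have hdn : dn E N u ≤ mu := hM s0 hs0 u hTLE
  have hsub : ∀ s ∈ T, a ≤ s.k → s.om ⊆ u.om := fun s hs hk => om_sub hk hxi (hT s hs).2
  set B : Set ℝ := (E ∩ N ⁻¹' u.om) ∩ Jx κ x with hB
  have hBm : MeasurableSet B :=
    (hE.inter (hN (measurableSet_dy _ _))).inter (measurableSet_dy _ _)
  have hGB : {y | y ∈ E ∧ y ∈ Jx κ x ∧ ∃ s ∈ T, κ x + 2 ≤ s.k ∧ N y ∈ s.om} ⊆ B := by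
    rintro y ⟨h1, h2, s, hs, hk, hNy⟩
    exact ⟨⟨h1, hsub s hs hk hNy⟩, h2⟩
  have hfA : volume (E ∩ N ⁻¹' u.om) ≠ ⊤ := ne_top_of_le_ne_top hfE (measure_mono inter_subset_left)
  have hfB : volume B ≠ ⊤ := ne_top_of_le_ne_top hfA (measure_mono inter_subset_left)
  have hfJ : volume (Jx κ x) = ENNReal.ofReal ((2 : ℝ) ^ κ x) := volume_dy _ _
  have hap := two_zpow_pos (-u.k)
  have hint : ∀ S : Set ℝ, volume S ≠ ⊤ →
      IntegrableOn (fun x => (2 : ℝ) ^ (-u.k) * wt 8 (u.u x)) S := by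
    intro S hSf
    refine Measure.integrableOn_of_bounded (M := (2 : ℝ) ^ (-u.k)) hSf
      (measurable_f u).aestronglyMeasurable ?_
    refine Filter.Eventually.of_forall fun y => ?_
    rw [Real.norm_eq_abs, abs_of_nonneg (mul_nonneg hap.le (wt_pos 8 _).le)]
    exact mul_le_of_le_one_right hap.le (wt_le_one 8 _)
  -- the weight is large on the stopping interval
  obtain ⟨z, hz⟩ := dy_nonempty s0.k s0.l
  have hz' : z ∈ s0.I := hz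
  have hzu := mem_I.1 (hI hz')
  have hxz := hn0 z hz'
  have hap2 : (2 : ℝ) ^ (-u.k) * (2 : ℝ) ^ (κ x + 2) = 1 := two_zpow_neg_mul a
  have hJ : ∀ y ∈ Jx κ x, |y - x| ≤ (2 : ℝ) ^ (κ x + 2) := by
    intro y hy
    have hx : x ∈ Jx κ x := exists_mem_dy _ _
    simp only [Jx, dy, mem_Ico] at hy hx
    have h4 : (2 : ℝ) ^ κ x ≤ (2 : ℝ) ^ (κ x + 2) := two_zpow_le (by omega)
    rw [abs_le]
    constructor <;> nlinarith [hy.1, hy.2, hx.1, hx.2]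
  have hwt : ∀ y ∈ B, (2 : ℝ) ^ (-u.k) * ((4 : ℝ) ^ 8)⁻¹ ≤
      (2 : ℝ) ^ (-u.k) * wt 8 (u.u y) := by
    intro y hy
    refine mul_le_mul_of_nonneg_left (wt_ge ?_) hap.le
    have h1 := hJ y hy.2
    have e : u.u y = u.u z + ((2 : ℝ) ^ (-u.k) * (y - x) + (2 : ℝ) ^ (-u.k) * (x - z)) := by
      unfold Tile.u; ring
    have h2 : |(2 : ℝ) ^ (-u.k) * (y - x)| ≤ 1 := by
      rw [abs_mul, abs_of_pos hap, ← hap2]
      exact mul_le_mul_of_nonneg_left h1 hap.le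
    have h3 : |(2 : ℝ) ^ (-u.k) * (x - z)| ≤ 1 := by
      rw [abs_mul, abs_of_pos hap, ← hap2]
      exact mul_le_mul_of_nonneg_left hxz hap.le
    have h4 : |u.u z| ≤ 1 := by rw [abs_le]; constructor <;> linarith [hzu.1, hzu.2]
    rw [e]
    calc |u.u z + ((2 : ℝ) ^ (-u.k) * (y - x) + (2 : ℝ) ^ (-u.k) * (x - z))|
        ≤ |u.u z| + |(2 : ℝ) ^ (-u.k) * (y - x) + (2 : ℝ) ^ (-u.k) * (x - z)| := abs_add_le _ _
      _ ≤ |u.u z| + (|(2 : ℝ) ^ (-u.k) * (y - x)| + |(2 : ℝ) ^ (-u.k) * (x - z)|) := by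
          gcongr; exact abs_add_le _ _
      _ ≤ 3 := by linarith
  have hlow : (2 : ℝ) ^ (-u.k) * ((4 : ℝ) ^ 8)⁻¹ * (volume B).toReal ≤ dn E N u := by
    calc (2 : ℝ) ^ (-u.k) * ((4 : ℝ) ^ 8)⁻¹ * (volume B).toReal
        ≤ ∫ y in B, (2 : ℝ) ^ (-u.k) * wt 8 (u.u y) :=
          setIntegral_ge_of_const_le_real hBm hfB hwt (hint B hfB)
      _ ≤ dn E N u := by
          unfold dn
          refine setIntegral_mono_set (hint _ hfA) ?_ ?_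
          · exact Filter.Eventually.of_forall fun y => mul_nonneg hap.le (wt_pos 8 _).le
          · exact LE.le.eventuallyLE inter_subset_left
  have hfin : (volume B).toReal ≤ 4 ^ 9 * mu * (2 : ℝ) ^ κ x := by
    have h1 : (2 : ℝ) ^ (-u.k) * ((4 : ℝ) ^ 8)⁻¹ * (volume B).toReal ≤ mu := hlow.trans hdn
    have h2 : (2 : ℝ) ^ (κ x + 2) = 4 * (2 : ℝ) ^ κ x := by
      rw [zpow_add₀ (by norm_num)]; norm_num; ring
    have h3 : (volume B).toReal = 4 ^ 8 * (2 : ℝ) ^ (κ x + 2) *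
        ((2 : ℝ) ^ (-u.k) * ((4 : ℝ) ^ 8)⁻¹ * (volume B).toReal) := by
      calc (volume B).toReal = ((4 : ℝ) ^ 8 * ((4 : ℝ) ^ 8)⁻¹) *
            ((2 : ℝ) ^ (-u.k) * (2 : ℝ) ^ (κ x + 2)) * (volume B).toReal := by
            rw [hap2, mul_inv_cancel₀ (by positivity)]; ring
        _ = _ := by ring
    have h5 := two_zpow_pos (κ x + 2)
    calc (volume B).toReal = 4 ^ 8 * (2 : ℝ) ^ (κ x + 2) *
        ((2 : ℝ) ^ (-u.k) * ((4 : ℝ) ^ 8)⁻¹ * (volume B).toReal) := h3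
      _ ≤ 4 ^ 8 * (2 : ℝ) ^ (κ x + 2) * mu := mul_le_mul_of_nonneg_left h1 (by positivity)
      _ = 4 ^ 9 * mu * (2 : ℝ) ^ κ x := by rw [h2]; ring
  calc volume {y | y ∈ E ∧ y ∈ Jx κ x ∧ ∃ s ∈ T, κ x + 2 ≤ s.k ∧ N y ∈ s.om}
      ≤ volume B := measure_mono hGB
    _ = ENNReal.ofReal (volume B).toReal := (ENNReal.ofReal_toReal hfB).symm
    _ ≤ ENNReal.ofReal (4 ^ 9 * mu * (2 : ℝ) ^ κ x) := ENNReal.ofReal_le_ofReal hfin
    _ = ENNReal.ofReal (4 ^ 9 * mu) * volume (Jx κ x) := by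
        rw [hfJ, ENNReal.ofReal_mul' (two_zpow_pos _).le]

end Pool.Agent.CAR.P2_

namespace Pool.Agent.CAR

theorem p_P2 : T_P2 :=
  ⟨4 ^ 9, by positivity, fun _ _ hE hN hfE _ _ _ _ _ _ hT hS hM x =>
    P2_.main hE hN hfE hT hS hM x⟩

end Pool.Agent.CAR
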