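import Pool.Agent.CAR.P_SMB

set_option autoImplicit false

/-!
# One small tile of a tree (target SMA)
-/

namespace Pool.Agent.CAR

open MeasureTheory Set
open scoped ENNReal NNReal

namespace SMA_

/-- a point of the small part -/
theorem av {T : Finset Tile} {κ : ℝ → ℤ} (hS : Stop T κ) (s : Tile) {x0 : ℝ}
    (hx : s.k ≤ κ x0 + 1) : wt 10 (s.u x0) ≤
      2048 * (2 : ℝ) ^ (-s.k) * ∫ x in {x | s.k ≤ κ x + 1}, wt 10 (s.u x) := by
  set J : Set ℝ := dy (s.k - 1) (PJ_.fl (s.k - 1) x0) with hJ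
  have hx0 : x0 ∈ J := PJ_.mem_fl _ _
  have hsub : J ⊆ {x | s.k ≤ κ x + 1} := by
    intro x hxJ
    have h1 : J ⊆ Jx κ x0 := dy_sub_of_mem (by omega) hx0 (exists_mem_dy _ _)
    have h2 := hS.const x0 x (h1 hxJ)
    rw [mem_ofPred_eq, h2]
    exact hx
  have hk := two_zpow_pos s.k
  have hi : Integrable fun x => wt 10 (s.u x) := integrable_wt_u (by norm_num) s
  have hv : volume.real J = (2 : ℝ) ^ (s.k - 1) := by
    rw [Measure.real, hJ, volume_dy, ENNReal.toReal_ofReal (two_zpow_pos _).le]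
  have h1 : ∫ _ in J, wt 10 (s.u x0) ≤ ∫ x in J, 1024 * wt 10 (s.u x) := by
    refine setIntegral_mono_on ?_ (hi.integrableOn.const_mul _) (measurableSet_dy _ _)
      fun x hxJ => ?_
    · refine integrableOn_const ?_
      rw [hJ, volume_dy]; exact ENNReal.ofReal_ne_top
    · have e1 : |s.u x0 - s.u x| ≤ 1 := by
        rw [PJ_.u_eq, PJ_.u_eq, ← mul_sub, abs_mul, abs_of_pos (two_zpow_pos _)]
        have h3 : |x0 - (2 : ℝ) ^ s.k * s.l - (x - (2 : ℝ) ^ s.k * s.l)| ≤ (2 : ℝ) ^ (s.k - 1) := by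
          rw [hJ, dy, mem_Ico] at hxJ hx0
          rw [abs_le]
          constructor <;> nlinarith [hxJ.1, hxJ.2, hx0.1, hx0.2]
        refine (mul_le_mul_of_nonneg_left h3 (two_zpow_pos _).le).trans ?_
        rw [← zpow_add₀ (by norm_num)]
        apply zpow_le_one_of_nonpos₀ (by norm_num)
        omega
      have e2 : |s.u x| ≤ |s.u x0| + |s.u x0 - s.u x| := by
        have := abs_sub_abs_le_abs_sub (s.u x) (s.u x0)
        rw [abs_sub_comm] at this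
        linarith
      have key : 1 + |s.u x| ≤ 2 * (1 + |s.u x0|) := by linarith [abs_nonneg (s.u x0)]
      unfold wt
      rw [← div_eq_mul_inv, inv_eq_one_div, div_le_div_iff₀ (by positivity) (by positivity),
        one_mul]
      have := pow_le_pow_left₀ (by positivity) key 10
      refine this.trans (le_of_eq ?_)
      ring
  rw [setIntegral_const, smul_eq_mul, integral_const_mul, hv] at h1
  have h2 : ∫ x in J, wt 10 (s.u x) ≤ ∫ x in {x | s.k ≤ κ x + 1}, wt 10 (s.u x) :=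
    setIntegral_mono_set hi.integrableOn (ae_of_all _ fun x => wt_nonneg _ _) hsub.eventuallyLE
  have h3 : (2 : ℝ) ^ (s.k - 1) * wt 10 (s.u x0) ≤
      1024 * ∫ x in {x | s.k ≤ κ x + 1}, wt 10 (s.u x) := by linarith
  have e : (2 : ℝ) ^ (s.k - 1) = (2 : ℝ) ^ s.k / 2 := by
    rw [zpow_sub₀ (by norm_num), zpow_one]
  rw [e] at h3
  have h4 := mul_le_mul_of_nonneg_left h3 (two_zpow_pos (-s.k)).le
  have h5 : (2 : ℝ) ^ (-s.k) * ((2 : ℝ) ^ s.k / 2 * wt 10 (s.u x0)) = wt 10 (s.u x0) / 2 := by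
    have := two_zpow_neg_mul s.k
    rw [← mul_assoc, mul_div_assoc', this]; ring
  rw [h5] at h4
  linarith

end SMA_

open SMA_ in
/-- **SMA** -/
theorem p_SMA : T_SMA := by
  intro A
  by_cases hA : 0 < A
  swap
  · exact ⟨1, one_pos, fun φ Φ g b N E hW => absurd hW.pos hA⟩
  refine ⟨2048 * A, by positivity, ?_⟩
  intro φ Φ g b N E hW hD T κ mu hS hM hmu s hs
  have hk := two_zpow_pos s.k
  have hr : 0 < Real.sqrt ((2 : ℝ) ^ s.k) := Real.sqrt_pos.2 hk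
  have hi : ∀ n, 2 ≤ n → Integrable fun x => wt n (s.u x) := fun n hn => integrable_wt_u hn s
  set R : Set ℝ := {x | s.k ≤ κ x + 1} with hR
  have mR : MeasurableSet R := SMB_.meas_R hS.meas s.k
  set V : ℝ := ∫ x in R, wt 10 (s.u x) with hV
  have hV0 : 0 ≤ V := setIntegral_nonneg mR fun x _ => wt_nonneg _ _
  set G : Set ℝ := {x | x ∈ E ∧ N x ∈ s.up ∧ s.k ≤ κ x + 1} with hG
  have eG : G = E ∩ N ⁻¹' s.up ∩ R := by
    ext x; simp only [hG, hR, mem_ofPred_eq, mem_inter_iff, mem_preimage]; tauto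
  have mG : MeasurableSet G := by
    rw [eG]; exact (hD.mE.inter (hD.mN (measurableSet_dy _ _))).inter mR
  have h1 : ∫ x in G, ‖fx φ s x‖ ≤
      ∫ x in G, (Real.sqrt ((2 : ℝ) ^ s.k))⁻¹ * A * (2048 * (2 : ℝ) ^ (-s.k) * V) *
        wt 8 (s.u x) := by
    refine integral_mono_of_nonneg (ae_of_all _ fun x => norm_nonneg _)
      ((hi 8 (by norm_num)).integrableOn.const_mul _) ?_
    refine (ae_restrict_iff' mG).2 (ae_of_all _ fun x hx => ?_)
    unfold fx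
    dsimp only
    rw [norm_mul, norm_mul, Complex.norm_real, Real.norm_of_nonneg (by positivity)]
    have e2 : ‖e1 ((2 : ℝ) ^ (-s.k) * s.m * x)‖ = 1 := by
      unfold e1
      rw [show (2 * Real.pi * Complex.I * (((2 : ℝ) ^ (-s.k) * s.m * x : ℝ) : ℂ)) =
        ((2 * Real.pi * ((2 : ℝ) ^ (-s.k) * s.m * x) : ℝ) : ℂ) * Complex.I by push_cast; ring]
      exact Complex.norm_exp_ofReal_mul_I _
    rw [e2, mul_one]
    have h2 := hW.dec (s.u x)
    have h3 : wt 20 (s.u x) ≤ wt 10 (s.u x) * wt 8 (s.u x) := by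
      rw [← wt_mul]; exact wt_anti (by norm_num) _
    have h4 : wt 10 (s.u x) ≤ 2048 * (2 : ℝ) ^ (-s.k) * V := SMA_.av hS s hx.2.2
    have h5 : wt 20 (s.u x) ≤ 2048 * (2 : ℝ) ^ (-s.k) * V * wt 8 (s.u x) :=
      h3.trans (mul_le_mul_of_nonneg_right h4 (wt_nonneg _ _))
    calc (Real.sqrt ((2 : ℝ) ^ s.k))⁻¹ * ‖φ (s.u x)‖
        ≤ (Real.sqrt ((2 : ℝ) ^ s.k))⁻¹ * (A * (2048 * (2 : ℝ) ^ (-s.k) * V * wt 8 (s.u x))) := by
          refine mul_le_mul_of_nonneg_left ?_ (by positivity)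
          exact h2.trans (mul_le_mul_of_nonneg_left h5 hA.le)
      _ = _ := by ring
  rw [integral_const_mul] at h1
  have h6 : ∫ x in G, wt 8 (s.u x) ≤ (2 : ℝ) ^ s.k * mu := by
    have h7 : ∫ x in G, wt 8 (s.u x) ≤ ∫ x in E ∩ N ⁻¹' s.om, wt 8 (s.u x) := by
      refine setIntegral_mono_set (hi 8 (by norm_num)).integrableOn
        (ae_of_all _ fun x => wt_nonneg _ _) ?_
      exact LE.le.eventuallyLE fun x hx => ⟨hx.1, up_sub s hx.2.1⟩
    have h8 : (2 : ℝ) ^ (-s.k) * ∫ x in E ∩ N ⁻¹' s.om, wt 8 (s.u x) = dn E N s := by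
      rw [dn, integral_const_mul]
    have h9 : dn E N s ≤ mu := hM s hs s ⟨subset_rfl, subset_rfl⟩
    have h10 : ∫ x in E ∩ N ⁻¹' s.om, wt 8 (s.u x) = (2 : ℝ) ^ s.k * dn E N s := by
      rw [← h8, ← mul_assoc, two_zpow_mul_neg, one_mul]
    rw [h10] at h7
    exact h7.trans (mul_le_mul_of_nonneg_left h9 hk.le)
  have hc0 : 0 ≤ (Real.sqrt ((2 : ℝ) ^ s.k))⁻¹ * A * (2048 * (2 : ℝ) ^ (-s.k) * V) := by
    have := two_zpow_pos (-s.k)
    positivity
  have h11 := h1.trans (mul_le_mul_of_nonneg_left h6 hc0)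
  refine (mul_le_mul_of_nonneg_left h11 hr.le).trans (le_of_eq ?_)
  have e3 : Real.sqrt ((2 : ℝ) ^ s.k) * (Real.sqrt ((2 : ℝ) ^ s.k))⁻¹ = 1 :=
    mul_inv_cancel₀ hr.ne'
  have e4 := two_zpow_neg_mul s.k
  calc Real.sqrt ((2 : ℝ) ^ s.k) * ((Real.sqrt ((2 : ℝ) ^ s.k))⁻¹ * A *
        (2048 * (2 : ℝ) ^ (-s.k) * V) * ((2 : ℝ) ^ s.k * mu))
      = (Real.sqrt ((2 : ℝ) ^ s.k) * (Real.sqrt ((2 : ℝ) ^ s.k))⁻¹) *
          ((2 : ℝ) ^ (-s.k) * (2 : ℝ) ^ s.k) * (2048 * A * mu * V) := by ring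
    _ = _ := by rw [e3, e4]; ring

end Pool.Agent.CAR
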