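import Pool.Agent.CAR.PJ
import Pool.Agent.CAR.GEO

set_option autoImplicit false

/-!
# The small tiles of the tree lemma (Blueprint item 7: SMALL)
-/

namespace Pool.Agent.CAR

namespace PJ_

open MeasureTheory Set
open scoped ENNReal NNReal

/-- the points at which the tile `s` is small -/
def Sm (T : Finset Tile) (s : Tile) : Set ℝ :=
  {x | ∃ p ∈ JJ T, x ∈ dy p.1 p.2 ∧ s.k ≤ p.1 + 1}

theorem measurableSet_Sm (T : Finset Tile) (s : Tile) : MeasurableSet (Sm T s) := by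
  have e : Sm T s = ⋃ p ∈ {p : ℤ × ℤ | p ∈ JJ T ∧ s.k ≤ p.1 + 1}, dy p.1 p.2 := by
    ext x
    simp only [Sm, mem_ofPred_eq, mem_iUnion, exists_prop]
    constructor
    · rintro ⟨p, h1, h2, h3⟩; exact ⟨p, ⟨h1, h3⟩, h2⟩
    · rintro ⟨p, ⟨h1, h3⟩, h2⟩; exact ⟨p, h1, h2, h3⟩
  rw [e]
  exact MeasurableSet.biUnion (to_countable _) fun p _ => measurableSet_dy _ _

/-- the left end of a tile -/
theorem left_mem_I (s : Tile) : (2 : ℝ) ^ s.k * s.l ∈ s.I := left_mem_dy _ _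

theorem u_eq (s : Tile) (x : ℝ) : s.u x = (2 : ℝ) ^ (-s.k) * (x - (2 : ℝ) ^ s.k * s.l) := by
  unfold Tile.u
  rw [mul_sub, ← mul_assoc, two_zpow_neg_mul, one_mul]

theorem sub_tri {k l j l' : ℤ} (hjk : j ≤ k) (h : (2 : ℝ) ^ j * l' ∈ tri k l) :
    dy j l' ⊆ tri k l := by
  set a : ℝ := (2 : ℝ) ^ j * l' with ha
  have hp := two_zpow_pos k
  have h1 := mem_fl k a
  have h2 : dy j l' ⊆ dy k (fl k a) := dy_sub_of_mem hjk (left_mem_dy j l') h1
  refine h2.trans ?_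
  rw [tri, mem_Ico] at h
  rw [dy, mem_Ico] at h1
  have h3 : ((l : ℝ) - 1) < fl k a + 1 := by nlinarith [h.1, h1.2]
  have h4 : (fl k a : ℝ) < l + 2 := by nlinarith [h.2, h1.1]
  have h5 : l - 1 ≤ fl k a := by
    have : (l : ℤ) - 1 < fl k a + 1 := by exact_mod_cast h3
    omega
  have h6 : fl k a ≤ l + 1 := by
    have : fl k a < l + 2 := by exact_mod_cast h4
    omega
  have h5' : (l : ℝ) - 1 ≤ fl k a := by exact_mod_cast h5
  have h6' : (fl k a : ℝ) ≤ l + 1 := by exact_mod_cast h6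
  intro x hx
  rw [dy, mem_Ico] at hx
  rw [tri, mem_Ico]
  constructor
  · nlinarith [hx.1]
  · nlinarith [hx.2]

/-- the weight is comparable on the interval -/
theorem wt_cmp {T : Finset Tile} {s : Tile} (hs : s ∈ T) {p : ℤ × ℤ} (hp : p ∈ JJ T)
    (hk : s.k ≤ p.1 + 1) {x y : ℝ} (hx : x ∈ dy p.1 p.2) (hy : y ∈ dy p.1 p.2) (n : ℕ) :
    wt n (s.u x) ≤ 2 ^ n * wt n (s.u y) := by
  have hq := two_zpow_pos (-s.k)
  have hp' := two_zpow_pos p.1
  have hd : |s.u x - s.u y| ≤ (2 : ℝ) ^ (-s.k) * (2 : ℝ) ^ p.1 := by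
    rw [u_eq, u_eq, ← mul_sub, abs_mul, abs_of_pos hq]
    refine mul_le_mul_of_nonneg_left ?_ hq.le
    rw [dy, mem_Ico] at hx hy
    rw [abs_le]
    constructor <;> nlinarith [hx.1, hx.2, hy.1, hy.2]
  have key : 1 + |s.u y| ≤ 2 * (1 + |s.u x|) := by
    rcases lt_or_eq_of_le hk with h | h
    · -- the tile is at distance at least `2^k`
      have ha : (2 : ℝ) ^ s.k * s.l ∉ tri p.1 p.2 := fun hh =>
        hp.1 ⟨s, hs, sub_tri (by omega) hh⟩
      have hx' : (2 : ℝ) ^ (-s.k) * (2 : ℝ) ^ p.1 ≤ |s.u x| := by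
        rw [u_eq, abs_mul, abs_of_pos hq]
        refine mul_le_mul_of_nonneg_left ?_ hq.le
        rw [tri, mem_Ico, not_and_or, not_le, not_lt] at ha
        rw [dy, mem_Ico] at hx
        rcases ha with ha | ha
        · refine le_trans ?_ (le_abs_self _)
          nlinarith [hx.1]
        · refine le_trans ?_ (neg_le_abs _)
          nlinarith [hx.2]
      have : |s.u y| ≤ |s.u x| + |s.u x - s.u y| := by
        have := abs_sub_abs_le_abs_sub (s.u y) (s.u x)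
        rw [abs_sub_comm] at this
        linarith
      linarith
    · have e : (2 : ℝ) ^ (-s.k) * (2 : ℝ) ^ p.1 ≤ 1 := by
        rw [← zpow_add₀ (by norm_num), h]
        apply zpow_le_one_of_nonpos₀ (by norm_num)
        omega
      have : |s.u y| ≤ |s.u x| + |s.u x - s.u y| := by
        have := abs_sub_abs_le_abs_sub (s.u y) (s.u x)
        rw [abs_sub_comm] at this
        linarith
      linarith [abs_nonneg (s.u x)]
  unfold wt
  rw [← div_eq_mul_inv, inv_eq_one_div, div_le_div_iff₀ (by positivity) (by positivity), one_mul,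
    ← mul_pow]
  exact pow_le_pow_left₀ (by positivity) key n

/-- **Step B** -/
theorem stepB {T : Finset Tile} {s : Tile} (hs : s ∈ T) {E : Set ℝ} (mE : MeasurableSet E)
    {N : ℝ → ℝ} (mN : Measurable N) {μ : ℝ} (hμ : dn E N s ≤ μ) {p : ℤ × ℤ} (hp : p ∈ JJ T)
    (hk : s.k ≤ p.1 + 1) :
    ∫⁻ x in E ∩ N ⁻¹' s.up ∩ dy p.1 p.2, ENNReal.ofReal (wt 20 (s.u x)) ≤
      ENNReal.ofReal (16 * μ) * ∫⁻ y in dy p.1 p.2, ENNReal.ofReal
        ((2 : ℝ) ^ (s.k - p.1) * wt 4 (s.u y)) := by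
  have hp1 := two_zpow_pos p.1
  have hs1 := two_zpow_pos s.k
  set M : ℝ := (2 : ℝ) ^ (-p.1) * ∫ y in dy p.1 p.2, wt 4 (s.u y) with hM
  have i4 : IntegrableOn (fun y => wt 4 (s.u y)) (dy p.1 p.2) :=
    (integrable_wt_u (by norm_num) s).integrableOn
  have i8 : Integrable (fun y => wt 8 (s.u y)) := integrable_wt_u (by norm_num) s
  have hM0 : 0 ≤ M := mul_nonneg (two_zpow_pos _).le
    (setIntegral_nonneg (measurableSet_dy _ _) fun y _ => (wt_pos _ _).le)
  have hw : ∀ x ∈ dy p.1 p.2, wt 4 (s.u x) ≤ 16 * M := by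
    intro x hx
    have h1 : ∫ _ in dy p.1 p.2, wt 4 (s.u x) ≤ ∫ y in dy p.1 p.2, 16 * wt 4 (s.u y) := by
      refine setIntegral_mono_on ?_ (i4.const_mul 16) (measurableSet_dy _ _) fun y hy => ?_
      · refine integrableOn_const ?_
        rw [volume_dy]; exact ENNReal.ofReal_ne_top
      · have := wt_cmp hs hp hk hx hy 4
        norm_num at this
        exact this
    rw [setIntegral_const, smul_eq_mul, integral_const_mul] at h1
    have h2 : volume.real (dy p.1 p.2) = (2 : ℝ) ^ p.1 := by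
      rw [Measure.real, volume_dy, ENNReal.toReal_ofReal hp1.le]
    rw [h2] at h1
    have h3 := mul_le_mul_of_nonneg_left h1 (two_zpow_pos (-p.1)).le
    rw [← mul_assoc, two_zpow_neg_mul, one_mul] at h3
    rw [hM]
    linarith
  have hdn : ∫ x in E ∩ N ⁻¹' s.om, wt 8 (s.u x) = (2 : ℝ) ^ s.k * dn E N s := by
    rw [dn, ← mul_assoc, two_zpow_mul_neg, one_mul]
  calc ∫⁻ x in E ∩ N ⁻¹' s.up ∩ dy p.1 p.2, ENNReal.ofReal (wt 20 (s.u x))
      ≤ ∫⁻ x in E ∩ N ⁻¹' s.up ∩ dy p.1 p.2,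
          ENNReal.ofReal (16 * M) * ENNReal.ofReal (wt 8 (s.u x)) := by
        refine setLIntegral_mono' ?_ ?_
        · exact (mE.inter (mN (measurableSet_dy _ _))).inter (measurableSet_dy _ _)
        · intro x hx
          rw [← ENNReal.ofReal_mul (by positivity)]
          refine ENNReal.ofReal_le_ofReal ?_
          have e : wt 20 (s.u x) ≤ wt 12 (s.u x) := wt_anti (by norm_num) _
          have e2 : wt 12 (s.u x) = wt 8 (s.u x) * wt 4 (s.u x) := wt_mul 8 4 _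
          rw [e2] at e
          have := mul_le_mul_of_nonneg_left (hw x hx.2) (wt_pos 8 (s.u x)).le
          linarith
    _ = ENNReal.ofReal (16 * M) *
          ∫⁻ x in E ∩ N ⁻¹' s.up ∩ dy p.1 p.2, ENNReal.ofReal (wt 8 (s.u x)) :=
        lintegral_const_mul _ (by
          exact ENNReal.measurable_ofReal.comp ((wt_cont 8).comp (u_cont s)).measurable)
    _ ≤ ENNReal.ofReal (16 * M) *
          ∫⁻ x in E ∩ N ⁻¹' s.om, ENNReal.ofReal (wt 8 (s.u x)) := by
        refine mul_le_mul_right ?_ _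
        refine lintegral_mono_set ?_
        intro x hx
        exact ⟨hx.1.1, up_sub s hx.1.2⟩
    _ = ENNReal.ofReal (16 * M) * ENNReal.ofReal ((2 : ℝ) ^ s.k * dn E N s) := by
        rw [← hdn, ofReal_integral_eq_lintegral_ofReal i8.integrableOn
          (ae_of_all _ fun x => (wt_pos _ _).le)]
    _ ≤ ENNReal.ofReal (16 * M) * ENNReal.ofReal ((2 : ℝ) ^ s.k * μ) := by
        gcongr
    _ = ENNReal.ofReal (16 * μ) * ENNReal.ofReal
          (∫ y in dy p.1 p.2, (2 : ℝ) ^ (s.k - p.1) * wt 4 (s.u y)) := by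
        rw [← ENNReal.ofReal_mul (by positivity), mul_comm (ENNReal.ofReal (16 * μ)),
          ← ENNReal.ofReal_mul (setIntegral_nonneg (measurableSet_dy _ _)
            fun y _ => mul_nonneg (two_zpow_pos _).le (wt_pos _ _).le)]
        congr 1
        rw [integral_const_mul, hM, sub_eq_add_neg, zpow_add₀ (by norm_num)]
        ring
    _ = _ := by
        congr 1
        exact ofReal_integral_eq_lintegral_ofReal (i4.const_mul _)
          (ae_of_all _ fun x => mul_nonneg (two_zpow_pos _).le (wt_pos _ _).le)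

/-- **Step D**: the sum of the small tiles at a point -/
theorem stepD {T : Finset Tile} {K L : ℤ} (hI : ∀ s ∈ T, s.I ⊆ dy K L)
    (hinj : ∀ s ∈ T, ∀ t ∈ T, s.k = t.k → s.l = t.l → s = t) (k : ℤ) (y : ℝ) :
    ∑ s ∈ T.filter (fun s => s.k ≤ k + 1), (2 : ℝ) ^ (s.k - k) * wt 4 (s.u y) ≤
      144 * (∑' z, gs z) * wt 2 (Tile.u ⟨K, L, 0⟩ y) := by
  classical
  set U : Tile := ⟨K, L, 0⟩ with hU
  -- one factor
  have f1 : ∀ s ∈ T, wt 2 (s.u y) ≤ 9 * wt 2 (U.u y) := by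
    intro s hs
    have hIs := hI s hs
    have hks : s.k ≤ K := le_of_dy_sub hIs
    set a : ℝ := (2 : ℝ) ^ s.k * s.l with ha
    have h1 : 0 ≤ U.u a ∧ U.u a < 1 := mem_I.1 (hIs (left_mem_I s))
    have h2 : U.u y - U.u a = (2 : ℝ) ^ (s.k - K) * s.u y := by
      rw [u_eq U y, u_eq U a, u_eq s y, sub_eq_add_neg s.k K, zpow_add₀ (by norm_num)]
      have e := two_zpow_mul_neg s.k
      simp only [hU]
      have : (2 : ℝ) ^ s.k * (2 : ℝ) ^ (-K) * ((2 : ℝ) ^ (-s.k) * (y - a)) =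
        ((2 : ℝ) ^ s.k * (2 : ℝ) ^ (-s.k)) * ((2 : ℝ) ^ (-K) * (y - a)) := by ring
      rw [this, e]
      ring
    have h3 : (2 : ℝ) ^ (s.k - K) ≤ 1 := zpow_le_one_of_nonpos₀ (by norm_num) (by omega)
    have h4 : |U.u y| ≤ |s.u y| + 1 := by
      have e1 : U.u y = U.u a + (2 : ℝ) ^ (s.k - K) * s.u y := by linarith
      rw [e1]
      refine (abs_add_le _ _).trans ?_
      rw [abs_mul, abs_of_pos (two_zpow_pos _), abs_of_nonneg h1.1]
      have := mul_le_mul_of_nonneg_right h3 (abs_nonneg (s.u y))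
      linarith [h1.2]
    have key : 1 + |U.u y| ≤ 3 * (1 + |s.u y|) := by linarith [abs_nonneg (s.u y)]
    unfold wt
    rw [← div_eq_mul_inv, inv_eq_one_div, div_le_div_iff₀ (by positivity) (by positivity), one_mul]
    have := pow_le_pow_left₀ (by positivity) key 2
    refine this.trans (le_of_eq ?_)
    ring
  -- the other factor
  have f2 : ∀ s ∈ T.filter (fun s => s.k ≤ k + 1), (2 : ℝ) ^ (s.k - k) * wt 2 (s.u y) ≤
      8 * (1 / 2) ^ (k + 1 - s.k).toNat * ((1 + |((fl s.k y - s.l : ℤ) : ℝ)|) ^ 2)⁻¹ := by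
    intro s hs
    have hk := (Finset.mem_filter.1 hs).2
    have e1 : (2 : ℝ) ^ (s.k - k) = 2 * (1 / 2) ^ (k + 1 - s.k).toNat := by
      rw [one_div, inv_pow, ← zpow_natCast, ← zpow_neg, ← zpow_one_add₀ (by norm_num)]
      congr 1
      omega
    have e2 : wt 2 (s.u y) ≤ 4 * ((1 + |((fl s.k y - s.l : ℤ) : ℝ)|) ^ 2)⁻¹ := by
      have h1 := Int.floor_le ((2 : ℝ) ^ (-s.k) * y)
      have h2 := Int.lt_floor_add_one ((2 : ℝ) ^ (-s.k) * y)
      have h3 : |((fl s.k y - s.l : ℤ) : ℝ)| ≤ |s.u y| + 1 := by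
        have e : ((fl s.k y - s.l : ℤ) : ℝ) = s.u y + ((fl s.k y : ℝ) - (2 : ℝ) ^ (-s.k) * y) := by
          unfold Tile.u; push_cast; ring
        rw [e]
        refine (abs_add_le _ _).trans ?_
        have : |(fl s.k y : ℝ) - (2 : ℝ) ^ (-s.k) * y| ≤ 1 := by
          unfold fl
          rw [abs_le]
          constructor <;> linarith
        linarith
      have key : 1 + |((fl s.k y - s.l : ℤ) : ℝ)| ≤ 2 * (1 + |s.u y|) := by
        linarith [abs_nonneg (s.u y)]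
      unfold wt
      rw [← div_eq_mul_inv, inv_eq_one_div, div_le_div_iff₀ (by positivity) (by positivity),
        one_mul]
      have := pow_le_pow_left₀ (by positivity) key 2
      refine this.trans (le_of_eq ?_)
      ring
    rw [e1]
    have := mul_le_mul_of_nonneg_left e2 (show 0 ≤ 2 * (1 / 2 : ℝ) ^ (k + 1 - s.k).toNat by
      positivity)
    refine this.trans (le_of_eq ?_)
    ring
  -- the sum of the other factor
  set F := T.filter (fun s => s.k ≤ k + 1) with hF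
  have f3 : ∑ s ∈ F, (1 / 2 : ℝ) ^ (k + 1 - s.k).toNat *
      ((1 + |((fl s.k y - s.l : ℤ) : ℝ)|) ^ 2)⁻¹ ≤ 2 * ∑' z, gs z := by
    rw [← Finset.sum_filter_add_sum_filter_not F (fun s => s.l ≤ fl s.k y)]
    have g1 : ∑ s ∈ F.filter (fun s => s.l ≤ fl s.k y), (1 / 2 : ℝ) ^ (k + 1 - s.k).toNat *
        ((1 + |((fl s.k y - s.l : ℤ) : ℝ)|) ^ 2)⁻¹ ≤ ∑' z, gs z := by
      refine le_trans (le_of_eq ?_) (sum_gs_le (F.filter (fun s => s.l ≤ fl s.k y))
        (fun s => ((k + 1 - s.k).toNat, (fl s.k y - s.l).toNat)) ?_)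
      · refine Finset.sum_congr rfl fun s hs => ?_
        have h := (Finset.mem_filter.1 hs).2
        have e : |((fl s.k y - s.l : ℤ) : ℝ)| = (((fl s.k y - s.l).toNat : ℕ) : ℝ) := by
          have e1 : (((fl s.k y - s.l).toNat : ℕ) : ℤ) = fl s.k y - s.l :=
            Int.toNat_of_nonneg (by omega)
          have e2 : (((fl s.k y - s.l).toNat : ℕ) : ℝ) = ((fl s.k y - s.l : ℤ) : ℝ) := by
            exact_mod_cast e1
          rw [e2]
          apply abs_of_nonneg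
          exact_mod_cast (by omega : (0 : ℤ) ≤ fl s.k y - s.l)
        rw [gs, e]
      · intro s hs t ht hst
        simp only [Prod.mk.injEq] at hst
        have hs1 := Finset.mem_filter.1 (Finset.mem_coe.1 hs)
        have ht1 := Finset.mem_filter.1 (Finset.mem_coe.1 ht)
        have hs2 := Finset.mem_filter.1 hs1.1
        have ht2 := Finset.mem_filter.1 ht1.1
        have hk : s.k = t.k := by omega
        have h4 := hst.2
        have hs3 := hs1.2
        have ht3 := ht1.2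
        rw [hk] at h4 hs3
        exact hinj s hs2.1 t ht2.1 hk (by omega)
    have g2 : ∑ s ∈ F.filter (fun s => ¬ s.l ≤ fl s.k y), (1 / 2 : ℝ) ^ (k + 1 - s.k).toNat *
        ((1 + |((fl s.k y - s.l : ℤ) : ℝ)|) ^ 2)⁻¹ ≤ ∑' z, gs z := by
      refine le_trans (le_of_eq ?_) (sum_gs_le (F.filter (fun s => ¬ s.l ≤ fl s.k y))
        (fun s => ((k + 1 - s.k).toNat, (s.l - fl s.k y).toNat)) ?_)
      · refine Finset.sum_congr rfl fun s hs => ?_
        have h := (Finset.mem_filter.1 hs).2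
        have e : |((fl s.k y - s.l : ℤ) : ℝ)| = (((s.l - fl s.k y).toNat : ℕ) : ℝ) := by
          have e1 : (((s.l - fl s.k y).toNat : ℕ) : ℤ) = s.l - fl s.k y :=
            Int.toNat_of_nonneg (by omega)
          have e2 : (((s.l - fl s.k y).toNat : ℕ) : ℝ) = ((s.l - fl s.k y : ℤ) : ℝ) := by
            exact_mod_cast e1
          rw [e2, ← abs_neg]
          have e3 : -((fl s.k y - s.l : ℤ) : ℝ) = ((s.l - fl s.k y : ℤ) : ℝ) := by
            push_cast; ring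
          rw [e3]
          apply abs_of_nonneg
          exact_mod_cast (by omega : (0 : ℤ) ≤ s.l - fl s.k y)
        rw [gs, e]
      · intro s hs t ht hst
        simp only [Prod.mk.injEq] at hst
        have hs1 := Finset.mem_filter.1 (Finset.mem_coe.1 hs)
        have ht1 := Finset.mem_filter.1 (Finset.mem_coe.1 ht)
        have hs2 := Finset.mem_filter.1 hs1.1
        have ht2 := Finset.mem_filter.1 ht1.1
        have hk : s.k = t.k := by omega
        have h4 := hst.2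
        have hs3 := hs1.2
        have ht3 := ht1.2
        rw [hk] at h4 hs3
        exact hinj s hs2.1 t ht2.1 hk (by omega)
    linarith
  have hw0 := (wt_pos 2 (U.u y)).le
  calc ∑ s ∈ F, (2 : ℝ) ^ (s.k - k) * wt 4 (s.u y)
      ≤ ∑ s ∈ F, (9 * wt 2 (U.u y)) * (8 * (1 / 2) ^ (k + 1 - s.k).toNat *
          ((1 + |((fl s.k y - s.l : ℤ) : ℝ)|) ^ 2)⁻¹) := by
        refine Finset.sum_le_sum fun s hs => ?_
        have e : wt 4 (s.u y) = wt 2 (s.u y) * wt 2 (s.u y) := wt_mul 2 2 _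
        rw [e]
        have h1 := f1 s (Finset.mem_filter.1 hs).1
        have h2 := f2 s hs
        have h3 := (wt_pos 2 (s.u y)).le
        calc (2 : ℝ) ^ (s.k - k) * (wt 2 (s.u y) * wt 2 (s.u y))
            = wt 2 (s.u y) * ((2 : ℝ) ^ (s.k - k) * wt 2 (s.u y)) := by ring
          _ ≤ (9 * wt 2 (U.u y)) * (8 * (1 / 2) ^ (k + 1 - s.k).toNat *
              ((1 + |((fl s.k y - s.l : ℤ) : ℝ)|) ^ 2)⁻¹) := by
              refine mul_le_mul h1 h2 ?_ (by positivity)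
              exact mul_nonneg (two_zpow_pos _).le h3
    _ = 72 * wt 2 (U.u y) * ∑ s ∈ F, (1 / 2 : ℝ) ^ (k + 1 - s.k).toNat *
          ((1 + |((fl s.k y - s.l : ℤ) : ℝ)|) ^ 2)⁻¹ := by
        rw [Finset.mul_sum]
        refine Finset.sum_congr rfl fun s _ => ?_
        ring
    _ ≤ 72 * wt 2 (U.u y) * (2 * ∑' z, gs z) := by
        gcongr
    _ = _ := by ring

theorem sum_lint {T : Finset Tile} (hT : T.Nonempty) {K L : ℤ} (hI : ∀ s ∈ T, s.I ⊆ dy K L)
    (hinj : ∀ s ∈ T, ∀ t ∈ T, s.k = t.k → s.l = t.l → s = t) {E : Set ℝ} (mE : MeasurableSet E)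
    {N : ℝ → ℝ} (mN : Measurable N) {μ : ℝ} (hμ0 : 0 ≤ μ) (hμ : ∀ s ∈ T, dn E N s ≤ μ) :
    ∑ s ∈ T, ∫⁻ x in E ∩ N ⁻¹' s.up ∩ Sm T s, ENNReal.ofReal (wt 20 (s.u x)) ≤
      ENNReal.ofReal (9216 * (∑' z, gs z) * μ * (2 : ℝ) ^ K) := by
  classical
  set G0 : ℝ := ∑' z, gs z with hG0
  have hG00 : 0 ≤ G0 := tsum_gs_nonneg
  set U : Tile := ⟨K, L, 0⟩ with hU
  -- every tile
  have h1 : ∀ s ∈ T, ∫⁻ x in E ∩ N ⁻¹' s.up ∩ Sm T s, ENNReal.ofReal (wt 20 (s.u x)) ≤
      ∑' p : JJ T, if s.k ≤ p.1.1 + 1 then ENNReal.ofReal (16 * μ) *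
        ∫⁻ y in dy p.1.1 p.1.2, ENNReal.ofReal ((2 : ℝ) ^ (s.k - p.1.1) * wt 4 (s.u y)) else 0 := by
    intro s hs
    have hsub : E ∩ N ⁻¹' s.up ∩ Sm T s ⊆
        ⋃ p : JJ T, if s.k ≤ p.1.1 + 1 then E ∩ N ⁻¹' s.up ∩ dy p.1.1 p.1.2 else ∅ := by
      rintro x ⟨hx, p, hp, hxp, hk⟩
      refine mem_iUnion.2 ⟨⟨p, hp⟩, ?_⟩
      rw [if_pos hk]
      exact ⟨hx, hxp⟩
    refine (lintegral_mono_set hsub).trans ((lintegral_iUnion_le _ _).trans ?_)
    refine ENNReal.tsum_le_tsum fun p => ?_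
    split_ifs with hk
    · exact stepB hs mE mN (hμ s hs) p.2 hk
    · simp
  refine (Finset.sum_le_sum h1).trans ?_
  rw [← Summable.tsum_finsetSum fun s _ => ENNReal.summable]
  -- every interval
  have h2 : ∀ p : JJ T, (∑ s ∈ T, if s.k ≤ p.1.1 + 1 then ENNReal.ofReal (16 * μ) *
      ∫⁻ y in dy p.1.1 p.1.2, ENNReal.ofReal ((2 : ℝ) ^ (s.k - p.1.1) * wt 4 (s.u y)) else 0) ≤
      ENNReal.ofReal (16 * μ) *
        ∫⁻ y in dy p.1.1 p.1.2, ENNReal.ofReal (144 * G0 * wt 2 (U.u y)) := by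
    intro p
    rw [← Finset.sum_filter, ← Finset.mul_sum, ← lintegral_finsetSum]
    · refine mul_le_mul_right ?_ _
      refine lintegral_mono fun y => ?_
      rw [← ENNReal.ofReal_sum_of_nonneg fun s _ => mul_nonneg (two_zpow_pos _).le (wt_pos _ _).le]
      exact ENNReal.ofReal_le_ofReal (stepD hI hinj p.1.1 y)
    · intro s _
      exact ENNReal.measurable_ofReal.comp
        (measurable_const.mul ((wt_cont 4).comp (u_cont s)).measurable)
  refine (ENNReal.tsum_le_tsum h2).trans ?_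
  rw [ENNReal.tsum_mul_left]
  have h3 : ∑' p : JJ T, ∫⁻ y in dy p.1.1 p.1.2, ENNReal.ofReal (144 * G0 * wt 2 (U.u y)) =
      ∫⁻ y, ENNReal.ofReal (144 * G0 * wt 2 (U.u y)) := by
    rw [← lintegral_iUnion]
    · have e : (⋃ p : JJ T, dy p.1.1 p.1.2) = univ := by
        have := J_cover hT
        rw [biUnion_eq_iUnion] at this
        exact this
      rw [e, setLIntegral_univ]
    · intro p
      exact measurableSet_dy _ _
    · intro p q hpq
      exact J_disj hT p.2 q.2 fun h => hpq (Subtype.ext h)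
  rw [h3]
  have h4 : ∫⁻ y, ENNReal.ofReal (144 * G0 * wt 2 (U.u y)) =
      ENNReal.ofReal (∫ y, 144 * G0 * wt 2 (U.u y)) := by
    rw [ofReal_integral_eq_lintegral_ofReal ((integrable_wt_u (by norm_num) U).const_mul _)
      (ae_of_all _ fun y => mul_nonneg (by positivity) (wt_pos _ _).le)]
  rw [h4, ← ENNReal.ofReal_mul (by positivity), integral_const_mul]
  refine ENNReal.ofReal_le_ofReal ?_
  have h5 := integral_wt_u_le (n := 2) (by norm_num) U
  have h6 : 16 * μ * (144 * G0 * ∫ y, wt 2 (U.u y)) ≤ 16 * μ * (144 * G0 * (4 * (2 : ℝ) ^ U.k)) := by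
    gcongr
  refine h6.trans (le_of_eq ?_)
  rw [hU]
  ring

/-- **SMALL** -/
theorem small : ∃ C : ℝ, 0 < C ∧ ∀ (A e μ : ℝ) (φ : ℝ → ℂ) (c : Tile → ℝ) (T : Finset Tile)
    (K L : ℤ) (ξ : ℝ) (E : Set ℝ) (N : ℝ → ℝ), 0 ≤ A → 0 ≤ e → 0 ≤ μ → Continuous φ →
    (∀ x, ‖φ x‖ ≤ A * wt 20 x) → T.Nonempty → (∀ s ∈ T, s.I ⊆ dy K L ∧ ξ ∈ s.om) →
    (∀ s ∈ T, 0 ≤ c s ∧ c s ≤ e * Real.sqrt ((2 : ℝ) ^ s.k)) → MeasurableSet E → Measurable N →
    (∀ s ∈ T, dn E N s ≤ μ) →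
      ∑ s ∈ T, c s * ∫ x in E ∩ N ⁻¹' s.up ∩ Sm T s, ‖fx φ s x‖ ≤
        C * A * e * μ * (2 : ℝ) ^ K := by
  refine ⟨9216 * (∑' z, gs z) + 1, by have := tsum_gs_nonneg; positivity, ?_⟩
  intro A e μ φ c T K L ξ E N hA he hμ0 hφc hφ hT hTI hc mE mN hμ
  have hinj : ∀ s ∈ T, ∀ t ∈ T, s.k = t.k → s.l = t.l → s = t := by
    intro s hs t ht h1 h2
    exact Tile.ext h1 h2 (m_eq h1 (hTI s hs).2 (hTI t ht).2)
  have h1 := sum_lint hT (fun s hs => (hTI s hs).1) hinj mE mN hμ0 hμ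
  have hG0 := tsum_gs_nonneg
  have hi : ∀ s : Tile, Integrable fun x => wt 20 (s.u x) := fun s =>
    integrable_wt_u (by norm_num) s
  have hms : ∀ s : Tile, MeasurableSet (E ∩ N ⁻¹' s.up ∩ Sm T s) := fun s =>
    (mE.inter (mN (measurableSet_dy _ _))).inter (measurableSet_Sm T s)
  have h2 : ∑ s ∈ T, ∫ x in E ∩ N ⁻¹' s.up ∩ Sm T s, wt 20 (s.u x) ≤
      9216 * (∑' z, gs z) * μ * (2 : ℝ) ^ K := by
    have e1 : ENNReal.ofReal (∑ s ∈ T, ∫ x in E ∩ N ⁻¹' s.up ∩ Sm T s, wt 20 (s.u x)) =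
        ∑ s ∈ T, ∫⁻ x in E ∩ N ⁻¹' s.up ∩ Sm T s, ENNReal.ofReal (wt 20 (s.u x)) := by
      rw [ENNReal.ofReal_sum_of_nonneg fun s _ =>
        setIntegral_nonneg (hms s) fun x _ => (wt_pos _ _).le]
      refine Finset.sum_congr rfl fun s _ => ?_
      exact ofReal_integral_eq_lintegral_ofReal (hi s).integrableOn
        (ae_of_all _ fun x => (wt_pos _ _).le)
    rw [← e1, ENNReal.ofReal_le_ofReal_iff] at h1
    · exact h1
    · have := two_zpow_pos K
      positivity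
  have h3 : ∀ s ∈ T, c s * ∫ x in E ∩ N ⁻¹' s.up ∩ Sm T s, ‖fx φ s x‖ ≤
      A * e * ∫ x in E ∩ N ⁻¹' s.up ∩ Sm T s, wt 20 (s.u x) := by
    intro s hs
    have hr : 0 < Real.sqrt ((2 : ℝ) ^ s.k) := Real.sqrt_pos.2 (two_zpow_pos _)
    have h4 : ∫ x in E ∩ N ⁻¹' s.up ∩ Sm T s, ‖fx φ s x‖ ≤
        ∫ x in E ∩ N ⁻¹' s.up ∩ Sm T s,
          (Real.sqrt ((2 : ℝ) ^ s.k))⁻¹ * A * wt 20 (s.u x) := by
      refine integral_mono_of_nonneg (ae_of_all _ fun x => norm_nonneg _)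
        ((hi s).integrableOn.const_mul _) (ae_of_all _ fun x => ?_)
      dsimp only
      unfold fx
      rw [norm_mul, norm_mul, Complex.norm_real, Real.norm_of_nonneg (by positivity)]
      have e2 : ‖e1 ((2 : ℝ) ^ (-s.k) * s.m * x)‖ = 1 := by
        unfold e1
        rw [show (2 * Real.pi * Complex.I * (((2 : ℝ) ^ (-s.k) * s.m * x : ℝ) : ℂ)) =
          ((2 * Real.pi * ((2 : ℝ) ^ (-s.k) * s.m * x) : ℝ) : ℂ) * Complex.I by push_cast; ring]
        exact Complex.norm_exp_ofReal_mul_I _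
      rw [e2, mul_one, mul_assoc]
      exact mul_le_mul_of_nonneg_left (hφ _) (by positivity)
    rw [integral_const_mul] at h4
    have h0 : 0 ≤ ∫ x in E ∩ N ⁻¹' s.up ∩ Sm T s, wt 20 (s.u x) :=
      setIntegral_nonneg (hms s) fun x _ => (wt_pos _ _).le
    calc c s * ∫ x in E ∩ N ⁻¹' s.up ∩ Sm T s, ‖fx φ s x‖
        ≤ (e * Real.sqrt ((2 : ℝ) ^ s.k)) * ((Real.sqrt ((2 : ℝ) ^ s.k))⁻¹ * A *
            ∫ x in E ∩ N ⁻¹' s.up ∩ Sm T s, wt 20 (s.u x)) := by
          refine mul_le_mul (hc s hs).2 h4 ?_ (by positivity)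
          exact setIntegral_nonneg (hms s) fun x _ => norm_nonneg _
      _ = A * e * ∫ x in E ∩ N ⁻¹' s.up ∩ Sm T s, wt 20 (s.u x) := by
          field_simp
  refine (Finset.sum_le_sum h3).trans ?_
  rw [← Finset.mul_sum]
  refine (mul_le_mul_of_nonneg_left h2 (by positivity)).trans ?_
  have h5 : 0 ≤ A * e * μ * (2 : ℝ) ^ K := by
    have := two_zpow_pos K
    positivity
  nlinarith

end PJ_

end Pool.Agent.CAR
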