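import Pool.Agent.CAR.Targets
import Pool.Agent.CAR.SMALL

set_option autoImplicit false

/-!
# The small tiles of a tree (targets SMA, SMB)
-/

namespace Pool.Agent.CAR

open MeasureTheory Set
open scoped ENNReal NNReal

namespace SMB_

theorem meas_R {κ : ℝ → ℤ} (hκ : Measurable κ) (j : ℤ) : MeasurableSet {x | j ≤ κ x + 1} := by
  have e : {x | j ≤ κ x + 1} = κ ⁻¹' {n | j ≤ n + 1} := rfl
  rw [e]
  exact hκ (MeasurableSet.of_discrete)

theorem pt {T : Finset Tile} {κ : ℝ → ℤ} (hS : Stop T κ) {s : Tile} (hs : s ∈ T) {x : ℝ}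
    (hx : s.k ≤ κ x + 1) : wt 10 (s.u x) ≤ (2 : ℝ) ^ (s.k - κ x) * wt 4 (s.u x) := by
  have h1 : wt 1 (s.u x) ≤ (2 : ℝ) ^ (s.k - κ x) := by
    rcases lt_or_eq_of_le hx with h | h
    · have hf := hS.far x s hs (by omega)
      have e : (2 : ℝ) ^ (s.k - κ x) = ((2 : ℝ) ^ (κ x - s.k))⁻¹ := by
        rw [← zpow_neg]; congr 1; ring
      rw [e]
      unfold wt
      rw [pow_one]
      exact inv_anti₀ (two_zpow_pos _) (by linarith)
    · refine (wt_le_one 1 _).trans ?_
      apply one_le_zpow₀ (by norm_num)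
      omega
  have h2 : wt 10 (s.u x) ≤ wt 1 (s.u x) * wt 4 (s.u x) := by
    rw [← wt_mul]
    exact wt_anti (by norm_num) _
  exact h2.trans (mul_le_mul_of_nonneg_right h1 (wt_nonneg _ _))

end SMB_

open SMB_ in
/-- **SMB** -/
theorem p_SMB : T_SMB := by
  classical
  refine ⟨576 * (∑' z, gs z) + 1, by have := tsum_gs_nonneg; positivity, ?_⟩
  intro T K Λ ξ κ hT hS
  have hG0 := tsum_gs_nonneg
  have hinj : ∀ s ∈ T, ∀ t ∈ T, s.k = t.k → s.l = t.l → s = t := by
    intro s hs t ht h1 h2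
    exact Tile.ext h1 h2 (m_eq h1 (hT s hs).2 (hT t ht).2)
  set U : Tile := ⟨K, Λ, 0⟩ with hU
  have hi : ∀ s : Tile, Integrable fun x => wt 10 (s.u x) := fun s =>
    integrable_wt_u (by norm_num) s
  have e1 : ∑ s ∈ T, ∫ x in {x | s.k ≤ κ x + 1}, wt 10 (s.u x) =
      ∫ x, ∑ s ∈ T, ({x | s.k ≤ κ x + 1} : Set ℝ).indicator (fun x => wt 10 (s.u x)) x := by
    rw [integral_finsetSum]
    · refine Finset.sum_congr rfl fun s _ => ?_
      rw [integral_indicator (meas_R hS.meas s.k)]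
    · intro s _
      exact (hi s).indicator (meas_R hS.meas s.k)
  rw [e1]
  have h1 : ∫ x, ∑ s ∈ T, ({x | s.k ≤ κ x + 1} : Set ℝ).indicator
      (fun x => wt 10 (s.u x)) x ≤ ∫ x, 144 * (∑' z, gs z) * wt 2 (U.u x) := by
    refine integral_mono ?_ ((integrable_wt_u (by norm_num) U).const_mul _) fun x => ?_
    · exact integrable_finsetSum _ fun s _ => (hi s).indicator (meas_R hS.meas s.k)
    · refine le_trans ?_ (PJ_.stepD (fun s hs => (hT s hs).1) hinj (κ x) x)
      rw [Finset.sum_filter]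
      refine Finset.sum_le_sum fun s hs => ?_
      by_cases h : s.k ≤ κ x + 1
      · rw [indicator_of_mem (show x ∈ {x | s.k ≤ κ x + 1} from h), if_pos h]
        exact pt hS hs h
      · rw [indicator_of_notMem (show x ∉ {x | s.k ≤ κ x + 1} from h), if_neg h]
  refine h1.trans ?_
  rw [integral_const_mul]
  have h2 := integral_wt_u_le (n := 2) (by norm_num) U
  have h3 : 144 * (∑' z, gs z) * ∫ x, wt 2 (U.u x) ≤
      144 * (∑' z, gs z) * (4 * (2 : ℝ) ^ U.k) := by gcongr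
  refine h3.trans ?_
  have := two_zpow_pos K
  rw [hU]
  dsimp only
  nlinarith

end Pool.Agent.CAR
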