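import Pool.Agent.CAR.Targets
import Pool.Agent.CAR.P_HL
import Pool.Agent.CAR.P_STOP
import Pool.Agent.CAR.P_P2
import Pool.Agent.CAR.P_AVG
import Pool.Agent.CAR.P_NEAR
import Pool.Agent.CAR.P_SMA
import Pool.Agent.CAR.P_SMB

set_option autoImplicit false

/-!
# CAR, target PLU: (+)-trees
-/

namespace Pool.Agent.CAR

namespace PLU_

open MeasureTheory Set ComplexConjugate
open scoped ENNReal NNReal

theorem single {c : Tile → ℝ} {T : Finset Tile} {eps : ℝ} (heps : 0 ≤ eps) (hE : En c T eps)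
    {s : Tile} (hs : s ∈ T) : c s ≤ eps * √((2 : ℝ) ^ s.k) := by
  obtain ⟨ξ, hξ⟩ : s.up.Nonempty := dy_nonempty _ _
  have h := hE {s} s.k s.l ξ (by simpa using hs) (by
    intro t ht
    rw [Finset.mem_singleton] at ht
    subst ht
    exact ⟨subset_rfl, hξ⟩)
  rw [Finset.sum_singleton] at h
  have h2 : (eps * √((2 : ℝ) ^ s.k)) ^ 2 = eps ^ 2 * (2 : ℝ) ^ s.k := by
    rw [mul_pow, Real.sq_sqrt (two_zpow_pos _).le]
  exact le_of_sq_le_sq (by rw [h2]; exact h) (by positivity)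

open Classical in
/-- pointwise bound of the large part -/
theorem large_pt {C : ℝ≥0} {φ : ℝ → ℂ} {T : Finset Tile} {ξ : ℝ}
    (hT : ∀ s ∈ T, ξ ∈ s.up) {w : Tile → ℂ} {eps : ℝ}
    (hC : ∀ (a : ℤ) (x z : ℝ), |z - x| ≤ (2 : ℝ) ^ a →
      ‖∑ s ∈ T.filter (fun s => a ≤ s.k), w s * fx φ s x‖ₑ ≤
      C * (ENNReal.ofReal eps + MX (fun y => ∑ s ∈ T, w s * fx φ s y) z))
    {k0 : ℤ} {n x z : ℝ} (hz : |z - x| ≤ (2 : ℝ) ^ k0)
    (hne : ∃ s ∈ T, k0 + 2 ≤ s.k ∧ n ∈ s.up) :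
    ‖∑ s ∈ T, if k0 + 2 ≤ s.k ∧ n ∈ s.up then w s * fx φ s x else 0‖ₑ ≤
      2 * C * (ENNReal.ofReal eps + MX (fun y => ∑ s ∈ T, w s * fx φ s y) z) := by
  have hF : (T.filter (fun s => k0 + 2 ≤ s.k ∧ n ∈ s.up)).Nonempty := by
    obtain ⟨s, hs, h1⟩ := hne
    exact ⟨s, Finset.mem_filter.2 ⟨hs, h1⟩⟩
  obtain ⟨s', hs', hmax⟩ := Finset.exists_max_image _ (fun s => s.k) hF
  rw [Finset.mem_filter] at hs'
  have hkey : ∑ s ∈ T, (if k0 + 2 ≤ s.k ∧ n ∈ s.up then w s * fx φ s x else 0) =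
      (∑ s ∈ T.filter (fun s => k0 + 2 ≤ s.k), w s * fx φ s x) -
        ∑ s ∈ T.filter (fun s => s'.k + 1 ≤ s.k), w s * fx φ s x := by
    rw [Finset.sum_filter, Finset.sum_filter, ← Finset.sum_sub_distrib]
    refine Finset.sum_congr rfl fun s hs => ?_
    by_cases h1 : s'.k + 1 ≤ s.k
    · have h2 : ¬ (k0 + 2 ≤ s.k ∧ n ∈ s.up) := by
        intro h
        have := hmax s (Finset.mem_filter.2 ⟨hs, h⟩)
        omega
      have h3 : k0 + 2 ≤ s.k := by omega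
      rw [if_neg h2, if_pos h1, if_pos h3, sub_self]
    · have h2 : n ∈ s.up := up_sub_up (by omega) (hT s hs) (hT s' hs'.1) hs'.2.2
      rw [if_neg h1, sub_zero]
      by_cases h3 : k0 + 2 ≤ s.k
      · rw [if_pos ⟨h3, h2⟩, if_pos h3]
      · rw [if_neg (fun h => h3 h.1), if_neg h3]
  rw [hkey]
  have h1 := hC (k0 + 2) x z (hz.trans (two_zpow_le (by omega)))
  have h2 := hC (s'.k + 1) x z (hz.trans (two_zpow_le (by omega)))
  calc ‖(∑ s ∈ T.filter (fun s => k0 + 2 ≤ s.k), w s * fx φ s x) -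
        ∑ s ∈ T.filter (fun s => s'.k + 1 ≤ s.k), w s * fx φ s x‖ₑ
      ≤ ‖∑ s ∈ T.filter (fun s => k0 + 2 ≤ s.k), w s * fx φ s x‖ₑ +
        ‖∑ s ∈ T.filter (fun s => s'.k + 1 ≤ s.k), w s * fx φ s x‖ₑ := enorm_sub_le
    _ ≤ _ := add_le_add h1 h2
    _ = _ := by ring

/-- the set where the large part lives -/
def Gs (E : Set ℝ) (N : ℝ → ℝ) (κ : ℝ → ℤ) (T : Finset Tile) : Set ℝ :=
  {x | x ∈ E ∧ ∃ s ∈ T, κ x + 2 ≤ s.k ∧ N x ∈ s.up}

theorem measurableSet_up (s : Tile) : MeasurableSet s.up := measurableSet_dy _ _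

theorem measurableSet_one {N : ℝ → ℝ} {κ : ℝ → ℤ} (hN : Measurable N) (hκ : Measurable κ)
    (s : Tile) : MeasurableSet {x | κ x + 2 ≤ s.k ∧ N x ∈ s.up} := by
  have h1 : MeasurableSet {x | κ x + 2 ≤ s.k} :=
    measurableSet_le (hκ.add_const 2) measurable_const
  exact h1.inter (hN (measurableSet_up s))

theorem measurableSet_Gs {E : Set ℝ} {N : ℝ → ℝ} {κ : ℝ → ℤ} (hE : MeasurableSet E)
    (hN : Measurable N) (hκ : Measurable κ) (T : Finset Tile) :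
    MeasurableSet (Gs E N κ T) := by
  have : Gs E N κ T = E ∩ ⋃ s ∈ T, {x | κ x + 2 ≤ s.k ∧ N x ∈ s.up} := by
    ext x
    simp only [Gs, mem_ofPred_eq, mem_inter_iff, mem_iUnion, exists_prop]
  rw [this]
  exact hE.inter (Finset.measurableSet_biUnion T fun s _ => measurableSet_one hN hκ s)

theorem mem_Jx (κ : ℝ → ℤ) (x : ℝ) : x ∈ Jx κ x := exists_mem_dy _ _

theorem Jx_dist {κ : ℝ → ℤ} {x y : ℝ} (hy : y ∈ Jx κ x) : |x - y| ≤ (2 : ℝ) ^ (κ x) := by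
  have h1 := mem_Jx κ x
  unfold Jx dy at h1 hy
  rw [mem_Ico] at h1 hy
  rw [abs_le]
  constructor <;> nlinarith [h1.1, h1.2, hy.1, hy.2]

open Classical in
theorem large {A : ℝ} {C : ℝ≥0} {C2 C3 : ℝ} {φ Φ : ℝ → ℂ} {N : ℝ → ℝ} {E : Set ℝ}
    (hW : WPk A φ Φ) (mN : Measurable N) (mE : MeasurableSet E) (hC2 : 0 < C2)
    {T : Finset Tile} {K Λ : ℤ} {ξ eps mu : ℝ} (hT : PTree T K Λ ξ) {κ : ℝ → ℤ}
    (hκ : Stop T κ) (heps : 0 ≤ eps) (hmu : 0 ≤ mu) (hC3 : 0 < C3)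
    {w : Tile → ℂ}
    (hC : ∀ (a : ℤ) (x z : ℝ), |z - x| ≤ (2 : ℝ) ^ a →
      ‖∑ s ∈ T.filter (fun s => a ≤ s.k), w s * fx φ s x‖ₑ ≤
      C * (ENNReal.ofReal eps + MX (fun y => ∑ s ∈ T, w s * fx φ s y) z))
    (hSQ : ∫⁻ y, ‖∑ s ∈ T, w s * fx φ s y‖ₑ ^ 2 ≤ ENNReal.ofReal (C2 * (eps ^ 2 * 2 ^ K)))
    (hP2 : ∀ x, volume {y | y ∈ E ∧ y ∈ Jx κ x ∧ ∃ s ∈ T, κ x + 2 ≤ s.k ∧ N y ∈ s.om} ≤
      ENNReal.ofReal (C3 * mu) * volume (Jx κ x)) :
    ∫⁻ x in E, ‖∑ s ∈ T, if κ x + 2 ≤ s.k ∧ N x ∈ s.up then w s * fx φ s x else 0‖ₑ ≤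
      ENNReal.ofReal (C3 * mu * (2 * C * ((3 + √(120 * C2)) * (eps * (2 : ℝ) ^ K)))) := by
  set G : ℝ → ℂ := fun y => ∑ s ∈ T, w s * fx φ s y with hG
  have hGc : Continuous G := continuous_finsetSum _ fun s _ =>
    continuous_const.mul (PK.continuous_fx hW s)
  set h : ℝ → ℝ≥0∞ := fun x =>
    ‖∑ s ∈ T, if κ x + 2 ≤ s.k ∧ N x ∈ s.up then w s * fx φ s x else 0‖ₑ with hh
  set H : ℝ → ℝ≥0∞ := fun x => 2 * C * (ENNReal.ofReal eps + MX G x) with hH
  set W : Set ℝ := Icc ((2 : ℝ) ^ K * (Λ - 1)) ((2 : ℝ) ^ K * (Λ + 2)) with hWd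
  have hvW : volume W = ENNReal.ofReal (3 * (2 : ℝ) ^ K) := by
    rw [hWd, Real.volume_Icc]
    congr 1
    ring
  have hmh : Measurable h := by
    refine Measurable.enorm (Finset.measurable_fun_sum _ fun s _ => ?_)
    exact Measurable.ite (measurableSet_one mN hκ.meas s)
      (measurable_const.mul (PK.continuous_fx hW s).measurable) measurable_const
  have hmH : Measurable H := by
    refine Measurable.const_mul ?_ _
    exact measurable_const.add (HL.measurable_MX G)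
  have hTr : Tree T K Λ ξ := fun s hs => ⟨(hT s hs).1, up_sub s (hT s hs).2⟩
  have hGs := measurableSet_Gs mE mN hκ.meas T
  have e1 : ∫⁻ x in E, h x = ∫⁻ x in Gs E N κ T, h x := by
    have : Gs E N κ T = E ∩ Gs E N κ T := by
      ext x
      simp only [Gs, mem_ofPred_eq, mem_inter_iff]
      tauto
    rw [this, inter_comm, ← setLIntegral_indicator hGs]
    refine setLIntegral_congr_fun mE fun x hx => ?_
    by_cases hx2 : x ∈ Gs E N κ T
    · rw [indicator_of_mem hx2]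
    · rw [indicator_of_notMem hx2]
      have h0 : ∑ s ∈ T, (if κ x + 2 ≤ s.k ∧ N x ∈ s.up then w s * fx φ s x else 0) = 0 := by
        refine Finset.sum_eq_zero fun s hs => ?_
        rw [if_neg]
        intro hc
        exact hx2 ⟨hx, s, hs, hc⟩
      simp only [hh]
      rw [h0, enorm_zero]
  rw [e1]
  have e2 := p_AVG κ hκ.const (Gs E N κ T) W (ENNReal.ofReal (C3 * mu)) h H hGs measurableSet_Icc
    hmh hmH (fun x => ?_) (fun x y hy hxy => ?_) (fun x y hy hxy => ?_)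
  · refine e2.trans ?_
    have e3 : ∫⁻ x in W, MX G x ≤ ENNReal.ofReal (√(120 * C2) * (eps * (2 : ℝ) ^ K)) := by
      refine (HL.MX_int hGc.measurable W).trans ?_
      have hK := two_zpow_pos K
      have e4 : (40 * ∫⁻ y, ‖G y‖ₑ ^ 2) ^ (1 / 2 : ℝ) ≤
          ENNReal.ofReal (√(40 * (C2 * (eps ^ 2 * 2 ^ K)))) := by
        rw [Real.sqrt_eq_rpow, ← ENNReal.ofReal_rpow_of_nonneg (by positivity) (by norm_num),
          ENNReal.ofReal_mul (by norm_num : (0 : ℝ) ≤ 40)]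
        refine ENNReal.rpow_le_rpow ?_ (by norm_num)
        rw [show ENNReal.ofReal 40 = 40 by norm_num]
        gcongr
      have e5 : volume W ^ (1 / 2 : ℝ) = ENNReal.ofReal (√(3 * (2 : ℝ) ^ K)) := by
        rw [hvW, Real.sqrt_eq_rpow, ← ENNReal.ofReal_rpow_of_nonneg (by positivity) (by norm_num)]
      rw [e5]
      refine (mul_le_mul_left e4 _).trans ?_
      rw [← ENNReal.ofReal_mul (by positivity)]
      refine ENNReal.ofReal_le_ofReal (le_of_eq ?_)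
      rw [← Real.sqrt_mul (by positivity),
        show 40 * (C2 * (eps ^ 2 * (2 : ℝ) ^ K)) * (3 * (2 : ℝ) ^ K) =
          120 * C2 * (eps * (2 : ℝ) ^ K) ^ 2 by ring, Real.sqrt_mul (by positivity),
        Real.sqrt_sq (by positivity)]
    have e6 : ∫⁻ x in W, H x ≤ ENNReal.ofReal (2 * C * ((3 + √(120 * C2)) * (eps * 2 ^ K))) := by
      have hK := two_zpow_pos K
      have hmS : Measurable (fun x => ENNReal.ofReal eps + MX G x) :=
        measurable_const.add (HL.measurable_MX G)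
      simp only [hH]
      rw [lintegral_const_mul _ hmS, lintegral_add_left measurable_const, setLIntegral_const, hvW]
      have e7 : ENNReal.ofReal eps * ENNReal.ofReal (3 * 2 ^ K) + ∫⁻ x in W, MX G x ≤
          ENNReal.ofReal ((3 + √(120 * C2)) * (eps * 2 ^ K)) := by
        rw [← ENNReal.ofReal_mul heps]
        refine (add_le_add_right e3 _).trans ?_
        rw [← ENNReal.ofReal_add (by positivity) (by positivity)]
        refine ENNReal.ofReal_le_ofReal (le_of_eq ?_)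
        ring
      have e8 : (2 * (C : ℝ≥0∞)) = ENNReal.ofReal (2 * (C : ℝ)) := by
        rw [ENNReal.ofReal_mul (by norm_num), ENNReal.ofReal_coe_nnreal]
        norm_num
      rw [e8, ENNReal.ofReal_mul (p := 2 * (C : ℝ)) (by positivity)]
      gcongr
    rw [ENNReal.ofReal_mul (p := C3 * mu) (by positivity)]
    gcongr
  · refine le_trans (measure_mono ?_) (hP2 x)
    rintro y ⟨⟨hyE, s, hs, h1, h2⟩, hyJ⟩
    exact ⟨hyE, hyJ, s, hs, by rw [← hκ.const x y hyJ]; exact h1, up_sub s h2⟩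
  · refine large_pt (fun s hs => (hT s hs).2) hC ?_ hy.2
    rw [hκ.const x y hxy]
    exact Jx_dist hxy
  · obtain ⟨s, hs, h1, -⟩ := hy.2
    rw [hκ.const x y hxy] at h1
    have h2 : s.k ≤ K := le_of_dy_sub (hT s hs).1
    exact p_NEAR T K Λ ξ κ hTr hκ x (by omega)

end PLU_

open MeasureTheory Set ComplexConjugate
open scoped ENNReal NNReal

theorem p_PLU (hSPL : T_SPL) : T_PLU := by
  classical
  intro A
  obtain ⟨C1, hTR⟩ := p_TRU A
  obtain ⟨C2, hC2, hSQ⟩ := p_SQ A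
  obtain ⟨C3, hC3, hP2⟩ := p_P2
  obtain ⟨C4, hC4, hSMA⟩ := p_SMA A
  obtain ⟨C5, hC5, hSMB⟩ := p_SMB
  refine ⟨C4 * C5 + C3 * (2 * C1 * (3 + √(120 * C2))), by positivity, ?_⟩
  intro φ Φ g b N E hW hD T K Λ ξ eps mu hT heps hmu hEn hMs
  have hK := two_zpow_pos K
  rcases T.eq_empty_or_nonempty with rfl | hne
  · rw [Finset.sum_empty]
    positivity
  obtain ⟨κ, hκ⟩ := p_STOP T hne
  obtain ⟨ε, hε, hle⟩ := hSPL A φ Φ g b N E hW hD T κ hκ.meas
  have hTr : Tree T K Λ ξ := fun s hs => ⟨(hT s hs).1, up_sub s (hT s hs).2⟩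
  have hcc : ∀ s, 0 ≤ cc Φ g s := fun s => norm_nonneg _
  have hsing : ∀ s ∈ T, cc Φ g s ≤ eps * √((2 : ℝ) ^ s.k) := fun s hs =>
    PLU_.single heps hEn hs
  have hw : ∀ s, ‖ε s * ((cc Φ g s : ℝ) : ℂ)‖ = cc Φ g s := by
    intro s
    rw [norm_mul, hε s, one_mul, Complex.norm_real, Real.norm_of_nonneg (hcc s)]
  have hsmall : ∑ s ∈ T, cc Φ g s *
      ∫ x in {x | x ∈ E ∧ N x ∈ s.up ∧ s.k ≤ κ x + 1}, ‖fx φ s x‖ ≤
      C4 * C5 * (eps * mu * 2 ^ K) := by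
    calc ∑ s ∈ T, cc Φ g s * ∫ x in {x | x ∈ E ∧ N x ∈ s.up ∧ s.k ≤ κ x + 1}, ‖fx φ s x‖
        ≤ ∑ s ∈ T, eps * (C4 * mu * ∫ x in {x | s.k ≤ κ x + 1}, wt 10 (s.u x)) := by
          refine Finset.sum_le_sum fun s hs => ?_
          refine le_trans (mul_le_mul_of_nonneg_right (hsing s hs)
            (integral_nonneg fun x => norm_nonneg _)) ?_
          rw [mul_assoc]
          exact mul_le_mul_of_nonneg_left (hSMA φ Φ g b N E hW hD T κ mu hκ hMs hmu s hs) heps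
      _ = eps * (C4 * mu) * ∑ s ∈ T, ∫ x in {x | s.k ≤ κ x + 1}, wt 10 (s.u x) := by
          rw [Finset.mul_sum]
          exact Finset.sum_congr rfl fun s _ => by ring
      _ ≤ eps * (C4 * mu) * (C5 * 2 ^ K) :=
          mul_le_mul_of_nonneg_left (hSMB T K Λ ξ κ hTr hκ) (by positivity)
      _ = _ := by ring
  have hlarge := PLU_.large (A := A) (C := C1) (C2 := C2) (C3 := C3) (E := E) (K := K) (Λ := Λ)
    (eps := eps) (mu := mu) (w := fun s => ε s * ((cc Φ g s : ℝ) : ℂ)) hW hD.mN hD.mE hC2 hT hκ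
    heps hmu hC3
    (hTR φ Φ hW T K Λ ξ hT _ eps heps fun s hs => by rw [hw s]; exact hsing s hs)
    ((hSQ φ Φ hW T K Λ ξ hT _).trans (ENNReal.ofReal_le_ofReal (by
      refine mul_le_mul_of_nonneg_left ?_ hC2.le
      refine le_trans (le_of_eq (Finset.sum_congr rfl fun s _ => by rw [hw s])) ?_
      exact hEn T K Λ ξ subset_rfl hT)))
    (hP2 E N hD.mE hD.mN hD.fE T K Λ ξ mu κ hTr hκ hMs)
  have hfin : ENNReal.ofReal (∑ s ∈ T, cc Φ g s * ‖av φ b N s‖) ≤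
      ENNReal.ofReal ((C4 * C5 + C3 * (2 * C1 * (3 + √(120 * C2)))) * eps * mu * 2 ^ K) := by
    refine hle.trans ((add_le_add (ENNReal.ofReal_le_ofReal hsmall) hlarge).trans ?_)
    rw [← ENNReal.ofReal_add (by positivity) (by positivity)]
    refine ENNReal.ofReal_le_ofReal (le_of_eq ?_)
    ring
  exact (ENNReal.ofReal_le_ofReal_iff (by positivity)).1 hfin

end Pool.Agent.CAR
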