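import Pool.Agent.CAR.Targets

set_option autoImplicit false

/-!
# The Carleson operator on the line: STEP
-/

namespace Pool.Agent.CAR

open MeasureTheory Set ComplexConjugate
open scoped ENNReal NNReal

namespace STEP_

theorem en_mono {c : Tile → ℝ} {S S' : Finset Tile} {eps : ℝ} (h : En c S eps) (hS : S' ⊆ S) :
    En c S' eps := fun T K Λ ξ hT hP => h T K Λ ξ (hT.trans hS) hP

theorem ms_mono {E : Set ℝ} {N : ℝ → ℝ} {S S' : Finset Tile} {mu : ℝ} (h : Ms E N S mu)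
    (hS : S' ⊆ S) : Ms E N S' mu := fun s hs u hu => h s (hS hs) u hu

open Classical in
theorem sum_cover {ι : Type*} (R : Finset Tile) (I : Finset ι) (P : ι → Tile → Prop)
    (f : Tile → ℝ) (hf : ∀ s, 0 ≤ f s) (h : ∀ s ∈ R, ∃ i ∈ I, P i s) :
    ∑ s ∈ R, f s ≤ ∑ i ∈ I, ∑ s ∈ R.filter (P i), f s := by
  simp only [Finset.sum_filter]
  rw [Finset.sum_comm]
  refine Finset.sum_le_sum fun s hs => ?_
  obtain ⟨i, hi, hp⟩ := h s hs
  refine le_trans (le_of_eq ?_) (Finset.single_le_sum (f := fun i => if P i s then f s else 0)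
    (fun j _ => ?_) hi)
  · simp only [if_pos hp]
  · by_cases hj : P j s
    · simp only [if_pos hj]; exact hf s
    · simp only [if_neg hj]; exact le_refl _

end STEP_

open STEP_ in
/-- STEP -/
theorem p_STEP (hDNB : T_DNB) (hENER : T_ENER) (hMASS : T_MASS) (hTREE : T_TREE) : T_STEP := by
  classical
  intro A
  obtain ⟨C1, hC1, h1⟩ := hENER A
  obtain ⟨C2, hC2, h2⟩ := hMASS
  obtain ⟨C3, hC3, h3⟩ := hTREE A
  refine ⟨C3 * (C1 + 4 * C2), by positivity, ?_⟩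
  intro φ Φ g b N E hW hD S eps mu heps hmu hEn hMs
  obtain ⟨S1, U, hS1, hMs1, hcov1, hU⟩ := h2 E N hD.mE hD.mN hD.fE S (mu / 4) (by positivity)
  obtain ⟨n, K, Λ, X, S', hS', hEn', hcov2, hK⟩ := h1 φ Φ g b N E hW hD S1 eps heps
    (en_mono hEn hS1)
  refine ⟨S', hS'.trans hS1, hEn', ms_mono hMs1 hS', ?_⟩
  set f : Tile → ℝ := fun s => cc Φ g s * ‖av φ b N s‖ with hf
  have hf0 : ∀ s, 0 ≤ f s := fun s => mul_nonneg (norm_nonneg _) (norm_nonneg _)
  set m : ℝ := min mu 2 with hm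
  have hm0 : 0 ≤ m := le_min hmu.le (by norm_num)
  have hMsm : Ms E N S m := fun s hs u hu =>
    le_min (hMs s hs u hu) (hDNB E N hD.mE hD.mN hD.fE u).2.1
  have hsplit : ∑ s ∈ S \ S', f s ≤ ∑ s ∈ S \ S1, f s + ∑ s ∈ S1 \ S', f s := by
    have hsub : S \ S' ⊆ (S \ S1) ∪ (S1 \ S') := by
      intro s hs
      rw [Finset.mem_sdiff] at hs
      rw [Finset.mem_union, Finset.mem_sdiff, Finset.mem_sdiff]
      by_cases h : s ∈ S1
      · right; exact ⟨h, hs.2⟩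
      · left; exact ⟨hs.1, h⟩
    have hdis : Disjoint (S \ S1) (S1 \ S') := by
      rw [Finset.disjoint_left]
      intro s hs hs'
      exact (Finset.mem_sdiff.1 hs).2 (Finset.mem_sdiff.1 hs').1
    rw [← Finset.sum_union hdis]
    exact Finset.sum_le_sum_of_subset_of_nonneg hsub fun s _ _ => hf0 s
  have htree : ∀ (R : Finset Tile), R ⊆ S → ∀ (P : Tile → Prop) (k l : ℤ) (ξ : ℝ),
      (∀ s, P s → s.I ⊆ dy k l ∧ ξ ∈ s.om) →
        ∑ s ∈ R.filter P, f s ≤ C3 * eps * m * (2 : ℝ) ^ k := by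
    intro R hR P k l ξ hP
    have hsub : R.filter P ⊆ S := (Finset.filter_subset _ _).trans hR
    exact h3 φ Φ g b N E hW hD (R.filter P) k l ξ eps m
      (fun s hs => hP s (Finset.mem_filter.1 hs).2) heps.le hm0 (en_mono hEn hsub)
      (ms_mono hMsm hsub)
  have hA : ∑ s ∈ S \ S1, f s ≤ C3 * eps * m * ∑ u ∈ U, (2 : ℝ) ^ u.k := by
    rw [Finset.mul_sum]
    refine (sum_cover (S \ S1) U (fun u s => TLE s u) f hf0 ?_).trans
      (Finset.sum_le_sum fun u _ => ?_)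
    · intro s hs
      rw [Finset.mem_sdiff] at hs
      exact hcov1 s hs.1 hs.2
    · refine htree _ Finset.sdiff_subset _ u.k u.l ((2 : ℝ) ^ (-u.k) * u.m) ?_
      intro s hs
      exact ⟨hs.1, hs.2 (left_mem_dy _ _)⟩
  have hB : ∑ s ∈ S1 \ S', f s ≤ C3 * eps * m * ∑ i ∈ Finset.range n, (2 : ℝ) ^ (K i) := by
    rw [Finset.mul_sum]
    refine (sum_cover (S1 \ S') (Finset.range n)
      (fun i s => s.I ⊆ dy (K i) (Λ i) ∧ X i ∈ s.om) f hf0 ?_).trans
      (Finset.sum_le_sum fun i _ => ?_)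
    · intro s hs
      rw [Finset.mem_sdiff] at hs
      obtain ⟨i, hi, h⟩ := hcov2 s hs.1 hs.2
      exact ⟨i, Finset.mem_range.2 hi, h⟩
    · exact htree _ (Finset.sdiff_subset.trans hS1) _ (K i) (Λ i) (X i) fun s hs => hs
  have hc : 0 ≤ C3 * eps * m := by positivity
  have hv : 0 ≤ vol E / mu := div_nonneg ENNReal.toReal_nonneg hmu.le
  have hg : 0 ≤ n2 g ^ 2 / eps ^ 2 := by positivity
  have hU' : ∑ u ∈ U, (2 : ℝ) ^ u.k ≤ 4 * C2 * (vol E / mu) := by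
    refine hU.trans (le_of_eq ?_)
    field_simp
  have hK' : ∑ i ∈ Finset.range n, (2 : ℝ) ^ (K i) ≤ C1 * (n2 g ^ 2 / eps ^ 2) := by
    refine hK.trans (le_of_eq ?_)
    ring
  calc ∑ s ∈ S \ S', f s ≤ ∑ s ∈ S \ S1, f s + ∑ s ∈ S1 \ S', f s := hsplit
    _ ≤ C3 * eps * m * ∑ u ∈ U, (2 : ℝ) ^ u.k +
        C3 * eps * m * ∑ i ∈ Finset.range n, (2 : ℝ) ^ (K i) := add_le_add hA hB
    _ ≤ C3 * eps * m * (4 * C2 * (vol E / mu)) +
        C3 * eps * m * (C1 * (n2 g ^ 2 / eps ^ 2)) :=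
        add_le_add (mul_le_mul_of_nonneg_left hU' hc) (mul_le_mul_of_nonneg_left hK' hc)
    _ ≤ C3 * (C1 + 4 * C2) * eps * m * (n2 g ^ 2 / eps ^ 2 + vol E / mu) := by
        have e1 : 0 ≤ C3 * eps * m * (C1 * (vol E / mu)) := by positivity
        have e2 : 0 ≤ C3 * eps * m * (4 * C2 * (n2 g ^ 2 / eps ^ 2)) := by positivity
        nlinarith

end Pool.Agent.CAR
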