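import Pool.Agent.CAR.Targets

set_option autoImplicit false

/-!
# The Carleson operator on the line: SUM, the final summation
-/

namespace Pool.Agent.CAR

open MeasureTheory Set ComplexConjugate
open scoped ENNReal NNReal

namespace SUM_

/-- `2^(-|n|)` -/
noncomputable def hz (n : ℤ) : ℝ := (1 / 2 : ℝ) ^ n.natAbs

theorem hz_nonneg (n : ℤ) : 0 ≤ hz n := by unfold hz; positivity

theorem summable_hz : Summable hz := by
  have h1 : Summable (fun n : ℕ => (1 / 2 : ℝ) ^ n) :=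
    summable_geometric_of_lt_one (by norm_num) (by norm_num)
  refine Summable.of_nat_of_neg ?_ ?_
  · exact h1.congr fun n => by simp [hz]
  · exact h1.congr fun n => by simp [hz]

theorem sum_hz_le (n0 : ℤ) (m : ℕ) : ∑ j ∈ Finset.range m, hz (n0 - j) ≤ ∑' z, hz z := by
  classical
  have hinj : Set.InjOn (fun j : ℕ => n0 - (j : ℤ)) (Finset.range m) := by
    intro a _ b _ hab
    simp only at hab
    omega
  rw [← Finset.sum_image (f := hz) hinj]
  exact summable_hz.sum_le_tsum _ fun z _ => hz_nonneg z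

theorem tsum_hz_nonneg : 0 ≤ ∑' z, hz z := tsum_nonneg hz_nonneg

theorem four_zpow (n : ℤ) : (4 : ℝ) ^ n = ((2 : ℝ) ^ n) ^ 2 := by
  rw [show (4 : ℝ) = 2 * 2 by norm_num, mul_zpow, sq]

/-- the cost of one step -/
theorem cost {F e : ℝ} (hF : 0 < F) (he : 0 < e) (n : ℤ) :
    ((2 : ℝ) ^ n * F / e) * min ((4 : ℝ) ^ n) 2 *
      (F ^ 2 / ((2 : ℝ) ^ n * F / e) ^ 2 + e ^ 2 / (4 : ℝ) ^ n) ≤ 4 * F * e * hz n := by
  rw [four_zpow]
  set t : ℝ := (2 : ℝ) ^ n with ht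
  have ht0 : 0 < t := zpow_pos (by norm_num) n
  have e1 : (t * F / e) * min (t ^ 2) 2 * (F ^ 2 / (t * F / e) ^ 2 + e ^ 2 / t ^ 2) =
      2 * F * e * (min (t ^ 2) 2 / t) := by
    field_simp
    ring
  rw [e1]
  have key : min (t ^ 2) 2 / t ≤ 2 * hz n := by
    rw [div_le_iff₀ ht0]
    obtain ⟨k, rfl | rfl⟩ := n.eq_nat_or_neg
    · have h1 : hz (k : ℤ) * t = 1 := by
        rw [ht, hz, Int.natAbs_natCast, zpow_natCast, ← mul_pow]
        norm_num
      calc min (t ^ 2) 2 ≤ 2 := min_le_right _ _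
        _ = 2 * hz (k : ℤ) * t := by rw [mul_assoc, h1]; norm_num
    · have h1 : hz (-(k : ℤ)) = t := by
        rw [ht, hz, Int.natAbs_neg, Int.natAbs_natCast, zpow_neg, zpow_natCast, one_div, inv_pow]
      rw [h1]
      calc min (t ^ 2) 2 ≤ t ^ 2 := min_le_left _ _
        _ ≤ 2 * t * t := by nlinarith
  have hFe : 0 ≤ 2 * F * e := by positivity
  calc 2 * F * e * (min (t ^ 2) 2 / t) ≤ 2 * F * e * (2 * hz n) :=
        mul_le_mul_of_nonneg_left key hFe
    _ = 4 * F * e * hz n := by ring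

theorem co_zero {Φ g : ℝ → ℂ} (hg : ∀ᵐ ξ, g ξ = 0) (s : Tile) : co Φ g s = 0 := by
  unfold co
  rw [← integral_zero ℝ ℂ]
  refine integral_congr_ae ?_
  filter_upwards [hg] with ξ h
  rw [h, zero_mul]

theorem av_zero {φ b : ℝ → ℂ} (N : ℝ → ℝ) (hb : ∀ᵐ x, b x = 0) (s : Tile) : av φ b N s = 0 := by
  unfold av
  rw [← integral_zero ℝ ℂ (μ := volume.restrict (N ⁻¹' s.up))]
  refine integral_congr_ae ?_
  filter_upwards [ae_restrict_of_ae hb] with x h
  rw [h, zero_mul]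

/-- the coefficient of one tile -/
theorem cc_le {c : Tile → ℝ} (hc : ∀ s, 0 ≤ c s) {S : Finset Tile} {eps : ℝ} (heps : 0 ≤ eps)
    (h : En c S eps) {s : Tile} (hs : s ∈ S) : c s ≤ eps * Real.sqrt ((2 : ℝ) ^ s.k) := by
  have h1 := h {s} s.k s.l ((2 : ℝ) ^ (-s.k - 1) * ((2 * s.m + 1 : ℤ) : ℝ))
    (Finset.singleton_subset_iff.2 hs) (by
      intro t ht
      rw [Finset.mem_singleton] at ht
      subst ht
      exact ⟨subset_refl _, left_mem_dy _ _⟩)
  rw [Finset.sum_singleton] at h1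
  have h2 : c s ^ 2 ≤ (eps * Real.sqrt ((2 : ℝ) ^ s.k)) ^ 2 := by
    rw [mul_pow, Real.sq_sqrt (two_zpow_pos _).le]
    exact h1
  exact (pow_le_pow_iff_left₀ (hc s) (mul_nonneg heps (Real.sqrt_nonneg _)) two_ne_zero).1 h2

/-- the beginning of the induction -/
theorem start {c : Tile → ℝ} (S : Finset Tile) {F e : ℝ} (hF : 0 < F)
    (he : 0 < e) : ∃ n0 : ℕ, (2 : ℝ) < 4 ^ n0 ∧ En c S ((2 : ℝ) ^ (n0 : ℤ) * F / e) := by
  classical
  set B : ℝ := ∑ s ∈ S, c s ^ 2 with hB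
  have hB0 : 0 ≤ B := Finset.sum_nonneg fun s _ => by positivity
  set D : ℝ := ∑ s ∈ S, B / (2 : ℝ) ^ s.k with hD
  obtain ⟨n0, hn0⟩ := pow_unbounded_of_one_lt (max (D * e ^ 2 / F ^ 2) 2)
    (show (1 : ℝ) < 4 by norm_num)
  refine ⟨n0, lt_of_le_of_lt (le_max_right _ _) hn0, ?_⟩
  have h1 : D * e ^ 2 / F ^ 2 ≤ 4 ^ n0 := (lt_of_le_of_lt (le_max_left _ _) hn0).le
  intro T K Λ ξ hT hP
  rcases T.eq_empty_or_nonempty with h | ⟨s, hs⟩
  · subst h
    rw [Finset.sum_empty]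
    have := two_zpow_pos K
    positivity
  · have hk : s.k ≤ K := le_of_dy_sub (hP s hs).1
    have h2 : ∑ t ∈ T, c t ^ 2 ≤ B :=
      Finset.sum_le_sum_of_subset_of_nonneg hT fun t _ _ => by positivity
    have h3 : B / (2 : ℝ) ^ s.k ≤ D :=
      Finset.single_le_sum (f := fun t : Tile => B / (2 : ℝ) ^ t.k)
        (fun t _ => div_nonneg hB0 (two_zpow_pos _).le) (hT hs)
    have h4 : D ≤ ((2 : ℝ) ^ (n0 : ℤ) * F / e) ^ 2 := by
      rw [div_le_iff₀ (by positivity)] at h1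
      rw [div_pow, mul_pow, ← four_zpow, zpow_natCast, le_div_iff₀ (by positivity)]
      exact h1
    have h5 : B ≤ ((2 : ℝ) ^ (n0 : ℤ) * F / e) ^ 2 * (2 : ℝ) ^ s.k := by
      rw [← div_le_iff₀ (two_zpow_pos _)]
      exact h3.trans h4
    exact h2.trans (h5.trans (mul_le_mul_of_nonneg_left (two_zpow_le hk) (by positivity)))

end SUM_

open SUM_ in
/-- SUM -/
theorem p_SUM : T_SUM := by
  classical
  intro hDNB _ hSTEP A
  obtain ⟨C0, hC0, hstep⟩ := hSTEP A
  set Z : ℝ := ∑' z, hz z with hZ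
  have hZ0 : 0 ≤ Z := tsum_hz_nonneg
  refine ⟨4 * C0 * Z + 1, by positivity, ?_⟩
  intro φ Φ g b N E hW hD S
  set f : Tile → ℝ := fun s => cc Φ g s * ‖av φ b N s‖ with hf
  have hf0 : ∀ s, 0 ≤ f s := fun s => mul_nonneg (norm_nonneg _) (norm_nonneg _)
  change ∑ s ∈ S, f s ≤ _
  set F : ℝ := n2 g with hFdef
  set e : ℝ := Real.sqrt (vol E) with hedef
  have hF0 : 0 ≤ F := Real.sqrt_nonneg _
  have he0 : 0 ≤ e := Real.sqrt_nonneg _
  have he2 : e ^ 2 = vol E := Real.sq_sqrt ENNReal.toReal_nonneg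
  have hCFe : 0 ≤ (4 * C0 * Z + 1) * F * e := by positivity
  rcases hF0.eq_or_lt with hF | hF
  · -- `g = 0`
    have h1 : ∫ ξ, ‖g ξ‖ ^ 2 = 0 := by
      have h2 : Real.sqrt (∫ ξ, ‖g ξ‖ ^ 2) = 0 := hF.symm
      rwa [Real.sqrt_eq_zero (integral_nonneg fun ξ => by positivity)] at h2
    have h3 := (integral_eq_zero_iff_of_nonneg (fun ξ => by positivity) hD.sg).1 h1
    have h4 : ∀ᵐ ξ, g ξ = 0 := by
      filter_upwards [h3] with ξ h
      simpa using h
    have h5 : ∑ s ∈ S, f s = 0 := by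
      refine Finset.sum_eq_zero fun s _ => ?_
      simp only [hf, cc, co_zero h4 s, norm_zero, zero_mul]
    rw [h5]
    exact hCFe
  rcases he0.eq_or_lt with he | he
  · -- `b = 0`
    have h1 : vol E = 0 := by rw [← he2, ← he]; ring
    have h2 : volume E = 0 := by
      rcases (ENNReal.toReal_eq_zero_iff _).1 h1 with h | h
      · exact h
      · exact absurd h hD.fE
    have h4 : ∀ᵐ x, b x = 0 := by
      have h3 : ∀ᵐ x, x ∉ E := measure_eq_zero_iff_ae_notMem.1 h2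
      filter_upwards [h3] with x h
      exact hD.b0 x h
    have h5 : ∑ s ∈ S, f s = 0 := by
      refine Finset.sum_eq_zero fun s _ => ?_
      simp only [hf, av_zero N h4 s, norm_zero, mul_zero]
    rw [h5]
    exact hCFe
  -- the main case
  have hc0 : ∀ s, 0 ≤ cc Φ g s := fun s => norm_nonneg _
  obtain ⟨n0, hn0, hEn0⟩ := start (c := cc Φ g) S hF he
  have key : ∀ m : ℕ, ∃ S' ⊆ S, En (cc Φ g) S' ((2 : ℝ) ^ ((n0 : ℤ) - m) * F / e) ∧
      Ms E N S' ((4 : ℝ) ^ ((n0 : ℤ) - m)) ∧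
      ∑ s ∈ S \ S', f s ≤ C0 * (4 * F * e) * ∑ j ∈ Finset.range m, hz ((n0 : ℤ) - j) := by
    intro m
    induction m with
    | zero =>
      refine ⟨S, subset_refl _, ?_, ?_, ?_⟩
      · simpa using hEn0
      · intro s hs u hu
        have h1 := (hDNB E N hD.mE hD.mN hD.fE u).2.1
        simp only [Nat.cast_zero, sub_zero, zpow_natCast]
        exact h1.trans hn0.le
      · simp
    | succ m ih =>
      obtain ⟨S', hS', hE', hM', hsum'⟩ := ih
      set n : ℤ := (n0 : ℤ) - m with hn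
      have hn1 : (n0 : ℤ) - ((m + 1 : ℕ) : ℤ) = n - 1 := by rw [hn]; push_cast; ring
      obtain ⟨S'', hS'', hE'', hM'', hsum''⟩ := hstep φ Φ g b N E hW hD S'
        ((2 : ℝ) ^ n * F / e) ((4 : ℝ) ^ n) (by positivity) (by positivity) hE' hM'
      refine ⟨S'', hS''.trans hS', ?_, ?_, ?_⟩
      · rw [hn1]
        have h1 : (2 : ℝ) ^ (n - 1) * F / e = (2 : ℝ) ^ n * F / e / 2 := by
          rw [zpow_sub_one₀ (by norm_num)]
          ring
        rw [h1]
        exact hE''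
      · rw [hn1]
        have h1 : (4 : ℝ) ^ (n - 1) = (4 : ℝ) ^ n / 4 := by
          rw [zpow_sub_one₀ (by norm_num)]
          ring
        rw [h1]
        exact hM''
      · have hsub : S \ S'' ⊆ (S \ S') ∪ (S' \ S'') := by
          intro s hs
          rw [Finset.mem_sdiff] at hs
          rw [Finset.mem_union, Finset.mem_sdiff, Finset.mem_sdiff]
          by_cases h : s ∈ S'
          · right; exact ⟨h, hs.2⟩
          · left; exact ⟨hs.1, h⟩
        have hdis : Disjoint (S \ S') (S' \ S'') := by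
          rw [Finset.disjoint_left]
          intro s hs hs'
          exact (Finset.mem_sdiff.1 hs).2 (Finset.mem_sdiff.1 hs').1
        have h1 : ∑ s ∈ S \ S'', f s ≤ ∑ s ∈ S \ S', f s + ∑ s ∈ S' \ S'', f s := by
          rw [← Finset.sum_union hdis]
          exact Finset.sum_le_sum_of_subset_of_nonneg hsub fun s _ _ => hf0 s
        have h2 := cost hF he n
        rw [he2] at h2
        have h3 : ∑ s ∈ S' \ S'', f s ≤ C0 * (4 * F * e * hz n) := by
          refine hsum''.trans ?_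
          have h4 := mul_le_mul_of_nonneg_left h2 hC0.le
          refine le_trans (le_of_eq ?_) h4
          ring
        rw [Finset.sum_range_succ, mul_add]
        calc ∑ s ∈ S \ S'', f s ≤ ∑ s ∈ S \ S', f s + ∑ s ∈ S' \ S'', f s := h1
          _ ≤ C0 * (4 * F * e) * ∑ j ∈ Finset.range m, hz ((n0 : ℤ) - j) +
              C0 * (4 * F * e * hz n) := add_le_add hsum' h3
          _ = C0 * (4 * F * e) * ∑ j ∈ Finset.range m, hz ((n0 : ℤ) - j) +
              C0 * (4 * F * e) * hz ((n0 : ℤ) - m) := by rw [hn]; ring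
  -- the limit
  set B' : ℝ := ∑ s ∈ S, Real.sqrt ((2 : ℝ) ^ s.k) * ‖av φ b N s‖ with hB'
  have hbound : ∀ m : ℕ, ∑ s ∈ S, f s ≤ C0 * (4 * F * e) * Z +
      (2 : ℝ) ^ n0 * F / e * B' * (1 / 2 : ℝ) ^ m := by
    intro m
    obtain ⟨S', hS', hE', -, hsum'⟩ := key m
    have h1 : ∑ s ∈ S, f s = ∑ s ∈ S \ S', f s + ∑ s ∈ S', f s :=
      (Finset.sum_sdiff hS').symm
    have heps : (2 : ℝ) ^ ((n0 : ℤ) - m) * F / e = (2 : ℝ) ^ n0 * F / e * (1 / 2 : ℝ) ^ m := by
      rw [zpow_sub₀ (by norm_num), zpow_natCast, zpow_natCast, one_div, inv_pow]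
      ring
    have h2 : ∑ s ∈ S', f s ≤ (2 : ℝ) ^ n0 * F / e * B' * (1 / 2 : ℝ) ^ m := by
      have h3 : ∀ s ∈ S', f s ≤ (2 : ℝ) ^ ((n0 : ℤ) - m) * F / e *
          (Real.sqrt ((2 : ℝ) ^ s.k) * ‖av φ b N s‖) := by
        intro s hs
        have h4 := cc_le hc0 (by positivity) hE' hs
        calc f s = cc Φ g s * ‖av φ b N s‖ := rfl
          _ ≤ ((2 : ℝ) ^ ((n0 : ℤ) - m) * F / e * Real.sqrt ((2 : ℝ) ^ s.k)) *
              ‖av φ b N s‖ := mul_le_mul_of_nonneg_right h4 (norm_nonneg _)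
          _ = _ := by ring
      calc ∑ s ∈ S', f s ≤ ∑ s ∈ S', (2 : ℝ) ^ ((n0 : ℤ) - m) * F / e *
            (Real.sqrt ((2 : ℝ) ^ s.k) * ‖av φ b N s‖) := Finset.sum_le_sum h3
        _ = (2 : ℝ) ^ ((n0 : ℤ) - m) * F / e *
            ∑ s ∈ S', Real.sqrt ((2 : ℝ) ^ s.k) * ‖av φ b N s‖ := by rw [Finset.mul_sum]
        _ ≤ (2 : ℝ) ^ ((n0 : ℤ) - m) * F / e * B' := by
            refine mul_le_mul_of_nonneg_left ?_ (by positivity)
            exact Finset.sum_le_sum_of_subset_of_nonneg hS' fun s _ _ => by positivity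
        _ = _ := by rw [heps]; ring
    have h5 : C0 * (4 * F * e) * ∑ j ∈ Finset.range m, hz ((n0 : ℤ) - j) ≤
        C0 * (4 * F * e) * Z :=
      mul_le_mul_of_nonneg_left (sum_hz_le n0 m) (by positivity)
    rw [h1]
    exact add_le_add (hsum'.trans h5) h2
  have hlim : Filter.Tendsto (fun m : ℕ => C0 * (4 * F * e) * Z +
      (2 : ℝ) ^ n0 * F / e * B' * (1 / 2 : ℝ) ^ m) Filter.atTop
      (nhds (C0 * (4 * F * e) * Z + (2 : ℝ) ^ n0 * F / e * B' * 0)) := by
    refine Filter.Tendsto.const_add _ (Filter.Tendsto.const_mul _ ?_)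
    exact tendsto_pow_atTop_nhds_zero_of_lt_one (by norm_num) (by norm_num)
  have hfin := ge_of_tendsto' hlim hbound
  rw [mul_zero, add_zero] at hfin
  have hFe : 0 ≤ F * e := by positivity
  nlinarith

end Pool.Agent.CAR
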