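import Pool.Agent.CAR.Targets

set_option autoImplicit false

/-!
# The Carleson operator on the line: TREE, the tree lemma
-/

namespace Pool.Agent.CAR

open MeasureTheory Set ComplexConjugate
open scoped ENNReal NNReal

namespace TREE_

theorem up_nonempty (s : Tile) : s.up.Nonempty := dy_nonempty _ _

theorem single {c : Tile → ℝ} {T : Finset Tile} {eps : ℝ} (heps : 0 ≤ eps) (h : En c T eps)
    (hc : ∀ s, 0 ≤ c s) {s : Tile} (hs : s ∈ T) : c s ≤ eps * Real.sqrt ((2 : ℝ) ^ s.k) := by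
  obtain ⟨ξ, hξ⟩ := up_nonempty s
  have h1 := h {s} s.k s.l ξ (by simpa using hs) (by
    intro t ht
    rw [Finset.mem_singleton] at ht
    subst ht
    exact ⟨subset_rfl, hξ⟩)
  rw [Finset.sum_singleton] at h1
  have h2 : (0 : ℝ) ≤ eps * Real.sqrt ((2 : ℝ) ^ s.k) := mul_nonneg heps (Real.sqrt_nonneg _)
  rw [← sq_le_sq₀ (hc s) h2, mul_pow, Real.sq_sqrt (two_zpow_pos _).le]
  exact h1

end TREE_

open TREE_ in
theorem p_TREE (hMIN : T_MIN) (hPLU : T_PLU) : T_TREE := by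
  classical
  intro A
  obtain ⟨C1, hC1, h1⟩ := hMIN A
  obtain ⟨C2, hC2, h2⟩ := hPLU A
  refine ⟨C1 + C2, add_pos hC1 hC2, ?_⟩
  intro φ Φ g b N E hW hD T K Λ ξ eps mu hT heps hmu hEn hMs
  have hcc : ∀ s, 0 ≤ cc Φ g s := fun s => norm_nonneg _
  have hp := h2 φ Φ g b N E hW hD (T.filter (fun s => ξ ∈ s.up)) K Λ ξ eps mu
    (fun s hs => ⟨(hT s (Finset.mem_filter.1 hs).1).1, (Finset.mem_filter.1 hs).2⟩) heps hmu
    (fun T' K' Λ' ξ' hT' => hEn T' K' Λ' ξ' (hT'.trans (Finset.filter_subset _ _)))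
    (fun s hs => hMs s (Finset.mem_filter.1 hs).1)
  have hm := h1 φ Φ g b N E hW hD (T.filter (fun s => ¬ ξ ∈ s.up)) K Λ ξ eps mu
    (fun s hs => by
      have h3 := Finset.mem_filter.1 hs
      refine ⟨(hT s h3.1).1, ?_⟩
      have h4 := (hT s h3.1).2
      rw [om_eq] at h4
      exact h4.resolve_right h3.2) heps hmu
    (fun s hs => single heps hEn hcc (Finset.mem_filter.1 hs).1)
    (fun s hs => hMs s (Finset.mem_filter.1 hs).1)
  rw [← Finset.sum_filter_add_sum_filter_not T (fun s => ξ ∈ s.up)]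
  calc _ ≤ C2 * eps * mu * (2 : ℝ) ^ K + C1 * eps * mu * (2 : ℝ) ^ K := add_le_add hp hm
    _ = _ := by ring

end Pool.Agent.CAR
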