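import Pool.Agent.CAR.P_WTI
import Pool.Agent.CAR.P_WTS
import Pool.Agent.CAR.P_FXB
import Pool.Agent.CAR.P_IPB
import Pool.Agent.CAR.P_IPZ
import Pool.Agent.CAR.P_ENER
import Pool.Agent.CAR.P_DNB
import Pool.Agent.CAR.P_MASS
import Pool.Agent.CAR.P_STOP
import Pool.Agent.CAR.P_P2
import Pool.Agent.CAR.P_AVG
import Pool.Agent.CAR.P_NEAR
import Pool.Agent.CAR.P_SMA
import Pool.Agent.CAR.P_SMB
import Pool.Agent.CAR.P_ONE
import Pool.Agent.CAR.P_SPL
import Pool.Agent.CAR.P_MIN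
import Pool.Agent.CAR.P_PLU
import Pool.Agent.CAR.P_TREE
import Pool.Agent.CAR.P_STEP
import Pool.Agent.CAR.P_SUM

set_option autoImplicit false

/-!
# CAR: the model sum (weak type part)
-/

namespace Pool.Agent.CAR

theorem q_DNB : T_DNB := p_DNB p_WTI

theorem q_ENER : T_ENER := p_ENER (p_IPB p_WTI p_FXB p_PAR) p_IPZ

theorem q_TREE : T_TREE := p_TREE p_MIN (p_PLU p_SPL)

theorem q_STEP : T_STEP := p_STEP q_DNB q_ENER p_MASS q_TREE

/-- **MODEL** -/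
theorem p_MODEL : T_MODEL := p_SUM q_DNB p_FXB q_STEP

end Pool.Agent.CAR
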