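import Pool.Agent.CAR.STargets
import Pool.Agent.CAR.P_FXB
import Pool.Agent.H25.Plancherel

set_option autoImplicit false

/-!
# The Carleson operator on the line: MODS, the strong form of MODEL
-/

namespace Pool.Agent.CAR

open MeasureTheory Set ComplexConjugate FourierTransform
open scoped ENNReal NNReal

namespace MODS_

theorem norm_e1' (x : ℝ) : ‖e1 x‖ = 1 := by
  unfold e1
  rw [Complex.norm_exp]
  simp

theorem continuous_e1' : Continuous e1 := by
  unfold e1
  fun_prop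

theorem conj_e1 (x : ℝ) : conj (e1 x) = e1 (-x) := by
  unfold e1
  rw [← Complex.exp_conj]
  congr 1
  simp only [map_mul, Complex.conj_ofReal, Complex.conj_I, map_ofNat]
  push_cast
  ring

/-- the function with Fourier transform `g` -/
noncomputable def fg (g : ℝ → ℂ) (x : ℝ) : ℂ := ∫ ξ, g ξ * e1 (x * ξ)

theorem fg_eq (g : ℝ → ℂ) (x : ℝ) : fg g x = 𝓕 g (-x) := by
  rw [Real.fourier_real_eq_integral_exp_smul]
  unfold fg
  refine integral_congr_ae (Filter.Eventually.of_forall fun ξ => ?_)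
  simp only [e1, smul_eq_mul]
  rw [mul_comm]
  congr 2
  push_cast
  ring

theorem norm_fg_le (g : ℝ → ℂ) (x : ℝ) : ‖fg g x‖ ≤ ∫ ξ, ‖g ξ‖ := by
  unfold fg
  refine (norm_integral_le_integral_norm _).trans (le_of_eq ?_)
  refine integral_congr_ae (Filter.Eventually.of_forall fun ξ => ?_)
  simp only [norm_mul, norm_e1', mul_one]

theorem continuous_fg {g : ℝ → ℂ} (hg : Integrable g) : Continuous (fg g) := by
  have h1 : Continuous (𝓕 g) :=
    VectorFourier.fourierIntegral_continuous Real.continuous_fourierChar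
      (by exact continuous_inner) hg
  have h2 : fg g = fun x => 𝓕 g (-x) := funext (fg_eq g)
  rw [h2]
  exact h1.comp continuous_neg

theorem int_sq_eq {h : ℝ → ℂ} (hm : AEStronglyMeasurable h) :
    ∫ x, ‖h x‖ ^ 2 = (∫⁻ x, ‖h x‖ₑ ^ 2).toReal := by
  have hm2 : AEStronglyMeasurable (fun x => ‖h x‖ ^ 2) volume := hm.norm.pow 2
  rw [integral_eq_lintegral_of_nonneg_ae (Filter.Eventually.of_forall fun x => by positivity) hm2]
  congr 1
  refine lintegral_congr fun x => ?_
  rw [ENNReal.ofReal_pow (norm_nonneg _), ofReal_norm]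

theorem lint_of {f g : ℝ → ℂ} (h : eLpNorm f 2 = eLpNorm g 2) :
    ∫⁻ x, ‖f x‖ₑ ^ 2 = ∫⁻ x, ‖g x‖ₑ ^ 2 := by
  rw [eLpNorm_eq_lintegral_rpow_enorm_toReal (by norm_num) (by norm_num),
    eLpNorm_eq_lintegral_rpow_enorm_toReal (by norm_num) (by norm_num)] at h
  have key2 := ENNReal.rpow_left_injective (x := 1 / (2 : ℝ≥0∞).toReal) (by norm_num) h
  simpa only [ENNReal.toReal_ofNat, ENNReal.rpow_ofNat] using key2

theorem fg_sq {g : ℝ → ℂ} (hm : Measurable g) (hg : Integrable g)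
    (hg2 : Integrable (fun ξ => ‖g ξ‖ ^ 2)) :
    Integrable (fun x => ‖fg g x‖ ^ 2) ∧ ∫ x, ‖fg g x‖ ^ 2 = ∫ ξ, ‖g ξ‖ ^ 2 := by
  have hL : MemLp g 2 := (memLp_two_iff_integrable_sq_norm hm.aestronglyMeasurable).2 hg2
  have h1 := Pool.Agent.H25.Plancherel.eLpNorm_fourier_eq hg hL
  have h2 := lint_of h1
  have h3 : ∫⁻ x, ‖fg g x‖ₑ ^ 2 = ∫⁻ x, ‖𝓕 g x‖ₑ ^ 2 := by
    rw [← lintegral_neg_eq_self (fun x => ‖𝓕 g x‖ₑ ^ 2)]
    refine lintegral_congr fun x => ?_
    rw [fg_eq]
  have hm1 : AEStronglyMeasurable (fg g) volume := (continuous_fg hg).aestronglyMeasurable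
  have h4 : ∫⁻ x, ‖fg g x‖ₑ ^ 2 = ∫⁻ x, ‖g x‖ₑ ^ 2 := h3.trans h2
  constructor
  · refine ⟨hm1.norm.pow 2, ?_⟩
    rw [hasFiniteIntegral_iff_enorm]
    have h5 : ∫⁻ x, ‖‖fg g x‖ ^ 2‖ₑ = ∫⁻ x, ‖g x‖ₑ ^ 2 := by
      rw [← h4]
      refine lintegral_congr fun x => ?_
      rw [enorm_pow, enorm_norm]
    rw [h5]
    have h6 := hg2.2
    rw [hasFiniteIntegral_iff_enorm] at h6
    refine lt_of_le_of_lt (le_of_eq ?_) h6
    refine lintegral_congr fun x => ?_
    rw [enorm_pow, enorm_norm]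
  · rw [int_sq_eq hm1, int_sq_eq hm.aestronglyMeasurable, h4]

theorem cf_fg {A : ℝ} {φ Φ g : ℝ → ℂ} (hW : WPk A φ Φ) (hm : Measurable g)
    (hg : Integrable g) (s : Tile) : cf φ (fg g) s = co Φ g s := by
  obtain ⟨hfc, -, -, -, -, hfi, -⟩ := p_FXB A φ Φ hW s
  have hFXR := (p_FXR A φ Φ hW s).2
  have hme1 : Measurable (fun p : ℝ × ℝ => e1 (p.1 * p.2)) :=
    continuous_e1'.measurable.comp (measurable_fst.mul measurable_snd)
  have hint : Integrable (Function.uncurry fun x ξ : ℝ =>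
      g ξ * e1 (x * ξ) * conj (fx φ s x)) (volume.prod volume) := by
    have h1 : Integrable (fun p : ℝ × ℝ => fx φ s p.1 * g p.2) (volume.prod volume) :=
      hfi.mul_prod hg
    refine h1.norm.mono' ?_ (Filter.Eventually.of_forall fun p => ?_)
    · have h2 : Measurable (fun p : ℝ × ℝ => g p.2 * e1 (p.1 * p.2) * conj (fx φ s p.1)) :=
        ((hm.comp measurable_snd).mul hme1).mul
          (Complex.continuous_conj.measurable.comp (hfc.measurable.comp measurable_fst))
      exact h2.aestronglyMeasurable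
    · simp only [Function.uncurry, norm_mul, norm_e1', RCLike.norm_conj, mul_one]
      rw [mul_comm]
  unfold cf co
  calc ∫ x, fg g x * conj (fx φ s x) = ∫ x, ∫ ξ, g ξ * e1 (x * ξ) * conj (fx φ s x) := by
        refine integral_congr_ae (Filter.Eventually.of_forall fun x => ?_)
        simp only [fg]
        rw [integral_mul_const]
    _ = ∫ ξ, ∫ x, g ξ * e1 (x * ξ) * conj (fx φ s x) := integral_integral_swap hint
    _ = ∫ ξ, g ξ * conj (fr Φ s ξ) := by
        refine integral_congr_ae (Filter.Eventually.of_forall fun ξ => ?_)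
        simp only
        rw [hFXR ξ, ← integral_conj, ← integral_const_mul]
        refine integral_congr_ae (Filter.Eventually.of_forall fun x => ?_)
        simp only [map_mul, conj_e1, neg_neg]
        ring

theorem cf_tendsto {φ f : ℝ → ℂ} {s : Tile} (hfx : Integrable (fx φ s)) (hfc : Continuous f)
    {M : ℝ} (hM : ∀ x, ‖f x‖ ≤ M) :
    Filter.Tendsto (fun n : ℕ => cf φ ((Icc (-(n : ℝ)) n).indicator f) s) Filter.atTop
      (nhds (cf φ f s)) := by
  unfold cf
  refine tendsto_integral_of_dominated_convergence (fun x => M * ‖fx φ s x‖) ?_ ?_ ?_ ?_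
  · intro n
    exact ((hfc.aestronglyMeasurable).indicator measurableSet_Icc).mul
      (Complex.continuous_conj.comp_aestronglyMeasurable hfx.1)
  · exact hfx.norm.const_mul M
  · intro n
    refine Filter.Eventually.of_forall fun x => ?_
    rw [norm_mul, RCLike.norm_conj]
    refine mul_le_mul_of_nonneg_right ?_ (norm_nonneg _)
    exact (norm_indicator_le_norm_self _ _).trans (hM x)
  · refine Filter.Eventually.of_forall fun x => ?_
    refine Filter.Tendsto.mul ?_ tendsto_const_nhds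
    refine tendsto_const_nhds.congr' ?_
    filter_upwards [Filter.eventually_ge_atTop ⌈|x|⌉₊] with n hn
    have h1 : |x| ≤ n := Nat.ceil_le.1 hn
    rw [indicator_of_mem]
    exact abs_le.1 h1

end MODS_

open MODS_ in
/-- MODS -/
theorem p_MODS (hINT : T_INT) : T_MODS := by
  intro A
  obtain ⟨C, hC, h⟩ := hINT A
  refine ⟨C, hC, ?_⟩
  intro φ Φ g b N E hW hD S
  set f : ℝ → ℂ := fg g with hf
  set M : ℝ := ∫ ξ, ‖g ξ‖ with hM
  have hM0 : 0 ≤ M := integral_nonneg fun ξ => norm_nonneg _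
  have hfc : Continuous f := continuous_fg hD.ig
  have hfM : ∀ x, ‖f x‖ ≤ M := norm_fg_le g
  obtain ⟨hf2, hfe⟩ := fg_sq hD.mg hD.ig hD.sg
  have hbf : BF 1 E b := ⟨hD.mb, hD.mE, hD.fE, zero_le_one, fun x => by
    by_cases hx : x ∈ E
    · exact hD.bE x hx
    · rw [hD.b0 x hx, norm_zero]; exact zero_le_one, hD.b0⟩
  have hn : ∀ n : ℕ, ∑ s ∈ S, ‖cf φ ((Icc (-(n : ℝ)) n).indicator f) s‖ * ‖av φ b N s‖ ≤
      C * n2 g * n2 b := by
    intro n
    have hB : BF M (Icc (-(n : ℝ)) n) ((Icc (-(n : ℝ)) n).indicator f) :=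
      ⟨hfc.measurable.indicator measurableSet_Icc, measurableSet_Icc,
        by rw [Real.volume_Icc]; exact ENNReal.ofReal_ne_top, hM0,
        fun x => (norm_indicator_le_norm_self _ _).trans (hfM x),
        fun x hx => indicator_of_notMem hx f⟩
    have h1 := h φ Φ hW _ b N _ E M 1 hB hbf hD.mN S
    refine h1.trans ?_
    have h2 : n2 ((Icc (-(n : ℝ)) n).indicator f) ≤ n2 g := by
      unfold n2
      refine Real.sqrt_le_sqrt ?_
      rw [← hfe]
      refine integral_mono_of_nonneg (Filter.Eventually.of_forall fun x => by positivity) hf2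
        (Filter.Eventually.of_forall fun x => ?_)
      exact pow_le_pow_left₀ (norm_nonneg _) (norm_indicator_le_norm_self _ _) 2
    have h3 : 0 ≤ n2 b := Real.sqrt_nonneg _
    exact mul_le_mul_of_nonneg_right (mul_le_mul_of_nonneg_left h2 hC.le) h3
  have hlim : Filter.Tendsto (fun n : ℕ =>
      ∑ s ∈ S, ‖cf φ ((Icc (-(n : ℝ)) n).indicator f) s‖ * ‖av φ b N s‖) Filter.atTop
      (nhds (∑ s ∈ S, ‖cf φ f s‖ * ‖av φ b N s‖)) := by
    refine tendsto_finsetSum _ fun s _ => ?_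
    obtain ⟨-, -, -, -, -, hfi, -⟩ := p_FXB A φ Φ hW s
    exact ((cf_tendsto hfi hfc hfM).norm).mul_const _
  have hfin := le_of_tendsto' hlim hn
  refine le_trans (le_of_eq ?_) hfin
  refine Finset.sum_congr rfl fun s _ => ?_
  rw [hf, cf_fg hW hD.mg hD.ig s]

end Pool.Agent.CAR
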