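import Pool.Agent.CAR.PK

set_option autoImplicit false

/-!
# CAR: truncation of a plus tree by a smooth multiplier, and the square function bound
-/

namespace Pool.Agent.CAR

open MeasureTheory Set ComplexConjugate Filter Topology
open scoped ENNReal NNReal

namespace TRUNC

/-- `∑_{s ∈ T} c_s φ_s` -/
noncomputable def Gx (φ : ℝ → ℂ) (c : Tile → ℂ) (T : Finset Tile) (x : ℝ) : ℂ :=
  ∑ s ∈ T, c s * fx φ s x

/-- the dilated and modulated kernel -/
noncomputable def Ka (K : ℝ → ℂ) (a : ℤ) (ξ u : ℝ) : ℂ :=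
  (((2 : ℝ) ^ (-a) : ℝ) : ℂ) * K ((2 : ℝ) ^ (-a) * u) * e1 (ξ * u)

variable {A : ℝ} {φ Φ : ℝ → ℂ}

theorem continuous_Ka {K : ℝ → ℂ} (hK : Continuous K) (a : ℤ) (ξ : ℝ) :
    Continuous (Ka K a ξ) := by
  unfold Ka
  have := PK.continuous_e1
  fun_prop

theorem norm_Ka (K : ℝ → ℂ) (a : ℤ) (ξ u : ℝ) :
    ‖Ka K a ξ u‖ = (2 : ℝ) ^ (-a) * ‖K ((2 : ℝ) ^ (-a) * u)‖ := by
  unfold Ka
  rw [norm_mul, norm_mul, PK.norm_e1, mul_one, Complex.norm_real, Real.norm_eq_abs,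
    abs_of_pos (two_zpow_pos _)]

theorem integrable_K {K : ℝ → ℂ} {B : ℝ} (hK : Continuous K) (hB : ∀ x, ‖K x‖ ≤ B * wt 20 x) :
    Integrable K :=
  ((PK.integrable_wt (n := 20) (by norm_num)).const_mul B).mono' hK.aestronglyMeasurable
    (Eventually.of_forall hB)

theorem integrable_Ka {K : ℝ → ℂ} {B : ℝ} (hK : Continuous K) (hB : ∀ x, ‖K x‖ ≤ B * wt 20 x)
    (a : ℤ) (ξ : ℝ) : Integrable (Ka K a ξ) := by
  have h1 := ((integrable_K hK hB).comp_mul_left' (two_zpow_pos (-a)).ne').const_mul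
    ((((2 : ℝ) ^ (-a) : ℝ) : ℂ))
  refine h1.mono (continuous_Ka hK a ξ).aestronglyMeasurable (Eventually.of_forall fun u => ?_)
  rw [norm_Ka, norm_mul, Complex.norm_real, Real.norm_eq_abs, abs_of_pos (two_zpow_pos _)]

theorem integral_norm_Ka (K : ℝ → ℂ) (a : ℤ) (ξ : ℝ) : ∫ u, ‖Ka K a ξ u‖ = ∫ u, ‖K u‖ := by
  simp only [norm_Ka]
  rw [integral_const_mul, Measure.integral_comp_mul_left (fun u => ‖K u‖), smul_eq_mul,
    abs_of_pos (inv_pos.2 (two_zpow_pos _)), ← mul_assoc,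
    mul_inv_cancel₀ (two_zpow_pos _).ne', one_mul]

/-- Fourier transform of the kernel -/
theorem Ka_ft {K χ : ℝ → ℂ} (hχ : ∀ η, χ η = ∫ x, K x * e1 (-(x * η))) (a : ℤ) (ξ η : ℝ) :
    ∫ u, Ka K a ξ u * e1 (-(u * η)) = χ ((2 : ℝ) ^ a * (η - ξ)) := by
  let F : ℝ → ℂ := fun v => (((2 : ℝ) ^ (-a) : ℝ) : ℂ) *
    (K v * e1 (-(v * ((2 : ℝ) ^ a * (η - ξ)))))
  have h1 : (fun u => Ka K a ξ u * e1 (-(u * η))) = fun u => F ((2 : ℝ) ^ (-a) * u) := by
    funext u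
    simp only [Ka, F]
    have h2 : e1 (ξ * u) * e1 (-(u * η)) =
        e1 (-((2 : ℝ) ^ (-a) * u * ((2 : ℝ) ^ a * (η - ξ)))) := by
      rw [← PK.e1_add]
      congr 1
      have := two_zpow_neg_mul a
      linear_combination (u * (η - ξ)) * this
    rw [mul_assoc, h2, mul_assoc]
  rw [h1, Measure.integral_comp_mul_left F, show ∫ v, F v = _ from integral_const_mul _ _, ← hχ,
    abs_of_pos (inv_pos.2 (two_zpow_pos _)), Complex.real_smul]
  have h3 : (((2 : ℝ) ^ (-a))⁻¹ : ℝ) * (2 : ℝ) ^ (-a) = 1 :=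
    inv_mul_cancel₀ (two_zpow_pos _).ne'
  rw [← mul_assoc, ← Complex.ofReal_mul, h3, Complex.ofReal_one, one_mul]

/-- convolution of a packet with the kernel -/
theorem conv_fx (h : WPk A φ Φ) {K χ : ℝ → ℂ} {B : ℝ} (hK : Continuous K)
    (hB : ∀ x, ‖K x‖ ≤ B * wt 20 x) (hχ : ∀ η, χ η = ∫ x, K x * e1 (-(x * η)))
    (a : ℤ) (ξ : ℝ) (s : Tile) (x : ℝ) :
    ∫ y, fx φ s y * Ka K a ξ (x - y) =
      ∫ η, fr Φ s η * χ ((2 : ℝ) ^ a * (η - ξ)) * e1 (x * η) := by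
  have hF : Integrable (fun z : ℝ × ℝ => fr Φ s z.2 * e1 (z.1 * z.2) * Ka K a ξ (x - z.1))
      (volume.prod volume) := by
    have h1 : Integrable (fun z : ℝ × ℝ => Ka K a ξ (x - z.1) * fr Φ s z.2)
        (volume.prod volume) :=
      Integrable.mul_prod (f := fun y => Ka K a ξ (x - y))
        ((integrable_Ka hK hB a ξ).comp_sub_left x) (PK.integrable_fr h s)
    refine h1.mono ?_ (Eventually.of_forall fun z => ?_)
    · have a1 := continuous_Ka hK a ξ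
      have a2 := PK.continuous_fr h s
      have a3 := PK.continuous_e1
      exact Continuous.aestronglyMeasurable (by fun_prop)
    · simp only [norm_mul, PK.norm_e1, mul_one]
      rw [mul_comm]
  calc ∫ y, fx φ s y * Ka K a ξ (x - y)
      = ∫ y, ∫ η, fr Φ s η * e1 (y * η) * Ka K a ξ (x - y) := by
        congr 1
        funext y
        rw [integral_mul_const, ← PK.fx_inv h s y]
    _ = ∫ η, ∫ y, fr Φ s η * e1 (y * η) * Ka K a ξ (x - y) := integral_integral_swap hF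
    _ = _ := by
        congr 1
        funext η
        have h2 : (fun y => fr Φ s η * e1 (y * η) * Ka K a ξ (x - y)) = fun y =>
            (fun u => fr Φ s η * e1 (x * η) * (Ka K a ξ u * e1 (-(u * η)))) (x - y) := by
          funext y
          simp only
          rw [show y * η = x * η + -((x - y) * η) by ring, PK.e1_add]
          ring
        rw [h2, integral_sub_left_eq_self (fun u => fr Φ s η * e1 (x * η) *
          (Ka K a ξ u * e1 (-(u * η)))) volume x, integral_const_mul, Ka_ft hχ]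
        ring

theorem conv_large (h : WPk A φ Φ) {K χ : ℝ → ℂ} {B : ℝ} (hK : Continuous K)
    (hB : ∀ x, ‖K x‖ ≤ B * wt 20 x) (hχ : ∀ η, χ η = ∫ x, K x * e1 (-(x * η)))
    (h1 : ∀ η ∈ Icc (-(7 / 8) : ℝ) 0, χ η = 1) {a : ℤ} {ξ : ℝ} {s : Tile} (hs : ξ ∈ s.up)
    (ha : a ≤ s.k) (x : ℝ) :
    ∫ y, fx φ s y * Ka K a ξ (x - y) = fx φ s x := by
  rw [conv_fx h hK hB hχ, PK.fx_inv h s x]
  congr 1
  funext η
  by_cases h0 : fr Φ s η = 0
  · rw [h0]; simp
  · obtain ⟨h2, h3⟩ := PK.freq h hs h0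
    have e : (2 : ℝ) ^ a * (η - ξ) = (2 : ℝ) ^ (a - s.k) * ((2 : ℝ) ^ s.k * (η - ξ)) := by
      rw [← mul_assoc, ← zpow_add₀ (by norm_num)]
      congr 2
      ring
    have h4 : (2 : ℝ) ^ (a - s.k) ≤ 1 := by
      have := two_zpow_le (show a - s.k ≤ 0 by omega)
      simpa using this
    have h5 := two_zpow_pos (a - s.k)
    rw [h1 _ ?_, mul_one]
    rw [e]
    constructor <;> nlinarith

theorem conv_small (h : WPk A φ Φ) {K χ : ℝ → ℂ} {B : ℝ} (hK : Continuous K)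
    (hB : ∀ x, ‖K x‖ ≤ B * wt 20 x) (hχ : ∀ η, χ η = ∫ x, K x * e1 (-(x * η)))
    (h1 : ∀ η, χ η ≠ 0 → η ∈ Ioo (-1 : ℝ) (1 / 8)) {a : ℤ} {ξ : ℝ} {s : Tile} (hs : ξ ∈ s.up)
    (ha : s.k + 3 ≤ a) (x : ℝ) :
    ∫ y, fx φ s y * Ka K a ξ (x - y) = 0 := by
  rw [conv_fx h hK hB hχ]
  rw [show (fun η => fr Φ s η * χ ((2 : ℝ) ^ a * (η - ξ)) * e1 (x * η)) = fun _ => 0 from ?_,
    integral_zero]
  funext η
  by_cases h0 : fr Φ s η = 0
  · rw [h0]; simp
  · obtain ⟨h2, h3⟩ := PK.freq h hs h0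
    have e : (2 : ℝ) ^ a * (η - ξ) = (2 : ℝ) ^ (a - s.k) * ((2 : ℝ) ^ s.k * (η - ξ)) := by
      rw [← mul_assoc, ← zpow_add₀ (by norm_num)]
      congr 2
      ring
    have h4 : 8 ≤ (2 : ℝ) ^ (a - s.k) := by
      have := two_zpow_le (show 3 ≤ a - s.k by omega)
      norm_num at this ⊢
      exact this
    have h5 : χ ((2 : ℝ) ^ a * (η - ξ)) = 0 := by
      by_contra h6
      have h7 := (h1 _ h6).1
      rw [e] at h7
      nlinarith
    rw [h5]
    simp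

/-- in a plus tree all tiles of one scale have the same frequency interval -/
theorem inj_l {T : Finset Tile} {ξ : ℝ} (hT : ∀ s ∈ T, ξ ∈ s.up) (k : ℤ) :
    Set.InjOn (fun s : Tile => s.l) (T.filter (fun s => s.k = k) : Finset Tile) := by
  intro s hs t ht hst
  simp only [Finset.coe_filter, mem_ofPred_eq] at hs ht
  have hk : s.k = t.k := hs.2.trans ht.2.symm
  have hm := m_eq hk (up_sub s (hT s hs.1)) (up_sub t (hT t ht.1))
  exact Tile.ext hk hst hm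

theorem sum_wt_layer {C₀ : ℝ} (hC₀ : ∀ (L : Finset ℤ) (y : ℝ), ∑ l ∈ L, wt 2 (y - l) ≤ C₀)
    {T : Finset Tile} {ξ : ℝ} (hT : ∀ s ∈ T, ξ ∈ s.up) (k : ℤ) {n : ℕ} (hn : 2 ≤ n) (y : ℝ) :
    ∑ s ∈ T.filter (fun s => s.k = k), wt n (s.u y) ≤ C₀ := by
  calc ∑ s ∈ T.filter (fun s => s.k = k), wt n (s.u y)
      ≤ ∑ s ∈ T.filter (fun s => s.k = k), wt 2 ((2 : ℝ) ^ (-k) * y - s.l) := by
        refine Finset.sum_le_sum fun s hs => ?_
        have hk := (Finset.mem_filter.1 hs).2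
        rw [Tile.u, hk]
        exact HL.wt_anti hn _
    _ = ∑ l ∈ (T.filter (fun s => s.k = k)).image (fun s => s.l),
        wt 2 ((2 : ℝ) ^ (-k) * y - l) :=
        (Finset.sum_image (f := fun l : ℤ => wt 2 ((2 : ℝ) ^ (-k) * y - l)) (inj_l hT k)).symm
    _ ≤ C₀ := hC₀ _ _

theorem layer (h : WPk A φ Φ) {C₀ : ℝ}
    (hC₀ : ∀ (L : Finset ℤ) (y : ℝ), ∑ l ∈ L, wt 2 (y - l) ≤ C₀)
    {T : Finset Tile} {ξ : ℝ} (hT : ∀ s ∈ T, ξ ∈ s.up) {c : Tile → ℂ} {ε : ℝ} (hε : 0 ≤ ε)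
    (hc : ∀ s ∈ T, ‖c s‖ ≤ ε * √((2 : ℝ) ^ s.k)) (k : ℤ) (y : ℝ) :
    ‖Gx φ c (T.filter (fun s => s.k = k)) y‖ ≤ ε * A * C₀ := by
  have hA := h.pos
  calc ‖Gx φ c (T.filter (fun s => s.k = k)) y‖
      ≤ ∑ s ∈ T.filter (fun s => s.k = k), ‖c s * fx φ s y‖ := norm_sum_le _ _
    _ ≤ ∑ s ∈ T.filter (fun s => s.k = k), ε * A * wt 20 (s.u y) := by
        refine Finset.sum_le_sum fun s hs => ?_
        have hs' := (Finset.mem_filter.1 hs).1
        rw [norm_mul]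
        calc ‖c s‖ * ‖fx φ s y‖
            ≤ (ε * √((2 : ℝ) ^ s.k)) * ((√((2 : ℝ) ^ s.k))⁻¹ * (A * wt 20 (s.u y))) :=
              mul_le_mul (hc s hs') (PK.norm_fx h s y) (norm_nonneg _)
                (mul_nonneg hε (PK.sq_pos _).le)
          _ = ε * A * wt 20 (s.u y) * (√((2 : ℝ) ^ s.k) * (√((2 : ℝ) ^ s.k))⁻¹) := by ring
          _ = _ := by rw [mul_inv_cancel₀ (PK.sq_pos _).ne', mul_one]
    _ = ε * A * ∑ s ∈ T.filter (fun s => s.k = k), wt 20 (s.u y) := by rw [Finset.mul_sum]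
    _ ≤ ε * A * C₀ := by
        refine mul_le_mul_of_nonneg_left ?_ (mul_nonneg hε hA.le)
        exact sum_wt_layer hC₀ hT k (by norm_num) y

theorem continuous_Gx (h : WPk A φ Φ) (c : Tile → ℂ) (T : Finset Tile) :
    Continuous (Gx φ c T) := by
  unfold Gx
  exact continuous_finsetSum _ fun s _ => continuous_const.mul (PK.continuous_fx h s)

theorem integrable_conv (h : WPk A φ Φ) {K : ℝ → ℂ} {B : ℝ} (hK : Continuous K)
    (hB : ∀ x, ‖K x‖ ≤ B * wt 20 x) (a : ℤ) (ξ : ℝ) (s : Tile) (x : ℝ) :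
    Integrable (fun y => fx φ s y * Ka K a ξ (x - y)) := by
  have hKb : ∀ u, ‖Ka K a ξ u‖ ≤ (2 : ℝ) ^ (-a) * B := by
    intro u
    rw [norm_Ka]
    refine mul_le_mul_of_nonneg_left ?_ (two_zpow_pos _).le
    refine (hB _).trans ?_
    have hB0 : 0 ≤ B := by
      have h1 := (norm_nonneg _).trans (hB 0)
      by_contra hB
      push Not at hB
      linarith [mul_neg_of_neg_of_pos hB (HL.wt_pos 20 0)]
    exact mul_le_of_le_one_right hB0 (HL.wt_le_one _ _)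
  refine (PK.integrable_fx h s).mul_bdd
    ((continuous_Ka hK a ξ).comp (continuous_const.sub continuous_id)).aestronglyMeasurable
    (Eventually.of_forall fun y => hKb _)

theorem conv_Gx (h : WPk A φ Φ) {K : ℝ → ℂ} {B : ℝ} (hK : Continuous K)
    (hB : ∀ x, ‖K x‖ ≤ B * wt 20 x) (a : ℤ) (ξ : ℝ) (c : Tile → ℂ) (T : Finset Tile) (x : ℝ) :
    ∫ y, Gx φ c T y * Ka K a ξ (x - y) = ∑ s ∈ T, c s * ∫ y, fx φ s y * Ka K a ξ (x - y) := by
  have e : (fun y => Gx φ c T y * Ka K a ξ (x - y)) =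
      fun y => ∑ s ∈ T, c s * (fx φ s y * Ka K a ξ (x - y)) := by
    funext y
    rw [Gx, Finset.sum_mul]
    exact Finset.sum_congr rfl fun s _ => by ring
  rw [e, integral_finsetSum]
  · exact Finset.sum_congr rfl fun s _ => integral_const_mul _ _
  · intro s _
    exact (integrable_conv h hK hB a ξ s x).const_mul _

/-- **TRUNC** -/
theorem trunc (A : ℝ) : ∃ C : ℝ, 0 < C ∧ ∀ φ Φ : ℝ → ℂ, WPk A φ Φ → ∀ (T : Finset Tile) (ξ : ℝ),
    (∀ s ∈ T, ξ ∈ s.up) → ∀ (c : Tile → ℂ) (ε : ℝ), 0 ≤ ε →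
    (∀ s ∈ T, ‖c s‖ ≤ ε * √((2 : ℝ) ^ s.k)) → ∀ (a : ℤ) (x z : ℝ), |z - x| ≤ (2 : ℝ) ^ a →
      ‖∑ s ∈ T.filter (fun s => a ≤ s.k), c s * fx φ s x‖ₑ ≤
        ENNReal.ofReal (C * ε) + ENNReal.ofReal C * HL.MX (Gx φ c T) z := by
  obtain ⟨C₀, hC₀p, hC₀⟩ := PK.sum_wt
  obtain ⟨B, K, χ, hBp, hK, -, hB, hχ1, hχ2, -, hχ⟩ := CHI.exists_chi
  by_cases hA : 0 < A
  swap
  · exact ⟨1, one_pos, fun φ Φ h => absurd h.pos hA⟩
  set M : ℝ := ∫ u, ‖K u‖ with hM
  have hM0 : 0 ≤ M := integral_nonneg fun _ => norm_nonneg _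
  refine ⟨2 * (A * C₀ * M) + B * 32, by positivity, fun φ Φ h T ξ hT c ε hε hc a x z hz => ?_⟩
  -- the small layers
  have hlay : ∀ k : ℤ, ‖∫ y, Gx φ c (T.filter (fun s => s.k = k)) y * Ka K a ξ (x - y)‖ ≤
      ε * A * C₀ * M := by
    intro k
    calc ‖∫ y, Gx φ c (T.filter (fun s => s.k = k)) y * Ka K a ξ (x - y)‖
        ≤ ∫ y, ε * A * C₀ * ‖Ka K a ξ (x - y)‖ := by
          refine norm_integral_le_of_norm_le
            (((integrable_Ka hK hB a ξ).comp_sub_left x).norm.const_mul _)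
            (Eventually.of_forall fun y => ?_)
          rw [norm_mul]
          exact mul_le_mul_of_nonneg_right (layer h hC₀ hT hε hc k y) (norm_nonneg _)
      _ = ε * A * C₀ * M := by
          rw [integral_const_mul, integral_sub_left_eq_self (fun u => ‖Ka K a ξ u‖) volume x,
            integral_norm_Ka]
  -- the decomposition
  have hdec : ∑ s ∈ T.filter (fun s => a ≤ s.k), c s * fx φ s x =
      (∫ y, Gx φ c T y * Ka K a ξ (x - y)) -
        (∫ y, Gx φ c (T.filter (fun s => s.k = a - 1)) y * Ka K a ξ (x - y)) -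
        ∫ y, Gx φ c (T.filter (fun s => s.k = a - 2)) y * Ka K a ξ (x - y) := by
    simp only [conv_Gx h hK hB, Finset.sum_filter]
    rw [← Finset.sum_sub_distrib, ← Finset.sum_sub_distrib]
    refine Finset.sum_congr rfl fun s hs => ?_
    have hξ := hT s hs
    by_cases h1 : a ≤ s.k
    · rw [if_pos h1, if_neg (by omega), if_neg (by omega),
        conv_large h hK hB hχ hχ1 hξ h1, sub_zero, sub_zero]
    · rw [if_neg h1]
      by_cases h2 : s.k = a - 1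
      · rw [if_pos h2, if_neg (by omega)]; ring
      · rw [if_neg h2]
        by_cases h3 : s.k = a - 2
        · rw [if_pos h3]; ring
        · rw [if_neg h3, conv_small h hK hB hχ hχ2 hξ (by omega)]; ring
  have hmain : ‖∫ y, Gx φ c T y * Ka K a ξ (x - y)‖ₑ ≤
      ENNReal.ofReal B * (32 * HL.MX (Gx φ c T) z) := by
    calc ‖∫ y, Gx φ c T y * Ka K a ξ (x - y)‖ₑ
        ≤ ∫⁻ y, ‖Gx φ c T y * Ka K a ξ (x - y)‖ₑ := enorm_integral_le_lintegral_enorm _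
      _ = ∫⁻ y, ‖Gx φ c T y‖ₑ *
          ENNReal.ofReal ((2 : ℝ) ^ (-a) * ‖K ((2 : ℝ) ^ (-a) * (x - y))‖) := by
          refine lintegral_congr fun y => ?_
          rw [enorm_mul, ← norm_Ka K a ξ, ofReal_norm]
      _ ≤ _ := HL.MX_ker (continuous_Gx h c T).measurable (n := 20) (by norm_num) hB a hz
  have hl : ∀ k : ℤ, ‖∫ y, Gx φ c (T.filter (fun s => s.k = k)) y * Ka K a ξ (x - y)‖ₑ ≤
      ENNReal.ofReal (ε * A * C₀ * M) := by
    intro k
    rw [← ofReal_norm]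
    exact ENNReal.ofReal_le_ofReal (hlay k)
  rw [hdec]
  calc _ ≤ ‖∫ y, Gx φ c T y * Ka K a ξ (x - y)‖ₑ +
        ‖∫ y, Gx φ c (T.filter (fun s => s.k = a - 1)) y * Ka K a ξ (x - y)‖ₑ +
        ‖∫ y, Gx φ c (T.filter (fun s => s.k = a - 2)) y * Ka K a ξ (x - y)‖ₑ :=
        enorm_sub_le.trans (add_le_add_left enorm_sub_le _)
    _ ≤ ENNReal.ofReal B * (32 * HL.MX (Gx φ c T) z) + ENNReal.ofReal (ε * A * C₀ * M) +
        ENNReal.ofReal (ε * A * C₀ * M) := by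
        gcongr
        · exact hl _
        · exact hl _
    _ = ENNReal.ofReal (2 * (ε * A * C₀ * M)) +
        ENNReal.ofReal (B * 32) * HL.MX (Gx φ c T) z := by
        rw [two_mul, ENNReal.ofReal_add (by positivity) (by positivity),
          ENNReal.ofReal_mul hBp.le, show ENNReal.ofReal 32 = 32 by norm_num]
        ring
    _ ≤ _ := by
        have h5 : 0 ≤ 2 * (A * C₀ * M) := by positivity
        gcongr ENNReal.ofReal ?_ + ENNReal.ofReal ?_ * _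
        · nlinarith [mul_nonneg hε (by positivity : 0 ≤ B * 32)]
        · linarith

end TRUNC

end Pool.Agent.CAR
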