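import Pool.Agent.CAR.STargets
import Pool.Agent.CAR.TRUNC
import Pool.Agent.CAR.P_FXB
import Pool.Agent.CAR.P_WTI

set_option autoImplicit false

/-!
# CAR: oscillation of a demodulated packet
-/

namespace Pool.Agent.CAR

open MeasureTheory Set Filter Topology ComplexConjugate

namespace OSC_

theorem wt_pos (n : ℕ) (t : ℝ) : 0 < wt n t := by
  unfold wt
  have := abs_nonneg t
  positivity

theorem wt_le_one (n : ℕ) (t : ℝ) : wt n t ≤ 1 := by
  unfold wt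
  have := abs_nonneg t
  exact inv_le_one_of_one_le₀ (one_le_pow₀ (by linarith))

theorem wt_add (n m : ℕ) (t : ℝ) : wt (n + m) t = wt n t * wt m t := by
  unfold wt
  rw [pow_add, mul_inv]

theorem wt_sub (n : ℕ) (a b : ℝ) : wt n a * wt n b ≤ wt n (a + b) := by
  unfold wt
  rw [← mul_inv, ← mul_pow]
  have h1 := abs_nonneg a
  have h2 := abs_nonneg b
  have h3 := abs_nonneg (a + b)
  have h4 := abs_add_le a b
  apply inv_anti₀ (by positivity)
  apply pow_le_pow_left₀ (by positivity)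
  nlinarith

theorem hs_pos (s : Tile) : 0 < hs s := by
  unfold hs
  exact inv_pos.2 (Real.sqrt_pos.2 (two_zpow_pos _))

/-- the kernel without modulation -/
noncomputable def kk (ψ : ℝ → ℂ) (a : ℤ) (u : ℝ) : ℂ :=
  (((2 : ℝ) ^ (-a) : ℝ) : ℂ) * ψ ((2 : ℝ) ^ (-a) * u)

variable {A B : ℝ} {φ Φ χ ψ : ℝ → ℂ}

theorem rep (h : WPk A φ Φ) (hc : Cut B χ ψ) {s : Tile} {ξ : ℝ} (hs : ξ ∈ s.up) (x : ℝ) :
    fx φ s x * e1 (-(x * ξ)) =
      ∫ z, fx φ s z * e1 (-(z * ξ)) * kk ψ s.k (x - z) := by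
  have h1 := TRUNC.conv_large h hc.cψ hc.dec hc.ft
    (fun η hη => hc.one η (by rw [neg_div]; exact hη)) hs le_rfl x
  rw [← h1, ← integral_mul_const]
  congr 1
  funext z
  unfold TRUNC.Ka kk
  have h2 : e1 (ξ * (x - z)) * e1 (-(x * ξ)) = e1 (-(z * ξ)) := by
    rw [← PK.e1_add]
    congr 1
    ring
  rw [← h2]
  ring

theorem cont_kk (hc : Cut B χ ψ) (a : ℤ) : Continuous (kk ψ a) := by
  unfold kk
  have := hc.cψ
  fun_prop

theorem norm_kk (hc : Cut B χ ψ) (a : ℤ) (u : ℝ) : ‖kk ψ a u‖ ≤ (2 : ℝ) ^ (-a) * B := by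
  unfold kk
  rw [norm_mul, Complex.norm_real, Real.norm_of_nonneg (two_zpow_pos _).le]
  apply mul_le_mul_of_nonneg_left _ (two_zpow_pos _).le
  refine (hc.dec _).trans ?_
  have := wt_le_one 20 ((2 : ℝ) ^ (-a) * u)
  exact mul_le_of_le_one_right hc.pos.le this

theorem integ (h : WPk A φ Φ) (hc : Cut B χ ψ) (s : Tile) (ξ x : ℝ) :
    Integrable (fun z => fx φ s z * e1 (-(z * ξ)) * kk ψ s.k (x - z)) := by
  have c1 := PK.continuous_fx h s
  have c2 := PK.continuous_e1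
  have c3 := cont_kk hc s.k
  refine Integrable.mono' (((PK.integrable_fx h s).norm).const_mul ((2 : ℝ) ^ (-s.k) * B)) ?_ ?_
  · exact Continuous.aestronglyMeasurable (by fun_prop)
  · refine Eventually.of_forall fun z => ?_
    rw [norm_mul, norm_mul, PK.norm_e1, mul_one, mul_comm]
    exact mul_le_mul_of_nonneg_right (norm_kk hc _ _) (norm_nonneg _)

theorem kk_sub (hc : CutL B χ ψ) (a : ℤ) {u v : ℝ} (huv : |u - v| ≤ (2 : ℝ) ^ a) :
    ‖kk ψ a u - kk ψ a v‖ ≤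
      (2 : ℝ) ^ (-a) * (B * ((2 : ℝ) ^ (-a) * |u - v|) * wt 20 ((2 : ℝ) ^ (-a) * u)) := by
  have hp := two_zpow_pos (-a)
  have e : kk ψ a u - kk ψ a v = (((2 : ℝ) ^ (-a) : ℝ) : ℂ) *
      (ψ ((2 : ℝ) ^ (-a) * u) - ψ ((2 : ℝ) ^ (-a) * v)) := by
    unfold kk
    ring
  have e2 : |(2 : ℝ) ^ (-a) * u - (2 : ℝ) ^ (-a) * v| = (2 : ℝ) ^ (-a) * |u - v| := by
    rw [← mul_sub, abs_mul, abs_of_pos hp]
  rw [e, norm_mul, Complex.norm_real, Real.norm_of_nonneg hp.le]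
  apply mul_le_mul_of_nonneg_left _ hp.le
  have h1 := hc.lip ((2 : ℝ) ^ (-a) * u) ((2 : ℝ) ^ (-a) * v) ?_
  · rw [e2] at h1
    exact h1
  · rw [e2]
    have := mul_le_mul_of_nonneg_left huv hp.le
    rwa [two_zpow_neg_mul] at this

theorem int_wt (a : ℤ) (x : ℝ) : Integrable (fun z => wt 10 ((2 : ℝ) ^ (-a) * (x - z))) ∧
    ∫ z, wt 10 ((2 : ℝ) ^ (-a) * (x - z)) ≤ 2 * (2 : ℝ) ^ a := by
  obtain ⟨h1, h2⟩ := p_WTI 10 a 0 (by norm_num)
  simp only [sub_zero] at h1 h2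
  refine ⟨h1.comp_sub_left x, ?_⟩
  rw [integral_sub_left_eq_self (fun z => wt 10 ((2 : ℝ) ^ (-a) * z)) volume x]
  exact h2

end OSC_

open OSC_ in
/-- OSC. -/
theorem p_OSC (hCHI2 : T_CHI2) : T_OSC := by
  obtain ⟨B, χ, ψ, hc⟩ := hCHI2
  have hB := hc.cut.pos
  intro A
  refine ⟨2 * |A| * B + 1, by positivity, fun φ Φ h s ξ hξ x y hxy => ?_⟩
  have hA := h.pos
  rw [rep h hc.cut hξ x, rep h hc.cut hξ y, ← integral_sub (integ h hc.cut s ξ x)
    (integ h hc.cut s ξ y)]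
  obtain ⟨i1, i2⟩ := int_wt s.k x
  have hp := two_zpow_pos (-s.k)
  have hh := hs_pos s
  have hab := abs_nonneg (x - y)
  have hw := wt_pos 10 (s.u x)
  set D : ℝ := A * hs s * B * ((2 : ℝ) ^ (-s.k) * |x - y|) * wt 10 (s.u x) with hD
  have hD0 : 0 ≤ D := by positivity
  have hle : ∀ z, ‖fx φ s z * e1 (-(z * ξ)) * kk ψ s.k (x - z) -
      fx φ s z * e1 (-(z * ξ)) * kk ψ s.k (y - z)‖ ≤
      D * ((2 : ℝ) ^ (-s.k) * wt 10 ((2 : ℝ) ^ (-s.k) * (x - z))) := by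
    intro z
    have hxy' : |(x - z) - (y - z)| ≤ (2 : ℝ) ^ s.k := by
      rw [show (x - z) - (y - z) = x - y by ring]
      exact hxy
    have h1 := kk_sub hc s.k hxy'
    rw [show (x - z) - (y - z) = x - y by ring] at h1
    have h2 := (p_FXB A φ Φ h s).2.2.1 z
    rw [← mul_sub, norm_mul, norm_mul, PK.norm_e1, mul_one]
    have hwz := wt_pos 10 (s.u z)
    obtain ⟨w, hwd⟩ : ∃ w, w = (2 : ℝ) ^ (-s.k) * (x - z) := ⟨_, rfl⟩
    rw [← hwd] at h1 ⊢
    have hww := wt_pos 10 w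
    have e1' : s.u x = s.u z + w := by
      rw [hwd]
      unfold Tile.u
      ring
    have h3 : wt 10 (s.u z) * wt 10 w ≤ wt 10 (s.u x) := by
      rw [e1']
      exact wt_sub 10 _ _
    have h4 : wt 20 (s.u z) ≤ wt 10 (s.u z) := by
      rw [show (20 : ℕ) = 10 + 10 by norm_num, wt_add]
      exact mul_le_of_le_one_right hwz.le (wt_le_one 10 _)
    have h5 : wt 20 w = wt 10 w * wt 10 w := wt_add 10 10 w
    calc ‖fx φ s z‖ * ‖kk ψ s.k (x - z) - kk ψ s.k (y - z)‖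
        ≤ (A * hs s * wt 10 (s.u z)) *
          ((2 : ℝ) ^ (-s.k) * (B * ((2 : ℝ) ^ (-s.k) * |x - y|) * wt 20 w)) := by
          apply mul_le_mul _ h1 (norm_nonneg _) (by positivity)
          refine h2.trans ?_
          exact mul_le_mul_of_nonneg_left h4 (by positivity)
      _ = (A * hs s * B * ((2 : ℝ) ^ (-s.k) * |x - y|)) *
          (wt 10 (s.u z) * wt 10 w) * ((2 : ℝ) ^ (-s.k) * wt 10 w) := by
          rw [h5]
          ring
      _ ≤ (A * hs s * B * ((2 : ℝ) ^ (-s.k) * |x - y|)) *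
          wt 10 (s.u x) * ((2 : ℝ) ^ (-s.k) * wt 10 w) := by
          apply mul_le_mul_of_nonneg_right _ (by positivity)
          exact mul_le_mul_of_nonneg_left h3 (by positivity)
      _ = D * ((2 : ℝ) ^ (-s.k) * wt 10 w) := by rw [hD]
  refine (norm_integral_le_of_norm_le ((i1.const_mul _).const_mul _)
    (Eventually.of_forall hle)).trans ?_
  rw [integral_const_mul, integral_const_mul]
  have h6 : (2 : ℝ) ^ (-s.k) * ∫ z, wt 10 ((2 : ℝ) ^ (-s.k) * (x - z)) ≤ 2 := by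
    have := mul_le_mul_of_nonneg_left i2 hp.le
    have e := two_zpow_neg_mul s.k
    nlinarith
  calc D * ((2 : ℝ) ^ (-s.k) * ∫ z, wt 10 ((2 : ℝ) ^ (-s.k) * (x - z))) ≤ D * 2 :=
        mul_le_mul_of_nonneg_left h6 hD0
    _ = (2 * A * B) * (hs s * ((2 : ℝ) ^ (-s.k) * |x - y|) * wt 10 (s.u x)) := by
        rw [hD]
        ring
    _ ≤ (2 * |A| * B + 1) * (hs s * ((2 : ℝ) ^ (-s.k) * |x - y|) * wt 10 (s.u x)) := by
        apply mul_le_mul_of_nonneg_right _ (by positivity)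
        have := le_abs_self A
        nlinarith
    _ = (2 * |A| * B + 1) * hs s * ((2 : ℝ) ^ (-s.k) * |x - y|) * wt 10 (s.u x) := by ring

end Pool.Agent.CAR
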