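import Pool.Agent.CAR.STargets
import Pool.Agent.CAR.PK

set_option autoImplicit false

/-!
# CAR, target PRJ: modulated averages
-/

namespace Pool.Agent.CAR

open MeasureTheory Set ComplexConjugate
open scoped ENNReal NNReal

namespace PRJ_

/-- the pairs in the same cell -/
def SS (κ : ℝ → ℤ) : Set (ℝ × ℝ) := {p | p.2 ∈ Jx κ p.1}

/-- the kernel -/
noncomputable def kk (κ : ℝ → ℤ) (x y : ℝ) : ℝ :=
  (SS κ).indicator (fun p => (2 : ℝ) ^ (-(κ p.1))) (x, y)

theorem sym {κ : ℝ → ℤ} (hκ : ∀ x y, y ∈ Jx κ x → κ y = κ x) {x y : ℝ} (h : y ∈ Jx κ x) :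
    x ∈ Jx κ y := by
  have h1 := hκ x y h
  rw [Jx] at h ⊢
  rw [mem_dy] at h
  rw [mem_dy, h1, h]

theorem kk_sym {κ : ℝ → ℤ} (hκ : ∀ x y, y ∈ Jx κ x → κ y = κ x) (x y : ℝ) :
    kk κ x y = kk κ y x := by
  unfold kk
  by_cases h : y ∈ Jx κ x
  · have h' := sym hκ h
    rw [indicator_of_mem (show (x, y) ∈ SS κ from h),
      indicator_of_mem (show (y, x) ∈ SS κ from h')]
    simp only
    rw [hκ x y h]
  · have h' : x ∉ Jx κ y := fun h2 => h (sym hκ h2)
    rw [indicator_of_notMem (show (x, y) ∉ SS κ from h),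
      indicator_of_notMem (show (y, x) ∉ SS κ from h')]

theorem kk_eq (κ : ℝ → ℤ) (x : ℝ) :
    kk κ x = (Jx κ x).indicator (fun _ => (2 : ℝ) ^ (-(κ x))) := by
  funext y
  unfold kk
  by_cases h : y ∈ Jx κ x
  · rw [indicator_of_mem (show (x, y) ∈ SS κ from h), indicator_of_mem h]
  · rw [indicator_of_notMem (show (x, y) ∉ SS κ from h), indicator_of_notMem h]

theorem measurableSet_SS {κ : ℝ → ℤ} (hκ : Measurable κ) : MeasurableSet (SS κ) := by
  have e : SS κ = {p : ℝ × ℝ | ⌊(2 : ℝ) ^ (-(κ p.1)) * p.2⌋ = ⌊(2 : ℝ) ^ (-(κ p.1)) * p.1⌋} := by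
    ext p
    change p.2 ∈ Jx κ p.1 ↔ _
    rw [Jx, mem_dy]
    rfl
  rw [e]
  have h1 : Measurable (fun p : ℝ × ℝ => (2 : ℝ) ^ (-(κ p.1))) :=
    (measurable_from_top (f := fun n : ℤ => (2 : ℝ) ^ (-n))).comp (hκ.comp measurable_fst)
  exact measurableSet_eq_fun (h1.mul measurable_snd).floor (h1.mul measurable_fst).floor

theorem measurable_kk {κ : ℝ → ℤ} (hκ : Measurable κ) :
    Measurable (fun p : ℝ × ℝ => kk κ p.1 p.2) := by
  have h1 : Measurable (fun p : ℝ × ℝ => (2 : ℝ) ^ (-(κ p.1))) :=
    (measurable_from_top (f := fun n : ℤ => (2 : ℝ) ^ (-n))).comp (hκ.comp measurable_fst)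
  exact h1.indicator (measurableSet_SS hκ)

theorem measurableSet_Jx (κ : ℝ → ℤ) (x : ℝ) : MeasurableSet (Jx κ x) := measurableSet_dy _ _

theorem kk_nonneg (κ : ℝ → ℤ) (x y : ℝ) : 0 ≤ kk κ x y :=
  indicator_nonneg (fun _ _ => (two_zpow_pos _).le) _

theorem vol_Jx (κ : ℝ → ℤ) (x : ℝ) : vol (Jx κ x) = (2 : ℝ) ^ (κ x) := by
  rw [vol, Jx, volume_dy, ENNReal.toReal_ofReal (two_zpow_pos _).le]

theorem int_kk (κ : ℝ → ℤ) (x : ℝ) : ∫ y, kk κ x y = 1 := by
  rw [kk_eq, integral_indicator (measurableSet_Jx κ x), setIntegral_const]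
  have := vol_Jx κ x
  rw [vol] at this
  rw [smul_eq_mul, Measure.real, this]
  exact two_zpow_mul_neg _

theorem integrable_kk (κ : ℝ → ℤ) (x : ℝ) : Integrable (kk κ x) := by
  rw [kk_eq]
  apply (integrable_indicator_iff (measurableSet_Jx κ x)).2
  have h1 : volume (Jx κ x) ≠ ⊤ := by
    rw [Jx, volume_dy]
    exact ENNReal.ofReal_ne_top
  exact integrableOn_const (hs := h1) (hC := enorm_ne_top)

theorem kk_mem {κ : ℝ → ℤ} {x y : ℝ} (h : kk κ x y ≠ 0) : y ∈ Jx κ x := by
  by_contra h'
  exact h (indicator_of_notMem (show (x, y) ∉ SS κ from h') _)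

end PRJ_

open PRJ_ PK in
theorem p_PRJ : T_PRJ := by
  intro κ hκm hκ Q ξ F f hf hQ
  have hm := measurable_kk hκm
  have hme : Measurable (fun y : ℝ => e1 (-(y * ξ))) :=
    continuous_e1.measurable.comp (by fun_prop)
  have hme' : Measurable (fun y : ℝ => e1 (y * ξ)) :=
    continuous_e1.measurable.comp (by fun_prop)
  have hfe : Measurable (fun y : ℝ => f y * e1 (-(y * ξ))) := hf.m.mul hme
  have hK : Measurable (fun p : ℝ × ℝ => (kk κ p.1 p.2 : ℂ) * (f p.2 * e1 (-(p.2 * ξ)))) :=
    (Complex.measurable_ofReal.comp hm).mul (hfe.comp measurable_snd)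
  have hK1 : ∀ x, Integrable (fun y => (kk κ x y : ℂ) * (f y * e1 (-(y * ξ)))) := by
    intro x
    refine Integrable.mono' (integrable_kk κ x) ?_ (Filter.Eventually.of_forall fun y => ?_)
    · exact (hK.comp measurable_prodMk_left).aestronglyMeasurable
    · rw [norm_mul, norm_mul, norm_e1, mul_one, Complex.norm_real, Real.norm_eq_abs,
        abs_of_nonneg (kk_nonneg κ x y)]
      exact mul_le_of_le_one_right (kk_nonneg κ x y) (hf.bd y)
  refine ⟨fun x => e1 (x * ξ) * ∫ y, (kk κ x y : ℂ) * (f y * e1 (-(y * ξ))), ?_, ?_, ?_⟩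
  · exact hme'.mul (hK.stronglyMeasurable.integral_prod_right').measurable
  · intro x
    rw [norm_mul, norm_e1, one_mul]
    have h1 : ‖∫ y, (kk κ x y : ℂ) * (f y * e1 (-(y * ξ)))‖ ≤
        ∫ y, (F ∩ Jx κ x).indicator (fun _ => (2 : ℝ) ^ (-(κ x))) y := by
      apply norm_integral_le_of_norm_le
      · apply (integrable_indicator_iff (hf.mF.inter (measurableSet_Jx κ x))).2
        exact integrableOn_const (hs := ne_top_of_le_ne_top hf.fF (measure_mono inter_subset_left))
          (hC := enorm_ne_top)
      · refine Filter.Eventually.of_forall fun y => ?_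
        rw [norm_mul, norm_mul, norm_e1, mul_one, Complex.norm_real, Real.norm_eq_abs,
          abs_of_nonneg (kk_nonneg κ x y), kk_eq]
        by_cases hy : y ∈ F
        · by_cases hy' : y ∈ Jx κ x
          · rw [indicator_of_mem hy', indicator_of_mem (mem_inter hy hy')]
            exact mul_le_of_le_one_right (two_zpow_pos _).le (hf.bd y)
          · rw [indicator_of_notMem hy', zero_mul]
            exact indicator_nonneg (fun _ _ => (two_zpow_pos _).le) _
        · rw [hf.z y hy, norm_zero, mul_zero]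
          exact indicator_nonneg (fun _ _ => (two_zpow_pos _).le) _
    refine h1.trans ?_
    rw [integral_indicator (hf.mF.inter (measurableSet_Jx κ x)), setIntegral_const, smul_eq_mul]
    have h2 := hQ x
    rw [vol] at h2
    have h3 := mul_le_mul_of_nonneg_right h2 (two_zpow_pos (-(κ x))).le
    rw [mul_assoc, two_zpow_mul_neg, mul_one] at h3
    exact h3
  · intro ψ Θ hψc hψ hΘm hΘ0 hΘb hΘ
    obtain ⟨M, hM⟩ := hΘb
    set ψ1 : ℝ → ℂ := fun x => ψ x * e1 (-(x * ξ)) with hψ1
    have hψ1m : Measurable ψ1 := hψc.measurable.mul hme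
    have hcψ1 : ∀ x, conj (ψ1 x) = conj (ψ x) * e1 (x * ξ) := by
      intro x
      rw [hψ1]
      simp only
      rw [map_mul, conj_e1, neg_neg]
    have hee : ∀ x, e1 (-(x * ξ)) * e1 (x * ξ) = 1 := by
      intro x
      rw [← e1_add, neg_add_cancel, e1_zero]
    have hnψ : ∀ x, ‖conj (ψ1 x)‖ = ‖ψ x‖ := by
      intro x
      rw [hcψ1, norm_mul, norm_e1, mul_one, RCLike.norm_conj]
    have hcm : Measurable (fun x => conj (ψ1 x)) := Complex.continuous_conj.measurable.comp hψ1m
    have hcψi : Integrable (fun x => conj (ψ1 x)) := by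
      refine Integrable.mono' hψ.norm hcm.aestronglyMeasurable
        (Filter.Eventually.of_forall fun x => ?_)
      rw [hnψ]
    -- the double integral
    set G : ℝ → ℝ → ℂ := fun x y =>
      ((kk κ x y : ℂ) * (f y * e1 (-(y * ξ)))) * conj (ψ1 x) with hG
    have hGm : Measurable (Function.uncurry G) := hK.mul (hcm.comp measurable_fst)
    have hGn : ∀ x y, ‖G x y‖ ≤ kk κ x y * ‖ψ x‖ := by
      intro x y
      rw [hG]
      simp only
      rw [norm_mul, norm_mul, norm_mul, norm_e1, mul_one, Complex.norm_real, Real.norm_eq_abs,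
        abs_of_nonneg (kk_nonneg κ x y), hnψ]
      apply mul_le_mul_of_nonneg_right _ (norm_nonneg _)
      exact mul_le_of_le_one_right (kk_nonneg κ x y) (hf.bd y)
    have hGi : Integrable (Function.uncurry G) (volume.prod volume) := by
      rw [integrable_prod_iff hGm.aestronglyMeasurable]
      constructor
      · refine Filter.Eventually.of_forall fun x => ?_
        exact (hK1 x).mul_const (conj (ψ1 x))
      · refine Integrable.mono' hψ.norm ?_ (Filter.Eventually.of_forall fun x => ?_)
        · exact (hGm.norm.stronglyMeasurable.integral_prod_right').aestronglyMeasurable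
        · rw [Real.norm_eq_abs, abs_of_nonneg (integral_nonneg fun y => norm_nonneg _)]
          calc ∫ y, ‖Function.uncurry G (x, y)‖ ≤ ∫ y, kk κ x y * ‖ψ x‖ := by
                apply integral_mono_of_nonneg (Filter.Eventually.of_forall fun y => norm_nonneg _)
                · exact (integrable_kk κ x).mul_const _
                · exact Filter.Eventually.of_forall fun y => hGn x y
            _ = ‖ψ x‖ := by rw [integral_mul_const, int_kk, one_mul]
    have hswap := integral_integral_swap hGi
    have hL : ∫ x, (e1 (x * ξ) * ∫ y, (kk κ x y : ℂ) * (f y * e1 (-(y * ξ)))) * conj (ψ x) =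
        ∫ x, ∫ y, G x y := by
      apply integral_congr_ae
      refine Filter.Eventually.of_forall fun x => ?_
      simp only [hG]
      rw [integral_mul_const, hcψ1]
      ring
    rw [hL, hswap]
    have hR : ∀ y, ∫ x, G x y = (f y * e1 (-(y * ξ))) * ∫ x, (kk κ y x : ℂ) * conj (ψ1 x) := by
      intro y
      rw [← integral_const_mul]
      apply integral_congr_ae
      refine Filter.Eventually.of_forall fun x => ?_
      simp only [hG]
      rw [kk_sym hκ x y]
      ring
    have hA : ∀ y, f y * conj (ψ y) = (f y * e1 (-(y * ξ))) * conj (ψ1 y) := by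
      intro y
      rw [hcψ1]
      linear_combination (-(f y * conj (ψ y))) * hee y
    have hI1 : Integrable (fun y => (f y * e1 (-(y * ξ))) * conj (ψ1 y)) := by
      refine Integrable.mono' hψ.norm (hfe.mul hcm).aestronglyMeasurable
        (Filter.Eventually.of_forall fun y => ?_)
      rw [norm_mul, norm_mul, norm_e1, mul_one, hnψ]
      exact mul_le_of_le_one_left (norm_nonneg _) (hf.bd y)
    have hI2 : Integrable (fun y => ∫ x, G x y) := hGi.integral_prod_right
    simp only [hA]
    rw [← integral_sub hI1 hI2]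
    have hfin : ∫ x in F, Θ x = ∫ x, F.indicator Θ x := (integral_indicator hf.mF).symm
    rw [hfin]
    apply norm_integral_le_of_norm_le
    · apply (integrable_indicator_iff hf.mF).2
      refine Measure.integrableOn_of_bounded (M := M) hf.fF hΘm.aestronglyMeasurable ?_
      refine Filter.Eventually.of_forall fun x => ?_
      rw [Real.norm_eq_abs, abs_of_nonneg (hΘ0 x)]
      exact hM x
    · refine Filter.Eventually.of_forall fun y => ?_
      rw [hR y, ← mul_sub]
      by_cases hy : y ∈ F
      · rw [indicator_of_mem hy, norm_mul, norm_mul, norm_e1, mul_one]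
        refine le_trans (mul_le_of_le_one_left (norm_nonneg _) (hf.bd y)) ?_
        have hI3 : Integrable (fun x => (kk κ y x : ℂ)) := (integrable_kk κ y).ofReal
        have hI4 : Integrable (fun x => (kk κ y x : ℂ) * conj (ψ1 x)) := by
          refine Integrable.mono' ((hcψi.norm).const_mul ((2 : ℝ) ^ (-(κ y)))) ?_
            (Filter.Eventually.of_forall fun x => ?_)
          · exact ((Complex.measurable_ofReal.comp (hm.comp measurable_prodMk_left)).mul
              hcm).aestronglyMeasurable
          · rw [norm_mul, Complex.norm_real, Real.norm_eq_abs, abs_of_nonneg (kk_nonneg κ y x)]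
            apply mul_le_mul_of_nonneg_right _ (norm_nonneg _)
            rw [kk_eq]
            exact indicator_le_self' (fun _ _ => (two_zpow_pos _).le) x
        have e : conj (ψ1 y) - ∫ x, (kk κ y x : ℂ) * conj (ψ1 x) =
            ∫ x, (kk κ y x : ℂ) * (conj (ψ1 y) - conj (ψ1 x)) := by
          have e1 : conj (ψ1 y) = ∫ x, (kk κ y x : ℂ) * conj (ψ1 y) := by
            have e0 : ∫ x, (kk κ y x : ℂ) = 1 := by
              have := integral_ofReal (𝕜 := ℂ) (μ := (volume : Measure ℝ)) (f := kk κ y)
              rw [int_kk] at this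
              simpa using this
            rw [integral_mul_const, e0, one_mul]
          conv_lhs => rw [e1]
          rw [← integral_sub (hI3.mul_const _) hI4]
          apply integral_congr_ae
          refine Filter.Eventually.of_forall fun x => ?_
          simp only
          ring
        rw [e]
        calc ‖∫ x, (kk κ y x : ℂ) * (conj (ψ1 y) - conj (ψ1 x))‖
            ≤ ∫ x, kk κ y x * Θ y := by
              apply norm_integral_le_of_norm_le ((integrable_kk κ y).mul_const _)
              refine Filter.Eventually.of_forall fun x => ?_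
              rw [norm_mul, Complex.norm_real, Real.norm_eq_abs, abs_of_nonneg (kk_nonneg κ y x)]
              by_cases hk : kk κ y x = 0
              · rw [hk, zero_mul, zero_mul]
              · apply mul_le_mul_of_nonneg_left _ (kk_nonneg κ y x)
                rw [← map_sub, RCLike.norm_conj]
                exact hΘ y x (kk_mem hk)
          _ = Θ y := by rw [integral_mul_const, int_kk, one_mul]
      · rw [indicator_of_notMem hy, hf.z y hy]
        simp

end Pool.Agent.CAR
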