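import Pool.Agent.CAR.STargets

set_option autoImplicit false

/-!
# CAR: RA, restricted estimate for `|E| ≤ |F|`
-/

namespace Pool.Agent.CAR

open MeasureTheory Set ComplexConjugate
open scoped ENNReal NNReal

namespace RA_

/-- a bounded function with support of finite measure is integrable -/
theorem bf_int {F : Set ℝ} {f : ℝ → ℂ} (hf : BF 1 F f) : Integrable f := by
  have h1 : IntegrableOn f F := by
    refine Measure.integrableOn_of_bounded (M := 1) hf.fF hf.m.aestronglyMeasurable ?_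
    exact Filter.Eventually.of_forall hf.bd
  refine h1.integrable_of_forall_notMem_eq_zero fun x hx => hf.z x hx

theorem bf_sq {F : Set ℝ} {f : ℝ → ℂ} (hf : BF 1 F f) :
    Integrable (fun x => ‖f x‖ ^ 2) ∧ ∫ x, ‖f x‖ ^ 2 ≤ vol F := by
  have hm : Measurable (fun x => ‖f x‖ ^ 2) := hf.m.norm.pow_const 2
  have hb : ∀ x, ‖‖f x‖ ^ 2‖ ≤ 1 := by
    intro x
    rw [Real.norm_of_nonneg (by positivity)]
    exact pow_le_one₀ (norm_nonneg _) (hf.bd x)
  have hz : ∀ x, x ∉ F → ‖f x‖ ^ 2 = 0 := by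
    intro x hx
    rw [hf.z x hx]
    simp
  have h1 : IntegrableOn (fun x => ‖f x‖ ^ 2) F := by
    refine Measure.integrableOn_of_bounded (M := 1) hf.fF hm.aestronglyMeasurable ?_
    exact Filter.Eventually.of_forall hb
  have h2 : Integrable (fun x => ‖f x‖ ^ 2) :=
    h1.integrable_of_forall_notMem_eq_zero hz
  refine ⟨h2, ?_⟩
  have h3 : ∫ x, ‖f x‖ ^ 2 = ∫ x in F, ‖f x‖ ^ 2 :=
    (setIntegral_eq_integral_of_forall_compl_eq_zero hz).symm
  rw [h3]
  have h4 : ∫ x in F, ‖f x‖ ^ 2 ≤ ∫ x in F, (1 : ℝ) := by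
    refine setIntegral_mono h1 ?_ fun x => ?_
    · exact integrableOn_const hf.fF
    · exact pow_le_one₀ (norm_nonneg _) (hf.bd x)
  refine h4.trans (le_of_eq ?_)
  rw [setIntegral_const, smul_eq_mul, mul_one]
  rfl

theorem av_zero {E : Set ℝ} {b : ℝ → ℂ} (hb : BF 1 E b) (hE : vol E = 0) (φ : ℝ → ℂ)
    (N : ℝ → ℝ) (s : Tile) : av φ b N s = 0 := by
  have h0 : volume E = 0 := by
    have h1 : volume E = 0 ∨ volume E = ⊤ := (ENNReal.toReal_eq_zero_iff _).1 hE
    rcases h1 with h1 | h1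
    · exact h1
    · exact absurd h1 hb.fF
  have h2 : ∀ᵐ x, x ∉ E := by
    rw [ae_iff]
    simpa using h0
  unfold av
  rw [integral_eq_zero_of_ae]
  refine ae_restrict_of_ae ?_
  filter_upwards [h2] with x hx
  show b x * fx φ s x = 0
  rw [hb.z x hx, zero_mul]

theorem log_bound {r e0 : ℝ} (hr : 1 ≤ r) (he : 1 ≤ e0) :
    1 + Real.log (1 + r / e0) ≤ 3 * Real.sqrt r := by
  have h1 : r / e0 ≤ r := div_le_self (by linarith) he
  have h0 : 0 ≤ r / e0 := by positivity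
  have h2 : Real.log (1 + r / e0) ≤ Real.log (1 + r) :=
    Real.log_le_log (by linarith) (by linarith)
  have h3 : Real.log (1 + r) ≤ 2 * (Real.sqrt (1 + r) - 1) := by
    have h4 : 0 < Real.sqrt (1 + r) := Real.sqrt_pos.2 (by linarith)
    have h5 := Real.log_le_sub_one_of_pos h4
    rw [Real.log_sqrt (by linarith)] at h5
    linarith
  have h6 : Real.sqrt (1 + r) ≤ 3 / 2 * Real.sqrt r := by
    rw [Real.sqrt_le_left (by positivity), mul_pow, Real.sq_sqrt (by linarith)]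
    linarith
  linarith

theorem final_eq {V W : ℝ} (hV : 0 < V) :
    V * Real.sqrt (Real.sqrt (W / V)) = Real.sqrt (V * Real.sqrt (V * W)) := by
  have h1 : 0 ≤ V * Real.sqrt (Real.sqrt (W / V)) := by positivity
  rw [← Real.sqrt_sq h1]
  congr 1
  rw [mul_pow, Real.sq_sqrt (Real.sqrt_nonneg _)]
  have h2 : Real.sqrt (V * W) = V * Real.sqrt (W / V) := by
    rw [← Real.sqrt_sq hV.le, ← Real.sqrt_mul (by positivity), Real.sqrt_sq hV.le]
    congr 1
    field_simp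
  rw [h2]
  ring

end RA_

open RA_ in
theorem p_RA (hTRF : T_TRF) (hENB : T_ENB) (hSUM2 : T_SUM2) : T_RA := by
  intro A
  obtain ⟨C1, hC1, hE1⟩ := hENB A
  obtain ⟨C2, hC2, hS2⟩ := hSUM2 A
  have hs1 : 0 ≤ Real.sqrt C1 := Real.sqrt_nonneg _
  set e0 : ℝ := Real.sqrt C1 + 1 with he0
  have he1 : 1 ≤ e0 := by linarith
  refine ⟨C2 * e0 * 3, by positivity, ?_⟩
  intro φ Φ hW f b N F E hf hb hN hEF S
  have hVE : 0 ≤ vol E := ENNReal.toReal_nonneg
  rcases hVE.eq_or_lt with hV | hV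
  · have h1 : ∑ s ∈ S, ‖cf φ f s‖ * ‖av φ b N s‖ = 0 := by
      refine Finset.sum_eq_zero fun s _ => ?_
      rw [av_zero hb hV.symm, norm_zero, mul_zero]
    rw [h1]
    positivity
  have hFp : 0 < vol F := lt_of_lt_of_le hV hEF
  obtain ⟨hfs, hfv⟩ := bf_sq hf
  obtain ⟨g, hmg, hig, hsg, hn, hco⟩ := hTRF A φ Φ hW f hf.m (bf_int hf) hfs S
  have hD : Dat g b N E :=
    { mg := hmg, ig := hig, sg := hsg, mb := hb.m, bE := fun x _ => hb.bd x, b0 := hb.z,
      mN := hN, mE := hb.mF, fE := hb.fF }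
  set r : ℝ := Real.sqrt (vol F / vol E) with hr
  have hr1 : 1 ≤ r := by
    rw [hr, Real.one_le_sqrt, le_div_iff₀ hV, one_mul]
    exact hEF
  have hn2 : n2 g ≤ r * Real.sqrt (vol E) := by
    have h1 : n2 f ≤ Real.sqrt (vol F) := Real.sqrt_le_sqrt hfv
    have h2 : r * Real.sqrt (vol E) = Real.sqrt (vol F) := by
      rw [hr, ← Real.sqrt_mul (by positivity), div_mul_cancel₀ _ hV.ne']
    rw [h2]
    exact hn.trans h1
  have hcc : ∀ s ∈ S, cc Φ g s = ‖cf φ f s‖ := by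
    intro s hs
    unfold cc
    rw [hco s hs]
  have hEn : En (cc Φ g) S e0 := by
    intro T K Λ ξ hT hP
    have h1 := hE1 φ Φ hW f 1 hf.m zero_le_one hf.bd T K Λ ξ hP
    have h2 : ∑ s ∈ T, cc Φ g s ^ 2 = ∑ s ∈ T, ‖cf φ f s‖ ^ 2 :=
      Finset.sum_congr rfl fun s hs => by rw [hcc s (hT hs)]
    rw [h2]
    refine h1.trans ?_
    rw [one_pow, mul_one]
    refine mul_le_mul_of_nonneg_right ?_ (two_zpow_pos K).le
    have h3 : C1 = Real.sqrt C1 ^ 2 := (Real.sq_sqrt hC1.le).symm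
    rw [h3]
    exact pow_le_pow_left₀ hs1 (by linarith) 2
  have hmain := hS2 φ Φ g b N E hW hD S r e0 (by linarith) (by linarith) hn2 hEn
  have hl := log_bound hr1 he1
  have h3 : ∑ s ∈ S, ‖cf φ f s‖ * ‖av φ b N s‖ = ∑ s ∈ S, cc Φ g s * ‖av φ b N s‖ :=
    Finset.sum_congr rfl fun s hs => by rw [hcc s hs]
  rw [h3]
  refine hmain.trans ?_
  have h4 : C2 * vol E * e0 * (1 + Real.log (1 + r / e0)) ≤
      C2 * vol E * e0 * (3 * Real.sqrt r) :=
    mul_le_mul_of_nonneg_left hl (by positivity)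
  refine h4.trans (le_of_eq ?_)
  rw [← final_eq hV]
  ring

end Pool.Agent.CAR
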