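import Pool.Agent.CAR.STargets
import Pool.Agent.CAR.P_FXB

set_option autoImplicit false

/-!
# CAR, strong type: restricted estimate, `vol F ≤ vol E`
-/

namespace Pool.Agent.CAR

open MeasureTheory Set ComplexConjugate
open scoped ENNReal NNReal

namespace RB_

/-! ### functions bounded by an indicator -/

theorem bf_integrable {F : Set ℝ} {f : ℝ → ℂ} (h : BF 1 F f) : Integrable f := by
  have h1 : Integrable (F.indicator (fun _ => (1 : ℝ))) :=
    (integrable_indicator_iff h.mF).2 (integrableOn_const h.fF)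
  refine h1.mono' h.m.aestronglyMeasurable (Filter.Eventually.of_forall fun x => ?_)
  by_cases hx : x ∈ F
  · rw [indicator_of_mem hx]
    exact h.bd x
  · rw [indicator_of_notMem hx, h.z x hx, norm_zero]

theorem bf_sq {F : Set ℝ} {f : ℝ → ℂ} (h : BF 1 F f) (x : ℝ) :
    ‖f x‖ ^ 2 ≤ F.indicator (fun _ => (1 : ℝ)) x := by
  by_cases hx : x ∈ F
  · rw [indicator_of_mem hx]
    have h1 := h.bd x
    have h2 := norm_nonneg (f x)
    nlinarith
  · rw [indicator_of_notMem hx, h.z x hx, norm_zero]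
    norm_num

theorem bf_integrable_sq {F : Set ℝ} {f : ℝ → ℂ} (h : BF 1 F f) :
    Integrable (fun x => ‖f x‖ ^ 2) := by
  have h1 : Integrable (F.indicator (fun _ => (1 : ℝ))) :=
    (integrable_indicator_iff h.mF).2 (integrableOn_const h.fF)
  refine h1.mono' (h.m.norm.pow_const 2).aestronglyMeasurable
    (Filter.Eventually.of_forall fun x => ?_)
  rw [Real.norm_of_nonneg (by positivity)]
  exact bf_sq h x

theorem bf_n2 {F : Set ℝ} {f : ℝ → ℂ} (h : BF 1 F f) : n2 f ≤ Real.sqrt (vol F) := by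
  refine Real.sqrt_le_sqrt ?_
  have h1 : Integrable (F.indicator (fun _ => (1 : ℝ))) :=
    (integrable_indicator_iff h.mF).2 (integrableOn_const h.fF)
  calc ∫ x, ‖f x‖ ^ 2 ≤ ∫ x, F.indicator (fun _ => (1 : ℝ)) x :=
        integral_mono (bf_integrable_sq h) h1 (bf_sq h)
    _ = vol F := by
        rw [integral_indicator h.mF, setIntegral_const, smul_eq_mul, mul_one]
        rfl

theorem bf_ae_zero {F : Set ℝ} {f : ℝ → ℂ} (h : BF 1 F f) (h0 : vol F = 0) :
    f =ᵐ[volume] 0 := by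
  have h1 : volume F = 0 := by
    have h2 := (ENNReal.toReal_eq_zero_iff _).1 h0
    rcases h2 with h2 | h2
    · exact h2
    · exact absurd h2 h.fF
  rw [Filter.EventuallyEq, ae_iff]
  refine measure_mono_null (fun x hx => ?_) h1
  by_contra hxF
  exact hx (h.z x hxF)

theorem cf_zero {F : Set ℝ} {f φ : ℝ → ℂ} (h : BF 1 F f) (h0 : vol F = 0) (s : Tile) :
    cf φ f s = 0 := by
  unfold cf
  have h1 : (fun x => f x * conj (fx φ s x)) =ᵐ[volume] fun _ => 0 := by
    filter_upwards [bf_ae_zero h h0] with x hx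
    rw [hx]
    simp
  rw [integral_congr_ae h1, integral_zero]

theorem bf_ind {E : Set ℝ} {b : ℝ → ℂ} (h : BF 1 E b) {G : Set ℝ} (hG : MeasurableSet G) :
    BF 1 (E ∩ G) (G.indicator b) := by
  refine ⟨h.m.indicator hG, h.mF.inter hG, ?_, h.h0, fun x => ?_, fun x hx => ?_⟩
  · exact ne_top_of_le_ne_top h.fF (measure_mono inter_subset_left)
  · by_cases hx : x ∈ G
    · rw [indicator_of_mem hx]
      exact h.bd x
    · rw [indicator_of_notMem hx, norm_zero]
      exact h.h0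
  · by_cases hxG : x ∈ G
    · rw [indicator_of_mem hxG]
      exact h.z x (fun hxE => hx ⟨hxE, hxG⟩)
    · exact indicator_of_notMem hxG _

theorem av_split {A : ℝ} {φ Φ b : ℝ → ℂ} {N : ℝ → ℝ} {E G : Set ℝ} (hW : WPk A φ Φ)
    (h : BF 1 E b) (hG : MeasurableSet G) (s : Tile) :
    ‖av φ b N s‖ ≤ ‖av φ (Gᶜ.indicator b) N s‖ + ‖av φ (G.indicator b) N s‖ := by
  have hfx := (p_FXB A φ Φ hW s).2.2.2.2.2.1
  have hint : ∀ b' : ℝ → ℂ, Measurable b' → (∀ x, ‖b' x‖ ≤ 1) →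
      Integrable (fun x => b' x * fx φ s x) (volume.restrict (N ⁻¹' s.up)) := by
    intro b' hb' hb1
    refine Integrable.restrict ?_
    exact hfx.bdd_mul (c := 1) hb'.aestronglyMeasurable (Filter.Eventually.of_forall hb1)
  have h1 := bf_ind h hG
  have h2 := bf_ind h hG.compl
  have e : av φ b N s = av φ (Gᶜ.indicator b) N s + av φ (G.indicator b) N s := by
    unfold av
    rw [← integral_add (hint _ h2.m h2.bd) (hint _ h1.m h1.bd)]
    refine integral_congr_ae (Filter.Eventually.of_forall fun x => ?_)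
    show b x * fx φ s x = Gᶜ.indicator b x * fx φ s x + G.indicator b x * fx φ s x
    by_cases hx : x ∈ G
    · rw [indicator_of_mem hx, indicator_of_notMem (by simpa using hx), zero_mul, zero_add]
    · rw [indicator_of_notMem hx, indicator_of_mem (by simpa using hx), zero_mul, add_zero]
  rw [e]
  exact norm_add_le _ _

/-! ### real numbers -/

theorem log_bound {y : ℝ} (hy : 0 ≤ y) : Real.log (1 + y) ≤ 2 * Real.sqrt y := by
  have h1 : (0 : ℝ) < 1 + y := by linarith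
  have h2 : Real.log (Real.sqrt (1 + y)) ≤ Real.sqrt (1 + y) - 1 :=
    Real.log_le_sub_one_of_pos (Real.sqrt_pos.2 h1)
  rw [Real.log_sqrt h1.le] at h2
  have h3 : Real.sqrt (1 + y) ≤ 1 + Real.sqrt y := by
    rw [Real.sqrt_le_left (by positivity)]
    have := Real.sq_sqrt hy
    nlinarith [Real.sqrt_nonneg y]
  linarith

/-- `X = vf √t`, `t = √(ve / vf)` -/
theorem X_eq {vf ve : ℝ} (hf : 0 < vf) (he : 0 < ve) :
    Real.sqrt (vf * Real.sqrt (ve * vf)) = vf * Real.sqrt (Real.sqrt (ve / vf)) := by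
  have h1 : Real.sqrt (ve * vf) = vf * Real.sqrt (ve / vf) := by
    rw [show ve * vf = vf ^ 2 * (ve / vf) by field_simp, Real.sqrt_mul (by positivity),
      Real.sqrt_sq hf.le]
  rw [h1, show vf * (vf * Real.sqrt (ve / vf)) = vf ^ 2 * Real.sqrt (ve / vf) by ring,
    Real.sqrt_mul (by positivity), Real.sqrt_sq hf.le]

theorem X_mono {vf ve ve' : ℝ} (hf : 0 ≤ vf) (h : ve ≤ ve') :
    Real.sqrt (vf * Real.sqrt (ve * vf)) ≤ Real.sqrt (vf * Real.sqrt (ve' * vf)) := by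
  refine Real.sqrt_le_sqrt (mul_le_mul_of_nonneg_left (Real.sqrt_le_sqrt ?_) hf)
  exact mul_le_mul_of_nonneg_right h hf

theorem X_half {vf ve : ℝ} :
    Real.sqrt (vf * Real.sqrt (ve / 16 * vf)) = Real.sqrt (vf * Real.sqrt (ve * vf)) / 2 := by
  have h1 : Real.sqrt (ve / 16 * vf) = Real.sqrt (ve * vf) / 4 := by
    rw [show ve / 16 * vf = (ve * vf) / 4 ^ 2 by ring, Real.sqrt_div' _ (by norm_num),
      Real.sqrt_sq (by norm_num)]
  rw [h1, show vf * (Real.sqrt (ve * vf) / 4) = vf * Real.sqrt (ve * vf) / 2 ^ 2 by ring,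
    Real.sqrt_div' _ (by norm_num), Real.sqrt_sq (by norm_num)]

theorem X_ge {vf ve : ℝ} (hf : 0 ≤ vf) (h : vf ≤ ve) :
    vf ≤ Real.sqrt (vf * Real.sqrt (ve * vf)) := by
  calc vf = Real.sqrt (vf * Real.sqrt (vf * vf)) := by
        rw [Real.sqrt_mul_self hf, Real.sqrt_mul_self hf]
    _ ≤ _ := X_mono hf h

/-- the bound for the light tiles -/
theorem light {C1 C2 C3 vf ve : ℝ} (h1 : 0 < C1) (h2 : 0 < C2) (h3 : 0 < C3) (hf : 0 < vf)
    (h : vf ≤ ve) :
    C3 * ve * (Real.sqrt C2 * (16 * C1 * vf / ve)) *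
      (1 + Real.log (1 + Real.sqrt (vf / ve) / (Real.sqrt C2 * (16 * C1 * vf / ve)))) ≤
    16 * C1 * C3 * Real.sqrt C2 * (1 + 2 / Real.sqrt (16 * C1 * Real.sqrt C2)) *
      Real.sqrt (vf * Real.sqrt (ve * vf)) := by
  have he : 0 < ve := lt_of_lt_of_le hf h
  have hs2 : 0 < Real.sqrt C2 := Real.sqrt_pos.2 h2
  rw [X_eq hf he]
  set t := Real.sqrt (ve / vf) with ht
  have htpos : 0 < t := Real.sqrt_pos.2 (by positivity)
  have ht1 : 1 ≤ t := by
    rw [ht, Real.one_le_sqrt, one_le_div hf]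
    exact h
  have hts : 1 ≤ Real.sqrt t := by
    rw [Real.one_le_sqrt]
    exact ht1
  have e1 : Real.sqrt (vf / ve) = t⁻¹ := by
    rw [ht, ← Real.sqrt_inv, inv_div]
  have e2 : ve / vf = t ^ 2 := by
    rw [ht, Real.sq_sqrt (by positivity)]
  have e3 : Real.sqrt (vf / ve) / (Real.sqrt C2 * (16 * C1 * vf / ve)) =
      t / (16 * C1 * Real.sqrt C2) := by
    rw [e1]
    have e4 : 16 * C1 * vf / ve = 16 * C1 / t ^ 2 := by
      rw [← e2]
      field_simp
    rw [e4]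
    field_simp
  rw [e3]
  have e5 : C3 * ve * (Real.sqrt C2 * (16 * C1 * vf / ve)) = 16 * C1 * C3 * Real.sqrt C2 * vf := by
    field_simp
  rw [e5]
  have hlog := log_bound (y := t / (16 * C1 * Real.sqrt C2)) (by positivity)
  rw [Real.sqrt_div htpos.le] at hlog
  have hfin : 1 + Real.log (1 + t / (16 * C1 * Real.sqrt C2)) ≤
      (1 + 2 / Real.sqrt (16 * C1 * Real.sqrt C2)) * Real.sqrt t := by
    have : 2 * (Real.sqrt t / Real.sqrt (16 * C1 * Real.sqrt C2)) =
      2 / Real.sqrt (16 * C1 * Real.sqrt C2) * Real.sqrt t := by ring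
    rw [this] at hlog
    linarith
  calc 16 * C1 * C3 * Real.sqrt C2 * vf * (1 + Real.log (1 + t / (16 * C1 * Real.sqrt C2)))
      ≤ 16 * C1 * C3 * Real.sqrt C2 * vf *
        ((1 + 2 / Real.sqrt (16 * C1 * Real.sqrt C2)) * Real.sqrt t) :=
        mul_le_mul_of_nonneg_left hfin (by positivity)
    _ = _ := by ring

/-- light tiles -/
theorem lightS (hTRF : T_TRF) {A C1 C2 C3 : ℝ} (h1 : 0 < C1) (h2 : 0 < C2) (h3 : 0 < C3)
    (hENF : ∀ φ Φ : ℝ → ℂ, WPk A φ Φ → ∀ (F : Set ℝ) (f : ℝ → ℂ) (lam : ℝ), BF 1 F f →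
      0 < lam → ∀ (T : Finset Tile) (K Λ : ℤ) (ξ : ℝ), PTree T K Λ ξ →
      (∀ s ∈ T, ∀ k l : ℤ, s.I ⊆ dy k l → ¬ heavy lam F k l) →
        ∑ s ∈ T, ‖cf φ f s‖ ^ 2 ≤ C2 * lam ^ 2 * (2 : ℝ) ^ K)
    (hSUM2 : ∀ (φ Φ g b : ℝ → ℂ) (N : ℝ → ℝ) (E : Set ℝ),
      WPk A φ Φ → Dat g b N E → ∀ (S : Finset Tile) (r e0 : ℝ), 0 < r → 0 < e0 →
      n2 g ≤ r * Real.sqrt (vol E) → En (cc Φ g) S e0 →
        ∑ s ∈ S, cc Φ g s * ‖av φ b N s‖ ≤ C3 * vol E * e0 * (1 + Real.log (1 + r / e0)))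
    {φ Φ : ℝ → ℂ} (hW : WPk A φ Φ) {f b : ℝ → ℂ} {N : ℝ → ℝ} {F E : Set ℝ} (hf : BF 1 F f)
    (hb : BF 1 E b) (hN : Measurable N) (hvF : 0 < vol F) (h : vol F ≤ vol E) (S : Finset Tile)
    (hS : ∀ s ∈ S, ∀ k l : ℤ, s.I ⊆ dy k l → ¬ heavy (16 * C1 * vol F / vol E) F k l) :
    ∑ s ∈ S, ‖cf φ f s‖ * ‖av φ b N s‖ ≤
      16 * C1 * C3 * Real.sqrt C2 * (1 + 2 / Real.sqrt (16 * C1 * Real.sqrt C2)) *
        Real.sqrt (vol F * Real.sqrt (vol E * vol F)) := by
  obtain ⟨g, hgm, hgi, hgs, hg2, hgc⟩ :=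
    hTRF A φ Φ hW f hf.m (bf_integrable hf) (bf_integrable_sq hf) S
  have hvE : 0 < vol E := lt_of_lt_of_le hvF h
  have hD : Dat g b N E := ⟨hgm, hgi, hgs, hb.m, fun x _ => hb.bd x, hb.z, hN, hb.mF, hb.fF⟩
  have hl : 0 < 16 * C1 * vol F / vol E := by positivity
  have hs2 : 0 < Real.sqrt C2 := Real.sqrt_pos.2 h2
  have hEn : En (cc Φ g) S (Real.sqrt C2 * (16 * C1 * vol F / vol E)) := by
    intro T K Λ ξ hTS hT
    have h4 := hENF φ Φ hW F f _ hf hl T K Λ ξ hT (fun s hs => hS s (hTS hs))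
    calc ∑ s ∈ T, cc Φ g s ^ 2 = ∑ s ∈ T, ‖cf φ f s‖ ^ 2 :=
          Finset.sum_congr rfl fun s hs => by rw [cc, hgc s (hTS hs)]
      _ ≤ _ := h4
      _ = _ := by rw [mul_pow, Real.sq_sqrt h2.le]
  have hr : n2 g ≤ Real.sqrt (vol F / vol E) * Real.sqrt (vol E) := by
    rw [← Real.sqrt_mul (by positivity), div_mul_cancel₀ _ hvE.ne']
    exact hg2.trans (bf_n2 hf)
  have h5 := hSUM2 φ Φ g b N E hW hD S (Real.sqrt (vol F / vol E))
    (Real.sqrt C2 * (16 * C1 * vol F / vol E)) (Real.sqrt_pos.2 (by positivity))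
    (by positivity) hr hEn
  calc ∑ s ∈ S, ‖cf φ f s‖ * ‖av φ b N s‖ = ∑ s ∈ S, cc Φ g s * ‖av φ b N s‖ :=
        Finset.sum_congr rfl fun s hs => by rw [cc, hgc s hs]
    _ ≤ _ := h5
    _ ≤ _ := light h1 h2 h3 hvF h

end RB_

open RB_ in
open Classical in
theorem p_RB (hTRF : T_TRF) (hENF : T_ENF) (hSUM2 : T_SUM2) (hEXC : T_EXC) (hTAI : T_TAI)
    (hRA : T_RA) : T_RB := by
  intro A
  obtain ⟨C1, h1, hEXC⟩ := hEXC
  obtain ⟨C2, h2, hENF⟩ := hENF A
  obtain ⟨C3, h3, hSUM2⟩ := hSUM2 A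
  obtain ⟨C5, h5, hTAI⟩ := hTAI A
  obtain ⟨C6, h6, hRA⟩ := hRA A
  obtain ⟨C4, hC4⟩ : ∃ C4, C4 =
    16 * C1 * C3 * Real.sqrt C2 * (1 + 2 / Real.sqrt (16 * C1 * Real.sqrt C2)) := ⟨_, rfl⟩
  have h4 : 0 < C4 := by
    have : 0 < Real.sqrt C2 := Real.sqrt_pos.2 h2
    rw [hC4]
    positivity
  refine ⟨2 * (C4 + C5 + C6), by positivity, ?_⟩
  intro φ Φ hW f b N F E hf hb hN hFE S
  rcases (ENNReal.toReal_nonneg : 0 ≤ vol F).eq_or_lt with h0 | hvF
  · have : ∑ s ∈ S, ‖cf φ f s‖ * ‖av φ b N s‖ = 0 :=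
      Finset.sum_eq_zero fun s _ => by rw [cf_zero hf h0.symm s, norm_zero, zero_mul]
    rw [this]
    positivity
  change 0 < vol F at hvF
  have key : ∀ n : ℕ, ∀ (b : ℝ → ℂ) (E : Set ℝ), BF 1 E b → vol F ≤ vol E →
      vol E ≤ 16 ^ n * vol F → ∀ S : Finset Tile, ∑ s ∈ S, ‖cf φ f s‖ * ‖av φ b N s‖ ≤
        2 * (C4 + C5 + C6) * Real.sqrt (vol F * Real.sqrt (vol E * vol F)) := by
    intro n
    induction n with
    | zero =>
      intro b E hb hFE hEn S
      rw [pow_zero, one_mul] at hEn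
      have e : vol E = vol F := le_antisymm hEn hFE
      have h7 := hRA φ Φ hW f b N F E hf hb hN hEn S
      rw [e] at h7 ⊢
      exact h7.trans (mul_le_mul_of_nonneg_right (by linarith) (Real.sqrt_nonneg _))
    | succ n ih =>
      intro b E hb hFE hEn S
      have hvE : 0 < vol E := lt_of_lt_of_le hvF hFE
      obtain ⟨lam, hlam⟩ : ∃ lam, lam = 16 * C1 * vol F / vol E := ⟨_, rfl⟩
      have hl : 0 < lam := by rw [hlam]; positivity
      obtain ⟨hGm, hGv⟩ := hEXC lam F hf.mF hf.fF hl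
      have hGv' : volume (GG lam F) ≤ ENNReal.ofReal (vol E / 16) := by
        refine hGv.trans (le_of_eq ?_)
        congr 1
        rw [hlam]
        field_simp
      have hXF := X_ge hvF.le hFE
      have hhalf := X_half (vf := vol F) (ve := vol E)
      have hXnn : 0 ≤ Real.sqrt (vol F * Real.sqrt (vol E * vol F)) := Real.sqrt_nonneg _
      obtain ⟨P, hP⟩ : ∃ P : Tile → Prop,
        P = fun s => ∃ k l : ℤ, s.I ⊆ dy k l ∧ heavy lam F k l := ⟨_, rfl⟩
      rw [← Finset.sum_filter_add_sum_filter_not S P]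
      have hlight : ∑ s ∈ S.filter (fun s => ¬ P s), ‖cf φ f s‖ * ‖av φ b N s‖ ≤
          C4 * Real.sqrt (vol F * Real.sqrt (vol E * vol F)) := by
        rw [hC4]
        refine lightS hTRF h1 h2 h3 hENF hSUM2 hW hf hb hN hvF hFE _ ?_
        intro s hs k l hsub hh
        rw [← hlam] at hh
        apply (Finset.mem_filter.1 hs).2
        rw [hP]
        exact ⟨k, l, hsub, hh⟩
      have hb1 := bf_ind hb hGm.compl
      have hb2 := bf_ind hb hGm
      have hheavy : ∑ s ∈ S.filter P, ‖cf φ f s‖ * ‖av φ b N s‖ ≤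
          ∑ s ∈ S.filter P, ‖cf φ f s‖ * ‖av φ ((GG lam F)ᶜ.indicator b) N s‖ +
          ∑ s ∈ S.filter P, ‖cf φ f s‖ * ‖av φ ((GG lam F).indicator b) N s‖ := by
        rw [← Finset.sum_add_distrib]
        refine Finset.sum_le_sum fun s _ => ?_
        rw [← mul_add]
        exact mul_le_mul_of_nonneg_left (av_split hW hb hGm s) (norm_nonneg _)
      have hfirst : ∑ s ∈ S.filter P, ‖cf φ f s‖ * ‖av φ ((GG lam F)ᶜ.indicator b) N s‖ ≤
          C5 * Real.sqrt (vol F * Real.sqrt (vol E * vol F)) := by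
        refine (hTAI φ Φ hW f _ N F _ lam hf hb1 hN hl (fun x hx => hx.2) _
          (fun s hs => ?_)).trans ?_
        · have := (Finset.mem_filter.1 hs).2
          rwa [hP] at this
        · exact mul_le_mul_of_nonneg_left hXF h5.le
      have hvE1 : vol (E ∩ GG lam F) ≤ vol E / 16 := by
        have h8 : volume (E ∩ GG lam F) ≤ ENNReal.ofReal (vol E / 16) :=
          (measure_mono inter_subset_right).trans hGv'
        exact ENNReal.toReal_le_of_le_ofReal (by positivity) h8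
      have hsecond : ∑ s ∈ S.filter P, ‖cf φ f s‖ * ‖av φ ((GG lam F).indicator b) N s‖ ≤
          C6 * Real.sqrt (vol F * Real.sqrt (vol E * vol F)) +
          (C4 + C5 + C6) * Real.sqrt (vol F * Real.sqrt (vol E * vol F)) := by
        rcases le_total (vol (E ∩ GG lam F)) (vol F) with h9 | h9
        · have h10 := hRA φ Φ hW f _ N F _ hf hb2 hN h9 (S.filter P)
          have h11 : Real.sqrt (vol (E ∩ GG lam F) * Real.sqrt (vol (E ∩ GG lam F) * vol F)) ≤
              Real.sqrt (vol F * Real.sqrt (vol E * vol F)) :=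
            Real.sqrt_le_sqrt (mul_le_mul h9 (Real.sqrt_le_sqrt
              (mul_le_mul_of_nonneg_right (h9.trans hFE) hvF.le)) (Real.sqrt_nonneg _) hvF.le)
          have h12 := mul_le_mul_of_nonneg_left h11 h6.le
          have h13 : 0 ≤ (C4 + C5 + C6) * Real.sqrt (vol F * Real.sqrt (vol E * vol F)) := by
            positivity
          linarith
        · have h10 := ih _ _ hb2 h9 (by rw [pow_succ] at hEn; linarith) (S.filter P)
          have h11 := X_mono hvF.le hvE1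
          rw [hhalf] at h11
          have h12 := mul_le_mul_of_nonneg_left h11
            (show (0 : ℝ) ≤ 2 * (C4 + C5 + C6) by positivity)
          have h13 : 0 ≤ C6 * Real.sqrt (vol F * Real.sqrt (vol E * vol F)) := by
            positivity
          have h14 : 2 * (C4 + C5 + C6) * (Real.sqrt (vol F * Real.sqrt (vol E * vol F)) / 2) =
            (C4 + C5 + C6) * Real.sqrt (vol F * Real.sqrt (vol E * vol F)) := by ring
          linarith
      linarith
  obtain ⟨n, hn⟩ := pow_unbounded_of_one_lt (vol E / vol F) (by norm_num : (1 : ℝ) < 16)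
  refine key n b E hb hFE ?_ S
  rw [div_lt_iff₀ hvF] at hn
  exact hn.le

end Pool.Agent.CAR
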