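import Pool.Agent.CAR.Targets

/-!
# CAR, REP: convolution with the cut-off kernel
-/

set_option autoImplicit false

namespace Pool.Agent.CAR

open MeasureTheory Set ComplexConjugate
open scoped ENNReal NNReal

namespace REP_

theorem norm_e1 (x : ℝ) : ‖e1 x‖ = 1 := by
  unfold e1
  rw [show 2 * (Real.pi : ℂ) * Complex.I * (x : ℂ) = ((2 * Real.pi * x : ℝ) : ℂ) * Complex.I by
    push_cast
    ring]
  exact Complex.norm_exp_ofReal_mul_I _

theorem e1_add (x y : ℝ) : e1 (x + y) = e1 x * e1 y := by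
  unfold e1
  rw [← Complex.exp_add]
  congr 1
  push_cast
  ring

theorem cont_e1 : Continuous e1 := by
  unfold e1
  fun_prop

theorem kr_cont {B : ℝ} {χ ψ : ℝ → ℂ} (hC : Cut B χ ψ) (a : ℤ) (ξ : ℝ) :
    Continuous (Kr ψ a ξ) := by
  have h1 := hC.cψ
  have h2 := cont_e1
  unfold Kr
  exact (continuous_const.mul (h1.comp (continuous_const.mul continuous_id))).mul
    (h2.comp (continuous_id.mul continuous_const))

theorem kr_int (hWTI : T_WTI) {B : ℝ} {χ ψ : ℝ → ℂ} (hC : Cut B χ ψ) (a : ℤ) (ξ : ℝ) :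
    Integrable (Kr ψ a ξ) := by
  have h1 := (hWTI 20 a 0 (by norm_num)).1
  refine Integrable.mono' (h1.const_mul ((2 : ℝ) ^ (-a) * B)) (kr_cont hC a ξ).aestronglyMeasurable
    (Filter.Eventually.of_forall fun z => ?_)
  have h2 := hC.dec ((2 : ℝ) ^ (-a) * z)
  have h3 := two_zpow_pos (-a)
  unfold Kr
  rw [norm_mul, norm_mul, norm_e1, mul_one, Complex.norm_real, Real.norm_eq_abs, abs_of_pos h3,
    sub_zero, mul_assoc]
  exact mul_le_mul_of_nonneg_left h2 h3.le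

theorem kr_ft {B : ℝ} {χ ψ : ℝ → ℂ} (hC : Cut B χ ψ) (a : ℤ) (ξ η : ℝ) :
    ∫ z, Kr ψ a ξ z * e1 (-(z * η)) = χ ((2 : ℝ) ^ a * (η - ξ)) := by
  have h3 := two_zpow_pos (-a)
  have h4 := two_zpow_neg_mul a
  rw [hC.ft]
  have h5 := Measure.integral_comp_mul_left
    (fun w : ℝ => ψ w * e1 (-(w * ((2 : ℝ) ^ a * (η - ξ))))) ((2 : ℝ) ^ (-a))
  have h6 : ∀ z : ℝ, Kr ψ a ξ z * e1 (-(z * η)) = (((2 : ℝ) ^ (-a) : ℝ) : ℂ) *
      (ψ ((2 : ℝ) ^ (-a) * z) * e1 (-((2 : ℝ) ^ (-a) * z * ((2 : ℝ) ^ a * (η - ξ))))) := by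
    intro z
    have h7 : -((2 : ℝ) ^ (-a) * z * ((2 : ℝ) ^ a * (η - ξ))) = z * ξ + -(z * η) := by
      have : (2 : ℝ) ^ (-a) * z * ((2 : ℝ) ^ a * (η - ξ)) =
          ((2 : ℝ) ^ (-a) * (2 : ℝ) ^ a) * (z * (η - ξ)) := by ring
      rw [this, h4]
      ring
    rw [h7, e1_add, Kr]
    ring
  simp only [h6]
  rw [integral_const_mul, h5, abs_of_pos (inv_pos.2 h3), Complex.real_smul, ← mul_assoc,
    ← Complex.ofReal_mul, mul_inv_cancel₀ h3.ne', Complex.ofReal_one, one_mul]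

theorem inner_int {B : ℝ} {χ ψ : ℝ → ℂ} (hC : Cut B χ ψ) (a : ℤ) (ξ η x : ℝ) :
    ∫ y, Kr ψ a ξ (x - y) * e1 (y * η) = e1 (x * η) * χ ((2 : ℝ) ^ a * (η - ξ)) := by
  have h1 : ∀ y : ℝ, Kr ψ a ξ (x - y) * e1 (y * η) =
      (fun z => Kr ψ a ξ z * e1 ((x - z) * η)) (x - y) := by
    intro y
    simp only
    rw [sub_sub_cancel]
  simp only [h1]
  rw [integral_sub_left_eq_self (fun z => Kr ψ a ξ z * e1 ((x - z) * η)), ← kr_ft hC,
    ← integral_const_mul]
  refine integral_congr_ae (Filter.Eventually.of_forall fun z => ?_)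
  simp only
  rw [show (x - z) * η = x * η + -(z * η) by ring, e1_add]
  ring

theorem main (hWTI : T_WTI) (hFXB : T_FXB) (hFXR : T_FXR) {A B : ℝ} {φ Φ χ ψ : ℝ → ℂ}
    (hW : WPk A φ Φ) (hC : Cut B χ ψ) (s : Tile) (ξ : ℝ) (a : ℤ) (x : ℝ) :
    ∫ y, fx φ s y * Kr ψ a ξ (x - y) =
      ∫ η, fr Φ s η * (e1 (x * η) * χ ((2 : ℝ) ^ a * (η - ξ))) := by
  obtain ⟨_, cfr, _, _, _, _, ifr⟩ := hFXB A φ Φ hW s
  have hr := (hFXR A φ Φ hW s).1
  have e1c := cont_e1
  have hK : Integrable (fun y => Kr ψ a ξ (x - y)) := (kr_int hWTI hC a ξ).comp_sub_left x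
  have hprod : Integrable (fun z : ℝ × ℝ => Kr ψ a ξ (x - z.1) * fr Φ s z.2)
      (volume.prod volume) := hK.mul_prod ifr
  have hF : Integrable (Function.uncurry fun (y : ℝ) (η : ℝ) =>
      Kr ψ a ξ (x - y) * fr Φ s η * e1 (y * η)) (volume.prod volume) := by
    refine hprod.mono ?_ (Filter.Eventually.of_forall ?_)
    · refine Continuous.aestronglyMeasurable ?_
      have h1 := kr_cont hC a ξ
      change Continuous fun z : ℝ × ℝ => Kr ψ a ξ (x - z.1) * fr Φ s z.2 * e1 (z.1 * z.2)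
      fun_prop
    · rintro ⟨y, η⟩
      simp only [Function.uncurry_apply_pair]
      rw [norm_mul (Kr ψ a ξ (x - y) * fr Φ s η), norm_e1, mul_one]
  have h1 : ∀ y, fx φ s y * Kr ψ a ξ (x - y) =
      ∫ η, Kr ψ a ξ (x - y) * fr Φ s η * e1 (y * η) := by
    intro y
    rw [hr y, mul_comm, ← integral_const_mul]
    refine integral_congr_ae (Filter.Eventually.of_forall fun η => ?_)
    simp only
    ring
  simp only [h1]
  rw [integral_integral_swap hF]
  refine integral_congr_ae (Filter.Eventually.of_forall fun η => ?_)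
  simp only
  rw [← inner_int hC, ← integral_const_mul]
  refine integral_congr_ae (Filter.Eventually.of_forall fun y => ?_)
  simp only
  ring

/-- the support of `fr` and the position of `ξ` -/
theorem supp {A : ℝ} {φ Φ : ℝ → ℂ} (hW : WPk A φ Φ) (s : Tile) (ξ η : ℝ) (hξ : ξ ∈ s.up)
    (h : fr Φ s η ≠ 0) : -(7 / 8) ≤ (2 : ℝ) ^ s.k * (η - ξ) ∧
      (2 : ℝ) ^ s.k * (η - ξ) ≤ -(1 / 8) := by
  have h1 : Φ ((2 : ℝ) ^ s.k * η - s.m) ≠ 0 := by
    intro h0
    apply h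
    unfold fr
    rw [h0]
    simp
  obtain ⟨h2, h3⟩ := hW.supp _ h1
  unfold Tile.up at hξ
  rw [mem_dy_iff] at hξ
  obtain ⟨h4, h5⟩ := hξ
  have h6 : (2 : ℝ) ^ (-(-s.k - 1)) = 2 * (2 : ℝ) ^ s.k := by
    rw [show -(-s.k - 1) = s.k + 1 by ring, two_zpow_succ]
  rw [h6] at h4 h5
  push_cast at h4 h5
  constructor
  · rw [mul_sub]
    linarith
  · rw [mul_sub]
    linarith

end REP_

open REP_ in
theorem p_REP (hWTI : T_WTI) (hFXB : T_FXB) (hFXR : T_FXR) : T_REP := by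
  intro A B φ Φ χ ψ hW hC s ξ a hξ x
  have hr := (hFXR A φ Φ hW s).1 x
  refine ⟨fun ha => ?_, fun ha => ?_⟩
  · rw [main hWTI hFXB hFXR hW hC, hr]
    refine integral_congr_ae (Filter.Eventually.of_forall fun η => ?_)
    simp only
    by_cases h : fr Φ s η = 0
    · rw [h, zero_mul, zero_mul]
    · obtain ⟨h1, h2⟩ := supp hW s ξ η hξ h
      have h3 : (2 : ℝ) ^ s.k = (2 : ℝ) ^ (s.k - a) * (2 : ℝ) ^ a := by
        rw [← zpow_add₀ (by norm_num)]
        congr 1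
        ring
      have h4 : (1 : ℝ) ≤ (2 : ℝ) ^ (s.k - a) := by
        have := two_zpow_le (show (0 : ℤ) ≤ s.k - a by omega)
        simpa using this
      have h5 := two_zpow_pos a
      have h6 : (2 : ℝ) ^ s.k * (η - ξ) = (2 : ℝ) ^ (s.k - a) * ((2 : ℝ) ^ a * (η - ξ)) := by
        rw [h3]
        ring
      rw [h6] at h1 h2
      have h7 : (2 : ℝ) ^ a * (η - ξ) ≤ 0 := by
        by_contra hcon
        push Not at hcon
        nlinarith
      have h8 : -(7 / 8) ≤ (2 : ℝ) ^ a * (η - ξ) := by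
        nlinarith
      rw [hC.one _ ⟨by linarith, h7⟩, mul_one]
  · rw [main hWTI hFXB hFXR hW hC]
    refine integral_eq_zero_of_ae (Filter.Eventually.of_forall fun η => ?_)
    simp only [Pi.zero_apply]
    by_cases h : fr Φ s η = 0
    · rw [h, zero_mul]
    · obtain ⟨h1, h2⟩ := supp hW s ξ η hξ h
      have h3 : (2 : ℝ) ^ a = (2 : ℝ) ^ (a - s.k) * (2 : ℝ) ^ s.k := by
        rw [← zpow_add₀ (by norm_num)]
        congr 1
        ring
      have h4 : (8 : ℝ) ≤ (2 : ℝ) ^ (a - s.k) := by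
        have := two_zpow_le (show (3 : ℤ) ≤ a - s.k by omega)
        norm_num at this
        exact this
      have h6 : (2 : ℝ) ^ a * (η - ξ) = (2 : ℝ) ^ (a - s.k) * ((2 : ℝ) ^ s.k * (η - ξ)) := by
        rw [h3]
        ring
      have h7 : (2 : ℝ) ^ a * (η - ξ) ≤ -1 := by
        rw [h6]
        nlinarith
      rw [hC.zero _ (by
        rw [abs_of_nonpos (by linarith)]
        linarith), mul_zero, mul_zero]

end Pool.Agent.CAR
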