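import Pool.Agent.CAR.Targets
import Pool.Agent.CAR.SELE

set_option autoImplicit false

/-!
# CAR: greedy selection (helper61's sele2)
-/

namespace Pool.Agent.CAR

theorem p_SELE : T_SELE := by
  intro c eps he S
  obtain ⟨n, K, L, X, T, S', h1, h2, h3, h4, h5, h6, h7, h8, h9⟩ := SELE_.sele2 c S eps he
  exact ⟨n, K, L, X, T, S', ⟨h4, h3, h6⟩, h2, h5, h1,
    fun T K L ξ hT h => h9 T hT K L ξ h, h7⟩

end Pool.Agent.CAR
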