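import Pool.Agent.CAR.STargets
import Pool.Agent.CAR.P_SMB

set_option autoImplicit false

/-!
# Large tiles summed over a tree (target SMC)
-/

namespace Pool.Agent.CAR

open MeasureTheory Set
open scoped ENNReal NNReal

namespace SMC_

/-- one scale -/
theorem one_scale {T : Finset Tile} {K L : ℤ} (hI : ∀ s ∈ T, s.I ⊆ dy K L)
    (hinj : ∀ s ∈ T, ∀ t ∈ T, s.k = t.k → s.l = t.l → s = t) (j : ℤ) (y : ℝ) :
    ∑ s ∈ T.filter (fun s => s.k = j), wt 4 (s.u y) ≤
      72 * (∑' z, gs z) * wt 2 (Tile.u ⟨K, L, 0⟩ y) := by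
  have h := PJ_.stepD hI hinj (j - 1) y
  have h2 : ∑ s ∈ T.filter (fun s => s.k = j), 2 * wt 4 (s.u y) ≤
      ∑ s ∈ T.filter (fun s => s.k ≤ j - 1 + 1), (2 : ℝ) ^ (s.k - (j - 1)) * wt 4 (s.u y) := by
    refine le_trans (le_of_eq (Finset.sum_congr rfl fun s hs => ?_))
      (Finset.sum_le_sum_of_subset_of_nonneg (fun s hs => ?_) fun s _ _ =>
        mul_nonneg (two_zpow_pos _).le (wt_nonneg _ _))
    · have hj := (Finset.mem_filter.1 hs).2
      rw [hj, show j - (j - 1) = 1 by ring, zpow_one]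
    · rw [Finset.mem_filter] at hs ⊢
      exact ⟨hs.1, by omega⟩
  rw [← Finset.mul_sum] at h2
  linarith

theorem geo4 (κ : ℤ) (J : Finset ℤ) (hJ : ∀ j ∈ J, κ ≤ j) :
    ∑ j ∈ J, (4 : ℝ) ^ (κ - j) ≤ 2 := by
  classical
  have h1 : Summable fun n : ℕ => (1 / 4 : ℝ) ^ n :=
    summable_geometric_of_lt_one (by norm_num) (by norm_num)
  have h2 : ∑' n : ℕ, (1 / 4 : ℝ) ^ n ≤ 2 := by
    rw [tsum_geometric_of_lt_one (by norm_num) (by norm_num)]; norm_num
  have hinj : Set.InjOn (fun j : ℤ => (j - κ).toNat) J := by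
    intro a ha b hb hab
    have := hJ a ha
    have := hJ b hb
    dsimp only at hab
    omega
  have e : ∑ j ∈ J, (4 : ℝ) ^ (κ - j) = ∑ n ∈ J.image (fun j : ℤ => (j - κ).toNat),
      (1 / 4 : ℝ) ^ n := by
    rw [Finset.sum_image hinj]
    refine Finset.sum_congr rfl fun j hj => ?_
    have := hJ j hj
    rw [one_div, inv_pow, ← zpow_natCast, ← zpow_neg]
    congr 1
    omega
  rw [e]
  exact (h1.sum_le_tsum _ fun n _ => by positivity).trans h2

theorem meas_min {κ : ℝ → ℤ} (hκ : Measurable κ) (s : Tile) :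
    Measurable fun x => min 1 ((4 : ℝ) ^ (κ x - s.k)) := by
  have h : Measurable fun n : ℤ => min 1 ((4 : ℝ) ^ (n - s.k)) := Measurable.of_discrete
  exact h.comp hκ

theorem integ {κ : ℝ → ℤ} (hκ : Measurable κ) (s : Tile) :
    Integrable fun x => min 1 ((4 : ℝ) ^ (κ x - s.k)) * wt 10 (s.u x) := by
  refine (integrable_wt_u (n := 10) (by norm_num) s).mono'
    ((meas_min hκ s).mul ((continuous_wt 10).comp (continuous_u s)).measurable
      ).aestronglyMeasurable (ae_of_all _ fun x => ?_)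
  have h1 : 0 ≤ min 1 ((4 : ℝ) ^ (κ x - s.k)) := le_min (by norm_num) (by positivity)
  have h2 := wt_nonneg 10 (s.u x)
  rw [Real.norm_of_nonneg (mul_nonneg h1 h2)]
  exact mul_le_of_le_one_left h2 (min_le_left _ _)

end SMC_

open SMC_ SMB_ in
/-- **SMC** -/
theorem p_SMC : T_SMC := by
  classical
  refine ⟨1152 * (∑' z, gs z) + 1, by have := tsum_gs_nonneg; positivity, ?_⟩
  intro T K Λ ξ κ hT hS
  have hG0 := tsum_gs_nonneg
  have hinj : ∀ s ∈ T, ∀ t ∈ T, s.k = t.k → s.l = t.l → s = t := by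
    intro s hs t ht h1 h2
    exact Tile.ext h1 h2 (m_eq h1 (hT s hs).2 (hT t ht).2)
  have hI : ∀ s ∈ T, s.I ⊆ dy K Λ := fun s hs => (hT s hs).1
  set U : Tile := ⟨K, Λ, 0⟩ with hU
  rw [← integral_finsetSum _ fun s _ => integ hS.meas s]
  have h1 : ∫ x, ∑ s ∈ T, min 1 ((4 : ℝ) ^ (κ x - s.k)) * wt 10 (s.u x) ≤
      ∫ x, 288 * (∑' z, gs z) * wt 2 (U.u x) := by
    refine integral_mono (integrable_finsetSum _ fun s _ => integ hS.meas s)
      ((integrable_wt_u (by norm_num) U).const_mul _) fun x => ?_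
    dsimp only
    rw [← Finset.sum_filter_add_sum_filter_not T (fun s => s.k ≤ κ x + 1)]
    have a1 : ∑ s ∈ T.filter (fun s => s.k ≤ κ x + 1),
        min 1 ((4 : ℝ) ^ (κ x - s.k)) * wt 10 (s.u x) ≤
        144 * (∑' z, gs z) * wt 2 (U.u x) := by
      refine le_trans (Finset.sum_le_sum fun s hs => ?_) (PJ_.stepD hI hinj (κ x) x)
      obtain ⟨hs1, hs2⟩ := Finset.mem_filter.1 hs
      have h2 := wt_nonneg 10 (s.u x)
      exact (mul_le_of_le_one_left h2 (min_le_left _ _)).trans (pt hS hs1 hs2)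
    have a2 : ∑ s ∈ T.filter (fun s => ¬ s.k ≤ κ x + 1),
        min 1 ((4 : ℝ) ^ (κ x - s.k)) * wt 10 (s.u x) ≤
        144 * (∑' z, gs z) * wt 2 (U.u x) := by
      set F := T.filter (fun s => ¬ s.k ≤ κ x + 1) with hF
      rw [← Finset.sum_fiberwise_of_maps_to (g := fun s : Tile => s.k) (t := F.image fun s => s.k)
        (fun s hs => Finset.mem_image_of_mem _ hs)]
      have b1 : ∀ j ∈ F.image (fun s => s.k), ∑ s ∈ F.filter (fun s => s.k = j),
          min 1 ((4 : ℝ) ^ (κ x - s.k)) * wt 10 (s.u x) ≤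
          (4 : ℝ) ^ (κ x - j) * (72 * (∑' z, gs z) * wt 2 (U.u x)) := by
        intro j _
        have c1 := one_scale hI hinj j x
        refine le_trans ?_ (mul_le_mul_of_nonneg_left c1 (by positivity))
        rw [Finset.mul_sum]
        refine le_trans (Finset.sum_le_sum fun s hs => ?_)
          (Finset.sum_le_sum_of_subset_of_nonneg (Finset.filter_subset_filter _
            (Finset.filter_subset _ _)) fun s _ _ =>
            mul_nonneg (by positivity) (wt_nonneg _ _))
        have hj := (Finset.mem_filter.1 hs).2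
        rw [hj]
        exact mul_le_mul (min_le_right _ _) (wt_anti (by norm_num) _) (wt_nonneg _ _)
          (by positivity)
      refine (Finset.sum_le_sum b1).trans ?_
      rw [← Finset.sum_mul]
      have b2 := geo4 (κ x) (F.image fun s => s.k) (by
        intro j hj
        obtain ⟨s, hs, rfl⟩ := Finset.mem_image.1 hj
        have := (Finset.mem_filter.1 hs).2
        omega)
      have b3 : 0 ≤ 72 * (∑' z, gs z) * wt 2 (U.u x) := by
        have := wt_nonneg 2 (U.u x)
        positivity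
      have := mul_le_mul_of_nonneg_right b2 b3
      linarith
    linarith
  refine h1.trans ?_
  rw [integral_const_mul]
  have h2 := integral_wt_u_le (n := 2) (by norm_num) U
  have h3 : 288 * (∑' z, gs z) * ∫ x, wt 2 (U.u x) ≤
      288 * (∑' z, gs z) * (4 * (2 : ℝ) ^ U.k) := by gcongr
  refine h3.trans ?_
  have := two_zpow_pos K
  rw [hU]
  dsimp only
  nlinarith

end Pool.Agent.CAR
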