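import Pool.Agent.CAR.STargets
import Pool.Agent.CAR.P_SUM

set_option autoImplicit false

/-!
# The Carleson operator on the line: SUM2, the summation with an energy cap
-/

namespace Pool.Agent.CAR

open MeasureTheory Set ComplexConjugate
open scoped ENNReal NNReal

namespace SUM2_

open SUM_

theorem hz_nonpos {n : ℤ} (h : n ≤ 0) : hz n = (2 : ℝ) ^ n := by
  obtain ⟨k, rfl⟩ := Int.exists_eq_neg_ofNat h
  rw [hz, Int.natAbs_neg, Int.natAbs_natCast, zpow_neg, zpow_natCast, one_div, inv_pow]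

theorem hz_nonneg' {n : ℤ} (h : 0 ≤ n) : hz n * (2 : ℝ) ^ n = 1 := by
  obtain ⟨k, rfl⟩ := Int.eq_ofNat_of_zero_le h
  rw [hz, Int.natAbs_natCast, zpow_natCast, ← mul_pow]
  norm_num

/-- the majorant -/
noncomputable def Q (K : ℕ) (n : ℤ) : ℝ :=
  2 * hz n + (if n ∈ Finset.Icc (-(K : ℤ)) 0 then 1 else 0) + 2 * hz (n + K)

theorem Q_le {r e0 : ℝ} (hr : 0 < r) (he0 : 0 < e0) {K : ℕ} (hK : 1 + r / e0 < 2 ^ (K + 1))
    (n : ℤ) : min ((2 : ℝ) ^ n * r) e0 * (min ((4 : ℝ) ^ n) 2 / (4 : ℝ) ^ n) ≤ e0 * Q K n := by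
  rw [four_zpow]
  set t : ℝ := (2 : ℝ) ^ n with ht
  have ht0 : 0 < t := zpow_pos (by norm_num) n
  set ρ : ℝ := min (t ^ 2) 2 / t ^ 2 with hρ
  have hρ0 : 0 ≤ ρ := by positivity
  have hρ1 : ρ ≤ 1 := by
    rw [hρ, div_le_one (by positivity)]
    exact min_le_left _ _
  have hρ2 : ρ ≤ 2 / t ^ 2 := div_le_div_of_nonneg_right (min_le_right _ _) (by positivity)
  have hm0 : 0 ≤ min (t * r) e0 := by positivity
  have h1 := hz_nonneg n
  have h2 := hz_nonneg (n + K)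
  have h3 : (0 : ℝ) ≤ if n ∈ Finset.Icc (-(K : ℤ)) 0 then 1 else 0 := by
    split_ifs <;> norm_num
  rcases le_or_gt n 0 with hn | hn
  · rcases le_or_gt (-(K : ℤ)) n with hk | hk
    · have h4 : Q K n = 2 * hz n + 1 + 2 * hz (n + K) := by
        rw [Q, if_pos (Finset.mem_Icc.2 ⟨hk, hn⟩)]
      have h5 : 1 ≤ Q K n := by rw [h4]; linarith
      calc min (t * r) e0 * ρ ≤ e0 * 1 := mul_le_mul (min_le_right _ _) hρ1 hρ0 he0.le
        _ ≤ e0 * Q K n := mul_le_mul_of_nonneg_left h5 he0.le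
    · have h4 : hz (n + K) = t * 2 ^ K := by
        rw [hz_nonpos (by omega), zpow_add₀ (by norm_num), zpow_natCast]
      have h5 : 2 * (t * 2 ^ K) ≤ Q K n := by
        rw [Q, h4]
        linarith
      have h6 : r ≤ 2 ^ (K + 1) * e0 := by
        have h7 : r / e0 ≤ 2 ^ (K + 1) := by linarith
        rwa [div_le_iff₀ he0] at h7
      calc min (t * r) e0 * ρ ≤ t * r * 1 :=
            mul_le_mul (min_le_left _ _) hρ1 hρ0 (by positivity)
        _ = t * r := by ring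
        _ ≤ t * (2 ^ (K + 1) * e0) := mul_le_mul_of_nonneg_left h6 ht0.le
        _ = e0 * (2 * (t * 2 ^ K)) := by ring
        _ ≤ e0 * Q K n := mul_le_mul_of_nonneg_left h5 he0.le
  · have h4 : hz n * t = 1 := hz_nonneg' hn.le
    have ht1 : 1 ≤ t := by
      rw [ht]
      exact one_le_zpow₀ (by norm_num) hn.le
    have h5 : 2 / t ^ 2 ≤ 2 * hz n := by
      rw [div_le_iff₀ (by positivity)]
      calc (2 : ℝ) = 2 * (hz n * t) := by rw [h4]; ring
        _ ≤ 2 * (hz n * t) * t := le_mul_of_one_le_right (by rw [h4]; norm_num) ht1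
        _ = 2 * hz n * t ^ 2 := by ring
    have h6 : 2 * hz n ≤ Q K n := by
      rw [Q]
      linarith
    calc min (t * r) e0 * ρ ≤ e0 * Q K n :=
          mul_le_mul (min_le_right _ _) (hρ2.trans (h5.trans h6)) hρ0 he0.le

/-- the cost of one step -/
theorem cost {V r e0 G : ℝ} (hV : 0 ≤ V) (hr : 0 < r) (he0 : 0 < e0) (hG0 : 0 ≤ G)
    (hG : G ≤ r * Real.sqrt V) {K : ℕ} (hK : 1 + r / e0 < 2 ^ (K + 1)) (n : ℤ) :
    min ((2 : ℝ) ^ n * r) e0 * min ((4 : ℝ) ^ n) 2 *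
      (G ^ 2 / ((2 : ℝ) ^ n * r) ^ 2 + V / (4 : ℝ) ^ n) ≤ 2 * V * (e0 * Q K n) := by
  have h1 := Q_le hr he0 hK n
  have ht0 : (0 : ℝ) < 2 ^ n := zpow_pos (by norm_num) n
  have h40 : (0 : ℝ) < 4 ^ n := zpow_pos (by norm_num) n
  have h2 : G ^ 2 ≤ r ^ 2 * V := by
    calc G ^ 2 ≤ (r * Real.sqrt V) ^ 2 := pow_le_pow_left₀ hG0 hG 2
      _ = r ^ 2 * V := by rw [mul_pow, Real.sq_sqrt hV]
  have h3 : G ^ 2 / ((2 : ℝ) ^ n * r) ^ 2 ≤ V / (4 : ℝ) ^ n := by
    rw [mul_pow, ← four_zpow, div_le_div_iff₀ (by positivity) h40]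
    calc G ^ 2 * (4 : ℝ) ^ n ≤ r ^ 2 * V * (4 : ℝ) ^ n := mul_le_mul_of_nonneg_right h2 h40.le
      _ = V * ((4 : ℝ) ^ n * r ^ 2) := by ring
  have h4 : 0 ≤ min ((2 : ℝ) ^ n * r) e0 * min ((4 : ℝ) ^ n) 2 := by positivity
  calc min ((2 : ℝ) ^ n * r) e0 * min ((4 : ℝ) ^ n) 2 *
      (G ^ 2 / ((2 : ℝ) ^ n * r) ^ 2 + V / (4 : ℝ) ^ n) ≤
        min ((2 : ℝ) ^ n * r) e0 * min ((4 : ℝ) ^ n) 2 * (V / (4 : ℝ) ^ n + V / (4 : ℝ) ^ n) :=
        mul_le_mul_of_nonneg_left (by linarith) h4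
    _ = 2 * V * (min ((2 : ℝ) ^ n * r) e0 * (min ((4 : ℝ) ^ n) 2 / (4 : ℝ) ^ n)) := by
        field_simp
        ring
    _ ≤ 2 * V * (e0 * Q K n) := mul_le_mul_of_nonneg_left h1 (by positivity)

theorem sum_Q_le (K : ℕ) (n0 : ℤ) (m : ℕ) :
    ∑ j ∈ Finset.range m, Q K (n0 - j) ≤ 4 * (∑' z, hz z) + (K + 1) := by
  have h1 := sum_hz_le n0 m
  have h2 := sum_hz_le (n0 + K) m
  have h3 : ∑ j ∈ Finset.range m,
      (if n0 - (j : ℤ) ∈ Finset.Icc (-(K : ℤ)) 0 then (1 : ℝ) else 0) ≤ K + 1 := by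
    rw [Finset.sum_boole]
    have h4 : ((Finset.range m).filter fun j : ℕ =>
        n0 - (j : ℤ) ∈ Finset.Icc (-(K : ℤ)) 0).card ≤ (Finset.Icc (-(K : ℤ)) 0).card := by
      refine Finset.card_le_card_of_injOn (fun j : ℕ => n0 - (j : ℤ)) ?_ ?_
      · intro j hj
        have := (Finset.mem_filter.1 hj).2
        exact this
      · intro a _ b _ hab
        simp only at hab
        omega
    have h5 : (Finset.Icc (-(K : ℤ)) 0).card = K + 1 := by
      rw [Int.card_Icc]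
      omega
    rw [h5] at h4
    exact_mod_cast h4
  have h6 : ∑ j ∈ Finset.range m, Q K (n0 - j) = 2 * ∑ j ∈ Finset.range m, hz (n0 - j) +
      (∑ j ∈ Finset.range m,
        (if n0 - (j : ℤ) ∈ Finset.Icc (-(K : ℤ)) 0 then (1 : ℝ) else 0)) +
      2 * ∑ j ∈ Finset.range m, hz (n0 + K - j) := by
    rw [Finset.mul_sum, Finset.mul_sum, ← Finset.sum_add_distrib, ← Finset.sum_add_distrib]
    refine Finset.sum_congr rfl fun j _ => ?_
    rw [Q, show n0 - (j : ℤ) + K = n0 + K - j by ring]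
  rw [h6]
  linarith

theorem log_bound {x : ℝ} (hx : 1 ≤ x) : ∃ K : ℕ, x < 2 ^ (K + 1) ∧ (K : ℝ) ≤ 2 * Real.log x := by
  obtain ⟨K, h1, h2⟩ := exists_nat_pow_near hx (show (1 : ℝ) < 2 by norm_num)
  refine ⟨K, h2, ?_⟩
  have h3 : (K : ℝ) * Real.log 2 ≤ Real.log x := by
    rw [← Real.log_pow]
    exact Real.log_le_log (by positivity) h1
  have h4 := Real.log_two_gt_d9
  have h5 : (0 : ℝ) ≤ K := Nat.cast_nonneg K
  nlinarith

end SUM2_

open SUM_ SUM2_ in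
/-- SUM2 -/
theorem p_SUM2 (hDNB : T_DNB) (hSTP2 : T_STP2) : T_SUM2 := by
  classical
  intro A
  obtain ⟨C0, hC0, hstep⟩ := hSTP2 A
  set Z : ℝ := ∑' z, hz z with hZ
  have hZ0 : 0 ≤ Z := tsum_hz_nonneg
  refine ⟨2 * C0 * (4 * Z + 2), by positivity, ?_⟩
  intro φ Φ g b N E hW hD S r e0 hr he0 hgr hEn
  set f : Tile → ℝ := fun s => cc Φ g s * ‖av φ b N s‖ with hf
  have hf0 : ∀ s, 0 ≤ f s := fun s => mul_nonneg (norm_nonneg _) (norm_nonneg _)
  change ∑ s ∈ S, f s ≤ _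
  have hV0 : 0 ≤ vol E := ENNReal.toReal_nonneg
  have hx1 : 1 ≤ 1 + r / e0 := by
    have : 0 ≤ r / e0 := by positivity
    linarith
  have hL0 : 0 ≤ Real.log (1 + r / e0) := Real.log_nonneg hx1
  rcases hV0.eq_or_lt with he | he
  · -- `b = 0`
    have h2 : volume E = 0 := by
      rcases (ENNReal.toReal_eq_zero_iff _).1 he.symm with h | h
      · exact h
      · exact absurd h hD.fE
    have h4 : ∀ᵐ x, b x = 0 := by
      have h3 : ∀ᵐ x, x ∉ E := measure_eq_zero_iff_ae_notMem.1 h2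
      filter_upwards [h3] with x h
      exact hD.b0 x h
    have h5 : ∑ s ∈ S, f s = 0 := by
      refine Finset.sum_eq_zero fun s _ => ?_
      simp only [hf, av_zero N h4 s, norm_zero, mul_zero]
    rw [h5, ← he]
    simp
  -- the main case
  obtain ⟨K, hK1, hK2⟩ := log_bound hx1
  have hc0 : ∀ s, 0 ≤ cc Φ g s := fun s => norm_nonneg _
  have hG0 : 0 ≤ n2 g := Real.sqrt_nonneg _
  obtain ⟨n0, hn0, hEn0⟩ := start (c := cc Φ g) S hr one_pos
  rw [div_one] at hEn0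
  have key : ∀ m : ℕ, ∃ S' ⊆ S, En (cc Φ g) S' ((2 : ℝ) ^ ((n0 : ℤ) - m) * r) ∧
      Ms E N S' ((4 : ℝ) ^ ((n0 : ℤ) - m)) ∧
      ∑ s ∈ S \ S', f s ≤ C0 * (2 * vol E * e0) * ∑ j ∈ Finset.range m, Q K ((n0 : ℤ) - j) := by
    intro m
    induction m with
    | zero =>
      refine ⟨S, subset_refl _, ?_, ?_, ?_⟩
      · simpa using hEn0
      · intro s hs u hu
        have h1 := (hDNB E N hD.mE hD.mN hD.fE u).2.1
        simp only [Nat.cast_zero, sub_zero, zpow_natCast]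
        exact h1.trans hn0.le
      · simp
    | succ m ih =>
      obtain ⟨S', hS', hE', hM', hsum'⟩ := ih
      set n : ℤ := (n0 : ℤ) - m with hn
      have hn1 : (n0 : ℤ) - ((m + 1 : ℕ) : ℤ) = n - 1 := by rw [hn]; push_cast; ring
      have hEnS' : En (cc Φ g) S' e0 := by
        intro T K' Λ ξ hT hP
        exact hEn T K' Λ ξ (hT.trans hS') hP
      obtain ⟨S'', hS'', hE'', hM'', hsum''⟩ := hstep φ Φ g b N E hW hD S'
        ((2 : ℝ) ^ n * r) ((4 : ℝ) ^ n) e0 (by positivity) (by positivity) he0.le hEnS' hE' hM'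
      refine ⟨S'', hS''.trans hS', ?_, ?_, ?_⟩
      · rw [hn1]
        have h1 : (2 : ℝ) ^ (n - 1) * r = (2 : ℝ) ^ n * r / 2 := by
          rw [zpow_sub_one₀ (by norm_num)]
          ring
        rw [h1]
        exact hE''
      · rw [hn1]
        have h1 : (4 : ℝ) ^ (n - 1) = (4 : ℝ) ^ n / 4 := by
          rw [zpow_sub_one₀ (by norm_num)]
          ring
        rw [h1]
        exact hM''
      · have hsub : S \ S'' ⊆ (S \ S') ∪ (S' \ S'') := by
          intro s hs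
          rw [Finset.mem_sdiff] at hs
          rw [Finset.mem_union, Finset.mem_sdiff, Finset.mem_sdiff]
          by_cases h : s ∈ S'
          · right; exact ⟨h, hs.2⟩
          · left; exact ⟨hs.1, h⟩
        have hdis : Disjoint (S \ S') (S' \ S'') := by
          rw [Finset.disjoint_left]
          intro s hs hs'
          exact (Finset.mem_sdiff.1 hs).2 (Finset.mem_sdiff.1 hs').1
        have h1 : ∑ s ∈ S \ S'', f s ≤ ∑ s ∈ S \ S', f s + ∑ s ∈ S' \ S'', f s := by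
          rw [← Finset.sum_union hdis]
          exact Finset.sum_le_sum_of_subset_of_nonneg hsub fun s _ _ => hf0 s
        have h2 := cost hV0 hr he0 hG0 hgr hK1 n
        have h3 : ∑ s ∈ S' \ S'', f s ≤ C0 * (2 * vol E * (e0 * Q K n)) := by
          refine hsum''.trans ?_
          have h4 := mul_le_mul_of_nonneg_left h2 hC0.le
          refine le_trans (le_of_eq ?_) h4
          ring
        rw [Finset.sum_range_succ, mul_add]
        calc ∑ s ∈ S \ S'', f s ≤ ∑ s ∈ S \ S', f s + ∑ s ∈ S' \ S'', f s := h1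
          _ ≤ C0 * (2 * vol E * e0) * ∑ j ∈ Finset.range m, Q K ((n0 : ℤ) - j) +
              C0 * (2 * vol E * (e0 * Q K n)) := add_le_add hsum' h3
          _ = C0 * (2 * vol E * e0) * ∑ j ∈ Finset.range m, Q K ((n0 : ℤ) - j) +
              C0 * (2 * vol E * e0) * Q K ((n0 : ℤ) - m) := by rw [hn]; ring
  -- the limit
  set B' : ℝ := ∑ s ∈ S, Real.sqrt ((2 : ℝ) ^ s.k) * ‖av φ b N s‖ with hB'
  have hbound : ∀ m : ℕ, ∑ s ∈ S, f s ≤ C0 * (2 * vol E * e0) * (4 * Z + (K + 1)) +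
      (2 : ℝ) ^ n0 * r * B' * (1 / 2 : ℝ) ^ m := by
    intro m
    obtain ⟨S', hS', hE', -, hsum'⟩ := key m
    have h1 : ∑ s ∈ S, f s = ∑ s ∈ S \ S', f s + ∑ s ∈ S', f s :=
      (Finset.sum_sdiff hS').symm
    have heps : (2 : ℝ) ^ ((n0 : ℤ) - m) * r = (2 : ℝ) ^ n0 * r * (1 / 2 : ℝ) ^ m := by
      rw [zpow_sub₀ (by norm_num), zpow_natCast, zpow_natCast, one_div, inv_pow]
      ring
    have h2 : ∑ s ∈ S', f s ≤ (2 : ℝ) ^ n0 * r * B' * (1 / 2 : ℝ) ^ m := by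
      have h3 : ∀ s ∈ S', f s ≤ (2 : ℝ) ^ ((n0 : ℤ) - m) * r *
          (Real.sqrt ((2 : ℝ) ^ s.k) * ‖av φ b N s‖) := by
        intro s hs
        have h4 := cc_le hc0 (by positivity) hE' hs
        calc f s = cc Φ g s * ‖av φ b N s‖ := rfl
          _ ≤ ((2 : ℝ) ^ ((n0 : ℤ) - m) * r * Real.sqrt ((2 : ℝ) ^ s.k)) *
              ‖av φ b N s‖ := mul_le_mul_of_nonneg_right h4 (norm_nonneg _)
          _ = _ := by ring
      calc ∑ s ∈ S', f s ≤ ∑ s ∈ S', (2 : ℝ) ^ ((n0 : ℤ) - m) * r *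
            (Real.sqrt ((2 : ℝ) ^ s.k) * ‖av φ b N s‖) := Finset.sum_le_sum h3
        _ = (2 : ℝ) ^ ((n0 : ℤ) - m) * r *
            ∑ s ∈ S', Real.sqrt ((2 : ℝ) ^ s.k) * ‖av φ b N s‖ := by rw [Finset.mul_sum]
        _ ≤ (2 : ℝ) ^ ((n0 : ℤ) - m) * r * B' := by
            refine mul_le_mul_of_nonneg_left ?_ (by positivity)
            exact Finset.sum_le_sum_of_subset_of_nonneg hS' fun s _ _ => by positivity
        _ = _ := by rw [heps]; ring
    have h5 : C0 * (2 * vol E * e0) * ∑ j ∈ Finset.range m, Q K ((n0 : ℤ) - j) ≤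
        C0 * (2 * vol E * e0) * (4 * Z + (K + 1)) :=
      mul_le_mul_of_nonneg_left (sum_Q_le K n0 m) (by positivity)
    rw [h1]
    exact add_le_add (hsum'.trans h5) h2
  have hlim : Filter.Tendsto (fun m : ℕ => C0 * (2 * vol E * e0) * (4 * Z + (K + 1)) +
      (2 : ℝ) ^ n0 * r * B' * (1 / 2 : ℝ) ^ m) Filter.atTop
      (nhds (C0 * (2 * vol E * e0) * (4 * Z + (K + 1)) + (2 : ℝ) ^ n0 * r * B' * 0)) := by
    refine Filter.Tendsto.const_add _ (Filter.Tendsto.const_mul _ ?_)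
    exact tendsto_pow_atTop_nhds_zero_of_lt_one (by norm_num) (by norm_num)
  have hfin := ge_of_tendsto' hlim hbound
  rw [mul_zero, add_zero] at hfin
  have h7 : 4 * Z + (K + 1) ≤ (4 * Z + 2) * (1 + Real.log (1 + r / e0)) := by
    have h8 : 0 ≤ 4 * Z * Real.log (1 + r / e0) := by positivity
    nlinarith
  calc ∑ s ∈ S, f s ≤ C0 * (2 * vol E * e0) * (4 * Z + (K + 1)) := hfin
    _ ≤ C0 * (2 * vol E * e0) * ((4 * Z + 2) * (1 + Real.log (1 + r / e0))) :=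
        mul_le_mul_of_nonneg_left h7 (by positivity)
    _ = _ := by ring

end Pool.Agent.CAR
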