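import Pool.Agent.CAR.STargets
import Pool.Agent.CAR.P_FXB
import Pool.Agent.CAR.P_WTI

set_option autoImplicit false

/-!
# CAR, TA1: tiles over one interval
-/

namespace Pool.Agent.CAR

open MeasureTheory Set ComplexConjugate
open scoped ENNReal NNReal

namespace TA1_

theorem wt_nonneg (n : ℕ) (t : ℝ) : 0 ≤ wt n t := by
  unfold wt
  have := abs_nonneg t
  positivity

theorem hs_nonneg (s : Tile) : 0 ≤ hs s := by
  unfold hs
  positivity

theorem hs_sq (s : Tile) : hs s * hs s = (2 : ℝ) ^ (-s.k) := by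
  unfold hs
  have h := two_zpow_pos s.k
  rw [← mul_inv, Real.mul_self_sqrt h.le, zpow_neg]

theorem integ (k l : ℤ) : Integrable (fun x : ℝ => wt 20 ((2 : ℝ) ^ (-k) * x - l)) :=
  (p_WTI 20 k l (by norm_num)).1

theorem norm_fx {A : ℝ} {φ Φ : ℝ → ℂ} (h : WPk A φ Φ) {s : Tile} {k l : ℤ} (hk : s.k = k)
    (hl : s.l = l) (x : ℝ) : ‖fx φ s x‖ ≤ A * hs s * wt 20 ((2 : ℝ) ^ (-k) * x - l) := by
  have h1 := (p_FXB A φ Φ h s).2.2.1 x
  rw [Tile.u, hk, hl] at h1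
  exact h1

/-- pointwise bound for a product with a function bounded by `1_F` -/
theorem bound_ind {A : ℝ} {φ Φ : ℝ → ℂ} (h : WPk A φ Φ) {s : Tile} {k l : ℤ} (hk : s.k = k)
    (hl : s.l = l) {f : ℝ → ℂ} {F : Set ℝ} (hf : BF 1 F f) (x : ℝ) :
    ‖f x‖ * ‖fx φ s x‖ ≤
      F.indicator (fun x => A * hs s * wt 20 ((2 : ℝ) ^ (-k) * x - l)) x := by
  by_cases hx : x ∈ F
  · rw [indicator_of_mem hx]
    have h1 := norm_fx h hk hl x
    have h2 := hf.bd x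
    calc ‖f x‖ * ‖fx φ s x‖ ≤ 1 * ‖fx φ s x‖ := by gcongr
      _ = ‖fx φ s x‖ := one_mul _
      _ ≤ _ := h1
  · rw [indicator_of_notMem hx, hf.z x hx, norm_zero, zero_mul]

theorem cf_le {A : ℝ} {φ Φ : ℝ → ℂ} (h : WPk A φ Φ) {s : Tile} {k l : ℤ} (hk : s.k = k)
    (hl : s.l = l) {f : ℝ → ℂ} {F : Set ℝ} (hf : BF 1 F f) :
    ‖cf φ f s‖ ≤ A * hs s * ∫ x in F, wt 20 ((2 : ℝ) ^ (-k) * x - l) := by
  have hi : Integrable (F.indicator (fun x => A * hs s * wt 20 ((2 : ℝ) ^ (-k) * x - l))) :=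
    ((integ k l).const_mul (A * hs s)).indicator hf.mF
  have h1 : ‖cf φ f s‖ ≤
      ∫ x, F.indicator (fun x => A * hs s * wt 20 ((2 : ℝ) ^ (-k) * x - l)) x := by
    refine norm_integral_le_of_norm_le hi (Filter.Eventually.of_forall fun x => ?_)
    rw [norm_mul, Complex.norm_conj]
    exact bound_ind h hk hl hf x
  rw [integral_indicator hf.mF, integral_const_mul] at h1
  exact h1

theorem av_le {A : ℝ} {φ Φ : ℝ → ℂ} (h : WPk A φ Φ) {s : Tile} {k l : ℤ} (hk : s.k = k)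
    (hl : s.l = l) {b : ℝ → ℂ} {E : Set ℝ} (hb : BF 1 E b) (N : ℝ → ℝ) :
    ‖av φ b N s‖ ≤ A * hs s * ∫ x in E ∩ N ⁻¹' s.up, wt 20 ((2 : ℝ) ^ (-k) * x - l) := by
  have hi : Integrable (E.indicator (fun x => A * hs s * wt 20 ((2 : ℝ) ^ (-k) * x - l)))
      (volume.restrict (N ⁻¹' s.up)) :=
    (((integ k l).const_mul (A * hs s)).indicator hb.mF).restrict
  have h1 : ‖av φ b N s‖ ≤ ∫ x in N ⁻¹' s.up,
      E.indicator (fun x => A * hs s * wt 20 ((2 : ℝ) ^ (-k) * x - l)) x := by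
    refine norm_integral_le_of_norm_le hi (Filter.Eventually.of_forall fun x => ?_)
    rw [norm_mul]
    exact bound_ind h hk hl hb x
  rw [integral_indicator hb.mF, Measure.restrict_restrict hb.mF, integral_const_mul] at h1
  exact h1

end TA1_

open TA1_ in
theorem p_TA1 : T_TA1 := by
  intro A
  refine ⟨A ^ 2 + 1, by positivity, ?_⟩
  intro φ Φ h f b N F E hf hb hN k l S hS
  set IF : ℝ := ∫ x in F, wt 20 ((2 : ℝ) ^ (-k) * x - l) with hIF
  set IE : ℝ := ∫ x in E, wt 20 ((2 : ℝ) ^ (-k) * x - l) with hIE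
  have hA := h.pos
  have hIF0 : 0 ≤ IF := integral_nonneg fun x => wt_nonneg _ _
  have hIE0 : 0 ≤ IE := integral_nonneg fun x => wt_nonneg _ _
  have h2k := two_zpow_pos (-k)
  -- the pieces
  have hterm : ∀ s ∈ S, ‖cf φ f s‖ * ‖av φ b N s‖ ≤ A ^ 2 * (2 : ℝ) ^ (-k) * IF *
      ∫ x in E ∩ N ⁻¹' s.up, wt 20 ((2 : ℝ) ^ (-k) * x - l) := by
    intro s hs'
    obtain ⟨hk, hl⟩ := hS s hs'
    have e1 := cf_le h hk hl hf
    have e2 := av_le h hk hl hb N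
    have e3 := hs_sq s
    rw [hk] at e3
    calc ‖cf φ f s‖ * ‖av φ b N s‖ ≤ (A * hs s * IF) *
          (A * hs s * ∫ x in E ∩ N ⁻¹' s.up, wt 20 ((2 : ℝ) ^ (-k) * x - l)) :=
          mul_le_mul e1 e2 (norm_nonneg _)
            (mul_nonneg (mul_nonneg hA.le (hs_nonneg s)) hIF0)
      _ = A ^ 2 * (hs s * hs s) * IF *
          ∫ x in E ∩ N ⁻¹' s.up, wt 20 ((2 : ℝ) ^ (-k) * x - l) := by ring
      _ = _ := by rw [e3]
  have hup : ∀ s : Tile, MeasurableSet s.up := fun s => measurableSet_dy _ _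
  have hsum : ∑ s ∈ S, ∫ x in E ∩ N ⁻¹' s.up, wt 20 ((2 : ℝ) ^ (-k) * x - l) ≤ IE := by
    rw [← integral_biUnion_finset S (fun s _ => hb.mF.inter (hN (hup s))) ?_
      (fun s _ => (integ k l).integrableOn)]
    · refine setIntegral_mono_set (integ k l).integrableOn
        (Filter.Eventually.of_forall fun x => wt_nonneg _ _) (LE.le.eventuallyLE ?_)
      exact iUnion₂_subset fun s _ => inter_subset_left
    · intro s hs' t ht hst
      rw [Function.onFun, Set.disjoint_left]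
      rintro x ⟨-, hx1⟩ ⟨-, hx2⟩
      apply hst
      obtain ⟨k1, l1⟩ := hS s hs'
      obtain ⟨k2, l2⟩ := hS t ht
      rw [mem_preimage, Tile.up, k1] at hx1
      rw [mem_preimage, Tile.up, k2] at hx2
      have hm := dy_eq_of_mem hx1 hx2
      exact Tile.ext (k1.trans k2.symm) (l1.trans l2.symm) (by omega)
  calc ∑ s ∈ S, ‖cf φ f s‖ * ‖av φ b N s‖
      ≤ ∑ s ∈ S, A ^ 2 * (2 : ℝ) ^ (-k) * IF *
        ∫ x in E ∩ N ⁻¹' s.up, wt 20 ((2 : ℝ) ^ (-k) * x - l) := Finset.sum_le_sum hterm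
    _ = A ^ 2 * (2 : ℝ) ^ (-k) * IF *
        ∑ s ∈ S, ∫ x in E ∩ N ⁻¹' s.up, wt 20 ((2 : ℝ) ^ (-k) * x - l) := by
        rw [Finset.mul_sum]
    _ ≤ A ^ 2 * (2 : ℝ) ^ (-k) * IF * IE :=
        mul_le_mul_of_nonneg_left hsum (by positivity)
    _ ≤ (A ^ 2 + 1) * (2 : ℝ) ^ (-k) * IF * IE := by
        have h5 : 0 ≤ (2 : ℝ) ^ (-k) * IF * IE := by positivity
        nlinarith

end Pool.Agent.CAR
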