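import Pool.Agent.CAR.STargets
import Pool.Agent.CAR.P_WTI

set_option autoImplicit false

/-!
# CAR: one interval in the exceptional set (target TA2)
-/

namespace Pool.Agent.CAR

open MeasureTheory Set Filter Topology

namespace TA2_

lemma wt_nonneg (n : ℕ) (t : ℝ) : 0 ≤ wt n t := by
  unfold wt
  positivity

lemma wt_pos (n : ℕ) (t : ℝ) : 0 < wt n t := by
  unfold wt
  positivity

lemma wt_mono {m n : ℕ} (h : m ≤ n) (t : ℝ) : wt n t ≤ wt m t := by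
  unfold wt
  have h1 : (1 : ℝ) ≤ 1 + |t| := by linarith [abs_nonneg t]
  exact inv_anti₀ (by positivity) (pow_le_pow_right₀ h1 h)

lemma wt_anti (n : ℕ) {s t : ℝ} (h : |s| ≤ |t|) : wt n t ≤ wt n s := by
  unfold wt
  have h1 : 0 ≤ |s| := abs_nonneg s
  exact inv_anti₀ (by positivity) (pow_le_pow_left₀ (by positivity) (by linarith) n)

lemma wt_add (m n : ℕ) (t : ℝ) : wt (m + n) t = wt m t * wt n t := by
  unfold wt
  rw [pow_add, mul_inv]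

/-- the part of `E` -/
lemma part_E {E : Set ℝ} (hE : MeasurableSet E) (k l : ℤ) {D : ℝ} (hD : 0 ≤ D)
    (h : ∀ x ∈ E, D ≤ |(2 : ℝ) ^ (-k) * x - l|) :
    ∫ x in E, wt 20 ((2 : ℝ) ^ (-k) * x - l) ≤ 2 * (2 : ℝ) ^ k * wt 18 D := by
  obtain ⟨i2, b2⟩ := p_WTI 2 k l le_rfl
  obtain ⟨i20, b20⟩ := p_WTI 20 k l (by norm_num)
  calc ∫ x in E, wt 20 ((2 : ℝ) ^ (-k) * x - l)
      ≤ ∫ x in E, wt 18 D * wt 2 ((2 : ℝ) ^ (-k) * x - l) := by
        refine setIntegral_mono_on i20.integrableOn (i2.const_mul _).integrableOn hE fun x hx => ?_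
        rw [show (20 : ℕ) = 18 + 2 by norm_num, wt_add]
        refine mul_le_mul_of_nonneg_right (wt_anti 18 ?_) (wt_nonneg _ _)
        rw [abs_of_nonneg hD]
        exact h x hx
    _ = wt 18 D * ∫ x in E, wt 2 ((2 : ℝ) ^ (-k) * x - l) := integral_const_mul _ _
    _ ≤ wt 18 D * ∫ x, wt 2 ((2 : ℝ) ^ (-k) * x - l) := by
        refine mul_le_mul_of_nonneg_left ?_ (wt_nonneg _ _)
        exact setIntegral_le_integral i2 (Eventually.of_forall fun x => wt_nonneg _ _)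
    _ ≤ wt 18 D * (2 * (2 : ℝ) ^ k) := mul_le_mul_of_nonneg_left b2 (wt_nonneg _ _)
    _ = 2 * (2 : ℝ) ^ k * wt 18 D := by ring

lemma shift {u v a : ℝ} (h : |u - v| ≤ a) : wt 4 u ≤ (1 + a) ^ 4 * wt 4 v := by
  have h0 : 0 ≤ a := (abs_nonneg _).trans h
  have h1 : 0 ≤ |u| := abs_nonneg u
  have h2 : 0 ≤ |v| := abs_nonneg v
  have h3 : 1 + |v| ≤ (1 + a) * (1 + |u|) := by
    have h4 : |v| ≤ |u| + |u - v| := by
      have := abs_sub_abs_le_abs_sub v u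
      rw [abs_sub_comm v u] at this
      linarith
    nlinarith
  unfold wt
  rw [inv_le_iff_one_le_mul₀ (by positivity), mul_right_comm, ← mul_pow,
    ← div_eq_mul_inv, one_le_div (by positivity)]
  exact pow_le_pow_left₀ (by positivity) h3 4

/-- the part of `F` -/
lemma part_F (hDNW : T_DNW) {lam : ℝ} {F : Set ℝ} {k l : ℤ} (hF : MeasurableSet F)
    (hfF : volume F ≠ ⊤) (hlam : 0 < lam) {z D : ℝ} (hz : z ∉ GG lam F)
    (hzD : |(2 : ℝ) ^ (-k) * z - l| ≤ D + 1) :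
    ∫ x in F, wt 20 ((2 : ℝ) ^ (-k) * x - l) ≤ (3 + D) ^ 4 * (8 * lam * (2 : ℝ) ^ k) := by
  set l' : ℤ := ⌊(2 : ℝ) ^ (-k) * z⌋ with hl'
  have hh : ¬ heavy lam F k l' := fun h => hz ⟨k, l', exists_mem_dy k z, h⟩
  have h1 := hDNW lam F k l' hF hfF hlam hh
  obtain ⟨i20, -⟩ := p_WTI 20 k l (by norm_num)
  obtain ⟨i4, -⟩ := p_WTI 4 k l' (by norm_num)
  have h2 : |(l' : ℝ) - l| ≤ D + 2 := by
    have h3 := Int.floor_le ((2 : ℝ) ^ (-k) * z)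
    have h4 := Int.lt_floor_add_one ((2 : ℝ) ^ (-k) * z)
    rw [← hl'] at h3 h4
    rw [abs_le] at hzD ⊢
    constructor <;> linarith [hzD.1, hzD.2]
  have hD3 : 0 ≤ 3 + D := by linarith [abs_nonneg ((l' : ℝ) - l)]
  calc ∫ x in F, wt 20 ((2 : ℝ) ^ (-k) * x - l)
      ≤ ∫ x in F, (3 + D) ^ 4 * wt 4 ((2 : ℝ) ^ (-k) * x - l') := by
        refine setIntegral_mono_on i20.integrableOn (i4.const_mul _).integrableOn hF fun x _ => ?_
        refine (wt_mono (by norm_num : 4 ≤ 20) _).trans ?_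
        have h5 := shift (u := (2 : ℝ) ^ (-k) * x - l) (v := (2 : ℝ) ^ (-k) * x - l') (a := D + 2)
          (by rw [sub_sub_sub_cancel_left]; exact h2)
        rwa [show 1 + (D + 2) = 3 + D by ring] at h5
    _ = (3 + D) ^ 4 * ∫ x in F, wt 4 ((2 : ℝ) ^ (-k) * x - l') := integral_const_mul _ _
    _ ≤ (3 + D) ^ 4 * (8 * lam * (2 : ℝ) ^ k) := mul_le_mul_of_nonneg_left h1 (by positivity)

lemma fin {D : ℝ} (hD : 0 ≤ D) : (3 + D) ^ 4 * wt 18 D ≤ 81 * wt 10 D := by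
  have h1 : (3 + D) ^ 4 ≤ 81 * (1 + D) ^ 4 := by
    have : (3 + D) ^ 4 ≤ (3 * (1 + D)) ^ 4 := pow_le_pow_left₀ (by positivity) (by linarith) 4
    calc (3 + D) ^ 4 ≤ (3 * (1 + D)) ^ 4 := this
      _ = 81 * (1 + D) ^ 4 := by ring
  have h2 : (1 + D) ^ 4 * wt 18 D = wt 14 D := by
    unfold wt
    rw [abs_of_nonneg hD]
    have : (1 + D) ^ 18 = (1 + D) ^ 4 * (1 + D) ^ 14 := by ring
    rw [this, mul_inv, ← mul_assoc, mul_inv_cancel₀ (by positivity), one_mul]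
  calc (3 + D) ^ 4 * wt 18 D ≤ 81 * (1 + D) ^ 4 * wt 18 D :=
        mul_le_mul_of_nonneg_right h1 (wt_nonneg _ _)
    _ = 81 * wt 14 D := by rw [mul_assoc, h2]
    _ ≤ 81 * wt 10 D := mul_le_mul_of_nonneg_left (wt_mono (by norm_num) D) (by norm_num)

end TA2_

theorem p_TA2 (hDNW : T_DNW) : T_TA2 := by
  refine ⟨1296, by norm_num, ?_⟩
  intro lam F E k l hF hfF hE hlam hne hEG
  set W : Set ℝ := {d | ∃ x, x ∉ GG lam F ∧ d = |(2 : ℝ) ^ (-k) * x - l|} with hW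
  have hWne : W.Nonempty := by
    obtain ⟨x, hx⟩ := hne
    exact ⟨_, x, hx, rfl⟩
  have hWbd : BddBelow W := ⟨0, by rintro d ⟨x, _, rfl⟩; exact abs_nonneg _⟩
  have hD0 : 0 ≤ sInf W := le_csInf hWne (by rintro d ⟨x, _, rfl⟩; exact abs_nonneg _)
  obtain ⟨d, ⟨z, hz, rfl⟩, hzd⟩ := exists_lt_of_csInf_lt hWne (lt_add_one (sInf W))
  refine ⟨sInf W, hD0, ⟨z, hz, hzd.le⟩, ?_⟩
  have h1 := TA2_.part_E hE k l hD0 fun x hx => csInf_le hWbd ⟨x, hEG x hx, rfl⟩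
  have h2 := TA2_.part_F hDNW hF hfF hlam hz hzd.le
  have h3 := TA2_.fin hD0
  have hp : (0 : ℝ) < (2 : ℝ) ^ k := two_zpow_pos k
  have hn : (0 : ℝ) < (2 : ℝ) ^ (-k) := two_zpow_pos (-k)
  have hkk : (2 : ℝ) ^ (-k) * (2 : ℝ) ^ k = 1 := two_zpow_neg_mul k
  set D := sInf W with hD
  have hE0 : 0 ≤ ∫ x in E, wt 20 ((2 : ℝ) ^ (-k) * x - l) :=
    integral_nonneg fun x => TA2_.wt_nonneg _ _
  have h4 : (2 : ℝ) ^ (-k) * (∫ x in F, wt 20 ((2 : ℝ) ^ (-k) * x - l)) ≤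
      (3 + D) ^ 4 * (8 * lam) := by
    calc (2 : ℝ) ^ (-k) * (∫ x in F, wt 20 ((2 : ℝ) ^ (-k) * x - l))
        ≤ (2 : ℝ) ^ (-k) * ((3 + D) ^ 4 * (8 * lam * (2 : ℝ) ^ k)) :=
          mul_le_mul_of_nonneg_left h2 hn.le
      _ = ((2 : ℝ) ^ (-k) * (2 : ℝ) ^ k) * ((3 + D) ^ 4 * (8 * lam)) := by ring
      _ = (3 + D) ^ 4 * (8 * lam) := by rw [hkk, one_mul]
  calc (2 : ℝ) ^ (-k) * (∫ x in F, wt 20 ((2 : ℝ) ^ (-k) * x - l)) *
        (∫ x in E, wt 20 ((2 : ℝ) ^ (-k) * x - l))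
      ≤ (3 + D) ^ 4 * (8 * lam) * (2 * (2 : ℝ) ^ k * wt 18 D) :=
        mul_le_mul h4 h1 hE0 (by positivity)
    _ = 16 * lam * (2 : ℝ) ^ k * ((3 + D) ^ 4 * wt 18 D) := by ring
    _ ≤ 16 * lam * (2 : ℝ) ^ k * (81 * wt 10 D) := mul_le_mul_of_nonneg_left h3 (by positivity)
    _ = 1296 * lam * (2 : ℝ) ^ k * wt 10 D := by ring

end Pool.Agent.CAR
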