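import Pool.Agent.CAR.STargets

set_option autoImplicit false

/-!
# CAR, target TAI: tiles in the exceptional set
-/

namespace Pool.Agent.CAR

open MeasureTheory Set ComplexConjugate
open scoped ENNReal NNReal

namespace TAI_

theorem vol_mono {A B : Set ℝ} (h : A ⊆ B) (hB : volume B ≠ ⊤) : vol A ≤ vol B :=
  ENNReal.toReal_mono hB (measure_mono h)

theorem heavy_scale {lam : ℝ} {F : Set ℝ} {k l : ℤ} (hlam : 0 < lam) (hF : volume F ≠ ⊤)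
    (h : heavy lam F k l) : lam * (2 : ℝ) ^ k < vol F := by
  obtain ⟨r, hr, h⟩ := h
  have h1 : vol {x | x ∈ F ∧ |(2 : ℝ) ^ (-k) * x - l| ≤ r} ≤ vol F :=
    vol_mono (fun x hx => hx.1) hF
  have h2 := two_zpow_pos k
  have h3 : lam * (2 : ℝ) ^ k ≤ lam * r * (2 : ℝ) ^ k := by
    have : 0 < lam * (2 : ℝ) ^ k := by positivity
    nlinarith
  linarith

theorem scale_bdd {lam : ℝ} {F : Set ℝ} (hlam : 0 < lam) (hF : volume F ≠ ⊤) :
    ∃ n : ℤ, ∀ k l : ℤ, heavy lam F k l → k ≤ n := by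
  obtain ⟨n, hn⟩ := pow_unbounded_of_one_lt (vol F / lam) (one_lt_two)
  refine ⟨n, fun k l h => ?_⟩
  have h1 := heavy_scale hlam hF h
  by_contra hk
  push Not at hk
  have h2 : (2 : ℝ) ^ (n : ℤ) ≤ (2 : ℝ) ^ k := two_zpow_le hk.le
  rw [zpow_natCast] at h2
  have h3 : vol F < lam * 2 ^ n := by
    rw [div_lt_iff₀ hlam] at hn
    linarith
  have h4 : lam * 2 ^ n ≤ lam * (2 : ℝ) ^ k := mul_le_mul_of_nonneg_left h2 hlam.le
  linarith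

theorem exists_J {lam : ℝ} {F : Set ℝ} (hlam : 0 < lam) (hF : volume F ≠ ⊤) (p : ℤ × ℤ)
    (h : ∃ k l : ℤ, dy p.1 p.2 ⊆ dy k l ∧ heavy lam F k l) :
    ∃ q : ℤ × ℤ, dy p.1 p.2 ⊆ dy q.1 q.2 ∧ heavy lam F q.1 q.2 ∧
      ∀ k l : ℤ, dy p.1 p.2 ⊆ dy k l → heavy lam F k l → k ≤ q.1 := by
  obtain ⟨n, hn⟩ := scale_bdd hlam hF
  obtain ⟨k, l, h1, h2⟩ := h
  obtain ⟨u, ⟨l', h3, h4⟩, h5⟩ := Int.exists_greatest_of_bdd
    (P := fun k => ∃ l, dy p.1 p.2 ⊆ dy k l ∧ heavy lam F k l)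
    ⟨n, fun z ⟨l, _, h⟩ => hn z l h⟩ ⟨k, l, h1, h2⟩
  exact ⟨(u, l'), h3, h4, fun k l h6 h7 => h5 k ⟨l, h6, h7⟩⟩

theorem J_alt {lam : ℝ} {F : Set ℝ} {p J K : ℤ × ℤ}
    (hJ : dy p.1 p.2 ⊆ dy J.1 J.2) (hJm : ∀ k l : ℤ, dy p.1 p.2 ⊆ dy k l →
      heavy lam F k l → k ≤ J.1) (hK : heavy lam F K.1 K.2) (h : J.1 ≤ K.1) :
    J = K ∨ Disjoint (dy J.1 J.2) (dy K.1 K.2) := by
  rcases dy_nest (l := J.2) (l' := K.2) h with h1 | h1
  · left
    have h2 := hJm K.1 K.2 (hJ.trans h1) hK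
    have h3 : J.1 = K.1 := le_antisymm h h2
    refine Prod.ext h3 ?_
    have h4 := h1 (left_mem_dy J.1 J.2)
    rw [← h3] at h4
    exact dy_eq_of_mem (left_mem_dy J.1 J.2) h4
  · right
    exact h1

end TAI_

theorem p_TAI (hEXC : T_EXC) (hTA1 : T_TA1) (hTA2 : T_TA2) (hTA3 : T_TA3) : T_TAI := by
  classical
  intro A
  obtain ⟨C4, hC4, hEXC⟩ := hEXC
  obtain ⟨C1, hC1, hTA1⟩ := hTA1 A
  obtain ⟨C2, hC2, hTA2⟩ := hTA2
  obtain ⟨C3, hC3, hTA3⟩ := hTA3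
  refine ⟨C1 * C2 * C3 * C4, by positivity, ?_⟩
  intro φ Φ hW f b N F E lam hf hb hN hlam hE S hS
  obtain ⟨hGm, hGv⟩ := hEXC lam F hf.mF hf.fF hlam
  have hGf : volume (GG lam F) ≠ ⊤ := ne_top_of_le_ne_top ENNReal.ofReal_ne_top hGv
  have hvF : 0 ≤ vol F := ENNReal.toReal_nonneg
  have hvG : vol (GG lam F) ≤ C4 * vol F / lam :=
    ENNReal.toReal_le_of_le_ofReal (by positivity) hGv
  have hex : ∃ x, x ∉ GG lam F := by
    by_contra h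
    push Not at h
    exact hGf (by rw [eq_univ_of_forall h, Real.volume_univ])
  choose D hD0 hDx hDb using fun p : ℤ × ℤ =>
    hTA2 lam F E p.1 p.2 hf.mF hf.fF hb.mF hlam hex hE
  set P : Finset (ℤ × ℤ) := S.image (fun s => (s.k, s.l)) with hP
  have hJ : ∀ p : ℤ × ℤ, ∃ q : ℤ × ℤ, p ∈ P → dy p.1 p.2 ⊆ dy q.1 q.2 ∧
      heavy lam F q.1 q.2 ∧ ∀ k l : ℤ, dy p.1 p.2 ⊆ dy k l → heavy lam F k l → k ≤ q.1 := by
    intro p
    by_cases hp : p ∈ P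
    · obtain ⟨s, hs, rfl⟩ := Finset.mem_image.1 hp
      obtain ⟨q, hq⟩ := TAI_.exists_J hlam hf.fF (s.k, s.l) (hS s hs)
      exact ⟨q, fun _ => hq⟩
    · exact ⟨p, fun h => absurd h hp⟩
  choose J hJ using hJ
  have hJG : ∀ p ∈ P, dy (J p).1 (J p).2 ⊆ GG lam F := fun p hp x hx =>
    ⟨(J p).1, (J p).2, hx, (hJ p hp).2.1⟩
  have h3 := hTA3 (GG lam F) hGm hGf P J D (fun p hp => ⟨(hJ p hp).1, hJG p hp⟩)
    (fun p hp q hq => ?_) (fun p hp => ⟨hD0 p, ?_⟩)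
  · have hmaps : ∀ s ∈ S, (s.k, s.l) ∈ P := fun s hs => Finset.mem_image_of_mem _ hs
    calc ∑ s ∈ S, ‖cf φ f s‖ * ‖av φ b N s‖
        = ∑ p ∈ P, ∑ s ∈ S with (s.k, s.l) = p, ‖cf φ f s‖ * ‖av φ b N s‖ :=
          (Finset.sum_fiberwise_of_maps_to hmaps _).symm
      _ ≤ ∑ p ∈ P, C1 * C2 * lam * ((2 : ℝ) ^ p.1 * wt 10 (D p)) := by
          refine Finset.sum_le_sum fun p _ => ?_
          have h4 := hTA1 φ Φ hW f b N F E hf hb hN p.1 p.2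
            (S.filter (fun s => (s.k, s.l) = p)) (fun s hs => by
              have := (Finset.mem_filter.1 hs).2
              exact ⟨congrArg Prod.fst this, congrArg Prod.snd this⟩)
          refine h4.trans ?_
          have h5 := mul_le_mul_of_nonneg_left (hDb p) hC1.le
          calc C1 * (2 : ℝ) ^ (-p.1) * (∫ x in F, wt 20 ((2 : ℝ) ^ (-p.1) * x - p.2)) *
                ∫ x in E, wt 20 ((2 : ℝ) ^ (-p.1) * x - p.2)
              = C1 * ((2 : ℝ) ^ (-p.1) * (∫ x in F, wt 20 ((2 : ℝ) ^ (-p.1) * x - p.2)) *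
                ∫ x in E, wt 20 ((2 : ℝ) ^ (-p.1) * x - p.2)) := by ring
            _ ≤ _ := h5
            _ = _ := by ring
      _ = C1 * C2 * lam * ∑ p ∈ P, (2 : ℝ) ^ p.1 * wt 10 (D p) := by rw [Finset.mul_sum]
      _ ≤ C1 * C2 * lam * (C3 * (C4 * vol F / lam)) := by
          refine mul_le_mul_of_nonneg_left (h3.trans ?_) (by positivity)
          exact mul_le_mul_of_nonneg_left hvG hC3.le
      _ = _ := by field_simp
  · rcases le_total (J p).1 (J q).1 with h | h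
    · exact TAI_.J_alt (hJ p hp).1 (hJ p hp).2.2 (hJ q hq).2.1 h
    · rcases TAI_.J_alt (hJ q hq).1 (hJ q hq).2.2 (hJ p hp).2.1 h with h1 | h1
      · exact Or.inl h1.symm
      · exact Or.inr h1.symm
  · obtain ⟨x, hx, hx2⟩ := hDx p
    exact ⟨x, fun h => hx (hJG p hp h), hx2⟩

end Pool.Agent.CAR
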