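import Pool.Agent.CAR.STargets

set_option autoImplicit false

/-!
# The Carleson operator on the line, target TH1: oscillation on stopping intervals
-/

namespace Pool.Agent.CAR

open MeasureTheory Set ComplexConjugate
open scoped ENNReal NNReal

namespace TH1_

theorem norm_e1 (x : ℝ) : ‖e1 x‖ = 1 := by
  unfold e1
  rw [show (2 * (Real.pi : ℂ) * Complex.I * (x : ℂ)) = ((2 * Real.pi * x : ℝ) : ℂ) * Complex.I by
    push_cast
    ring]
  exact Complex.norm_exp_ofReal_mul_I _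

theorem hs_pos (s : Tile) : 0 < hs s := inv_pos.2 (Real.sqrt_pos.2 (two_zpow_pos _))

theorem wt_pos (n : ℕ) (t : ℝ) : 0 < wt n t := by
  unfold wt
  positivity

theorem wt_anti {m n : ℕ} (h : m ≤ n) (t : ℝ) : wt n t ≤ wt m t := by
  unfold wt
  have h1 : (1 : ℝ) ≤ 1 + |t| := by
    have := abs_nonneg t
    linarith
  exact inv_anti₀ (by positivity) (pow_le_pow_right₀ h1 h)

theorem wt_two {t t' : ℝ} (h : 1 + |t'| ≤ 2 * (1 + |t|)) : wt 10 t ≤ 2 ^ 10 * wt 10 t' := by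
  unfold wt
  rw [← div_eq_mul_inv, le_div_iff₀ (by positivity), inv_mul_le_iff₀ (by positivity)]
  calc (1 + |t'|) ^ 10 ≤ (2 * (1 + |t|)) ^ 10 := pow_le_pow_left₀ (by positivity) h 10
    _ = (1 + |t|) ^ 10 * 2 ^ 10 := by ring

theorem norm_fx {A : ℝ} {φ Φ : ℝ → ℂ} (h : WPk A φ Φ) (s : Tile) (x : ℝ) :
    ‖fx φ s x‖ ≤ A * hs s * wt 20 (s.u x) := by
  unfold fx
  rw [norm_mul, norm_mul, norm_e1, mul_one, Complex.norm_real, Real.norm_eq_abs]
  have h1 := hs_pos s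
  have h2 : |(Real.sqrt ((2 : ℝ) ^ s.k))⁻¹| = hs s := abs_of_pos h1
  rw [h2]
  have h3 := mul_le_mul_of_nonneg_left (h.dec (s.u x)) h1.le
  linarith

theorem dist_u (s : Tile) (x y : ℝ) : |s.u x - s.u y| = (2 : ℝ) ^ (-s.k) * |x - y| := by
  have h : s.u x - s.u y = (2 : ℝ) ^ (-s.k) * (x - y) := by
    unfold Tile.u
    ring
  rw [h, abs_mul, abs_of_pos (two_zpow_pos _)]

theorem dist_J {κ : ℝ → ℤ} {x y : ℝ} (h : y ∈ Jx κ x) : |x - y| ≤ (2 : ℝ) ^ (κ x) := by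
  have h1 : x ∈ Jx κ x := exists_mem_dy (κ x) x
  unfold Jx dy at h h1
  rw [mem_Ico] at h h1
  rw [abs_le]
  constructor <;> nlinarith [h.1, h.2, h1.1, h1.2]

theorem dist_u_le {κ : ℝ → ℤ} (s : Tile) {x y : ℝ} (h : y ∈ Jx κ x) :
    (2 : ℝ) ^ (-s.k) * |x - y| ≤ (2 : ℝ) ^ (κ x - s.k) := by
  have h1 := mul_le_mul_of_nonneg_left (dist_J h) (two_zpow_pos (-s.k)).le
  rwa [← zpow_add₀ (by norm_num : (2 : ℝ) ≠ 0), show -s.k + κ x = κ x - s.k by ring] at h1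

theorem moved {T : Finset Tile} {κ : ℝ → ℤ} (hT : Stop T κ) {s : Tile} (hsT : s ∈ T) {x y : ℝ}
    (h : y ∈ Jx κ x) : 1 + |s.u x| ≤ 2 * (1 + |s.u y|) := by
  have h1 : |s.u x| ≤ |s.u y| + (2 : ℝ) ^ (κ x - s.k) := by
    have h2 := dist_u_le s h
    rw [← dist_u] at h2
    have h3 := abs_sub_abs_le_abs_sub (s.u x) (s.u y)
    linarith
  rcases le_or_gt s.k (κ x) with h2 | h2
  · have h3 := hT.far y s hsT (by rw [hT.const x y h]; exact h2)
    rw [hT.const x y h] at h3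
    linarith
  · have h3 : (2 : ℝ) ^ (κ x - s.k) ≤ 1 := by
      have := two_zpow_le (show κ x - s.k ≤ 0 by omega)
      simpa using this
    have h4 := abs_nonneg (s.u y)
    linarith

end TH1_

open TH1_ in
/-- Target TH1. -/
theorem p_TH1 (hOSC : T_OSC) : T_TH1 := by
  intro A
  obtain ⟨C, hC, hO⟩ := hOSC A
  refine ⟨C + |A| * 1025, by positivity, fun φ Φ hW T κ hT s hsT ξ hξ x y hy => ?_⟩
  have hA : |A| = A := abs_of_pos hW.pos
  have hA0 := hW.pos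
  have hh := hs_pos s
  have h2 : wt 10 (s.u y) ≤ 2 ^ 10 * wt 10 (s.u x) := wt_two (moved hT hsT hy)
  refine ⟨?_, h2⟩
  have hw := wt_pos 10 (s.u x)
  rw [hA]
  rcases le_or_gt s.k (κ x) with h3 | h3
  · have h4 : min 1 ((2 : ℝ) ^ (κ x - s.k)) = 1 := by
      refine min_eq_left ?_
      have := two_zpow_le (show 0 ≤ κ x - s.k by omega)
      simpa using this
    rw [h4, mul_one]
    have h5 : ‖fx φ s x * e1 (-(x * ξ))‖ ≤ A * hs s * wt 10 (s.u x) := by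
      rw [norm_mul, norm_e1, mul_one]
      exact (norm_fx hW s x).trans
        (mul_le_mul_of_nonneg_left (wt_anti (by norm_num) _) (by positivity))
    have h6 : ‖fx φ s y * e1 (-(y * ξ))‖ ≤ A * hs s * (2 ^ 10 * wt 10 (s.u x)) := by
      rw [norm_mul, norm_e1, mul_one]
      exact (norm_fx hW s y).trans
        (mul_le_mul_of_nonneg_left ((wt_anti (by norm_num) _).trans h2) (by positivity))
    have h7 := norm_sub_le (fx φ s x * e1 (-(x * ξ))) (fx φ s y * e1 (-(y * ξ)))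
    have h8 : 0 ≤ C * hs s * wt 10 (s.u x) := by positivity
    calc ‖fx φ s x * e1 (-(x * ξ)) - fx φ s y * e1 (-(y * ξ))‖
        ≤ A * hs s * wt 10 (s.u x) + A * hs s * (2 ^ 10 * wt 10 (s.u x)) := by linarith
      _ ≤ C * hs s * wt 10 (s.u x) + (A * hs s * wt 10 (s.u x) +
          A * hs s * (2 ^ 10 * wt 10 (s.u x))) := by linarith
      _ = (C + A * 1025) * hs s * wt 10 (s.u x) := by ring
  · have h4 : (2 : ℝ) ^ (κ x - s.k) ≤ 1 := by
      have := two_zpow_le (show κ x - s.k ≤ 0 by omega)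
      simpa using this
    rw [min_eq_right h4]
    have h5 : |x - y| ≤ (2 : ℝ) ^ s.k := (dist_J hy).trans (two_zpow_le h3.le)
    have h6 := hO φ Φ hW s ξ hξ x y h5
    have h7 := dist_u_le s hy
    have h8 : C * hs s * ((2 : ℝ) ^ (-s.k) * |x - y|) * wt 10 (s.u x) ≤
        C * hs s * (2 : ℝ) ^ (κ x - s.k) * wt 10 (s.u x) :=
      mul_le_mul_of_nonneg_right (mul_le_mul_of_nonneg_left h7 (by positivity)) hw.le
    have h9 := two_zpow_pos (κ x - s.k)
    have h10 : 0 ≤ A * 1025 * hs s * (2 : ℝ) ^ (κ x - s.k) * wt 10 (s.u x) := by positivity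
    calc ‖fx φ s x * e1 (-(x * ξ)) - fx φ s y * e1 (-(y * ξ))‖
        ≤ C * hs s * (2 : ℝ) ^ (κ x - s.k) * wt 10 (s.u x) := h6.trans h8
      _ ≤ C * hs s * (2 : ℝ) ^ (κ x - s.k) * wt 10 (s.u x) +
          A * 1025 * hs s * (2 : ℝ) ^ (κ x - s.k) * wt 10 (s.u x) := by linarith
      _ = (C + A * 1025) * hs s * (2 : ℝ) ^ (κ x - s.k) * wt 10 (s.u x) := by ring

end Pool.Agent.CAR
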