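import Pool.Agent.CAR.STargets
import Pool.Agent.CAR.P_FXB
import Pool.Agent.H25.Plancherel

set_option autoImplicit false

/-!
# CAR: transfer to the Fourier side
-/

namespace Pool.Agent.CAR

open MeasureTheory Set Filter Topology ComplexConjugate FourierTransform
open scoped ENNReal

namespace TRF_

theorem ft_eq (f : ℝ → ℂ) : ft f = 𝓕 f := by
  funext ξ
  rw [Real.fourier_real_eq_integral_exp_smul]
  unfold ft
  refine integral_congr_ae (Eventually.of_forall fun x => ?_)
  show f x * e1 (-(x * ξ)) = Complex.exp (((-2 * Real.pi * x * ξ : ℝ) : ℂ) * Complex.I) • f x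
  rw [smul_eq_mul, mul_comm]
  congr 1
  unfold e1
  congr 1
  push_cast
  ring

theorem ft_cont {f : ℝ → ℂ} (hf : Integrable f) : Continuous (ft f) := by
  rw [ft_eq]
  have := VectorFourier.fourierIntegral_continuous (V := ℝ) (W := ℝ)
    Real.continuous_fourierChar (L := innerₗ ℝ) continuous_inner hf
  exact this

theorem ft_bound (f : ℝ → ℂ) (ξ : ℝ) : ‖ft f ξ‖ ≤ ∫ x, ‖f x‖ := by
  unfold ft
  refine (norm_integral_le_integral_norm _).trans (le_of_eq ?_)
  refine integral_congr_ae (Eventually.of_forall fun x => ?_)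
  show ‖f x * e1 (-(x * ξ))‖ = ‖f x‖
  rw [norm_mul, PK.norm_e1, mul_one]

theorem memLp_of {f : ℝ → ℂ} (hm : Measurable f) (h2 : Integrable (fun x => ‖f x‖ ^ 2)) :
    MemLp f 2 := (memLp_two_iff_integrable_sq_norm hm.aestronglyMeasurable).2 h2

theorem ft_sq {f : ℝ → ℂ} (hm : Measurable f) (h1 : Integrable f)
    (h2 : Integrable (fun x => ‖f x‖ ^ 2)) :
    Integrable (fun ξ => ‖ft f ξ‖ ^ 2) ∧ ∫ ξ, ‖ft f ξ‖ ^ 2 = ∫ x, ‖f x‖ ^ 2 := by
  have hL := memLp_of hm h2
  have hP := Pool.Agent.H25.Plancherel.eLpNorm_fourier_eq h1 hL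
  rw [← ft_eq] at hP
  have hL2 : MemLp (ft f) 2 := by
    refine ⟨(ft_cont h1).aestronglyMeasurable, ?_⟩
    rw [hP]
    exact hL.2
  have hI := (memLp_two_iff_integrable_sq_norm (ft_cont h1).aestronglyMeasurable).1 hL2
  refine ⟨hI, ?_⟩
  have e1 : ∀ g : ℝ → ℂ, MemLp g 2 → Integrable (fun x => ‖g x‖ ^ 2) →
      ENNReal.ofReal (∫ x, ‖g x‖ ^ 2) = (eLpNorm g 2) ^ 2 := by
    intro g hg hgi
    rw [ofReal_integral_eq_lintegral_ofReal hgi (Eventually.of_forall fun x => by positivity)]
    rw [eLpNorm_eq_lintegral_rpow_enorm_toReal (by norm_num) (by norm_num)]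
    rw [← ENNReal.rpow_natCast, ← ENNReal.rpow_mul]
    norm_num
  have e2 := e1 _ hL2 hI
  have e3 := e1 _ hL h2
  rw [hP, ← e3] at e2
  have n1 : 0 ≤ ∫ ξ, ‖ft f ξ‖ ^ 2 := integral_nonneg fun x => by positivity
  have n2 : 0 ≤ ∫ x, ‖f x‖ ^ 2 := integral_nonneg fun x => by positivity
  exact (ENNReal.ofReal_eq_ofReal_iff n1 n2).1 e2

theorem inner {A : ℝ} {φ Φ : ℝ → ℂ} (h : WPk A φ Φ) {f : ℝ → ℂ} (hm : Measurable f)
    (h1 : Integrable f) (s : Tile) :
    ∫ ξ, ft f ξ * conj (fr Φ s ξ) = cf φ f s := by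
  have hF : Integrable (fun z : ℝ × ℝ => f z.2 * e1 (-(z.2 * z.1)) * conj (fr Φ s z.1))
      (volume.prod volume) := by
    have h2 : Integrable (fun z : ℝ × ℝ => conj (fr Φ s z.1) * f z.2)
        (volume.prod volume) := by
      refine Integrable.mul_prod (f := fun x => conj (fr Φ s x)) ?_ h1
      exact (PK.integrable_fr h s).mono
        (Complex.continuous_conj.comp (PK.continuous_fr h s)).aestronglyMeasurable
        (Eventually.of_forall fun x => by simp)
    refine h2.mono ?_ (Eventually.of_forall fun z => ?_)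
    · have a1 : Measurable fun z : ℝ × ℝ => f z.2 := hm.comp measurable_snd
      have a2 : Measurable fun z : ℝ × ℝ => conj (fr Φ s z.1) :=
        (Complex.continuous_conj.comp (PK.continuous_fr h s)).measurable.comp measurable_fst
      have a3 : Measurable fun z : ℝ × ℝ => e1 (-(z.2 * z.1)) :=
        PK.continuous_e1.measurable.comp ((measurable_snd.mul measurable_fst).neg)
      exact ((a1.mul a3).mul a2).aestronglyMeasurable
    · simp only [norm_mul, PK.norm_e1, mul_one, RCLike.norm_conj]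
      rw [mul_comm]
  calc ∫ ξ, ft f ξ * conj (fr Φ s ξ)
      = ∫ ξ, ∫ x, f x * e1 (-(x * ξ)) * conj (fr Φ s ξ) := by
        congr 1
        funext ξ
        rw [integral_mul_const]
        rfl
    _ = ∫ x, ∫ ξ, f x * e1 (-(x * ξ)) * conj (fr Φ s ξ) := integral_integral_swap hF
    _ = cf φ f s := by
        unfold cf
        congr 1
        funext x
        rw [PK.fx_inv h s x, ← integral_conj, ← integral_const_mul]
        congr 1
        funext ξ
        rw [map_mul, PK.conj_e1]
        ring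

end TRF_

open TRF_ in
theorem p_TRF : T_TRF := by
  intro A φ Φ h f hm h1 h2 S
  set K : Set ℝ := ⋃ s ∈ S, s.lo with hK
  have hKm : MeasurableSet K := Finset.measurableSet_biUnion _ fun s _ => measurableSet_dy _ _
  have hKf : volume K < ⊤ := by
    refine (measure_biUnion_finset_le _ _).trans_lt ?_
    refine ENNReal.sum_lt_top.2 fun s _ => ?_
    rw [Tile.lo, volume_dy]
    exact ENNReal.ofReal_lt_top
  obtain ⟨hs1, hs2⟩ := ft_sq hm h1 h2
  have hc := ft_cont h1
  have hgm : Measurable (K.indicator (ft f)) := hc.measurable.indicator hKm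
  have hsq : (fun ξ => ‖K.indicator (ft f) ξ‖ ^ 2) = K.indicator (fun ξ => ‖ft f ξ‖ ^ 2) := by
    funext ξ
    by_cases hξ : ξ ∈ K
    · rw [indicator_of_mem hξ, indicator_of_mem hξ]
    · rw [indicator_of_notMem hξ, indicator_of_notMem hξ]
      simp
  refine ⟨K.indicator (ft f), hgm, ?_, ?_, ?_, ?_⟩
  · rw [integrable_indicator_iff hKm]
    refine Measure.integrableOn_of_bounded (M := ∫ x, ‖f x‖) hKf.ne
      hc.aestronglyMeasurable ?_
    exact Eventually.of_forall fun ξ => ft_bound f ξ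
  · rw [hsq]
    exact hs1.indicator hKm
  · unfold n2
    refine Real.sqrt_le_sqrt ?_
    rw [hsq, ← hs2, integral_indicator hKm]
    exact setIntegral_le_integral hs1 (Eventually.of_forall fun x => by positivity)
  · intro s hs
    rw [← inner h hm h1 s]
    unfold co
    congr 1
    funext ξ
    by_cases hξ : ξ ∈ K
    · rw [indicator_of_mem hξ]
    · rw [indicator_of_notMem hξ, zero_mul]
      have h0 : fr Φ s ξ = 0 := by
        by_contra hne
        apply hξ
        rw [hK, mem_iUnion₂]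
        exact ⟨s, hs, FXB_.mem_lo h hne⟩
      rw [h0, map_zero, mul_zero]

end Pool.Agent.CAR
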