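import Pool.Agent.CAR.P_MODEL
import Pool.Agent.CAR.P_CHI2
import Pool.Agent.CAR.P_OSC
import Pool.Agent.CAR.P_TH1
import Pool.Agent.CAR.P_SMC
import Pool.Agent.CAR.P_FAV
import Pool.Agent.CAR.P_PRJ
import Pool.Agent.CAR.P_ERR
import Pool.Agent.CAR.P_DSQ
import Pool.Agent.CAR.P_ENB
import Pool.Agent.CAR.P_ENF
import Pool.Agent.CAR.P_DNW
import Pool.Agent.CAR.P_EXC
import Pool.Agent.CAR.P_TA1
import Pool.Agent.CAR.P_TA2
import Pool.Agent.CAR.P_TA3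
import Pool.Agent.CAR.P_TAI
import Pool.Agent.CAR.P_STP2
import Pool.Agent.CAR.P_SUM2
import Pool.Agent.CAR.P_TRF
import Pool.Agent.CAR.P_RA
import Pool.Agent.CAR.P_RB
import Pool.Agent.CAR.P_MAR
import Pool.Agent.CAR.P_INT
import Pool.Agent.CAR.P_MODS

set_option autoImplicit false

/-!
# CAR: the model sum, strong type
-/

namespace Pool.Agent.CAR

theorem q_TH1 : T_TH1 := p_TH1 (p_OSC p_CHI2)

theorem q_ENB : T_ENB := p_ENB p_DSQ

theorem q_ENF : T_ENF := p_ENF p_FAV (p_ERR q_TH1 p_PRJ) q_ENB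

theorem q_TAI : T_TAI := p_TAI p_EXC p_TA1 (p_TA2 p_DNW) p_TA3

theorem q_SUM2 : T_SUM2 := p_SUM2 q_DNB (p_STP2 q_DNB q_ENER p_MASS q_TREE)

theorem q_RA : T_RA := p_RA p_TRF q_ENB q_SUM2

theorem q_RB : T_RB := p_RB p_TRF q_ENF q_SUM2 p_EXC q_TAI q_RA

/-- **MODEL, strong type** -/
theorem q_MODS : T_MODS := p_MODS (p_INT q_RA q_RB p_MAR)

end Pool.Agent.CAR
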