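import Pool.Agent.CAR.STargets
import Pool.Agent.CAR.P_WTS

set_option autoImplicit false

/-!
# CAR: sum over the intervals in a set (TA3)
-/

namespace Pool.Agent.CAR

open MeasureTheory Set
open scoped ENNReal NNReal

namespace TA3_

theorem wt_cmp {D d : ℝ} (hD : 0 ≤ D) (h : |d| ≤ D + 1) : wt 10 D ≤ 2 ^ 10 * wt 10 d := by
  unfold wt
  rw [abs_of_nonneg hD]
  have h0 := abs_nonneg d
  rw [← div_eq_mul_inv, le_div_iff₀ (by positivity), inv_mul_le_iff₀ (by positivity)]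
  calc (1 + |d|) ^ 10 ≤ (2 * (1 + D)) ^ 10 := by gcongr; linarith
    _ = (1 + D) ^ 10 * 2 ^ 10 := by ring

theorem geo (K : Finset ℤ) (k' : ℤ) (h : ∀ k ∈ K, k ≤ k') :
    ∑ k ∈ K, (2 : ℝ) ^ k ≤ 2 * (2 : ℝ) ^ k' := by
  have hinj : Set.InjOn (fun k : ℤ => (k' - k).toNat) (K : Set ℤ) := by
    intro x hx y hy hxy
    have h1 := h x hx
    have h2 := h y hy
    simp only at hxy
    omega
  have e : ∑ k ∈ K, (2 : ℝ) ^ k =
      (2 : ℝ) ^ k' * ∑ n ∈ K.image (fun k : ℤ => (k' - k).toNat), ((1 : ℝ) / 2) ^ n := by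
    rw [Finset.sum_image hinj, Finset.mul_sum]
    refine Finset.sum_congr rfl fun k hk => ?_
    have h1 := h k hk
    obtain ⟨n, hn⟩ : ∃ n : ℕ, k' = k + n := ⟨(k' - k).toNat, by omega⟩
    subst hn
    have e : (k + n - k).toNat = n := by omega
    rw [e, zpow_add₀ (by norm_num), zpow_natCast, mul_assoc, ← mul_pow]
    norm_num
  rw [e]
  have h1 := sum_le_hasSum (K.image (fun k : ℤ => (k' - k).toNat)) (fun n _ => by positivity)
    hasSum_geometric_two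
  have h2 := two_zpow_pos k'
  nlinarith

/-- one point -/
theorem point {k l k' l' : ℤ} {D x : ℝ} (hD : 0 ≤ D) (hs : dy k l ⊆ dy k' l')
    (hx : x ∉ dy k' l') (h : |(2 : ℝ) ^ (-k) * x - l| ≤ D + 1) :
    wt 10 D ≤ 2 ^ 10 * (wt 10 ((2 : ℝ) ^ (k' - k) * l' - l) +
      wt 10 ((2 : ℝ) ^ (k' - k) * (l' + 1) - l)) := by
  have hl := hs (left_mem_dy k l)
  rw [dy, mem_Ico] at hl
  have hk := two_zpow_pos (-k)
  have e1 : ∀ y : ℝ, (2 : ℝ) ^ (k' - k) * y = (2 : ℝ) ^ (-k) * ((2 : ℝ) ^ k' * y) := by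
    intro y
    rw [sub_eq_add_neg, zpow_add₀ (by norm_num)]; ring
  have e2 : (2 : ℝ) ^ (-k) * ((2 : ℝ) ^ k * l) = l := by
    rw [← mul_assoc, two_zpow_neg_mul, one_mul]
  have h1 : (2 : ℝ) ^ (k' - k) * l' ≤ l := by
    rw [e1]
    calc _ ≤ (2 : ℝ) ^ (-k) * ((2 : ℝ) ^ k * l) := mul_le_mul_of_nonneg_left hl.1 hk.le
      _ = l := e2
  have h2 : (l : ℝ) ≤ (2 : ℝ) ^ (k' - k) * (l' + 1) := by
    rw [e1]
    calc (l : ℝ) = (2 : ℝ) ^ (-k) * ((2 : ℝ) ^ k * l) := e2.symm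
      _ ≤ _ := mul_le_mul_of_nonneg_left hl.2.le hk.le
  have w : ∀ t : ℝ, 0 ≤ wt 10 t := fun t => by unfold wt; positivity
  rw [dy, mem_Ico, not_and_or, not_le, not_lt] at hx
  have w1 := w ((2 : ℝ) ^ (k' - k) * l' - l)
  have w2 := w ((2 : ℝ) ^ (k' - k) * (l' + 1) - l)
  rcases hx with hx | hx
  · have h3 : (2 : ℝ) ^ (-k) * x < (2 : ℝ) ^ (k' - k) * l' := by
      rw [e1]; exact mul_lt_mul_of_pos_left hx hk
    have h4 : |(2 : ℝ) ^ (k' - k) * l' - l| ≤ D + 1 := by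
      refine le_trans ?_ h
      rw [abs_of_nonpos (by linarith), abs_of_nonpos (by linarith)]
      linarith
    have := wt_cmp hD h4
    linarith
  · have h3 : (2 : ℝ) ^ (k' - k) * (l' + 1) ≤ (2 : ℝ) ^ (-k) * x := by
      rw [e1]; exact mul_le_mul_of_nonneg_left hx hk.le
    have h4 : |(2 : ℝ) ^ (k' - k) * (l' + 1) - l| ≤ D + 1 := by
      refine le_trans ?_ h
      rw [abs_of_nonneg (by linarith), abs_of_nonneg (by linarith)]
      linarith
    have := wt_cmp hD h4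
    linarith

theorem wts (t : ℝ) (A : Finset ℤ) : ∑ n ∈ A, wt 10 (t - n) ≤ 8 := by
  have h := p_WTS 10 t 0 A (by norm_num) le_rfl (fun n _ => abs_nonneg _)
  refine h.trans ?_
  unfold wt
  simp

/-- one big interval -/
theorem inner (S : Finset (ℤ × ℤ)) (D : ℤ × ℤ → ℝ) (k' l' : ℤ)
    (h1 : ∀ p ∈ S, dy p.1 p.2 ⊆ dy k' l')
    (h2 : ∀ p ∈ S, 0 ≤ D p ∧ ∃ x, x ∉ dy k' l' ∧ |(2 : ℝ) ^ (-p.1) * x - p.2| ≤ D p + 1) :
    ∑ p ∈ S, (2 : ℝ) ^ p.1 * wt 10 (D p) ≤ 2 ^ 15 * (2 : ℝ) ^ k' := by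
  rw [← Finset.sum_fiberwise_of_maps_to (t := S.image Prod.fst)
    (fun p hp => Finset.mem_image_of_mem Prod.fst hp)]
  have hk : ∀ k ∈ S.image Prod.fst, ∑ p ∈ S with p.1 = k, (2 : ℝ) ^ p.1 * wt 10 (D p) ≤
      2 ^ 14 * (2 : ℝ) ^ k := by
    intro k _
    have hp0 := two_zpow_pos k
    have a1 : ∑ p ∈ S with p.1 = k, (2 : ℝ) ^ p.1 * wt 10 (D p) ≤
        ∑ p ∈ S with p.1 = k, (2 : ℝ) ^ k * (2 ^ 10 * (wt 10 ((2 : ℝ) ^ (k' - k) * l' - p.2) +
          wt 10 ((2 : ℝ) ^ (k' - k) * (l' + 1) - p.2))) := by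
      refine Finset.sum_le_sum fun p hp => ?_
      rw [Finset.mem_filter] at hp
      obtain ⟨hpS, rfl⟩ := hp
      obtain ⟨hD, x, hx, hx2⟩ := h2 p hpS
      exact mul_le_mul_of_nonneg_left (point hD (h1 p hpS) hx hx2) hp0.le
    have hinj : Set.InjOn (Prod.snd : ℤ × ℤ → ℤ) ((S.filter fun p => p.1 = k : Finset _) :
        Set (ℤ × ℤ)) := by
      intro p hp q hq hpq
      simp only [Finset.coe_filter, Set.mem_ofPred_eq] at hp hq
      exact Prod.ext (hp.2.trans hq.2.symm) hpq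
    have a2 : ∑ p ∈ S with p.1 = k, (2 : ℝ) ^ k * (2 ^ 10 *
          (wt 10 ((2 : ℝ) ^ (k' - k) * l' - p.2) +
          wt 10 ((2 : ℝ) ^ (k' - k) * (l' + 1) - p.2))) =
        (2 : ℝ) ^ k * (2 ^ 10 * (∑ n ∈ (S.filter fun p => p.1 = k).image Prod.snd,
          wt 10 ((2 : ℝ) ^ (k' - k) * l' - n) +
          ∑ n ∈ (S.filter fun p => p.1 = k).image Prod.snd,
          wt 10 ((2 : ℝ) ^ (k' - k) * (l' + 1) - n))) := by
      rw [← Finset.sum_add_distrib, Finset.sum_image hinj, Finset.mul_sum, Finset.mul_sum]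
    rw [a2] at a1
    refine a1.trans ?_
    have b1 := wts ((2 : ℝ) ^ (k' - k) * l') ((S.filter fun p => p.1 = k).image Prod.snd)
    have b2 := wts ((2 : ℝ) ^ (k' - k) * (l' + 1)) ((S.filter fun p => p.1 = k).image Prod.snd)
    nlinarith
  refine (Finset.sum_le_sum hk).trans ?_
  rw [← Finset.mul_sum]
  have := geo (S.image Prod.fst) k' (by
    intro k hk
    rw [Finset.mem_image] at hk
    obtain ⟨p, hp, rfl⟩ := hk
    exact le_of_dy_sub (h1 p hp))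
  nlinarith

end TA3_

open TA3_ in
theorem p_TA3 : T_TA3 := by
  refine ⟨2 ^ 15, by norm_num, ?_⟩
  intro G hG hGf P J D hJ hdis hD
  rw [← Finset.sum_fiberwise_of_maps_to (t := P.image J)
    (fun p hp => Finset.mem_image_of_mem J hp)]
  have h1 : ∀ q ∈ P.image J, ∑ p ∈ P with J p = q, (2 : ℝ) ^ p.1 * wt 10 (D p) ≤
      2 ^ 15 * vol (dy q.1 q.2) := by
    intro q _
    have e : vol (dy q.1 q.2) = (2 : ℝ) ^ q.1 := by
      rw [vol, volume_dy, ENNReal.toReal_ofReal (two_zpow_pos _).le]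
    rw [e]
    refine inner _ D q.1 q.2 ?_ ?_
    · intro p hp
      rw [Finset.mem_filter] at hp
      rw [← hp.2]
      exact (hJ p hp.1).1
    · intro p hp
      rw [Finset.mem_filter] at hp
      rw [← hp.2]
      exact hD p hp.1
  refine (Finset.sum_le_sum h1).trans ?_
  rw [← Finset.mul_sum]
  refine mul_le_mul_of_nonneg_left ?_ (by norm_num)
  have hfin : ∀ q ∈ P.image J, volume (dy q.1 q.2) ≠ ⊤ := by
    intro q _
    rw [volume_dy]
    exact ENNReal.ofReal_ne_top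
  unfold vol
  rw [← ENNReal.toReal_sum hfin]
  refine ENNReal.toReal_mono hGf ?_
  rw [← measure_biUnion_finset]
  · refine measure_mono ?_
    intro x hx
    simp only [Set.mem_iUnion, Finset.mem_image, exists_prop] at hx
    obtain ⟨q, ⟨p, hp, rfl⟩, hx⟩ := hx
    exact (hJ p hp).2 hx
  · intro q hq q' hq' hne
    simp only [Finset.coe_image, Set.mem_image, Finset.mem_coe] at hq hq'
    obtain ⟨p, hp, rfl⟩ := hq
    obtain ⟨p', hp', rfl⟩ := hq'
    rcases hdis p hp p' hp' with h | h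
    · exact absurd h hne
    · exact h
  · intro q _
    exact measurableSet_dy _ _

end Pool.Agent.CAR
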