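import Pool.Agent.CAR.MDefs

set_option autoImplicit false

/-!
# The Carleson operator on the line, STRONG TYPE part (helper18): definitions
-/

namespace Pool.Agent.CAR

open MeasureTheory Set ComplexConjugate
open scoped ENNReal NNReal

/-- the coefficient `⟨f, φ_s⟩` on the space side -/
noncomputable def cf (φ f : ℝ → ℂ) (s : Tile) : ℂ := ∫ x, f x * conj (fx φ s x)

/-- Fourier transform -/
noncomputable def ft (f : ℝ → ℂ) (ξ : ℝ) : ℂ := ∫ x, f x * e1 (-(x * ξ))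

/-- `|f| ≤ h 1_F`, `|F| < ∞` -/
structure BF (h : ℝ) (F : Set ℝ) (f : ℝ → ℂ) : Prop where
  m : Measurable f
  mF : MeasurableSet F
  fF : volume F ≠ ⊤
  h0 : 0 ≤ h
  bd : ∀ x, ‖f x‖ ≤ h
  z : ∀ x, x ∉ F → f x = 0

/-- the dyadic interval `dy k l` is heavy: `F` has density `> lam / 2` in a larger interval around
its left end point -/
def heavy (lam : ℝ) (F : Set ℝ) (k l : ℤ) : Prop :=
  ∃ r : ℝ, 1 ≤ r ∧ lam * r * (2 : ℝ) ^ k < vol {x | x ∈ F ∧ |(2 : ℝ) ^ (-k) * x - l| ≤ r}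

/-- the exceptional set: union of all heavy dyadic intervals -/
def GG (lam : ℝ) (F : Set ℝ) : Set ℝ := {x | ∃ k l : ℤ, x ∈ dy k l ∧ heavy lam F k l}

/-- a frequency cut-off with Lipschitz bound -/
structure CutL (B : ℝ) (χ ψ : ℝ → ℂ) : Prop where
  cut : Cut B χ ψ
  lip : ∀ t t' : ℝ, |t - t'| ≤ 1 → ‖ψ t - ψ t'‖ ≤ B * |t - t'| * wt 20 t

end Pool.Agent.CAR
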