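import Pool.Agent.CAR.MDefs

set_option autoImplicit false

/-!
# The Carleson operator on the line, MODEL part (helper18): targets

Each target `T_X` is one job: file `Pool/Agent/CAR/P_X.lean`, `theorem p_X : T_X`; targets named in
brackets are hypotheses of `p_X` (drop those you do not need). The proofs are in the docstrings.
Notation: `k = s.k`; `s.u x = 2^(-k) x - s.l` (so `s.u x ∈ [0, 1)` iff `x ∈ s.I`, and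
`s.u y - s.u x = 2^(-k) (y - x)`); `hs s = 2^(-k/2)`, `hs s * √(2^k) = 1`. Weights:
`wt n (a + b) ≥ wt n a * wt n b` as `1 + |a + b| ≤ (1 + |a|) (1 + |b|)`;
`wt (n + m) = wt n * wt m`; `wt n` is decreasing in `|t|` and in `n`, `0 < wt n ≤ 1`.
If `s.I ⊆ dy K Λ` then `s.k ≤ K` (`le_of_dy_sub`).
-/

namespace Pool.Agent.CAR

open MeasureTheory Set ComplexConjugate
open scoped ENNReal NNReal

/-! ### weights and packets -/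

/-- WTS. Sums of weights. Proof: `wt M = wt (M - 2) * wt 2` and `wt (M - 2) (t - n) ≤ wt (M - 2) D`,
so it is enough that `∑ n ∈ A, wt 2 (t - n) ≤ 8`. With `n0 = ⌊t⌋`: `1 + |t - n| ≥ max 1 |n - n0|`
(`|t - n| ≥ |n - n0| - 1`), so the sum is at most `1 + 2 * ∑_{j ≥ 1} 1 / j ^ 2 ≤ 5` (use
`1 / j ^ 2 ≤ 1 / (j - 1) - 1 / j` for `j ≥ 2`, or the Mathlib value `π ^ 2 / 6`). -/
def T_WTS : Prop := ∀ (M : ℕ) (t D : ℝ) (A : Finset ℤ), 2 ≤ M → 0 ≤ D → (∀ n ∈ A, D ≤ |t - n|) →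
  ∑ n ∈ A, wt M (t - n) ≤ 8 * wt (M - 2) D

/-- WTI. Integrals of weights. Proof: `wt M ≤ wt 2`; the integral of `(1 + |t|) ^ (-2)` over the
line is `2`; substitute `t = 2^(-k) x - l`. -/
def T_WTI : Prop := ∀ (M : ℕ) (k : ℤ) (l : ℝ), 2 ≤ M →
  Integrable (fun x : ℝ => wt M ((2 : ℝ) ^ (-k) * x - l)) ∧
  ∫ x, wt M ((2 : ℝ) ^ (-k) * x - l) ≤ 2 * (2 : ℝ) ^ k

/-- FXB (from WTI). Elementary properties of the packets. Proof: definitions; `‖e1 x‖ = 1`; `fr Φ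
s ξ ≠ 0` means `Φ (2^k ξ - m) ≠ 0`, so `2^k ξ - m ∈ [1/8, 3/8]` and `ξ ∈ s.lo` (`Tile.lo` is `dy
(-k - 1) (2 m)`, use `mem_dy_iff`). `fx` is integrable by WTI (`M = 20`), `fr` is continuous with
compact support. -/
def T_FXB : Prop := ∀ (A : ℝ) (φ Φ : ℝ → ℂ), WPk A φ Φ → ∀ s : Tile,
  Continuous (fx φ s) ∧ Continuous (fr Φ s) ∧
  (∀ x, ‖fx φ s x‖ ≤ A * hs s * wt 20 (s.u x)) ∧
  (∀ ξ, ‖fr Φ s ξ‖ ≤ A * Real.sqrt ((2 : ℝ) ^ s.k)) ∧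
  (∀ ξ, fr Φ s ξ ≠ 0 → ξ ∈ s.lo) ∧ Integrable (fx φ s) ∧ Integrable (fr Φ s)

/-- FXR. The packets `fx` and `fr` are Fourier transforms of each other. Proof: substitute
`η = 2^k ξ - m` in `WPk.inv` at the point `2^(-k) x - l`: `x ξ = 2^(-k) x (η + m)` and
`e1 (-(l η)) * e1 (2^(-k) x (η + m)) = e1 (2^(-k) m x) * e1 ((2^(-k) x - l) η)`, `dξ = 2^(-k) dη`,
`√(2^k) * 2^(-k) = hs s`. The second formula in the same way from `WPk.ft`, with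
`y = 2^(-k) x - l`. (`integral_comp_mul_left`, `integral_sub_right_eq_self`.) -/
def T_FXR : Prop := ∀ (A : ℝ) (φ Φ : ℝ → ℂ), WPk A φ Φ → ∀ s : Tile,
  (∀ x, fx φ s x = ∫ ξ, fr Φ s ξ * e1 (x * ξ)) ∧
  (∀ ξ, fr Φ s ξ = ∫ x, fx φ s x * e1 (-(x * ξ)))

/-- PAR (from FXB, FXR). Parseval. Proof: write `fr Φ s ξ = ∫ x, fx φ s x * e1 (-(x ξ))`, exchange
the integrals (`fx φ s ⊗ fr Φ t` is integrable on the product), and `∫ ξ, e1 (-(x ξ)) * conj (fr Φ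
t ξ) = conj (fx φ t x)`. -/
def T_PAR : Prop := ∀ (A : ℝ) (φ Φ : ℝ → ℂ), WPk A φ Φ → ∀ s t : Tile,
  gr Φ s t = ∫ x, fx φ s x * conj (fx φ t x)

/-- IPB (from WTI, FXB, PAR). Inner products. Proof: for `y ∈ t.I` and every `x`:
`s.u y = s.u x + 2^(-s.k) (y - x)` and `2^(-s.k) |y - x| ≤ 2^(-t.k) |y - x| = |t.u y - t.u x| ≤
1 + |t.u x|`, so `1 + |s.u y| ≤ 2 (1 + |s.u x|) (1 + |t.u x|)` and
`wt 10 (s.u x) * wt 10 (t.u x) ≤ 2 ^ 10 * wt 10 (s.u y)`. By PAR and FXB `‖gr Φ s t‖` is at most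
`A^2 hs s hs t ∫ wt 20 (s.u x) wt 20 (t.u x) dx ≤ A^2 hs s hs t 2^10 wt 10 (s.u y) * (2 * 2^(t.k))`
for every `y ∈ t.I` (WTI). Integrate this over `y ∈ t.I` (length `2^(t.k)`) and divide by
`2^(t.k)`. -/
def T_IPB : Prop := ∀ A : ℝ, ∃ C : ℝ, 0 < C ∧ ∀ φ Φ : ℝ → ℂ, WPk A φ Φ → ∀ s t : Tile, t.k ≤ s.k →
  ‖gr Φ s t‖ ≤ C * hs s * hs t * ∫ y in t.I, wt 10 (s.u y)

/-- IPZ (from FXB). Orthogonality. Proof: if `s.lo`, `t.lo` are disjoint the product vanishes. So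
`gr Φ s t ≠ 0` gives a common point of `s.lo` and `t.lo`; if `t.k < s.k` use `om_sub_lo` (with the
roles `t`, `s`), if `t.k = s.k` use `m_eq` (`lo_sub`). Symmetry: `gr Φ t s = conj (gr Φ s t)`. -/
def T_IPZ : Prop := ∀ (A : ℝ) (φ Φ : ℝ → ℂ), WPk A φ Φ → ∀ s t : Tile,
  (Disjoint s.lo t.lo → gr Φ s t = 0) ∧ ‖gr Φ s t‖ = ‖gr Φ t s‖ ∧
  (gr Φ s t ≠ 0 → t.k < s.k → s.om ⊆ t.lo) ∧ (gr Φ s t ≠ 0 → t.k = s.k → t.m = s.m)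

/-! ### energy -/

/-- SCH (from WTI, IPB, IPZ). Schur test on one scale. Proof: `c s * c t ≤ (c s ^ 2 + c t ^ 2) / 2`,
the matrix is symmetric, so it is enough that `∑ t, ‖gr Φ s t‖ ≤ C` (sum over the `t ∈ D` with
`t.k = s.k`). Only `t` with `t.m = s.m` count (IPZ); these have different `t.l`, so disjoint
intervals `t.I`; `hs s * hs t = 2^(-s.k)`; by IPB the sum is at most
`C 2^(-s.k) ∫ wt 10 (s.u y) dy ≤ 2 C`. -/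
def T_SCH : Prop := ∀ A : ℝ, ∃ C : ℝ, 0 < C ∧ ∀ φ Φ : ℝ → ℂ, WPk A φ Φ →
  ∀ (D : Finset Tile) (c : Tile → ℝ), (∀ s, 0 ≤ c s) →
    ∑ s ∈ D, ∑ t ∈ D.filter (fun t => t.k = s.k), c s * c t * ‖gr Φ s t‖ ≤ C * ∑ s ∈ D, c s ^ 2

/-- SELE. Greedy selection (pure combinatorics). For a nonempty finite set `T` of tiles whose sets
`s.up` have a common point let `xi T` be the largest left end point of the sets `s.up`, `s ∈ T`: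
it lies in all of them (they are nested). Call nonempty `T ⊆ S` a candidate if the `s.up` have a
common point and for some `K, Λ` all `s.I ⊆ dy K Λ` and `eps^2 / 4 * 2^K < ∑ s ∈ T, c s ^ 2`.
Proof by strong induction on the cardinality of `S`, with the additional statements that every `T
i` is nonempty and `X i = xi (T i)`. If there is no candidate take `n = 0`, `S' = S`. Otherwise
choose a candidate `T0` (with `K0, Λ0`) with `xi T0` minimal (finitely many subsets), put `S1 = S`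
minus `{s | s.I ⊆ dy K0 Λ0 ∧ xi T0 ∈ s.om}` (smaller, as `T0 ≠ ∅` is removed), apply the induction
hypothesis to `S1` and put the new data first. Separation for `i` = new, `j` = old: `s ∈ T0`, `s'
∈ T j`, `s.om ⊆ s'.lo`: `xi T0 ∈ s.up ⊆ s'.om` and `s'` was not removed, so `s'.I ⊄ dy K0 Λ0`;
`s'.k < s.k ≤ K0` (lengths, `le_of_dy_sub`), so they are disjoint (`dy_nest`). For `i` = old, `j`
= new: `s ∈ T i`, `s' ∈ T0`, `s.om ⊆ s'.lo`: `X i ∈ s.up ⊆ s'.lo` and `xi T0 ∈ s'.up`, so `X i <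
xi T0` (`lo_lt_up`); but `T i` is a candidate of `S`, contradiction to the minimality. -/
def T_SELE : Prop := ∀ (c : Tile → ℝ) (eps : ℝ), 0 < eps → ∀ S : Finset Tile,
  ∃ (n : ℕ) (K Λ : ℕ → ℤ) (X : ℕ → ℝ) (T : ℕ → Finset Tile) (S' : Finset Tile),
    Sel n K Λ X T ∧ (∀ i < n, T i ⊆ S) ∧
    (∀ i < n, eps ^ 2 / 4 * (2 : ℝ) ^ (K i) < ∑ s ∈ T i, c s ^ 2) ∧
    S' ⊆ S ∧ En c S' (eps / 2) ∧
    ∀ s ∈ S, s ∉ S' → ∃ i < n, s.I ⊆ dy (K i) (Λ i) ∧ X i ∈ s.om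

/-- DIS. Disjointness. Proof: (1) `j ≠ i`: otherwise `X i ∈ s'.up` and `X i ∈ s.up ⊆ s.om ⊆
s'.lo`. So `Sel.sep` gives the first claim. (2) Let `s' ≠ s''` and suppose that `s'.I`, `s''.I`
meet; we may assume `s''.k ≤ s'.k` (the statement is symmetric). If the scales are equal, both
`om` contain `s.om`, so `m_eq`, and `l` equal by `dy_eq_of_mem`: `s' = s''`. If `s''.k < s'.k`:
`s.om` lies in `s''.lo` and in `s'.om`, so `s'.om ⊆ s''.lo` (`om_sub_lo`). With `s' ∈ T j`, `s'' ∈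
T j'`: `j ≠ j'` (otherwise `X j ∈ s''.up` and `X j ∈ s'.up ⊆ s'.om ⊆ s''.lo`), so by `Sel.sep`
(for `j, j', s', s''`) `s''.I` is disjoint from `dy (K j) (Λ j)`, which contains `s'.I`. -/
def T_DIS : Prop := ∀ (n : ℕ) (K Λ : ℕ → ℤ) (X : ℕ → ℝ) (T : ℕ → Finset Tile), Sel n K Λ X T →
  ∀ i < n, ∀ s ∈ T i, ∀ j < n, ∀ s' ∈ T j, s.om ⊆ s'.lo → Disjoint s'.I (dy (K i) (Λ i)) ∧
    ∀ j' < n, ∀ s'' ∈ T j', s.om ⊆ s''.lo → s' ≠ s'' → Disjoint s'.I s''.I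

/-- GEO (from WTS, WTI). Proof: let `p`, `q` be the end points of `dy K Λ`. For `s ∈ T`, `s.k =
j`, the left end point `2^j s.l` of `s.I` is at least `p` and `2^j (s.l + 1) ≤ q`. If `x < p` then
`|s.u x| = 2^(-j) (2^j s.l - x) ≥ 2^(-j) (p - x)`; if `x ≥ q` then `|s.u x| ≥ 2^(-j) (x - q)`. For
fixed `j` the `s.l` are different, so by WTS (`M = 10`) the sum over `s ∈ T`, `s.k = j` of `wt 10
(s.u x)` is at most `8 * wt 8 (2^(-j) x - 2^(-j) p)` resp. `8 * wt 8 (2^(-j) x - 2^(-j) q)`; the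
integral over the complement is at most `32 * 2^j` (WTI). Sum over the scales `j ≤ K`: `∑ 2^j ≤ 2
* 2^K`. -/
def T_GEO : Prop := ∃ C : ℝ, 0 < C ∧ ∀ (T : Finset Tile) (K Λ : ℤ), (∀ s ∈ T, s.I ⊆ dy K Λ) →
  (∀ s ∈ T, ∀ t ∈ T, s.k = t.k → s.l = t.l → s = t) →
    ∑ s ∈ T, ∫ x in (dy K Λ)ᶜ, wt 10 (s.u x) ≤ C * (2 : ℝ) ^ K

/-- OFF (from WTI, IPB, IPZ, DIS). One row of the off-diagonal part. Proof: only the `s'` with `gr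
Φ s s' ≠ 0` count; for these `s.om ⊆ s'.lo` by IPZ (as `s'.k < s.k`). By IPB `c s' * ‖gr Φ s s'‖ ≤
eps √(2^(s'.k)) C hs s hs s' ∫_{s'.I} wt 10 (s.u y) = C eps hs s ∫_{s'.I} wt 10 (s.u y)`. By DIS
the sets `s'.I` are pairwise disjoint and contained in the complement of `dy (K i) (Λ i)`
(different pairs `(j, s')` have different `s'` by `Sel.disj`). -/
def T_OFF : Prop := ∀ A : ℝ, ∃ C : ℝ, 0 < C ∧ ∀ φ Φ : ℝ → ℂ, WPk A φ Φ →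
  ∀ (n : ℕ) (K Λ : ℕ → ℤ) (X : ℕ → ℝ) (T : ℕ → Finset Tile), Sel n K Λ X T →
  ∀ (c : Tile → ℝ) (eps : ℝ), (∀ s, 0 ≤ c s) → 0 ≤ eps →
  (∀ i < n, ∀ s ∈ T i, c s ≤ eps * Real.sqrt ((2 : ℝ) ^ s.k)) → ∀ i < n, ∀ s ∈ T i,
    ∑ j ∈ Finset.range n, ∑ s' ∈ (T j).filter (fun s' => s'.k < s.k), c s' * ‖gr Φ s s'‖ ≤
      C * eps * hs s * ∫ x in (dy (K i) (Λ i))ᶜ, wt 10 (s.u x)

/-- OFS (from WTI, GEO, OFF). The off-diagonal part. Proof: let `W s` be the integral in OFF; then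
`0 ≤ W s ≤ 2 * 2^(s.k)` (WTI). By OFF the left side is at most
`C eps ∑ i, ∑ s ∈ T i, c s * (hs s * W s)`; by Cauchy-Schwarz the sum over `s ∈ T i` is at most
`(∑ c s ^ 2)^(1/2) (∑ (hs s * W s)^2)^(1/2)`, `(hs s)^2 (W s)^2 ≤ 2 W s`, and GEO applies to `T i`
(injectivity: in a (+)-tree `s.k = t.k` gives `s.m = t.m` by `m_eq` at `X i`), so it is at most
`(eps^2 2^(K i))^(1/2) (2 C' 2^(K i))^(1/2)`. -/
def T_OFS : Prop := ∀ A : ℝ, ∃ C : ℝ, 0 < C ∧ ∀ φ Φ : ℝ → ℂ, WPk A φ Φ →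
  ∀ (n : ℕ) (K Λ : ℕ → ℤ) (X : ℕ → ℝ) (T : ℕ → Finset Tile), Sel n K Λ X T →
  ∀ (c : Tile → ℝ) (eps : ℝ), (∀ s, 0 ≤ c s) → 0 ≤ eps →
  (∀ i < n, ∀ s ∈ T i, c s ≤ eps * Real.sqrt ((2 : ℝ) ^ s.k)) →
  (∀ i < n, ∑ s ∈ T i, c s ^ 2 ≤ eps ^ 2 * (2 : ℝ) ^ (K i)) →
    ∑ i ∈ Finset.range n, ∑ s ∈ T i, ∑ j ∈ Finset.range n,
      ∑ s' ∈ (T j).filter (fun s' => s'.k < s.k), c s * (c s' * ‖gr Φ s s'‖) ≤
      C * eps ^ 2 * ∑ i ∈ Finset.range n, (2 : ℝ) ^ (K i)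

/-- DUAL (from FXB). Duality. Proof: `∑ ‖co s‖^2 = ∑ conj (co s) * co s = ∫ g * conj H`,
`H = ∑ s ∈ D, co Φ g s • fr Φ s`; Cauchy-Schwarz: the square is at most `∫ ‖g‖^2 * ∫ ‖H‖^2`, and
`∫ ‖H‖^2 = ∑ s, ∑ t, co s * conj (co t) * gr Φ s t` (continuous functions with compact support). -/
def T_DUAL : Prop := ∀ (A : ℝ) (φ Φ g b : ℝ → ℂ) (N : ℝ → ℝ) (E : Set ℝ), WPk A φ Φ →
  Dat g b N E → ∀ D : Finset Tile, (∑ s ∈ D, cc Φ g s ^ 2) ^ 2 ≤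
    n2 g ^ 2 * ∑ s ∈ D, ∑ t ∈ D, cc Φ g s * cc Φ g t * ‖gr Φ s t‖

/-- ENER (from SCH, IPZ, SELE, OFS, DUAL). Energy lemma. Proof: take SELE for `c = cc Φ g`, and
`D` = the union of the (disjoint) `T i`, `x = ∑ s ∈ D, c s ^ 2`, `Y = ∑ i < n, 2^(K i)`; by SELE
`eps^2 / 4 * Y ≤ x`. `c s ≤ eps √(2^(s.k))` for `s ∈ S` (En for `{s}`, top `dy s.k s.l`, any
point of `s.up`) and `∑ s ∈ T i, c s ^ 2 ≤ eps^2 2^(K i)` (En). By DUAL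
`x^2 ≤ n2 g ^ 2 * (diagonal + off-diagonal)`; pairs with equal scales: SCH, `≤ C x`; pairs with
`t.k < s.k` and (by symmetry, IPZ) with `s.k < t.k`: OFS, `≤ 2 C eps^2 Y ≤ 8 C x`. So
`x^2 ≤ n2 g ^ 2 * C' x`, `x ≤ C' n2 g ^ 2` and `Y ≤ 4 C' n2 g ^ 2 / eps^2`. -/
def T_ENER : Prop := ∀ A : ℝ, ∃ C : ℝ, 0 < C ∧ ∀ (φ Φ g b : ℝ → ℂ) (N : ℝ → ℝ) (E : Set ℝ),
  WPk A φ Φ → Dat g b N E → ∀ (S : Finset Tile) (eps : ℝ), 0 < eps → En (cc Φ g) S eps →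
  ∃ (n : ℕ) (K Λ : ℕ → ℤ) (X : ℕ → ℝ) (S' : Finset Tile), S' ⊆ S ∧ En (cc Φ g) S' (eps / 2) ∧
    (∀ s ∈ S, s ∉ S' → ∃ i < n, s.I ⊆ dy (K i) (Λ i) ∧ X i ∈ s.om) ∧
    ∑ i ∈ Finset.range n, (2 : ℝ) ^ (K i) ≤ C * n2 g ^ 2 / eps ^ 2

/-! ### mass -/

/-- DNB (from WTI). Proof: `wt 8 ≤ 1` and WTI. -/
def T_DNB : Prop := ∀ (E : Set ℝ) (N : ℝ → ℝ), MeasurableSet E → Measurable N → volume E ≠ ⊤ →
  ∀ u : Tile, 0 ≤ dn E N u ∧ dn E N u ≤ 2 ∧ dn E N u ≤ (2 : ℝ) ^ (-u.k) * vol E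

/-- FINT. Proof: `TLE s u` gives `s.k ≤ u.k` (`le_of_dy_sub`), so only finitely many scales `u.k`
are possible (`2^(u.k) ≤ B`); for given `s` and `u.k` the position is determined (`dy_sub_anc`,
`dy_eq_of_mem`) and `dy (-u.k) u.m ⊆ dy (-s.k) s.m` leaves finitely many `u.m`. -/
def T_FINT : Prop := ∀ (S : Finset Tile) (B : ℝ),
  {u : Tile | (∃ s ∈ S, TLE s u) ∧ (2 : ℝ) ^ u.k ≤ B}.Finite

/-- PIG. Pigeonhole. Proof: let `m j` be the measure on the right. If `m j ≤ mu * 4^j * 2^(u.k) /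
6` for all `j`, then, as `wt 8 (u.u x) ≤ 1` for `|u.u x| ≤ 1` and `wt 8 (u.u x) ≤ 2^(-8 (j-1))`
for `2^(j-1) < |u.u x| ≤ 2^j`, `j ≥ 1`, `dn E N u ≤ 2^(-u.k) (m 0 + ∑_{j ≥ 1} 2^(-8 (j-1)) m j) ≤
mu / 6 * (1 + 2^8 ∑_{j ≥ 1} 2^(-6 j)) < mu`. (The function `∑ j, 2^(-8 (j-1)) * 1_{|u.u x| ≤ 2^j}`
dominates `wt 8 (u.u x)`; `integral_tsum` or `lintegral_tsum`.) -/
def T_PIG : Prop := ∀ (E : Set ℝ) (N : ℝ → ℝ), MeasurableSet E → Measurable N → volume E ≠ ⊤ →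
  ∀ (u : Tile) (mu : ℝ), 0 < mu → mu < dn E N u → ∃ j : ℕ,
    mu * 4 ^ j * (2 : ℝ) ^ u.k / 6 < vol {x | x ∈ E ∧ N x ∈ u.om ∧ |u.u x| ≤ 2 ^ j}

/-- GRE. Greedy covering. Proof by strong induction on the cardinality of `U`: if `U = ∅` take `V
= ∅`. Otherwise choose `v ∈ U` with `v.k` maximal and let `R` be the set of all `u ∈ U` such that
some `x` has `|u.u x| ≤ 2^j` and `|v.u x| ≤ 2^j`, and `u.om`, `v.om` meet (`v ∈ R`); `V = {v} ∪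
V1`, where `V1` is the set for `U \ R`. For `u ∈ R`: `u.k ≤ v.k`, so `v.om ⊆ u.om` (`om_sub`), and
for `y ∈ u.I` `|y - x| ≤ (2^j + 1) 2^(v.k)`, so `|v.u y| ≤ 2^(j+1) + 1`. All `u.om`, `u ∈ R`,
contain `v.om`, so by the hypothesis the `u.I`, `u ∈ R`, are pairwise disjoint; they lie in an
interval of length `2 (2^(j+1) + 1) 2^(v.k) ≤ 6 * 2^j * 2^(v.k)`. -/
def T_GRE : Prop := ∀ (U : Finset Tile) (j : ℕ),
  (∀ u ∈ U, ∀ v ∈ U, u ≠ v → (u.I ∩ v.I).Nonempty → Disjoint u.om v.om) →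
  ∃ V ⊆ U, (∀ u ∈ V, ∀ v ∈ V, u ≠ v → (∃ x : ℝ, |u.u x| ≤ 2 ^ j ∧ |v.u x| ≤ 2 ^ j) →
    Disjoint u.om v.om) ∧
    ∑ u ∈ U, (2 : ℝ) ^ u.k ≤ 6 * 2 ^ j * ∑ v ∈ V, (2 : ℝ) ^ v.k

/-- CNT (from PIG, GRE). Proof: every `u ∈ U` has a `j` as in PIG; let `U_j` be the set of the `u`
with this `j` (choose one). GRE for `U_j`, `j`: `∑ u ∈ U_j, 2^(u.k) ≤ 6 * 2^j ∑ v ∈ V, 2^(v.k) ≤ 6
* 2^j * 6 / (mu 4^j) * ∑ v ∈ V, vol {x ∈ E, N x ∈ v.om, |v.u x| ≤ 2^j} ≤ 36 * 2^(-j) * vol E /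
mu`, as these sets are pairwise disjoint subsets of `E`. Sum over `j`: `C = 72`. -/
def T_CNT : Prop := ∃ C : ℝ, 0 < C ∧ ∀ (E : Set ℝ) (N : ℝ → ℝ), MeasurableSet E → Measurable N →
  volume E ≠ ⊤ → ∀ (U : Finset Tile) (mu : ℝ), 0 < mu →
  (∀ u ∈ U, ∀ v ∈ U, u ≠ v → (u.I ∩ v.I).Nonempty → Disjoint u.om v.om) →
  (∀ u ∈ U, mu < dn E N u) → ∑ u ∈ U, (2 : ℝ) ^ u.k ≤ C * vol E / mu

/-- MASS (from DNB, FINT, CNT). Mass lemma. Proof: the set `R` of all tiles `u` with `mu < dn E N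
u` and `TLE s u` for some `s ∈ S` is finite (`2^(u.k) ≤ vol E / mu` by DNB, FINT). `U` = the
maximal elements of `R` for `TLE` (reflexive and transitive; antisymmetric: equal scales by
`le_of_dy_sub`, then `dy_eq_of_mem`), `S'` = the `s ∈ S` which are below no element of `R`. Every
element of `R` is below an element of `U`. Two different elements `u, v` of `U` with `u.k ≤ v.k`,
meeting intervals and meeting `om` would be comparable (`I_nest`, `om_sub`); so CNT applies. -/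
def T_MASS : Prop := ∃ C : ℝ, 0 < C ∧ ∀ (E : Set ℝ) (N : ℝ → ℝ), MeasurableSet E → Measurable N →
  volume E ≠ ⊤ → ∀ (S : Finset Tile) (mu : ℝ), 0 < mu →
  ∃ (S' U : Finset Tile), S' ⊆ S ∧ Ms E N S' mu ∧ (∀ s ∈ S, s ∉ S' → ∃ u ∈ U, TLE s u) ∧
    ∑ u ∈ U, (2 : ℝ) ^ u.k ≤ C * vol E / mu

/-! ### trees -/

/-- STOP. Stopping intervals. Let `tri k l = Ico (2^k (l-1)) (2^k (l+2))` and `bad k l`: some `s ∈
T` has `s.I ⊆ tri k l`. For `x` put `l_k = ⌊2^(-k) x⌋`, so `x ∈ dy k l_k`. `dy k l_k ⊆ dy (k+1)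
l_(k+1)` and `tri k l_k ⊆ tri (k+1) l_(k+1)`, so `bad k l_k` is monotone in `k`; it is false if `3
* 2^k < 2^(s.k)` for all `s ∈ T` (lengths) and true for large `k` (any `s ∈ T`, `2^k ≥ ` the
distance from `x` to both ends of `s.I`). `κ x` = the largest `k` with `¬ bad k l_k`. const: for
`y ∈ Jx κ x` the intervals of the scales `κ x` and `κ x + 1` containing `x` and `y` agree. far:
for `s.k ≤ κ x` the set `tri` is a union of three intervals `dy (κ x) _`, so `s.I` is contained in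
it or disjoint from it (`dy_nest`); it is disjoint, so every point of `s.I`, in particular its
left end point `2^(s.k) s.l`, has distance at least `2^(κ x)` from `x ∈ dy (κ x) l`. near: `bad (κ
x + 1) l_(κ x + 1)` gives `s ∈ T` with `s.I` in an interval of length `3 * 2^(κ x + 1)`, so
`2^(s.k) ≤ 6 * 2^(κ x) < 2^(κ x + 3)`; all its points have distance at most `2 * 2^(κ x + 1)` from
`x`. bdd: see above. meas: `κ` is constant on the dyadic intervals `Jx κ x`, there are countably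
many of them (`{x | κ x = k}` is a union of intervals `dy k l`). -/
def T_STOP : Prop := ∀ T : Finset Tile, T.Nonempty → ∃ κ : ℝ → ℤ, Stop T κ

/-- P2. Density on stopping intervals. Proof: let `J = Jx κ x`, `a = κ x + 2`, `s0 ∈ T` from
`Stop.near`, `u` the tile of scale `a` with `s0.I ⊆ u.I` (`dy_sub_anc`) and `ξ ∈ u.om`
(`exists_mem_dy`). `TLE s0 u` (`om_sub` at the point `ξ`), so `dn E N u ≤ mu`. For `s ∈ T`, `a ≤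
s.k`: `s.om ⊆ u.om` (`om_sub` at `ξ`). For `y ∈ J` and a point `z ∈ s0.I ⊆ u.I`: `|y - x| ≤ 2^(κ
x)`, `|x - z| ≤ 2^a`, `|u.u z| ≤ 1`, so `|u.u y| ≤ 1/4 + 1 + 1 ≤ 3` and `wt 8 (u.u y) ≥ 4^(-8)`.
So the measure times `2^(-a) 4^(-8)` is at most `dn E N u ≤ mu`. -/
def T_P2 : Prop := ∃ C : ℝ, 0 < C ∧ ∀ (E : Set ℝ) (N : ℝ → ℝ), MeasurableSet E → Measurable N →
  volume E ≠ ⊤ → ∀ (T : Finset Tile) (K Λ : ℤ) (ξ mu : ℝ) (κ : ℝ → ℤ), Tree T K Λ ξ → Stop T κ →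
  Ms E N T mu → ∀ x : ℝ,
    volume {y | y ∈ E ∧ y ∈ Jx κ x ∧ ∃ s ∈ T, κ x + 2 ≤ s.k ∧ N y ∈ s.om} ≤
      ENNReal.ofReal (C * mu) * volume (Jx κ x)

/-- AVG. Summation over stopping intervals. Proof: let `A` be the (countable) set of the pairs
`(k, l)` such that some `x ∈ dy k l` has `κ x = k`; then `Jx κ y = dy k l` for all `y ∈ dy k l`,
so the sets `dy k l`, `(k, l) ∈ A`, are a partition of the line. For each of them `∫⁻ G ∩ dy k l,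
h ≤ volume (G ∩ dy k l) * inf H ≤ Q * volume (dy k l) * inf H ≤ Q * ∫⁻ dy k l, H` (`inf` over `dy
k l`), and `dy k l ⊆ W` if `G ∩ dy k l` is not empty. Sum. -/
def T_AVG : Prop := ∀ κ : ℝ → ℤ, (∀ x y, y ∈ Jx κ x → κ y = κ x) →
  ∀ (G W : Set ℝ) (Q : ℝ≥0∞) (h H : ℝ → ℝ≥0∞), MeasurableSet G → MeasurableSet W → Measurable h →
  Measurable H → (∀ x, volume (G ∩ Jx κ x) ≤ Q * volume (Jx κ x)) →
  (∀ x y, y ∈ G → y ∈ Jx κ x → h y ≤ H x) → (∀ x y, y ∈ G → y ∈ Jx κ x → x ∈ W) →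
    ∫⁻ x in G, h x ≤ Q * ∫⁻ x in W, H x

/-- NEAR. Proof: `Stop.near` gives `y ∈ s.I ⊆ dy K Λ` with `|x - y| ≤ 2^(κ x + 2) ≤ 2^K`. -/
def T_NEAR : Prop := ∀ (T : Finset Tile) (K Λ : ℤ) (ξ : ℝ) (κ : ℝ → ℤ), Tree T K Λ ξ → Stop T κ →
  ∀ x : ℝ, κ x + 2 ≤ K → x ∈ Icc ((2 : ℝ) ^ K * (Λ - 1)) ((2 : ℝ) ^ K * (Λ + 2))

/-- SMA (from WTI, FXB). Let `R = {x | s.k ≤ κ x + 1}`. (1) For `x0 ∈ R`: `2^(s.k) * wt 10 (s.u
x0) ≤ 2 (3/2)^10 ∫_R wt 10 (s.u x) dx`: `Jx κ x0 ⊆ R` (`Stop.const`) is an interval of length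
`2^(κ x0) ≥ 2^(s.k - 1)` containing `x0`, so it contains an interval of length `2^(s.k-1)` with
`x0` in its closure; there `|s.u x - s.u x0| ≤ 1/2`, `wt 10 (s.u x) ≥ (3/2)^(-10) wt 10 (s.u x0)`.
(2) `‖fx φ s x‖ ≤ A hs s wt 10 (s.u x) wt 10 (s.u x)`; for `x ∈ R` replace one factor by (1); the
remaining integral is `∫_{x ∈ E, N x ∈ s.up} wt 10 (s.u x) ≤ 2^(s.k) dn E N s ≤ 2^(s.k) mu` (`wt
10 ≤ wt 8`, `up_sub`, `TLE s s`). So the left side is at most `√(2^k) A hs s * (2^(-k) 2 (3/2)^10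
∫_R wt 10) * 2^k mu`. -/
def T_SMA : Prop := ∀ A : ℝ, ∃ C : ℝ, 0 < C ∧ ∀ (φ Φ g b : ℝ → ℂ) (N : ℝ → ℝ) (E : Set ℝ),
  WPk A φ Φ → Dat g b N E → ∀ (T : Finset Tile) (κ : ℝ → ℤ) (mu : ℝ), Stop T κ →
  Ms E N T mu → 0 ≤ mu → ∀ s ∈ T,
    Real.sqrt ((2 : ℝ) ^ s.k) * ∫ x in {x | x ∈ E ∧ N x ∈ s.up ∧ s.k ≤ κ x + 1}, ‖fx φ s x‖ ≤
      C * mu * ∫ x in {x | s.k ≤ κ x + 1}, wt 10 (s.u x)

/-- SMB (from WTS, WTI). Proof: the left side is the integral over `x` of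
`Y x = ∑ s ∈ T with s.k ≤ κ x + 1, wt 10 (s.u x)`. For one scale `j` the `s ∈ T` with `s.k = j`
have different `s.l` (`ξ ∈ s.om`, `m_eq`). (1) Always `Y x ≤ 17`: scale `κ x + 1`: at most `8` (WTS,
`D = 0`); scale `j ≤ κ x`: `Stop.far`, WTS with `D = 2^(κ x - j)`: at most
`8 * wt 8 (2^(κ x - j)) ≤ 8 * 2^(-8 (κ x - j))`. (2) If `|2^(-K) x - Λ| ≥ 2`: the left end point of
`s.I ⊆ dy K Λ` is in `dy K Λ`, so `|s.u x| ≥ 2^(-j) 2^K (|2^(-K) x - Λ| - 1) ≥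
2^(K-j) |2^(-K) x - Λ| / 2`, and by WTS the scale `j ≤ K` contributes at most
`8 * (2^(K-j) |2^(-K) x - Λ| / 2)^(-8)`; so `Y x ≤ C wt 8 (2^(-K) x - Λ)`. Together
`Y x ≤ C' wt 8 (2^(-K) x - Λ)` for all `x` (for `|..| < 2` the weight is at least `3^(-8)`); WTI. -/
def T_SMB : Prop := ∃ C : ℝ, 0 < C ∧ ∀ (T : Finset Tile) (K Λ : ℤ) (ξ : ℝ) (κ : ℝ → ℤ),
  Tree T K Λ ξ → Stop T κ →
    ∑ s ∈ T, ∫ x in {x | s.k ≤ κ x + 1}, wt 10 (s.u x) ≤ C * (2 : ℝ) ^ K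

/-- ONE (from WTS, FXB). One scale. Proof: the `s ∈ T` with `s.k = j` have different `s.l` (`m_eq`
at `ξ`); `c s ‖fx φ s x‖ ≤ eps √(2^j) A hs s wt 20 (2^(-j) x - s.l) = A eps wt 20 (2^(-j) x -
s.l)`; WTS gives `C = 8 A`. -/
def T_ONE : Prop := ∀ A : ℝ, ∃ C : ℝ, 0 < C ∧ ∀ φ Φ : ℝ → ℂ, WPk A φ Φ →
  ∀ (T : Finset Tile) (K Λ : ℤ) (ξ : ℝ), Tree T K Λ ξ → ∀ (c : Tile → ℝ) (eps : ℝ), 0 ≤ eps →
  (∀ s ∈ T, 0 ≤ c s ∧ c s ≤ eps * Real.sqrt ((2 : ℝ) ^ s.k)) → ∀ (j : ℤ) (x : ℝ),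
    ∑ s ∈ T.filter (fun s => s.k = j), c s * ‖fx φ s x‖ ≤ C * eps

open Classical in
/-- SPL (from FXB). Small and large tiles. Proof: split the domain `N ⁻¹' s.up` of `av φ b N s` by
`s.k ≤ κ x + 1`; on the first part `‖b x‖ ≤ 1_E`. For the second part let `z s` be its integral and
`ε s` a number of modulus 1 with `ε s * z s = ‖z s‖`; then
`∑ cc s ‖z s‖ = ∫ b x * ∑ s ∈ T.filter (..), ε s * cc s * fx φ s x` (finite sum of integrals),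
`b x = 0` outside `E`. -/
def T_SPL : Prop := ∀ (A : ℝ) (φ Φ g b : ℝ → ℂ) (N : ℝ → ℝ) (E : Set ℝ), WPk A φ Φ →
  Dat g b N E → ∀ (T : Finset Tile) (κ : ℝ → ℤ), Measurable κ → ∃ ε : Tile → ℂ, (∀ s, ‖ε s‖ = 1) ∧
    ENNReal.ofReal (∑ s ∈ T, cc Φ g s * ‖av φ b N s‖) ≤
      ENNReal.ofReal (∑ s ∈ T, cc Φ g s *
        ∫ x in {x | x ∈ E ∧ N x ∈ s.up ∧ s.k ≤ κ x + 1}, ‖fx φ s x‖) +
      ∫⁻ x in E, ‖∑ s ∈ T, if κ x + 2 ≤ s.k ∧ N x ∈ s.up then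
        ε s * ((cc Φ g s : ℝ) : ℂ) * fx φ s x else 0‖ₑ

/-- MIN (from STOP, P2, AVG, NEAR, SMA, SMB, ONE, SPL). (-)-trees. Proof: `T` nonempty, `κ` from
STOP, SPL. Small part: `cc s ≤ eps √(2^(s.k))`, SMA, SMB. Large part: at most one scale `j` has
tiles with `N x ∈ s.up`: if `s, s' ∈ T`, `s.k < s'.k`, `N x ∈ s.up ∩ s'.up`, then `ξ ∈ s.lo`, `ξ ∈
s'.om`, so `s'.om ⊆ s.lo` (`om_sub_lo`) and `N x ∈ s.lo ∩ s.up`. So the norm is at most `C eps`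
(ONE), and it vanishes outside `G = {x ∈ E | ∃ s ∈ T, κ x + 2 ≤ s.k ∧ N x ∈ s.om}`. AVG with `h =
H = C eps`, `Q = C mu` (P2, note `κ y = κ x` on `Jx κ x`), `W` = the interval of NEAR (`κ x + 2 ≤
s.k ≤ K`): at most `C mu * C eps * 3 * 2^K`. -/
def T_MIN : Prop := ∀ A : ℝ, ∃ C : ℝ, 0 < C ∧ ∀ (φ Φ g b : ℝ → ℂ) (N : ℝ → ℝ) (E : Set ℝ),
  WPk A φ Φ → Dat g b N E → ∀ (T : Finset Tile) (K Λ : ℤ) (ξ eps mu : ℝ), MTree T K Λ ξ →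
  0 ≤ eps → 0 ≤ mu → (∀ s ∈ T, cc Φ g s ≤ eps * Real.sqrt ((2 : ℝ) ^ s.k)) → Ms E N T mu →
    ∑ s ∈ T, cc Φ g s * ‖av φ b N s‖ ≤ C * eps * mu * (2 : ℝ) ^ K

/-- CHI. Existence of a frequency cut-off. Proof: `χ` a smooth bump function (real valued, values in
`[0, 1]`), equal to `1` on `[-7/8, 7/8]` and `0` outside `(-1, 1)` (`ContDiffBump` at `0` with radii
`7/8` and `1`), as a Schwartz function; `ψ` its inverse Fourier transform, a Schwartz function, so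
`(1 + |x|)^20 ‖ψ x‖` is bounded; Fourier inversion for Schwartz functions. (See also T_WPEX in
ITargets.) -/
def T_CHI : Prop := ∃ (B : ℝ) (χ ψ : ℝ → ℂ), Cut B χ ψ

/-- REP (from FXB, FXR). Proof: insert `fx φ s y = ∫ η, fr Φ s η * e1 (y η)` and exchange (Fubini):
`∫ y, fx φ s y * Kr ψ a ξ (x - y) = ∫ η, fr Φ s η * e1 (x η) * χ (2^a (η - ξ))`, because
`∫ z, Kr ψ a ξ z * e1 (-(z η)) = ∫ w, ψ w * e1 (-(w * 2^a (η - ξ))) = χ (2^a (η - ξ))`. If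
`fr Φ s η ≠ 0` then `2^k η - m ∈ [1/8, 3/8]` (from `WPk.supp`), and `ξ ∈ s.up` means
`2^k ξ - m ∈ [1/2, 1)`, so `2^k (η - ξ) ∈ [-7/8, -1/8]`. For `a ≤ k`:
`2^a (η - ξ) ∈ [-7/8, 0]`, `χ = 1`. For `k ≤ a - 3`: `2^a (η - ξ) ≤ 8 * (-1/8) = -1`, `χ = 0`. -/
def T_REP : Prop := ∀ (A B : ℝ) (φ Φ χ ψ : ℝ → ℂ), WPk A φ Φ → Cut B χ ψ →
  ∀ (s : Tile) (ξ : ℝ) (a : ℤ), ξ ∈ s.up → ∀ x : ℝ,
    (a ≤ s.k → ∫ y, fx φ s y * Kr ψ a ξ (x - y) = fx φ s x) ∧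
    (s.k ≤ a - 3 → ∫ y, fx φ s y * Kr ψ a ξ (x - y) = 0)

/-- KER (from WTI, FXB). The intermediate scales. Proof: `‖fx φ s y‖ ≤ A hs s wt 20 (s.u y)`,
`‖Kr ψ a ξ (x-y)‖ ≤ B 2^(-a) wt 20 (2^(-a) (x - y))`; `2^(-s.k) |x - y| ≤ 4 * 2^(-a) |x - y|`, so
`1 + |s.u x| ≤ 4 (1 + |s.u y|) (1 + 2^(-a) |x - y|)` and
`wt 10 (s.u y) wt 10 (2^(-a) (x - y)) ≤ 4^10 wt 10 (s.u x)`; the remaining integral of
`2^(-a) wt 10 (2^(-a) (x - y))` is at most `2`. -/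
def T_KER : Prop := ∀ A B : ℝ, ∃ C : ℝ, 0 < C ∧ ∀ φ Φ χ ψ : ℝ → ℂ, WPk A φ Φ → Cut B χ ψ →
  ∀ (s : Tile) (ξ : ℝ) (a : ℤ), s.k = a - 1 ∨ s.k = a - 2 → ∀ x : ℝ,
    ‖∫ y, fx φ s y * Kr ψ a ξ (x - y)‖ ≤ C * hs s * wt 10 (s.u x)

/-- HL (helper30). Hardy-Littlewood on the line. -/
def T_HL : Prop := ∃ C : ℝ≥0, ∀ G : ℝ → ℂ, Continuous G →
  Measurable (MX G) ∧ ∫⁻ y, MX G y ^ 2 ≤ C * ∫⁻ y, ‖G y‖ₑ ^ 2

/-- HLK (helper30). Kernels are dominated by the maximal function. -/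
def T_HLK : Prop := ∃ C : ℝ≥0, ∀ (B : ℝ) (ψ G : ℝ → ℂ), Continuous G → Measurable ψ →
  (∀ t, ‖ψ t‖ ≤ B * wt 12 t) → ∀ (a : ℤ) (x z : ℝ), |z - x| ≤ (2 : ℝ) ^ a →
    ∫⁻ y, ‖G y‖ₑ * ‖(((2 : ℝ) ^ (-a) : ℝ) : ℂ) * ψ ((2 : ℝ) ^ (-a) * (x - y))‖ₑ ≤
      C * ENNReal.ofReal B * MX G z

/-- TRU (from WTS, FXB, REP, KER, HLK, ONE, CHI). Truncation. Proof: `χ, ψ, B` from CHI, `G = ∑ w
s fx s`. `∫ y, G y * Kr ψ a ξ (x - y)` is `∑_{a ≤ s.k} w s fx φ s x` (REP) plus the scales `a -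
1`, `a - 2`, which are bounded by `∑ ‖w s‖ C hs s wt 10 (s.u x) ≤ C eps ∑ wt 10 (s.u x) ≤ 8 C eps`
each (KER, WTS; `s.l` different by `m_eq` at `ξ`). The norm of the integral is at most `C B MX G
z` by HLK (`‖Kr ψ a ξ t‖ = ‖2^(-a) ψ (2^(-a) t)‖`, `wt 20 ≤ wt 12`). -/
def T_TRU : Prop := ∀ A : ℝ, ∃ C : ℝ≥0, ∀ φ Φ : ℝ → ℂ, WPk A φ Φ →
  ∀ (T : Finset Tile) (K Λ : ℤ) (ξ : ℝ), PTree T K Λ ξ → ∀ (w : Tile → ℂ) (eps : ℝ), 0 ≤ eps →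
  (∀ s ∈ T, ‖w s‖ ≤ eps * Real.sqrt ((2 : ℝ) ^ s.k)) → ∀ (a : ℤ) (x z : ℝ),
  |z - x| ≤ (2 : ℝ) ^ a →
    ‖∑ s ∈ T.filter (fun s => a ≤ s.k), w s * fx φ s x‖ₑ ≤
      C * (ENNReal.ofReal eps + MX (fun y => ∑ s ∈ T, w s * fx φ s y) z)

/-- SQ (from FXB, PAR, IPZ, SCH). Square function. Proof: the left side is
`∑ s, ∑ t, w s * conj (w t) * gr Φ s t` (PAR). If `s.k < t.k`: `ξ ∈ s.up`, `ξ ∈ t.om`, so
`t.lo ⊆ t.om ⊆ s.up` (`om_sub_up`) is disjoint from `s.lo`, `gr = 0` (IPZ), the same for `t.k < s.k`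
(symmetry). The terms with `s.k = t.k`: SCH with `c s = ‖w s‖`. -/
def T_SQ : Prop := ∀ A : ℝ, ∃ C : ℝ, 0 < C ∧ ∀ φ Φ : ℝ → ℂ, WPk A φ Φ →
  ∀ (T : Finset Tile) (K Λ : ℤ) (ξ : ℝ), PTree T K Λ ξ → ∀ w : Tile → ℂ,
    ∫⁻ y, ‖∑ s ∈ T, w s * fx φ s y‖ₑ ^ 2 ≤ ENNReal.ofReal (C * ∑ s ∈ T, ‖w s‖ ^ 2)

/-- PLU (from STOP, P2, AVG, NEAR, SMA, SMB, SPL, HL, TRU, SQ). (+)-trees. Proof: `T` nonempty,
`κ` from STOP, SPL, `w s = ε s * cc s`; `cc s ≤ eps √(2^(s.k))` (En for `{s}`). Small part as in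
MIN. Large part: let `x` be given, some `s ∈ T` with `κ x + 2 ≤ s.k`, `N x ∈ s.up`, and let `s'`
be such a tile with maximal scale; for `s ∈ T` with `s.k ≤ s'.k`: `ξ ∈ s.up ∩ s'.up`, so `s'.up ⊆
s.up` (`up_sub_up`) and `N x ∈ s.up`. So the sum is `∑_{κ x + 2 ≤ s.k} - ∑_{s'.k + 1 ≤ s.k}` of `w
s fx φ s x`, and TRU gives the bound `2 C (eps + MX G z)` for all `z` with `|z - x| ≤ 2^(κ x)`.
AVG with this `H`, `Q = C mu` (P2), `W` = the interval of NEAR: at most `C mu (eps 3 * 2^K + ∫⁻_W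
MX G)`, and `∫⁻_W MX G ≤ |W|^(1/2) (∫⁻ MX G ^ 2)^(1/2) ≤ C 2^(K/2) (∑ ‖w s‖^2)^(1/2) ≤ C 2^(K/2)
eps 2^(K/2)` (HL, SQ, En for `T`). -/
def T_PLU : Prop := ∀ A : ℝ, ∃ C : ℝ, 0 < C ∧ ∀ (φ Φ g b : ℝ → ℂ) (N : ℝ → ℝ) (E : Set ℝ),
  WPk A φ Φ → Dat g b N E → ∀ (T : Finset Tile) (K Λ : ℤ) (ξ eps mu : ℝ), PTree T K Λ ξ →
  0 ≤ eps → 0 ≤ mu → En (cc Φ g) T eps → Ms E N T mu →
    ∑ s ∈ T, cc Φ g s * ‖av φ b N s‖ ≤ C * eps * mu * (2 : ℝ) ^ K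

/-- TREE (from MIN, PLU). Tree lemma. Proof: `T` is the union of the tiles with `ξ ∈ s.up` and of
those with `ξ ∈ s.lo` (`om_eq`); En and Ms pass to subsets; `cc s ≤ eps √(2^(s.k))` (En for `{s}`,
top `dy s.k s.l`, any point of `s.up`, square root). -/
def T_TREE : Prop := ∀ A : ℝ, ∃ C : ℝ, 0 < C ∧ ∀ (φ Φ g b : ℝ → ℂ) (N : ℝ → ℝ) (E : Set ℝ),
  WPk A φ Φ → Dat g b N E → ∀ (T : Finset Tile) (K Λ : ℤ) (ξ eps mu : ℝ), Tree T K Λ ξ →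
  0 ≤ eps → 0 ≤ mu → En (cc Φ g) T eps → Ms E N T mu →
    ∑ s ∈ T, cc Φ g s * ‖av φ b N s‖ ≤ C * eps * mu * (2 : ℝ) ^ K

/-! ### summation -/

/-- STEP (from DNB, ENER, MASS, TREE). Proof: MASS with `mu / 4` for `S`: `S1`, `U`; ENER for
`S1` (En passes to subsets): `S'`, tops `i < n`. `Ms S' (mu / 4)` as `S' ⊆ S1`. Put
`mu' = min mu 2`; `Ms S mu'` by DNB. The tiles of `S \ S1` below `u ∈ U` are a tree with top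
`dy u.k u.l`, `ξ` = left end point of `u.om` (`TLE s u`: `ξ ∈ u.om ⊆ s.om`), so by TREE their sum is
at most `C eps mu' 2^(u.k)`; the same for `S1 \ S'` and the tops `i < n`. Sum:
`C eps mu' (4 C vol E / mu + C n2 g ^ 2 / eps^2)`. -/
def T_STEP : Prop := ∀ A : ℝ, ∃ C : ℝ, 0 < C ∧ ∀ (φ Φ g b : ℝ → ℂ) (N : ℝ → ℝ) (E : Set ℝ),
  WPk A φ Φ → Dat g b N E → ∀ (S : Finset Tile) (eps mu : ℝ), 0 < eps → 0 < mu →
  En (cc Φ g) S eps → Ms E N S mu → ∃ S' ⊆ S, En (cc Φ g) S' (eps / 2) ∧ Ms E N S' (mu / 4) ∧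
    ∑ s ∈ S \ S', cc Φ g s * ‖av φ b N s‖ ≤
      C * eps * min mu 2 * (n2 g ^ 2 / eps ^ 2 + vol E / mu)

/-- SUM. The final summation. Proof: `F = n2 g`, `e = √(vol E)`. If `F = 0` then `g = 0` a.e., all
`cc s = 0`; if `e = 0` then `b = 0` a.e., all `av = 0`. Otherwise put `eps_n = 2^n F / e`, `mu_n =
4^n` (`n : ℤ`). For some natural number `n0`: `En S eps_(n0)` (finite set: `c s ^ 2` sum over `T ⊆
S` nonempty is at most `B`, `2^K ≥ 2^(min s.k)`) and `Ms S mu_(n0)` (DNB). STEP goes from `n` to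
`n - 1`: the removed tiles have sum at most `C eps_n min (4^n) 2 (e^2 / 4^n + e^2 / 4^n) ≤ 4 C F e
min (2^n) (2^(-n))`. After the step `n = -m` the remaining `S'` satisfies `En S' eps_(-m-1)`, so
its sum is at most `∑ s ∈ S, eps_(-m-1) √(2^(s.k)) ‖av s‖`, which tends to `0` as `m → ∞`. The sum
of `min (2^n) (2^(-n))` over `n : ℤ` is `3`. So `C' = 12 C`. -/
def T_SUM : Prop := T_DNB → T_FXB → T_STEP → T_MODEL

end Pool.Agent.CAR
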