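import Pool.Agent.CAR.SDefs
import Pool.Agent.CAR.Targets
import Pool.Agent.CAR.ITargets

set_option autoImplicit false

/-!
# The Carleson operator on the line, STRONG TYPE part (helper18): targets

Each target `T_X` is one job: file `Pool/Agent/CAR/P_X.lean`, `theorem p_X : T_X`; targets named in
brackets are hypotheses of `p_X`, or use the landed theorems (`p_WTS`, `p_WTI`, `p_FXB`, `p_FXR`,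
`p_PAR` in P_WTS, P_WTI, P_FXB; `p_SQ`, `p_HL` in P_HL; `p_GEO`, `p_SMB`, `p_STOP`, `p_AVG`,
`p_ENER`, `p_MASS`, `p_DNB`). The proofs are in the docstrings.
`BF h F f`: `|f| ≤ h 1_F`, `|F| < ∞`. `cf φ f s = ∫ f conj (fx φ s)`.
-/

namespace Pool.Agent.CAR

open MeasureTheory Set ComplexConjugate
open scoped ENNReal NNReal

/-! ### energy of bounded functions -/

/-- DSQ (from SQ, FXB). Dual of the square function estimate. Proof: put `w s = cf φ f s`,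
`G = ∑ s ∈ T, w s * fx φ s`. Then `∑ ‖w s‖^2 = ∑ conj (w s) * w s = ∫ f * conj G` and
`(∫ ‖f‖ ‖G‖)^2 ≤ ∫ ‖f‖^2 * ∫ ‖G‖^2 ≤ ∫ ‖f‖^2 * C * ∑ ‖w s‖^2` (SQ). Divide (`x^2 ≤ a x` gives
`x ≤ a`). The packets are bounded, continuous and integrable, so square integrable. -/
def T_DSQ : Prop := ∀ A : ℝ, ∃ C : ℝ, 0 < C ∧ ∀ φ Φ : ℝ → ℂ, WPk A φ Φ →
  ∀ f : ℝ → ℂ, Measurable f → Integrable (fun x => ‖f x‖ ^ 2) →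
  ∀ (T : Finset Tile) (K Λ : ℤ) (ξ : ℝ), PTree T K Λ ξ →
    ∑ s ∈ T, ‖cf φ f s‖ ^ 2 ≤ C * ∫ x, ‖f x‖ ^ 2

/-- ENB (from DSQ, GEO, WTI, FXB). Energy of a bounded function. Proof: `f = f 1_I + f 1_{Iᶜ}` with
`I = dy K Λ`; `cf` is additive. First part: DSQ, `∫ ‖f 1_I‖^2 ≤ h^2 2^K`. Second part:
`‖cf φ (f 1_{Iᶜ}) s‖ ≤ h A hs s ∫_{Iᶜ} wt 20 (s.u x)`, whose square is at most
`h^2 A^2 2^(-s.k) (∫ wt 10 (s.u x)) (∫_{Iᶜ} wt 10 (s.u x)) ≤ 2 h^2 A^2 ∫_{Iᶜ} wt 10 (s.u x)`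
(`wt 20 ≤ wt 10`, WTI); sum: GEO (in a (+)-tree `s.k = t.k` gives `s.m = t.m` by `m_eq` at `ξ`). -/
def T_ENB : Prop := ∀ A : ℝ, ∃ C : ℝ, 0 < C ∧ ∀ φ Φ : ℝ → ℂ, WPk A φ Φ →
  ∀ (f : ℝ → ℂ) (h : ℝ), Measurable f → 0 ≤ h → (∀ x, ‖f x‖ ≤ h) →
  ∀ (T : Finset Tile) (K Λ : ℤ) (ξ : ℝ), PTree T K Λ ξ →
    ∑ s ∈ T, ‖cf φ f s‖ ^ 2 ≤ C * h ^ 2 * (2 : ℝ) ^ K

/-! ### energy of `f` on light tiles (Calderon-Zygmund with the stopping intervals of the tree) -/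

/-- CHI2. Proof: as `p_CHI` (P_CHI.lean): `ψ` is a Schwartz function, so also
`‖deriv ψ t‖ ≤ B' wt 20 t`; for `|t - t'| ≤ 1` all points `v` between satisfy
`1 + |t| ≤ 2 (1 + |v|)`, so the mean value inequality gives `2^20 B' |t - t'| wt 20 t`. -/
def T_CHI2 : Prop := ∃ (B : ℝ) (χ ψ : ℝ → ℂ), CutL B χ ψ

/-- OSC (from CHI2, REP, WTI, FXB). Oscillation of a demodulated packet. Proof: let `a = s.k`; by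
REP `fx φ s x * e1 (-(x * ξ)) = ∫ z, fx φ s z * e1 (-(z * ξ)) * (2^(-a) * ψ (2^(-a) * (x - z)))`
(`e1 ((x - z) * ξ) * e1 (-(x * ξ)) = e1 (-(z * ξ))`). The difference for `x`, `y` is at most `∫ z,
‖fx φ s z‖ * 2^(-a) * B * (2^(-a) * |x - y|) * wt 20 (2^(-a) * (x - z))` (`CutL.lip`), where `‖fx
φ s z‖ ≤ A hs s wt 20 (s.u z)`, `s.u x = s.u z + 2^(-a) (x - z)`, so `wt 10 (s.u z) * wt 10
(2^(-a) (x - z)) ≤ wt 10 (s.u x)`; the rest is `∫ z, 2^(-a) wt 10 (2^(-a) (x - z)) ≤ 2` (WTI). -/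
def T_OSC : Prop := ∀ A : ℝ, ∃ C : ℝ, 0 < C ∧ ∀ φ Φ : ℝ → ℂ, WPk A φ Φ →
  ∀ (s : Tile) (ξ : ℝ), ξ ∈ s.up → ∀ x y : ℝ, |x - y| ≤ (2 : ℝ) ^ s.k →
    ‖fx φ s x * e1 (-(x * ξ)) - fx φ s y * e1 (-(y * ξ))‖ ≤
      C * hs s * ((2 : ℝ) ^ (-s.k) * |x - y|) * wt 10 (s.u x)

/-- TH1 (from OSC, FXB). Proof: let `a = κ x = κ y`, `|x - y| ≤ 2^a`. (2) `|s.u x - s.u y| ≤ 2^(a
- s.k)`, and this is at most `|s.u y|` if `s.k ≤ a` (`Stop.far` at `y`) and at most `1/2` if `a <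
s.k`; so `1 + |s.u x| ≤ 2 (1 + |s.u y|)`. (1) If `s.k ≤ a` the minimum is `1`, and the left side
is at most `‖fx φ s x‖ + ‖fx φ s y‖ ≤ A hs s (wt 20 (s.u x) + wt 20 (s.u y))`, `wt 20 ≤ wt 10`,
(2). If `a < s.k`: OSC, `2^(-s.k) |x - y| ≤ 2^(a - s.k)`. -/
def T_TH1 : Prop := ∀ A : ℝ, ∃ C : ℝ, 0 < C ∧ ∀ φ Φ : ℝ → ℂ, WPk A φ Φ →
  ∀ (T : Finset Tile) (κ : ℝ → ℤ), Stop T κ → ∀ s ∈ T, ∀ ξ ∈ s.up, ∀ x y : ℝ, y ∈ Jx κ x →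
    ‖fx φ s x * e1 (-(x * ξ)) - fx φ s y * e1 (-(y * ξ))‖ ≤
      C * hs s * min 1 ((2 : ℝ) ^ (κ x - s.k)) * wt 10 (s.u x) ∧
    wt 10 (s.u y) ≤ 2 ^ 10 * wt 10 (s.u x)

/-- SMC (from SMB, WTS, WTI). Proof: on `{s.k ≤ κ x + 1}` the minimum is at most `1`: SMB. Let
`Z x = ∑ s ∈ T with κ x + 2 ≤ s.k, 4^(κ x - s.k) wt 10 (s.u x)`. The `s ∈ T` of one scale `j` have
different `s.l` (`m_eq` at `ξ`). (1) Always `Z x ≤ ∑_{i ≥ 2} 4^(-i) * 8 ≤ 8` (WTS, `D = 0`). (2) If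
`|2^(-K) x - Λ| ≥ 2` then `|s.u x| ≥ 2^(K - j) |2^(-K) x - Λ| / 2` for `s.k = j ≤ K` (as in SMB, see
P_SMB.lean), so by WTS `Z x ≤ ∑_{j ≤ K} 8 (2^(K-j) |2^(-K) x - Λ| / 2)^(-8)
≤ C wt 8 (2^(-K) x - Λ)`. Together `Z x ≤ C' wt 8 (2^(-K) x - Λ)`; WTI. -/
def T_SMC : Prop := ∃ C : ℝ, 0 < C ∧ ∀ (T : Finset Tile) (K Λ : ℤ) (ξ : ℝ) (κ : ℝ → ℤ),
  Tree T K Λ ξ → Stop T κ →
    ∑ s ∈ T, ∫ x, min 1 ((4 : ℝ) ^ (κ x - s.k)) * wt 10 (s.u x) ≤ C * (2 : ℝ) ^ K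

/-- FAV. Proof: let `a = κ x + 2`; `Stop.near` gives `s0 ∈ T`, `s0.k ≤ a`, `|x - z| ≤ 2^a` for
`z ∈ s0.I`; `s0.I ⊆ dy a l'` (`dy_sub_anc`), not heavy: with `r = 3` the measure of
`{y ∈ F, |2^(-a) y - l'| ≤ 3}` is at most `3 lam 2^a = 12 lam 2^(κ x)`. This set contains
`F ∩ Jx κ x`: `2^(-a) |y - x| ≤ 1/4`, `2^(-a) |x - z| ≤ 1`, `2^(-a) z - l' ∈ [0, 1)`. -/
def T_FAV : Prop := ∀ (lam : ℝ) (F : Set ℝ), MeasurableSet F → volume F ≠ ⊤ → 0 < lam →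
  ∀ (T : Finset Tile) (κ : ℝ → ℤ), Stop T κ →
  (∀ s ∈ T, ∀ k l : ℤ, s.I ⊆ dy k l → ¬ heavy lam F k l) →
    ∀ x, vol (F ∩ Jx κ x) ≤ 12 * lam * (2 : ℝ) ^ κ x

/-- PRJ. Modulated averages. Proof: `p x = e1 (x ξ) * 2^(-κ x) * ∫ y in Jx κ x, f y * e1 (-(y ξ))`,
`‖p x‖ ≤ 2^(-κ x) vol (F ∩ Jx κ x) ≤ Q`. Let `k x y = 2^(-κ x) 1[y ∈ Jx κ x]`; it is symmetric
(`y ∈ Jx κ x` gives `κ y = κ x` and `x ∈ Jx κ y`) and measurable (countable union over `κ x = k`,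
`l`). With `ψ1 x = ψ x * e1 (-(x ξ))`, by Fubini (`∫∫ k x y ‖f y‖ ‖ψ x‖ ≤ Q ∫ ‖ψ‖`)
`∫ p conj ψ = ∫ x, ∫ y, k x y * f y * e1 (-(y ξ)) * conj (ψ1 x) =
∫ y, f y * e1 (-(y ξ)) * (∫ x, k y x * conj (ψ1 x))`, and `∫ x, k y x = 1`,
`∫ f conj ψ = ∫ y, f y * e1 (-(y ξ)) * conj (ψ1 y)`. So the difference is at most
`∫ y, ‖f y‖ * ∫ x, k y x * ‖ψ1 y - ψ1 x‖ ≤ ∫ y in F, Θ y`. -/
def T_PRJ : Prop := ∀ κ : ℝ → ℤ, Measurable κ → (∀ x y, y ∈ Jx κ x → κ y = κ x) →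
  ∀ (Q ξ : ℝ) (F : Set ℝ) (f : ℝ → ℂ), BF 1 F f → (∀ x, vol (F ∩ Jx κ x) ≤ Q * (2 : ℝ) ^ κ x) →
  ∃ p : ℝ → ℂ, Measurable p ∧ (∀ x, ‖p x‖ ≤ Q) ∧ ∀ (ψ : ℝ → ℂ) (Θ : ℝ → ℝ), Continuous ψ →
    Integrable ψ → Measurable Θ → (∀ x, 0 ≤ Θ x) → (∃ M, ∀ x, Θ x ≤ M) →
    (∀ x y, y ∈ Jx κ x → ‖ψ x * e1 (-(x * ξ)) - ψ y * e1 (-(y * ξ))‖ ≤ Θ x) →
      ‖(∫ x, f x * conj (ψ x)) - ∫ x, p x * conj (ψ x)‖ ≤ ∫ x in F, Θ x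

/-- ERR (from TH1, PRJ, AVG, WTI, FXB). Proof: `p` from PRJ with `Q = lam`; for `s ∈ T` take
`ψ = fx φ s`, `Θ x = C1 hs s min 1 (2^(κ x - s.k)) wt 10 (s.u x)` (TH1; `ξ ∈ s.up`). So the
difference is at most `∫ x in F, Θ x`; AVG with `G = F`, `W` = everything, `Q = lam`, `h = Θ`,
`H = 2^10 Θ` (TH1 (2), `κ y = κ x`) gives `≤ 2^10 lam ∫ Θ`. Cauchy-Schwarz:
`(∫ Θ)^2 ≤ C1^2 (hs s)^2 (∫ min 1 (4^(κ x - s.k)) wt 10 (s.u x)) (∫ wt 10 (s.u x))`,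
`(hs s)^2 = 2^(-s.k)`, the last integral is at most `2 * 2^(s.k)` (WTI). -/
def T_ERR : Prop := ∀ A : ℝ, ∃ C : ℝ, 0 < C ∧ ∀ φ Φ : ℝ → ℂ, WPk A φ Φ →
  ∀ (F : Set ℝ) (f : ℝ → ℂ) (lam : ℝ) (T : Finset Tile) (K Λ : ℤ) (ξ : ℝ) (κ : ℝ → ℤ), BF 1 F f →
  0 < lam → PTree T K Λ ξ → Stop T κ → (∀ x, vol (F ∩ Jx κ x) ≤ lam * (2 : ℝ) ^ κ x) →
  ∃ p : ℝ → ℂ, Measurable p ∧ (∀ x, ‖p x‖ ≤ lam) ∧ ∀ s ∈ T,
    ‖cf φ f s - cf φ p s‖ ^ 2 ≤ C * lam ^ 2 * ∫ x, min 1 ((4 : ℝ) ^ (κ x - s.k)) * wt 10 (s.u x)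

/-- ENF (from STOP, FAV, ERR, ENB, SMC). Proof: `T` nonempty, `κ` from STOP, `vol (F ∩ Jx κ x) ≤
12 lam 2^(κ x)` (FAV), `p` from ERR with `12 lam`. `‖cf f s‖^2 ≤ 2 ‖cf p s‖^2 + 2 ‖cf f s - cf p
s‖^2`; ENB for `p` (`h = 12 lam`), SMC for the errors (a (+)-tree is a tree, `up_sub`). -/
def T_ENF : Prop := ∀ A : ℝ, ∃ C : ℝ, 0 < C ∧ ∀ φ Φ : ℝ → ℂ, WPk A φ Φ →
  ∀ (F : Set ℝ) (f : ℝ → ℂ) (lam : ℝ), BF 1 F f → 0 < lam →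
  ∀ (T : Finset Tile) (K Λ : ℤ) (ξ : ℝ), PTree T K Λ ξ →
  (∀ s ∈ T, ∀ k l : ℤ, s.I ⊆ dy k l → ¬ heavy lam F k l) →
    ∑ s ∈ T, ‖cf φ f s‖ ^ 2 ≤ C * lam ^ 2 * (2 : ℝ) ^ K

/-! ### the exceptional set -/

/-- DNW. Proof: `wt 4 u ≤ 1_{|u| ≤ 1} + ∑_{j ≥ 1} 2^(-4 (j-1)) 1_{|u| ≤ 2^j}`, and not heavy with
`r = 2^j` gives measure at most `lam 2^j 2^k`: total `lam 2^k (1 + 16 ∑_{j ≥ 1} 8^(-j)) ≤
4 lam 2^k`. (`lintegral_tsum`; see also `MASS.lean`.) -/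
def T_DNW : Prop := ∀ (lam : ℝ) (F : Set ℝ) (k l : ℤ), MeasurableSet F → volume F ≠ ⊤ →
  0 < lam → ¬ heavy lam F k l →
    ∫ x in F, wt 4 ((2 : ℝ) ^ (-k) * x - l) ≤ 8 * lam * (2 : ℝ) ^ k

/-- EXC (from HL.lean, `HL.weak`). Proof: a countable union of intervals, so measurable. If `x ∈
dy k l` is heavy with `r`, the set `{|2^(-k) y - l| ≤ r}` lies in the interval with centre `x` and
radius `(r + 1) 2^k`, so the average of `1_F` over this interval is at least `lam r 2^k / (2 (r +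
1) 2^k) ≥ lam / 4`; weak type (1,1) of the maximal function. -/
def T_EXC : Prop := ∃ C : ℝ, 0 < C ∧ ∀ (lam : ℝ) (F : Set ℝ), MeasurableSet F → volume F ≠ ⊤ →
  0 < lam → MeasurableSet (GG lam F) ∧
    volume (GG lam F) ≤ ENNReal.ofReal (C * vol F / lam)

/-- TA1 (from FXB). One interval. Proof: `‖cf φ f s‖ ≤ ∫_F A hs s wt 20 (s.u x)`, `‖av φ b N s‖ ≤
∫_{E, N x ∈ s.up} A hs s wt 20 (s.u x)`, and the sets `s.up` for different `s ∈ S` (same `k`, `l`,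
different `m`) are disjoint; `(hs s)^2 = 2^(-k)`. `C = A^2`. -/
def T_TA1 : Prop := ∀ A : ℝ, ∃ C : ℝ, 0 < C ∧ ∀ φ Φ : ℝ → ℂ, WPk A φ Φ →
  ∀ (f b : ℝ → ℂ) (N : ℝ → ℝ) (F E : Set ℝ), BF 1 F f → BF 1 E b → Measurable N →
  ∀ (k l : ℤ) (S : Finset Tile), (∀ s ∈ S, s.k = k ∧ s.l = l) →
    ∑ s ∈ S, ‖cf φ f s‖ * ‖av φ b N s‖ ≤
      C * (2 : ℝ) ^ (-k) * (∫ x in F, wt 20 ((2 : ℝ) ^ (-k) * x - l)) *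
        ∫ x in E, wt 20 ((2 : ℝ) ^ (-k) * x - l)

/-- TA2 (from DNW, WTI). Proof: `u x = 2^(-k) x - l`; `D` = infimum of `|u x|` over `x ∉ GG lam F`
(not empty). `∫_E wt 20 (u x) ≤ wt 18 D * ∫ wt 2 (u x) ≤ 2 * 2^k wt 18 D`. Take `z ∉ GG lam F` with
`|u z| ≤ D + 1` and `l' = ⌊2^(-k) z⌋`: `dy k l'` contains `z`, so it is not heavy; DNW:
`∫_F wt 4 (2^(-k) x - l') ≤ 8 lam 2^k`; `|l - l'| ≤ D + 2`, so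
`wt 4 (u x) ≤ (3 + D)^4 wt 4 (2^(-k) x - l')`. Product at most
`2^(-k) * 81 (1 + D)^4 * 8 lam 2^k * 2 * 2^k (1 + D)^(-18)`. -/
def T_TA2 : Prop := ∃ C : ℝ, 0 < C ∧ ∀ (lam : ℝ) (F E : Set ℝ) (k l : ℤ), MeasurableSet F →
  volume F ≠ ⊤ → MeasurableSet E → 0 < lam → (∃ x, x ∉ GG lam F) → (∀ x ∈ E, x ∉ GG lam F) →
  ∃ D : ℝ, 0 ≤ D ∧ (∃ x, x ∉ GG lam F ∧ |(2 : ℝ) ^ (-k) * x - l| ≤ D + 1) ∧
    (2 : ℝ) ^ (-k) * (∫ x in F, wt 20 ((2 : ℝ) ^ (-k) * x - l)) *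
      (∫ x in E, wt 20 ((2 : ℝ) ^ (-k) * x - l)) ≤ C * lam * (2 : ℝ) ^ k * wt 10 D

/-- TA3 (from WTS). Proof: let `J p = (k', l')`, `p = (k, l)`, `n = k' - k ≥ 0`, so `2^n l' ≤ l <
2^n (l' + 1)`. A point `x ∉ dy k' l'` has `|2^(-k) x - l| ≥ l - 2^n l'` or `≥ 2^n (l' + 1) - l`;
so one of these integers is at most `D p + 1` and `wt 10 (D p) ≤ 2^10 (wt 10 (2^n l' - l) + wt 10
(2^n (l' + 1) - l))`. For fixed `(k', l')` and `k` the sum over `l` is at most `2^14` (WTS), the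
sum over `k ≤ k'` of `2^k` is at most `2 * 2^(k')`. The different `dy (J p)` are disjoint subsets
of `G`. -/
def T_TA3 : Prop := ∃ C : ℝ, 0 < C ∧ ∀ G : Set ℝ, MeasurableSet G → volume G ≠ ⊤ →
  ∀ (P : Finset (ℤ × ℤ)) (J : ℤ × ℤ → ℤ × ℤ) (D : ℤ × ℤ → ℝ),
  (∀ p ∈ P, dy p.1 p.2 ⊆ dy (J p).1 (J p).2 ∧ dy (J p).1 (J p).2 ⊆ G) →
  (∀ p ∈ P, ∀ q ∈ P, J p = J q ∨ Disjoint (dy (J p).1 (J p).2) (dy (J q).1 (J q).2)) →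
  (∀ p ∈ P, 0 ≤ D p ∧ ∃ x, x ∉ dy (J p).1 (J p).2 ∧ |(2 : ℝ) ^ (-p.1) * x - p.2| ≤ D p + 1) →
    ∑ p ∈ P, (2 : ℝ) ^ p.1 * wt 10 (D p) ≤ C * vol G

/-- TAI (from EXC, TA1, TA2, TA3). Tiles in the exceptional set. Proof: `P` = the set of the
`(s.k, s.l)`, `s ∈ S`. A heavy interval satisfies `lam 2^k ≤ lam r 2^k < vol F`, so its scale is
bounded; for `p ∈ P` let `J p` be the heavy interval containing `dy p` with maximal scale. Two of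
the `dy (J p)` are equal or disjoint (`dy_nest`, maximality), all are subsets of `GG lam F`. Since
`GG lam F` has finite measure it has a complement; `D p` from TA2 (a point `x ∉ GG lam F` is not
in `dy (J p)`). The sum is at most `∑_p C1 C2 lam 2^(p.1) wt 10 (D p) ≤ C lam vol (GG lam F) ≤ C'
vol F` (TA1, TA2, TA3, EXC). -/
def T_TAI : Prop := ∀ A : ℝ, ∃ C : ℝ, 0 < C ∧ ∀ φ Φ : ℝ → ℂ, WPk A φ Φ →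
  ∀ (f b : ℝ → ℂ) (N : ℝ → ℝ) (F E : Set ℝ) (lam : ℝ), BF 1 F f → BF 1 E b → Measurable N →
  0 < lam → (∀ x ∈ E, x ∉ GG lam F) → ∀ S : Finset Tile,
  (∀ s ∈ S, ∃ k l : ℤ, s.I ⊆ dy k l ∧ heavy lam F k l) →
    ∑ s ∈ S, ‖cf φ f s‖ * ‖av φ b N s‖ ≤ C * vol F

/-! ### summation with an energy cap -/

/-- STP2 (from DNB, ENER, MASS, TREE). As STEP (take P_STEP.lean by helper47): in the proof TREE is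
applied to subsets of `S` with the energy bound `min eps e0` (`En S eps` and `En S e0` give
`En S (min eps e0)`, both are `≥ 0`). -/
def T_STP2 : Prop := ∀ A : ℝ, ∃ C : ℝ, 0 < C ∧ ∀ (φ Φ g b : ℝ → ℂ) (N : ℝ → ℝ) (E : Set ℝ),
  WPk A φ Φ → Dat g b N E → ∀ (S : Finset Tile) (eps mu e0 : ℝ), 0 < eps → 0 < mu → 0 ≤ e0 →
  En (cc Φ g) S e0 → En (cc Φ g) S eps → Ms E N S mu →
  ∃ S' ⊆ S, En (cc Φ g) S' (eps / 2) ∧ Ms E N S' (mu / 4) ∧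
    ∑ s ∈ S \ S', cc Φ g s * ‖av φ b N s‖ ≤
      C * min eps e0 * min mu 2 * (n2 g ^ 2 / eps ^ 2 + vol E / mu)

/-- SUM2 (from DNB, STP2). As SUM (take P_SUM.lean by helper47). Proof: `V = vol E > 0` (otherwise
all `av` vanish), `eps_n = 2^n r`, `mu_n = 4^n`. STP2 from `n` to `n - 1` costs at most
`C min (2^n r) e0 * min (4^n) 2 * (n2 g ^ 2 / (4^n r^2) + V / 4^n) ≤
2 C V * min (2^n r) e0 * min 1 (2 / 4^n)`. Sum over `n ≥ 1`: `≤ 4 C V e0`. Sum over `n ≤ 0`: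
`∑_{m ≥ 0} min (2^(-m) r) e0 ≤ e0 (1 + log (1 + r / e0) / log 2) + 2 e0` (number of `m` with
`2^(-m) r > e0`, then a geometric series). The start and the rest (limit `0`) as in SUM. -/
def T_SUM2 : Prop := ∀ A : ℝ, ∃ C : ℝ, 0 < C ∧ ∀ (φ Φ g b : ℝ → ℂ) (N : ℝ → ℝ) (E : Set ℝ),
  WPk A φ Φ → Dat g b N E → ∀ (S : Finset Tile) (r e0 : ℝ), 0 < r → 0 < e0 →
  n2 g ≤ r * Real.sqrt (vol E) → En (cc Φ g) S e0 →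
    ∑ s ∈ S, cc Φ g s * ‖av φ b N s‖ ≤ C * vol E * e0 * (1 + Real.log (1 + r / e0))

/-- TRF (from FXB, FXR). Transfer to the Fourier side. Proof: let `R` be such that `fr Φ s ξ = 0`
for `|ξ| > R`, `s ∈ S`; `g ξ = ft f ξ` for `|ξ| ≤ R` and `0` otherwise (bounded by `∫ ‖f‖`,
continuous on `[-R, R]`). `co Φ g s = ∫ ξ, ∫ x, f x * e1 (-(x ξ)) * conj (fr Φ s ξ) = ∫ x, f x *
conj (∫ ξ, fr Φ s ξ * e1 (x ξ)) = cf φ f s` (Fubini, FXR). `n2 g ≤ n2 f`: Plancherel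
(`Pool.Agent.H25.Plancherel.eLpNorm_fourier_eq`; `ft f` is the Fourier transform of Mathlib). -/
def T_TRF : Prop := ∀ (A : ℝ) (φ Φ : ℝ → ℂ), WPk A φ Φ → ∀ f : ℝ → ℂ, Measurable f →
  Integrable f → Integrable (fun x => ‖f x‖ ^ 2) → ∀ S : Finset Tile,
  ∃ g : ℝ → ℂ, Measurable g ∧ Integrable g ∧ Integrable (fun ξ => ‖g ξ‖ ^ 2) ∧ n2 g ≤ n2 f ∧
    ∀ s ∈ S, co Φ g s = cf φ f s

/-- RA (from TRF, ENB, SUM2). Proof: `V = vol E > 0`, `r = √(vol F / vol E) ≥ 1`, `g` from TRF: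
`n2 g ≤ n2 f ≤ √(vol F) = r √V`; ENB with `h = 1`: `En (cc Φ g) S e0` for `e0 = √C1 + 1 ≥ 1`. SUM2:
`≤ C V e0 (1 + log (1 + r))` and `1 + log (1 + r) ≤ 3 √r` for `r ≥ 1` (`log t ≤ 2 (√t - 1)`);
`V √r = √(V * √(V * vol F))`. -/
def T_RA : Prop := ∀ A : ℝ, ∃ C : ℝ, 0 < C ∧ ∀ φ Φ : ℝ → ℂ, WPk A φ Φ →
  ∀ (f b : ℝ → ℂ) (N : ℝ → ℝ) (F E : Set ℝ), BF 1 F f → BF 1 E b → Measurable N →
  vol E ≤ vol F → ∀ S : Finset Tile,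
    ∑ s ∈ S, ‖cf φ f s‖ * ‖av φ b N s‖ ≤
      C * Real.sqrt (vol E * Real.sqrt (vol E * vol F))

/-- RB (from TRF, ENF, SUM2, EXC, TAI, RA). Write `X = √(vol F * √(vol E * vol F))`; as `vol F ≤
vol E` we have `vol F ≤ X`. If `vol F = 0` all `cf` vanish. Proof by induction on `n` for all `b`,
`E` with `vol E ≤ 16^n vol F`, constant `M = 2 (C4 + C5 + C6)`. `n = 0`: RA. Step: `C1` from EXC,
`lam = 16 C1 vol F / vol E`, so `GG = GG lam F` has measure at most `vol E / 16`. `S2` = the `s ∈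
S` contained in a heavy interval, `S1` = the others. `S1`: TRF, ENF: `En (cc Φ g) S1 (√C2 lam)`;
SUM2 with `r = √(vol F / vol E)`: `≤ C3 vol E √C2 lam (1 + log (1 + r / (√C2 lam))) = 16 C1 C3 √C2
vol F (1 + log (1 + t / (16 C1 √C2)))`, `t = √(vol E / vol F) ≥ 1`, `≤ C4 vol F √t = C4 X`. `S2`:
`b = b 1_{E \ GG} + b 1_{E ∩ GG}`. First part: TAI, `≤ C5 vol F ≤ C5 X`. Second part, `E1 = E ∩
GG`: if `vol E1 ≤ vol F`: RA, `≤ C6 √(vol E1 * √(vol E1 * vol F)) ≤ C6 vol F`; otherwise the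
induction hypothesis and `vol E1 ≤ vol E / 16`: `≤ M √(vol F * √(vol E * vol F / 16)) = M X / 2`.
-/
def T_RB : Prop := ∀ A : ℝ, ∃ C : ℝ, 0 < C ∧ ∀ φ Φ : ℝ → ℂ, WPk A φ Φ →
  ∀ (f b : ℝ → ℂ) (N : ℝ → ℝ) (F E : Set ℝ), BF 1 F f → BF 1 E b → Measurable N →
  vol F ≤ vol E → ∀ S : Finset Tile,
    ∑ s ∈ S, ‖cf φ f s‖ * ‖av φ b N s‖ ≤
      C * Real.sqrt (vol F * Real.sqrt (vol E * vol F))

/-! ### interpolation -/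

/-- MAR (elementary). Proof: put `x = 4^k al k`, `y = 4^l be l`. For `l ≤ k` the term is at most
`(x + y) √(2^(l-k))`: with `min ≤ al k` it is at most
`2^k 2^l (al k)^(3/4) (be l)^(1/4) = x^(3/4) y^(1/4) 2^((l-k)/2)`. For `k ≤ l` in the same way at
most `(x + y) √(2^(k-l))`. Sum: `∑_{k, l} (x_k + y_l) √(2^(-|k-l|)) ≤ 2 * ∑_{i : ℤ} √(2^(-|i|))
≤ 2 * 7`. -/
def T_MAR : Prop := ∃ C : ℝ, 0 < C ∧ ∀ (I : Finset ℤ) (al be : ℤ → ℝ), (∀ k, 0 ≤ al k) →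
  (∀ k, 0 ≤ be k) → ∑ k ∈ I, (4 : ℝ) ^ k * al k ≤ 1 → ∑ l ∈ I, (4 : ℝ) ^ l * be l ≤ 1 →
    ∑ k ∈ I, ∑ l ∈ I, (2 : ℝ) ^ k * (2 : ℝ) ^ l *
      Real.sqrt (min (al k) (be l) * Real.sqrt (al k * be l)) ≤ C

/-- INT (from FXB, RA, RB, MAR). Marcinkiewicz interpolation. Proof: if `n2 f = 0` or `n2 b = 0`
the left side is `0`; dividing by the norms we may assume `n2 f = n2 b = 1` (`BF (h / n2 f) F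
..`). `F_k = {x | 2^k < ‖f x‖ ≤ 2^(k+1)}`, `f_k = f 1_{F_k}`, in the same way `E_l`, `b_l`;
`∑_{|k| ≤ n} 4^k vol F_k ≤ ∫ ‖f‖^2 = 1`. RA, RB for `f_k / 2^(k+1)`, `b_l / 2^(l+1)`: `∑_s ‖cf f_k
s‖ ‖av b_l s‖ ≤ 4 C 2^k 2^l √(min (vol F_k) (vol E_l) * √(vol F_k * vol E_l))`, so by MAR the sum
over `|k|, |l| ≤ n` is at most `4 C C'`. For large `n` the rests `f - ∑_{|k| ≤ n} f_k`, `b - ∑
b_l` are bounded by `2^(-n)` (as `f`, `b` are bounded), so `‖cf rest s‖`, `‖av rest s‖` are at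
most `2^(-n) ∫ ‖fx φ s‖` and tend to `0`; `‖cf f_k s‖` summed over `k` is at most `∫ ‖f‖ ‖fx φ
s‖`, the same for `b`. `n → ∞`. -/
def T_INT : Prop := ∀ A : ℝ, ∃ C : ℝ, 0 < C ∧ ∀ φ Φ : ℝ → ℂ, WPk A φ Φ →
  ∀ (f b : ℝ → ℂ) (N : ℝ → ℝ) (F E : Set ℝ) (h h' : ℝ), BF h F f → BF h' E b → Measurable N →
  ∀ S : Finset Tile, ∑ s ∈ S, ‖cf φ f s‖ * ‖av φ b N s‖ ≤ C * n2 f * n2 b

/-- MODS (from FXB, FXR, INT). The strong form of MODEL. Proof: `f x = ∫ ξ, g ξ * e1 (x ξ)`,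
continuous, `‖f x‖ ≤ ∫ ‖g‖`; `cf φ f s = co Φ g s` (Fubini: `∫ x, conj (fx φ s x) * e1 (x ξ) =
conj (fr Φ s ξ)`, FXR). `f_n = f 1_{[-n, n]}` is `BF`, `cf φ f_n s → cf φ f s` (dominated
convergence), `n2 f_n ≤ n2 f = n2 g` (Plancherel for `g`,
`Pool.Agent.H25.Plancherel.eLpNorm_fourier_eq`). `Dat` gives `BF 1 E b`. INT for `f_n`,
`n → ∞`. -/
def T_MODS : Prop := ∀ A : ℝ, ∃ C : ℝ, 0 < C ∧ ∀ (φ Φ g b : ℝ → ℂ) (N : ℝ → ℝ) (E : Set ℝ),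
  WPk A φ Φ → Dat g b N E → ∀ S : Finset Tile,
    ∑ s ∈ S, ‖co Φ g s‖ * ‖av φ b N s‖ ≤ C * n2 g * n2 b

/-! ### the averaging part with `‖b‖₂` (adapt P_AVB, P_SCK, P_LIM, P_CARL1) -/

/-- AVBS (from MODS, YN). As AVB (P_AVB.lean) with `n2 b` in place of `√(vol E)`
(`n2 (b(x) e1 (2^K θ x)) = n2 b`). -/
def T_AVBS : Prop := ∀ (A : ℝ) (ρ : ℝ → ℝ), Bmp A ρ → ∃ C : ℝ, 0 < C ∧
  ∀ (g b : ℝ → ℂ) (N : ℝ → ℝ) (E : Set ℝ), Dat g b N E → ∀ K : ℕ,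
    ‖∫ x, b x * ∑ k ∈ Finset.Icc (-(K : ℤ)) K,
      ∫ ξ, g ξ * (Bt ρ ((2 : ℝ) ^ k) (N x - ξ) : ℂ) * e1 (x * ξ)‖ ≤ C * n2 g * n2 b

/-- SCKS (from AVBS). As SCK (P_SCK.lean): `b'(x) = b(λ x)`, `n2 b' = λ^(-1/2) n2 b`. -/
def T_SCKS : Prop := ∀ (A : ℝ) (ρ : ℝ → ℝ), Bmp A ρ → ∃ C : ℝ, 0 < C ∧
  ∀ (g b : ℝ → ℂ) (N : ℝ → ℝ) (E : Set ℝ), Dat g b N E → ∀ (K : ℕ) (r : ℝ), 0 < r →
    ‖∫ x, b x * ∑ k ∈ Finset.Icc (-(K : ℤ)) K,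
      ∫ ξ, g ξ * (Bt ρ (r * (2 : ℝ) ^ k) (N x - ξ) : ℂ) * e1 (x * ξ)‖ ≤ C * n2 g * n2 b

/-- LIMS (from WPEX, SCKS, BT). As LIM (P_LIM.lean). -/
def T_LIMS : Prop := ∃ C : ℝ, 0 < C ∧
  ∀ (g b : ℝ → ℂ) (N : ℝ → ℝ) (E : Set ℝ), Dat g b N E →
    ‖∫ x, b x * ∫ ξ in Iio (N x), g ξ * e1 (x * ξ)‖ ≤ C * n2 g * n2 b

/-- CARLS (strong type): the final statement. -/
def T_CARLS : Prop := ∃ C : ℝ≥0, ∀ g : ℝ → ℂ, Measurable g → Integrable g →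
  Integrable (fun ξ => ‖g ξ‖ ^ 2) →
    ∫⁻ x, (⨆ n : ℝ, ‖∫ ξ in Iio n, g ξ * e1 (x * ξ)‖ₑ) ^ 2 ≤ C * ∫⁻ ξ, ‖g ξ‖ₑ ^ 2

/-- CARS (job: `theorem p_CARS : T_CARS`). As CARL1 (P_CARL1.lean): reduce to finitely many
rational `n` and a measurable `N x` among them with maximal `‖F x‖`, `F x = ∫ ξ in Iio (N x), g ξ
* e1 (x ξ)`, `‖F x‖ ≤ ∫ ‖g‖ ≤ M`, `M > 0`. Take `E = [-R, R]` and `b x = conj (F x) / M` on `E`,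
`0` outside: `Dat g b N E`; LIMS gives `M^(-1) ∫_E ‖F‖^2 ≤ C n2 g M^(-1) (∫_E ‖F‖^2)^(1/2)`, so
`∫_E ‖F‖^2 ≤ C^2 n2 g ^2`. `R → ∞` and monotone convergence over the finite sets of rationals. -/
def T_CARS : Prop := T_LIMS → T_CARLS

end Pool.Agent.CAR
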